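import Pool.Agent.P.MP_ab3ecb_nt.Sums

/-!
Sums over prime ideals of degree one, from the pole of the Dedekind zeta function.
-/

namespace Pool.Agent.P.MP_ab3ecb_nt

open Finset Filter Topology NumberField Ideal
open scoped Classical

set_option linter.unusedSectionVars false
set_option maxHeartbeats 400000

variable (K : Type) [Field K] [NumberField K]

/-- The ideals of a given norm. -/
noncomputable def idl (n : ℕ) : Finset (Ideal (𝓞 K)) := (finite_setOfPred_absNorm_eq n).toFinset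

variable {K} in
lemma mem_idl {n : ℕ} {I : Ideal (𝓞 K)} : I ∈ idl K n ↔ absNorm I = n := by simp [idl]

lemma zeta_bounds : ∃ ρ : ℝ, 0 < ρ ∧ ∀ᶠ s : ℝ in 𝓝[>] 1, ∃ Z : ℝ,
    HasSum (fun n : ℕ => ((idl K n).card : ℝ) * (n : ℝ) ^ (-s)) Z ∧
      ρ / 2 ≤ (s - 1) * Z ∧ (s - 1) * Z ≤ 2 * ρ := by
  have hρ := dedekindZeta_residue_pos K
  refine ⟨_, hρ, ?_⟩
  have h := (tendsto_sub_one_mul_dedekindZeta_nhdsGT K).norm
  rw [Complex.norm_real, Real.norm_of_nonneg hρ.le] at h
  filter_upwards [h.eventually (lt_mem_nhds (half_lt_self hρ)),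
    h.eventually (gt_mem_nhds (by linarith : dedekindZeta_residue K < 2 * dedekindZeta_residue K)),
    self_mem_nhdsWithin] with s h1 h2 h3
  have hs : 1 < s := h3
  have hne : dedekindZeta K s ≠ 0 := by
    intro h0
    rw [h0, mul_zero, norm_zero] at h1
    linarith
  have hsum : LSeriesSummable (fun n ↦ (Nat.card {I : Ideal (𝓞 K) // absNorm I = n} : ℂ)) s := by
    by_contra hcon
    exact hne (LSeries.eq_zero_of_not_LSeriesSummable _ _ hcon)
  have hterm : ∀ n : ℕ, LSeries.term (fun n ↦ (Nat.card {I : Ideal (𝓞 K) // absNorm I = n} : ℂ)) s n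
      = ((((idl K n).card : ℝ) * (n : ℝ) ^ (-s) : ℝ) : ℂ) := by
    intro n
    have e : Nat.card {I : Ideal (𝓞 K) // absNorm I = n} = (idl K n).card :=
      Nat.subtype_card _ fun I => mem_idl
    rw [LSeries.term_of_ne_zero' (by exact_mod_cast (by linarith : s ≠ 0)), e,
      Real.rpow_neg (Nat.cast_nonneg n)]
    push_cast
    rw [Complex.ofReal_cpow (Nat.cast_nonneg n)]
    simp [div_eq_mul_inv]
  have h4 : HasSum _ (dedekindZeta K s) := hsum.hasSum
  have h5 : Summable fun n : ℕ => ((idl K n).card : ℝ) * (n : ℝ) ^ (-s) := by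
    rw [← Complex.summable_ofReal]
    exact hsum.congr hterm
  have h6 : dedekindZeta K s = ((∑' n : ℕ, ((idl K n).card : ℝ) * (n : ℝ) ^ (-s) : ℝ) : ℂ) := by
    rw [Complex.ofReal_tsum]
    exact tsum_congr hterm
  have h7 : 0 ≤ ∑' n : ℕ, ((idl K n).card : ℝ) * (n : ℝ) ^ (-s) :=
    tsum_nonneg fun n => by positivity
  rw [h6, ← Complex.ofReal_one, ← Complex.ofReal_sub, ← Complex.ofReal_mul, Complex.norm_real,
    Real.norm_of_nonneg (mul_nonneg (by linarith) h7)] at h1 h2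
  exact ⟨_, h5.hasSum, h1.le, h2.le⟩

variable {K}

lemma sum_biUnion_idl (F : Finset ℕ) (s : ℝ) :
    ∑ I ∈ F.biUnion (idl K), (absNorm I : ℝ) ^ (-s)
      = ∑ n ∈ F, ((idl K n).card : ℝ) * (n : ℝ) ^ (-s) := by
  rw [Finset.sum_biUnion]
  · refine Finset.sum_congr rfl fun n _ => ?_
    rw [Finset.sum_congr rfl fun I hI => by rw [mem_idl.mp hI], Finset.sum_const, nsmul_eq_mul]
  · intro m _ n _ hmn
    simp only [Function.onFun]
    rw [Finset.disjoint_left]
    intro I h1 h2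
    exact hmn ((mem_idl.mp h1).symm.trans (mem_idl.mp h2))

lemma sum_ideals_le {s Z : ℝ}
    (h : HasSum (fun n : ℕ => ((idl K n).card : ℝ) * (n : ℝ) ^ (-s)) Z)
    (T : Finset (Ideal (𝓞 K))) : ∑ I ∈ T, (absNorm I : ℝ) ^ (-s) ≤ Z := by
  calc _ ≤ ∑ I ∈ (T.image absNorm).biUnion (idl K), (absNorm I : ℝ) ^ (-s) :=
        Finset.sum_le_sum_of_subset_of_nonneg (fun I hI => mem_biUnion.mpr
          ⟨_, mem_image_of_mem _ hI, mem_idl.mpr rfl⟩) fun _ _ _ => by positivity
    _ ≤ Z := by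
        rw [sum_biUnion_idl]
        exact sum_le_hasSum _ (fun n _ => by positivity) h

lemma prime_of_mem_idl {p : ℕ} (hp : p.Prime) {I : Ideal (𝓞 K)} (hI : I ∈ idl K p) : Prime I := by
  rw [mem_idl] at hI
  refine Ideal.prime_of_isPrime ?_ (isPrime_of_irreducible_absNorm (hI ▸ hp))
  rintro rfl
  rw [absNorm_bot] at hI
  exact hp.ne_zero hI.symm

lemma two_le_absNorm {P : Ideal (𝓞 K)} (hP : Prime P) : 2 ≤ absNorm P := by
  have h0 : absNorm P ≠ 0 := fun h => hP.ne_zero (absNorm_eq_zero_iff.mp h)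
  have h1 : absNorm P ≠ 1 := fun h => hP.not_isUnit (Ideal.isUnit_iff.mpr (absNorm_eq_one_iff.mp h))
  omega

variable (K) in
lemma ideal_upper : ∃ C : ℝ, ∀ᶠ s : ℝ in 𝓝[>] 1, ∀ P : Finset ℕ, (∀ p ∈ P, p.Prime) →
    ∑ p ∈ P, ((idl K p).card : ℝ) * (p : ℝ) ^ (-s) ≤ Real.log (1 / (s - 1)) + C := by
  obtain ⟨ρ, hρ, h⟩ := zeta_bounds K
  have h2 : ∀ᶠ s : ℝ in 𝓝[>] 1, s < 2 := nhdsWithin_le_nhds (gt_mem_nhds (by norm_num))
  obtain ⟨s0, ⟨Z0, hZ0, -⟩, hs0⟩ := (h.and h2).exists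
  refine ⟨Real.log (2 * ρ) + Z0, ?_⟩
  filter_upwards [h, self_mem_nhdsWithin] with s ⟨Z, hZ, _, hZ2⟩ h3 P hP
  have hs : 1 < s := h3
  rw [← sum_biUnion_idl]
  set Q := P.biUnion (idl K)
  have hQ : ∀ I ∈ Q, Prime I := fun I hI => by
    obtain ⟨p, h1, h2⟩ := mem_biUnion.mp hI
    exact prime_of_mem_idl (hP p h1) h2
  refine (sum_le_log_prod Q _ fun _ _ => by positivity).trans ?_
  have h4 : ∏ I ∈ Q, (1 + (absNorm I : ℝ) ^ (-s)) ≤ Z := by
    rw [Finset.prod_one_add]
    have e : ∀ t : Finset (Ideal (𝓞 K)), ∏ a ∈ t, (absNorm a : ℝ) ^ (-s)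
        = (absNorm (∏ a ∈ t, a) : ℝ) ^ (-s) := by
      intro t
      rw [map_prod, Nat.cast_prod, Real.finsetProd_rpow _ _ fun _ _ => by positivity]
    simp_rw [e]
    rw [← Finset.sum_image (s := Q.powerset) (g := fun t : Finset (Ideal (𝓞 K)) => ∏ a ∈ t, a)
      (f := fun I => (absNorm I : ℝ) ^ (-s))]
    · exact sum_ideals_le hZ _
    · have key : ∀ t ∈ Q.powerset, ∀ u ∈ Q.powerset, ∏ a ∈ t, a = ∏ a ∈ u, a → t ⊆ u := by
        intro t ht u hu h a ha
        have ha' := hQ a (mem_powerset.mp ht ha)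
        have : a ∣ ∏ a ∈ u, a := h ▸ Finset.dvd_prod_of_mem _ ha
        obtain ⟨b, hb, h5⟩ := (ha'.dvd_finsetProd_iff _).mp this
        rwa [(prime_dvd_prime_iff_eq ha' (hQ b (mem_powerset.mp hu hb))).mp h5]
      intro t ht u hu h
      exact Finset.Subset.antisymm (key t ht u hu h) (key u hu t ht h.symm)
  have h5 : ∑ I ∈ Q, ((absNorm I : ℝ) ^ (-s)) ^ 2 ≤ Z0 := by
    refine le_trans (Finset.sum_le_sum fun I hI => ?_) (sum_ideals_le hZ0 Q)
    rw [← Real.rpow_natCast, ← Real.rpow_mul (by positivity)]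
    apply Real.rpow_le_rpow_of_exponent_le
    · exact_mod_cast (by have := two_le_absNorm (hQ I hI); omega : 1 ≤ absNorm I)
    · push_cast; linarith
  have h6 : Z ≤ 2 * ρ * (1 / (s - 1)) := by
    rw [mul_one_div, le_div_iff₀ (by linarith)]
    linarith
  have h7 := Real.log_le_log (Finset.prod_pos fun _ _ => by positivity) (h4.trans h6)
  rw [Real.log_mul (by positivity) (by have : 0 < s - 1 := by linarith
                                       positivity)] at h7
  linarith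

lemma card_primes_le {p : ℕ} (hp : p.Prime) (T : Finset (Ideal (𝓞 K)))
    (hT : ∀ P ∈ T, Prime P ∧ (p : 𝓞 K) ∈ P) : T.card ≤ Module.finrank ℤ (𝓞 K) := by
  have h1 : ∏ P ∈ T, P ∣ span {(p : 𝓞 K)} := Finset.prod_primes_dvd _ (fun P hP => (hT P hP).1)
    fun P hP => Ideal.dvd_span_singleton.mpr (hT P hP).2
  have h2 := map_dvd absNorm h1
  rw [absNorm_span_natCast, map_prod] at h2
  have h3 : p ^ T.card ≤ ∏ P ∈ T, absNorm P := by
    rw [← Finset.prod_const]
    refine Finset.prod_le_prod' fun P hP => ?_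
    obtain ⟨k, -, hk⟩ := (Nat.dvd_prime_pow hp).mp ((Finset.dvd_prod_of_mem _ hP).trans h2)
    have := two_le_absNorm (hT P hP).1
    rw [hk] at this ⊢
    refine Nat.le_self_pow ?_ _
    rintro rfl
    simp at this
  exact (Nat.pow_le_pow_iff_right hp.one_lt).mp (h3.trans (Nat.le_of_dvd (pow_pos hp.pos _) h2))

lemma card_idl_le {p : ℕ} (hp : p.Prime) : (idl K p).card ≤ Module.finrank ℤ (𝓞 K) :=
  card_primes_le hp _ fun P hP => ⟨prime_of_mem_idl hp hP, mem_idl.mp hP ▸ absNorm_mem P⟩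

lemma euler_le {s : ℝ} (hs : 1 ≤ s) (T Q : Finset (Ideal (𝓞 K))) (hT : ∀ I ∈ T, I ≠ ⊥)
    (hQ : ∀ P ∈ Q, Prime P)
    (hTQ : ∀ I ∈ T, (UniqueFactorizationMonoid.normalizedFactors I).toFinset ⊆ Q) :
    ∑ I ∈ T, (absNorm I : ℝ) ^ (-s)
      ≤ Real.exp (∑ P ∈ Q, ((absNorm P : ℝ) ^ (-s) + 2 * ((absNorm P : ℝ) ^ (-s)) ^ 2)) := by
  set N := T.sup (fun I => (UniqueFactorizationMonoid.normalizedFactors I).card) + 1
  set ex : Ideal (𝓞 K) → Q → ℕ := fun I P =>
    (UniqueFactorizationMonoid.normalizedFactors I).count (P : Ideal (𝓞 K)) with hex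
  have hI : ∀ I ∈ T, I = ∏ P : Q, (P : Ideal (𝓞 K)) ^ ex I P := by
    intro I hI
    conv_lhs => rw [← Ideal.prod_normalizedFactors_eq_self (hT I hI),
      Finset.prod_multiset_count_of_subset _ Q (hTQ I hI), ← Finset.prod_coe_sort]
  calc _ = ∑ I ∈ T, ∏ P : Q, ((absNorm (P : Ideal (𝓞 K)) : ℝ) ^ (-s)) ^ ex I P := by
        refine Finset.sum_congr rfl fun I h => ?_
        conv_lhs => rw [hI I h, map_prod, Nat.cast_prod,
          ← Real.finsetProd_rpow _ _ fun _ _ => by positivity]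
        refine Finset.prod_congr rfl fun P _ => ?_
        rw [map_pow, Nat.cast_pow, Real.rpow_pow_comm (by positivity)]
    _ = ∑ e ∈ T.image ex, ∏ P : Q, ((absNorm (P : Ideal (𝓞 K)) : ℝ) ^ (-s)) ^ e P := by
        rw [Finset.sum_image]
        intro I h1 I' h2 h
        rw [hI I h1, hI I' h2, h]
    _ ≤ ∑ e ∈ Fintype.piFinset (fun _ : Q => range N),
          ∏ P : Q, ((absNorm (P : Ideal (𝓞 K)) : ℝ) ^ (-s)) ^ e P := by
        refine Finset.sum_le_sum_of_subset_of_nonneg ?_ fun _ _ _ => by positivity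
        intro e he
        obtain ⟨I, h1, rfl⟩ := mem_image.mp he
        refine Fintype.mem_piFinset.mpr fun P => mem_range.mpr (Nat.lt_succ_of_le ?_)
        exact (Multiset.count_le_card _ _).trans
          (Finset.le_sup (f := fun I => (UniqueFactorizationMonoid.normalizedFactors I).card) h1)
    _ = ∏ P : Q, ∑ k ∈ range N, ((absNorm (P : Ideal (𝓞 K)) : ℝ) ^ (-s)) ^ k :=
        (Finset.prod_univ_sum (fun _ : Q => range N)
          fun P k => ((absNorm (P : Ideal (𝓞 K)) : ℝ) ^ (-s)) ^ k).symm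
    _ ≤ _ := by
        rw [Real.exp_sum, ← Finset.prod_coe_sort Q]
        refine Finset.prod_le_prod (fun _ _ => Finset.sum_nonneg fun _ _ => by positivity)
          fun P _ => ?_
        have h2 : (2 : ℝ) ≤ absNorm (P : Ideal (𝓞 K)) := by
          exact_mod_cast two_le_absNorm (hQ P P.2)
        have h3 : (absNorm (P : Ideal (𝓞 K)) : ℝ) ^ (-s) ≤ 1 / 2 := by
          calc _ ≤ (absNorm (P : Ideal (𝓞 K)) : ℝ) ^ (-1 : ℝ) :=
                Real.rpow_le_rpow_of_exponent_le (by linarith) (by linarith)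
            _ ≤ 1 / 2 := by
                rw [Real.rpow_neg_one, one_div]
                exact inv_anti₀ (by norm_num) h2
        have h4 : 0 ≤ (absNorm (P : Ideal (𝓞 K)) : ℝ) ^ (-s) := by positivity
        generalize (absNorm (P : Ideal (𝓞 K)) : ℝ) ^ (-s) = t at h3 h4
        refine le_trans ?_ (Real.add_one_le_exp _)
        have h5 : (∑ k ∈ range N, t ^ k) * (1 - t) = 1 - t ^ N := by
          rw [← neg_sub t 1, mul_neg, geom_sum_mul]; ring
        have h6 : 0 ≤ t ^ N := by positivity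
        by_contra hcon
        have h7 := mul_lt_mul_of_pos_right (not_le.mp hcon) (by linarith : 0 < 1 - t)
        nlinarith [mul_nonneg (mul_nonneg h4 h4) (by linarith : 0 ≤ 1 - 2 * t)]

variable (K) in
lemma ideal_lower : ∃ C : ℝ, ∀ᶠ s : ℝ in 𝓝[>] 1, ∃ P : Finset ℕ, (∀ p ∈ P, p.Prime) ∧
    Real.log (1 / (s - 1)) - C ≤ ∑ p ∈ P, ((idl K p).card : ℝ) * (p : ℝ) ^ (-s) := by
  obtain ⟨ρ, hρ, h⟩ := zeta_bounds K
  have h2 : ∀ᶠ s : ℝ in 𝓝[>] 1, s < 2 := nhdsWithin_le_nhds (gt_mem_nhds (by norm_num))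
  obtain ⟨s0, ⟨Z0, hZ0, -⟩, hs0⟩ := (h.and h2).exists
  refine ⟨- Real.log (ρ / 4) + 2 * Z0 + 2 * Module.finrank ℤ (𝓞 K), ?_⟩
  filter_upwards [h, self_mem_nhdsWithin] with s ⟨Z, hZ, hZ1, _⟩ h3
  have hs : 1 < s := h3
  have hs1 : 0 < s - 1 := by linarith
  have hZpos : 0 < Z := pos_of_mul_pos_left (lt_of_lt_of_le (half_pos hρ) (mul_comm _ Z ▸ hZ1)) hs1.le
  obtain ⟨F, hF⟩ := (hZ.eventually (lt_mem_nhds (half_lt_self hZpos))).exists
  set T := (F.erase 0).biUnion (idl K) with hT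
  have hT0 : ∀ I ∈ T, I ≠ ⊥ := by
    intro I hI
    obtain ⟨n, h1, h2⟩ := mem_biUnion.mp hI
    rintro rfl
    exact ne_of_mem_erase h1 (by rw [← mem_idl.mp h2, absNorm_bot])
  have hT1 : Z / 2 ≤ ∑ I ∈ T, (absNorm I : ℝ) ^ (-s) := by
    rw [hT, sum_biUnion_idl, Finset.sum_erase _ (by
      rw [Nat.cast_zero, Real.zero_rpow (by linarith), mul_zero])]
    exact hF.le
  set Q := T.biUnion fun I => (UniqueFactorizationMonoid.normalizedFactors I).toFinset
  have hQ : ∀ P ∈ Q, Prime P := by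
    intro P hP
    obtain ⟨I, -, h2⟩ := mem_biUnion.mp hP
    exact UniqueFactorizationMonoid.prime_of_normalized_factor P (Multiset.mem_toFinset.mp h2)
  have h4 := euler_le hs.le T Q hT0 hQ fun I hI P hP => mem_biUnion.mpr ⟨I, hI, hP⟩
  have h5 : ρ / 4 * (1 / (s - 1)) ≤ Z / 2 := by
    rw [mul_one_div, div_le_iff₀ hs1]
    linarith
  have h6 := (Real.log_le_iff_le_exp (by positivity)).mpr (h5.trans (hT1.trans h4))
  rw [Real.log_mul (by positivity) (by positivity), Finset.sum_add_distrib, ← Finset.mul_sum,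
    ← Finset.sum_filter_add_sum_filter_not Q fun P => (absNorm P).Prime] at h6
  have h7 : ∑ I ∈ Q, ((absNorm I : ℝ) ^ (-s)) ^ 2 ≤ Z0 := by
    refine le_trans (Finset.sum_le_sum fun I hI => ?_) (sum_ideals_le hZ0 Q)
    rw [← Real.rpow_natCast, ← Real.rpow_mul (by positivity)]
    apply Real.rpow_le_rpow_of_exponent_le
    · exact_mod_cast (by have := two_le_absNorm (hQ I hI); omega : 1 ≤ absNorm I)
    · push_cast; linarith
  have h8 : ∑ P ∈ Q with ¬ (absNorm P).Prime, (absNorm P : ℝ) ^ (-s)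
      ≤ 2 * Module.finrank ℤ (𝓞 K) := by
    set Q2 := Q.filter fun P => ¬ (absNorm P).Prime
    have k1 : ∀ P ∈ Q2, (absNorm P).minFac.Prime ∧ (((absNorm P).minFac : ℕ) : 𝓞 K) ∈ P ∧
        (absNorm P).minFac ^ 2 ≤ absNorm P := by
      intro P hP
      have hP' := hQ P (mem_filter.mp hP).1
      have := (Ideal.isPrime_of_prime hP').isMaximal hP'.ne_zero
      obtain ⟨p, n, hn, hm, hp, e⟩ := exists_prime_and_absNorm_eq_pow P
      rw [e, hp.pow_minFac hn.ne']
      refine ⟨hp, hm, Nat.pow_le_pow_right hp.pos ?_⟩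
      by_contra hcon
      have : n = 1 := by omega
      exact (mem_filter.mp hP).2 (by rw [e, this, pow_one]; exact hp)
    rw [← Finset.sum_fiberwise_of_maps_to (t := Q2.image fun P => (absNorm P).minFac)
      (g := fun P => (absNorm P).minFac) fun P hP => mem_image_of_mem _ hP]
    calc _ ≤ ∑ p ∈ Q2.image fun P => (absNorm P).minFac,
          (Module.finrank ℤ (𝓞 K) : ℝ) * (p : ℝ) ^ (-(2 : ℝ)) := by
          refine Finset.sum_le_sum fun p hp => ?_
          obtain ⟨P0, h0, rfl⟩ := mem_image.mp hp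
          have hp := (k1 P0 h0).1
          generalize (absNorm P0).minFac = p at hp
          calc _ ≤ ∑ P ∈ Q2 with (absNorm P).minFac = p, (p : ℝ) ^ (-(2 : ℝ)) := by
                refine Finset.sum_le_sum fun P hP => ?_
                obtain ⟨m1, m2⟩ := mem_filter.mp hP
                have m3 := (k1 P m1).2.2
                rw [m2] at m3
                have m4 : (p : ℝ) ^ 2 ≤ absNorm P := by exact_mod_cast m3
                have m5 : (1 : ℝ) ≤ p := by exact_mod_cast hp.one_le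
                calc _ ≤ (absNorm P : ℝ) ^ (-1 : ℝ) := Real.rpow_le_rpow_of_exponent_le
                      ((one_le_pow₀ m5).trans m4) (by linarith)
                  _ ≤ _ := by
                      rw [Real.rpow_neg_one, Real.rpow_neg (by positivity), Real.rpow_two]
                      exact inv_anti₀ (by positivity) m4
            _ ≤ _ := by
                rw [Finset.sum_const, nsmul_eq_mul]
                gcongr
                refine card_primes_le hp _ fun P hP => ?_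
                obtain ⟨m1, m2⟩ := mem_filter.mp hP
                exact ⟨hQ P (mem_filter.mp m1).1, m2 ▸ (k1 P m1).2.1⟩
      _ ≤ _ := by
          rw [← Finset.mul_sum, mul_comm]
          gcongr
          refine (sum_rpow_le (by norm_num) _ fun n hn => ?_).trans (by norm_num)
          obtain ⟨P0, h0, rfl⟩ := mem_image.mp hn
          exact (k1 P0 h0).1.ne_zero
  refine ⟨(Q.filter fun P => (absNorm P).Prime).image absNorm, fun p hp => ?_, ?_⟩
  · obtain ⟨P, h1, rfl⟩ := mem_image.mp hp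
    exact (mem_filter.mp h1).2
  · rw [← sum_biUnion_idl]
    have h9 : ∑ P ∈ Q with (absNorm P).Prime, (absNorm P : ℝ) ^ (-s) ≤
        ∑ I ∈ ((Q.filter fun P => (absNorm P).Prime).image absNorm).biUnion (idl K),
          (absNorm I : ℝ) ^ (-s) :=
      Finset.sum_le_sum_of_subset_of_nonneg (fun I hI => mem_biUnion.mpr
        ⟨_, mem_image_of_mem _ hI, mem_idl.mpr rfl⟩) fun _ _ _ => by positivity
    linarith

lemma exists_hom_of_idl {p : ℕ} (hp : p.Prime) (h : (idl K p).card ≠ 0) :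
    Nonempty (𝓞 K →+* ZMod p) := by
  obtain ⟨I, hI⟩ := Finset.card_ne_zero.mp h
  rw [mem_idl] at hI
  have : Finite (𝓞 K ⧸ I) := (absNorm_ne_zero_iff I).mp (hI ▸ hp.ne_zero)
  let := Fintype.ofFinite (𝓞 K ⧸ I)
  have hc : Fintype.card (𝓞 K ⧸ I) = p := by
    rw [← Nat.card_eq_fintype_card, ← hI]
    rfl
  exact ⟨(ZMod.ringEquivOfPrime _ hp hc).symm.toRingHom.comp (Ideal.Quotient.mk I)⟩

lemma ker_mem_idl {p : ℕ} (ψ : 𝓞 K →+* ZMod p) : RingHom.ker ψ ∈ idl K p := by
  rw [mem_idl]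
  have := Nat.card_congr (RingHom.quotientKerEquivOfSurjective (ZMod.ringHom_surjective ψ)).toEquiv
  rw [Nat.card_zmod] at this
  exact this

end Pool.Agent.P.MP_ab3ecb_nt
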