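import Mathlib

/-!
An elementary bilinear bound for Jacobi symbols.
-/

namespace Pool.Agent.P.MP_ab3ecb_nt

open Finset
open scoped NumberTheorySymbols

lemma exists_jac_neg_aux {a a' l : ℕ} (ha : Squarefree a) (h2 : Odd a)
    (hl : l.Prime) (hla : l ∣ a) (hla' : ¬ l ∣ a') :
    ∃ n : ℤ, J(n | a) * J(n | a') = -1 := by
  obtain ⟨a1, rfl⟩ := hla
  have : Fact l.Prime := ⟨hl⟩
  have hl2 : l ≠ 2 := by
    rintro rfl
    exact (Nat.not_even_iff_odd.mpr h2) (by simp)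
  have hcop1 : Nat.Coprime l a1 := Nat.coprime_of_squarefree_mul ha
  have ha1 : a1 ≠ 0 := by
    rintro rfl
    simp at ha
  have hcop : Nat.Coprime l (a1 * a') :=
    Nat.Coprime.mul_right hcop1 ((Nat.Prime.coprime_iff_not_dvd hl).mpr hla')
  obtain ⟨r, hr⟩ := FiniteField.exists_nonsquare (F := ZMod l) (by rw [ZMod.ringChar_zmod_n]; exact hl2)
  obtain ⟨n, hn1, hn2⟩ := Nat.chineseRemainder hcop r.val 1
  refine ⟨n, ?_⟩
  have e1 : J((n : ℤ) | l) = -1 := by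
    rw [← jacobiSym.legendreSym.to_jacobiSym, legendreSym.eq_neg_one_iff]
    have : ((n : ℤ) : ZMod l) = r := by
      rw [Int.cast_natCast, (ZMod.natCast_eq_natCast_iff _ _ _).mpr hn1, ZMod.natCast_zmod_val]
    rwa [this]
  have e2 : ∀ b : ℕ, b ∣ a1 * a' → J((n : ℤ) | b) = 1 := by
    intro b hb
    have h : (n : ℤ) % b = 1 % b := by
      have := hn2.of_dvd hb
      exact_mod_cast (Int.natCast_modEq_iff.mpr this : (n : ℤ) ≡ (1 : ℕ) [ZMOD b])
    rw [jacobiSym.mod_left' h, jacobiSym.one_left]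
  rw [jacobiSym.mul_right' _ hl.ne_zero ha1, e1, e2 a1 (dvd_mul_right _ _),
    e2 a' (dvd_mul_left _ _)]
  norm_num

lemma exists_jac_neg {a a' : ℕ} (ha : Squarefree a) (ha' : Squarefree a') (h2 : Odd a)
    (h2' : Odd a') (hne : a ≠ a') : ∃ n : ℤ, J(n | a) * J(n | a') = -1 := by
  by_contra hcon
  apply hne
  rw [← Nat.prod_primeFactors_of_squarefree ha, ← Nat.prod_primeFactors_of_squarefree ha']
  congr 1
  ext l
  simp only [Nat.mem_primeFactors, ne_eq, ha.ne_zero, ha'.ne_zero, not_false_eq_true, and_true]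
  constructor
  · rintro ⟨hl, h⟩
    refine ⟨hl, ?_⟩
    by_contra h'
    exact hcon (exists_jac_neg_aux ha h2 hl h h')
  · rintro ⟨hl, h⟩
    refine ⟨hl, ?_⟩
    by_contra h'
    obtain ⟨n, hn⟩ := exists_jac_neg_aux ha' h2' hl h h'
    exact hcon ⟨n, by rw [mul_comm]; exact hn⟩

lemma sum_jac_period {m : ℕ} (hm : m ≠ 0) {n0 : ℤ} (h : J(n0 | m) = -1) :
    ∑ n ∈ range m, J((n : ℤ) | m) = 0 := by
  have : NeZero m := ⟨hm⟩
  have hsum : ∀ φ : ℕ → ℤ, ∑ n ∈ range m, φ n = ∑ z : ZMod m, φ z.val := by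
    intro φ
    refine Finset.sum_bij' (fun n _ => (n : ZMod m)) (fun z _ => z.val) (by simp)
      (fun z _ => mem_range.mpr (ZMod.val_lt z)) ?_ ?_ ?_
    · intro n hn
      exact ZMod.val_cast_of_lt (mem_range.mp hn)
    · intro z _
      exact ZMod.natCast_zmod_val z
    · intro n hn
      rw [ZMod.val_cast_of_lt (mem_range.mp hn)]
  have hu : IsUnit (n0 : ZMod m) := by
    have hg : n0.gcd m = 1 := by
      by_contra hg
      rw [jacobiSym.eq_zero_iff_not_coprime.mpr hg] at h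
      norm_num at h
    rw [ZMod.coe_int_isUnit_iff_isCoprime]
    exact (Int.isCoprime_iff_gcd_eq_one.mpr hg).symm
  obtain ⟨u, hu⟩ := hu
  rw [hsum]
  have e : ∑ z : ZMod m, J(((z.val : ℕ) : ℤ) | m)
      = ∑ z : ZMod m, J(((((u : ZMod m) * z).val : ℕ) : ℤ) | m) :=
    (Equiv.sum_comp (Units.mulLeft u) (fun z : ZMod m => J(((z.val : ℕ) : ℤ) | m))).symm
  have e2 : ∀ z : ZMod m, J(((((u : ZMod m) * z).val : ℕ) : ℤ) | m) = - J(((z.val : ℕ) : ℤ) | m) := by
    intro z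
    have : (((((u : ZMod m) * z).val : ℕ) : ℤ)) % m = (n0 * ((z.val : ℕ) : ℤ)) % m := by
      apply (ZMod.intCast_eq_intCast_iff' _ _ _).mp
      push_cast
      simp [hu]
    rw [jacobiSym.mod_left' this, jacobiSym.mul_left, h]
    ring
  simp_rw [e2, Finset.sum_neg_distrib] at e
  linarith

lemma abs_jac_le (a : ℤ) (b : ℕ) : |(J(a | b) : ℝ)| ≤ 1 := by
  rcases jacobiSym.trichotomy a b with h | h | h <;> simp [h]

lemma abs_sum_jac_le {m : ℕ} (hm : m ≠ 0) {n0 : ℤ} (h : J(n0 | m) = -1) (N : ℕ) :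
    |∑ n ∈ range N, (J((n : ℤ) | m) : ℝ)| ≤ m := by
  induction N using Nat.strong_induction_on with
  | _ N ih =>
    by_cases hN : N ≤ m
    · calc _ ≤ ∑ n ∈ range N, |(J((n : ℤ) | m) : ℝ)| := Finset.abs_sum_le_sum_abs _ _
        _ ≤ ∑ n ∈ range N, (1 : ℝ) := Finset.sum_le_sum fun n _ => abs_jac_le _ _
        _ ≤ m := by simpa using hN
    · obtain ⟨k, rfl⟩ : ∃ k, N = m + k := ⟨N - m, by omega⟩
      rw [Finset.sum_range_add]
      have e1 : ∑ n ∈ range m, (J((n : ℤ) | m) : ℝ) = 0 := by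
        exact_mod_cast sum_jac_period hm h
      have e2 : ∀ x : ℕ, J(((m + x : ℕ) : ℤ) | m) = J((x : ℤ) | m) := by
        intro x
        apply jacobiSym.mod_left'
        push_cast
        simp
      simp_rw [e2]
      rw [e1, zero_add]
      exact ih k (by omega)

/-- The Cauchy-Schwarz step. -/
lemma cs_step (S : Finset ℕ) (A N : ℕ) (hS : ∀ a ∈ S, Squarefree a ∧ Odd a ∧ a ≤ A)
    (η γ : ℕ → ℝ) (hη : ∀ a, |η a| ≤ 1) :
    (∑ a ∈ S, η a * ∑ n ∈ range N, γ n * J((n : ℤ) | a)) ^ 2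
      ≤ (∑ n ∈ range N, γ n ^ 2) * (N * A + A ^ 4) := by
  have hcard : (S.card : ℝ) ≤ A := by
    have : S ⊆ Icc 1 A := fun a ha =>
      mem_Icc.mpr ⟨Nat.pos_of_ne_zero (hS a ha).1.ne_zero, (hS a ha).2.2⟩
    have := card_le_card this
    simp only [Nat.card_Icc, add_tsub_cancel_right] at this
    exact_mod_cast this
  have e1 : ∑ a ∈ S, η a * ∑ n ∈ range N, γ n * J((n : ℤ) | a)
      = ∑ n ∈ range N, γ n * ∑ a ∈ S, η a * J((n : ℤ) | a) := by
    simp_rw [Finset.mul_sum]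
    rw [Finset.sum_comm]
    refine Finset.sum_congr rfl fun n _ => Finset.sum_congr rfl fun a _ => by ring
  rw [e1]
  refine (Finset.sum_mul_sq_le_sq_mul_sq _ _ _).trans ?_
  refine mul_le_mul_of_nonneg_left ?_ (Finset.sum_nonneg fun _ _ => sq_nonneg _)
  have e2 : ∑ n ∈ range N, (∑ a ∈ S, η a * J((n : ℤ) | a)) ^ 2
      = ∑ a ∈ S, ∑ a' ∈ S, η a * η a' * ∑ n ∈ range N, (J((n : ℤ) | a) * J((n : ℤ) | a') : ℝ) := by
    simp_rw [sq, Finset.sum_mul_sum, Finset.mul_sum]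
    rw [Finset.sum_comm]
    refine Finset.sum_congr rfl fun a _ => ?_
    rw [Finset.sum_comm]
    refine Finset.sum_congr rfl fun a' _ => Finset.sum_congr rfl fun n _ => by ring
  rw [e2]
  have hb : ∀ a ∈ S, ∀ a' ∈ S,
      η a * η a' * ∑ n ∈ range N, (J((n : ℤ) | a) * J((n : ℤ) | a') : ℝ)
        ≤ (if a = a' then (N : ℝ) else 0) + (A : ℝ) ^ 2 := by
    intro a ha a' ha'
    refine (le_abs_self _).trans ?_
    rw [abs_mul, abs_mul]
    have h1 : |η a| * |η a'| ≤ 1 := mul_le_one₀ (hη a) (abs_nonneg _) (hη a')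
    refine (mul_le_of_le_one_left (abs_nonneg _) h1).trans ?_
    split_ifs with h
    · calc _ ≤ ∑ n ∈ range N, |(J((n : ℤ) | a) * J((n : ℤ) | a') : ℝ)| :=
            Finset.abs_sum_le_sum_abs _ _
        _ ≤ ∑ n ∈ range N, (1 : ℝ) := Finset.sum_le_sum fun n _ => by
            rw [abs_mul]
            exact mul_le_one₀ (abs_jac_le _ _) (abs_nonneg _) (abs_jac_le _ _)
        _ ≤ _ := by simp
    · obtain ⟨n0, hn0⟩ := exists_jac_neg (hS a ha).1 (hS a' ha').1 (hS a ha).2.1 (hS a' ha').2.1 h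
      have h0 := (hS a ha).1.ne_zero
      have h0' := (hS a' ha').1.ne_zero
      rw [← jacobiSym.mul_right' _ h0 h0'] at hn0
      have := abs_sum_jac_le (mul_ne_zero h0 h0') hn0 N
      simp_rw [jacobiSym.mul_right' _ h0 h0'] at this
      push_cast at this
      refine this.trans ?_
      rw [zero_add, sq]
      have k1 : (a : ℝ) ≤ A := by exact_mod_cast (hS a ha).2.2
      have k2 : (a' : ℝ) ≤ A := by exact_mod_cast (hS a' ha').2.2
      exact mul_le_mul k1 k2 (Nat.cast_nonneg _) (Nat.cast_nonneg _)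
  calc _ ≤ ∑ a ∈ S, ∑ a' ∈ S, ((if a = a' then (N : ℝ) else 0) + (A : ℝ) ^ 2) :=
        Finset.sum_le_sum fun a ha => Finset.sum_le_sum fun a' ha' => hb a ha a' ha'
    _ = ∑ a ∈ S, ((N : ℝ) + S.card * (A : ℝ) ^ 2) := by
        refine Finset.sum_congr rfl fun a ha => ?_
        rw [Finset.sum_add_distrib, Finset.sum_ite_eq]
        simp [ha]
    _ = S.card * ((N : ℝ) + S.card * (A : ℝ) ^ 2) := by simp [mul_add]
    _ ≤ A * ((N : ℝ) + A * (A : ℝ) ^ 2) := by gcongr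
    _ = _ := by ring

/-- The divisor bound. -/
lemma card_divisors_pow_le (k : ℕ) :
    ∃ C : ℕ, 1 ≤ C ∧ ∀ n : ℕ, n ≠ 0 → n.divisors.card ^ k ≤ C * n := by
  obtain ⟨C0, hC0⟩ : ∃ C0 : ℕ, 1 ≤ C0 ∧ ∀ e : ℕ, (e + 1) ^ k ≤ C0 * 2 ^ e := by
    refine ⟨2 * k.factorial * 2 ^ k, ?_, fun e => ?_⟩
    · exact Nat.succ_le_of_lt (by positivity)
    · have h1 := Real.pow_div_factorial_le_exp ((e + 1 : ℕ) * (1 / 2 : ℝ)) (by positivity) k
      have h2 : Real.exp ((e + 1 : ℕ) * (1 / 2 : ℝ)) ≤ 2 ^ (e + 1) := by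
        rw [Real.exp_nat_mul]
        gcongr
        have := Real.exp_one_lt_d9
        have h3 : Real.exp (1 / 2) * Real.exp (1 / 2) = Real.exp 1 := by
          rw [← Real.exp_add]; norm_num
        nlinarith [Real.exp_pos (1 / 2 : ℝ)]
      have h4 := h1.trans h2
      rw [div_le_iff₀ (by positivity), mul_pow] at h4
      have h5 : (((e + 1 : ℕ) : ℝ)) ^ k ≤ 2 * k.factorial * 2 ^ k * 2 ^ e := by
        have h6 : ((1 / 2 : ℝ)) ^ k * 2 ^ k = 1 := by rw [← mul_pow]; norm_num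
        calc (((e + 1 : ℕ) : ℝ)) ^ k = (((e + 1 : ℕ) : ℝ)) ^ k * (1 / 2) ^ k * 2 ^ k := by
              rw [mul_assoc, h6, mul_one]
          _ ≤ 2 ^ (e + 1) * k.factorial * 2 ^ k := by gcongr
          _ = _ := by ring
      exact_mod_cast h5
  refine ⟨C0 ^ 2 ^ k, Nat.one_le_pow _ _ hC0.1, fun n hn => ?_⟩
  rw [Nat.card_divisors hn, ← Finset.prod_pow]
  have hb : ∀ p ∈ n.primeFactors, (n.factorization p + 1) ^ k
      ≤ (if p < 2 ^ k then C0 else 1) * p ^ n.factorization p := by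
    intro p hp
    have hp2 := (Nat.prime_of_mem_primeFactors hp).two_le
    split_ifs with h
    · exact (hC0.2 _).trans (by gcongr)
    · rw [one_mul]
      calc (n.factorization p + 1) ^ k ≤ (2 ^ n.factorization p) ^ k := by
            gcongr
            exact Nat.lt_two_pow_self
        _ = (2 ^ k) ^ n.factorization p := by rw [← pow_mul, ← pow_mul, mul_comm]
        _ ≤ _ := by gcongr; omega
  refine (Finset.prod_le_prod' hb).trans ?_
  rw [Finset.prod_mul_distrib]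
  have e1 : ∏ p ∈ n.primeFactors, p ^ n.factorization p = n :=
    Nat.prod_factorization_pow_eq_self hn
  rw [e1]
  gcongr
  rw [Finset.prod_ite, Finset.prod_const_one, mul_one, Finset.prod_const]
  apply Nat.pow_le_pow_right hC0.1
  calc _ ≤ (range (2 ^ k)).card := card_le_card fun p hp => by
        simp only [mem_filter] at hp
        exact mem_range.mpr hp.2
    _ = _ := card_range _

lemma card_le_of_le (T : Finset ℕ) (B : ℕ) (hT : ∀ b ∈ T, b ≠ 0 ∧ b ≤ B) : (T.card : ℝ) ≤ B := by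
  have : T ⊆ Icc 1 B := fun a ha => mem_Icc.mpr ⟨Nat.pos_of_ne_zero (hT a ha).1, (hT a ha).2⟩
  have := card_le_card this
  simp only [Nat.card_Icc, add_tsub_cancel_right] at this
  exact_mod_cast this

lemma core_long (S T : Finset ℕ) (A B : ℕ) (hS : ∀ a ∈ S, Squarefree a ∧ Odd a ∧ a ≤ A)
    (hT : ∀ b ∈ T, b ≠ 0 ∧ b ≤ B) (β : ℕ → ℝ) (hβ : ∀ b, |β b| ≤ 1) (hA : 1 ≤ A)
    (hAB : A ^ 3 ≤ B) :
    (∑ a ∈ S, |∑ b ∈ T, β b * J((b : ℤ) | a)|) ^ 2 ≤ 3 * A * B ^ 2 := by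
  set L : ℕ → ℝ := fun a => ∑ b ∈ T, β b * J((b : ℤ) | a) with hL
  have hsub : T ⊆ range (B + 1) := fun b hb => mem_range.mpr (Nat.lt_succ_of_le (hT b hb).2)
  have h := cs_step S A (B + 1) hS (fun a => if 0 ≤ L a then 1 else -1)
    (fun n => if n ∈ T then β n else 0) (fun a => by split_ifs <;> simp)
  have e1 : ∀ a, ∑ n ∈ range (B + 1), (if n ∈ T then β n else 0) * (J((n : ℤ) | a) : ℝ) = L a := by
    intro a
    simp_rw [ite_mul, zero_mul]
    rw [Finset.sum_ite_mem, inter_eq_right.mpr hsub]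
  have e2 : ∀ a, (if 0 ≤ L a then (1 : ℝ) else -1) * L a = |L a| := by
    intro a
    split_ifs with h
    · rw [one_mul, abs_of_nonneg h]
    · rw [abs_of_neg (not_le.mp h)]; ring
  simp_rw [e1, e2] at h
  refine h.trans ?_
  have e3 : ∑ n ∈ range (B + 1), (if n ∈ T then β n else 0) ^ 2 ≤ (B : ℝ) := by
    calc _ ≤ ∑ n ∈ range (B + 1), (if n ∈ T then (1 : ℝ) else 0) := by
          refine Finset.sum_le_sum fun n _ => ?_
          split_ifs
          · rw [← sq_abs]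
            exact pow_le_one₀ (abs_nonneg _) (hβ n)
          · simp
      _ = T.card := by rw [Finset.sum_ite_mem, inter_eq_right.mpr hsub]; simp
      _ ≤ B := card_le_of_le T B hT
  have k1 : (1 : ℝ) ≤ A := by exact_mod_cast hA
  have k2 : (A : ℝ) ^ 3 ≤ B := by exact_mod_cast hAB
  have k3 : (1 : ℝ) ≤ B := (one_le_pow₀ k1).trans k2
  calc _ ≤ (B : ℝ) * ((B + B) * A + B * A) := by
        gcongr
        · push_cast; linarith
        · calc (A : ℝ) ^ 4 = A ^ 3 * A := by ring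
            _ ≤ _ := by gcongr
    _ = _ := by ring

lemma core_short : ∃ C : ℝ, 1 ≤ C ∧ ∀ (S T : Finset ℕ) (A B : ℕ),
    (∀ a ∈ S, Squarefree a ∧ Odd a ∧ a ≤ A) → (∀ b ∈ T, b ≠ 0 ∧ b ≤ B) →
    ∀ β : ℕ → ℝ, (∀ b, |β b| ≤ 1) → 1 ≤ A → A ≤ B → B ≤ A ^ 3 →
    (∑ a ∈ S, |∑ b ∈ T, β b * J((b : ℤ) | a)|) ^ 16 ≤ C * A ^ 15 * B ^ 16 := by
  obtain ⟨C, hC1, hC⟩ := card_divisors_pow_le 96
  refine ⟨9 * C, by exact_mod_cast (by omega : 1 ≤ 9 * C), ?_⟩
  intro S T A B hS hT β hβ hA hAB hBA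
  set L : ℕ → ℝ := fun a => ∑ b ∈ T, β b * J((b : ℤ) | a) with hL
  set Q : Finset (Fin 4 → ℕ) := Fintype.piFinset fun _ => T with hQ
  set γ : ℕ → ℝ := fun n => ∑ t ∈ Q with ∏ i, t i = n, ∏ i, β (t i) with hγ
  have hmaps : ∀ t ∈ Q, ∏ i, t i ∈ range (B ^ 4 + 1) := by
    intro t ht
    rw [mem_range, Nat.lt_succ_iff]
    calc ∏ i, t i ≤ ∏ _i : Fin 4, B :=
          Finset.prod_le_prod' fun i _ => (hT _ (Fintype.mem_piFinset.mp ht i)).2
      _ = B ^ 4 := by simp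
  have h := cs_step S A (B ^ 4 + 1) hS (fun _ => 1) γ (fun a => by simp)
  have e1 : ∀ a, ∑ n ∈ range (B ^ 4 + 1), γ n * (J((n : ℤ) | a) : ℝ) = L a ^ 4 := by
    intro a
    have : L a ^ 4 = ∑ t ∈ Q, ∏ i, (β (t i) * (J(((t i : ℕ) : ℤ) | a) : ℝ)) := by
      rw [hQ, ← Finset.prod_univ_sum (fun _ : Fin 4 => T)
        (fun _ b => β b * (J(((b : ℕ) : ℤ) | a) : ℝ))]
      simp [hL]
    rw [this, ← Finset.sum_fiberwise_of_maps_to hmaps]
    refine Finset.sum_congr rfl fun n _ => ?_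
    rw [hγ, Finset.sum_mul]
    refine Finset.sum_congr rfl fun t ht => ?_
    rw [← (mem_filter.mp ht).2, Finset.prod_mul_distrib]
    simp only [Fin.prod_univ_four]
    push_cast
    simp only [jacobiSym.mul_left]
    push_cast
    ring
  simp_rw [e1, one_mul] at h
  have k1 : (1 : ℝ) ≤ A := by exact_mod_cast hA
  have k2 : (A : ℝ) ≤ B := by exact_mod_cast hAB
  have k3 : (1 : ℝ) ≤ B := k1.trans k2
  have hr : ∀ n ∈ range (B ^ 4 + 1), ((Q.filter fun t => ∏ i, t i = n).card : ℝ) ≤ √(C * A) := by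
    intro n hn
    rcases (Q.filter fun t => ∏ i, t i = n).eq_empty_or_nonempty with h0 | ⟨t, ht⟩
    · rw [h0, card_empty, Nat.cast_zero]; positivity
    have hn0 : n ≠ 0 := by
      rw [← (mem_filter.mp ht).2]
      exact Finset.prod_ne_zero_iff.mpr fun i _ =>
        (hT _ (Fintype.mem_piFinset.mp (mem_filter.mp ht).1 i)).1
    have h1 : (Q.filter fun t => ∏ i, t i = n).card ≤ n.divisors.card ^ 4 := by
      calc _ ≤ (Fintype.piFinset fun _ : Fin 4 => n.divisors).card := by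
            refine card_le_card fun s hs => Fintype.mem_piFinset.mpr fun i => ?_
            rw [Nat.mem_divisors]
            refine ⟨?_, hn0⟩
            rw [← (mem_filter.mp hs).2]
            exact Finset.dvd_prod_of_mem _ (mem_univ i)
        _ = _ := by simp
    have h2 : n.divisors.card ^ 8 ≤ C * A := by
      have h3 : (n.divisors.card ^ 8) ^ 12 ≤ (C * A) ^ 12 := by
        calc (n.divisors.card ^ 8) ^ 12 = n.divisors.card ^ 96 := by rw [← pow_mul]
          _ ≤ C * n := hC n hn0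
          _ ≤ C ^ 12 * A ^ 12 := by
              apply Nat.mul_le_mul (Nat.le_self_pow (by norm_num) C)
              calc n ≤ B ^ 4 := Nat.lt_succ_iff.mp (mem_range.mp hn)
                _ ≤ (A ^ 3) ^ 4 := by gcongr
                _ = A ^ 12 := by rw [← pow_mul]
          _ = _ := by rw [mul_pow]
      exact (Nat.pow_le_pow_iff_left (by norm_num)).mp h3
    apply Real.le_sqrt_of_sq_le
    have h4 : (Q.filter fun t => ∏ i, t i = n).card ^ 2 ≤ C * A := by
      calc _ ≤ (n.divisors.card ^ 4) ^ 2 := by gcongr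
        _ = n.divisors.card ^ 8 := by rw [← pow_mul]
        _ ≤ _ := h2
    exact_mod_cast h4
  have hγb : ∀ n, |γ n| ≤ ((Q.filter fun t => ∏ i, t i = n).card : ℝ) := by
    intro n
    refine (Finset.abs_sum_le_sum_abs _ _).trans ?_
    calc _ ≤ ∑ t ∈ Q with ∏ i, t i = n, (1 : ℝ) := by
          refine Finset.sum_le_sum fun t _ => ?_
          rw [Finset.abs_prod]
          exact Finset.prod_le_one (fun _ _ => abs_nonneg _) fun i _ => hβ _
      _ = _ := by simp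
  have e3 : ∑ n ∈ range (B ^ 4 + 1), γ n ^ 2 ≤ √(C * A) * (B : ℝ) ^ 4 := by
    calc _ ≤ ∑ n ∈ range (B ^ 4 + 1),
            √(C * A) * ((Q.filter fun t => ∏ i, t i = n).card : ℝ) := by
          refine Finset.sum_le_sum fun n hn => ?_
          rw [← sq_abs, sq]
          exact mul_le_mul ((hγb n).trans (hr n hn)) (hγb n) (abs_nonneg _) (Real.sqrt_nonneg _)
      _ = √(C * A) * (Q.card : ℝ) := by
          rw [← Finset.mul_sum, Finset.card_eq_sum_card_fiberwise hmaps]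
          push_cast
          rfl
      _ ≤ _ := by
          gcongr
          rw [hQ, Fintype.card_piFinset]
          simp only [prod_const, card_univ, Fintype.card_fin, Nat.cast_pow]
          exact pow_le_pow_left₀ (Nat.cast_nonneg _) (card_le_of_le T B hT) 4
  have e4 : (∑ a ∈ S, L a ^ 4) ^ 2 ≤ √(C * A) * (B : ℝ) ^ 4 * (3 * A * B ^ 4) := by
    refine h.trans ?_
    gcongr
    have : (A : ℝ) ^ 4 ≤ A * B ^ 4 := by
      calc (A : ℝ) ^ 4 = (A : ℝ) * (A : ℝ) ^ 3 * 1 := by ring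
        _ ≤ (A : ℝ) * (B : ℝ) ^ 3 * (B : ℝ) := by gcongr
        _ = _ := by ring
    have h5 : (1 : ℝ) ≤ (B : ℝ) ^ 4 := one_le_pow₀ k3
    push_cast
    nlinarith
  have e5 : (∑ a ∈ S, |L a|) ^ 4 ≤ (A : ℝ) ^ 3 * ∑ a ∈ S, L a ^ 4 := by
    have := pow_sum_le_card_mul_sum_pow (s := S) (f := fun a => |L a|) (fun _ _ => abs_nonneg _) 3
    refine this.trans ?_
    have e : ∀ a, |L a| ^ (3 + 1) = L a ^ 4 := fun a => Even.pow_abs (by decide) _
    simp_rw [e]
    have hc := card_le_of_le S A fun a ha => ⟨(hS a ha).1.ne_zero, (hS a ha).2.2⟩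
    have h0 : 0 ≤ ∑ a ∈ S, L a ^ 4 := Finset.sum_nonneg fun _ _ => by positivity
    exact mul_le_mul_of_nonneg_right (pow_le_pow_left₀ (Nat.cast_nonneg _) hc 3) h0
  have hs : √((C : ℝ) * A) ^ 2 = C * A := Real.sq_sqrt (by positivity)
  calc (∑ a ∈ S, |L a|) ^ 16 = ((∑ a ∈ S, |L a|) ^ 4) ^ 4 := by ring
    _ ≤ ((A : ℝ) ^ 3 * ∑ a ∈ S, L a ^ 4) ^ 4 := by gcongr
    _ = (A : ℝ) ^ 12 * ((∑ a ∈ S, L a ^ 4) ^ 2) ^ 2 := by ring
    _ ≤ (A : ℝ) ^ 12 * (√(C * A) * (B : ℝ) ^ 4 * (3 * A * B ^ 4)) ^ 2 := by gcongr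
    _ = (A : ℝ) ^ 12 * (√(C * A) ^ 2 * ((B : ℝ) ^ 4 * (3 * A * B ^ 4)) ^ 2) := by ring
    _ = _ := by rw [hs]; ring

lemma core_bound : ∃ C : ℝ, 0 ≤ C ∧ ∀ (S T : Finset ℕ) (A B : ℕ),
    (∀ a ∈ S, Squarefree a ∧ Odd a ∧ a ≤ A) → (∀ b ∈ T, b ≠ 0 ∧ b ≤ B) →
    ∀ β : ℕ → ℝ, (∀ b, |β b| ≤ 1) → A ≤ B → ∀ Z : ℝ, 1 ≤ Z → Z ^ 16 ≤ A →
    ∑ a ∈ S, |∑ b ∈ T, β b * J((b : ℤ) | a)| ≤ C * A * B / Z := by
  obtain ⟨C, hC1, hC⟩ := core_short
  refine ⟨3 * C, by positivity, ?_⟩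
  intro S T A B hS hT β hβ hAB Z hZ hZA
  have k1 : (1 : ℝ) ≤ A := (one_le_pow₀ hZ).trans hZA
  have hA : 1 ≤ A := by exact_mod_cast k1
  have key : (∑ a ∈ S, |∑ b ∈ T, β b * J((b : ℤ) | a)|) ^ 16 ≤ (3 * C) ^ 16 * A ^ 15 * B ^ 16 := by
    rcases le_total (A ^ 3) B with h | h
    · have := core_long S T A B hS hT β hβ hA h
      calc _ = ((∑ a ∈ S, |∑ b ∈ T, β b * J((b : ℤ) | a)|) ^ 2) ^ 8 := by ring
        _ ≤ (3 * A * B ^ 2) ^ 8 := by gcongr
        _ = 3 ^ 8 * 1 ^ 16 * A ^ 8 * B ^ 16 := by ring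
        _ ≤ 3 ^ 16 * C ^ 16 * A ^ 15 * B ^ 16 := by gcongr <;> norm_num
        _ = _ := by ring
    · refine (hC S T A B hS hT β hβ hA hAB h).trans ?_
      gcongr
      calc C = 1 ^ 16 * C ^ 1 := by ring
        _ ≤ 3 ^ 16 * C ^ 16 := by gcongr <;> norm_num
        _ = _ := by ring
  have hZ0 : 0 < Z := by linarith
  rw [le_div_iff₀ hZ0]
  refine le_of_pow_le_pow_left₀ (n := 16) (by norm_num) (by positivity) ?_
  calc _ = (∑ a ∈ S, |∑ b ∈ T, β b * J((b : ℤ) | a)|) ^ 16 * Z ^ 16 := by ring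
    _ ≤ (3 * C) ^ 16 * A ^ 15 * B ^ 16 * A := by gcongr
    _ = _ := by ring

/-- The bilinear bound for Jacobi symbols. -/
theorem bilinear : ∃ C : ℝ, 0 ≤ C ∧ ∀ (S T : Finset ℕ) (A B : ℕ),
    (∀ a ∈ S, Squarefree a ∧ Odd a ∧ a ≤ A) → (∀ b ∈ T, Squarefree b ∧ Odd b ∧ b ≤ B) →
    ∀ α β : ℕ → ℝ, (∀ a, |α a| ≤ 1) → (∀ b, |β b| ≤ 1) →
    ∀ Z : ℝ, 1 ≤ Z → Z ^ 16 ≤ A → Z ^ 16 ≤ B →
    |∑ a ∈ S, ∑ b ∈ T, α a * β b * J((a : ℤ) | b)| ≤ C * A * B / Z := by
  obtain ⟨C, hC0, hC⟩ := core_bound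
  refine ⟨2 * C, by positivity, ?_⟩
  intro S T A B hS hT α β hα hβ Z hZ hZA hZB
  have hZ0 : 0 < Z := by linarith
  rcases le_total B A with h | h
  · have := hC T S B A hT (fun a ha => ⟨(hS a ha).1.ne_zero, (hS a ha).2.2⟩) α hα h Z hZ hZB
    rw [Finset.sum_comm]
    refine (Finset.abs_sum_le_sum_abs _ _).trans ?_
    calc _ ≤ ∑ b ∈ T, |∑ a ∈ S, α a * J((a : ℤ) | b)| := by
          refine Finset.sum_le_sum fun b _ => ?_
          have : ∑ a ∈ S, α a * β b * (J((a : ℤ) | b) : ℝ)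
              = β b * ∑ a ∈ S, α a * J((a : ℤ) | b) := by
            rw [Finset.mul_sum]
            exact Finset.sum_congr rfl fun _ _ => by ring
          rw [this, abs_mul]
          exact mul_le_of_le_one_left (abs_nonneg _) (hβ b)
      _ ≤ C * B * A / Z := this
      _ = 1 * C * A * B / Z := by ring
      _ ≤ _ := by gcongr; norm_num
  · have hT' : ∀ b ∈ T, b ≠ 0 ∧ b ≤ B := fun b hb => ⟨(hT b hb).1.ne_zero, (hT b hb).2.2⟩
    have h1 := hC S T A B hS hT' β hβ h Z hZ hZA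
    have h2 := hC S T A B hS hT' (fun b => if b % 4 = 1 then β b else - β b)
      (fun b => by split_ifs <;> simp [hβ b]) h Z hZ hZA
    refine (Finset.abs_sum_le_sum_abs _ _).trans ?_
    calc _ ≤ ∑ a ∈ S, (|∑ b ∈ T, β b * J((b : ℤ) | a)|
            + |∑ b ∈ T, (if b % 4 = 1 then β b else - β b) * J((b : ℤ) | a)|) := by
          refine Finset.sum_le_sum fun a ha => ?_
          have : ∑ b ∈ T, α a * β b * (J((a : ℤ) | b) : ℝ)
              = α a * ∑ b ∈ T, β b * J((a : ℤ) | b) := by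
            rw [Finset.mul_sum]
            exact Finset.sum_congr rfl fun _ _ => by ring
          rw [this, abs_mul]
          refine (mul_le_of_le_one_left (abs_nonneg _) (hα a)).trans ?_
          rcases Nat.odd_mod_four_iff.mp (Nat.odd_iff.mp (hS a ha).2.1) with h4 | h4
          · have : ∑ b ∈ T, β b * (J((a : ℤ) | b) : ℝ) = ∑ b ∈ T, β b * J((b : ℤ) | a) :=
              Finset.sum_congr rfl fun b hb => by
                rw [jacobiSym.quadratic_reciprocity_one_mod_four h4 (hT b hb).2.1]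
            rw [this]
            exact le_add_of_nonneg_right (abs_nonneg _)
          · have : ∑ b ∈ T, β b * (J((a : ℤ) | b) : ℝ)
                = ∑ b ∈ T, (if b % 4 = 1 then β b else - β b) * J((b : ℤ) | a) :=
              Finset.sum_congr rfl fun b hb => by
                rcases Nat.odd_mod_four_iff.mp (Nat.odd_iff.mp (hT b hb).2.1) with h5 | h5
                · rw [if_pos h5,
                    jacobiSym.quadratic_reciprocity_one_mod_four h5 (hS a ha).2.1]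
                · rw [if_neg (by omega),
                    jacobiSym.quadratic_reciprocity_three_mod_four h4 h5]
                  push_cast
                  ring
            rw [this]
            exact le_add_of_nonneg_left (abs_nonneg _)
      _ ≤ C * A * B / Z + C * A * B / Z := by
          rw [Finset.sum_add_distrib]
          exact add_le_add h1 h2
      _ = _ := by ring

end Pool.Agent.P.MP_ab3ecb_nt
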