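import Pool.Agent.P.MP_ab3ecb_nt.Quat

/-!
The monoid of algebras up to Brauer equivalence, and Clifford algebras.
-/

namespace Pool.Agent.P.MP_ab3ecb_nt

open TensorProduct Quaternion QuaternionAlgebra

set_option maxHeartbeats 400000

section
variable {K A B C : Type} [Field K] [Ring A] [Ring B] [Ring C] [Algebra K A] [Algebra K B]
  [Algebra K C]

lemma BrEq.symm (h : BrEq K A B) : BrEq K B A := by
  obtain ⟨m, n, ⟨e⟩⟩ := h
  exact ⟨n, m, ⟨e.symm⟩⟩

lemma mat_mat (m n k : ℕ) (h : k + 1 = (m + 1) * (n + 1)) :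
    Nonempty (Matrix (Fin (m + 1)) (Fin (m + 1)) (Matrix (Fin (n + 1)) (Fin (n + 1)) A) ≃ₐ[K]
      Matrix (Fin (k + 1)) (Fin (k + 1)) A) :=
  ⟨(Matrix.compAlgEquiv _ _ A K).trans
    (Matrix.reindexAlgEquiv K A (finProdFinEquiv.trans (finCongr h.symm)))⟩

lemma BrEq.trans (h : BrEq K A B) (h' : BrEq K B C) : BrEq K A C := by
  obtain ⟨m, n, ⟨e⟩⟩ := h
  obtain ⟨m', n', ⟨e'⟩⟩ := h'
  obtain ⟨e1⟩ := mat_mat (K := K) (A := A) m' m (m' * m + m' + m) (by ring)
  obtain ⟨e2⟩ := mat_mat (K := K) (A := B) m' n (m' * n + m' + n) (by ring)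
  obtain ⟨e3⟩ := mat_mat (K := K) (A := B) n m' (m' * n + m' + n) (by ring)
  obtain ⟨e4⟩ := mat_mat (K := K) (A := C) n n' (n * n' + n + n') (by ring)
  exact ⟨_, _, ⟨e1.symm.trans (e.mapMatrix.trans (e2.trans (e3.symm.trans
    (e'.mapMatrix.trans e4))))⟩⟩

lemma BrEq.tensor (h : BrEq K A B) : BrEq K (C ⊗[K] A) (C ⊗[K] B) := by
  obtain ⟨m, n, ⟨e⟩⟩ := h
  have key : ∀ (D : Type) [Ring D] [Algebra K D] (k : ℕ), Nonempty
      (Matrix (Fin k) (Fin k) (C ⊗[K] D) ≃ₐ[K] C ⊗[K] Matrix (Fin k) (Fin k) D) :=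
    fun D _ _ k => ⟨(matrixEquivTensor (Fin k) K (C ⊗[K] D)).trans
      ((Algebra.TensorProduct.assoc K K K C D _).trans
        (Algebra.TensorProduct.congr AlgEquiv.refl (matrixEquivTensor (Fin k) K D).symm))⟩
  obtain ⟨e1⟩ := key A (m + 1)
  obtain ⟨e2⟩ := key B (n + 1)
  exact ⟨m, n, ⟨e1.trans ((Algebra.TensorProduct.congr AlgEquiv.refl e).trans e2.symm)⟩⟩

end

/-- Bundled algebras. -/
structure Alg (K : Type) [Field K] : Type 1 where
  A : Type
  [r : Ring A]
  [a : Algebra K A]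

attribute [instance] Alg.r Alg.a

/-- Algebras up to Brauer equivalence. -/
def Br (K : Type) [Field K] : Type 1 :=
  Quotient (⟨fun A B : Alg K => BrEq K A.A B.A,
    fun _ => BrEq.of_equiv AlgEquiv.refl, BrEq.symm, BrEq.trans⟩ : Setoid (Alg K))

/-- The class of an algebra. -/
def cl (K A : Type) [Field K] [Ring A] [Algebra K A] : Br K := Quotient.mk _ ⟨A⟩

variable {K : Type} [Field K]

lemma cl_eq {A B : Type} [Ring A] [Ring B] [Algebra K A] [Algebra K B] :
    cl K A = cl K B ↔ BrEq K A B := Quotient.eq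

lemma cl_congr {A B : Type} [Ring A] [Ring B] [Algebra K A] [Algebra K B] (e : A ≃ₐ[K] B) :
    cl K A = cl K B := cl_eq.mpr (BrEq.of_equiv e)

noncomputable instance : CommMonoid (Br K) where
  mul := Quotient.map₂ (fun A B => ⟨A.A ⊗[K] B.A⟩) fun A A' h B B' h' =>
    BrEq.trans (BrEq.tensor h') (BrEq.trans_left (Algebra.TensorProduct.comm K _ _)
      (BrEq.trans (BrEq.tensor h) (BrEq.of_equiv (Algebra.TensorProduct.comm K _ _))))
  one := cl K K
  mul_assoc := by
    rintro ⟨A⟩ ⟨B⟩ ⟨C⟩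
    exact cl_congr (Algebra.TensorProduct.assoc K K K A.A B.A C.A)
  one_mul := by
    rintro ⟨A⟩
    exact cl_congr (Algebra.TensorProduct.lid K A.A)
  mul_one := by
    rintro ⟨A⟩
    exact cl_congr (Algebra.TensorProduct.rid K K A.A)
  mul_comm := by
    rintro ⟨A⟩ ⟨B⟩
    exact cl_congr (Algebra.TensorProduct.comm K A.A B.A)

lemma cl_tensor (A B : Type) [Ring A] [Ring B] [Algebra K A] [Algebra K B] :
    cl K (A ⊗[K] B) = cl K A * cl K B := rfl

lemma cl_one : cl K K = 1 := rfl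

/-- The quaternion symbol. -/
noncomputable def sy (a b : K) : Br K := cl K ℍ[K,a,0,b]

lemma sy_comm (a b : K) : sy a b = sy b a := cl_congr (swapEquiv a b)

lemma sy_sq (a b : K) {s : K} (hs : s ≠ 0) : sy a (b * s ^ 2) = sy a b := by
  obtain ⟨e⟩ := quat_scale a b s hs
  exact (cl_congr e).symm

lemma sy_of_isSquare [CharZero K] {a b : K} (ha : a ≠ 0) (hb : b ≠ 0) (h : IsSquare b) :
    sy a b = 1 := cl_eq.mpr (BrEq.quat_right h ha hb)

/-- The class of the Clifford algebra. -/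
noncomputable def cc {M : Type} [AddCommGroup M] [Module K M] (Q : QuadraticForm K M) : Br K :=
  cl K (CliffordAlgebra Q)

variable {M M' : Type} [AddCommGroup M] [Module K M] [AddCommGroup M'] [Module K M']

lemma cc_congr {Q : QuadraticForm K M} {Q' : QuadraticForm K M'} (h : Q.Equivalent Q') :
    cc Q = cc Q' := by
  obtain ⟨e⟩ := h
  exact cl_congr (CliffordAlgebra.equivOfIsometry e)

/-- The binary form `a x ^ 2 + b y ^ 2`. -/
noncomputable def bin (a b : K) : QuadraticForm K (K × K) :=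
  (a • QuadraticMap.sq).prod (b • QuadraticMap.sq)

lemma bin_apply (a b : K) (z : K × K) : bin a b z = a * (z.1 * z.1) + b * (z.2 * z.2) := by
  simp [bin]

theorem cc_bin {a b : K} (ha : a ≠ 0) (hb : b ≠ 0) (Q : QuadraticForm K M) :
    cc ((bin a b).prod Q) = sy a b * cc ((-(a * b)) • Q) := by
  set Q1 := (bin a b).prod Q
  set Q2 := (-(a * b)) • Q
  let I : CliffordAlgebra Q1 := CliffordAlgebra.ι Q1 ((1, 0), 0)
  let J : CliffordAlgebra Q1 := CliffordAlgebra.ι Q1 ((0, 1), 0)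
  let ν : M →ₗ[K] CliffordAlgebra Q1 := CliffordAlgebra.ι Q1 ∘ₗ LinearMap.inr K _ _
  have hI : I * I = algebraMap K _ a := by
    rw [CliffordAlgebra.ι_sq_scalar]; simp [Q1, bin_apply]
  have hJ : J * J = algebraMap K _ b := by
    rw [CliffordAlgebra.ι_sq_scalar]; simp [Q1, bin_apply]
  have hν : ∀ m, ν m * ν m = algebraMap K _ (Q m) := fun m => by
    simp only [ν, LinearMap.comp_apply]
    rw [CliffordAlgebra.ι_sq_scalar]; simp [Q1, bin_apply]
  have hJI : J * I = - (I * J) := by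
    refine CliffordAlgebra.ι_mul_ι_comm_of_isOrtho ?_
    simp [QuadraticMap.IsOrtho, Q1, bin_apply, add_comm]
  have hIν : ∀ m, ν m * I = - (I * ν m) := fun m => by
    refine CliffordAlgebra.ι_mul_ι_comm_of_isOrtho ?_
    simp [QuadraticMap.IsOrtho, Q1, bin_apply, add_comm]
  have hJν : ∀ m, ν m * J = - (J * ν m) := fun m => by
    refine CliffordAlgebra.ι_mul_ι_comm_of_isOrtho ?_
    simp [QuadraticMap.IsOrtho, Q1, bin_apply, add_comm]
  have hk : I * J * (I * J) = algebraMap K _ (-(a * b)) := by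
    rw [mul_assoc, ← mul_assoc J, hJI, neg_mul, mul_neg, mul_assoc, hJ, ← mul_assoc, hI, map_neg,
      map_mul]
  have hkν : ∀ m, ν m * (I * J) = I * J * ν m := fun m => by
    rw [← mul_assoc, hIν, neg_mul, mul_assoc, hJν, mul_neg, neg_neg, mul_assoc]
  let B1 : QuaternionAlgebra.Basis (CliffordAlgebra Q1) a 0 b :=
    { i := I, j := J, k := I * J
      i_mul_i := by rw [hI, Algebra.algebraMap_eq_smul_one]; simp
      j_mul_j := by rw [hJ, Algebra.algebraMap_eq_smul_one]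
      i_mul_j := rfl
      j_mul_i := by rw [hJI]; simp }
  let g2 : CliffordAlgebra Q2 →ₐ[K] CliffordAlgebra Q1 := CliffordAlgebra.lift Q2
    ⟨LinearMap.mulLeft K (I * J) ∘ₗ ν, fun m => by
      simp only [LinearMap.comp_apply, LinearMap.mulLeft_apply]
      rw [mul_assoc, ← mul_assoc (ν m), hkν, mul_assoc _ (ν m), hν, ← mul_assoc, hk, ← map_mul]
      simp [Q2]⟩
  have hcomm : ∀ x y, Commute (B1.liftHom x) (g2 y) := by
    intro x y
    induction y using CliffordAlgebra.induction with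
    | algebraMap r => rw [AlgHom.commutes]; exact (Algebra.commutes r _).symm
    | ι m =>
      have h1 : Commute I (I * J * ν m) := by
        change I * (I * J * ν m) = I * J * ν m * I
        rw [mul_assoc _ (ν m), hIν, mul_neg, ← mul_assoc _ I, mul_assoc I J I, hJI]
        simp [mul_assoc]
      have h2 : Commute J (I * J * ν m) := by
        change J * (I * J * ν m) = I * J * ν m * J
        rw [mul_assoc _ (ν m), hJν, ← mul_assoc, ← mul_assoc, hJI]
        simp [mul_assoc]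
      simp only [g2, CliffordAlgebra.lift_ι_apply, LinearMap.comp_apply, LinearMap.mulLeft_apply]
      change Commute (algebraMap K _ x.re + x.imI • I + x.imJ • J + x.imK • (I * J)) _
      exact (((Algebra.commute_algebraMap_left _ _).add_left (h1.smul_left _)).add_left
        (h2.smul_left _)).add_left ((h1.mul_left h2).smul_left _)
    | mul y z h1 h2 => rw [map_mul]; exact h1.mul_right h2
    | add y z h1 h2 => rw [map_add]; exact h1.add_right h2
  let g := Algebra.TensorProduct.lift B1.liftHom g2 hcomm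
  let κ : ℍ[K,a,0,b] := ⟨0, 0, 0, (-(a * b))⁻¹⟩
  let f0 : ((K × K) × M) →ₗ[K] ℍ[K,a,0,b] ⊗[K] CliffordAlgebra Q2 :=
    { toFun := fun z => (⟨0, z.1.1, z.1.2, 0⟩ : ℍ[K,a,0,b]) ⊗ₜ 1 + κ ⊗ₜ CliffordAlgebra.ι Q2 z.2
      map_add' := fun z w => by
        have : (⟨0, (z + w).1.1, (z + w).1.2, 0⟩ : ℍ[K,a,0,b])
            = ⟨0, z.1.1, z.1.2, 0⟩ + ⟨0, w.1.1, w.1.2, 0⟩ := by ext <;> simp
        rw [this, add_tmul, Prod.snd_add, map_add, tmul_add]
        abel
      map_smul' := fun c z => by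
        have : (⟨0, (c • z).1.1, (c • z).1.2, 0⟩ : ℍ[K,a,0,b]) = c • ⟨0, z.1.1, z.1.2, 0⟩ := by
          ext <;> simp
        rw [this, Prod.smul_snd, map_smul, tmul_smul, smul_add, smul_tmul']
        rfl }
  have hab : -(a * b) ≠ 0 := neg_ne_zero.mpr (mul_ne_zero ha hb)
  let f : CliffordAlgebra Q1 →ₐ[K] ℍ[K,a,0,b] ⊗[K] CliffordAlgebra Q2 := CliffordAlgebra.lift Q1
    ⟨f0, fun z => by
      set w : ℍ[K,a,0,b] := ⟨0, z.1.1, z.1.2, 0⟩ with hw
      have h1 : w * w = algebraMap K _ (bin a b z.1) := by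
        ext <;> simp [hw, bin_apply] <;> ring
      have h2 : w * κ + κ * w = 0 := by ext <;> simp [hw, κ] <;> ring
      have h3 : κ * κ = algebraMap K _ (-(a * b))⁻¹ := by
        ext <;> simp [κ]
        field_simp
      have h4 : f0 z = w ⊗ₜ 1 + κ ⊗ₜ CliffordAlgebra.ι Q2 z.2 := rfl
      rw [h4, add_mul, mul_add, mul_add]
      simp only [Algebra.TensorProduct.tmul_mul_tmul, one_mul, mul_one]
      rw [add_assoc, ← add_assoc (_ ⊗ₜ CliffordAlgebra.ι Q2 z.2), ← add_tmul, h2, zero_tmul,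
        zero_add, h1, h3, CliffordAlgebra.ι_sq_scalar, Algebra.algebraMap_eq_smul_one _,
        Algebra.algebraMap_eq_smul_one (A := ℍ[K,a,0,b]),
        Algebra.algebraMap_eq_smul_one (A := CliffordAlgebra Q2), smul_tmul_smul, ← smul_tmul',
        ← add_smul, Algebra.algebraMap_eq_smul_one, Algebra.TensorProduct.one_def]
      congr 1
      simp only [Q1, Q2, QuadraticMap.prod_apply, smul_apply, smul_eq_mul]
      field_simp⟩
  have hf : ∀ z, f (CliffordAlgebra.ι Q1 z) = (⟨0, z.1.1, z.1.2, 0⟩ : ℍ[K,a,0,b]) ⊗ₜ 1 +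
      κ ⊗ₜ CliffordAlgebra.ι Q2 z.2 := fun z => CliffordAlgebra.lift_ι_apply _ _ _
  have hfI : f I = (⟨0, 1, 0, 0⟩ : ℍ[K,a,0,b]) ⊗ₜ 1 := by rw [hf]; simp
  have hfJ : f J = (⟨0, 0, 1, 0⟩ : ℍ[K,a,0,b]) ⊗ₜ 1 := by rw [hf]; simp
  refine cl_congr (AlgEquiv.ofAlgHom f g ?_ ?_)
  · refine Algebra.TensorProduct.ext ?_ ?_
    · refine QuaternionAlgebra.hom_ext ?_ ?_
      · simpa [g, B1, Basis.lift] using hfI
      · simpa [g, B1, Basis.lift] using hfJ
    · ext m
      have h1 : f (ν m) = κ ⊗ₜ CliffordAlgebra.ι Q2 m := by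
        simp only [ν, LinearMap.comp_apply, hf]
        simp [show (⟨0, 0, 0, 0⟩ : ℍ[K,a,0,b]) = 0 from rfl]
      have h2 : (⟨0, 1, 0, 0⟩ : ℍ[K,a,0,b]) * (⟨0, 0, 1, 0⟩ * κ) = 1 := by
        ext <;> simp [κ]
        field_simp
      have h3 : B1.lift 1 = 1 := map_one B1.liftHom
      simp [g, g2, hfI, hfJ, h1, h2, h3]
  · ext : 1
    refine LinearMap.ext fun z => ?_
    have h1 : B1.liftHom κ * (I * J * ν z.2) = ν z.2 := by
      have : B1.liftHom κ = (-(a * b))⁻¹ • (I * J) := by simp [B1, κ, Basis.lift]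
      rw [this, smul_mul_assoc, ← mul_assoc, hk, ← Algebra.smul_def, smul_smul,
        inv_mul_cancel₀ hab, one_smul]
    have h2 : B1.liftHom ⟨0, z.1.1, z.1.2, 0⟩ = CliffordAlgebra.ι Q1 (z.1, 0) := by
      have : ((z.1, 0) : (K × K) × M) = z.1.1 • ((1, 0), 0) + z.1.2 • ((0, 1), 0) := by simp
      rw [this, map_add, map_smul, map_smul]
      simp [B1, Basis.lift, I, J]
    simp only [LinearMap.comp_apply, AlgHom.toLinearMap_apply, AlgHom.comp_apply, hf, map_add, g,
      Algebra.TensorProduct.lift_tmul, map_one, mul_one, g2, CliffordAlgebra.lift_ι_apply,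
      LinearMap.mulLeft_apply, h1, h2, AlgHom.id_apply]
    simp only [ν, LinearMap.comp_apply, ← map_add]
    simp

end Pool.Agent.P.MP_ab3ecb_nt
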