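import Pool.Agent.P.MP_ab3ecb_nt.Hyper

/-!
A weighted first moment bound for labelled sets of primes subject to residue conditions.
-/

namespace Pool.Agent.P.MP_ab3ecb_nt

open Finset Function
open scoped Classical

set_option linter.unusedSectionVars false
set_option maxHeartbeats 400000

/-- The data of the moment computation. -/
structure St (J L ι : Type) where
  cls : L → J
  V : J → Finset (Finset J)
  sg : ι → L → J → ℝ
  R : ι → Finset L
  pr : ι → ℕ
  ψ : ι → L → ι → L → ℝ
  om : ι → ℝ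
  Y : ℕ
  X : ℕ
  h : ℕ → ℝ

namespace St

variable {J L ι : Type} [Fintype J] [Fintype L] [Fintype ι] (σ : St J L ι)

/-- The standing hypotheses. -/
structure OK : Prop where
  V0 : ∀ i (y : J → ℝ), (∀ j, |y j| ≤ 1) → 0 ≤ ∑ S ∈ σ.V i, ∏ j ∈ S, y j
  V1 : ∀ i, 2 ^ (Fintype.card J - 1) ≤ (σ.V i).card
  sg : ∀ a l j, |σ.sg a l j| ≤ 1
  ψ1 : ∀ a l b l', |σ.ψ a l b l'| ≤ 1
  ψ0 : ∀ a l l', σ.ψ a l a l' = 0
  om0 : ∀ a, 0 ≤ σ.om a
  om1 : ∀ a, σ.om a ≤ 1
  h0 : ∀ r, 0 ≤ σ.h r
  h1 : ∀ r, σ.h r ≤ 1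
  hp : ∀ a, (σ.pr a).Prime
  inj : Injective σ.pr

def big (a : ι) : Prop := σ.Y < σ.pr a

noncomputable def wt (a : ι) (w : L × Finset J) : ℝ :=
  if w.1 ∈ σ.R a then
    if σ.big a then
      if w.2 ∈ σ.V (σ.cls w.1) then (1 / 2) ^ (Fintype.card J - 1) * σ.om a else 0
    else if w.2 = ∅ then σ.om a else 0
  else 0

noncomputable def sym (a : ι) (l : L) (j : J) (c : ι → Option L) : ℝ :=
  ∏ b, (c b).elim 1 fun l' => if σ.cls l' = j then if b = a then 1 else σ.ψ a l b l' else 1

noncomputable def gg (a : ι) (o : Option (L × Finset J)) (c : ι → Option L) : ℝ :=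
  o.elim 1 fun w => σ.wt a w * ∏ j ∈ w.2, (σ.sg a w.1 j * σ.sym a w.1 j c)

noncomputable def GG (a : ι) (c : ι → Option L) : ℝ :=
  (c a).elim 1 fun l => if l ∈ σ.R a then
    if σ.big a then (1 / 2) ^ (Fintype.card J - 1) * σ.om a *
      ∑ S ∈ σ.V (σ.cls l), ∏ j ∈ S, (σ.sg a l j * σ.sym a l j c)
    else σ.om a
  else 0

noncomputable def cut (s : Finset ι) : ℝ := if ∏ a ∈ s, σ.pr a ≤ σ.X then σ.h s.card else 0

/-- The support of a labelling. -/
noncomputable def supp {W : Type} (c : ι → Option W) : Finset ι := univ.filter fun a => (c a).isSome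

/-- The labelled sets that are counted. -/
def Surv (s : Finset ι) : Prop :=
  ∃ lab : ι → L, ∀ a ∈ s, lab a ∈ σ.R a ∧ ∀ S ∈ σ.V (σ.cls (lab a)), ∏ j ∈ S, (σ.sg a (lab a) j *
    ∏ b ∈ s.erase a with σ.cls (lab b) = j, σ.ψ a (lab a) b (lab b)) = 1

noncomputable def actset (c : ι → Option (L × Finset J)) : Finset (L × Finset J) :=
  univ.filter fun w => ∃ a ∈ tup c w, σ.big a

noncomputable def TT (U : Finset (L × Finset J)) : ℝ :=
  ∑ c : ι → Option (L × Finset J), (if σ.actset c = U then 1 else 0) *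
    (σ.cut (supp c) * ∏ a, σ.gg a (c a) (Option.map Prod.fst ∘ c))

/-- Two labels are linked when exactly one symbol joins them. -/
def Linked (u v : L × Finset J) : Prop := u ≠ v ∧ σ.cls v.1 ∈ u.2 ∧ σ.cls u.1 ∉ v.2

noncomputable def gm (I : Finset J) (a : ι) : ℝ :=
  if σ.big a then (1 / 2) ^ (Fintype.card J - 1) * σ.om a *
    (((σ.R a).filter fun l => σ.cls l ∈ I).card * 2 ^ Iᶜ.card)
  else Fintype.card L

variable {σ}

lemma wt_nonneg (H : σ.OK) (a : ι) (w : L × Finset J) : 0 ≤ σ.wt a w := by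
  have := H.om0 a
  unfold wt
  split_ifs <;> positivity

lemma wt_le (H : σ.OK) (a : ι) (w : L × Finset J) : σ.wt a w ≤ 1 := by
  unfold wt
  split_ifs
  · exact mul_le_one₀ (pow_le_one₀ (by norm_num) (by norm_num)) (H.om0 a) (H.om1 a)
  · norm_num
  · exact H.om1 a
  all_goals norm_num

lemma abs_prod_le {κ : Type} (s : Finset κ) {f : κ → ℝ} (h : ∀ a ∈ s, |f a| ≤ 1) :
    |∏ a ∈ s, f a| ≤ 1 := by
  rw [Finset.abs_prod]
  exact Finset.prod_le_one (fun _ _ => abs_nonneg _) h

lemma abs_mul_le {x y : ℝ} (hx : |x| ≤ 1) (hy : |y| ≤ 1) : |x * y| ≤ 1 := by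
  rw [abs_mul]
  exact mul_le_one₀ hx (abs_nonneg _) hy

lemma abs_sym_le (H : σ.OK) (a : ι) (l : L) (j : J) (c : ι → Option L) : |σ.sym a l j c| ≤ 1 := by
  refine abs_prod_le _ fun b _ => ?_
  cases c b with
  | none => simp
  | some l' =>
    simp only [Option.elim_some]
    split_ifs
    · simp
    · exact H.ψ1 _ _ _ _
    · simp

lemma cut_nonneg (H : σ.OK) (s : Finset ι) : 0 ≤ σ.cut s := by
  unfold cut
  split_ifs
  · exact H.h0 _
  · rfl

lemma sum_gg (a : ι) (c : ι → Option L) :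
    ∑ o with Option.map Prod.fst o = c a, σ.gg a o c = σ.GG a c := by
  rw [Finset.sum_filter, Fintype.sum_option, Fintype.sum_prod_type, GG]
  cases h : c a with
  | none => simp [gg]
  | some l =>
    simp only [Option.map_none, reduceCtorEq, if_false, zero_add, Option.map_some,
      Option.some.injEq, Option.elim_some]
    rw [Finset.sum_eq_single l (fun l' _ hl => by simp [hl]) (by simp)]
    simp only [if_true, gg, Option.elim_some, wt]
    split_ifs with h1 h2
    · simp only [ite_mul, zero_mul]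
      rw [Finset.sum_ite_mem, univ_inter, Finset.mul_sum]
    · simp only [ite_mul, zero_mul]
      rw [Finset.sum_ite_eq']
      simp
    · simp

lemma GG_nonneg (H : σ.OK) (a : ι) (c : ι → Option L) : 0 ≤ σ.GG a c := by
  unfold GG
  cases c a with
  | none => simp
  | some l =>
    simp only [Option.elim_some]
    split_ifs
    · exact mul_nonneg (mul_nonneg (by positivity) (H.om0 a))
        (H.V0 _ _ fun j => abs_mul_le (H.sg _ _ _) (abs_sym_le H _ _ _ _))
    · exact H.om0 a
    · rfl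

lemma surv_le (H : σ.OK) :
    ∑ s with σ.Surv s, σ.cut s * ∏ a ∈ s, σ.om a ≤ ∑ U, σ.TT U := by
  have ht0 : ∀ c : ι → Option L, 0 ≤ σ.cut (supp c) * ∏ a, σ.GG a c := fun c =>
    mul_nonneg (cut_nonneg H _) (Finset.prod_nonneg fun a _ => GG_nonneg H a c)
  have e1 : ∑ U, σ.TT U = ∑ c : ι → Option L, σ.cut (supp c) * ∏ a, σ.GG a c := by
    unfold TT
    rw [Finset.sum_comm]
    simp only [← Finset.sum_mul, Finset.sum_ite_eq, mem_univ, if_true, one_mul]
    refine Eq.trans (Finset.sum_congr rfl fun c _ => ?_) ((fiber_sum (ι := ι)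
      (Option.map (Prod.fst : L × Finset J → L)) (fun c => σ.cut (supp c)) σ.gg).trans ?_)
    · simp [supp]
    · exact Finset.sum_congr rfl fun c _ => congrArg _
        (Finset.prod_congr rfl fun a _ => sum_gg a c)
  rw [e1, ← Finset.sum_fiberwise (s := univ) (g := fun c : ι → Option L => supp c),
    Finset.sum_filter]
  refine Finset.sum_le_sum fun s _ => ?_
  split_ifs with hs
  swap
  · exact Finset.sum_nonneg fun c _ => ht0 c
  obtain ⟨lab, hlab⟩ := hs
  set c : ι → Option L := fun a => if a ∈ s then some (lab a) else none with hc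
  have hcs : supp c = s := by
    ext a
    by_cases h : a ∈ s <;> simp [supp, hc, h]
  refine le_trans ?_ (Finset.single_le_sum (fun c _ => ht0 c) (a := c) (by simp [hcs]))
  rw [hcs, ← Finset.prod_subset (subset_univ s) fun a _ h => by simp [GG, hc, h]]
  refine mul_le_mul_of_nonneg_left (Finset.prod_le_prod (fun a _ => H.om0 a) fun a h => ?_)
    (cut_nonneg H s)
  have e : c a = some (lab a) := by simp [hc, h]
  rw [GG, e, Option.elim_some, if_pos (hlab a h).1]
  split_ifs with h1
  · have h2 : ∀ j, σ.sym a (lab a) j c =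
        ∏ b ∈ s.erase a with σ.cls (lab b) = j, σ.ψ a (lab a) b (lab b) := fun j => by
      rw [sym, Finset.prod_filter, ← Finset.prod_subset (subset_univ (s.erase a)) fun b _ hb => by
        by_cases h3 : b ∈ s
        · obtain rfl : b = a := by simpa [h3] using hb
          simp [hc, h3]
        · simp [hc, h3]]
      refine Finset.prod_congr rfl fun b hb => ?_
      simp [hc, mem_of_mem_erase hb, ne_of_mem_erase hb]
    simp only [h2]
    rw [Finset.sum_congr rfl (hlab a h).2, Finset.sum_const, nsmul_eq_mul, mul_one,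
      mul_right_comm]
    refine le_mul_of_one_le_left (H.om0 a) ?_
    rw [one_div, inv_pow, ← div_eq_inv_mul, one_le_div (by positivity)]
    exact_mod_cast H.V1 _
  · rfl

lemma abs_gg_le (H : σ.OK) (a : ι) (o : Option (L × Finset J)) (c : ι → Option L) :
    |σ.gg a o c| ≤ o.elim 1 (σ.wt a) := by
  cases o with
  | none => simp [gg]
  | some w =>
    simp only [gg, Option.elim_some]
    rw [abs_mul, abs_of_nonneg (wt_nonneg H a w)]
    exact mul_le_of_le_one_right (wt_nonneg H a w)
      (abs_prod_le _ fun j _ => abs_mul_le (H.sg _ _ _) (abs_sym_le H _ _ _ _))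

lemma sum_wt_le (H : σ.OK) (U : Finset (L × Finset J))
    (hl : ∀ u ∈ U, ∀ v ∈ U, ¬ σ.Linked u v) (a : ι) :
    ∑ w, (if ¬ σ.big a ∨ w ∈ U then σ.wt a w else 0) ≤ σ.gm (U.image fun w => σ.cls w.1) a := by
  unfold gm
  have h0 := H.om0 a
  by_cases hb : σ.big a
  · simp only [hb, not_true, false_or, if_true]
    calc _ ≤ ∑ w ∈ U.filter (fun w => w.1 ∈ σ.R a),
          ((1 / 2) ^ (Fintype.card J - 1) * σ.om a : ℝ) := by
          rw [Finset.sum_filter, Finset.sum_ite_mem, univ_inter]
          refine Finset.sum_le_sum fun w _ => ?_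
          unfold wt
          split_ifs
          · rfl
          · positivity
          · rfl
      _ ≤ _ := by
          rw [Finset.sum_const, nsmul_eq_mul, mul_comm]
          refine mul_le_mul_of_nonneg_left ?_ (by positivity)
          set I := U.image fun w => σ.cls w.1 with hI
          have key : ∀ w ∈ U, ∀ w' ∈ U, w.1 = w'.1 → ∀ j ∈ I, j ∈ w.2 → j ∈ w'.2 := by
            intro w hw w' hw' h j hj h1
            obtain ⟨v, hv, rfl⟩ := mem_image.mp hj
            by_contra h2
            have h3 : w ≠ w' := fun h3 => h2 (h3 ▸ h1)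
            by_cases h4 : v = w
            · subst h4
              exact hl v hw w' hw' ⟨h3, h ▸ h1, h2⟩
            by_cases h5 : v = w'
            · subst h5
              exact hl w hw v hw' ⟨h3, h1, h ▸ h2⟩
            refine hl v hv w' hw' ⟨h5, ?_, h2⟩
            by_contra h6
            exact hl w hw v hv ⟨Ne.symm h4, h1, by rwa [h]⟩
          have := Finset.card_le_card_of_injOn (s := U.filter fun w => w.1 ∈ σ.R a)
            (t := ((σ.R a).filter fun l => σ.cls l ∈ I) ×ˢ Iᶜ.powerset) (fun w => (w.1, w.2 \ I))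
            (fun w hw => mem_coe.mpr (mem_product.mpr ⟨mem_filter.mpr ⟨(mem_filter.mp hw).2,
              mem_image.mpr ⟨w, (mem_filter.mp hw).1, rfl⟩⟩, mem_powerset.mpr fun j hj =>
                mem_compl.mpr (mem_sdiff.mp hj).2⟩)) fun w hw w' hw' h => by
              obtain ⟨h1, h2⟩ := Prod.mk.inj h
              refine Prod.ext h1 (Finset.ext fun j => ?_)
              by_cases hj : j ∈ I
              · exact ⟨key w (mem_filter.mp hw).1 w' (mem_filter.mp hw').1 h1 j hj,
                  key w' (mem_filter.mp hw').1 w (mem_filter.mp hw).1 h1.symm j hj⟩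
              · simpa [hj] using Finset.ext_iff.mp h2 j
          rw [card_product, card_powerset] at this
          exact_mod_cast this
  · simp only [hb, not_false_eq_true, true_or, if_true, if_false]
    rw [Fintype.sum_prod_type]
    calc _ ≤ ∑ _l : L, (1 : ℝ) := by
          refine Finset.sum_le_sum fun l _ => ?_
          rw [Finset.sum_eq_single ∅]
          · exact wt_le H _ _
          · intro T _ hT
            simp [wt, hb, hT]
          · simp
      _ = _ := by simp

lemma main_bound (H : σ.OK) (U : Finset (L × Finset J))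
    (hl : ∀ u ∈ U, ∀ v ∈ U, ¬ σ.Linked u v) :
    σ.TT U ≤ ∑ s, σ.cut s * ∏ a ∈ s, σ.gm (U.image fun w => σ.cls w.1) a := by
  set w2 : ι → Option (L × Finset J) → ℝ := fun a o =>
    o.elim 1 fun w => if ¬ σ.big a ∨ w ∈ U then σ.wt a w else 0 with hw2
  have hw20 : ∀ a o, 0 ≤ w2 a o := by
    intro a o
    cases o with
    | none => simp [hw2]
    | some w =>
      simp only [hw2, Option.elim_some]
      split_ifs
      · exact wt_nonneg H _ _
      · rfl
  have h1 : σ.TT U ≤ ∑ c : ι → Option (L × Finset J),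
      σ.cut (univ.filter fun a => (Option.isSome ∘ c) a) * ∏ a, w2 a (c a) := by
    refine Finset.sum_le_sum fun c _ => ?_
    split_ifs with h3
    · rw [one_mul]
      refine mul_le_mul_of_nonneg_left ((le_abs_self _).trans ?_) (cut_nonneg H _)
      rw [Finset.abs_prod]
      refine Finset.prod_le_prod (fun _ _ => abs_nonneg _) fun a _ => ?_
      refine (abs_gg_le H a _ _).trans (le_of_eq ?_)
      cases h4 : c a with
      | none => simp [hw2]
      | some w =>
        simp only [hw2, Option.elim_some]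
        rw [if_pos]
        by_cases hb : σ.big a
        · exact Or.inr (h3 ▸ mem_filter.mpr ⟨mem_univ _, a, mem_tup.mpr h4, hb⟩)
        · exact Or.inl hb
    · rw [zero_mul]
      exact mul_nonneg (cut_nonneg H _) (Finset.prod_nonneg fun a _ => hw20 a _)
  refine h1.trans ((le_of_eq (fiber_sum (ι := ι) (Option.isSome : Option (L × Finset J) → Bool)
    (fun c => σ.cut (univ.filter fun a => c a)) fun a o _ => w2 a o)).trans ?_)
  calc _ ≤ ∑ c : ι → Bool, σ.cut (univ.filter fun a => c a) *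
        ∏ a with c a, σ.gm (U.image fun w => σ.cls w.1) a := by
        refine Finset.sum_le_sum fun c _ => mul_le_mul_of_nonneg_left ?_ (cut_nonneg H _)
        rw [Finset.prod_filter]
        refine Finset.prod_le_prod (fun a _ => Finset.sum_nonneg fun o _ => hw20 a o) fun a _ => ?_
        rw [Finset.sum_filter, Fintype.sum_option]
        cases c a with
        | false => simp [hw2]
        | true => simpa [hw2] using sum_wt_le H U hl a
    _ = _ := by
        refine Finset.sum_nbij' (fun c => univ.filter fun a => c a) (fun s a => decide (a ∈ s))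
          (by simp) (by simp) ?_ ?_ fun _ _ => rfl
        · intro c _
          funext a
          simp
        · intro s _
          ext a
          simp

variable (σ)

noncomputable def KK0 (z : (L × Finset J) × (L × Finset J)) (s t : Finset ι) : ℝ :=
  ∏ a ∈ s, ∏ b ∈ t, if b = a then 1 else σ.ψ a z.1.1 b z.2.1

noncomputable def Edges : Finset ((L × Finset J) × (L × Finset J)) :=
  univ.filter fun z => σ.cls z.2.1 ∈ z.1.2

noncomputable def Phi (U : Finset (L × Finset J)) (n : L × Finset J → Finset ι) : ℝ :=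
  (∏ w, if ((∃ a ∈ n w, σ.big a) ↔ w ∈ U) then 1 else 0) *
  ∏ w, ∏ a ∈ n w, (σ.wt a w * ∏ j ∈ w.2, σ.sg a w.1 j)

noncomputable def cutT (n : L × Finset J → Finset ι) : ℝ :=
  if ∏ w, ∏ a ∈ n w, σ.pr a ≤ σ.X then σ.h (∑ w, (n w).card) else 0

noncomputable def Psi (U : Finset (L × Finset J)) (u v : L × Finset J)
    (n : L × Finset J → Finset ι) : ℝ :=
  (∏ z with z.1 ≠ z.2 ∧ z ≠ (u, v) ∧ z ≠ (v, u),
    if Disjoint (n z.1) (n z.2) then (1 : ℝ) else 0) * σ.Phi U n *
    ∏ z ∈ σ.Edges.erase (u, v), σ.KK0 z (n z.1) (n z.2)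

variable {σ}

lemma prod_supp {W M : Type} [Fintype W] [DecidableEq W] [CommMonoid M] (c : ι → Option W)
    (f : ι → M) :
    ∏ w, ∏ a ∈ tup c w, f a = ∏ a ∈ supp c, f a := by
  rw [prod_tup c fun a _ => f a, supp, Finset.prod_filter]
  refine Finset.prod_congr rfl fun a _ => ?_
  cases c a <;> simp

lemma bridge (U : Finset (L × Finset J)) (c : ι → Option (L × Finset J)) :
    (if σ.actset c = U then 1 else 0) *
      (σ.cut (supp c) * ∏ a, σ.gg a (c a) (Option.map Prod.fst ∘ c))
      = σ.cutT (tup c) * (σ.Phi U (tup c) * ∏ z ∈ σ.Edges, σ.KK0 z (tup c z.1) (tup c z.2)) := by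
  have e1 : σ.cut (supp c) = σ.cutT (tup c) := by
    have := prod_supp c fun _ => Multiplicative.ofAdd 1
    simp only [prod_const, ← ofAdd_nsmul, ← ofAdd_sum, smul_eq_mul, mul_one,
      EmbeddingLike.apply_eq_iff_eq] at this
    rw [cut, cutT, prod_supp, this]
  have e2 : (if σ.actset c = U then (1 : ℝ) else 0)
      = ∏ w, if ((∃ a ∈ tup c w, σ.big a) ↔ w ∈ U) then 1 else 0 := by
    rw [Finset.prod_boole]
    simp only [actset, Finset.ext_iff, mem_filter, mem_univ, true_and, true_imp_iff]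
  have e3 : ∏ a, σ.gg a (c a) (Option.map Prod.fst ∘ c) = ∏ w, ∏ a ∈ tup c w,
      (σ.wt a w * ∏ j ∈ w.2, (σ.sg a w.1 j * σ.sym a w.1 j (Option.map Prod.fst ∘ c))) :=
    (prod_tup c _).symm
  rw [e1, e2, e3, Phi, mul_left_comm, mul_assoc]
  congr 2
  rw [Edges, Finset.prod_filter,
    Fintype.prod_prod_type (α₁ := L × Finset J) (α₂ := L × Finset J), ← Finset.prod_mul_distrib]
  refine Finset.prod_congr rfl fun w _ => ?_
  have e4 : ∀ a, ∏ j ∈ w.2, σ.sym a w.1 j (Option.map Prod.fst ∘ c) = ∏ w' : L × Finset J,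
      ∏ b ∈ tup c w', if σ.cls w'.1 ∈ w.2 then if b = a then 1 else σ.ψ a w.1 b w'.1 else 1 := by
    intro a
    rw [prod_tup c fun b w' => if σ.cls w'.1 ∈ w.2 then if b = a then 1 else σ.ψ a w.1 b w'.1
      else 1]
    simp only [sym]
    rw [Finset.prod_comm]
    refine Finset.prod_congr rfl fun b _ => ?_
    cases h : c b with
    | none => simp [h]
    | some w' => simp only [comp_apply, h, Option.map_some, Option.elim_some, Finset.prod_ite_eq]
  simp only [Finset.prod_mul_distrib, e4, mul_assoc]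
  congr 2
  rw [Finset.prod_comm]
  refine Finset.prod_congr rfl fun w' _ => ?_
  split_ifs
  · rfl
  · simp

lemma indep_pair {W : Type} [DecidableEq W] {u v : W} (z : W × W) (h1 : z ≠ (u, v))
    (h2 : z ≠ (v, u)) (huv : u ≠ v) (ψ : Finset ι → Finset ι → ℝ) :
    Indep u (fun n => ψ (n z.1) (n z.2)) ∨ Indep v (fun n => ψ (n z.1) (n z.2)) := by
  obtain ⟨x, y⟩ := z
  by_cases hx : x ≠ u ∧ y ≠ u
  · left
    intro n s
    simp only [update_of_ne hx.1, update_of_ne hx.2]
  · right
    have : x ≠ v ∧ y ≠ v := by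
      simp only [ne_eq, Prod.mk.injEq, not_and] at h1 h2 hx
      constructor
      · rintro rfl
        exact hx (Ne.symm huv) (h2 rfl)
      · rintro rfl
        by_cases h3 : x = u
        · exact h1 h3 rfl
        · exact hx h3 (Ne.symm huv)
    intro n s
    simp only [update_of_ne this.1, update_of_ne this.2]

lemma sep_Psi (H : σ.OK) (U : Finset (L × Finset J)) {u v : L × Finset J} (hl : σ.Linked u v) :
    Sep u v (σ.Psi U u v) := by
  have huv := hl.1
  have single : ∀ (w : L × Finset J) (ψ : Finset ι → ℝ),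
      Indep u (fun n => ψ (n w)) ∨ Indep v (fun n => ψ (n w)) := fun w ψ =>
    indep_pair (w, w) (by simp only [ne_eq, Prod.mk.injEq]; rintro ⟨rfl, rfl⟩; exact huv rfl)
      (by simp only [ne_eq, Prod.mk.injEq]; rintro ⟨rfl, rfl⟩; exact huv rfl) huv fun s _ => ψ s
  refine Sep.mul (Sep.mul (Sep.prod _ _ fun z hz => ?_) (Sep.mul (Sep.prod _ _ fun w _ => ?_)
    (Sep.prod _ _ fun w _ => ?_))) (Sep.prod _ _ fun z hz => ?_)
  · obtain ⟨-, k1, k2⟩ := (mem_filter.mp hz).2
    exact Sep.of_indep (indep_pair z k1 k2 huv fun s t => if Disjoint s t then 1 else 0)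
      fun n => by split_ifs <;> simp
  · exact Sep.of_indep (single w fun s => if ((∃ a ∈ s, σ.big a) ↔ w ∈ U) then 1 else 0)
      fun n => by split_ifs <;> simp
  · exact Sep.of_indep (single w fun s => ∏ a ∈ s, (σ.wt a w * ∏ j ∈ w.2, σ.sg a w.1 j))
      fun n => abs_prod_le _ fun a _ => abs_mul_le
        ((abs_of_nonneg (wt_nonneg H a w)).trans_le (wt_le H a w))
        (abs_prod_le _ fun j _ => H.sg _ _ _)
  · refine Sep.of_indep (indep_pair z (ne_of_mem_erase hz) ?_ huv (σ.KK0 z))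
      fun n => abs_prod_le _ fun a _ => abs_prod_le _ fun b _ => ?_
    · rintro rfl
      exact hl.2.2 (mem_filter.mp (mem_of_mem_erase hz)).2
    · split_ifs
      · simp
      · exact H.ψ1 _ _ _ _

lemma TT_eq (H : σ.OK) (U : Finset (L × Finset J)) {u v : L × Finset J} (hl : σ.Linked u v) :
    σ.TT U = ∑ n, σ.Psi U u v n * (σ.cutT n * ∏ a ∈ n u, ∏ b ∈ n v, σ.ψ a u.1 b v.1) := by
  unfold TT
  simp_rw [bridge]
  rw [sum_tup (fun n => σ.cutT n * (σ.Phi U n * ∏ z ∈ σ.Edges, σ.KK0 z (n z.1) (n z.2))),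
    Finset.sum_filter]
  refine Finset.sum_congr rfl fun n _ => ?_
  have huvE : (u, v) ∈ σ.Edges := mem_filter.mpr ⟨mem_univ _, hl.2.1⟩
  rw [← Finset.mul_prod_erase _ _ huvE, Psi, Finset.prod_boole]
  by_cases hd : Disj n
  · have : σ.KK0 (u, v) (n u) (n v) = ∏ a ∈ n u, ∏ b ∈ n v, σ.ψ a u.1 b v.1 :=
      Finset.prod_congr rfl fun a ha => Finset.prod_congr rfl fun b hb => if_neg fun h : b = a =>
        Finset.disjoint_left.mp (hd u v hl.1) ha (h ▸ hb)
    rw [if_pos hd, if_pos fun z hz => hd _ _ (mem_filter.mp hz).2.1, this]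
    ring
  · rw [if_neg hd]
    by_cases hd2 : Disjoint (n u) (n v)
    · rw [if_neg]
      · ring
      · intro hcon
        apply hd
        intro w w' hw
        by_cases k1 : (w, w') = (u, v)
        · obtain ⟨rfl, rfl⟩ := Prod.mk.inj k1
          exact hd2
        by_cases k2 : (w, w') = (v, u)
        · obtain ⟨rfl, rfl⟩ := Prod.mk.inj k2
          exact hd2.symm
        exact hcon (w, w') (mem_filter.mpr ⟨mem_univ _, hw, k1, k2⟩)
    · obtain ⟨a, h1, h2⟩ := Finset.not_disjoint_iff.mp hd2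
      rw [Finset.prod_eq_zero h1 (Finset.prod_eq_zero h2 (H.ψ0 _ _ _)), mul_zero, mul_zero]

lemma Psi_ne_zero (H : σ.OK) {U : Finset (L × Finset J)} {u v : L × Finset J}
    {n : L × Finset J → Finset ι} (h : σ.Psi U u v n ≠ 0) {w : L × Finset J} (hw : w ∈ U) :
    σ.Y ≤ ∏ a ∈ n w, σ.pr a ∧ ∀ a ∈ n w, w.1 ∈ σ.R a := by
  have h3 : σ.Phi U n ≠ 0 := right_ne_zero_of_mul (left_ne_zero_of_mul h)
  constructor
  · obtain ⟨a, h4, h5⟩ := (ite_ne_right_iff.mp (Finset.prod_ne_zero_iff.mp
      (left_ne_zero_of_mul h3) w (mem_univ _))).1.mpr hw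
    exact (le_of_lt h5).trans (Finset.single_le_prod' (f := σ.pr) (fun a _ => (H.hp a).pos) h4)
  · exact fun a ha => (ite_ne_right_iff.mp (left_ne_zero_of_mul (Finset.prod_ne_zero_iff.mp
      (Finset.prod_ne_zero_iff.mp (right_ne_zero_of_mul h3) w (mem_univ _)) a ha))).1

lemma prod_update2 {W M : Type} [Fintype W] [DecidableEq W] [CommMonoid M] {u v : W} (huv : u ≠ v)
    (f : Finset ι → M) (hf : f ∅ = 1) {n : W → Finset ι} (hu : n u = ∅) (hv : n v = ∅)
    (s t : Finset ι) : ∏ w, f (update (update n u s) v t w) = f s * f t * ∏ w, f (n w) := by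
  have key : ∀ (n : W → Finset ι) (u : W) (s : Finset ι), n u = ∅ →
      ∏ w, f (update n u s w) = f s * ∏ w, f (n w) := fun n u s h => by
    rw [← Finset.mul_prod_erase _ _ (mem_univ u), ← Finset.mul_prod_erase _ (fun w => f (n w))
      (mem_univ u), update_self, h, hf, one_mul]
    exact congrArg _ (Finset.prod_congr rfl fun w hw => by rw [update_of_ne (ne_of_mem_erase hw)])
  rw [key _ v t (by rwa [update_of_ne huv.symm]), key _ u s hu, mul_left_comm, mul_assoc]

lemma error_bound (H : σ.OK) {R m K : ℕ} (hm : 1 ≤ m) (hmY : m ≤ σ.Y)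
    (h2 : ∀ r, R < r → σ.h r = 0) (hX : σ.X < 2 ^ K) (U : Finset (L × Finset J))
    {u v : L × Finset J} (hu : u ∈ U) (hv : v ∈ U) (hl : σ.Linked u v)
    (hR : Rect σ.pr (fun a b => σ.ψ a u.1 b v.1) (fun a => u.1 ∈ σ.R a) (fun a => v.1 ∈ σ.R a)
      R (m ^ 2) K σ.Y) :
    σ.TT U ≤ K * (2 * (R + 3) * σ.X / m) *
      (∏ a, (1 + 1 / (σ.pr a : ℝ))) ^ Fintype.card (L × Finset J) := by
  have huv := hl.1
  obtain ⟨α, β, hα, hβ, hαb, hβb, hαβ⟩ := sep_Psi H U hl
  rw [TT_eq H U hl]
  refine (sum_split2 huv _ (fun n => K * (2 * (R + 3) * σ.X / m) *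
    ∏ w, (1 / ((∏ a ∈ n w, σ.pr a : ℕ) : ℝ))) (fun n => by positivity)
    fun n hnu hnv => ?_).trans (le_of_eq (by rw [← Finset.mul_sum, sum_prod_inv]))
  have e2 : ∀ s t, σ.Psi U u v (update (update n u s) v t)
      = α (update n u s) * β (update n v t) := fun s t => by
    rw [hαβ, hα, update_comm huv, hβ]
  have hP : 0 < ∏ w, ∏ a ∈ n w, σ.pr a :=
    Finset.prod_pos fun w _ => Finset.prod_pos fun a _ => (H.hp a).pos
  have e3 : ∀ s t, σ.cutT (update (update n u s) v t) = if (∏ a ∈ s, σ.pr a) * ∏ a ∈ t, σ.pr a ≤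
      σ.X / ∏ w, ∏ a ∈ n w, σ.pr a then σ.h (s.card + t.card + ∑ w, (n w).card) else 0 := by
    intro s t
    have := prod_update2 huv (fun s => Multiplicative.ofAdd s.card) rfl hnu hnv s t
    simp only [← ofAdd_sum, ← ofAdd_add, EmbeddingLike.apply_eq_iff_eq] at this
    simp only [cutT, this, Nat.le_div_iff_mul_le hP,
      prod_update2 huv (fun s => ∏ a ∈ s, σ.pr a) rfl hnu hnv s t]
  simp only [e2, e3, update_of_ne huv, update_self]
  refine (hyper H.hp H.inj (fun a b => H.ψ1 _ _ _ _) hR hm hmY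
    (h := fun r => σ.h (r + ∑ w, (n w).card))
    (fun r => (abs_of_nonneg (H.h0 _)).trans_le (H.h1 _)) (fun r hr => h2 _ (by omega)) _ _
    (fun s => hαb _) (fun t => hβb _) _ ((Nat.div_le_self _ _).trans_lt hX)
    fun s t h => ?_).trans ?_
  · rw [← e2] at h
    have k1 := Psi_ne_zero H h hu
    have k2 := Psi_ne_zero H h hv
    rw [update_of_ne huv, update_self] at k1
    rw [update_self] at k2
    exact ⟨k1, k2⟩
  · rw [Finset.prod_div_distrib, Finset.prod_const_one, ← Nat.cast_prod]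
    calc _ ≤ K * (2 * (R + 3) * ((σ.X : ℝ) / (∏ w, ∏ a ∈ n w, σ.pr a : ℕ)) / m) := by
          gcongr
          exact Nat.cast_div_le
      _ = _ := by ring

end St

end Pool.Agent.P.MP_ab3ecb_nt
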