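import Pool.Agent.P.MP_ab3ecb_nt.Cond2
import Pool.Agent.P.MP_ab3ecb_nt.Mom2

/-!
The characters joining two linked tests.
-/

namespace Pool.Agent.P.MP_ab3ecb_nt

open TensorProduct Module Polynomial Finset
open scoped Classical NumberTheorySymbols

set_option maxHeartbeats 400000
set_option linter.unusedSectionVars false

lemma eq_of_max {B : Type} [CommRing B] [IsArtinianRing B] [IsReduced B] {x y : B}
    (h : ∀ m : MaximalSpectrum B, x - y ∈ m.asIdeal) : x = y :=
  (IsArtinianRing.equivPi B).injective (funext fun m => Ideal.Quotient.eq.mpr (h m))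

lemma exists_isE {B : Type} [CommRing B] [IsArtinianRing B] [IsReduced B] (h : B) :
    ∃ e, IsE e h ∧ ∀ m : MaximalSpectrum B,
      (h ∈ m.asIdeal → e ∈ m.asIdeal) ∧ (h ∉ m.asIdeal → e - 1 ∈ m.asIdeal) := by
  obtain ⟨e, he⟩ := (IsArtinianRing.equivPi B).surjective fun m => if h ∈ m.asIdeal then 0 else 1
  have h1 : ∀ m : MaximalSpectrum B,
      (h ∈ m.asIdeal → e ∈ m.asIdeal) ∧ (h ∉ m.asIdeal → e - 1 ∈ m.asIdeal) := fun m => by
    have h2 : Ideal.Quotient.mk m.asIdeal e = if h ∈ m.asIdeal then 0 else 1 := congrFun he m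
    exact ⟨fun h3 => Ideal.Quotient.eq_zero_iff_mem.mp (by rw [h2, if_pos h3]),
      fun h3 => Ideal.Quotient.eq.mp (by rw [h2, if_neg h3, map_one])⟩
  refine ⟨e, ⟨eq_of_max fun m => ?_, eq_of_max fun m => ?_, ?_⟩, h1⟩
  · rw [← mul_sub_one]
    by_cases h3 : h ∈ m.asIdeal
    · exact Ideal.mul_mem_right _ _ ((h1 m).1 h3)
    · exact Ideal.mul_mem_left _ _ ((h1 m).2 h3)
  · rw [← sub_one_mul]
    by_cases h3 : h ∈ m.asIdeal
    · exact Ideal.mul_mem_left _ _ h3
    · exact Ideal.mul_mem_right _ _ ((h1 m).2 h3)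
  · by_contra h2
    obtain ⟨m, hm, h3⟩ := exists_max_ideal_of_mem_nonunits h2
    by_cases h4 : h ∈ m
    · have := m.add_mem (m.sub_mem h3 h4) ((h1 ⟨m, hm⟩).1 h4)
      exact hm.ne_top ((Ideal.eq_top_iff_one _).mpr (by simpa using this))
    · refine h4 ?_
      have := m.add_mem h3 ((h1 ⟨m, hm⟩).2 h4)
      rwa [show h + (1 - e) + (e - 1) = h by ring] at this

variable {A : Type} [CommRing A] [Module.Free ℤ A] [Module.Finite ℤ A] [Nontrivial A]

lemma ch_Xe {n : ℕ} (b : Basis (Fin n) ℤ A) {r : ℤ} (hd : Dual A r) {q : ℕ} (hq : q.Prime)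
    (h2 : q ≠ 2) (hr : ¬ (q : ℤ) ∣ r) {κ : Type} (T T' : Finset κ) (h h' : κ → ZMod q ⊗[ℤ] A)
    {k : Type} [Field k] (μ : ZMod q ⊗[ℤ] A →+* k)
    (ho : Odd ((T.filter fun j => μ (h j) ≠ 0).card + (T'.filter fun j => μ (h' j) ≠ 0).card)) :
    Ch q fun z : A => ((chi q (Algebra.norm ℤ z : ℤ) ^ 2 *
      ((∏ j ∈ T, Xe q (h j) z) * ∏ j ∈ T', Xe q (h' j) z) : ℤ) : ℝ) := by
  have : Fact q.Prime := ⟨hq⟩
  have hp := hd.perf (R := ZMod q)
    (IsUnit.mk0 _ (mt (ZMod.intCast_zmod_eq_zero_iff_dvd _ q).mp hr))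
  have hred : IsReduced (ZMod q ⊗[ℤ] A) := ⟨fun z hz => hp.inj fun w =>
    (LinearMap.isNilpotent_trace_of_isNilpotent
      (((Commute.all _ _).isNilpotent_mul_right hz).map (Algebra.lmul (ZMod q) _))).eq_zero⟩
  have := IsArtinianRing.of_finite (ZMod q) (ZMod q ⊗[ℤ] A)
  have hsurj : Function.Surjective (inc A (ZMod q)) := fun z => by
    choose c hc using fun k => ZMod.intCast_surjective ((b.baseChange _).equivFun z k)
    refine ⟨b.equivFun.symm c, (b.baseChange _).equivFun.injective (funext fun k => ?_)⟩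
    rw [equivFun_inc, ← hc, ← Basis.equivFun_apply, LinearEquiv.apply_symm_apply]
  have h1 : ∀ h, Xe q h (1 : A) = 1 := fun h => by simp [Xe, chi_eq]
  have h3 : ∀ (h : ZMod q ⊗[ℤ] A) z, |(Xe q h z : ℝ)| ≤ 1 := fun h z => abs_jac_le _ _
  have h4 : ∀ x y : A, inc A (ZMod q) (x + q * y) = inc A _ x := fun x y => by
    rw [map_add, map_mul, map_natCast, ← map_natCast (algebraMap (ZMod q) _), ZMod.natCast_self,
      map_zero, zero_mul, add_zero]
  refine ⟨fun x y => ?_, by simp [h1, chi_eq], fun x => ?_, fun x y => ?_, ?_⟩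
  · simp only [Xe_mul hq, Finset.prod_mul_distrib, map_mul, Int.cast_mul, chi_eq, Int.cast_pow]
    ring
  · rw [Int.cast_mul, Int.cast_mul, Int.cast_pow, Int.cast_prod, Int.cast_prod, sq]
    exact St.abs_mul_le (St.abs_mul_le (abs_jac_le _ _) (abs_jac_le _ _)) (St.abs_mul_le
      (St.abs_prod_le _ fun j _ => h3 _ _) (St.abs_prod_le _ fun j _ => h3 _ _))
  · simp only [Xe, ← norm_inc, h4]
  · let m : MaximalSpectrum (ZMod q ⊗[ℤ] A) :=
      ⟨RingHom.ker μ, @IsArtinianRing.isMaximal_of_isPrime _ _ _ (RingHom.ker_isPrime μ) _⟩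
    obtain ⟨z, k1, k2, k3⟩ := exists_nonsq (k := ZMod q) (by rwa [ZMod.ringChar_zmod_n]) m
    obtain ⟨w, hw⟩ := k1.exists_right_inv
    obtain ⟨γ, rfl⟩ := hsurj z
    obtain ⟨γ', rfl⟩ := hsurj w
    have k4 : ∀ h, Xe q h γ = if μ h ≠ 0 then -1 else 1 := fun h => by
      obtain ⟨e, k4, k5⟩ := exists_isE h
      rw [Xe, k4.ide_eq, chi_eq]
      split_ifs with k6
      · rw [show e * inc A _ γ + (1 - e) = inc A _ γ from eq_of_max fun m' => ?_,
          quadraticChar_neg_one_iff_not_isSquare.mpr k2]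
        rw [show e * inc A _ γ + (1 - e) - inc A _ γ = (e - 1) * (inc A _ γ - 1) by ring]
        by_cases k7 : m' = m
        · exact k7 ▸ Ideal.mul_mem_right _ _ ((k5 m).2 k6)
        · exact Ideal.mul_mem_left _ _ (k3 m' k7)
      · rw [show e * inc A _ γ + (1 - e) = 1 from eq_of_max fun m' => ?_, map_one, map_one]
        rw [show e * inc A _ γ + (1 - e) - 1 = e * (inc A _ γ - 1) by ring]
        by_cases k7 : m' = m
        · exact k7 ▸ Ideal.mul_mem_right _ _ ((k5 m).1 (not_not.mp k6))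
        · exact Ideal.mul_mem_left _ _ (k3 m' k7)
    refine ⟨γ, γ', (dvd_iff_repr b q _).mpr fun k => ?_, ?_⟩
    · rw [← ZMod.intCast_zmod_eq_zero_iff_dvd, ← equivFun_inc, map_sub, map_mul, hw, map_one,
        sub_self, map_zero, Pi.zero_apply]
    · simp only [k4, Finset.prod_ite, Finset.prod_const, one_pow, mul_one, ← pow_add,
        ho.neg_one_pow, chi_eq, ← norm_inc,
        quadraticChar_sq_one (k1.map (Algebra.norm (ZMod q))).ne_zero]
      simp

lemma Rect.sign {ι : Type} [Fintype ι] [DecidableEq ι] {pr : ι → ℕ} {κ : ι → ι → ℝ}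
    {gs gt : ι → Prop} {R Z K Y : ℕ} (h : Rect pr κ gs gt R (2 * Z) K Y) {ρ : ι → ℝ}
    (hρ : ∀ b, ρ b = 1 ∨ ρ b = -1) : Rect pr (fun a b => ρ b * κ a b) gs gt R Z K Y := by
  intro α β A B hα hβ h1 h2 h3 h4 h5
  have h6 : ∀ t : Finset ι, ∏ b ∈ t, ρ b = 1 ∨ ∏ b ∈ t, ρ b = -1 := fun t => by
    rw [← mul_self_eq_one_iff, ← Finset.prod_mul_distrib]
    exact Finset.prod_eq_one fun b _ => mul_self_eq_one_iff.mpr (hρ b)
  have k1 := h (fun s => if Even s.card then α s else 0) β A B (fun s => by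
    split_ifs; exacts [hα s, by simp]) hβ h1 h2 h3 (fun s hs => h4 s (ite_ne_right_iff.mp hs).2) h5
  have k2 := h (fun s => if Even s.card then 0 else α s) (fun t => β t * ∏ b ∈ t, ρ b) A B
    (fun s => by split_ifs; exacts [by simp, hα s]) (fun t => St.abs_mul_le (hβ t) (by
      rcases h6 t with h | h <;> simp [h])) h1 h2 h3
    (fun s hs => h4 s (ite_ne_left_iff.mp hs).2.symm) fun t ht => h5 t (left_ne_zero_of_mul ht)
  refine le_trans (le_of_eq (congrArg _ ?_)) ((abs_add_le _ _).trans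
    ((add_le_add k1 k2).trans (le_of_eq ?_)))
  · simp only [← Finset.sum_add_distrib]
    refine Finset.sum_congr rfl fun s _ => Finset.sum_congr rfl fun t _ => ?_
    simp only [Finset.prod_mul_distrib, Finset.prod_const]
    split_ifs with k3
    · rcases h6 t with k | k <;> simp [k, k3.neg_one_pow]
    · rcases h6 t with k | k <;> simp [k, (Nat.not_even_iff_odd.mp k3).neg_one_pow]
  · push_cast
    ring

end Pool.Agent.P.MP_ab3ecb_nt
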