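import Pool.Agent.P.MP_ab3ecb_nt.ChebA

/-!
Chebyshev lower bound for the primes of degree one of a number field.
-/

namespace Pool.Agent.P.MP_ab3ecb_nt

open Finset Filter NumberField Ideal Module
open scoped Classical

set_option linter.unusedSectionVars false
set_option maxHeartbeats 400000

namespace Cheb

/-- the primes up to `x` -/
def pr (x : ℕ) : Finset ℕ := (range (x + 1)).filter Nat.Prime

lemma mem_pr {x p : ℕ} : p ∈ pr x ↔ p ≤ x ∧ p.Prime := by simp [pr]

lemma pr_mono {x y : ℕ} (h : x ≤ y) : pr x ⊆ pr y := fun _ hp =>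
  mem_pr.mpr ⟨(mem_pr.mp hp).1.trans h, (mem_pr.mp hp).2⟩

lemma sum_log_le (x : ℕ) : ∑ p ∈ pr x, Real.log p ≤ Real.log 4 * x := by
  have h := Chebyshev.theta_le_log4_mul_x (x := (x : ℝ)) (by positivity)
  rw [Chebyshev.theta_eq_sum_Icc, Nat.floor_natCast] at h
  refine le_trans (le_of_eq ?_) h
  congr 1
  ext p
  simp [mem_pr]

lemma G_bound {n : ℕ} (hn : n ≠ 0) : ∃ D : ℝ, 0 ≤ D ∧ ∀ B : ℕ, 1 ≤ B →
    ∑ p ∈ pr (B ^ n), (Nat.nthRoot n p : ℝ) * (Real.log p / p) ≤ D * B := by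
  have hl : 0 ≤ Real.log 4 := Real.log_nonneg (by norm_num)
  have hf : ∀ p : ℕ, 0 ≤ (Nat.nthRoot n p : ℝ) * (Real.log p / p) := fun p =>
    mul_nonneg (by positivity) (div_nonneg (Real.log_natCast_nonneg p) (by positivity))
  have key : ∀ m : ℕ, ∑ p ∈ pr ((2 ^ m) ^ n), (Nat.nthRoot n p : ℝ) * (Real.log p / p) ≤
      2 * 2 ^ n * Real.log 4 * 2 ^ m := by
    intro m
    induction m with
    | zero =>
      have : pr ((2 ^ 0) ^ n) = ∅ := by
        refine Finset.eq_empty_of_forall_notMem fun p hp => ?_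
        have h1 := (mem_pr.mp hp).1
        have h2 := (mem_pr.mp hp).2.two_le
        simp at h1
        omega
      rw [this, sum_empty]
      positivity
    | succ m ih =>
      have hsub : pr ((2 ^ m) ^ n) ⊆ pr ((2 ^ (m + 1)) ^ n) :=
        pr_mono (Nat.pow_le_pow_left (Nat.pow_le_pow_right (by norm_num) (by omega)) n)
      rw [← Finset.sum_sdiff hsub]
      have h1 : ∑ p ∈ pr ((2 ^ (m + 1)) ^ n) \ pr ((2 ^ m) ^ n),
          (Nat.nthRoot n p : ℝ) * (Real.log p / p) ≤ ∑ p ∈ pr ((2 ^ (m + 1)) ^ n),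
            (2 ^ (m + 1) / (2 ^ m) ^ n : ℝ) * Real.log p := by
        refine le_trans (Finset.sum_le_sum fun p hp => ?_)
          (Finset.sum_le_sum_of_subset_of_nonneg sdiff_subset fun p _ _ =>
            mul_nonneg (by positivity) (Real.log_natCast_nonneg p))
        obtain ⟨k1, k2⟩ := mem_sdiff.mp hp
        have k3 := mem_pr.mp k1
        have k4 : (2 ^ m) ^ n < p := by
          by_contra hcon
          exact k2 (mem_pr.mpr ⟨not_lt.mp hcon, k3.2⟩)
        have k5 : Nat.nthRoot n p ≤ 2 ^ (m + 1) := by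
          by_contra hcon
          have := (Nat.le_nthRoot_iff hn).mp (Nat.succ_le_of_lt (not_le.mp hcon))
          have h6 : (2 ^ (m + 1)) ^ n < (2 ^ (m + 1) + 1) ^ n := Nat.pow_lt_pow_left (by omega) hn
          have h7 := k3.1
          simp only [Nat.succ_eq_add_one] at this
          omega
        have k6 : (Nat.nthRoot n p : ℝ) ≤ 2 ^ (m + 1) := by exact_mod_cast k5
        have k7 : ((2 : ℝ) ^ m) ^ n ≤ p := by exact_mod_cast k4.le
        have k8 := Real.log_natCast_nonneg p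
        rw [div_mul_eq_mul_div, mul_div_assoc]
        gcongr
      rw [← Finset.mul_sum] at h1
      have h2 := sum_log_le ((2 ^ (m + 1)) ^ n)
      have h3 : (2 ^ (m + 1) / (2 ^ m) ^ n : ℝ) * (Real.log 4 * (((2 ^ (m + 1)) ^ n : ℕ) : ℝ)) =
          2 * 2 ^ n * Real.log 4 * 2 ^ m := by
        push_cast
        rw [pow_succ, mul_pow]
        field_simp
      have h4 := mul_le_mul_of_nonneg_left h2
        (by positivity : (0 : ℝ) ≤ 2 ^ (m + 1) / (2 ^ m) ^ n)
      rw [pow_succ (2 : ℝ) m] at *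
      linarith
  refine ⟨2 * 2 ^ n * Real.log 4 * 2, by positivity, fun B hB => ?_⟩
  have h1 : B < 2 ^ (Nat.log 2 B + 1) := Nat.lt_pow_succ_log_self (by norm_num) B
  have h2 : 2 ^ Nat.log 2 B ≤ B := Nat.pow_log_le_self 2 (by omega)
  have h3 : (2 : ℝ) ^ (Nat.log 2 B + 1) ≤ 2 * B := by
    rw [pow_succ, mul_comm]
    exact_mod_cast Nat.mul_le_mul_left 2 h2
  refine (Finset.sum_le_sum_of_subset_of_nonneg (pr_mono (Nat.pow_le_pow_left h1.le n))
    fun p _ _ => hf p).trans ((key _).trans ?_)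
  rw [mul_assoc _ 2]
  gcongr

lemma np_bound : ∃ S : ℝ, ∀ Y : ℕ, ∑ m ∈ (range (Y + 1)).filter (fun m => ¬ m.Prime),
    ArithmeticFunction.vonMangoldt m / (m : ℝ) ≤ S := by
  have h := ArithmeticFunction.vonMangoldt.summable_residueClass_non_primes_div (q := 1) 0
  have e : ∀ m : ℕ, ArithmeticFunction.vonMangoldt.residueClass (q := 1) 0 m =
      ArithmeticFunction.vonMangoldt m := fun m =>
    Set.indicator_of_mem (by exact Subsingleton.elim _ _) _
  simp only [e] at h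
  refine ⟨_, fun Y => le_trans (le_of_eq ?_) (h.sum_le_tsum (range (Y + 1)) fun m _ => ?_)⟩
  · rw [Finset.sum_filter]
    refine Finset.sum_congr rfl fun m _ => ?_
    split_ifs <;> simp_all
  · have := ArithmeticFunction.vonMangoldt_nonneg (n := m)
    split_ifs <;> positivity

variable {K : Type} [Field K] [NumberField K]

/-- the logarithmic sum over primes of degree one -/
noncomputable def MM (K : Type) [Field K] [NumberField K] (x : ℕ) : ℝ :=
  ∑ p ∈ pr x, ((idl K p).card : ℝ) * (Real.log p / p)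

lemma sum_pr_idl (x : ℕ) (f : Ideal (𝓞 K) → ℝ) :
    ∑ P ∈ (pr x).biUnion (idl K), f P = ∑ p ∈ pr x, ∑ P ∈ idl K p, f P := by
  refine Finset.sum_biUnion fun m _ n _ hmn => ?_
  simp only [Function.onFun]
  rw [Finset.disjoint_left]
  intro I h1 h2
  exact hmn ((mem_idl.mp h1).symm.trans (mem_idl.mp h2))

lemma log_norm_ge (Q : Finset (Ideal (𝓞 K))) (hQ : ∀ P ∈ Q, Prime P) {z : 𝓞 K}
    (hz : absNorm (span {z}) ≠ 0) :
    ∑ P ∈ Q.filter (fun P => z ∈ P), Real.log (absNorm P) ≤ Real.log (absNorm (span {z})) := by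
  have h1 : ∏ P ∈ Q.filter (fun P => z ∈ P), P ∣ span {z} :=
    Finset.prod_primes_dvd _ (fun P hP => hQ P (mem_filter.mp hP).1)
      fun P hP => Ideal.dvd_span_singleton.mpr (mem_filter.mp hP).2
  have h2 := Nat.le_of_dvd (Nat.pos_of_ne_zero hz) (map_dvd absNorm h1)
  rw [map_prod] at h2
  have h3 : ∀ P ∈ Q.filter (fun P => z ∈ P), (0 : ℝ) < absNorm P := fun P hP => by
    have := two_le_absNorm (hQ P (mem_filter.mp hP).1)
    exact_mod_cast (by omega : 0 < absNorm P)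
  rw [← Real.log_prod fun P hP => (h3 P hP).ne']
  refine Real.log_le_log (Finset.prod_pos h3) ?_
  exact_mod_cast h2

variable {n : ℕ} (b : Basis (Fin n) ℤ (𝓞 K))

lemma sum_cnt {α : Type} (t : 𝓞 K) (B : ℕ) (s : Finset α) (g : α → Ideal (𝓞 K)) (f : α → ℝ) :
    ∑ v ∈ box n B, ∑ a ∈ s.filter (fun a => t + b.equivFun.symm v ∈ g a), f a =
      ∑ a ∈ s, f a * cnt b t B (g a) := by
  simp only [Finset.sum_filter]
  rw [Finset.sum_comm]
  refine Finset.sum_congr rfl fun a _ => ?_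
  rw [← Finset.sum_filter, Finset.sum_const, nsmul_eq_mul, cnt, mul_comm]

include b in
lemma mertens_upper (hn : n ≠ 0) : ∃ C : ℝ, ∀ B : ℕ, 1 ≤ B →
    MM K (B ^ n) ≤ n * Real.log B + C := by
  obtain ⟨C, hC⟩ := cover b hn
  obtain ⟨C', h1, hC'⟩ := norm_bounds b
  obtain ⟨D, hD0, hD⟩ := G_bound hn
  have hr : finrank ℤ (𝓞 K) = n := by rw [finrank_eq_card_basis b, Fintype.card_fin]
  refine ⟨n * Real.log (2 * C') + n * C * n * D, fun B hB => ?_⟩
  have hB' : (0 : ℝ) < B := by exact_mod_cast hB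
  have hC1 : (0 : ℝ) < C' := by exact_mod_cast h1
  set t : 𝓞 K := ((C' * B : ℕ) : 𝓞 K)
  set Q := (pr (B ^ n)).biUnion (idl K) with hQ
  have hQp : ∀ P ∈ Q, Prime P := fun I hI => by
    obtain ⟨p, h1, h2⟩ := mem_biUnion.mp hI
    exact prime_of_mem_idl (mem_pr.mp h1).2 h2
  have h2 : ∑ P ∈ Q, Real.log (absNorm P) * cnt b t B P ≤
      (2 * B + 1) ^ n * (n * Real.log (2 * C' * B)) := by
    rw [← sum_cnt b t B Q (fun P => P)]
    calc _ ≤ ∑ _v ∈ box n B, n * Real.log (2 * C' * B) := by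
          refine Finset.sum_le_sum fun v hv => ?_
          obtain ⟨k1, k2⟩ := hC' B v hv
          have k3 : 0 < absNorm (span {t + b.equivFun.symm v}) :=
            lt_of_lt_of_le (pow_pos hB n) k1
          refine (log_norm_ge Q hQp k3.ne').trans ?_
          rw [← Real.log_pow]
          refine Real.log_le_log (by exact_mod_cast k3) ?_
          exact_mod_cast k2
      _ = _ := by rw [sum_const, card_box, nsmul_eq_mul]; push_cast; ring
  have h3 : (2 * B + 1 : ℝ) ^ n * (MM K (B ^ n) - n * C / B * ∑ p ∈ pr (B ^ n),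
      ((idl K p).card : ℝ) * ((Nat.nthRoot n p : ℝ) * (Real.log p / p))) ≤
        ∑ P ∈ Q, Real.log (absNorm P) * cnt b t B P := by
    rw [hQ, sum_pr_idl, MM, Finset.mul_sum, ← Finset.sum_sub_distrib, Finset.mul_sum]
    refine Finset.sum_le_sum fun p hp => ?_
    calc _ = ∑ _P ∈ idl K p, Real.log p * ((2 * B + 1 : ℝ) ^ n *
          ((1 - n * ((C * Nat.nthRoot n p : ℕ) / B)) / p)) := by
          rw [sum_const, nsmul_eq_mul]; push_cast; ring
      _ ≤ _ := by
          refine Finset.sum_le_sum fun P hP => ?_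
          have k1 := (prime_of_mem_idl (mem_pr.mp hp).2 hP).ne_zero
          have k2 := cnt_lower' b hn t B _ hB P k1 (hC P k1)
          rw [mem_idl.mp hP] at k2 ⊢
          exact mul_le_mul_of_nonneg_left k2 (Real.log_natCast_nonneg p)
  have h4 := le_of_mul_le_mul_left (h3.trans h2) (by positivity)
  have h5 : ∑ p ∈ pr (B ^ n), ((idl K p).card : ℝ) * ((Nat.nthRoot n p : ℝ) * (Real.log p / p))
      ≤ n * (D * B) := by
    refine le_trans (Finset.sum_le_sum fun p hp => ?_)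
      (le_trans (le_of_eq (Finset.mul_sum _ _ _).symm)
        (mul_le_mul_of_nonneg_left (hD B hB) (by positivity)))
    have k1 : ((idl K p).card : ℝ) ≤ n := by exact_mod_cast hr ▸ card_idl_le (mem_pr.mp hp).2
    have k2 := Real.log_natCast_nonneg p
    gcongr
  have h6 : (n * C / B : ℝ) * (n * (D * B)) = n * C * n * D := by field_simp
  have h7 := mul_le_mul_of_nonneg_left h5 (by positivity : (0 : ℝ) ≤ n * C / B)
  rw [Real.log_mul (by positivity) hB'.ne'] at h4
  linarith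

/-- prime powers of bounded norm -/
noncomputable def pp (K : Type) [Field K] [NumberField K] (Y : ℕ) : Finset (Ideal (𝓞 K) × ℕ) :=
  (((range (Y + 1)).biUnion (idl K)) ×ˢ range (Y + 1)).filter
    fun x => Prime x.1 ∧ 1 ≤ x.2 ∧ absNorm x.1 ^ x.2 ≤ Y

lemma mem_pp {Y : ℕ} {x : Ideal (𝓞 K) × ℕ} :
    x ∈ pp K Y ↔ Prime x.1 ∧ 1 ≤ x.2 ∧ absNorm x.1 ^ x.2 ≤ Y := by
  rw [pp, mem_filter, and_iff_right_iff_imp]
  rintro ⟨h1, h2, h3⟩
  have h4 := two_le_absNorm h1
  refine mem_product.mpr ⟨mem_biUnion.mpr ⟨absNorm x.1, mem_range.mpr ?_, mem_idl.mpr rfl⟩,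
    mem_range.mpr ?_⟩
  · exact Nat.lt_succ_of_le ((Nat.le_self_pow (by omega) _).trans h3)
  · exact Nat.lt_succ_of_le ((Nat.lt_pow_self (by omega : 1 < absNorm x.1)).le.trans h3)

lemma log_norm_le {Y : ℕ} {z : 𝓞 K} (hz : absNorm (span {z}) ≠ 0) (hY : absNorm (span {z}) ≤ Y) :
    Real.log (absNorm (span {z})) ≤
      ∑ x ∈ (pp K Y).filter (fun x => z ∈ x.1 ^ x.2), Real.log (absNorm x.1) := by
  have h0 : span {z} ≠ ⊥ := fun h => hz (absNorm_eq_zero_iff.mpr h)
  set F := UniqueFactorizationMonoid.normalizedFactors (span {z}) with hF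
  have h1 : span {z} = ∏ P ∈ F.toFinset, P ^ F.count P := by
    rw [← Finset.prod_multiset_count, hF, Ideal.prod_normalizedFactors_eq_self h0]
  have h2 : ∀ P ∈ F.toFinset, Prime P := fun P hP =>
    UniqueFactorizationMonoid.prime_of_normalized_factor P (Multiset.mem_toFinset.mp hP)
  have h3 : Real.log (absNorm (span {z})) = ∑ x ∈ F.toFinset.sigma (fun P => Icc 1 (F.count P)),
      Real.log (absNorm x.1) := by
    rw [Finset.sum_sigma]
    conv_lhs => rw [h1, map_prod, Nat.cast_prod]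
    rw [Real.log_prod fun P hP => by
      have := two_le_absNorm (h2 P hP)
      rw [map_pow]
      exact_mod_cast pow_ne_zero _ (by omega : absNorm P ≠ 0)]
    refine Finset.sum_congr rfl fun P _ => ?_
    simp
  rw [h3, ← Finset.sum_image (s := F.toFinset.sigma (fun P => Icc 1 (F.count P)))
    (g := fun x => (x.1, x.2)) (f := fun x : Ideal (𝓞 K) × ℕ => Real.log (absNorm x.1))
    (by rintro ⟨a, c⟩ _ ⟨a', c'⟩ _ h
        simp only [Prod.mk.injEq] at h
        obtain ⟨rfl, rfl⟩ := h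
        rfl)]
  refine Finset.sum_le_sum_of_subset_of_nonneg (fun x hx => ?_)
    fun x _ _ => Real.log_natCast_nonneg _
  obtain ⟨⟨P, j⟩, h4, rfl⟩ := mem_image.mp hx
  obtain ⟨h5, h6⟩ := mem_sigma.mp h4
  simp only [mem_Icc] at h5 h6
  have h7 : P ^ j ∣ span {z} := by
    refine (pow_dvd_pow P h6.2).trans ?_
    conv_rhs => rw [h1]
    exact Finset.dvd_prod_of_mem (fun P => P ^ F.count P) h5
  refine mem_filter.mpr ⟨mem_pp.mpr ⟨h2 P h5, h6.1, ?_⟩, Ideal.dvd_span_singleton.mp h7⟩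
  have h8 := Nat.le_of_dvd (Nat.pos_of_ne_zero hz) (map_dvd absNorm h7)
  rw [map_pow] at h8
  exact h8.trans hY

lemma fib_inj (Y m : ℕ) : Set.InjOn (fun x : Ideal (𝓞 K) × ℕ => x.1)
    ((pp K Y).filter fun x => absNorm x.1 ^ x.2 = m) := by
  rintro ⟨P, j⟩ h1 ⟨P', j'⟩ h2 h
  simp only at h
  subst h
  obtain ⟨k1, k2⟩ := mem_filter.mp (mem_coe.mp h1)
  have k3 := (mem_filter.mp (mem_coe.mp h2)).2
  have k4 := two_le_absNorm (mem_pp.mp k1).1
  have k5 : j = j' := Nat.pow_right_injective k4 (k2.trans k3.symm)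
  rw [k5]

lemma fib_prime (Y : ℕ) {p : ℕ} (hp : p.Prime) :
    ∑ x ∈ (pp K Y).filter (fun x => absNorm x.1 ^ x.2 = p), Real.log (absNorm x.1) ≤
      (idl K p).card * Real.log p := by
  have h1 : ∀ x ∈ (pp K Y).filter (fun x => absNorm x.1 ^ x.2 = p), absNorm x.1 = p :=
    fun x hx => (hp.pow_eq_iff.mp (mem_filter.mp hx).2).1
  rw [Finset.sum_congr rfl fun x hx => by rw [h1 x hx], sum_const, nsmul_eq_mul]
  refine mul_le_mul_of_nonneg_right ?_ (Real.log_natCast_nonneg p)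
  exact_mod_cast Finset.card_le_card_of_injOn _
    (fun x hx => mem_coe.mpr (mem_idl.mpr (h1 x hx))) (fib_inj Y p)

lemma fib_all (Y m : ℕ) :
    ∑ x ∈ (pp K Y).filter (fun x => absNorm x.1 ^ x.2 = m), Real.log (absNorm x.1) ≤
      (finrank ℤ (𝓞 K) : ℝ) ^ 2 * ArithmeticFunction.vonMangoldt m := by
  have h1 : ∀ x ∈ (pp K Y).filter (fun x => absNorm x.1 ^ x.2 = m),
      m.minFac.Prime ∧ ((m.minFac : ℕ) : 𝓞 K) ∈ x.1 ∧
        Real.log (absNorm x.1) ≤ finrank ℤ (𝓞 K) * ArithmeticFunction.vonMangoldt m := by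
    intro x hx
    obtain ⟨k1, k2⟩ := mem_filter.mp hx
    obtain ⟨k3, k4, -⟩ := mem_pp.mp k1
    have := (Ideal.isPrime_of_prime k3).isMaximal k3.ne_zero
    obtain ⟨p, f, hf, hm, hp, e⟩ := exists_prime_and_absNorm_eq_pow x.1
    have k5 : f * x.2 ≠ 0 := Nat.mul_ne_zero hf.ne' (by omega)
    rw [← k2, e, ← pow_mul, hp.pow_minFac k5, ArithmeticFunction.vonMangoldt_apply_pow k5,
      ArithmeticFunction.vonMangoldt_apply_prime hp, ← e, ← Real.log_pow]
    refine ⟨hp, hm, Real.log_le_log ?_ ?_⟩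
    · have := two_le_absNorm k3
      exact_mod_cast (by omega : 0 < absNorm x.1)
    · have k6 := map_dvd absNorm (Ideal.dvd_span_singleton.mpr hm)
      rw [absNorm_span_natCast] at k6
      exact_mod_cast Nat.le_of_dvd (pow_pos hp.pos _) k6
  rcases ((pp K Y).filter (fun x => absNorm x.1 ^ x.2 = m)).eq_empty_or_nonempty with h | ⟨x, hx⟩
  · rw [h, sum_empty]
    exact mul_nonneg (by positivity) ArithmeticFunction.vonMangoldt_nonneg
  · refine (Finset.sum_le_sum fun x hx => (h1 x hx).2.2).trans ?_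
    rw [sum_const, nsmul_eq_mul, sq, mul_assoc]
    refine mul_le_mul_of_nonneg_right ?_
      (mul_nonneg (by positivity) ArithmeticFunction.vonMangoldt_nonneg)
    rw [← Finset.card_image_of_injOn (fib_inj Y m)]
    refine Nat.cast_le.mpr (card_primes_le (h1 x hx).1 _ fun P hP => ?_)
    obtain ⟨y, hy, rfl⟩ := mem_image.mp hP
    exact ⟨(mem_pp.mp (mem_filter.mp hy).1).1, (h1 y hy).2.1⟩

lemma sum_pp (Y : ℕ) (g : ℕ → ℝ) :
    ∑ x ∈ pp K Y, g (absNorm x.1 ^ x.2) * Real.log (absNorm x.1) = ∑ m ∈ range (Y + 1), g m *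
      ∑ x ∈ (pp K Y).filter (fun x => absNorm x.1 ^ x.2 = m), Real.log (absNorm x.1) := by
  refine (Finset.sum_fiberwise_of_maps_to (s := pp K Y) (t := range (Y + 1))
    (g := fun x => absNorm x.1 ^ x.2)
    (fun x hx => mem_range.mpr (Nat.lt_succ_of_le (mem_pp.mp hx).2.2)) _).symm.trans ?_
  refine Finset.sum_congr rfl fun m _ => ?_
  rw [Finset.mul_sum]
  exact Finset.sum_congr rfl fun x hx => by rw [(mem_filter.mp hx).2]

include b in
lemma mertens_lower (hn : n ≠ 0) : ∃ (E : ℕ) (C : ℝ), 1 ≤ E ∧ ∀ B : ℕ, 1 ≤ B →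
    n * Real.log B - C ≤ MM K ((E * B) ^ n) := by
  obtain ⟨C, hC⟩ := cover b hn
  obtain ⟨C', h1, hC'⟩ := norm_bounds b
  obtain ⟨D, hD0, hD⟩ := G_bound hn
  obtain ⟨S, hS⟩ := np_bound
  have hr : finrank ℤ (𝓞 K) = n := by rw [finrank_eq_card_basis b, Fintype.card_fin]
  set L : ℝ := C * (2 * C') with hL
  set A : ℝ := n * (1 + L) ^ n with hA
  have hL0 : 0 ≤ L := by positivity
  have hA0 : 0 ≤ A := by positivity
  refine ⟨2 * C', A * C * (n * (D * (2 * C'))) + (1 + A * L) * (n ^ 2 * S), by omega,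
    fun B hB => ?_⟩
  have hB' : (0 : ℝ) < B := by exact_mod_cast hB
  set t : 𝓞 K := ((C' * B : ℕ) : 𝓞 K)
  set Y := (2 * C' * B) ^ n with hY
  have hroot : ∀ m ≤ Y, ((C * Nat.nthRoot n m : ℕ) : ℝ) ≤ L * B := by
    intro m hm
    have k5 : Nat.nthRoot n m ≤ 2 * C' * B := by
      by_contra hcon
      have := (Nat.le_nthRoot_iff hn).mp (Nat.succ_le_of_lt (not_le.mp hcon))
      have h6 : (2 * C' * B) ^ n < (2 * C' * B + 1) ^ n := Nat.pow_lt_pow_left (by omega) hn
      simp only [Nat.succ_eq_add_one] at this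
      omega
    rw [hL, mul_assoc]
    exact_mod_cast Nat.mul_le_mul_left C k5
  set g : ℕ → ℝ := fun m => (1 + A * (((C * Nat.nthRoot n m : ℕ) : ℝ) / B)) / m with hg
  have hg0 : ∀ m, 0 ≤ g m := fun m => by positivity
  have h2 : (2 * B + 1 : ℝ) ^ n * (n * Real.log B) ≤
      ∑ x ∈ pp K Y, Real.log (absNorm x.1) * cnt b t B (x.1 ^ x.2) := by
    rw [← sum_cnt b t B (pp K Y) (fun x => x.1 ^ x.2)]
    calc _ = ∑ _v ∈ box n B, n * Real.log B := by
          rw [sum_const, card_box, nsmul_eq_mul]; push_cast; ring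
      _ ≤ _ := by
          refine Finset.sum_le_sum fun v hv => ?_
          obtain ⟨k1, k2⟩ := hC' B v hv
          have k3 : 0 < absNorm (span {t + b.equivFun.symm v}) :=
            lt_of_lt_of_le (pow_pos hB n) k1
          refine le_trans ?_ (log_norm_le k3.ne' k2)
          rw [← Real.log_pow]
          refine Real.log_le_log (by positivity) ?_
          exact_mod_cast k1
  have h3 : ∑ x ∈ pp K Y, Real.log (absNorm x.1) * cnt b t B (x.1 ^ x.2) ≤
      (2 * B + 1 : ℝ) ^ n * ∑ x ∈ pp K Y, g (absNorm x.1 ^ x.2) * Real.log (absNorm x.1) := by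
    rw [Finset.mul_sum]
    refine Finset.sum_le_sum fun x hx => ?_
    obtain ⟨k1, k2, k3⟩ := mem_pp.mp hx
    have k4 : x.1 ^ x.2 ≠ ⊥ := pow_ne_zero _ k1.ne_zero
    have k5 := cnt_upper' b t B _ L hB (hroot _ (by rwa [map_pow])) _ k4 (hC _ k4)
    rw [map_pow] at k5
    rw [← mul_assoc, mul_comm]
    exact mul_le_mul_of_nonneg_right k5 (Real.log_natCast_nonneg _)
  have h4 : n * Real.log B ≤ ∑ x ∈ pp K Y, g (absNorm x.1 ^ x.2) * Real.log (absNorm x.1) :=
    le_of_mul_le_mul_left (h2.trans h3) (by positivity)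
  rw [sum_pp Y g, ← Finset.sum_filter_add_sum_filter_not _ Nat.Prime] at h4
  have h5 : ∑ m ∈ (range (Y + 1)).filter Nat.Prime, g m *
      ∑ x ∈ (pp K Y).filter (fun x => absNorm x.1 ^ x.2 = m), Real.log (absNorm x.1) ≤
        MM K Y + A * C / B * (n * ∑ p ∈ pr Y, (Nat.nthRoot n p : ℝ) * (Real.log p / p)) := by
    rw [MM, Finset.mul_sum, Finset.mul_sum, ← Finset.sum_add_distrib]
    refine Finset.sum_le_sum fun p hp => ?_
    have hp' := (mem_filter.mp hp).2
    refine (mul_le_mul_of_nonneg_left (fib_prime Y hp') (hg0 p)).trans ?_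
    have k1 : ((idl K p).card : ℝ) ≤ n := by exact_mod_cast hr ▸ card_idl_le hp'
    have k2 := Real.log_natCast_nonneg p
    calc _ = (idl K p).card * (Real.log p / p) + A * C / B *
          ((idl K p).card * ((Nat.nthRoot n p : ℝ) * (Real.log p / p))) := by
          rw [hg]; push_cast; ring
      _ ≤ _ := by gcongr
  have h6 : ∑ m ∈ (range (Y + 1)).filter (fun m => ¬ m.Prime), g m *
      ∑ x ∈ (pp K Y).filter (fun x => absNorm x.1 ^ x.2 = m), Real.log (absNorm x.1) ≤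
        (1 + A * L) * (n ^ 2 * S) := by
    refine le_trans ?_ (mul_le_mul_of_nonneg_left
      (mul_le_mul_of_nonneg_left (hS Y) (by positivity)) (by positivity))
    rw [Finset.mul_sum, Finset.mul_sum]
    refine Finset.sum_le_sum fun m hm => ?_
    refine (mul_le_mul_of_nonneg_left (fib_all Y m) (hg0 m)).trans ?_
    have k1 := hroot m (Nat.lt_succ_iff.mp (mem_range.mp (mem_filter.mp hm).1))
    rw [← div_le_iff₀ hB'] at k1
    have k2 := ArithmeticFunction.vonMangoldt_nonneg (n := m)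
    calc _ = (1 + A * (((C * Nat.nthRoot n m : ℕ) : ℝ) / B)) *
          (n ^ 2 * (ArithmeticFunction.vonMangoldt m / m)) := by
          rw [hg, hr]; ring
      _ ≤ _ := by gcongr
  have h7 := hD (2 * C' * B) (Nat.mul_pos (by omega) hB)
  have h8 : A * C / B * (n * ∑ p ∈ pr Y, (Nat.nthRoot n p : ℝ) * (Real.log p / p)) ≤
      A * C * (n * (D * (2 * C'))) := by
    calc _ ≤ A * C / B * (n * (D * ((2 * C' * B : ℕ) : ℝ))) := by gcongr
      _ = _ := by push_cast; field_simp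
  have h9 := h4.trans (add_le_add (h5.trans (add_le_add le_rfl h8)) h6)
  rw [sub_le_iff_le_add, ← add_assoc]
  exact h9

end Cheb

open Cheb in
/-- Chebyshev lower bound for degree one primes of a number field. -/
theorem cheb_lower (K : Type) [Field K] [NumberField K] : ∃ c : ℝ, 0 < c ∧ ∀ᶠ x : ℕ in atTop,
    c * x ≤ ∑ p ∈ (range (x + 1)).filter Nat.Prime, ((idl K p).card : ℝ) * Real.log p := by
  set n := finrank ℤ (𝓞 K) with hn'
  have hn : n ≠ 0 := finrank_pos.ne'
  let b : Basis (Fin n) ℤ (𝓞 K) := Module.finBasis ℤ (𝓞 K)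
  obtain ⟨C1, h1⟩ := mertens_upper b hn
  obtain ⟨E, C2, hE, h2⟩ := mertens_lower b hn
  obtain ⟨D, hD⟩ := exists_nat_ge (Real.exp (C1 + C2 + 1))
  have hD0 : (0 : ℝ) < D := (Real.exp_pos _).trans_le hD
  have hD1 : 1 ≤ D := by exact_mod_cast hD0
  set F := (E * D) ^ n with hF
  have hF0 : 0 < F := pow_pos (Nat.mul_pos hE hD1) n
  refine ⟨1 / (F * 2 ^ n), by positivity, ?_⟩
  filter_upwards [eventually_ge_atTop F] with x hx
  set B := Nat.nthRoot n (x / F) with hB
  have hB1 : 1 ≤ B := by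
    rw [hB, Nat.le_nthRoot_iff hn, one_pow]
    exact (Nat.le_div_iff_mul_le hF0).mpr (by omega)
  have hB2 : (E * (D * B)) ^ n ≤ x := by
    rw [← mul_assoc, mul_pow, mul_comm]
    exact (Nat.le_div_iff_mul_le hF0).mp ((Nat.le_nthRoot_iff hn).mp le_rfl)
  have hB3 : x ≤ F * 2 ^ n * B ^ n := by
    have k1 := (Nat.div_lt_iff_lt_mul hF0).mp (Nat.lt_pow_nthRoot_add_one hn (x / F))
    rw [mul_assoc, ← mul_pow, mul_comm]
    exact k1.le.trans (Nat.mul_le_mul_right _ (Nat.pow_le_pow_left (by omega) n))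
  have hB4 : B ^ n ≤ x := by
    refine le_trans (Nat.pow_le_pow_left ?_ n) hB2
    rw [← mul_assoc]
    exact Nat.le_mul_of_pos_left _ (Nat.mul_pos hE hD1)
  have h3 := h1 B hB1
  have h4 := h2 (D * B) (Nat.mul_pos hD1 hB1)
  have h5 : MM K ((E * (D * B)) ^ n) ≤ MM K x :=
    Finset.sum_le_sum_of_subset_of_nonneg (pr_mono hB2) fun p _ _ =>
      mul_nonneg (by positivity) (div_nonneg (Real.log_natCast_nonneg p) (by positivity))
  have hB' : (0 : ℝ) < B := by exact_mod_cast hB1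
  have h6 : C1 + C2 + 1 ≤ n * Real.log D := by
    have k1 : C1 + C2 + 1 ≤ Real.log D := (Real.le_log_iff_exp_le hD0).mpr hD
    have k2 : (1 : ℝ) ≤ n := by exact_mod_cast Nat.one_le_iff_ne_zero.mpr hn
    have k3 := Real.log_natCast_nonneg D
    nlinarith
  rw [Nat.cast_mul, Real.log_mul hD0.ne' hB'.ne', mul_add] at h4
  have h7 : 1 ≤ ∑ p ∈ pr x \ pr (B ^ n), ((idl K p).card : ℝ) * (Real.log p / p) := by
    have := Finset.sum_sdiff (f := fun p => ((idl K p).card : ℝ) * (Real.log p / p)) (pr_mono hB4)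
    unfold MM at h3 h5
    unfold MM at h4
    linarith
  have h8 : (B : ℝ) ^ n ≤ ∑ p ∈ pr x, ((idl K p).card : ℝ) * Real.log p := by
    refine (le_mul_of_one_le_right (by positivity) h7).trans ?_
    rw [Finset.mul_sum]
    refine le_trans (Finset.sum_le_sum fun p hp => ?_)
      (Finset.sum_le_sum_of_subset_of_nonneg sdiff_subset fun p _ _ =>
        mul_nonneg (by positivity) (Real.log_natCast_nonneg p))
    obtain ⟨k1, k2⟩ := mem_sdiff.mp hp
    have k3 := mem_pr.mp k1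
    have k4 : B ^ n < p := by
      by_contra hcon
      exact k2 (mem_pr.mpr ⟨not_lt.mp hcon, k3.2⟩)
    have k5 : (B : ℝ) ^ n ≤ p := by exact_mod_cast k4.le
    have k6 : (0 : ℝ) < p := by exact_mod_cast k3.2.pos
    have k7 := Real.log_natCast_nonneg p
    calc _ ≤ p * ((idl K p).card * (Real.log p / p)) := by gcongr
      _ = _ := by field_simp
  refine le_trans ?_ h8
  rw [one_div, inv_mul_le_iff₀ (by positivity)]
  exact_mod_cast hB3

end Pool.Agent.P.MP_ab3ecb_nt
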