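import Pool.Agent.P.MP_ab3ecb_nt.Zeta

/-!
Lattice points of ideals in boxes (for the Chebyshev lower bound).
-/

namespace Pool.Agent.P.MP_ab3ecb_nt.Cheb

open Finset Filter NumberField Ideal Module
open scoped Classical

set_option linter.unusedSectionVars false
set_option maxHeartbeats 400000

/-- integer vectors with coordinates bounded by `B` -/
noncomputable def box (n B : ℕ) : Finset (Fin n → ℤ) :=
  Fintype.piFinset fun _ => Icc (-(B : ℤ)) B

lemma mem_box {n B : ℕ} {v : Fin n → ℤ} : v ∈ box n B ↔ ∀ i, |v i| ≤ B := by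
  simp [box, Fintype.mem_piFinset, abs_le]

lemma card_box (n B : ℕ) : (box n B).card = (2 * B + 1) ^ n := by
  have : ((B : ℤ) + 1 - -(B : ℤ)).toNat = 2 * B + 1 := by omega
  simp only [box, Fintype.card_piFinset, Int.card_Icc, this, prod_const, card_univ,
    Fintype.card_fin]

variable {K : Type} [Field K] [NumberField K] {n : ℕ} (b : Basis (Fin n) ℤ (𝓞 K))

lemma mul_bound : ∃ C : ℕ, ∀ (x y : 𝓞 K) (X Y : ℤ), (∀ i, |b.repr x i| ≤ X) →
    (∀ i, |b.repr y i| ≤ Y) → ∀ k, |b.repr (x * y) k| ≤ C * (X * Y) := by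
  refine ⟨∑ k, ∑ i, ∑ j, (b.repr (b i * b j) k).natAbs, fun x y X Y hx hy k => ?_⟩
  have h1 : b.repr (x * y) k = ∑ i, ∑ j, b.repr x i * b.repr y j * b.repr (b i * b j) k := by
    conv_lhs => rw [← b.sum_repr x, ← b.sum_repr y, Finset.sum_mul_sum]
    simp only [smul_mul_smul_comm, map_sum, map_smul, Finsupp.coe_finsetSum, Finset.sum_apply,
      Finsupp.smul_apply, smul_eq_mul]
  have hX : 0 ≤ X := (abs_nonneg _).trans (hx k)
  have hY : 0 ≤ Y := (abs_nonneg _).trans (hy k)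
  have h2 : |b.repr (x * y) k| ≤ (∑ i, ∑ j, |b.repr (b i * b j) k|) * (X * Y) := by
    rw [h1, Finset.sum_mul]
    refine (Finset.abs_sum_le_sum_abs _ _).trans (Finset.sum_le_sum fun i _ => ?_)
    rw [Finset.sum_mul]
    refine (Finset.abs_sum_le_sum_abs _ _).trans (Finset.sum_le_sum fun j _ => ?_)
    rw [abs_mul, abs_mul, mul_comm]
    exact mul_le_mul_of_nonneg_left (mul_le_mul (hx i) (hy j) (abs_nonneg _) hX) (abs_nonneg _)
  refine h2.trans (mul_le_mul_of_nonneg_right ?_ (mul_nonneg hX hY))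
  push_cast
  exact Finset.single_le_sum (f := fun k => ∑ i, ∑ j, |b.repr (b i * b j) k|)
    (fun _ _ => by positivity) (mem_univ k)

lemma card_quot (I : Ideal (𝓞 K)) [Fintype (𝓞 K ⧸ I)] : Fintype.card (𝓞 K ⧸ I) = absNorm I := by
  rw [← Nat.card_eq_fintype_card]
  rfl

lemma exists_short (hn : n ≠ 0) (I : Ideal (𝓞 K)) (hI : I ≠ ⊥) :
    ∃ π ∈ I, π ≠ 0 ∧ ∀ i, |b.repr π i| ≤ Nat.nthRoot n (absNorm I) := by
  have : Finite (𝓞 K ⧸ I) := (absNorm_ne_zero_iff I).mp fun h => hI (absNorm_eq_zero_iff.mp h)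
  let := Fintype.ofFinite (𝓞 K ⧸ I)
  obtain ⟨c, h1, c', h2, h3, h4⟩ := Finset.exists_ne_map_eq_of_card_lt_of_maps_to
    (s := Fintype.piFinset fun _ : Fin n => Icc (0 : ℤ) (Nat.nthRoot n (absNorm I))) (t := univ)
    (f := fun c => Ideal.Quotient.mk I (b.equivFun.symm c))
    (by simpa [card_quot] using Nat.lt_pow_nthRoot_add_one hn (absNorm I))
    fun _ _ => mem_coe.mpr (mem_univ _)
  refine ⟨b.equivFun.symm (c - c'), ?_, ?_, fun k => ?_⟩
  · rw [map_sub]
    exact Ideal.Quotient.eq.mp h4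
  · rwa [Ne, LinearEquiv.map_eq_zero_iff, sub_eq_zero]
  · have k1 := mem_Icc.mp (Fintype.mem_piFinset.mp h1 k)
    have k2 := mem_Icc.mp (Fintype.mem_piFinset.mp h2 k)
    rw [← Basis.equivFun_apply, LinearEquiv.apply_symm_apply, Pi.sub_apply, abs_le]
    omega

lemma cover (hn : n ≠ 0) : ∃ C : ℕ, ∀ I : Ideal (𝓞 K), I ≠ ⊥ → ∀ z, ∃ r,
    (∀ i, |b.repr r i| ≤ (C * Nat.nthRoot n (absNorm I) : ℕ)) ∧ z - r ∈ I := by
  obtain ⟨C, hC⟩ := mul_bound b
  refine ⟨C, fun I hI z => ?_⟩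
  obtain ⟨π, h1, h2, h3⟩ := exists_short b hn I hI
  obtain ⟨π', h4⟩ := Ideal.mem_span_singleton.mp (absNorm_mem (span {π}))
  have h5 : absNorm (span {π}) ≠ 0 := fun h =>
    h2 (Ideal.span_singleton_eq_bot.mp (absNorm_eq_zero_iff.mp h))
  generalize absNorm (span {π}) = r at h4 h5
  have hr : (0 : ℤ) < r := by omega
  set c := b.equivFun (π' * z) with hc
  set q := b.equivFun.symm fun i => c i / r with hq
  set m := b.equivFun.symm fun i => c i % r with hm
  have h6 : π' * z = (r : ℤ) • q + m := by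
    apply b.equivFun.injective
    rw [map_add, map_smul, hq, hm, LinearEquiv.apply_symm_apply, LinearEquiv.apply_symm_apply]
    funext i
    simp only [Pi.add_apply, Pi.smul_apply, smul_eq_mul]
    exact (Int.mul_ediv_add_emod _ _).symm
  have h7 : (r : ℤ) • (z - π * q) = π * m := by
    have : m = π' * z - (r : ℤ) • q := by rw [h6]; abel
    rw [this]
    simp only [zsmul_eq_mul, Int.cast_natCast]
    rw [h4]
    ring
  refine ⟨z - π * q, fun i => ?_, by simpa using I.mul_mem_right q h1⟩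
  have h8 := hC π m _ r h3 (fun j => by
    rw [hm, ← Basis.equivFun_apply, LinearEquiv.apply_symm_apply,
      abs_of_nonneg (Int.emod_nonneg _ hr.ne')]
    exact (Int.emod_lt_of_pos _ hr).le) i
  rw [← h7, map_smul, Finsupp.smul_apply, smul_eq_mul, abs_mul, abs_of_pos hr, ← mul_assoc,
    mul_comm] at h8
  push_cast
  exact le_of_mul_le_mul_right h8 hr

/-- the number of points of a shifted box in an ideal -/
noncomputable def cnt (t : 𝓞 K) (B : ℕ) (I : Ideal (𝓞 K)) : ℕ :=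
  ((box n B).filter fun v => t + b.equivFun.symm v ∈ I).card

lemma cnt_upper (t : 𝓞 K) (B R : ℕ) (I : Ideal (𝓞 K)) (hI : I ≠ ⊥)
    (h : ∀ z, ∃ r, (∀ i, |b.repr r i| ≤ R) ∧ z - r ∈ I) :
    absNorm I * cnt b t B I ≤ (2 * (B + R) + 1) ^ n := by
  have : Finite (𝓞 K ⧸ I) := (absNorm_ne_zero_iff I).mp fun h => hI (absNorm_eq_zero_iff.mp h)
  let := Fintype.ofFinite (𝓞 K ⧸ I)
  have h' : ∀ c : 𝓞 K ⧸ I, ∃ r, (∀ i, |b.repr r i| ≤ R) ∧ Ideal.Quotient.mk I r = c := by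
    intro c
    obtain ⟨z, rfl⟩ := Ideal.Quotient.mk_surjective c
    obtain ⟨r, h1, h2⟩ := h z
    exact ⟨r, h1, (Ideal.Quotient.eq.mpr h2).symm⟩
  choose r hr1 hr2 using h'
  rw [← card_quot, ← card_box, cnt, ← Finset.card_univ, ← Finset.card_product]
  refine Finset.card_le_card_of_injOn (fun x => x.2 + b.equivFun (r x.1)) ?_ ?_
  · rintro ⟨c, v⟩ hx
    have h1 := mem_box.mp (mem_filter.mp (mem_product.mp hx).2).1
    refine mem_coe.mpr (mem_box.mpr fun i => ?_)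
    have h2 := hr1 c i
    rw [← Basis.equivFun_apply] at h2
    push_cast
    exact (abs_add_le _ _).trans (add_le_add (h1 i) h2)
  · rintro ⟨c, v⟩ hx ⟨c', v'⟩ hx' he
    have h1 := (mem_filter.mp (mem_product.mp hx).2).2
    have h2 := (mem_filter.mp (mem_product.mp hx').2).2
    simp only at he h1 h2
    have h3 := congrArg (fun w => Ideal.Quotient.mk I (t + b.equivFun.symm w)) he
    simp only [map_add b.equivFun.symm, LinearEquiv.symm_apply_apply, ← add_assoc] at h3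
    rw [map_add, map_add _ (t + _), Ideal.Quotient.eq_zero_iff_mem.mpr h1,
      Ideal.Quotient.eq_zero_iff_mem.mpr h2, hr2, hr2, zero_add, zero_add] at h3
    subst h3
    rw [add_left_inj] at he
    rw [he]

lemma cnt_lower (t : 𝓞 K) (B R : ℕ) (I : Ideal (𝓞 K)) (hI : I ≠ ⊥)
    (h : ∀ z, ∃ r, (∀ i, |b.repr r i| ≤ R) ∧ z - r ∈ I) :
    (2 * B + 1) ^ n ≤ absNorm I * cnt b t (B + R) I := by
  have : Finite (𝓞 K ⧸ I) := (absNorm_ne_zero_iff I).mp fun h => hI (absNorm_eq_zero_iff.mp h)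
  let := Fintype.ofFinite (𝓞 K ⧸ I)
  have h' : ∀ c : 𝓞 K ⧸ I, ∃ r, (∀ i, |b.repr r i| ≤ R) ∧ Ideal.Quotient.mk I r = c := by
    intro c
    obtain ⟨z, rfl⟩ := Ideal.Quotient.mk_surjective c
    obtain ⟨r, h1, h2⟩ := h z
    exact ⟨r, h1, (Ideal.Quotient.eq.mpr h2).symm⟩
  choose r hr1 hr2 using h'
  rw [← card_quot, ← card_box, cnt, ← Finset.card_univ, ← Finset.card_product]
  refine Finset.card_le_card_of_injOn (fun u => (Ideal.Quotient.mk I (t + b.equivFun.symm u),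
    u - b.equivFun (r (Ideal.Quotient.mk I (t + b.equivFun.symm u))))) ?_ ?_
  · intro u hu
    have h1 := mem_box.mp (mem_coe.mp hu)
    refine mem_coe.mpr (mem_product.mpr ⟨mem_univ _, mem_filter.mpr ⟨mem_box.mpr fun i => ?_, ?_⟩⟩)
    · have h2 := hr1 (Ideal.Quotient.mk I (t + b.equivFun.symm u)) i
      rw [← Basis.equivFun_apply] at h2
      push_cast
      exact (abs_sub _ _).trans (add_le_add (h1 i) h2)
    · rw [map_sub, LinearEquiv.symm_apply_apply, ← add_sub_assoc, ← Ideal.Quotient.eq, hr2]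
  · intro u _ u' _ he
    have h1 := congrArg Prod.fst he
    have h2 := congrArg Prod.snd he
    simp only at h1 h2
    rw [h1, sub_left_inj] at h2
    exact h2

lemma pow_add_le (u L : ℝ) (h0 : 0 ≤ u) (h1 : u ≤ L) (k : ℕ) :
    (1 + u) ^ k ≤ 1 + k * (1 + L) ^ k * u := by
  induction k with
  | zero => simp
  | succ k ih =>
    have hL : 0 ≤ L := h0.trans h1
    have h2 : (1 + u) ^ k ≤ (1 + L) ^ k := by gcongr
    have h3 : (1 + L) ^ k ≤ (1 + L) ^ (k + 1) := pow_le_pow_right₀ (by linarith) (by omega)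
    have h4 : (k : ℝ) * (1 + L) ^ k * u ≤ k * (1 + L) ^ (k + 1) * u := by gcongr
    have h5 : (1 + u) ^ k * u ≤ (1 + L) ^ (k + 1) * u := by
      have := h2.trans h3
      gcongr
    calc (1 + u) ^ (k + 1) = (1 + u) ^ k + (1 + u) ^ k * u := by ring
      _ ≤ _ := by push_cast; linarith

lemma cnt_upper' (t : 𝓞 K) (B R : ℕ) (L : ℝ) (hB : 1 ≤ B) (hL : (R : ℝ) ≤ L * B)
    (I : Ideal (𝓞 K)) (hI : I ≠ ⊥) (h : ∀ z, ∃ r, (∀ i, |b.repr r i| ≤ R) ∧ z - r ∈ I) :
    (cnt b t B I : ℝ) ≤ (2 * B + 1) ^ n * ((1 + n * (1 + L) ^ n * (R / B)) / absNorm I) := by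
  have h1 : (absNorm I : ℝ) * cnt b t B I ≤ (2 * (B + R) + 1) ^ n := by
    exact_mod_cast cnt_upper b t B R I hI h
  have hN : (0 : ℝ) < absNorm I := by
    exact_mod_cast Nat.pos_of_ne_zero fun h => hI (absNorm_eq_zero_iff.mp h)
  have hB' : (0 : ℝ) < B := by exact_mod_cast hB
  have h2 : (2 * (B + R) + 1 : ℝ) ≤ (2 * B + 1) * (1 + R / B) := by
    have : (2 * B + 1 : ℝ) * (1 + R / B) = 2 * (B + R) + 1 + R / B := by field_simp; ring
    rw [this]
    have : (0 : ℝ) ≤ R / B := by positivity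
    linarith
  have h3 := pow_add_le (R / B) L (by positivity) (by rwa [div_le_iff₀ hB']) n
  rw [← mul_div_assoc, le_div_iff₀ hN, mul_comm]
  refine h1.trans ((pow_le_pow_left₀ (by positivity) h2 n).trans ?_)
  rw [mul_pow]
  gcongr

lemma cnt_lower' (hn : n ≠ 0) (t : 𝓞 K) (B R : ℕ) (hB : 1 ≤ B)
    (I : Ideal (𝓞 K)) (hI : I ≠ ⊥) (h : ∀ z, ∃ r, (∀ i, |b.repr r i| ≤ R) ∧ z - r ∈ I) :
    (2 * B + 1 : ℝ) ^ n * ((1 - n * (R / B)) / absNorm I) ≤ cnt b t B I := by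
  have hN : (0 : ℝ) < absNorm I := by
    exact_mod_cast Nat.pos_of_ne_zero fun h => hI (absNorm_eq_zero_iff.mp h)
  have hB' : (0 : ℝ) < B := by exact_mod_cast hB
  rcases le_or_gt R B with hR | hR
  · obtain ⟨B', rfl⟩ := Nat.exists_eq_add_of_le' hR
    have h1 : (2 * B' + 1 : ℝ) ^ n ≤ (absNorm I : ℝ) * cnt b t (B' + R) I := by
      exact_mod_cast cnt_lower b t B' R I hI h
    rw [← mul_div_assoc, div_le_iff₀ hN, mul_comm (cnt b t (B' + R) I : ℝ)]
    refine le_trans ?_ h1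
    set u : ℝ := R / (B' + R : ℕ) with hu
    have hu0 : 0 ≤ u := by positivity
    have hu1 : u ≤ 1 := by
      rw [hu, div_le_one hB']
      exact_mod_cast hR
    have h2 : (2 * (B' + R : ℕ) + 1 : ℝ) * (1 + -u) ≤ 2 * B' + 1 := by
      have e : ((B' + R : ℕ) : ℝ) * u = R := by rw [hu]; field_simp
      push_cast at e ⊢
      nlinarith
    have h3 := one_add_mul_le_pow (a := -u) (by linarith) n
    refine le_trans ?_ (pow_le_pow_left₀ (mul_nonneg (by positivity) (by linarith)) h2 n)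
    rw [mul_pow]
    refine mul_le_mul_of_nonneg_left ?_ (by positivity)
    linarith
  · refine le_trans (mul_nonpos_of_nonneg_of_nonpos (by positivity)
      (div_nonpos_of_nonpos_of_nonneg ?_ hN.le)) (by positivity)
    have h1 : (1 : ℝ) ≤ n := by exact_mod_cast Nat.one_le_iff_ne_zero.mpr hn
    have h2 : (1 : ℝ) ≤ R / B := by
      rw [le_div_iff₀ hB', one_mul]
      exact_mod_cast hR.le
    nlinarith

lemma norm_bounds : ∃ C : ℕ, 1 ≤ C ∧ ∀ B : ℕ, ∀ v ∈ box n B,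
    B ^ n ≤ absNorm (span {((C * B : ℕ) : 𝓞 K) + b.equivFun.symm v}) ∧
      absNorm (span {((C * B : ℕ) : 𝓞 K) + b.equivFun.symm v}) ≤ (2 * C * B) ^ n := by
  obtain ⟨C, hC⟩ := exists_nat_ge (∑ σ : K →ₐ[ℚ] ℂ, ∑ i, ‖σ (b i : K)‖)
  refine ⟨C + 1, by omega, fun B v hv => ?_⟩
  have hn : Fintype.card (K →ₐ[ℚ] ℂ) = n := by
    rw [AlgHom.card, ← RingOfIntegers.rank, finrank_eq_card_basis b, Fintype.card_fin]
  set z : 𝓞 K := (((C + 1) * B : ℕ) : 𝓞 K) + b.equivFun.symm v with hz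
  have h1 : (absNorm (span {z}) : ℝ) = ∏ σ : K →ₐ[ℚ] ℂ, ‖σ (z : K)‖ := by
    rw [← norm_prod, ← Algebra.norm_eq_prod_embeddings, ← Algebra.coe_norm_int,
      Ideal.absNorm_span_singleton]
    simp
  have h2 : ∀ σ : K →ₐ[ℚ] ℂ, ‖σ ((b.equivFun.symm v : 𝓞 K) : K)‖ ≤ C * B := by
    intro σ
    have e : σ ((b.equivFun.symm v : 𝓞 K) : K) = ∑ i, (v i : ℂ) * σ (b i : K) := by
      rw [Basis.equivFun_symm_apply]
      simp
    rw [e]
    refine (norm_sum_le _ _).trans ?_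
    calc _ ≤ ∑ i, (B : ℝ) * ‖σ (b i : K)‖ := by
          refine Finset.sum_le_sum fun i _ => ?_
          rw [norm_mul, Complex.norm_intCast]
          gcongr
          exact_mod_cast mem_box.mp hv i
      _ ≤ C * B := by
          rw [← Finset.mul_sum, mul_comm]
          gcongr
          exact le_trans (Finset.single_le_sum (f := fun σ : K →ₐ[ℚ] ℂ => ∑ i, ‖σ (b i : K)‖)
            (fun _ _ => by positivity) (mem_univ σ)) hC
  have h3 : ∀ σ : K →ₐ[ℚ] ℂ, (B : ℝ) ≤ ‖σ (z : K)‖ ∧ ‖σ (z : K)‖ ≤ 2 * (C + 1) * B := by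
    intro σ
    have e : σ (z : K) = (((C + 1) * B : ℕ) : ℂ) + σ ((b.equivFun.symm v : 𝓞 K) : K) := by
      simp [hz]
    have e2 : ‖(((C + 1) * B : ℕ) : ℂ)‖ = (C + 1) * B := by
      rw [Complex.norm_natCast]; push_cast; ring
    have k1 := norm_add_le (((C + 1) * B : ℕ) : ℂ) (σ ((b.equivFun.symm v : 𝓞 K) : K))
    have k2 := norm_sub_le (σ (z : K)) (σ ((b.equivFun.symm v : 𝓞 K) : K))
    rw [← e, e2] at k1
    rw [show σ (z : K) - σ ((b.equivFun.symm v : 𝓞 K) : K) = (((C + 1) * B : ℕ) : ℂ) by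
      rw [e]; ring, e2] at k2
    have k3 := h2 σ
    have k4 : (0 : ℝ) ≤ B := by positivity
    constructor <;> nlinarith
  constructor
  · have : (B : ℝ) ^ n ≤ absNorm (span {z}) := by
      rw [h1, ← hn, ← Finset.card_univ, ← Finset.prod_const]
      exact Finset.prod_le_prod (fun _ _ => by positivity) fun σ _ => (h3 σ).1
    exact_mod_cast this
  · have : (absNorm (span {z}) : ℝ) ≤ (2 * (C + 1) * B) ^ n := by
      rw [h1, ← hn, ← Finset.card_univ, ← Finset.prod_const]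
      exact Finset.prod_le_prod (fun _ _ => by positivity) fun σ _ => (h3 σ).2
    exact_mod_cast this

end Pool.Agent.P.MP_ab3ecb_nt.Cheb
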