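import Pool.Agent.P.MP_ab3ecb_nt.Defs3

/-!
Parity combinatorics of unlinked tests.
-/

namespace Pool.Agent.P.MP_ab3ecb_nt

open Polynomial Finset Filter Asymptotics
open scoped Classical IntermediateField

lemma comb_erase {Ω : Type} (T : Finset Ω) (c : Ω) :
    (T.erase c).card + (if c ∈ T then 1 else 0) = T.card := by
  split_ifs with h
  · exact Finset.card_erase_add_one h
  · rw [Finset.erase_eq_of_notMem h, add_zero]

/-- A family of sets whose traces on `I` are governed by the parity. -/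
def Par {Ω : Type} (I : Finset Ω) (a : Ω) (F : Finset (Finset Ω)) : Prop :=
  ∀ T ∈ F, ∀ T' ∈ F, ∀ c ∈ I, c ≠ a → (T.erase c).card % 2 = (T'.erase c).card % 2

lemma Par.mem_iff {Ω : Type} {I : Finset Ω} {a : Ω} {F : Finset (Finset Ω)} (h : Par I a F)
    {T T' : Finset Ω} (hT : T ∈ F) (hT' : T' ∈ F) {c : Ω} (hc : c ∈ I) (hca : c ≠ a) :
    (T.card % 2 = T'.card % 2 ↔ (c ∈ T ↔ c ∈ T')) := by
  have h1 := h T hT T' hT' c hc hca
  have h2 := comb_erase T c
  have h3 := comb_erase T' c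
  by_cases k : c ∈ T <;> by_cases k' : c ∈ T' <;> simp only [k, k', if_true, if_false] at h2 h3 <;>
    simp only [k, k', iff_self, iff_true, iff_false, not_true] <;> omega

lemma Par.cardA {Ω : Type} {I Φ : Finset Ω} {a c0 : Ω} {F : Finset (Finset Ω)} (h : Par I a F)
    (hF : ∀ T ∈ F, T ⊆ Φ.erase a) (h0 : c0 ∈ Φ \ I) : F.card ≤ 2 ^ (Φ \ I).card := by
  have := Finset.card_le_card_of_injOn (s := F)
    (t := ((Φ \ I).erase c0).powerset ×ˢ range 2) (fun T => ((T \ I).erase c0, T.card % 2))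
    (fun T hT => mem_coe.mpr (mem_product.mpr ⟨mem_powerset.mpr (erase_subset_erase _
      (sdiff_subset_sdiff ((hF T hT).trans (erase_subset _ _)) le_rfl)),
      mem_range.mpr (Nat.mod_lt _ two_pos)⟩)) fun T hT T' hT' e => by
      obtain ⟨e1, e2⟩ := Prod.mk.inj e
      have e3 : T.erase c0 = T'.erase c0 := by
        ext c
        by_cases k : c ∈ I
        · by_cases k2 : c = a
          · subst k2
            simp only [mem_erase]
            exact ⟨fun k3 => absurd rfl (ne_of_mem_erase (hF T hT k3.2)),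
              fun k3 => absurd rfl (ne_of_mem_erase (hF T' hT' k3.2))⟩
          · simp only [mem_erase, (h.mem_iff hT hT' k k2).mp e2]
        · simpa [k] using Finset.ext_iff.mp e1 c
      have h2 := comb_erase T c0
      have h3 := comb_erase T' c0
      rw [e3] at h2
      by_cases k : c0 ∈ T <;> by_cases k' : c0 ∈ T' <;>
        simp only [k, k', if_true, if_false] at h2 h3
      · rw [← Finset.insert_erase k, ← Finset.insert_erase k', e3]
      · omega
      · omega
      · rw [← Finset.erase_eq_of_notMem k, ← Finset.erase_eq_of_notMem k', e3]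
  rwa [card_product, card_powerset, card_range, ← pow_succ, Finset.card_erase_add_one h0] at this

lemma Par.eq_of {Ω : Type} {I Φ : Finset Ω} {a : Ω} {F : Finset (Finset Ω)} (h : Par I a F)
    (hF : ∀ T ∈ F, T ⊆ Φ.erase a) (h0 : Φ ⊆ I) {T T' : Finset Ω} (hT : T ∈ F) (hT' : T' ∈ F)
    (e : T.card % 2 = T'.card % 2) : T = T' := by
  ext c
  constructor
  · intro k
    have := mem_erase.mp (hF T hT k)
    exact ((h.mem_iff hT hT' (h0 this.2) this.1).mp e).mp k
  · intro k
    have := mem_erase.mp (hF T' hT' k)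
    exact ((h.mem_iff hT hT' (h0 this.2) this.1).mp e).mpr k

lemma Par.cardB {Ω : Type} {I Φ : Finset Ω} {a : Ω} {F : Finset (Finset Ω)} (h : Par I a F)
    (hF : ∀ T ∈ F, T ⊆ Φ.erase a) (h0 : Φ ⊆ I) (ha : a ∈ Φ) (h3 : 3 ≤ I.card) :
    F.card ≤ 2 ∧ (F.card ≤ 1 ∨ 4 ≤ Φ.card) := by
  constructor
  · simpa using Finset.card_le_card_of_injOn (s := F) (t := range 2) (fun T => T.card % 2)
      (fun T _ => mem_coe.mpr (mem_range.mpr (Nat.mod_lt _ two_pos)))
      fun T hT T' hT' e => h.eq_of hF h0 hT hT' e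
  · by_cases k : F.card ≤ 1
    · exact Or.inl k
    right
    obtain ⟨T, hT, T', hT', hne⟩ := Finset.one_lt_card.mp (not_le.mp k)
    have e : ¬ T.card % 2 = T'.card % 2 := fun e => hne (h.eq_of hF h0 hT hT' e)
    have e1 : ∀ c ∈ I, c ≠ a → ¬ (c ∈ T ↔ c ∈ T') := fun c hc hca k2 =>
      e ((h.mem_iff hT hT' hc hca).mpr k2)
    have e2 : Disjoint T T' := Finset.disjoint_left.mpr fun c k1 k2 =>
      e1 c (h0 (mem_of_mem_erase (hF T hT k1))) (ne_of_mem_erase (hF T hT k1)) (iff_of_true k1 k2)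
    have e3 : T ∪ T' = I.erase a := by
      refine Finset.Subset.antisymm ((union_subset (hF T hT) (hF T' hT')).trans
        (erase_subset_erase _ h0)) fun c hc => ?_
      by_contra k2
      rw [mem_union, not_or] at k2
      exact e1 c (mem_of_mem_erase hc) (ne_of_mem_erase hc) (iff_of_false k2.1 k2.2)
    have e4 := Finset.card_union_of_disjoint e2
    have e5 := Finset.card_erase_add_one (h0 ha)
    have e6 := Finset.card_le_card (union_subset (hF T hT) (hF T' hT'))
    have e7 := Finset.card_erase_add_one ha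
    rw [e3] at e4 e6
    omega

/-- COMB (file Comb.lean). -/
theorem comb {K Ω : Type} [Fintype Ω] {G : Set (Equiv.Perm Ω)} (h1 : 1 ∈ G)
    (U : Finset ((K × Ω) × Finset Ω × Bool)) (hU : ∀ u ∈ U, ∀ v ∈ U, ¬ Lk G u v)
    (h3 : 3 ≤ (orb G (U.image fun w => w.1.2)).card) (κ : K) (Φ : Finset Ω) :
    (U.filter fun w => w.1.1 = κ ∧ w.1.2 ∈ Φ ∧ w.2.1 ⊆ Φ.erase w.1.2).card ≤ 2 ^ Φ.card ∧
    (Φ = univ → 6 ≤ Fintype.card Ω →
      4 * (U.filter fun w => w.1.1 = κ ∧ w.1.2 ∈ Φ ∧ w.2.1 ⊆ Φ.erase w.1.2).card ≤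
        3 * 2 ^ Φ.card) := by
  set I := orb G (U.image fun w => w.1.2) with hI
  set S := U.filter fun w => w.1.1 = κ ∧ w.1.2 ∈ Φ ∧ w.2.1 ⊆ Φ.erase w.1.2 with hS
  set Sa : Ω → Finset ((K × Ω) × Finset Ω × Bool) := fun a => S.filter fun w => w.1.2 = a with hSa
  have hsum : S.card = ∑ a ∈ Φ ∩ I, (Sa a).card :=
    Finset.card_eq_sum_card_fiberwise fun w hw => mem_coe.mpr (mem_inter.mpr
      ⟨(mem_filter.mp hw).2.2.1, mem_filter.mpr ⟨mem_univ _, 1, h1,
        mem_image.mpr ⟨w, (mem_filter.mp hw).1, rfl⟩⟩⟩)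
  have hmem : ∀ a, ∀ w ∈ Sa a, w ∈ U ∧ w.1 = (κ, a) ∧ w.2.1 ⊆ Φ.erase a := by
    intro a w hw
    obtain ⟨k1, k2⟩ := mem_filter.mp hw
    obtain ⟨k3, k4, -, k5⟩ := mem_filter.mp k1
    exact ⟨k3, Prod.ext k4 k2, k2 ▸ k5⟩
  have hF : ∀ a, ∀ T ∈ (Sa a).image fun w => w.2.1, T ⊆ Φ.erase a := by
    intro a T hT
    obtain ⟨w, hw, rfl⟩ := mem_image.mp hT
    exact (hmem a w hw).2.2
  have hcard : ∀ a, (Sa a).card ≤ 2 * ((Sa a).image fun w => w.2.1).card := by
    intro a
    have := Finset.card_le_card_of_injOn (s := Sa a)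
      (t := ((Sa a).image fun w => w.2.1) ×ˢ (univ : Finset Bool)) (fun w => w.2)
      (fun w hw => mem_coe.mpr (mem_product.mpr ⟨mem_image.mpr ⟨w, hw, rfl⟩, mem_univ _⟩))
      fun w hw w' hw' e => Prod.ext ((hmem a w hw).2.1.trans (hmem a w' hw').2.1.symm) e
    rwa [card_product, card_univ, Fintype.card_bool, mul_comm] at this
  have hpar : ∀ a, 3 ≤ (Sa a).card → Par I a ((Sa a).image fun w => w.2.1) := by
    intro a ha T hT T' hT' c hc hca
    obtain ⟨u, hu, rfl⟩ := mem_image.mp hT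
    obtain ⟨u', hu', rfl⟩ := mem_image.mp hT'
    obtain ⟨g, hg, hgc⟩ := (mem_filter.mp hc).2
    obtain ⟨w, hw, hwc⟩ := mem_image.mp hgc
    obtain ⟨v, hv, hvc, hvu, hvu'⟩ : ∃ v ∈ U, v.1.2 = g c ∧ v ≠ u ∧ v ≠ u' := by
      by_cases k : w ≠ u ∧ w ≠ u'
      · exact ⟨w, hw, hwc, k⟩
      have k1 : w.1 = (κ, a) := by
        by_cases k2 : w = u
        · exact k2 ▸ (hmem a u hu).2.1
        · exact (not_not.mp fun k3 => k ⟨k2, k3⟩ : w = u') ▸ (hmem a u' hu').2.1
      obtain ⟨v, hv, k2⟩ : ∃ v ∈ Sa a, v ∉ ({u, u'} : Finset _) :=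
        Finset.exists_mem_notMem_of_card_lt_card (card_le_two.trans_lt ha)
      rw [mem_insert, mem_singleton, not_or] at k2
      exact ⟨v, (hmem a v hv).1, by rw [← hwc, k1, (hmem a v hv).2.1], k2⟩
    have key : ∀ x ∈ Sa a, v ≠ x → ¬ Odd ((x.2.1.erase c).card +
        (v.2.1.filter fun b => b ≠ g a).card) := by
      intro x hx hvx ho
      refine hU x (hmem a x hx).1 v hv ⟨hvx.symm, g, hg, ?_⟩
      have k1 : x.1.2 = a := by rw [(hmem a x hx).2.1]
      have k2 : g c ≠ g a := fun k => hca (g.injective k)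
      rw [hvc, k1]
      have k3 : (x.2.1.filter fun b => g c ≠ g a ∧ g c ≠ g b) = x.2.1.erase c := by
        ext b
        simp only [mem_filter, mem_erase, ne_eq, EmbeddingLike.apply_eq_iff_eq]
        exact ⟨fun k => ⟨fun k' => k.2.2 k'.symm, k.1⟩, fun k => ⟨k.2, hca, fun k' => k.1 k'.symm⟩⟩
      have k4 : (v.2.1.filter fun b => g c ≠ g a ∧ b ≠ g a) = v.2.1.filter fun b => b ≠ g a :=
        Finset.filter_congr fun b _ => and_iff_right k2
      rwa [k3, k4]
    have k1 := key u hu hvu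
    have k2 := key u' hu' hvu'
    rw [Nat.odd_iff] at k1 k2
    omega
  have hkj := Finset.card_sdiff_add_card_inter Φ I
  have p2 : ∀ j : ℕ, 2 * j ≤ 2 ^ j := fun j => by
    rcases j with _ | j
    · simp
    · have := @Nat.lt_two_pow_self j
      rw [pow_succ]
      omega
  have p3 : ∀ j : ℕ, 8 * (j + 3) ≤ 3 * 2 ^ (j + 3) ∧ 4 * (j + 4) ≤ 2 ^ (j + 4) ∧
      16 * (j + 6) ≤ 3 * 2 ^ (j + 6) := fun j => by
    have := @Nat.lt_two_pow_self j
    simp only [pow_add]
    omega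
  by_cases hA : Φ ⊆ I
  · rw [inter_eq_left.mpr hA] at hsum
    have k1 : ∀ a ∈ Φ, (Sa a).card ≤ 4 ∧ ((Sa a).card ≤ 2 ∨ 4 ≤ Φ.card) := by
      intro a ha
      by_cases k : 3 ≤ (Sa a).card
      · have := (hpar a k).cardB (hF a) hA ha h3
        have := hcard a
        omega
      · omega
    have k2 : S.card ≤ Φ.card * 4 := hsum.trans_le (Finset.sum_le_card_nsmul _ _ _ fun a ha =>
      (k1 a ha).1)
    constructor
    · by_cases k : 4 ≤ Φ.card
      · obtain ⟨j, hj⟩ := Nat.exists_eq_add_of_le' k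
        have := (p3 j).2.1
        rw [← hj] at this
        omega
      · have k3 : S.card ≤ Φ.card * 2 := hsum.trans_le (Finset.sum_le_card_nsmul _ _ _
          fun a ha => (k1 a ha).2.resolve_right k)
        have := p2 Φ.card
        omega
    · intro k3 k4
      rw [← card_univ, ← k3] at k4
      obtain ⟨j, hj⟩ := Nat.exists_eq_add_of_le' k4
      have := (p3 j).2.2
      rw [← hj] at this
      omega
  · obtain ⟨c0, k1, k2⟩ := Finset.not_subset.mp hA
    have k3 : S.card ≤ (Φ ∩ I).card * (2 * 2 ^ (Φ \ I).card) :=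
      hsum.trans_le (Finset.sum_le_card_nsmul _ _ _ fun a _ => by
        by_cases k : 3 ≤ (Sa a).card
        · exact (hcard a).trans (Nat.mul_le_mul_left _
            ((hpar a k).cardA (hF a) (mem_sdiff.mpr ⟨k1, k2⟩)))
        · have := @Nat.one_le_two_pow (Φ \ I).card
          omega)
    rw [← hkj, pow_add]
    constructor
    · refine k3.trans ?_
      rw [← mul_assoc, mul_comm, mul_comm _ 2]
      exact Nat.mul_le_mul_left _ (p2 _)
    · intro k4 _
      have k5 : 3 ≤ (Φ ∩ I).card := by rwa [k4, univ_inter]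
      obtain ⟨j, hj⟩ := Nat.exists_eq_add_of_le' k5
      have := Nat.mul_le_mul_left (2 ^ (Φ \ I).card) (p3 j).1
      rw [← hj] at this
      nlinarith

end Pool.Agent.P.MP_ab3ecb_nt
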