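import Pool.Agent.P.MP_ab3ecb_nt.Types

/-!
The residue conditions forced by a point of the Brauer-Manin set, for arbitrary factor degrees.
-/

namespace Pool.Agent.P.MP_ab3ecb_nt

open TensorProduct Module Polynomial Finset
open scoped NumberTheorySymbols Classical

set_option maxHeartbeats 400000
set_option linter.unusedSectionVars false

/-- The quadratic character modulo `q`. -/
def chi (q : ℕ) (z : ZMod q) : ℤ := J((z.val : ℤ) | q)

lemma chi_eq {q : ℕ} [Fact q.Prime] (z : ZMod q) : chi q z = quadraticChar (ZMod q) z := by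
  rw [chi, ← jacobiSym.legendreSym.to_jacobiSym, legendreSym, Int.cast_natCast,
    ZMod.natCast_zmod_val]

lemma sub_dvd_aeval {R : Type} [CommRing R] (x y : R) (G : ℤ[X]) :
    x - y ∣ aeval x G - aeval y G := by
  rw [aeval_def, aeval_def, ← eval_map, ← eval_map]
  exact sub_dvd_eval_sub _ _ _

section one
variable {A : Type} [CommRing A] [Module.Free ℤ A] [Module.Finite ℤ A] [Nontrivial A]

/-- Reduction at the root `t` modulo `q`. -/
noncomputable def lam (θ : A) (q t : ℕ) (z : A) : ZMod q :=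
  if h : ∃ φ : A →+* ZMod q, φ θ = t then h.choose z else 1

lemma Stem.lam_eq {g : ℤ[X]} {θ : A} (h : Stem g θ) {q t : ℕ} {φ : A →+* ZMod q} (hφ : φ θ = t)
    (z : A) : lam θ q t z = φ z := by
  have h1 : ∃ φ : A →+* ZMod q, φ θ = t := ⟨φ, hφ⟩
  rw [lam, dif_pos h1, h.ext (h1.choose_spec.trans hφ.symm)]

/-- The character attached to a prime `q` and a root `t`. -/
noncomputable def Xc (θ : A) (q : ℕ) (same : Prop) (t : ℕ) (z : A) : ℤ :=
  chi q ((Algebra.norm ℤ z : ℤ) * if same then lam θ q t z else 1)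

/-- `π` generates the prime at the root `t` modulo `p`, up to bad primes. -/
def Gen (θ : A) (M p t : ℕ) (π : A) : Prop :=
  (∃ m : ℤ, m ∣ M ∧ Algebra.norm ℤ π = p * m) ∧ lam θ p t π = 0

lemma spl_of_sep {F : ℤ[X]} {r : ℤ} {G H : A[X]} (mG : G.Monic) (mF : F.Monic)
    (mul : G * H = F.map (Int.castRingHom A)) (ev : Even F.natDegree)
    (sep : ∃ u v : ℤ[X], u * F + v * derivative F = C r) : Spl F r G H := by
  refine ⟨mG, mG.of_mul_monic_left (mul ▸ mF.map _), mF, mul, ?_, ev⟩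
  obtain ⟨u, v, h⟩ := sep
  have := congrArg (Polynomial.map (Int.castRingHom A)) h
  rw [Polynomial.map_add, Polynomial.map_mul, Polynomial.map_mul, ← derivative_map, ← mul,
    derivative_mul, map_C, eq_intCast] at this
  exact ⟨v.map (Int.castRingHom A) * derivative H, u.map (Int.castRingHom A) * G +
    v.map (Int.castRingHom A) * derivative G, by linear_combination this⟩

end one

variable {J : Type} [Fintype J] {A : J → Type} [∀ j, CommRing (A j)] [∀ j, Module.Free ℤ (A j)]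
  [∀ j, Module.Finite ℤ (A j)] [∀ j, Nontrivial (A j)]

/-- The modulus `M` collects all bad primes of the family `g` and of the constant `e`. -/
structure Gd (g : J → ℤ[X]) (θ : ∀ j, A j) (M : ℕ) (e : ℤ) : Prop where
  M0 : M ≠ 0
  h2 : 2 ∣ M
  mon : ∀ j, (g j).Monic
  ev : Even (∏ j, g j).natDegree
  sep : ∃ u v : ℤ[X], u * ∏ j, g j + v * derivative (∏ j, g j) = C (M : ℤ)
  du : ∀ j, Dual (A j) M
  he : e ∣ M
  st : ∀ j, Stem (g j) (θ j)

/-- The sets of factors that give a test at primes of class `i`. -/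
def Vd (g : J → ℤ[X]) (i : J) (S : Finset J) : Prop := i ∈ S ↔ Odd (∏ j ∈ S, g j).natDegree

/-- The cofactor of `X - θ i`. -/
noncomputable def cof (g : J → ℤ[X]) (θ : ∀ j, A j) (i : J) : (A i)[X] :=
  (∏ j, g j).map (Int.castRingHom (A i)) /ₘ (X - C (θ i))

/-- The symbol contributed by the prime `q` of class `j` and root `t`. -/
noncomputable def Xs (θ : ∀ j, A j) (i : J) (S : Finset J) (q : ℕ) (j : J) (t : ℕ) (z : A i) : ℤ :=
  if j ∈ S then Xc (θ i) q (j = i) t z else 1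

variable {g : J → ℤ[X]} {θ : ∀ j, A j} {M : ℕ} {e : ℤ}

lemma Gd.dat (h : Gd g θ M e) (i : J) (S : Finset J) :
    Dat (∏ j, g j) M (∏ j ∈ S, g j) (∏ j ∈ Sᶜ, g j) (θ i) (cof g θ i) := by
  have mF : (∏ j, g j).Monic := monic_prod_of_monic _ _ fun j _ => h.mon j
  refine ⟨spl_of_sep (monic_prod_of_monic _ _ fun j _ => h.mon j) mF ?_ h.ev h.sep,
    spl_of_sep (monic_X_sub_C _) mF ?_ h.ev h.sep, h.du i, by exact_mod_cast h.M0⟩
  · rw [Finset.prod_mul_prod_compl, RingHom.ext_int (Int.castRingHom ℤ) (RingHom.id ℤ),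
      Polynomial.map_id]
  · rw [cof, mul_divByMonic_eq_iff_isRoot, IsRoot.def, eval_map, ← algebraMap_int_eq, ← aeval_def,
      map_prod]
    exact Finset.prod_eq_zero (mem_univ i) (h.st i).root

lemma Gd.simple (h : Gd g θ M e) {q : ℕ} [Fact q.Prime] (hq : ¬ q ∣ M) {t : ZMod q} {i : J}
    (ht : aeval t (g i) = 0) :
    aeval t (derivative (g i)) ≠ 0 ∧ ∀ j, j ≠ i → aeval t (g j) ≠ 0 := by
  obtain ⟨u, v, h1⟩ := h.sep
  have h2 := congrArg (aeval t) h1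
  rw [← Finset.mul_prod_erase _ _ (mem_univ i), derivative_mul] at h2
  simp only [map_add, map_mul, ht, zero_mul, mul_zero, add_zero, zero_add, map_natCast,
    map_prod] at h2
  have h3 := h2 ▸ mt (ZMod.natCast_eq_zero_iff M q).mp hq
  have h4 := right_ne_zero_of_mul h3
  exact ⟨left_ne_zero_of_mul h4, fun j hj => Finset.prod_ne_zero_iff.mp
    (right_ne_zero_of_mul h4) j (mem_erase.mpr ⟨hj, mem_univ _⟩)⟩

lemma mem_rts {G : ℤ[X]} {q t : ℕ} (h : t ∈ rts G q) : aeval (t : ZMod q) G = 0 := by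
  have := (dvd_eval_iff G q t).mp (mem_filter.mp h).2
  rwa [Int.cast_natCast] at this

lemma hv_aeval {R : Type} [CommRing R] (G : ℤ[X]) (t : R) :
    hv (Int.castRingHom R) G t 1 = aeval t G := by
  rw [hv_one, ← algebraMap_int_eq, ← aeval_def]

lemma Gd.hv_zero (h : Gd g θ M e) {q : ℕ} [Fact q.Prime] (hq : ¬ q ∣ M) {t : ZMod q} {j : J}
    (ht : aeval t (g j) = 0) (S : Finset J) :
    hv (Int.castRingHom _) (∏ j ∈ S, g j) t 1 = 0 ↔ j ∈ S := by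
  rw [hv_aeval, map_prod, Finset.prod_eq_zero_iff]
  refine ⟨fun ⟨k, h1, h2⟩ => ?_, fun h1 => ⟨j, h1, ht⟩⟩
  by_contra h3
  exact (h.simple hq ht).2 k (fun h4 => h3 (h4 ▸ h1)) h2

lemma Gd.ne_two (h : Gd g θ M e) {q : ℕ} (hq : ¬ q ∣ M) : q ≠ 2 := fun h1 => hq (h1 ▸ h.h2)

/-- The description of the local values at a prime `q` dividing the twisting parameter. -/
def LV (g : J → ℤ[X]) (θ : ∀ j, A j) (M q : ℕ) [Fact q.Prime] (i : J) (S : Finset J) (t : ℕ)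
    (c : A i → ℤ) : Prop :=
  ∀ (D : ℤ) (a η d : ℤ_[q]) (j : J) (α : A i),
    (D : ℤ_[q]) = q * d → IsUnit d → η ^ 2 = D * hv (Int.castRingHom _) (∏ j, g j) a 1 →
    PadicInt.toZMod a = t → t ∈ rts (g j) q →
    ∃ w u, Rep D (∏ j ∈ S, g j) (∏ j ∈ Sᶜ, g j) (θ i) (cof g θ i) (algebraMap ℤ_[q] ℚ_[q] a) 1
      w u ∧ (¬ (q : ℤ) ∣ Algebra.norm ℤ α → ∃ ε, Sg q (cv (∏ j ∈ S, g j).natDegree α w u) ε ∧
        quadraticChar _ ε = Xs θ i S q j t α) ∧
      (j = i → ∀ π β, α = π * β → Gen (θ i) M q t π → ¬ (q : ℤ) ∣ Algebra.norm ℤ β →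
        ∃ ε, Sg q (cv (∏ j ∈ S, g j).natDegree α w u) ε ∧
          quadraticChar _ ε = c π * Xs θ i S q j t β)

lemma Gd.loc_val (h : Gd g θ M e) {q : ℕ} [Fact q.Prime] (hq : ¬ q ∣ M) {i : J} {S : Finset J}
    (hS : Vd g i S) (t : ℕ) : ∃ c : A i → ℤ, LV g θ M q i S t c := by
  have hp2 := h.ne_two hq
  have hr : IsUnit ((M : ℤ) : ℤ_[q]) :=
    (isUnit_intCast_iff _).mpr (mt Int.natCast_dvd_natCast.mp hq)
  by_cases ht : aeval (t : ZMod q) (g i) = 0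
  · obtain ⟨lb, hlb⟩ := (h.st i).lift _ _ ht
    obtain ⟨ν, hν⟩ := (h.st i).exists_loc (h.du i) hr lb (hlb ▸ (h.simple hq ht).1)
    have h0 := h.hv_zero hq ht S
    refine ⟨fun π => quadraticChar (ZMod q) (if i ∈ S then hv (Int.castRingHom _) (∏ j ∈ Sᶜ, g j)
      (lb (θ i)) 1 * hv lb (cof g θ i) (lb (θ i)) 1 * ν π else
      hv (Int.castRingHom _) (∏ j ∈ S, g j) (lb (θ i)) 1), fun D a η d j α h1 h2 h3 h4 h5 => ?_⟩
    obtain rfl : i = j := by
      by_contra h6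
      exact (h.simple hq (mem_rts h5)).2 i h6 ht
    obtain ⟨w, u, h6, h7, h8⟩ := (h.dat i S).eval_at (α := α) hp2 hr h1 h2 h3 hν
      (h4.trans hlb.symm) (∏ j ∈ S, g j).natDegree
    rw [← hlb] at h0
    simp only [h0] at h7 h8
    refine ⟨w, u, h6, fun hα => ?_, fun _ π β h9 hπ hβ => ?_⟩
    · have k1 := h7 ((isUnit_intCast_iff _).mpr hα)
      have k2 := right_ne_zero_of_mul k1.ne_zero
      refine ⟨_, k1, ?_⟩
      rw [Xs, Xc, chi_eq, if_pos rfl, (h.st i).lam_eq hlb]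
      split_ifs with k3
      · obtain ⟨k, hk⟩ := hS.mp k3
        rw [hk] at k2 ⊢
        rw [pow_succ', pow_mul', ← mul_assoc, map_mul, quadraticChar_sq_one', mul_one]
        exact fun k4 => k2 (by rw [pow_succ, pow_mul', k4]; simp)
      · obtain ⟨k, hk⟩ := Nat.not_odd_iff_even.mp (mt hS.mpr k3)
        rw [hk, pow_add] at k2 ⊢
        rw [one_mul, ← sq, quadraticChar_sq_one' (left_ne_zero_of_mul k2)]
    · obtain ⟨⟨m, k1, k2⟩, k3⟩ := hπ
      rw [(h.st i).lam_eq hlb] at k3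
      refine ⟨_, h8 (m * Algebra.norm ℤ β) ?_ (by rw [h9, map_mul, k2, mul_assoc])
        (by rw [h9, map_mul, k3, zero_mul]) hS, ?_⟩
      · rw [Int.cast_mul]
        exact ((isUnit_intCast_iff _).mpr (not_dvd_of_dvd hq k1)).mul
          ((isUnit_intCast_iff _).mpr hβ)
      · rw [Xs, Xc, chi_eq, if_pos rfl, (h.st i).lam_eq hlb]
        split_ifs with k4
        · have k5 := hν.norm β
          have k6 : lb β ≠ 0 := left_ne_zero_of_mul
            (k5 ▸ mt (ZMod.intCast_zmod_eq_zero_iff_dvd _ q).mp hβ)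
          rw [h9, hν.mul, ← mul_assoc, map_mul _ _ (ν β), k5, mul_right_comm (lb β), ← sq,
            map_mul _ _ (ν β), quadraticChar_sq_one' k6, one_mul]
        · rw [mul_one]
  · refine ⟨0, fun D a η d j α h1 h2 h3 h4 h5 => ?_⟩
    have hj : j ≠ i := fun h6 => ht (h6 ▸ mem_rts h5)
    have hx : IsUnit (algebraMap ℤ_[q] _ a - inc (A i) ℤ_[q] (θ i)) := by
      have k1 : IsUnit (aeval a (g i)) := by rwa [isUnit_iff_toZMod, map_aeval_int, h4]
      have k2 := sub_dvd_aeval (algebraMap ℤ_[q] _ a) (inc (A i) ℤ_[q] (θ i)) (g i)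
      rw [← map_aeval_int, ← map_aeval_int, (h.st i).root, map_zero, sub_zero] at k2
      exact isUnit_of_dvd_unit k2 (k1.map _)
    by_cases hα : (q : ℤ) ∣ Algebra.norm ℤ α
    · obtain ⟨w, u, h6, -⟩ := (h.dat i S).eval_away (α := 1) hp2 hr h1 h2 h3 hx (by simp) 0
      exact ⟨w, u, h6, fun h7 => absurd hα h7, fun h7 => absurd h7 hj⟩
    · obtain ⟨w, u, h6, h7⟩ := (h.dat i S).eval_away (α := α) hp2 hr h1 h2 h3 hx
        ((isUnit_intCast_iff _).mpr hα) (∏ j ∈ S, g j).natDegree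
      refine ⟨w, u, h6, fun _ => ⟨_, h7, ?_⟩, fun h7 => absurd h7 hj⟩
      simp only [h4, h.hv_zero hq (mem_rts h5) S, Xs, Xc, chi_eq, if_neg hj, mul_one]
      split_ifs
      · rfl
      · exact map_one _

variable {E : Type} [Field E]

/-- The point `P` reduces to the root `t` of `g j` modulo `q`. -/
def AtQ (g : J → ℤ[X]) (D : ℤ) (x0 : E) {q : ℕ} [Fact q.Prime] (P : Pt E ℚ_[q]) (j : J) (t : ℕ) :
    Prop :=
  ∃ (x z η : P.O) (s : ℚ_[q]) (a b d : ℤ_[q]), Coord (∏ j, g j) D x0 P.O x z η ∧ s ≠ 0 ∧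
    s * P.φ x = algebraMap _ _ a ∧ s * P.φ z = 1 ∧ (D : ℤ_[q]) = q * d ∧ IsUnit d ∧
    b ^ 2 = D * hv (Int.castRingHom _) (∏ j, g j) a 1 ∧ PadicInt.toZMod a = t ∧ t ∈ rts (g j) q

lemma Coord.map {F : ℤ[X]} {D : ℤ} {x0 : E} {K : Type} [Field K] {P : Pt E K} {x z η : P.O}
    (hc : Coord F D x0 P.O x z η) : (P.φ x ≠ 0 ∨ P.φ z ≠ 0) ∧
      P.φ η ^ 2 = D * hv (Int.castRingHom K) F (P.φ x) (P.φ z) :=
  ⟨hc.1.imp (fun h => (h.map _).ne_zero) fun h => (h.map _).ne_zero, by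
    rw [← map_pow, hc.2.2.2, map_mul, map_intCast, map_hv, RingHom.ext_int (RingHom.comp _ _)]⟩

lemma Gd.exists_atQ (h : Gd g θ M e) {d : ℤ} (hd : Squarefree d) {x y : E}
    (hxy : ((e * d : ℤ) : E) * y ^ 2 = aeval x (∏ j, g j)) {q : ℕ} [Fact q.Prime]
    (hq : q ∈ gp M d) (P : Pt E ℚ_[q]) : ∃ j t, AtQ g (e * d) x P j t := by
  obtain ⟨-, ⟨d', rfl⟩, h1⟩ := (mem_gp hd.ne_zero).mp hq
  have h2 : IsUnit ((e * d' : ℤ) : ℤ_[q]) := by
    rw [isUnit_intCast_iff, (Nat.prime_iff_prime_int.mp Fact.out).dvd_mul, not_or]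
    exact ⟨not_dvd_of_dvd h1 h.he, fun h2 => (Nat.prime_iff_prime_int.mp
      (Fact.out : q.Prime)).not_isUnit (hd q (mul_dvd_mul_left _ h2))⟩
  have h3 : ((e * (q * d') : ℤ) : ℤ_[q]) = q * (e * d' : ℤ) := by push_cast; ring
  obtain ⟨x', z, η, hc⟩ := exists_coord h.ev hxy P.O
  obtain ⟨s, a, c, b, h4, h5, h6, h7, h8⟩ := exists_prim h.ev hc.map.1 hc.map.2
  have h9 : ¬ IsUnit (hv (Int.castRingHom ℤ_[q]) (∏ j, g j) a c) := fun h9 => by
    obtain ⟨k, rfl⟩ := PadicInt.prime_p.dvd_of_dvd_pow (h7 ▸ h3 ▸ (dvd_mul_right _ _).mul_right _)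
    rw [h3, mul_pow, sq, mul_assoc, mul_assoc] at h7
    exact PadicInt.prime_p.not_isUnit (isUnit_of_mul_isUnit_left
      (mul_left_cancel₀ PadicInt.prime_p.ne_zero h7 ▸ h2.mul h9))
  rcases h8 with rfl | ⟨rfl, h8⟩
  · rw [isUnit_iff_toZMod, not_not, hv_aeval, map_aeval_int, map_prod,
      Finset.prod_eq_zero_iff] at h9
    obtain ⟨j, -, h9⟩ := h9
    refine ⟨j, (PadicInt.toZMod a).val, x', z, η, s, a, b, _, hc, h4, h5, h6.trans (map_one _), h3,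
      h2, h7, (ZMod.natCast_zmod_val _).symm, mem_filter.mpr ⟨mem_range.mpr (ZMod.val_lt _), ?_⟩⟩
    rwa [dvd_eval_iff, Int.cast_natCast, ZMod.natCast_zmod_val]
  · exact absurd (hv_unit (R := ℤ_[q]) _ (monic_prod_of_monic _ _ fun j _ => h.mon j)
      isUnit_one h8) h9

lemma Gen.not_dvd {A : Type} [CommRing A] {θ π : A} {p t q : ℕ} (h : Gen θ M p t π)
    (hp : p.Prime) (hq : q.Prime) (hM : ¬ q ∣ M) (hne : q ≠ p) :
    ¬ (q : ℤ) ∣ Algebra.norm ℤ π := by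
  obtain ⟨⟨m, h1, h2⟩, -⟩ := h
  rw [h2, (Nat.prime_iff_prime_int.mp hq).dvd_mul, Int.natCast_dvd_natCast,
    Nat.prime_dvd_prime_iff_eq hq hp, not_or]
  exact ⟨hne, not_dvd_of_dvd hM h1⟩

lemma Xs_mul (i : J) (S : Finset J) {q : ℕ} (hq : q.Prime) (j : J) (t : ℕ)
    (z w : A i) : Xs θ i S q j t (z * w) = Xs θ i S q j t z * Xs θ i S q j t w := by
  have : Fact q.Prime := ⟨hq⟩
  simp only [Xs, Xc, chi_eq, lam]
  split_ifs <;> simp only [map_mul, Int.cast_mul, mul_one]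
  ring

theorem Gd.local_cond [Nonempty J] (h : Gd g θ M e) :
    ∃ c : ∀ i, Finset J → ℕ → ℕ → A i → ℤ, ∀ (d : ℤ) (E : Type) [Field E] [CharZero E] (x y : E),
      Squarefree d → ((e * d : ℤ) : E) * y ^ 2 = aeval x (∏ j, g j) → ∀ P : Adelic E, InBM P →
      ∃ (cls : ℕ → J) (ρ : ℕ → ℕ), (∀ q ∈ gp M d, ρ q ∈ rts (g (cls q)) q) ∧ ∀ i S, Vd g i S →
        (∀ p ∈ gp M d, cls p = i → ∀ π, Gen (θ i) M p (ρ p) π →
          c i S p (ρ p) π = 1 ∨ c i S p (ρ p) π = -1) ∧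
        ∀ p ∈ gp M d, ∀ p' ∈ gp M d, p ≠ p' → cls p = i → cls p' = i → ∀ π π',
          Gen (θ i) M p (ρ p) π → Gen (θ i) M p' (ρ p') π' → Bad M (π * π') →
          (c i S p (ρ p) π * ∏ q ∈ (gp M d).erase p, Xs θ i S q (cls q) (ρ q) π) *
            (c i S p' (ρ p') π' * ∏ q ∈ (gp M d).erase p', Xs θ i S q (cls q) (ρ q) π') = 1 := by
  have hc : ∀ (i : J) (S : Finset J) (q t : ℕ), ∃ c : A i → ℤ, ∀ [Fact q.Prime], ¬ q ∣ M →
      Vd g i S → LV g θ M q i S t c := fun i S q t => by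
    by_cases h1 : q.Prime ∧ ¬ q ∣ M ∧ Vd g i S
    · have : Fact q.Prime := ⟨h1.1⟩
      obtain ⟨c, hc⟩ := h.loc_val h1.2.1 h1.2.2 t
      exact ⟨c, fun _ _ => hc⟩
    · exact ⟨0, fun h2 h3 => absurd ⟨Fact.out, h2, h3⟩ h1⟩
  choose c hc using hc
  refine ⟨c, fun d E _ _ x y hd hxy P hP => ?_⟩
  have hd0 := hd.ne_zero
  have hM : ((M : ℕ) : ℤ) ≠ 0 := by exact_mod_cast h.M0
  have hex : ∀ q : ℕ, ∃ (j : J) (t : ℕ), ∀ hq : q.Prime, q ∈ gp M d →
      @AtQ J _ E _ g (e * d) x q ⟨hq⟩ (P.fin ⟨q, hq⟩) j t := by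
    intro q
    by_cases hq : q ∈ gp M d
    · have h1 := ((mem_gp hd0).mp hq).1
      have : Fact q.Prime := ⟨h1⟩
      obtain ⟨j, t, h4⟩ := h.exists_atQ hd hxy hq (P.fin ⟨q, h1⟩)
      exact ⟨j, t, fun _ _ => h4⟩
    · exact ⟨Classical.arbitrary J, 0, fun _ h => absurd h hq⟩
  choose cls ρ hAt using hex
  have hsg : ∀ {q : ℕ} [Fact q.Prime] {b : Br ℚ_[q]} {ε : ZMod q}, Sg q b ε →
      quadraticChar _ ε = 1 ∨ quadraticChar _ ε = -1 := fun h =>
    quadraticChar_dichotomy h.ne_zero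
  refine ⟨cls, ρ, fun q hq => ?_, fun i S hS => ⟨fun p hp h1 π hπ => ?_,
    fun p hp p' hp' hne h1 h1' π π' hπ hπ' hb => ?_⟩⟩
  · obtain ⟨_, _, _, _, _, _, _, -, -, -, -, -, -, -, -, h1⟩ := hAt q ((mem_gp hd0).mp hq).1 hq
    exact h1
  · obtain ⟨p1, -, p3⟩ := (mem_gp hd0).mp hp
    have : Fact p.Prime := ⟨p1⟩
    obtain ⟨_, _, _, _, a, b, d', -, -, -, -, k1, k2, k3, k4, k5⟩ := hAt p p1 hp
    obtain ⟨w, u, -, -, k6⟩ := hc i S p (ρ p) p3 hS _ a b d' _ π k1 k2 k3 k4 k5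
    obtain ⟨ε, k7, k8⟩ := k6 h1 π 1 (mul_one π).symm hπ (by
      rw [map_one]; exact mt isUnit_of_dvd_one (Nat.prime_iff_prime_int.mp p1).not_isUnit)
    have k9 : Xs θ i S p (cls p) (ρ p) 1 = 1 := by
      simp only [Xs, Xc, chi_eq, lam]
      split_ifs <;> simp
    rw [k9, mul_one] at k8
    exact k8 ▸ hsg k7
  obtain ⟨p1, -, p3⟩ := (mem_gp hd0).mp hp
  obtain ⟨p1', -, p3'⟩ := (mem_gp hd0).mp hp'
  have hN : Algebra.norm ℤ (π * π') ≠ 0 := by
    obtain ⟨⟨m, k1, k2⟩, -⟩ := hπ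
    obtain ⟨⟨m', k3, k4⟩, -⟩ := hπ'
    rw [map_mul, k2, k4]
    exact mul_ne_zero (mul_ne_zero (Nat.cast_ne_zero.mpr p1.ne_zero) (ne_zero_of_dvd_ne_zero hM k1))
      (mul_ne_zero (Nat.cast_ne_zero.mpr p1'.ne_zero) (ne_zero_of_dvd_ne_zero hM k3))
  have hD : e * d ≠ 0 := mul_ne_zero (ne_zero_of_dvd_ne_zero hM h.he) hd0
  obtain ⟨B, _, _, hB, hval⟩ := (h.dat i S).exists_class hD hN hxy
  set sgn : ℕ → ℤ := fun q => (if q = p then c i S p (ρ p) π else Xs θ i S q (cls q) (ρ q) π) *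
    if q = p' then c i S p' (ρ p') π' else Xs θ i S q (cls q) (ρ q) π' with hsgn
  have hs : ∀ q (hq : q.Prime), q ∈ gp M d → (sgn q = 1 ∨ sgn q = -1) ∧
      ValInv B (P.fin ⟨q, hq⟩) (@InvP q ⟨hq⟩)
        (if sgn q = -1 then ((1 / 2 : ℚ) : AddCircle (1 : ℚ)) else 0) := by
    intro q q1 hq
    have q3 := ((mem_gp hd0).mp hq).2.2
    have : Fact q.Prime := ⟨q1⟩
    obtain ⟨x', z, η, s, a, b, d', m1, m2, m3, m4, k1, k2, k3, k4, k5⟩ := hAt q q1 hq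
    obtain ⟨w, u, k6, k7, k8⟩ := hc i S q (ρ q) q3 hS _ a b d' _ (π * π') k1 k2 k3 k4 k5
    obtain ⟨ε, k9, k10⟩ : ∃ ε, Sg q (cv (∏ j ∈ S, g j).natDegree (π * π') w u) ε ∧
        quadraticChar _ ε = sgn q := by
      by_cases e1 : q = p
      · subst e1
        simp only [hsgn, if_true, if_neg hne]
        exact k8 h1 π π' rfl hπ (hπ'.not_dvd p1' q1 q3 hne)
      by_cases e2 : q = p'
      · subst e2
        simp only [hsgn, if_true, if_neg e1]
        rw [mul_comm (Xs _ _ _ _ _ _ _)]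
        exact k8 h1' π' π (mul_comm _ _) hπ' (hπ.not_dvd p1 q1 q3 e1)
      · simp only [hsgn, if_neg e1, if_neg e2, ← Xs_mul i S q1]
        refine k7 ?_
        rw [map_mul, (Nat.prime_iff_prime_int.mp q1).dvd_mul, not_or]
        exact ⟨hπ.not_dvd p1 q1 q3 e1, hπ'.not_dvd p1' q1 q3 e2⟩
    exact k10 ▸ ⟨hsg k9, hval _ _ x' z η m1 s w u m2 (by rwa [m3, m4]) _ _
      (k9.inv (h.ne_two q3))⟩
  have hgen : ∀ (K : Type) [Field K] [CharZero K] (Q : Pt E K), IsSquare (inc _ K (π * π')) →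
      ∀ (Inv : (B : Type) → [Ring B] → [Algebra K B] → AddCircle (1 : ℚ) → Prop),
        (∀ (B' : Type) [Ring B'] [Algebra K B'], BrEq K B' K → Inv B' 0) → ValInv B Q Inv 0 := by
    intro K _ _ Q k1 Inv k2
    obtain ⟨x', z, η, m1⟩ := exists_coord h.ev hxy Q.O
    obtain ⟨w, u, k3⟩ := (h.dat i S).exists_rep (IsUnit.mk0 _ (Int.cast_ne_zero.mpr hM))
      (IsUnit.mk0 _ (Int.cast_ne_zero.mpr hD))
      (m1.map.1.imp (IsUnit.mk0 _) (IsUnit.mk0 _)) m1.map.2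
    refine hval K Q x' z η m1 1 w u one_ne_zero (by rwa [one_mul, one_mul]) _ _ fun B' _ _ k4 => ?_
    rw [cv_bad (h.du i) hM hN k1 k3.1 k3.2.1] at k4
    exact k2 B' (cl_eq.mp k4)
  let inv : Nat.Primes →₀ AddCircle (1 : ℚ) := Finsupp.onFinset ((gp M d).subtype Nat.Prime)
    (fun p => if (p : ℕ) ∈ gp M d ∧ sgn p = -1 then ((1 / 2 : ℚ) : AddCircle (1 : ℚ)) else 0)
    (fun p hp => by
      by_contra hcon
      exact hp (if_neg fun h => hcon (mem_subtype.mpr h.1)))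
  have key := hP _ hB 0 inv (hgen ℝ P.inf hb.1 _ fun _ _ _ h => Or.inl ⟨h, rfl⟩) ?_
  · rw [zero_add, Finsupp.sum_onFinset _ _ _ _ (fun _ _ => rfl)] at key
    have k1 : ∑ p ∈ gp M d, (if sgn p = -1 then ((1 / 2 : ℚ) : AddCircle (1 : ℚ)) else 0) = 0 := by
      rw [← Finset.sum_subtype_of_mem _ fun p hp => ((mem_gp hd0).mp hp).1]
      refine Eq.trans (Finset.sum_congr rfl fun p hp => ?_) key
      have : (p : ℕ) ∈ gp M d := mem_subtype.mp hp
      simp only [this, true_and]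
    have k2 := prod_eq_one_of_sum _ sgn (fun q hq => (hs q ((mem_gp hd0).mp hq).1 hq).1) k1
    rw [Finset.prod_mul_distrib, ← Finset.mul_prod_erase _ _ hp,
      ← Finset.mul_prod_erase _ _ hp', if_pos rfl, if_pos rfl,
      Finset.prod_congr rfl fun q hq => if_neg (ne_of_mem_erase hq),
      Finset.prod_congr rfl fun q hq => if_neg (ne_of_mem_erase hq)] at k2
    exact k2
  · rintro ⟨q, q1⟩
    have : Fact q.Prime := ⟨q1⟩
    change ValInv B _ _ (if q ∈ gp M d ∧ sgn q = -1 then _ else _)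
    by_cases hq : q ∈ gp M d
    · simpa only [hq, true_and] using (hs q q1 hq).2
    rw [if_neg fun h => hq h.1]
    by_cases q3 : q ∣ M
    · exact hgen _ _ (hb.2 ⟨q, Nat.mem_primeFactors.mpr ⟨q1, q3, h.M0⟩⟩) _
        fun _ _ _ h => InvP.of_split h
    have q2 : IsUnit ((e * d : ℤ) : ℤ_[q]) := by
      rw [isUnit_intCast_iff, (Nat.prime_iff_prime_int.mp q1).dvd_mul, not_or]
      exact ⟨not_dvd_of_dvd q3 h.he, fun h => hq ((mem_gp hd0).mpr ⟨q1, h, q3⟩)⟩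
    have hr : IsUnit ((M : ℤ) : ℤ_[q]) :=
      (isUnit_intCast_iff _).mpr (mt Int.natCast_dvd_natCast.mp q3)
    obtain ⟨x', z, η, m1⟩ := exists_coord h.ev hxy (P.fin ⟨q, q1⟩).O
    obtain ⟨s, a, b, η', k1, k2, k3, k4, k5⟩ := exists_prim h.ev m1.map.1 m1.map.2
    obtain ⟨w, u, k6⟩ := (h.dat i S).exists_rep hr q2
      (k5.symm.imp (fun h => h.1 ▸ isUnit_one) fun h => h ▸ isUnit_one) k4
    refine hval _ _ x' z η m1 s _ _ k1 (k2 ▸ k3 ▸ k6.map _) _ _ fun B' _ _ k7 => ?_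
    rw [cv_units (h.ne_two q3) (h.du i) hr ?_ k6.1 k6.2.1] at k7
    · exact InvP.of_split (cl_eq.mp k7)
    · rw [isUnit_intCast_iff, map_mul, (Nat.prime_iff_prime_int.mp q1).dvd_mul, not_or]
      exact ⟨hπ.not_dvd p1 q1 q3 fun h => hq (h ▸ hp), hπ'.not_dvd p1' q1 q3 fun h => hq (h ▸ hp')⟩

end Pool.Agent.P.MP_ab3ecb_nt
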