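import Pool.Agent.P.MP_ab3ecb_nt.Val2

/-!
The conditions forced by a point of the Brauer-Manin set, and a reciprocity law.
-/

namespace Pool.Agent.P.MP_ab3ecb_nt

open TensorProduct Module Polynomial Finset
open scoped Classical

set_option maxHeartbeats 400000
set_option linter.unusedSectionVars false

variable {A : Type} [CommRing A] [Module.Free ℤ A] [Module.Finite ℤ A] [Nontrivial A]

/-- The quadratic character at the primes above `q` that do not contain `h`. -/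
noncomputable def Xe (q : ℕ) (h : ZMod q ⊗[ℤ] A) (z : A) : ℤ :=
  chi q (Algebra.norm (ZMod q) (ide h * inc A _ z + (1 - ide h)))

lemma Xe_mul {q : ℕ} (hq : q.Prime) (h : ZMod q ⊗[ℤ] A) (z w : A) :
    Xe q h (z * w) = Xe q h z * Xe q h w := by
  have : Fact q.Prime := ⟨hq⟩
  simp only [Xe, chi_eq, ← map_mul]
  congr 2
  rw [map_mul]
  linear_combination (-1 + inc A _ z + inc A _ w - inc A _ z * inc A _ w) * ide_idem h

lemma Xe_sq {q : ℕ} (hq : q.Prime) (h : ZMod q ⊗[ℤ] A) {z : A}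
    (hz : ¬ (q : ℤ) ∣ Algebra.norm ℤ z) : Xe q h z * Xe q h z = 1 := by
  have : Fact q.Prime := ⟨hq⟩
  have h1 := unit_idem (ide_idem h) (isUnit_inc (IsUnit.mk0 _
    (mt (ZMod.intCast_zmod_eq_zero_iff_dvd _ q).mp hz))) isUnit_one
  rw [mul_one] at h1
  rw [Xe, chi_eq, ← sq]
  exact quadraticChar_sq_one (h1.map (Algebra.norm (ZMod q))).ne_zero

/-- The extension of a homomorphism to the base change. -/
noncomputable def lft {R : Type} [CommRing R] (φ : A →+* R) : R ⊗[ℤ] A →ₐ[R] R :=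
  Algebra.TensorProduct.lift (AlgHom.id _ _) φ.toIntAlgHom fun _ _ => Commute.all _ _

lemma lft_inc {R : Type} [CommRing R] (φ : A →+* R) (z : A) : lft φ (inc A _ z) = φ z := by
  simp [lft, inc]

lemma lft_eval {R : Type} [CommRing R] (φ : A →+* R) (H : A[X]) (x : R) :
    lft φ (H.eval₂ (inc A R) (algebraMap R _ x)) = H.eval₂ φ x := by
  have := hom_eval₂ H (inc A R) (lft φ).toRingHom (algebraMap R _ x)
  rw [show (lft φ).toRingHom.comp (inc A R) = φ from RingHom.ext (lft_inc φ)] at this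
  exact this.trans (congrArg (H.eval₂ φ) ((lft φ).commutes x))

lemma tm_eval {R K : Type} [CommRing R] [CommRing K] (φ : R →+* K) (H : A[X]) (x : R) :
    tm A φ (H.eval₂ (inc A R) (algebraMap R _ x)) = H.eval₂ (inc A K) (algebraMap K _ (φ x)) := by
  rw [hom_eval₂, tm_comp, tm_alg]

lemma exists_eps {R : Type} [CommRing R] {r : ℤ} (hd : Dual A r) (hr : IsUnit (r : R)) {p : ℕ}
    (hp : ∀ x y : R, p * x = p * y → x = y) (φ : A →+* R) {α : A} {m : ℤ} (hm : IsUnit (m : R))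
    (hN : Algebra.norm ℤ α = p * m) {s : R} (hs : φ α = p * s) :
    ∃ ε, (∀ z, z * ε = lft φ z • ε) ∧ lft φ ε = 1 ∧ IsUnit (ε + (1 - ε) * inc A R α) ∧
      IsUnit s := by
  obtain ⟨ε, h1, h2⟩ := exists_idem (hd.perf hr) (lft φ)
  have h3 := norm_idem h1 h2 (inc A R α)
  rw [norm_inc, hN, lft_inc, hs, Int.cast_mul, Int.cast_natCast, mul_assoc] at h3
  have h4 := hp _ _ h3 ▸ hm
  exact ⟨ε, h1, h2, isUnit_of_norm (isUnit_of_mul_isUnit_right h4), isUnit_of_mul_isUnit_left h4⟩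

variable {F : ℤ[X]} {r D : ℤ} {G H : A[X]}

lemma Spl.exists_isE (h : Spl F r G H) : ∃ U V : A[X], ∀ (B : Type) [CommRing B] (ρ : A →+* B)
    (x : B), IsUnit (r : B) → aeval x F = 0 → ∃ e, IsE e (H.eval₂ ρ x) ∧
      IsE (1 - e) (G.eval₂ ρ x) ∧ ∀ z, (V * H).eval₂ ρ x ^ 2 * z + (U * G).eval₂ ρ x ^ 2 =
        r ^ 2 * (e * z + (1 - e)) := by
  obtain ⟨U, V, h1⟩ := h.bez
  refine ⟨U, V, fun B _ ρ x hr hx => ?_⟩
  have h2 := congrArg (eval₂ ρ x) h1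
  rw [eval₂_add, eval₂_mul, eval₂_mul, eval₂_C, map_intCast] at h2
  have h3 := h.hv_mul ρ x 1
  rw [hv_aeval, hx, hv_one, hv_one] at h3
  obtain ⟨e, h4, h5, h6⟩ := isE_of_bez h3 h2 hr
  refine ⟨e, h4, h5, fun z => ?_⟩
  rw [eval₂_mul, eval₂_mul, h6, eq_sub_of_add_eq h2, h6]
  linear_combination (r ^ 2 * (z + 1)) * h4.1

variable {p : ℕ} [Fact p.Prime]

lemma exists_hensel (sep : ∃ u v : ℤ[X], u * F + v * derivative F = C r)
    (hr : IsUnit (r : ℤ_[p])) {a : ℤ_[p]} (ha : aeval (PadicInt.toZMod a) F = 0) :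
    ∃ w, aeval (a + p * w) F = 0 := by
  obtain ⟨u, v, h⟩ := sep
  have h0 : ¬ IsUnit (aeval a F) := by rw [isUnit_iff_toZMod, map_aeval_int, ha, not_not]
  have h1 : ‖aeval a (derivative F)‖ = 1 := PadicInt.isUnit_iff.mp
    (bez_unit ((isUnit_intCast_iff r).mp hr) h h0)
  obtain ⟨ρ, h2, h3, -⟩ := hensels_lemma (F := F) (a := a) (by
    rwa [h1, one_pow, ← PadicInt.not_isUnit_iff])
  rw [h1, PadicInt.norm_lt_one_iff_dvd] at h3
  obtain ⟨w, hw⟩ := h3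
  exact ⟨w, by rwa [← hw, add_sub_cancel]⟩

lemma p_nonunit : ¬ IsUnit (p : ℤ_[p]) := PadicInt.prime_p.not_isUnit

lemma Dat2.exists_e (h : Dat2 F r G H) (sep : ∃ u v : ℤ[X], u * F + v * derivative F = C r)
    (hr : IsUnit (r : ℤ_[p])) {a η d : ℤ_[p]} (hD : (D : ℤ_[p]) = p * d) (hd : IsUnit d)
    (hη : η ^ 2 = D * hv (Int.castRingHom _) F a 1) (ha : aeval (PadicInt.toZMod a) F = 0) :
    ∃ e u : ℤ_[p] ⊗[ℤ] A, e * e = e ∧ IsUnit u ∧ IsE (tm A PadicInt.toZMod e)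
      (H.eval₂ (inc A _) (algebraMap _ _ (PadicInt.toZMod a))) ∧
      (∀ φ : A →+* ℤ_[p], PadicInt.toZMod (H.eval₂ φ a) = 0 →
        lft φ e = 0 ∧ lft φ u = G.eval₂ φ a) ∧
      Rep2 D G H (algebraMap ℤ_[p] ℚ_[p] a) 1
        (tm A (algebraMap ℤ_[p] ℚ_[p]) ((p * e + (1 - e)) * u)) := by
  obtain ⟨w, hw⟩ := exists_hensel sep hr ha
  obtain ⟨U, V, h1⟩ := h.s.exists_isE
  obtain ⟨e, e1, e2, -⟩ := h1 (ℤ_[p] ⊗[ℤ] A) (inc A _) (algebraMap ℤ_[p] _ (a + p * w))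
    (by simpa using hr.map (algebraMap ℤ_[p] (ℤ_[p] ⊗[ℤ] A)))
    (by rw [← map_aeval_int, hw, map_zero])
  have key : ∀ (P : A[X]) (e : ℤ_[p] ⊗[ℤ] A),
      IsE e (P.eval₂ (inc A _) (algebraMap ℤ_[p] _ (a + p * w))) →
      IsUnit (e * P.eval₂ (inc A _) (algebraMap ℤ_[p] _ a) + (1 - e)) := fun P e he => by
    obtain ⟨c, hc⟩ := sub_dvd_eval_sub (algebraMap ℤ_[p] (ℤ_[p] ⊗[ℤ] A) (a + p * w))
      (algebraMap ℤ_[p] _ a) (P.map (inc A _))
    rw [eval_map, eval_map, ← map_sub, add_sub_cancel_left, map_mul] at hc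
    obtain ⟨k, hk⟩ := he.2.2.exists_right_inv
    have := he.2.2.mul (isUnit_one_add (p_nonunit (p := p)) (-(e * algebraMap ℤ_[p] _ w * c * k)))
    rwa [show _ * (1 + _) = e * P.eval₂ (inc A _) (algebraMap ℤ_[p] _ a) + (1 - e) by
      linear_combination e * hc - he.2.1 - (algebraMap ℤ_[p] _ p * e * algebraMap ℤ_[p] _ w * c) *
        hk] at this
  have k1 := key H e e1
  have k2 := key G _ e2
  have h4 := h.eqn hη
  have h5 : (D : ℤ_[p] ⊗[ℤ] A) = p * algebraMap ℤ_[p] _ d := by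
    rw [← map_intCast (algebraMap ℤ_[p] (ℤ_[p] ⊗[ℤ] A)), hD, map_mul, map_natCast]
  have he := e1.1
  have k3 := unit_idem he ((hd.map (algebraMap ℤ_[p] _)).mul k1) k2
  rw [map_one, hv_one, hv_one] at h4
  set x := G.eval₂ (inc A ℤ_[p]) (algebraMap ℤ_[p] _ a) with hx
  set y := H.eval₂ (inc A ℤ_[p]) (algebraMap ℤ_[p] _ a) with hy
  rw [show e * _ + (1 - e) * _ = e * (algebraMap ℤ_[p] _ d * y) + (1 - e) * x by
    linear_combination (algebraMap ℤ_[p] _ d * (y - 1) + x - 1) * he] at k3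
  have k4 := e1.map (tm A PadicInt.toZMod)
  rw [tm_eval, map_add, map_mul, map_natCast, ZMod.natCast_self, zero_mul, add_zero] at k4
  refine ⟨e, _, e1.1, k3, k4, fun φ hφ => ?_, ?_⟩
  · have k5 := k1.map (lft φ)
    have k6 := congrArg (lft φ) e1.1
    rw [isUnit_iff_toZMod, map_add, map_mul, hy, lft_eval, map_add, map_mul, hφ, mul_zero, zero_add,
      ← isUnit_iff_toZMod, map_sub, map_one] at k5
    rw [map_mul] at k6
    have k7 : lft φ e = 0 := k5.mul_right_cancel (by linear_combination -k6)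
    refine ⟨k7, ?_⟩
    simp only [map_add, map_mul, map_sub, map_one, k7, hx, lft_eval]
    ring
  · rw [← map_one (algebraMap ℤ_[p] ℚ_[p])]
    refine rep2_of_rel _ ?_ ?_
    · rw [map_mul]
      refine IsUnit.mul ?_ (k3.map _)
      have := unit_idem (e1.map (tm A (algebraMap ℤ_[p] ℚ_[p]))).1
        ((IsUnit.mk0 _ p_ne).map (algebraMap ℚ_[p] _)) isUnit_one
      simpa only [map_add, map_mul, map_sub, map_one, map_natCast, one_mul, mul_comm] using this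
    · rw [map_one, hv_one, hv_one, ← hx, ← hy, show (p * e + (1 - e)) * _ =
        e * (D * y) + (1 - e) * x by
          rw [h5]
          linear_combination ((p - 1) * (algebraMap ℤ_[p] _ d * y - x)) * he]
      exact ⟨⟨e * algebraMap _ _ η + (1 - e) * x, by
          linear_combination e * h4 - (algebraMap _ _ η - x) ^ 2 * he⟩,
        ⟨e * (D * y) + (1 - e) * algebraMap _ _ η, by
          linear_combination (1 - e) * h4 - (D * y - algebraMap _ _ η) ^ 2 * he⟩⟩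

/-- `π` generates the kernel of the liftable reduction `lb`, up to bad primes. -/
def Lf (M p : ℕ) (lb : A →+* ZMod p) (π : A) : Prop :=
  (∃ m : ℤ, m ∣ M ∧ Algebra.norm ℤ π = p * m) ∧ lb π = 0 ∧
    ∀ [Fact p.Prime], ∃ φ : A →+* ℤ_[p], PadicInt.toZMod.comp φ = lb

variable {M : ℕ} {α β π ν : A}

lemma Lf.not_dvd {p q : ℕ} {lb : A →+* ZMod p} (h : Lf M p lb π) (hp : p.Prime) (hq : q.Prime)
    (hM : ¬ q ∣ M) (hne : q ≠ p) : ¬ (q : ℤ) ∣ Algebra.norm ℤ π := by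
  obtain ⟨⟨m, h1, h2⟩, -⟩ := h
  rw [h2, (Nat.prime_iff_prime_int.mp hq).dvd_mul, Int.natCast_dvd_natCast,
    Nat.prime_dvd_prime_iff_eq hq hp, not_or]
  exact ⟨hne, not_dvd_of_dvd hM h1⟩

lemma Lf.ne_zero {p : ℕ} {lb : A →+* ZMod p} (h : Lf M p lb π) (hp : p.Prime) (hM : M ≠ 0) :
    Algebra.norm ℤ π ≠ 0 := by
  obtain ⟨⟨m, h1, h2⟩, -⟩ := h
  rw [h2]
  exact mul_ne_zero (by exact_mod_cast hp.ne_zero) (by rintro rfl; exact hM (by simpa using h1))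

lemma unit_M (hp : ¬ p ∣ M) : IsUnit ((M : ℤ) : ℤ_[p]) :=
  (isUnit_intCast_iff _).mpr (mt Int.natCast_dvd_natCast.mp hp)

lemma Lf.sg {lb : A →+* ZMod p} (h : Lf M p lb π) (hp2 : p ≠ 2) (hd : Dual A M) (hp : ¬ p ∣ M)
    (hβ : ¬ (p : ℤ) ∣ Algebra.norm ℤ β) : ∃ φ : A →+* ℤ_[p], PadicInt.toZMod.comp φ = lb ∧
      ∀ e γ : ℤ_[p] ⊗[ℤ] A, e * e = e → IsUnit γ → lft φ e = 0 →
      Sg p (cp (tm A (algebraMap ℤ_[p] ℚ_[p]) ((p * e + (1 - e)) * γ)) (inc A _ (π * β)))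
        (PadicInt.toZMod (Algebra.norm ℤ_[p] (e * inc A _ (π * β) + (1 - e))) *
          PadicInt.toZMod (lft φ γ)) := by
  obtain ⟨⟨m, h1, h2⟩, h3, h4⟩ := h
  obtain ⟨φ, rfl⟩ := h4
  obtain ⟨s, hs⟩ : (p : ℤ_[p]) ∣ φ (π * β) := by
    rw [← Ideal.mem_span_singleton, ← PadicInt.maximalIdeal_eq_span_p, ← PadicInt.ker_toZMod,
      RingHom.mem_ker, map_mul, map_mul, ← RingHom.comp_apply, h3, zero_mul]
  obtain ⟨ε, k1, k2, k3, k4⟩ := exists_eps hd (unit_M hp) (p := p)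
    (fun x y => mul_left_cancel₀ PadicInt.prime_p.ne_zero) φ (m := m * Algebra.norm ℤ β) (by
      rw [Int.cast_mul]
      exact ((isUnit_intCast_iff _).mpr (not_dvd_of_dvd hp h1)).mul
        ((isUnit_intCast_iff _).mpr hβ)) (by rw [map_mul, h2, mul_assoc]) hs
  refine ⟨φ, rfl, fun e γ he hγ h5 => ?_⟩
  rw [← tm_inc (algebraMap ℤ_[p] ℚ_[p])]
  exact cp_ram hp2 hd (unit_M hp) he hγ k1 k2 h5 k3 k4 ((lft_inc φ _).trans hs)

lemma chi_norm {e : ℤ_[p] ⊗[ℤ] A} {h : ZMod p ⊗[ℤ] A} (he : IsE (tm A PadicInt.toZMod e) h)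
    (α : A) : quadraticChar _ (PadicInt.toZMod (Algebra.norm ℤ_[p] (e * inc A _ α + (1 - e)))) =
      Xe p h α := by
  rw [Xe, chi_eq, he.ide_eq, toZMod_norm, map_add, map_mul, map_sub, map_one, tm_inc]

variable {E : Type} [Field E] [CharZero E] {x0 : E}

/-- The point `P` reduces to the root `t` of `F` modulo `q`. -/
def At2 (F : ℤ[X]) (D : ℤ) (x0 : E) {q : ℕ} [Fact q.Prime] (P : Pt E ℚ_[q]) (t : ZMod q) : Prop :=
  ∃ (x z η : P.O) (s : ℚ_[q]) (a b d : ℤ_[q]), Coord F D x0 P.O x z η ∧ s ≠ 0 ∧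
    s * P.φ x = algebraMap _ _ a ∧ s * P.φ z = 1 ∧ (D : ℤ_[q]) = q * d ∧ IsUnit d ∧
    b ^ 2 = D * hv (Int.castRingHom _) F a 1 ∧ PadicInt.toZMod a = t ∧ aeval t F = 0

lemma exists_at2 (hm : F.Monic) (hev : Even F.natDegree) {e d : ℤ} (he : e ∣ M)
    (hd : Squarefree d) {y : E} (hxy : ((e * d : ℤ) : E) * y ^ 2 = aeval x0 F)
    (hq : p ∈ gp M d) (P : Pt E ℚ_[p]) : ∃ t, At2 F (e * d) x0 P t := by
  obtain ⟨-, ⟨d', rfl⟩, h1⟩ := (mem_gp hd.ne_zero).mp hq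
  have h2 : IsUnit ((e * d' : ℤ) : ℤ_[p]) := by
    rw [isUnit_intCast_iff, (Nat.prime_iff_prime_int.mp Fact.out).dvd_mul, not_or]
    exact ⟨not_dvd_of_dvd h1 he, fun h2 => (Nat.prime_iff_prime_int.mp
      (Fact.out : p.Prime)).not_isUnit (hd p (mul_dvd_mul_left _ h2))⟩
  have h3 : ((e * (p * d') : ℤ) : ℤ_[p]) = p * (e * d' : ℤ) := by push_cast; ring
  obtain ⟨x', z, η, hc⟩ := exists_coord hev hxy P.O
  obtain ⟨s, a, c, b, h4, h5, h6, h7, h8⟩ := exists_prim hev hc.map.1 hc.map.2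
  have h9 : ¬ IsUnit (hv (Int.castRingHom ℤ_[p]) F a c) := fun h9 => by
    obtain ⟨k, rfl⟩ := PadicInt.prime_p.dvd_of_dvd_pow (h7 ▸ h3 ▸ (dvd_mul_right _ _).mul_right _)
    rw [h3, mul_pow, sq, mul_assoc, mul_assoc] at h7
    exact PadicInt.prime_p.not_isUnit (isUnit_of_mul_isUnit_left
      (mul_left_cancel₀ PadicInt.prime_p.ne_zero h7 ▸ h2.mul h9))
  rcases h8 with rfl | ⟨rfl, h8⟩
  · rw [isUnit_iff_toZMod, not_not, hv_aeval, map_aeval_int] at h9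
    exact ⟨_, x', z, η, s, a, b, _, hc, h4, h5, h6.trans (map_one _), h3, h2, h7, rfl, h9⟩
  · exact absurd (hv_unit (R := ℤ_[p]) _ hm isUnit_one h8) h9

variable {P : Pt E ℚ_[p]} {t : ZMod p}

lemma Dat2.locV_unit (h : Dat2 F M G H) (sep : ∃ u v : ℤ[X], u * F + v * derivative F = C (M : ℤ))
    (hp2 : p ≠ 2) (hp : ¬ p ∣ M) (ht : At2 F D x0 P t) (hα : ¬ (p : ℤ) ∣ Algebra.norm ℤ α) :
    LocV F D x0 G H 1 α P (Xe p (H.eval₂ (inc A _) (algebraMap _ _ t)) α) := by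
  obtain ⟨x, z, η, s, a, b, d, h1, h2, h3, h4, h5, h6, h7, rfl, h8⟩ := ht
  obtain ⟨e, u, k1, k2, k3, -, k4⟩ := h.exists_e sep (unit_M hp) h5 h6 h7 h8
  refine ⟨x, z, η, s, _, _, h1, h2, by rwa [h3, h4], ?_, chi_norm k3 α⟩
  rw [cw, map_one, one_mul, ← tm_inc (algebraMap ℤ_[p] ℚ_[p])]
  exact cp_idem hp2 h.du (unit_M hp) k1 k2 (isUnit_inc ((isUnit_intCast_iff _).mpr hα))

lemma Dat2.locV_ram (h : Dat2 F M G H) (sep : ∃ u v : ℤ[X], u * F + v * derivative F = C (M : ℤ))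
    (hp2 : p ≠ 2) (hp : ¬ p ∣ M) (ht : At2 F D x0 P t) {lb : A →+* ZMod p} (hπ : Lf M p lb π)
    (h0 : H.eval₂ lb t = 0) (hβ : ¬ (p : ℤ) ∣ Algebra.norm ℤ β) :
    LocV F D x0 G H 1 (π * β) P
      (Xe p (H.eval₂ (inc A _) (algebraMap _ _ t)) (π * β) * chi p (G.eval₂ lb t)) := by
  obtain ⟨x, z, η, s, a, b, d, h1, h2, h3, h4, h5, h6, h7, rfl, h8⟩ := ht
  obtain ⟨e, u, k1, k2, k3, k5, k4⟩ := h.exists_e sep (unit_M hp) h5 h6 h7 h8
  obtain ⟨φ, rfl, k6⟩ := hπ.sg hp2 h.du hp hβ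
  obtain ⟨k7, k8⟩ := k5 φ ((hom_eval₂ _ _ _ _).trans h0)
  refine ⟨x, z, η, s, _, _, h1, h2, by rwa [h3, h4], by
    rw [cw, map_one, one_mul]; exact k6 e u k1 k2 k7, ?_⟩
  rw [map_mul, chi_norm k3, k8, hom_eval₂, chi_eq]

lemma LocV.sq {s : ℤ} (h : LocV F D x0 G H ν α P s) : s * s = 1 := by
  obtain ⟨_, _, _, _, _, _, -, -, -, h1, rfl⟩ := h
  rw [← pow_two, quadraticChar_sq_one h1.ne_zero]

lemma Dat2.locV_away (h : Dat2 F M G H) (hp2 : p ≠ 2) (hp : ¬ p ∣ M) {y : E}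
    (hxy : D * y ^ 2 = aeval x0 F) (hD : ¬ (p : ℤ) ∣ D) (hα : ¬ (p : ℤ) ∣ Algebra.norm ℤ α) :
    LocV F D x0 G H 1 α P 1 := by
  obtain ⟨x', z, η, m1⟩ := exists_coord h.s.ev hxy P.O
  obtain ⟨s, a, b, η', k1, k2, k3, k4, k5⟩ := exists_prim h.s.ev m1.map.1 m1.map.2
  obtain ⟨u, k6⟩ := h.exists_rep (unit_M hp) ((isUnit_intCast_iff _).mpr hD)
    (k5.symm.imp (fun h => h.1 ▸ isUnit_one) fun h => h ▸ isUnit_one) k4
  refine ⟨x', z, η, s, _, 1, m1, k1, k2 ▸ k3 ▸ k6.map _, ?_, map_one _⟩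
  rw [cw, map_one, one_mul, ← tm_inc (algebraMap ℤ_[p] ℚ_[p]), cp_units hp2 h.du (unit_M hp) k6.1
    (isUnit_inc ((isUnit_intCast_iff _).mpr hα))]
  exact Sg.one

/-- The total sign of the test at the prime `p`. -/
noncomputable def tv (G H : A[X]) (S : Finset ℕ) (t : ∀ q : ℕ, ZMod q) (p : ℕ)
    (lb : A →+* ZMod p) (π : A) : ℤ :=
  Xe p (H.eval₂ (inc A _) (algebraMap _ _ (t p))) π * chi p (G.eval₂ lb (t p)) *
    ∏ q ∈ S.erase p, Xe q (H.eval₂ (inc A _) (algebraMap _ _ (t q))) π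

theorem test_cond (hm : F.Monic) (hev : Even F.natDegree) (hM : M ≠ 0) (h2 : 2 ∣ M)
    (sep : ∃ u v : ℤ[X], u * F + v * derivative F = C (M : ℤ)) {e d : ℤ} (he : e ∣ M)
    (hd : Squarefree d) {y : E} (hxy : ((e * d : ℤ) : E) * y ^ 2 = aeval x0 F) {P : Adelic E}
    (hP : InBM P) : ∃ t : ∀ q : ℕ, ZMod q, (∀ q ∈ gp M d, aeval (t q) F = 0) ∧
      ∀ (A : Type) [CommRing A] [Module.Free ℤ A] [Module.Finite ℤ A] [Nontrivial A] (G H : A[X]),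
        Dat2 F M G H → ∀ p ∈ gp M d, ∀ (lb : A →+* ZMod p) π, Lf M p lb π →
          H.eval₂ lb (t p) = 0 → tv G H (gp M d) t p lb π * tv G H (gp M d) t p lb π = 1 ∧
          ∀ p' ∈ gp M d, ∀ (lb' : A →+* ZMod p') π', Lf M p' lb' π' → H.eval₂ lb' (t p') = 0 →
            p ≠ p' → Bad M (π * π') →
              tv G H (gp M d) t p lb π * tv G H (gp M d) t p' lb' π' = 1 := by
  have hd0 := hd.ne_zero
  have hex : ∀ q : ℕ, ∃ t : ZMod q, ∀ [hq : Fact q.Prime], q ∈ gp M d →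
      At2 F (e * d) x0 (P.fin ⟨q, hq.out⟩) t := by
    intro q
    by_cases hq : q ∈ gp M d
    · have h1 : Fact q.Prime := ⟨((mem_gp hd0).mp hq).1⟩
      obtain ⟨t, h4⟩ := exists_at2 hm hev he hd hxy hq (P.fin ⟨q, h1.out⟩)
      exact ⟨t, fun _ => h4⟩
    · exact ⟨0, fun h => absurd h hq⟩
  choose t ht using hex
  have hn2 : ∀ {q : ℕ}, ¬ q ∣ M → q ≠ 2 := fun h1 h3 => h1 (h3 ▸ h2)
  refine ⟨t, fun q hq => ?_, fun A _ _ _ _ G H h p hp lb π hπ h0 => ?_⟩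
  · have : Fact q.Prime := ⟨((mem_gp hd0).mp hq).1⟩
    obtain ⟨_, _, _, _, _, _, _, -, -, -, -, -, -, -, -, h1⟩ := ht q hq
    exact h1
  obtain ⟨p1, -, p3⟩ := (mem_gp hd0).mp hp
  refine ⟨?_, fun p' hp' lb' π' hπ' h0' hne hb => ?_⟩
  · have : Fact p.Prime := ⟨p1⟩
    have k1 := (h.locV_ram sep (hn2 p3) p3 (ht p hp) hπ h0 (β := 1) (by
      rw [map_one]; exact mt isUnit_of_dvd_one (Nat.prime_iff_prime_int.mp p1).not_isUnit)).sq
    rw [mul_one] at k1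
    rw [tv, mul_mul_mul_comm, k1, one_mul, ← Finset.prod_mul_distrib]
    refine Finset.prod_eq_one fun q hq => ?_
    obtain ⟨q1, -, q3⟩ := (mem_gp hd0).mp (mem_of_mem_erase hq)
    exact Xe_sq q1 _ (hπ.not_dvd p1 q1 q3 (ne_of_mem_erase hq))
  obtain ⟨p1', -, p3'⟩ := (mem_gp hd0).mp hp'
  have he0 : e ≠ 0 := by rintro rfl; exact hM (by simpa using he)
  have key := h.prod_eq_one hM h2 (mul_ne_zero he0 hd0) (ν := 1) (by simp)
    (by rw [map_mul]; exact mul_ne_zero (hπ.ne_zero p1 hM) (hπ'.ne_zero p1' hM)) hb hxy hP (gp M d)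
    (fun q => (Xe q (H.eval₂ (inc A _) (algebraMap _ _ (t q))) π *
      if q = p then chi p (G.eval₂ lb (t p)) else 1) *
      (Xe q (H.eval₂ (inc A _) (algebraMap _ _ (t q))) π' *
        if q = p' then chi p' (G.eval₂ lb' (t p')) else 1))
    (fun q hq => ⟨((mem_gp hd0).mp hq).1, ((mem_gp hd0).mp hq).2.2⟩) fun q q1 q3 => ?_
  · simp only [Finset.prod_mul_distrib, Finset.prod_ite_eq', hp, hp', if_true] at key
    rw [← Finset.mul_prod_erase _ _ hp, ← Finset.mul_prod_erase _ _ hp'] at key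
    rw [tv, tv, mul_right_comm _ (chi _ _), mul_right_comm _ (chi p' _), key]
  have n1 := hπ.not_dvd p1 q1.out q3
  have n2 := hπ'.not_dvd p1' q1.out q3
  have n3 : q ≠ p → q ≠ p' → ¬ (q : ℤ) ∣ Algebra.norm ℤ (π * π') := fun e1 e2 => by
    rw [map_mul, (Nat.prime_iff_prime_int.mp q1.out).dvd_mul, not_or]
    exact ⟨n1 e1, n2 e2⟩
  by_cases hq : q ∈ gp M d
  · rw [if_pos hq]
    by_cases e1 : q = p
    · subst e1
      rw [if_pos rfl, if_neg hne, mul_one, mul_right_comm, ← Xe_mul p1]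
      exact h.locV_ram sep (hn2 q3) q3 (ht q hq) hπ h0 (n2 hne)
    by_cases e2 : q = p'
    · subst e2
      rw [if_pos rfl, if_neg e1, mul_one, ← mul_assoc, ← Xe_mul p1', mul_comm π]
      exact h.locV_ram sep (hn2 q3) q3 (ht q hq) hπ' h0' (n1 e1)
    · rw [if_neg e1, if_neg e2, mul_one, mul_one, ← Xe_mul q1.out]
      exact h.locV_unit sep (hn2 q3) q3 (ht q hq) (n3 e1 e2)
  · rw [if_neg hq]
    refine h.locV_away (hn2 q3) q3 hxy ?_ (n3 (fun h => hq (h ▸ hp)) fun h => hq (h ▸ hp'))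
    rw [(Nat.prime_iff_prime_int.mp q1.out).dvd_mul, not_or]
    exact ⟨not_dvd_of_dvd q3 he, fun h => hq ((mem_gp hd0).mpr ⟨q1.out, h, q3⟩)⟩

lemma dat2_one (hm : F.Monic) (hev : Even F.natDegree) (hd : Dual A r) (hr : r ≠ 0) :
    Dat2 F r (1 : A[X]) (F.map (Int.castRingHom A)) :=
  ⟨⟨monic_one, hm.map _, hm, one_mul _, ⟨C (r : A), 0, by simp⟩, hev⟩, by simp, hd, hr⟩

lemma locV_one (hm : F.Monic) (hev : Even F.natDegree) {y : E} (hxy : D * y ^ 2 = aeval x0 F)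
    {ε : ZMod p} (h : Sg p (cp (inc A ℚ_[p] ν) (inc A _ α)) ε) :
    LocV F D x0 1 (F.map (Int.castRingHom A)) ν α P (quadraticChar _ ε) := by
  obtain ⟨x, z, η, h1⟩ := exists_coord hev hxy P.O
  refine ⟨x, z, η, 1, 1, ε, h1, one_ne_zero, ⟨isUnit_one, ?_, ?_⟩, by rwa [cw, mul_one], rfl⟩
  · rw [hv_eq, natDegree_one, Finset.Nat.antidiagonal_zero, Finset.sum_singleton, coeff_one_zero,
      map_one, pow_zero, pow_zero, one_mul, one_mul]
    exact ⟨1, rfl⟩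
  · refine ⟨algebraMap ℚ_[p] _ (P.φ η), ?_⟩
    rw [← map_mul, ← pow_two, h1.map.2, one_mul, one_mul, one_mul, map_mul, map_intCast, map_hv,
      hv_map _ _ hm, RingHom.ext_int (RingHom.comp _ _)]

variable {A' : Type} [CommRing A'] [Module.Free ℤ A'] [Module.Finite ℤ A'] [Nontrivial A']

lemma exists_nu {G' H' : A'[X]} (h : Spl F M G' H') (hd : Dual A' M) {θ : A} (hθ : aeval θ F = 0)
    (ϖ : A') : ∃ ν : A, (∀ (R : Type) [CommRing R] (ψ : A →+* R), IsUnit ((M : ℤ) : R) →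
      IsUnit ((Algebra.norm ℤ ϖ : ℤ) : R) → IsUnit (ψ ν)) ∧
    (∀ (p : ℕ) [Fact p.Prime], ¬ p ∣ M → ∀ lb : A →+* ZMod p, quadraticChar _ (lb ν) =
      Xe p (H'.eval₂ (inc A' _) (algebraMap _ _ (lb θ))) ϖ) ∧
    ∀ (R : Type) [CommRing R] (ψ : A →+* R) (φ : A' →+* R) (q : ℕ) (m : ℤ) (s : R),
      IsUnit ((M : ℤ) : R) → IsUnit (m : R) → (∀ x y : R, q * x = q * y → x = y) →
      Algebra.norm ℤ ϖ = q * m → φ ϖ = q * s → ∃ e γ : R, IsE e (H'.eval₂ φ (ψ θ)) ∧ IsUnit γ ∧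
        ψ ν = (q * e + (1 - e)) * γ := by
  obtain ⟨U, V, h1⟩ := h.exists_isE
  set ν := Algebra.norm A ((V * H').eval₂ (inc A' A) (algebraMap A _ θ) ^ 2 * inc A' A ϖ +
    (U * G').eval₂ (inc A' A) (algebraMap A _ θ) ^ 2) with hν
  have key : ∀ (R : Type) [CommRing R] (ψ : A →+* R), IsUnit ((M : ℤ) : R) →
      ∃ e, IsE e (H'.eval₂ (inc A' R) (algebraMap R _ (ψ θ))) ∧ ∃ c, IsUnit c ∧
        ψ ν = c ^ 2 * Algebra.norm R (e * inc A' R ϖ + (1 - e)) := by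
    intro R _ ψ hr
    have h2 : IsUnit ((M : ℤ) : R ⊗[ℤ] A') := by simpa using hr.map (algebraMap R (R ⊗[ℤ] A'))
    obtain ⟨e, h3, -, h4⟩ := h1 (R ⊗[ℤ] A') (inc A' R) (algebraMap R _ (ψ θ)) h2
      (by rw [← map_aeval_int, ← map_aeval_int, hθ, map_zero, map_zero])
    refine ⟨e, h3, _, h2.map (Algebra.norm R), ?_⟩
    rw [hν, ← norm_tm, map_add, map_mul, map_pow, map_pow, tm_eval, tm_eval, tm_inc, h4, map_mul,
      map_pow]
  refine ⟨ν, fun R _ ψ hr hϖ => ?_, fun p _ hp lb => ?_,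
    fun R _ ψ φ q m s k1 k2 k3 k4 k5 => ?_⟩
  · obtain ⟨e, h2, c, h3, h4⟩ := key R ψ hr
    have h5 := unit_idem h2.1 (isUnit_inc hϖ) isUnit_one
    rw [mul_one] at h5
    exact h4 ▸ (h3.pow 2).mul (h5.map _)
  · obtain ⟨e, h2, c, h3, h4⟩ := key _ lb (by simpa using (unit_M hp).map PadicInt.toZMod)
    rw [h4, map_mul, quadraticChar_sq_one' h3.ne_zero, one_mul, Xe, chi_eq, h2.ide_eq]
  · obtain ⟨e, h2, c, h3, h4⟩ := key R ψ k1
    obtain ⟨ε, e1, e2, e3, e4⟩ := exists_eps hd k1 k3 φ k2 k4 k5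
    have h5 := h2.map (lft φ).toRingHom
    have h6 := unit_idem h2.1 e3 isUnit_one
    change IsE (lft φ e) (lft φ _) at h5
    have h7 := unit_idem h5.1 e4 isUnit_one
    rw [lft_eval] at h5
    rw [show e * (ε + (1 - ε) * inc A' _ ϖ) + (1 - e) * 1 =
      ε + (1 - ε) * (e * inc A' _ ϖ + (1 - e)) by ring] at h6
    refine ⟨_, _, h5, (h7.mul (h6.map (Algebra.norm R))).mul (h3.pow 2), ?_⟩
    rw [h4, norm_idem e1 e2, map_add, map_mul, map_sub, map_one, lft_inc, k5]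
    generalize Algebra.norm R (ε + _) = N
    linear_combination (-(q - 1) * (s - 1) * N * c ^ 2) * h5.1

/-- The product of a symbol and of its reciprocal. -/
noncomputable def rv (H' : A'[X]) (θ : A) {q : ℕ} (lb' : A' →+* ZMod q) (ϖ : A') {p : ℕ}
    (lb : A →+* ZMod p) (π : A) : ℤ :=
  Xe p (H'.eval₂ (inc A' _) (algebraMap _ _ (lb θ))) ϖ *
    Xe q (H'.eval₂ ((algebraMap (ZMod q) (ZMod q ⊗[ℤ] A)).comp lb') (inc A _ θ)) π

theorem recip (hm : F.Monic) (hev : Even F.natDegree) (hM : M ≠ 0) (h2 : 2 ∣ M) (hD : D ≠ 0)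
    {y : E} (hxy : D * y ^ 2 = aeval x0 F) {P : Adelic E} (hP : InBM P) (hd : Dual A M)
    (hd' : Dual A' M) {G' H' : A'[X]} (h : Spl F M G' H') {θ : A} (hθ : aeval θ F = 0)
    {q p p' : ℕ} (q1 : q.Prime) (p1 : p.Prime) (p1' : p'.Prime) (q3 : ¬ q ∣ M) (p3 : ¬ p ∣ M)
    (p3' : ¬ p' ∣ M) (n1 : p ≠ q) (n2 : p' ≠ q) (n3 : p ≠ p') {l : A' →+* ZMod q} {ϖ : A'}
    (hϖ : Lf M q l ϖ) {lb : A →+* ZMod p} {lb' : A →+* ZMod p'} {π' : A} (hπ : Lf M p lb π)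
    (hπ' : Lf M p' lb' π') (hb : Bad M (π * π')) :
    rv H' θ l ϖ lb π * rv H' θ l ϖ lb' π' = 1 := by
  obtain ⟨ν, h3, h4, h5⟩ := exists_nu h hd' hθ ϖ
  have hM' : ((M : ℕ) : ℤ) ≠ 0 := by exact_mod_cast hM
  have hν : Algebra.norm ℤ ν ≠ 0 := by
    have k1 : ∀ n : ℤ, n ≠ 0 → IsUnit (n : ℚ ⊗[ℤ] A) := fun n hn => by
      simpa using (IsUnit.mk0 (n : ℚ) (Int.cast_ne_zero.mpr hn)).map (algebraMap ℚ (ℚ ⊗[ℤ] A))
    have := ((h3 _ (inc A ℚ) (k1 _ hM') (k1 _ (hϖ.ne_zero q1 hM))).map (Algebra.norm ℚ)).ne_zero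
    rwa [norm_inc, Int.cast_ne_zero] at this
  have key := (dat2_one hm hev hd hM').prod_eq_one hM h2 hD hν
    (by rw [map_mul]; exact mul_ne_zero (hπ.ne_zero p1 hM) (hπ'.ne_zero p1' hM)) hb hxy hP
    {q, p, p'} (fun k => if k = q then Xe q (H'.eval₂ ((algebraMap (ZMod q) _).comp l)
      (inc A _ θ)) (π * π') else if k = p then
        Xe p (H'.eval₂ (inc A' _) (algebraMap _ _ (lb θ))) ϖ
      else Xe p' (H'.eval₂ (inc A' _) (algebraMap _ _ (lb' θ))) ϖ) (by simp [*]) fun k k1 k3 => ?_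
  · rw [Finset.prod_insert (by simp [n1.symm, n2.symm]), Finset.prod_pair n3, if_pos rfl,
      if_neg n1, if_pos rfl, if_neg n2, if_neg n3.symm, Xe_mul q1] at key
    rw [rv, rv, ← key]
    ring
  have k2 : k ≠ 2 := fun h => k3 (h ▸ h2)
  have k4 : k ≠ q → IsUnit (inc A ℤ_[k] ν) := fun e => h3 _ _
    (by simpa using (unit_M k3).map (algebraMap ℤ_[k] (ℤ_[k] ⊗[ℤ] A))) (by
      simpa using ((isUnit_intCast_iff _).mpr (hϖ.not_dvd q1 k1.out k3 e)).map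
        (algebraMap ℤ_[k] (ℤ_[k] ⊗[ℤ] A)))
  have k5 : k ≠ p → k ≠ p' → IsUnit (inc A ℤ_[k] (π * π')) := fun e1 e2 => by
    refine isUnit_inc ((isUnit_intCast_iff _).mpr ?_)
    rw [map_mul, (Nat.prime_iff_prime_int.mp k1.out).dvd_mul, not_or]
    exact ⟨hπ.not_dvd p1 k1.out k3 e1, hπ'.not_dvd p1' k1.out k3 e2⟩
  have k6 : ∀ (lb : A →+* ZMod k) (π β : A), Lf M k lb π → ¬ (k : ℤ) ∣ Algebra.norm ℤ β → k ≠ q →
      LocV F D x0 1 (F.map (Int.castRingHom A)) ν (π * β) (P.fin ⟨k, k1.out⟩)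
        (Xe k (H'.eval₂ (inc A' _) (algebraMap _ _ (lb θ))) ϖ) := fun lb π β m1 m2 m3 => by
    obtain ⟨φ, rfl, m4⟩ := m1.sg k2 hd k3 m2
    have m5 := m4 0 _ (mul_zero _) (k4 m3) (map_zero _)
    rw [mul_zero, zero_mul, sub_zero, zero_add, one_mul, tm_inc, map_one, map_one, one_mul,
      lft_inc] at m5
    exact h4 k k3 _ ▸ locV_one hm hev hxy m5
  by_cases e0 : k = q
  · subst e0
    obtain ⟨⟨m, j1, j2⟩, j3, j4⟩ := hϖ
    obtain ⟨φ, rfl⟩ := j4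
    have hu : ∀ n : ℤ, n ∣ M → IsUnit (n : ℤ_[k] ⊗[ℤ] A) := fun n hn => by
      simpa using ((isUnit_intCast_iff n).mpr (not_dvd_of_dvd k3 hn)).map
        (algebraMap ℤ_[k] (ℤ_[k] ⊗[ℤ] A))
    obtain ⟨s, hs⟩ : (k : ℤ_[k]) ∣ φ ϖ := by
      rwa [← Ideal.mem_span_singleton, ← PadicInt.maximalIdeal_eq_span_p, ← PadicInt.ker_toZMod,
        RingHom.mem_ker]
    obtain ⟨e, γ, m1, m2, m3⟩ := h5 _ (inc A ℤ_[k]) ((algebraMap ℤ_[k] _).comp φ) k m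
      (algebraMap ℤ_[k] _ s) (hu _ dvd_rfl) (hu m j1) (fun x y hxy => by
        rw [← map_natCast (algebraMap ℤ_[k] _), ← Algebra.smul_def, ← Algebra.smul_def] at hxy
        exact smul_right_injective _ PadicInt.prime_p.ne_zero hxy) j2
      (by rw [RingHom.comp_apply, hs, map_mul, map_natCast])
    have m4 := m1.map (tm A PadicInt.toZMod)
    rw [hom_eval₂, tm_inc] at m4
    have m5 := cp_idem k2 hd (unit_M k3) m1.1 m2 (k5 n1.symm n2.symm)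
    rw [← m3, tm_inc, tm_inc] at m5
    rw [if_pos (mem_insert_self _ _), if_pos rfl]
    have m6 := locV_one (P := P.fin ⟨k, k1.out⟩) hm hev hxy m5
    rw [chi_norm m4] at m6
    exact m6
  by_cases e1 : k = p
  · subst e1
    rw [if_pos (by simp), if_neg e0, if_pos rfl]
    exact k6 lb π π' hπ (hπ'.not_dvd p1' p1 p3 n3) e0
  by_cases e2 : k = p'
  · subst e2
    rw [if_pos (by simp), if_neg e0, if_neg e1, mul_comm π]
    exact k6 lb' π' π hπ' (hπ.not_dvd p1 p1' p3' e1) e0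
  · have m5 := cp_units k2 hd (unit_M k3) (k4 e0) (k5 e1 e2)
    rw [tm_inc, tm_inc] at m5
    rw [if_neg (by simp [e0, e1, e2]), ← map_one (quadraticChar (ZMod k))]
    exact locV_one hm hev hxy (m5 ▸ Sg.one)

end Pool.Agent.P.MP_ab3ecb_nt
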