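import Mathlib

/-!
Elementary bounds for sums over primes and over sets of primes.
-/

namespace Pool.Agent.P.MP_ab3ecb_nt

open Finset

set_option linter.unusedSectionVars false

lemma sum_Icc_rpow_le {σ : ℝ} (hσ : 1 < σ) (N : ℕ) :
    ∑ n ∈ Icc 1 (N + 1), (n : ℝ) ^ (-σ) ≤ 1 + (1 - ((N + 1 : ℕ) : ℝ) ^ (1 - σ)) / (σ - 1) := by
  induction N with
  | zero => simp
  | succ N ih =>
    rw [Finset.sum_Icc_succ_top (by omega)]
    have ht : 0 < σ - 1 := by linarith
    set a : ℝ := ((N + 1 : ℕ) : ℝ) with ha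
    set b : ℝ := ((N + 1 + 1 : ℕ) : ℝ) with hb
    have ha0 : 0 < a := by positivity
    have hab : b = a + 1 := by rw [ha, hb]; push_cast; ring
    have hb0 : 0 < b := by positivity
    have key : (σ - 1) * b ^ (-σ) ≤ a ^ (1 - σ) - b ^ (1 - σ) := by
      have h1 : Real.log (a / b) ≤ a / b - 1 := Real.log_le_sub_one_of_pos (by positivity)
      have h2 : a / b - 1 = - (1 / b) := by rw [hab]; field_simp; ring
      have h3 : a ^ (1 - σ) = b ^ (1 - σ) * Real.exp (Real.log (a / b) * (1 - σ)) := by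
        rw [← Real.rpow_def_of_pos (by positivity), ← Real.mul_rpow hb0.le (by positivity)]
        congr 1
        field_simp
      have h4 : 1 + (σ - 1) * (1 / b) ≤ Real.exp (Real.log (a / b) * (1 - σ)) := by
        have := Real.add_one_le_exp (Real.log (a / b) * (1 - σ))
        nlinarith
      have h5 : b ^ (-σ) = b ^ (1 - σ) * (1 / b) := by
        rw [show -σ = (1 - σ) + (-1) by ring, Real.rpow_add hb0, Real.rpow_neg_one, one_div]
      have h6 : 0 < b ^ (1 - σ) := by positivity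
      rw [h3, h5]
      nlinarith
    have : b ^ (-σ) ≤ (a ^ (1 - σ) - b ^ (1 - σ)) / (σ - 1) := by
      rw [le_div_iff₀ ht]; linarith
    have e : (1 - b ^ (1 - σ)) / (σ - 1)
        = (1 - a ^ (1 - σ)) / (σ - 1) + (a ^ (1 - σ) - b ^ (1 - σ)) / (σ - 1) := by ring
    rw [e]
    linarith

lemma sum_rpow_le {σ : ℝ} (hσ : 1 < σ) (S : Finset ℕ) (hS : ∀ n ∈ S, n ≠ 0) :
    ∑ n ∈ S, (n : ℝ) ^ (-σ) ≤ 1 + 1 / (σ - 1) := by
  have hsub : S ⊆ Icc 1 (S.sup id + 1) := fun n hn =>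
    mem_Icc.mpr ⟨Nat.pos_of_ne_zero (hS n hn), (Finset.le_sup (f := id) hn).trans (Nat.le_succ _)⟩
  refine (Finset.sum_le_sum_of_subset_of_nonneg hsub fun _ _ _ => by positivity).trans ?_
  refine (sum_Icc_rpow_le hσ _).trans ?_
  have ht : 0 < σ - 1 := by linarith
  gcongr
  have : 0 ≤ ((S.sup id + 1 : ℕ) : ℝ) ^ (1 - σ) := by positivity
  linarith

lemma sum_le_log_prod {ι : Type*} (s : Finset ι) (t : ι → ℝ) (ht : ∀ i ∈ s, 0 ≤ t i) :
    ∑ i ∈ s, t i ≤ Real.log (∏ i ∈ s, (1 + t i)) + ∑ i ∈ s, t i ^ 2 := by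
  rw [Real.log_prod (fun i hi => by have := ht i hi; positivity), ← Finset.sum_add_distrib]
  refine Finset.sum_le_sum fun i hi => ?_
  have h0 := ht i hi
  have h1 := Real.one_sub_inv_le_log_of_pos (x := 1 + t i) (by positivity)
  have h2 : (1 + t i)⁻¹ ≤ 1 - t i + t i ^ 2 := by
    rw [inv_le_iff_one_le_mul₀ (by positivity)]
    nlinarith [pow_nonneg h0 3]
  linarith

lemma prod_one_add_le_exp {ι : Type*} (s : Finset ι) (t : ι → ℝ) (ht : ∀ i ∈ s, 0 ≤ t i) :
    ∏ i ∈ s, (1 + t i) ≤ Real.exp (∑ i ∈ s, t i) := by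
  rw [Real.exp_sum]
  refine Finset.prod_le_prod (fun i hi => by have := ht i hi; positivity) fun i _ => ?_
  rw [add_comm]
  exact Real.add_one_le_exp _

section
variable {ι : Type*} [DecidableEq ι] (pr : ι → ℕ) (hp : ∀ a, (pr a).Prime)
  (hinj : Function.Injective pr)
include hp hinj

lemma dvd_prod_iff (s : Finset ι) (a : ι) : pr a ∣ ∏ b ∈ s, pr b ↔ a ∈ s := by
  refine ⟨fun h => ?_, fun h => Finset.dvd_prod_of_mem _ h⟩
  obtain ⟨b, hb, h⟩ := (Prime.dvd_finsetProd_iff (hp a).prime _).mp h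
  rwa [hinj ((Nat.prime_dvd_prime_iff_eq (hp a) (hp b)).mp h)]

lemma prod_inj : Function.Injective fun s : Finset ι => ∏ b ∈ s, pr b := by
  intro s t h
  ext a
  rw [← dvd_prod_iff pr hp hinj s, ← dvd_prod_iff pr hp hinj t]
  simp only at h
  rw [h]

lemma squarefree_prod_pr (s : Finset ι) : Squarefree (∏ b ∈ s, pr b) := by
  refine Finset.squarefree_prod_of_pairwise_isCoprime ?_ fun b _ => (hp b).prime.squarefree
  intro a _ b _ hab
  simp only [Function.onFun]
  rw [← Nat.coprime_iff_isRelPrime]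
  exact (Nat.coprime_primes (hp a) (hp b)).mpr fun h => hab (hinj h)

lemma sum_prime_rpow_le (s : Finset ι) {σ : ℝ} (hσ : 1 < σ) (hσ2 : σ ≤ 2) :
    ∑ a ∈ s, (pr a : ℝ) ^ (-σ) ≤ Real.log (1 / (σ - 1)) + 3 := by
  have ht : 0 < σ - 1 := by linarith
  refine (sum_le_log_prod s _ fun _ _ => by positivity).trans ?_
  have h1 : ∏ a ∈ s, (1 + (pr a : ℝ) ^ (-σ)) ≤ 2 * (1 / (σ - 1)) := by
    rw [Finset.prod_one_add]
    have e : ∀ t : Finset ι, ∏ a ∈ t, (pr a : ℝ) ^ (-σ) = ((∏ a ∈ t, pr a : ℕ) : ℝ) ^ (-σ) := by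
      intro t
      rw [Nat.cast_prod, Real.finsetProd_rpow _ _ fun _ _ => by positivity]
    simp_rw [e]
    rw [← Finset.sum_image (s := s.powerset) (g := fun t : Finset ι => ∏ a ∈ t, pr a)
      (f := fun n : ℕ => (n : ℝ) ^ (-σ)) ((prod_inj pr hp hinj).injOn)]
    refine (sum_rpow_le hσ _ ?_).trans ?_
    · intro n hn
      obtain ⟨t, -, rfl⟩ := mem_image.mp hn
      exact (squarefree_prod_pr pr hp hinj t).ne_zero
    · have : 1 ≤ 1 / (σ - 1) := by rw [le_div_iff₀ ht]; linarith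
      linarith
  have h2 : ∑ a ∈ s, ((pr a : ℝ) ^ (-σ)) ^ 2 ≤ 2 := by
    calc _ ≤ ∑ a ∈ s, (pr a : ℝ) ^ (-(2 : ℝ)) := by
          refine Finset.sum_le_sum fun a _ => ?_
          rw [← Real.rpow_natCast, ← Real.rpow_mul (by positivity)]
          apply Real.rpow_le_rpow_of_exponent_le
          · exact_mod_cast (hp a).one_le
          · push_cast; linarith
      _ = ∑ n ∈ s.image pr, (n : ℝ) ^ (-(2 : ℝ)) := by rw [Finset.sum_image hinj.injOn]
      _ ≤ 1 + 1 / (2 - 1) := sum_rpow_le (by norm_num) _ fun n hn => by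
          obtain ⟨t, -, rfl⟩ := mem_image.mp hn
          exact (hp t).ne_zero
      _ = 2 := by norm_num
  have h3 : Real.log (∏ a ∈ s, (1 + (pr a : ℝ) ^ (-σ))) ≤ Real.log (2 * (1 / (σ - 1))) :=
    Real.log_le_log (Finset.prod_pos fun _ _ => by positivity) h1
  rw [Real.log_mul (by norm_num) (by positivity)] at h3
  have := Real.log_two_lt_d9
  linarith

omit hp hinj [DecidableEq ι] in
lemma inv_le_exp_mul_rpow {n y : ℝ} (hn : 1 ≤ n) (hny : n ≤ y) (hy : 1 < y) :
    1 / n ≤ Real.exp 1 * n ^ (-(1 + 1 / Real.log y)) := by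
  have hl : 0 < Real.log y := Real.log_pos hy
  have h0 : 0 < n := by linarith
  have h1 : n ^ (1 / Real.log y) ≤ Real.exp 1 := by
    rw [Real.rpow_def_of_pos h0]
    apply Real.exp_le_exp.mpr
    rw [mul_one_div, div_le_one hl]
    exact Real.log_le_log h0 hny
  have h2 : 1 / n = n ^ (1 / Real.log y) * n ^ (-(1 + 1 / Real.log y)) := by
    rw [← Real.rpow_add h0, show 1 / Real.log y + -(1 + 1 / Real.log y) = -1 by ring,
      Real.rpow_neg_one, one_div]
  rw [h2]
  gcongr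

lemma sum_prime_inv_le (s : Finset ι) {y : ℝ} (hy : 1 ≤ Real.log y) (hy0 : 1 < y)
    (hs : ∀ a ∈ s, (pr a : ℝ) ≤ y) :
    ∑ a ∈ s, 1 / (pr a : ℝ) ≤ 3 * (Real.log (Real.log y) + 3) := by
  have hl : 0 < Real.log y := by linarith
  have h1 := sum_prime_rpow_le pr hp hinj s (σ := 1 + 1 / Real.log y)
    (by have : 0 < 1 / Real.log y := by positivity
        linarith)
    (by have : 1 / Real.log y ≤ 1 := by rw [div_le_one hl]; exact hy
        linarith)
  rw [add_sub_cancel_left, one_div_one_div] at h1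
  calc _ ≤ ∑ a ∈ s, Real.exp 1 * (pr a : ℝ) ^ (-(1 + 1 / Real.log y)) :=
        Finset.sum_le_sum fun a ha =>
          inv_le_exp_mul_rpow (by exact_mod_cast (hp a).one_le) (hs a ha) hy0
    _ = Real.exp 1 * ∑ a ∈ s, (pr a : ℝ) ^ (-(1 + 1 / Real.log y)) := by rw [Finset.mul_sum]
    _ ≤ 3 * (Real.log (Real.log y) + 3) := by
        have := Real.exp_one_lt_d9
        have h0 : 0 ≤ ∑ a ∈ s, (pr a : ℝ) ^ (-(1 + 1 / Real.log y)) :=
          Finset.sum_nonneg fun _ _ => by positivity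
        exact mul_le_mul (by linarith) h1 h0 (by norm_num)

lemma sum_log_le (s : Finset ι) {t : ℝ} (ht : 0 ≤ t) (hs : ∀ a ∈ s, (pr a : ℝ) ≤ t) :
    ∑ a ∈ s, Real.log (pr a) ≤ 2 * t := by
  have h1 := Chebyshev.theta_le_log4_mul_x ht
  rw [Chebyshev.theta_eq_sum_primesLE] at h1
  calc _ = ∑ n ∈ s.image pr, Real.log n := by rw [Finset.sum_image hinj.injOn]
    _ ≤ ∑ p ∈ Nat.primesLE ⌊t⌋₊, Real.log p := by
        refine Finset.sum_le_sum_of_subset_of_nonneg ?_ fun _ _ _ => Real.log_natCast_nonneg _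
        intro n hn
        obtain ⟨a, ha, rfl⟩ := mem_image.mp hn
        exact Nat.mem_primesLE.mpr ⟨Nat.le_floor (hs a ha), hp a⟩
    _ ≤ Real.log 4 * t := h1
    _ ≤ 2 * t := by
        gcongr
        have := Real.log_two_lt_d9
        rw [show (4 : ℝ) = 2 ^ 2 by norm_num, Real.log_pow]
        push_cast
        linarith

/-- A Hall-Tenenbaum type bound for sums over sets of primes. -/
lemma hall_tenenbaum [Fintype ι] (g : ι → ℝ) (G : ℝ) (hg0 : ∀ a, 0 ≤ g a) (hgG : ∀ a, g a ≤ G)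
    (hG : 0 ≤ G) (x : ℕ) (hx : 1 < x) :
    (∑ s : Finset ι with ∏ a ∈ s, pr a ≤ x, ∏ a ∈ s, g a) * Real.log x
      ≤ 3 * (1 + 2 * G) * x * Real.exp (∑ a, g a * (pr a : ℝ) ^ (-(1 + 1 / Real.log x))) := by
  set U : Finset (Finset ι) := univ.filter fun s => ∏ a ∈ s, pr a ≤ x with hU
  have hx1 : (1 : ℝ) < x := by exact_mod_cast hx
  have hD : ∀ s : Finset ι, (1 : ℝ) ≤ ((∏ a ∈ s, pr a : ℕ) : ℝ) := fun s => by
    exact_mod_cast Nat.pos_of_ne_zero (squarefree_prod_pr pr hp hinj s).ne_zero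
  have hgs : ∀ s : Finset ι, 0 ≤ ∏ a ∈ s, g a := fun s => Finset.prod_nonneg fun a _ => hg0 a
  have h1 : ∑ s ∈ U, (∏ a ∈ s, g a) * (1 / ((∏ a ∈ s, pr a : ℕ) : ℝ))
      ≤ 3 * Real.exp (∑ a, g a * (pr a : ℝ) ^ (-(1 + 1 / Real.log x))) := by
    calc _ ≤ ∑ s ∈ U, Real.exp 1 * ∏ a ∈ s, (g a * (pr a : ℝ) ^ (-(1 + 1 / Real.log x))) := by
          refine Finset.sum_le_sum fun s hs => ?_
          have := inv_le_exp_mul_rpow (hD s) (y := x)
            (by exact_mod_cast (mem_filter.mp hs).2) hx1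
          rw [Finset.prod_mul_distrib, Real.finsetProd_rpow _ _ fun _ _ => by positivity,
            ← Nat.cast_prod]
          calc _ ≤ (∏ a ∈ s, g a) * (Real.exp 1 *
                ((∏ a ∈ s, pr a : ℕ) : ℝ) ^ (-(1 + 1 / Real.log x))) :=
                mul_le_mul_of_nonneg_left this (hgs s)
            _ = _ := by ring
      _ ≤ ∑ s ∈ (univ : Finset ι).powerset,
            Real.exp 1 * ∏ a ∈ s, (g a * (pr a : ℝ) ^ (-(1 + 1 / Real.log x))) := by
          refine Finset.sum_le_sum_of_subset_of_nonneg (fun s _ => by simp) fun s _ _ => ?_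
          exact mul_nonneg (Real.exp_pos _).le
            (Finset.prod_nonneg fun a _ => mul_nonneg (hg0 a) (by positivity))
      _ = Real.exp 1 * ∏ a, (1 + g a * (pr a : ℝ) ^ (-(1 + 1 / Real.log x))) := by
          rw [← Finset.mul_sum, Finset.prod_one_add]
      _ ≤ _ := by
          have := Real.exp_one_lt_d9
          refine mul_le_mul (by linarith) (prod_one_add_le_exp _ _ fun a _ =>
            mul_nonneg (hg0 a) (by positivity)) ?_ (by norm_num)
          exact Finset.prod_nonneg fun a _ => by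
            have := mul_nonneg (hg0 a) (by positivity : (0 : ℝ) ≤ (pr a : ℝ) ^ (-(1 + 1 / Real.log x)))
            linarith
  have h2 : ∑ s ∈ U, ∑ a ∈ s, (∏ a ∈ s, g a) * Real.log (pr a)
      ≤ ∑ s ∈ U, (∏ a ∈ s, g a) * (1 / ((∏ a ∈ s, pr a : ℕ) : ℝ)) * (2 * G * x) := by
    calc _ = ∑ z ∈ U.sigma (fun s => s), (∏ a ∈ z.1, g a) * Real.log (pr z.2) := by
          rw [Finset.sum_sigma]
      _ ≤ ∑ z ∈ U.sigma (fun s => s), (∏ a ∈ z.1.erase z.2, g a) * (G * Real.log (pr z.2)) := by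
          refine Finset.sum_le_sum fun z hz => ?_
          rw [← Finset.mul_prod_erase _ _ (mem_sigma.mp hz).2]
          have := Real.log_natCast_nonneg (pr z.2)
          have := hgs (z.1.erase z.2)
          have := hgG z.2
          calc _ = (∏ a ∈ z.1.erase z.2, g a) * (g z.2 * Real.log (pr z.2)) := by ring
            _ ≤ _ := by gcongr
      _ = ∑ z ∈ (U.sigma (fun s => s)).image
            (fun z => (⟨z.1.erase z.2, z.2⟩ : Σ _ : Finset ι, ι)),
            (∏ a ∈ z.1, g a) * (G * Real.log (pr z.2)) := by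
          rw [Finset.sum_image]
          rintro ⟨s, a⟩ hz ⟨s', a'⟩ hz' h
          simp only [Sigma.mk.injEq, heq_eq_eq] at h
          obtain ⟨h1, rfl⟩ := h
          have m1 : a ∈ s := (mem_sigma.mp (mem_coe.mp hz)).2
          have m2 : a ∈ s' := (mem_sigma.mp (mem_coe.mp hz')).2
          rw [← Finset.insert_erase m1, ← Finset.insert_erase m2, h1]
      _ ≤ ∑ z ∈ U.sigma (fun s => univ.filter fun a =>
            (pr a : ℝ) ≤ x / ((∏ a ∈ s, pr a : ℕ) : ℝ)),
            (∏ a ∈ z.1, g a) * (G * Real.log (pr z.2)) := by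
          refine Finset.sum_le_sum_of_subset_of_nonneg ?_ fun z _ _ =>
            mul_nonneg (hgs _) (mul_nonneg hG (Real.log_natCast_nonneg _))
          intro z hz
          obtain ⟨⟨s, a⟩, hz', rfl⟩ := mem_image.mp hz
          obtain ⟨m1, m2⟩ := mem_sigma.mp hz'
          have m3 : pr a * ∏ b ∈ s.erase a, pr b ≤ x := by
            rw [Finset.mul_prod_erase _ _ m2]
            exact (mem_filter.mp m1).2
          simp only [mem_sigma, hU, mem_filter, mem_univ, true_and]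
          constructor
          · exact le_trans (Nat.le_mul_of_pos_left _ (hp a).pos) m3
          · rw [le_div_iff₀ (by linarith [hD (s.erase a)])]
            exact_mod_cast m3
      _ ≤ _ := by
          rw [Finset.sum_sigma]
          refine Finset.sum_le_sum fun s _ => ?_
          simp only
          rw [← Finset.mul_sum, ← Finset.mul_sum]
          have := sum_log_le pr hp hinj (univ.filter fun a =>
            (pr a : ℝ) ≤ x / ((∏ a ∈ s, pr a : ℕ) : ℝ)) (t := x / ((∏ a ∈ s, pr a : ℕ) : ℝ))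
            (by positivity) fun a ha => (mem_filter.mp ha).2
          calc _ ≤ (∏ a ∈ s, g a) * (G * (2 * (x / ((∏ a ∈ s, pr a : ℕ) : ℝ)))) :=
                mul_le_mul_of_nonneg_left (mul_le_mul_of_nonneg_left this hG) (hgs s)
            _ = _ := by ring
  calc _ = ∑ s ∈ U, (∏ a ∈ s, g a) * Real.log x := by rw [Finset.sum_mul]
    _ ≤ ∑ s ∈ U, ((∏ a ∈ s, g a) * (1 / ((∏ a ∈ s, pr a : ℕ) : ℝ)) * x
          + ∑ a ∈ s, (∏ a ∈ s, g a) * Real.log (pr a)) := by
        refine Finset.sum_le_sum fun s _ => ?_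
        rw [← Finset.mul_sum, mul_assoc, ← mul_add]
        refine mul_le_mul_of_nonneg_left ?_ (hgs s)
        rw [← Real.log_prod (fun a _ => by exact_mod_cast (hp a).ne_zero), ← Nat.cast_prod]
        have h0 : (0 : ℝ) < ((∏ a ∈ s, pr a : ℕ) : ℝ) := by linarith [hD s]
        have := Real.log_le_sub_one_of_pos (x := x / ((∏ a ∈ s, pr a : ℕ) : ℝ)) (by positivity)
        rw [Real.log_div (by positivity) h0.ne'] at this
        have e : 1 / ((∏ a ∈ s, pr a : ℕ) : ℝ) * x = x / ((∏ a ∈ s, pr a : ℕ) : ℝ) := by ring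
        rw [e]
        linarith
    _ ≤ ∑ s ∈ U, (∏ a ∈ s, g a) * (1 / ((∏ a ∈ s, pr a : ℕ) : ℝ)) * x
          + ∑ s ∈ U, (∏ a ∈ s, g a) * (1 / ((∏ a ∈ s, pr a : ℕ) : ℝ)) * (2 * G * x) := by
        rw [Finset.sum_add_distrib]
        linarith
    _ = (∑ s ∈ U, (∏ a ∈ s, g a) * (1 / ((∏ a ∈ s, pr a : ℕ) : ℝ))) * ((1 + 2 * G) * x) := by
        rw [← Finset.sum_mul, ← Finset.sum_mul]; ring
    _ ≤ 3 * Real.exp (∑ a, g a * (pr a : ℝ) ^ (-(1 + 1 / Real.log x))) * ((1 + 2 * G) * x) := by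
        gcongr
    _ = _ := by ring

end

end Pool.Agent.P.MP_ab3ecb_nt
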