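import Pool.Agent.P.MP_ab3ecb_nt.Bilinear
import Pool.Agent.P.MP_ab3ecb_nt.Sums

/-!
Combinatorial bookkeeping for labelled sets of primes.
-/

namespace Pool.Agent.P.MP_ab3ecb_nt

open Finset Function
open scoped NumberTheorySymbols

set_option linter.unusedSectionVars false

section general
variable {ι W W₀ : Type} [Fintype ι] [DecidableEq ι] [Fintype W] [DecidableEq W]

lemma fiber_sum [Fintype W₀] [DecidableEq W₀] (π : W → W₀) (F : (ι → W₀) → ℝ)
    (g : ι → W → (ι → W₀) → ℝ) :
    ∑ c : ι → W, F (π ∘ c) * ∏ a, g a (c a) (π ∘ c)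
      = ∑ c₀ : ι → W₀, F c₀ * ∏ a, ∑ w with π w = c₀ a, g a w c₀ := by
  rw [← Finset.sum_fiberwise (s := univ) (g := fun c : ι → W => π ∘ c)]
  refine Finset.sum_congr rfl fun c₀ _ => ?_
  rw [Finset.prod_univ_sum (fun a => univ.filter fun w => π w = c₀ a) (fun a w => g a w c₀),
    Finset.mul_sum]
  refine Finset.sum_congr ?_ fun c hc => ?_
  · ext c
    simp [funext_iff]
  · have : π ∘ c = c₀ := by
      funext a
      simpa using Fintype.mem_piFinset.mp hc a
    rw [this]

/-- The set of indices carrying a given label. -/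
def tup (c : ι → Option W) (w : W) : Finset ι := univ.filter fun a => c a = some w

lemma mem_tup {c : ι → Option W} {w : W} {a : ι} : a ∈ tup c w ↔ c a = some w := by
  simp [tup]

lemma prod_tup {M : Type*} [CommMonoid M] (c : ι → Option W) (h : ι → W → M) :
    ∏ w, ∏ a ∈ tup c w, h a w = ∏ a, (c a).elim 1 (h a) := by
  simp_rw [tup, Finset.prod_filter]
  rw [Finset.prod_comm]
  refine Finset.prod_congr rfl fun a _ => ?_
  cases c a with
  | none => simp
  | some w => simp

/-- Pairwise disjoint tuples of sets. -/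
def Disj (n : W → Finset ι) : Prop := ∀ w w', w ≠ w' → Disjoint (n w) (n w')

instance (n : W → Finset ι) : Decidable (Disj n) := by unfold Disj; infer_instance

lemma sum_tup (Ψ : (W → Finset ι) → ℝ) :
    ∑ c : ι → Option W, Ψ (tup c) = ∑ n with Disj n, Ψ n := by
  classical
  refine Finset.sum_bij (fun c _ => tup c) ?_ ?_ ?_ fun _ _ => rfl
  · intro c _
    simp only [mem_filter, mem_univ, true_and]
    intro w w' hw
    rw [Finset.disjoint_left]
    intro a h1 h2
    rw [mem_tup] at h1 h2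
    exact hw (Option.some.inj (h1.symm.trans h2))
  · intro c _ c' _ h
    funext a
    have key : ∀ w, c a = some w ↔ c' a = some w := fun w => by
      rw [← mem_tup, ← mem_tup, h]
    cases h1 : c a with
    | none =>
      cases h2 : c' a with
      | none => rfl
      | some w => rw [(key w).mpr h2] at h1; exact absurd h1 (by simp)
    | some w => exact ((key w).mp h1).symm
  · intro n hn
    have hd := (mem_filter.mp hn).2
    refine ⟨fun a => if h : ∃ w, a ∈ n w then some h.choose else none, mem_univ _, ?_⟩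
    funext w
    ext a
    rw [mem_tup]
    constructor
    · intro h
      split_ifs at h with h1
      have := h1.choose_spec
      rwa [Option.some.inj h] at this
    · intro h
      have h1 : ∃ w, a ∈ n w := ⟨w, h⟩
      rw [dif_pos h1]
      congr 1
      by_contra hne
      exact Finset.disjoint_left.mp (hd _ _ hne) h1.choose_spec h

lemma sum_split (u : W) (φ : (W → Finset ι) → ℝ) :
    ∑ n, φ n = ∑ n with n u = ∅, ∑ s, φ (update n u s) := by
  rw [← Finset.sum_product']
  refine Finset.sum_nbij' (fun n => (update n u ∅, n u)) (fun z => update z.1 u z.2) ?_ ?_ ?_ ?_ ?_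
  · intro n _
    simp
  · intro z _
    simp
  · intro n _
    simp
  · rintro ⟨n, s⟩ hz
    have : n u = ∅ := by simpa using hz
    simp [← this]
  · intro n _
    simp

lemma sum_split2 {u v : W} (huv : u ≠ v) (φ b : (W → Finset ι) → ℝ) (hb0 : ∀ n, 0 ≤ b n)
    (h : ∀ n, n u = ∅ → n v = ∅ → ∑ s, ∑ t, φ (update (update n u s) v t) ≤ b n) :
    ∑ n, φ n ≤ ∑ n, b n := by
  rw [sum_split v, Finset.sum_filter, sum_split u]
  calc _ ≤ ∑ n with n u = ∅, b n := by
        refine Finset.sum_le_sum fun n hn => ?_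
        simp only [update_of_ne huv.symm]
        by_cases hnv : n v = ∅
        · simp only [hnv, if_true]
          exact h n (mem_filter.mp hn).2 hnv
        · simp only [hnv, if_false, Finset.sum_const_zero]
          exact hb0 n
    _ ≤ _ := Finset.sum_le_sum_of_subset_of_nonneg (filter_subset _ _) fun n _ _ => hb0 n

lemma sum_prod_inv (pr : ι → ℕ) :
    ∑ n : W → Finset ι, ∏ w, (1 / ((∏ a ∈ n w, pr a : ℕ) : ℝ))
      = (∏ a, (1 + 1 / (pr a : ℝ))) ^ Fintype.card W := by
  have := Finset.prod_univ_sum (fun _ : W => (univ : Finset (Finset ι)))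
    (fun _ s => (1 / ((∏ a ∈ s, pr a : ℕ) : ℝ)))
  rw [Fintype.piFinset_univ] at this
  rw [← this, Finset.prod_const, card_univ, Finset.prod_one_add, Finset.powerset_univ]
  congr 1
  refine Finset.sum_congr rfl fun s _ => ?_
  rw [Finset.prod_div_distrib, Finset.prod_const_one, Nat.cast_prod]

/-- `φ` does not depend on the coordinate `x`. -/
def Indep (x : W) (φ : (W → Finset ι) → ℝ) : Prop := ∀ n s, φ (update n x s) = φ n

/-- `φ` is a product of bounded functions, each ignoring one of the coordinates `u`, `v`. -/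
def Sep (u v : W) (φ : (W → Finset ι) → ℝ) : Prop :=
  ∃ α β : (W → Finset ι) → ℝ, Indep v α ∧ Indep u β ∧ (∀ n, |α n| ≤ 1) ∧ (∀ n, |β n| ≤ 1) ∧
    ∀ n, φ n = α n * β n

lemma Sep.of_indep {u v : W} {φ : (W → Finset ι) → ℝ} (h : Indep u φ ∨ Indep v φ)
    (hb : ∀ n, |φ n| ≤ 1) : Sep u v φ := by
  rcases h with h | h
  · exact ⟨fun _ => 1, φ, fun _ _ => rfl, h, by simp, hb, by simp⟩
  · exact ⟨φ, fun _ => 1, h, fun _ _ => rfl, hb, by simp, by simp⟩

lemma Sep.mul {u v : W} {φ ψ : (W → Finset ι) → ℝ} (h : Sep u v φ) (h' : Sep u v ψ) :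
    Sep u v fun n => φ n * ψ n := by
  obtain ⟨α, β, h1, h2, h3, h4, h5⟩ := h
  obtain ⟨α', β', h1', h2', h3', h4', h5'⟩ := h'
  refine ⟨fun n => α n * α' n, fun n => β n * β' n, fun n s => ?_, fun n s => ?_, fun n => ?_,
    fun n => ?_, fun n => ?_⟩
  · simp only [h1 n s, h1' n s]
  · simp only [h2 n s, h2' n s]
  · rw [abs_mul]; exact mul_le_one₀ (h3 n) (abs_nonneg _) (h3' n)
  · rw [abs_mul]; exact mul_le_one₀ (h4 n) (abs_nonneg _) (h4' n)
  · simp only [h5 n, h5' n]; ring

lemma Sep.prod {κ : Type} {u v : W} (t : Finset κ) (φ : κ → (W → Finset ι) → ℝ)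
    (h : ∀ k ∈ t, Sep u v (φ k)) : Sep u v fun n => ∏ k ∈ t, φ k n := by
  classical
  induction t using Finset.induction_on with
  | empty => exact Sep.of_indep (Or.inl fun _ _ => by simp) (by simp)
  | insert k t hk ih =>
    simp_rw [Finset.prod_insert hk]
    exact (h k (mem_insert_self _ _)).mul (ih fun k' hk' => h k' (mem_insert_of_mem hk'))

end general

section primes
variable {ι : Type} [Fintype ι] [DecidableEq ι]

/-- The product of the Legendre symbols between two sets of primes. -/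
noncomputable def KK (pr : ι → ℕ) (s t : Finset ι) : ℝ :=
  ∏ a ∈ s, ∏ b ∈ t, (J((pr a : ℤ) | pr b) : ℝ)

lemma abs_KK_le (pr : ι → ℕ) (s t : Finset ι) : |KK pr s t| ≤ 1 := by
  rw [KK, Finset.abs_prod]
  refine Finset.prod_le_one (fun _ _ => abs_nonneg _) fun a _ => ?_
  rw [Finset.abs_prod]
  exact Finset.prod_le_one (fun _ _ => abs_nonneg _) fun b _ => abs_jac_le _ _

lemma jac_prod_right (pr : ι → ℕ) (hp : ∀ a, (pr a).Prime) (x : ℤ) (t : Finset ι) :
    J(x | ∏ b ∈ t, pr b) = ∏ b ∈ t, J(x | pr b) := by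
  induction t using Finset.induction_on with
  | empty => simp
  | insert k t hk ih =>
    rw [Finset.prod_insert hk, Finset.prod_insert hk, jacobiSym.mul_right' _ (hp k).ne_zero
      (Finset.prod_ne_zero_iff.mpr fun b _ => (hp b).ne_zero), ih]

lemma jac_prod_left (pr : ι → ℕ) (m : ℕ) (t : Finset ι) :
    J(((∏ b ∈ t, pr b : ℕ) : ℤ) | m) = ∏ b ∈ t, J((pr b : ℤ) | m) := by
  induction t using Finset.induction_on with
  | empty => simp
  | insert k t hk ih =>
    rw [Finset.prod_insert hk, Finset.prod_insert hk, Nat.cast_mul, jacobiSym.mul_left, ih]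

lemma KK_eq (pr : ι → ℕ) (hp : ∀ a, (pr a).Prime) (s t : Finset ι) :
    KK pr s t = J(((∏ a ∈ s, pr a : ℕ) : ℤ) | ∏ b ∈ t, pr b) := by
  rw [jac_prod_left, KK]
  push_cast
  refine Finset.prod_congr rfl fun a _ => ?_
  rw [jac_prod_right pr hp]
  push_cast
  rfl

lemma KK_eq_zero (pr : ι → ℕ) (hp : ∀ a, (pr a).Prime) {s t : Finset ι} (h : ¬ Disjoint s t) :
    KK pr s t = 0 := by
  obtain ⟨a, h1, h2⟩ := Finset.not_disjoint_iff.mp h
  refine Finset.prod_eq_zero h1 (Finset.prod_eq_zero h2 ?_)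
  have : NeZero (pr a) := ⟨(hp a).ne_zero⟩
  rw [jacobiSym.eq_zero_iff_not_coprime.mpr]
  · simp
  · simpa using (hp a).ne_one

end primes

lemma bil_sets : ∃ C : ℝ, 0 ≤ C ∧ ∀ (ι : Type) [Fintype ι] [DecidableEq ι] (pr : ι → ℕ),
    (∀ a, (pr a).Prime) → (∀ a, pr a ≠ 2) → Injective pr →
    ∀ (α β : Finset ι → ℝ), (∀ s, |α s| ≤ 1) → (∀ s, |β s| ≤ 1) →
    ∀ (Z : ℝ) (A B : ℕ), 1 ≤ Z → Z ^ 16 ≤ A → Z ^ 16 ≤ B →
    (∀ s t, α s * β t ≠ 0 → ∏ a ∈ s, pr a ≤ A ∧ ∏ a ∈ t, pr a ≤ B) →
    |∑ s, ∑ t, α s * β t * KK pr s t| ≤ C * A * B / Z := by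
  obtain ⟨C, hC0, hC⟩ := bilinear
  refine ⟨C, hC0, ?_⟩
  intro ι _ _ pr hp h2 hinj α β hα hβ Z A B hZ hZA hZB hsupp
  set D : Finset ι → ℕ := fun s => ∏ a ∈ s, pr a with hD
  have hDinj : Injective D := prod_inj pr hp hinj
  set back : ℕ → Finset ι := fun m => univ.filter fun a => pr a ∣ m with hback
  have hbD : ∀ s, back (D s) = s := by
    intro s
    ext a
    simp only [hback, hD, mem_filter, mem_univ, true_and]
    exact dvd_prod_iff pr hp hinj s a
  have hgood : ∀ (M : ℕ), ∀ m ∈ (univ.filter fun s => D s ≤ M).image D,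
      Squarefree m ∧ Odd m ∧ m ≤ M := by
    intro M m hm
    obtain ⟨s, hs, rfl⟩ := mem_image.mp hm
    refine ⟨squarefree_prod_pr pr hp hinj s, ?_, (mem_filter.mp hs).2⟩
    exact Finset.prod_induction _ Odd (fun _ _ => Odd.mul) odd_one
      fun a _ => (hp a).odd_of_ne_two (h2 a)
  have h := hC _ _ A B (hgood A) (hgood B) (fun m => α (back m)) (fun m => β (back m))
    (fun _ => hα _) (fun _ => hβ _) Z hZ hZA hZB
  rw [Finset.sum_image hDinj.injOn] at h
  simp_rw [Finset.sum_image hDinj.injOn, hbD] at h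
  convert h using 2
  rw [Finset.sum_filter]
  refine Finset.sum_congr rfl fun s _ => ?_
  rw [Finset.sum_filter]
  split_ifs with h1
  · refine Finset.sum_congr rfl fun t _ => ?_
    split_ifs with h3
    · rw [KK_eq pr hp]
    · by_cases h4 : α s * β t = 0
      · rw [h4, zero_mul]
      · exact absurd (hsupp s t h4).2 h3
  · refine Finset.sum_eq_zero fun t _ => ?_
    by_cases h4 : α s * β t = 0
    · rw [h4, zero_mul]
    · exact absurd (hsupp s t h4).1 h1

end Pool.Agent.P.MP_ab3ecb_nt
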