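import Mathlib

/-!
Definitions for the Brauer-Manin set of a smooth projective curve over the rationals,
given by its function field.
-/

namespace Pool.Agent.P.MP_ab3ecb_nt

open Polynomial TensorProduct Quaternion

/-- Brauer equivalence of two `K`-algebras: matrix algebras over them are isomorphic. -/
def BrEq (K A B : Type) [Field K] [Ring A] [Ring B] [Algebra K A] [Algebra K B] : Prop :=
  ∃ m n : ℕ, Nonempty
    (Matrix (Fin (m + 1)) (Fin (m + 1)) A ≃ₐ[K] Matrix (Fin (n + 1)) (Fin (n + 1)) B)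

/-- A `K`-point of the smooth projective curve with function field `F` (for `K` of
characteristic zero): a local ring `O` of the curve with a local homomorphism `O → K`. -/
structure Pt (F K : Type) [Field F] [Field K] where
  O : ValuationSubring F
  φ : O →+* K
  loc : IsLocalHom φ

/-- `M` is an Azumaya algebra over `O` whose generic fibre is Brauer equivalent to `A`. -/
def IsModel {F : Type} [Field F] (A : Type) [Ring A] [Algebra F A] (O : ValuationSubring F)
    (M : Type) [Ring M] [Algebra O M] : Prop :=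
  IsAzumaya O M ∧ BrEq F (F ⊗[O] M) A

/-- The class of `A` lies in the Brauer group of the curve: it extends to an Azumaya algebra
over every local ring of the curve. -/
def Unram (F A : Type) [Field F] [CharZero F] [Ring A] [Algebra F A] : Prop :=
  ∀ O : ValuationSubring F, (∀ q : ℚ, (q : F) ∈ O) →
    ∃ (M : Type) (_ : Ring M) (_ : Algebra O M), IsModel A O M

/-- Real invariant: `0` for the class of `ℝ`, and `1/2` for the class of Hamilton's quaternions. -/
def InvR (B : Type) [Ring B] [Algebra ℝ B] (q : AddCircle (1 : ℚ)) : Prop :=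
  (BrEq ℝ B ℝ ∧ q = 0) ∨ (BrEq ℝ B ℍ[ℝ] ∧ q = ((1 / 2 : ℚ) : AddCircle (1 : ℚ)))

/-- `p`-adic invariant: `B` is Brauer equivalent to the cyclic algebra `D` built from the
unramified extension `ℚ_p(θ)` of degree `n`, its Frobenius, and `c`, and `q = v_p(c) / n`. -/
def InvP (p : ℕ) [Fact p.Prime] (B : Type) [Ring B] [Algebra ℚ_[p] B]
    (q : AddCircle (1 : ℚ)) : Prop :=
  ∃ (D : Type) (_ : Ring D) (_ : Algebra ℚ_[p] D) (θ u : D) (g h : ℤ_[p][X]) (c : ℚ_[p]),
    BrEq ℚ_[p] B D ∧ Module.finrank ℚ_[p] D = g.natDegree ^ 2 ∧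
    Algebra.adjoin ℚ_[p] {θ, u} = ⊤ ∧
    g.Monic ∧ Irreducible (g.map PadicInt.toZMod) ∧
    aeval θ (g.map (algebraMap ℤ_[p] ℚ_[p])) = 0 ∧
    u * θ = (θ ^ p + p * aeval θ (h.map (algebraMap ℤ_[p] ℚ_[p]))) * u ∧
    c ≠ 0 ∧ u ^ g.natDegree = algebraMap ℚ_[p] D c ∧
    q = ((c.valuation / g.natDegree : ℚ) : AddCircle (1 : ℚ))

/-- The value `A(P)` has invariant `q`, where `Inv` is the local invariant relation of `K`. -/
def ValInv {F K : Type} [Field F] [Field K] (A : Type) [Ring A] [Algebra F A] (P : Pt F K)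
    (Inv : (B : Type) → [Ring B] → [Algebra K B] → AddCircle (1 : ℚ) → Prop)
    (q : AddCircle (1 : ℚ)) : Prop :=
  ∃ (M : Type) (_ : Ring M) (_ : Algebra P.O M), IsModel A P.O M ∧
    letI := P.φ.toAlgebra
    Inv (K ⊗[P.O] M) q

/-- Adelic points of the curve with function field `F`. -/
structure Adelic (F : Type) [Field F] where
  inf : Pt F ℝ
  fin : (p : Nat.Primes) → Pt F (@Padic p ⟨p.2⟩)

/-- The adelic point `P` is orthogonal to the Brauer group of the curve. -/
def InBM {F : Type} [Field F] [CharZero F] (P : Adelic F) : Prop :=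
  ∀ (A : Type) [Ring A] [Algebra F A], Unram F A →
    ∀ (r : AddCircle (1 : ℚ)) (q : Nat.Primes →₀ AddCircle (1 : ℚ)),
      ValInv A P.inf InvR r → (∀ p, ValInv A (P.fin p) (@InvP p ⟨p.2⟩) (q p)) →
        r + q.sum (fun _ a => a) = 0

/-- `F = ℚ(x, y)` is the function field of the curve `d y ^ 2 = f(x)`. -/
def IsTwist (f : ℚ[X]) (d : ℤ) {F : Type} [Field F] [CharZero F] (x y : F) : Prop :=
  Transcendental ℚ x ∧ d * y ^ 2 = aeval x f ∧ Subfield.closure {x, y} = ⊤

/-- `f` has a root in every completion of `ℚ`. -/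
def RootsEverywhere (f : ℚ[X]) : Prop :=
  (∃ t : ℝ, aeval t f = 0) ∧ ∀ (p : ℕ) [Fact p.Prime], ∃ t : ℚ_[p], aeval t f = 0

end Pool.Agent.P.MP_ab3ecb_nt
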