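import Pool.Agent.P.MP_ab3ecb_nt.Model

/-!
Definitions for the relative density theorem.
-/

namespace Pool.Agent.P.MP_ab3ecb_nt

open Polynomial Finset Filter
open scoped Classical

/-- The set `Q` of primes has positive lower logarithmic density. -/
def Dns (Q : ℕ → Prop) : Prop :=
  ∃ δ C : ℝ, 0 < δ ∧ ∀ᶠ X : ℕ in atTop,
    δ * Real.log (Real.log X) - C ≤ ∑ p ∈ (range (X + 1)).filter Q, 1 / (p : ℝ)

/-- The weight `ω` on the primes not dividing `M` saves a power of the logarithm against `E`. -/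
def Sav (M : ℕ) (E ω : ℕ → ℝ) : Prop :=
  ∃ c C : ℝ, 0 < c ∧ ∀ᶠ X : ℕ in atTop,
    ∑ p ∈ Qs M X, ω p / p ≤ E X - c * Real.log (Real.log X) + C

/-- The primes not dividing `M` modulo which `F` has a root. -/
def Rp (F : ℤ[X]) (M p : ℕ) : Prop := p.Prime ∧ ¬ p ∣ M ∧ ∃ t : ZMod p, aeval t F = 0

/-- The set `P` satisfies a lower bound of Chebyshev type. -/
def Chb (P : ℕ → Prop) : Prop :=
  ∃ c : ℝ, 0 < c ∧ ∀ᶠ x : ℕ in atTop, c * x ≤ ∑ p ∈ (range (x + 1)).filter P, Real.log p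

/-- The elements that some `g ∈ G` moves into `Λ`. -/
noncomputable def orb {Ω : Type} [Fintype Ω] (G : Set (Equiv.Perm Ω)) (Λ : Finset Ω) : Finset Ω :=
  univ.filter fun c => ∃ g ∈ G, g c ∈ Λ

/-- Two tests are linked when the character joining them is not principal. -/
def Lk {K Ω : Type} (G : Set (Equiv.Perm Ω)) (u v : (K × Ω) × Finset Ω × Bool) : Prop :=
  u ≠ v ∧ ∃ g ∈ G, Odd ((u.2.1.filter fun b => v.1.2 ≠ g u.1.2 ∧ v.1.2 ≠ g b).card +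
    (v.2.1.filter fun b => v.1.2 ≠ g u.1.2 ∧ b ≠ g u.1.2).card)

/-- The orders generated by sets of roots of `F`, with their reductions at the primes that do not
divide `M`. -/
structure Tw (F : ℤ[X]) (M : ℕ) {Ω : Type} [Fintype Ω] (A : Finset Ω → Type)
    [∀ Φ, CommRing (A Φ)] (θ : ∀ Φ, Ω → A Φ) (fr : ℕ → Finset Ω) (rt : ∀ p : ℕ, Ω → ZMod p)
    (G : Set (Equiv.Perm Ω)) : Prop where
  card : Fintype.card Ω = F.natDegree
  root : ∀ Φ, ∀ a ∈ Φ, aeval (θ Φ a) F = 0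
  dvd : ∀ Φ, ∀ a ∈ Φ, ∀ b ∈ Φ, a ≠ b →
    (X - C (θ Φ a)) * (X - C (θ Φ b)) ∣ F.map (Int.castRingHom (A Φ))
  red : ∀ (p : ℕ) [Fact p.Prime], ¬ p ∣ M → ∀ Φ, fr p = Φ →
    ∃ φ : A Φ →+* ℤ_[p], ∀ c ∈ Φ, PadicInt.toZMod (φ (θ Φ c)) = rt p c
  all : ∀ p : ℕ, p.Prime → ¬ p ∣ M → ∀ t : ZMod p, aeval t F = 0 → ∃ c ∈ fr p, rt p c = t
  one : 1 ∈ G
  conj : ∀ g ∈ G, ∀ q : ℕ, q.Prime → ¬ q ∣ M → ∀ Φ, ∃ (k : Type) (_ : Field k) (μ : A Φ →+* k)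
    (ι : ZMod q →+* k), ∀ c ∈ Φ, ∀ c' ∈ fr q, (ι (rt q c') = μ (θ Φ c) ↔ c' = g c)
  quad : ∀ Λ : Finset Ω, (orb G Λ).card ≤ 2 → ∃ (B B' : Type) (_ : CommRing B) (_ : IsDomain B)
    (_ : CharZero B) (_ : Module.Finite ℤ B) (_ : CommRing B') (_ : IsDomain B')
    (_ : CharZero B') (_ : Module.Finite ℤ B'), ∀ p : ℕ, p.Prime → ¬ p ∣ M →
      (Nonempty (B →+* ZMod p) → (fr p).Nonempty) ∧
      (¬ Disjoint (fr p) Λ → 2 * Nat.card (B →+* ZMod p) ≤ Nat.card (B' →+* ZMod p))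

/-- The data of the moment computation with independent tests. -/
structure S3 (L J ι : Type) where
  gens : L → Finset J
  R : ι → Finset L
  sg : ι → L → J → ℝ
  ψ : ι → L → J → ι → L → ℝ

/-- The labelled sets that pass all tests. -/
def S3.Surv {L J ι : Type} (σ : S3 L J ι) (s : Finset ι) : Prop :=
  ∃ lab : ι → L, ∀ a ∈ s, lab a ∈ σ.R a ∧ ∀ j ∈ σ.gens (lab a),
    σ.sg a (lab a) j * ∏ b ∈ s.erase a, σ.ψ a (lab a) j b (lab b) = 1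

end Pool.Agent.P.MP_ab3ecb_nt
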