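import Pool.Agent.P.MP_ab3ecb_nt.Mom2

/-!
The asymptotic form of the weighted moment bound.
-/

namespace Pool.Agent.P.MP_ab3ecb_nt

open Finset Function Filter Topology Asymptotics
open scoped Classical

set_option linter.unusedSectionVars false
set_option maxHeartbeats 400000

namespace St

variable {J L ι : Type} [Fintype J] [Fintype L] [Fintype ι] {σ : St J L ι}

lemma gm_nonneg (H : σ.OK) (I : Finset J) (a : ι) : 0 ≤ σ.gm I a := by
  have := H.om0 a
  unfold gm
  split_ifs <;> positivity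

lemma count_bound (H : σ.OK) {R m K : ℕ} {μ Mn : ℝ} (hμ : 0 < μ) (hom : ∀ a, 0 < σ.om a)
    (hh : σ.h = fun r => if r ≤ R then μ ^ r / 2 ^ R else 0) (hm : 1 ≤ m) (hmY : m ≤ σ.Y)
    (hX : σ.X < 2 ^ K) (hR : ∀ l l', Rect σ.pr (fun a b => σ.ψ a l b l') (fun a => l ∈ σ.R a)
      (fun a => l' ∈ σ.R a) R (m ^ 2) K σ.Y)
    (hM : ∀ I, ∑ s : Finset ι with ∏ a ∈ s, σ.pr a ≤ σ.X, ∏ a ∈ s, μ * σ.gm I a ≤ Mn) :
    ((univ.filter fun s : Finset ι => ∏ a ∈ s, σ.pr a ≤ σ.X ∧ σ.Surv s).card : ℝ) ≤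
      (∑ s : Finset ι with ∏ a ∈ s, σ.pr a ≤ σ.X, ∏ _a ∈ s, (2 : ℝ)) / 2 ^ R +
      ∑ s : Finset ι with ∏ a ∈ s, σ.pr a ≤ σ.X, ∏ a ∈ s, (μ * σ.om a)⁻¹ +
      2 ^ Fintype.card (L × Finset J) * (2 ^ R * (K * (2 * (R + 3) * σ.X / m) *
        (∏ a, (1 + 1 / (σ.pr a : ℝ))) ^ Fintype.card (L × Finset J)) + Mn) := by
  generalize hE : K * (2 * (R + 3) * σ.X / m) *
    (∏ a, (1 + 1 / (σ.pr a : ℝ))) ^ Fintype.card (L × Finset J) = E
  have hE0 : 0 ≤ E := by rw [← hE]; positivity
  have hM0 : 0 ≤ Mn := le_trans (Finset.sum_nonneg fun s _ => Finset.prod_nonneg fun a _ =>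
    mul_nonneg hμ.le (gm_nonneg H ∅ a)) (hM ∅)
  have h1 : ∀ U, 2 ^ R * σ.TT U ≤ 2 ^ R * E + Mn := fun U => by
    by_cases hl : ∀ u ∈ U, ∀ v ∈ U, ¬ σ.Linked u v
    · refine le_add_of_nonneg_of_le (by positivity) ((mul_le_mul_of_nonneg_left
        (main_bound H U hl) (by positivity)).trans (le_trans ?_ (hM (U.image fun w => σ.cls w.1))))
      rw [Finset.mul_sum, Finset.sum_filter]
      refine Finset.sum_le_sum fun s _ => ?_
      have := Finset.prod_nonneg fun a (_ : a ∈ s) => gm_nonneg H (U.image fun w => σ.cls w.1) a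
      simp only [cut, hh, Finset.prod_mul_distrib, Finset.prod_const]
      split_ifs
      · exact le_of_eq (by field_simp)
      · rw [zero_mul, mul_zero]
        positivity
      · simp
    · simp only [not_forall, not_not] at hl
      obtain ⟨u, hu, v, hv, hl⟩ := hl
      exact le_add_of_le_of_nonneg (mul_le_mul_of_nonneg_left (hE ▸ error_bound H hm hmY
        (fun r hr => by simp [hh, hr]) hX U hu hv hl (hR _ _)) (by positivity)) hM0
  have h2 : 2 ^ R * ∑ s with σ.Surv s, σ.cut s * ∏ a ∈ s, σ.om a ≤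
      2 ^ Fintype.card (L × Finset J) * (2 ^ R * E + Mn) := by
    refine (mul_le_mul_of_nonneg_left (surv_le H) (by positivity)).trans ?_
    rw [Finset.mul_sum]
    refine (Finset.sum_le_card_nsmul _ _ _ fun U _ => h1 U).trans (le_of_eq ?_)
    rw [card_univ, Fintype.card_finset, nsmul_eq_mul, Nat.cast_pow, Nat.cast_two]
  refine le_trans ?_ (add_le_add le_rfl h2)
  rw [Finset.card_eq_sum_ones, Nat.cast_sum, Finset.sum_div, Finset.mul_sum]
  simp only [Finset.sum_filter, ← Finset.sum_add_distrib]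
  refine Finset.sum_le_sum fun s _ => ?_
  have k1 : 0 < ∏ a ∈ s, μ * σ.om a := Finset.prod_pos fun a _ => mul_pos hμ (hom a)
  have k2 : 0 ≤ 2 ^ R * (σ.cut s * ∏ a ∈ s, σ.om a) := mul_nonneg (by positivity)
    (mul_nonneg (cut_nonneg H s) (Finset.prod_nonneg fun a _ => H.om0 a))
  rw [Finset.prod_inv_distrib, Finset.prod_const]
  by_cases k3 : ∏ a ∈ s, σ.pr a ≤ σ.X
  · by_cases k4 : σ.Surv s
    · simp only [k3, k4, and_self, if_true, Nat.cast_one]
      by_cases k5 : s.card ≤ R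
      · have : 2 ^ R * (σ.cut s * ∏ a ∈ s, σ.om a) = ∏ a ∈ s, μ * σ.om a := by
          simp only [cut, hh, k3, k5, if_true, Finset.prod_mul_distrib, Finset.prod_const]
          field_simp
        rw [this]
        generalize ∏ a ∈ s, μ * σ.om a = w at k1
        have k6 : 0 ≤ (2 : ℝ) ^ s.card / 2 ^ R := by positivity
        rcases le_total w 1 with h | h
        · linarith [(one_le_inv₀ k1).mpr h]
        · linarith [inv_pos.mpr k1]
      · have : (1 : ℝ) ≤ 2 ^ s.card / 2 ^ R := by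
          rw [one_le_div (by positivity)]
          exact pow_le_pow_right₀ one_le_two (by omega)
        linarith [inv_pos.mpr k1]
    · simp only [k3, k4, and_false, if_true, if_false]
      positivity
  · simp only [k3, false_and, if_false]
    split_ifs
    · linarith
    · simp

lemma main_le (H : σ.OK) {μ : ℝ} (hμ0 : 0 ≤ μ) (hμ : μ ≤ 2) (hx : 1 < σ.X)
    (hY : 1 ≤ Real.log σ.Y) (Bd : ℝ) (hBd0 : 0 ≤ Bd)
    (hBd : ∀ i, ∑ a, μ * σ.om a * (((σ.R a).filter fun l => σ.cls l = i).card : ℝ) *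
      (σ.pr a : ℝ) ^ (-(1 + 1 / Real.log σ.X)) ≤ Bd) (I : Finset J) :
    (∑ s : Finset ι with ∏ a ∈ s, σ.pr a ≤ σ.X, ∏ a ∈ s, μ * σ.gm I a) * Real.log σ.X
      ≤ 3 * (1 + 2 * (2 * (Fintype.card L * 2 ^ Fintype.card J))) * σ.X *
        Real.exp (2 * Fintype.card L * (3 * (Real.log (Real.log σ.Y) + 3)) + Bd) := by
  have hG : ∀ a, μ * σ.gm I a ≤ 2 * (Fintype.card L * 2 ^ Fintype.card J) := by
    intro a
    refine mul_le_mul hμ ?_ (gm_nonneg H I a) zero_le_two
    unfold gm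
    split_ifs
    · refine (mul_le_of_le_one_left (by positivity) (mul_le_one₀
        (pow_le_one₀ (by norm_num) (by norm_num)) (H.om0 a) (H.om1 a))).trans ?_
      gcongr
      · exact card_le_univ _
      · norm_num
      · exact card_le_univ _
    · exact le_mul_of_one_le_right (by positivity) (one_le_pow₀ one_le_two)
  refine (hall_tenenbaum σ.pr H.hp H.inj _ _ (fun a => mul_nonneg hμ0 (gm_nonneg H I a)) hG
    (by positivity) _ hx).trans ?_
  gcongr
  have hl : 0 < Real.log σ.X := Real.log_pos (by exact_mod_cast hx)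
  generalize hs : 1 + 1 / Real.log σ.X = s at hBd
  have hs1 : 1 ≤ s := by
    have : 0 < 1 / Real.log σ.X := by positivity
    linarith
  have hY0 : (1 : ℝ) < σ.Y := by
    by_contra hcon
    linarith [Real.log_nonpos (Nat.cast_nonneg _) (not_lt.mp hcon)]
  have h1 := sum_prime_inv_le σ.pr H.hp H.inj (univ.filter fun a => ¬ σ.big a) hY hY0
    fun a ha => by exact_mod_cast not_lt.mp (mem_filter.mp ha).2
  calc _ ≤ ∑ a, (2 * (Fintype.card L : ℝ) * (if ¬ σ.big a then 1 / (σ.pr a : ℝ) else 0) +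
        (1 / 2) ^ (Fintype.card J - 1) * 2 ^ Iᶜ.card * ∑ i ∈ I, μ * σ.om a *
          (((σ.R a).filter fun l => σ.cls l = i).card : ℝ) * (σ.pr a : ℝ) ^ (-s)) := by
        refine Finset.sum_le_sum fun a _ => ?_
        have h0 := H.om0 a
        unfold gm
        by_cases hb : σ.big a
        · simp only [hb, if_true, not_true, if_false, mul_zero, zero_add]
          have : ∑ i ∈ I, (((σ.R a).filter fun l => σ.cls l = i).card : ℝ) =
              ((σ.R a).filter fun l => σ.cls l ∈ I).card := by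
            simp only [card_filter, Nat.cast_sum]
            rw [Finset.sum_comm]
            exact Finset.sum_congr rfl fun l _ => by simp
          rw [← Finset.sum_mul, ← Finset.mul_sum, this]
          exact le_of_eq (by ring)
        · simp only [hb, if_false, not_false_eq_true, if_true]
          have h2 : (σ.pr a : ℝ) ^ (-s) ≤ 1 / (σ.pr a : ℝ) := by
            rw [one_div, ← Real.rpow_neg_one]
            exact Real.rpow_le_rpow_of_exponent_le (by exact_mod_cast (H.hp a).one_le)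
              (by linarith)
          refine le_add_of_le_of_nonneg ?_ (by positivity)
          gcongr
    _ ≤ _ := by
        rw [Finset.sum_add_distrib, ← Finset.mul_sum, ← Finset.mul_sum, ← Finset.sum_filter,
          Finset.sum_comm]
        refine add_le_add (mul_le_mul_of_nonneg_left h1 (by positivity)) ?_
        refine (mul_le_mul_of_nonneg_left (Finset.sum_le_card_nsmul _ _ _ fun i _ => hBd i)
          (by positivity)).trans ?_
        rw [nsmul_eq_mul, ← mul_assoc]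
        refine mul_le_of_le_one_left hBd0 ?_
        rw [one_div, inv_pow, mul_assoc, inv_mul_le_iff₀ (by positivity), mul_one]
        have h2 : 2 ^ Iᶜ.card * I.card ≤ 2 ^ (Fintype.card J - 1) := by
          rcases Nat.eq_zero_or_pos I.card with h | h
          · simp [h]
          · have h3 := @Nat.lt_two_pow_self (I.card - 1)
            have h4 := Finset.card_add_card_compl I
            rw [show Fintype.card J - 1 = Iᶜ.card + (I.card - 1) by omega, pow_add]
            exact Nat.mul_le_mul_left _ (by omega)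
        exact_mod_cast h2

/-- Restriction to a finite set of primes. -/
def res (σ : St J L ℕ) (P : Finset ℕ) (Y X : ℕ) (h : ℕ → ℝ) : St J L P :=
  ⟨σ.cls, σ.V, fun a => σ.sg a, fun a => σ.R a, fun a => a, fun a l b l' => σ.ψ a l b l',
    fun a => σ.om a, Y, X, h⟩

lemma card_le_res (σ : St J L ℕ) (P : Finset ℕ) (Y X : ℕ) (h : ℕ → ℝ) :
    (P.powerset.filter fun s => ∏ p ∈ s, p ≤ X ∧ σ.Surv s).card ≤ (univ.filter fun s : Finset P =>
      ∏ a ∈ s, (σ.res P Y X h).pr a ≤ (σ.res P Y X h).X ∧ (σ.res P Y X h).Surv s).card := by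
  refine Finset.card_le_card_of_injOn (fun s => s.subtype (· ∈ P)) ?_ ?_
  · intro s hs
    obtain ⟨h1, h2, lab, h3⟩ := mem_filter.mp (mem_coe.mp hs)
    have h4 : ∀ p ∈ s, p ∈ P := fun p hp => mem_powerset.mp h1 hp
    refine mem_coe.mpr (mem_filter.mpr ⟨mem_univ _, ?_, fun a => lab a, fun a ha =>
      ⟨(h3 a (mem_subtype.mp ha)).1, fun S hS => ?_⟩⟩)
    · exact (Finset.prod_subtype_of_mem (fun p => p) h4).trans_le h2
    · refine Eq.trans (Finset.prod_congr rfl fun j _ => congrArg _ ?_)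
        ((h3 a (mem_subtype.mp ha)).2 S hS)
      refine Finset.prod_bij (fun b _ => (b : ℕ)) (fun b hb => ?_)
        (fun _ _ _ _ h => Subtype.ext h) (fun b hb => ?_) fun _ _ => rfl
      · simp only [mem_filter, mem_erase, mem_subtype] at hb ⊢
        exact ⟨⟨fun h => hb.1.1 (Subtype.ext h), hb.1.2⟩, hb.2⟩
      · simp only [mem_filter, mem_erase, mem_subtype] at hb ⊢
        exact ⟨⟨b, h4 b hb.1.2⟩, ⟨⟨fun h => hb.1.1 (congrArg Subtype.val h), hb.1.2⟩, hb.2⟩, rfl⟩
  · intro s hs t ht h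
    have h1 := mem_powerset.mp (mem_filter.mp (mem_coe.mp hs)).1
    have h2 := mem_powerset.mp (mem_filter.mp (mem_coe.mp ht)).1
    rw [← Finset.subtype_map_of_mem (fun p hp => h1 hp),
      ← Finset.subtype_map_of_mem (fun p hp => h2 hp)]
    simp only at h
    rw [h]

end St

/-- The primes up to `X` that do not divide `M`. -/
noncomputable def Qs (M X : ℕ) : Finset ℕ := (range (X + 1)).filter fun p => p.Prime ∧ ¬ p ∣ M

lemma param_le (C n B u l : ℕ) (hu : 1 ≤ u) (hl : l < 2 ^ u) :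
    (((l ^ B) ^ 2) ^ 2 * C ^ (2 * u + 1) * (C * l * (2 * u) + 1) ^ (2 * u)) ^ n ≤
      2 ^ ((n * (4 * B + 5 * C + 8) + B + 2) * u ^ 2) := by
  have h1 : C ≤ 2 ^ C := Nat.lt_two_pow_self.le
  have h2 : C * l * (2 * u) + 1 ≤ 2 ^ (C + 2 * u + 2) := by
    have h3 : u ≤ 2 ^ u := Nat.lt_two_pow_self.le
    have h4 : C * l * (2 * u) ≤ 2 ^ C * 2 ^ u * (2 * 2 ^ u) := by gcongr
    have h5 : 1 ≤ 2 ^ C * 2 ^ u * (2 * 2 ^ u) := Nat.succ_le_of_lt (by positivity)
    calc _ ≤ 2 * (2 ^ C * 2 ^ u * (2 * 2 ^ u)) := by omega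
      _ = _ := by ring
  calc _ ≤ ((((2 ^ u) ^ B) ^ 2) ^ 2 * (2 ^ C) ^ (2 * u + 1) *
        (2 ^ (C + 2 * u + 2)) ^ (2 * u)) ^ n := by gcongr
    _ = 2 ^ (n * (4 * B * u + C * (2 * u + 1) + (C + 2 * u + 2) * (2 * u))) := by
        simp only [← pow_mul, ← pow_add]
        congr 1
        ring
    _ ≤ _ := by
        refine Nat.pow_le_pow_right two_pos (le_trans (Nat.mul_le_mul_left n
          (?_ : _ ≤ (4 * B + 5 * C + 8) * u ^ 2)) (by nlinarith))
        have h3 : u ≤ u ^ 2 := Nat.le_self_pow two_ne_zero u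
        nlinarith [Nat.mul_le_mul_left B h3, Nat.mul_le_mul_left C h3,
          Nat.mul_le_mul_left C (hu.trans h3)]

lemma log_two_le {x : ℕ} (hx : x ≠ 0) (h : 1 ≤ Real.log x) :
    Real.log x ≤ (Nat.log 2 x + 1 : ℕ) ∧ ((Nat.log 2 x + 1 : ℕ) : ℝ) ≤ 3 * Real.log x := by
  have k1 : ((2 ^ Nat.log 2 x : ℕ) : ℝ) ≤ x := by exact_mod_cast Nat.pow_log_le_self 2 hx
  have k2 := Real.log_le_log (by positivity) k1
  have k3 : (x : ℝ) ≤ (2 ^ (Nat.log 2 x + 1) : ℕ) := by
    exact_mod_cast (Nat.lt_pow_succ_log_self one_lt_two x).le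
  have k4 := Real.log_le_log (by positivity) k3
  rw [Nat.cast_pow, Real.log_pow, Nat.cast_two] at k2 k4
  have k5 := Real.log_two_gt_d9
  have k6 := Real.log_two_lt_d9
  have k7 : (0 : ℝ) ≤ Nat.log 2 x := Nat.cast_nonneg _
  push_cast at k4 ⊢
  constructor <;> nlinarith

theorem moment2 {J L : Type} [Fintype J] [Fintype L] (σ : St J L ℕ) (M : ℕ) {μ c C : ℝ}
    (hμ1 : 1 ≤ μ) (hμ2 : μ ≤ 2) (hc : 0 < c) (hc1 : c ≤ 1) (hom : ∀ p, 1 / 2 ≤ σ.om p)
    (hOK : ∀ X Y h, (∀ r, 0 ≤ h r) → (∀ r, h r ≤ 1) → (σ.res (Qs M X) Y X h).OK)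
    (H : ∀ᶠ s in 𝓝[>] (1 : ℝ), ∀ P : Finset ℕ, (∀ p ∈ P, p.Prime) →
      (∀ i, ∑ p ∈ P, μ * σ.om p * (((σ.R p).filter fun l => σ.cls l = i).card : ℝ) *
        (p : ℝ) ^ (-s) ≤ (1 - c) * Real.log (1 / (s - 1)) + C) ∧
      ∑ p ∈ P, (μ * σ.om p)⁻¹ * (p : ℝ) ^ (-s) ≤ (1 - c) * Real.log (1 / (s - 1)) + C)
    (C0 n0 : ℕ) (HR : ∀ X l l' R Z K Y, 1 ≤ Z →
      (Z ^ 2 * C0 ^ (R + 1) * (C0 * K * R + 1) ^ R) ^ n0 ≤ Y →
      Rect (fun a : Qs M X => (a : ℕ)) (fun a b => σ.ψ a l b l') (fun a => l ∈ σ.R a)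
        (fun a => l' ∈ σ.R a) R Z K Y) :
    (fun X : ℕ => (((Qs M X).powerset.filter fun s => ∏ p ∈ s, p ≤ X ∧ σ.Surv s).card : ℝ))
      =O[atTop] fun X : ℕ => (X : ℝ) / Real.log X ^ (c / 2) := by
  set k := Fintype.card J with hk
  set w := Fintype.card (L × Finset J) with hw
  set l := Fintype.card L with hl
  set B : ℕ := 3 * w + 5 with hB
  set E : ℕ := n0 * (4 * B + 5 * C0 + 8) + B + 2 with hE
  have tX : Tendsto (fun X : ℕ => (X : ℝ)) atTop atTop := tendsto_natCast_atTop_atTop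
  have tl : Tendsto (fun X : ℕ => Real.log X) atTop atTop := Real.tendsto_log_atTop.comp tX
  have tll : Tendsto (fun X : ℕ => Real.log (Real.log X)) atTop atTop :=
    Real.tendsto_log_atTop.comp tl
  have ts : Tendsto (fun X : ℕ => 1 + 1 / Real.log X) atTop (𝓝[>] 1) := by
    refine tendsto_nhdsWithin_iff.mpr ⟨?_, ?_⟩
    · simpa using (tendsto_const_nhds (x := (1 : ℝ))).add
        ((tendsto_const_nhds (x := (1 : ℝ))).div_atTop tl)
    · filter_upwards [tl.eventually_gt_atTop 0] with X hX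
      simpa using hX
  have hlo := tl.eventually
    ((isLittleO_log_rpow_rpow_atTop ((12 * l : ℕ) : ℝ) (half_pos hc)).bound one_pos)
  refine IsBigO.of_bound (15 * Real.exp 6 + 15 * Real.exp C + 2 ^ w * (40 * Real.exp 9 ^ w +
    3 * (1 + 2 * (2 * (l * 2 ^ k))) * ((81 * E) ^ (6 * l) * Real.exp (18 * l + C)))) ?_
  filter_upwards [ts.eventually H, hlo, tl.eventually_ge_atTop 1, tll.eventually_ge_atTop 1,
    eventually_gt_atTop 1] with X hH hlo h1 h2 h3
  obtain ⟨l1, l2⟩ := log_two_le (by omega) h1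
  have l3 : X < 2 ^ (Nat.log 2 X + 1) := Nat.lt_pow_succ_log_self one_lt_two X
  set lam := Real.log X with hlam
  generalize Nat.log 2 X + 1 = K at l1 l2 l3
  have hX1 : (1 : ℝ) < X := by exact_mod_cast h3
  have hlam0 : 0 < lam := by linarith
  have hK1 : (1 : ℝ) ≤ K := h1.trans l1
  have hK0 : K ≠ 0 := by rintro rfl; norm_num at hK1
  have l4 := Real.log_le_log hlam0 l1
  obtain ⟨-, l5⟩ := log_two_le hK0 (h2.trans l4)
  have l6 : K < 2 ^ (Nat.log 2 K + 1) := Nat.lt_pow_succ_log_self one_lt_two K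
  have l7 : 2 ^ (Nat.log 2 K + 1) ≤ 2 * K := by
    rw [pow_succ']
    exact Nat.mul_le_mul_left _ (Nat.pow_log_le_self 2 hK0)
  have l8 : Nat.log 2 K + 1 ≤ K := Nat.log_lt_self 2 hK0
  have l9 : 1 ≤ Nat.log 2 K + 1 := by omega
  generalize Nat.log 2 K + 1 = u at l5 l6 l7 l8 l9
  have hrp : 0 < lam ^ (c / 2) := by positivity
  rw [Real.norm_natCast, Real.norm_of_nonneg (by positivity)]
  rw [Real.norm_of_nonneg (by positivity), Real.norm_of_nonneg (by positivity), one_mul,
    Real.rpow_natCast] at hlo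
  rw [add_sub_cancel_left, one_div_one_div] at hH
  have hu : (u : ℝ) ≤ 9 * Real.log lam := by
    have k1 := Real.log_le_log (by linarith) l2
    rw [Real.log_mul (by norm_num) hlam0.ne'] at k1
    linarith [Real.log_le_sub_one_of_pos (by norm_num : (0 : ℝ) < 3)]
  have hu1 : (1 : ℝ) ≤ u := by exact_mod_cast l9
  have hE2 : (2 : ℝ) ≤ E := by exact_mod_cast (by omega : 2 ≤ E)
  have hlogY : Real.log (2 ^ (E * u ^ 2) : ℕ) = E * u ^ 2 * Real.log 2 := by
    rw [Nat.cast_pow, Real.log_pow]; push_cast; ring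
  have hEu : (2 : ℝ) ≤ E * u ^ 2 := by nlinarith
  have hY1 : 1 ≤ Real.log (2 ^ (E * u ^ 2) : ℕ) := by
    rw [hlogY]; nlinarith [Real.log_two_gt_d9]
  have hY2 : Real.log (2 ^ (E * u ^ 2) : ℕ) ≤ 81 * E * Real.log lam ^ 2 := by
    have : (u : ℝ) ^ 2 ≤ (9 * Real.log lam) ^ 2 := by gcongr
    rw [hlogY]; nlinarith [Real.log_two_lt_d9]
  have hinv : X / lam ≤ X / lam ^ (c / 2) := by
    gcongr
    calc lam ^ (c / 2) ≤ lam ^ (1 : ℝ) := Real.rpow_le_rpow_of_exponent_le h1 (by linarith)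
      _ = lam := Real.rpow_one _
  have hexp : Real.exp ((1 - c) * Real.log lam + C) = Real.exp C * (lam * (1 / lam ^ (c / 2) *
      (1 / lam ^ (c / 2)))) := by
    rw [add_comm, Real.exp_add, mul_comm (1 - c), ← Real.rpow_def_of_pos hlam0, Real.rpow_sub hlam0,
      Real.rpow_one, one_div_mul_one_div, ← Real.rpow_add hlam0, add_halves, mul_one_div]
  have hrp1 : 1 ≤ lam ^ (c / 2) := Real.one_le_rpow h1 (by linarith)
  set τ := σ.res (Qs M X) (2 ^ (E * u ^ 2)) X
    fun r => if r ≤ 2 * u then μ ^ r / 2 ^ (2 * u) else 0 with hτ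
  have hO : τ.OK := hOK _ _ _ (fun r => by split_ifs <;> positivity) fun r => by
    split_ifs with h
    · rw [div_le_one (by positivity)]
      exact (pow_le_pow_left₀ (by linarith) hμ2 r).trans (pow_le_pow_right₀ one_le_two h)
    · norm_num
  obtain ⟨hH1, hH2⟩ := hH (Qs M X) fun p hp => (mem_filter.mp hp).2.1
  have hBd0 : 0 ≤ (1 - c) * Real.log lam + C := by simpa using (hH ∅ (by simp)).2
  have hcount := St.count_bound hO (R := 2 * u) (m := K ^ B) (K := K) (Mn := 3 * (1 + 2 * (2 *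
      (l * 2 ^ k))) * ((81 * E) ^ (6 * l) * Real.exp (18 * l + C)) * (X / lam ^ (c / 2)))
    (by linarith) (fun a => one_half_pos.trans_le (hom a)) rfl
    (Nat.one_le_pow _ _ (Nat.pos_of_ne_zero hK0))
    (by
      refine (Nat.pow_le_pow_left l6.le B).trans ?_
      rw [← pow_mul]
      exact Nat.pow_le_pow_right two_pos ((mul_comm u B).le.trans
        (Nat.mul_le_mul (by omega) (Nat.le_self_pow two_ne_zero u)))) l3
    (fun l l' => HR X l l' _ _ _ _ (Nat.one_le_pow _ _ (Nat.one_le_pow _ _ (Nat.pos_of_ne_zero hK0)))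
      (param_le C0 n0 B u K l9 l6)) fun I => by
    have := St.main_le hO (by linarith) hμ2 h3 hY1 _ hBd0 (fun i => by
      have := hH1 i
      rwa [← Finset.sum_coe_sort] at this) I
    refine ((le_div_iff₀ hlam0).mpr this).trans ?_
    change _ * (X : ℝ) * Real.exp (_ * (3 * (Real.log (Real.log (2 ^ (E * u ^ 2) : ℕ)) + 3)) + _)
      / _ ≤ _
    generalize Real.log (2 ^ (E * u ^ 2) : ℕ) = y at hY1 hY2
    rw [Real.exp_add, hexp, show 2 * (l : ℝ) * (3 * (Real.log y + 3)) =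
      (6 * l : ℕ) * Real.log y + 18 * l by push_cast; ring, Real.exp_add, Real.exp_nat_mul,
      Real.exp_log (by linarith), Real.exp_add]
    have k1 : y ^ (6 * l) ≤ (81 * E) ^ (6 * l) * lam ^ (c / 2) := by
      refine (pow_le_pow_left₀ (by linarith) hY2 _).trans ?_
      rw [mul_pow, ← pow_mul, show 2 * (6 * l) = 12 * l by ring]
      gcongr
    calc _ ≤ 3 * (1 + 2 * (2 * (l * 2 ^ k))) * (X : ℝ) * ((81 * E) ^ (6 * l) * lam ^ (c / 2) *
          Real.exp (18 * l) * (Real.exp C * (lam * (1 / lam ^ (c / 2) *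
            (1 / lam ^ (c / 2)))))) / lam := by gcongr
      _ = _ := by field_simp
  refine le_trans (by exact_mod_cast St.card_le_res σ _ _ _ _) (hcount.trans ?_)
  have hs2 : 1 + 1 / lam ≤ 2 := by linarith [(div_le_one hlam0).mpr h1]
  have hK2 : (K : ℝ) ^ 2 ≤ 2 ^ (2 * u) := by
    rw [pow_mul']
    exact_mod_cast Nat.pow_le_pow_left l6.le 2
  have hK3 : (2 : ℝ) ^ (2 * u) ≤ (2 * K) ^ 2 := by
    rw [pow_mul']
    exact_mod_cast Nat.pow_le_pow_left l7 2
  rw [add_mul, add_mul, mul_assoc (2 ^ w : ℝ), add_mul]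
  refine add_le_add (add_le_add ?_ ?_) (mul_le_mul_of_nonneg_left (add_le_add ?_ le_rfl)
    (by positivity))
  · have k1 := (le_div_iff₀ hlam0).mpr (hall_tenenbaum τ.pr hO.hp hO.inj (fun _ => 2) 2
      (fun _ => zero_le_two) (fun _ => le_rfl) zero_le_two X h3)
    have k2 := sum_prime_rpow_le τ.pr hO.hp hO.inj univ (by simpa using hlam0) hs2
    rw [add_sub_cancel_left, one_div_one_div] at k2
    rw [← Finset.mul_sum] at k1
    calc _ ≤ 3 * (1 + 2 * 2) * X * Real.exp (2 * (Real.log lam + 3)) / lam / lam ^ 2 := by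
          refine div_le_div₀ (by positivity) (k1.trans ?_) (by positivity) (le_trans ?_ hK2)
          · gcongr
          · gcongr
      _ = 15 * Real.exp 6 * (X / lam) := by
          rw [show 2 * (Real.log lam + 3) = (2 : ℕ) * Real.log lam + 6 by push_cast; ring,
            Real.exp_add, Real.exp_nat_mul, Real.exp_log hlam0]
          field_simp
          norm_num
      _ ≤ _ := by gcongr
  · have k1 := (le_div_iff₀ hlam0).mpr (hall_tenenbaum τ.pr hO.hp hO.inj
      (fun a => (μ * τ.om a)⁻¹) 2 (fun a => inv_nonneg.mpr (mul_nonneg (by linarith) (hO.om0 a)))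
      (fun a => inv_le_of_inv_le₀ two_pos (by
        change _ ≤ μ * σ.om a
        nlinarith [hom a])) zero_le_two X h3)
    rw [← Finset.sum_coe_sort] at hH2
    refine k1.trans ?_
    calc _ ≤ 3 * (1 + 2 * 2) * X * Real.exp ((1 - c) * Real.log lam + C) / lam := by
          gcongr
          exact hH2
      _ = 15 * Real.exp C * (X / lam ^ (c / 2) / lam ^ (c / 2)) := by
          rw [hexp]
          field_simp
          norm_num
      _ ≤ _ := by
          gcongr
          exact div_le_self (by positivity) hrp1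
  · have k1 : ∏ a, (1 + 1 / (τ.pr a : ℝ)) ≤ Real.exp 9 * (K : ℝ) ^ 3 := by
      refine (prod_one_add_le_exp _ _ fun _ _ => by positivity).trans ?_
      have := sum_prime_inv_le _ hO.hp hO.inj univ h1 hX1 fun a _ => by
        exact_mod_cast Nat.lt_succ_iff.mp (mem_range.mp (mem_filter.mp a.2).1)
      refine (Real.exp_le_exp.mpr this).trans ?_
      rw [show 3 * (Real.log lam + 3) = 9 + (3 : ℕ) * Real.log lam by push_cast; ring,
        Real.exp_add, Real.exp_nat_mul, Real.exp_log hlam0]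
      gcongr
    have k2 : ((2 * u : ℕ) : ℝ) + 3 ≤ 5 * K := by
      have : (u : ℝ) ≤ K := by exact_mod_cast l8
      push_cast
      linarith
    calc _ ≤ (2 * K) ^ 2 * (K * (2 * (5 * K) * X / (K ^ B : ℕ)) *
          (Real.exp 9 * (K : ℝ) ^ 3) ^ w) := by gcongr; rfl
      _ = 40 * Real.exp 9 ^ w * (X / K) := by
          rw [hB]
          push_cast
          field_simp
          ring
      _ ≤ _ := by
          refine mul_le_mul_of_nonneg_left (le_trans ?_ hinv) (by positivity)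
          gcongr

end Pool.Agent.P.MP_ab3ecb_nt
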