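import Pool.Agent.P.MP_ab3ecb_nt.Mom3

/-!
The asymptotic form of the moment bound with independent tests.
-/

namespace Pool.Agent.P.MP_ab3ecb_nt

open Polynomial Finset Filter Asymptotics
open scoped Classical IntermediateField

set_option linter.unusedSectionVars false
set_option maxHeartbeats 400000

/-- The function `f` saves a power of the logarithm against the expected order. -/
def Sm (E f : ℕ → ℝ) : Prop :=
  ∃ c C : ℝ, 0 < c ∧ 0 ≤ C ∧ ∀ᶠ X : ℕ in atTop,
    f X ≤ C * (X / Real.log X * Real.exp (E X) / Real.log X ^ c)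

lemma tend_log : Tendsto (fun X : ℕ => Real.log X) atTop atTop :=
  Real.tendsto_log_atTop.comp tendsto_natCast_atTop_atTop

lemma Sm.mono {E f g : ℕ → ℝ} (h : Sm E g) (hfg : ∀ᶠ X in atTop, f X ≤ g X) : Sm E f := by
  obtain ⟨c, C, h1, h2, h3⟩ := h
  exact ⟨c, C, h1, h2, by filter_upwards [h3, hfg] with X k1 k2 using k2.trans k1⟩

lemma Sm.add {E f g : ℕ → ℝ} (h : Sm E f) (h' : Sm E g) : Sm E fun X => f X + g X := by
  obtain ⟨c, C, h1, h2, h3⟩ := h
  obtain ⟨c', C', h1', h2', h3'⟩ := h'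
  refine ⟨min c c', C + C', lt_min h1 h1', add_nonneg h2 h2', ?_⟩
  filter_upwards [h3, h3', tend_log.eventually_ge_atTop 1] with X k1 k2 k3
  have k4 : 0 < Real.log X := by linarith
  rw [add_mul]
  refine add_le_add (k1.trans ?_) (k2.trans ?_)
  · gcongr
    exact min_le_left _ _
  · gcongr
    exact min_le_right _ _

lemma Sm.sum {E : ℕ → ℝ} {κ : Type} (s : Finset κ) (f : κ → ℕ → ℝ) (h : ∀ k ∈ s, Sm E (f k)) :
    Sm E fun X => ∑ k ∈ s, f k X := by
  induction s using Finset.induction_on with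
  | empty => exact ⟨1, 0, one_pos, le_rfl, Eventually.of_forall fun X => by simp⟩
  | insert k s hk ih =>
    simp only [Finset.sum_insert hk]
    exact (h k (mem_insert_self _ _)).add (ih fun k' hk' => h k' (mem_insert_of_mem hk'))

lemma Sm.of_sav {M : ℕ} {E ω f : ℕ → ℝ} (h : Sav M E ω) (hω : ∀ p, 0 ≤ ω p) {C : ℝ} (hC : 0 ≤ C)
    (hf : ∀ᶠ X : ℕ in atTop, f X ≤ C * (X / Real.log X)) : Sm E f := by
  obtain ⟨c, D, h1, h2⟩ := h
  refine ⟨c, C * Real.exp D, h1, by positivity, ?_⟩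
  filter_upwards [h2, hf, tend_log.eventually_gt_atTop 0] with X k1 k2 k3
  have k4 : 0 ≤ ∑ p ∈ Qs M X, ω p / p := Finset.sum_nonneg fun p _ => by have := hω p; positivity
  have k5 : Real.log X ^ c ≤ Real.exp D * Real.exp (E X) := by
    rw [Real.rpow_def_of_pos k3, ← Real.exp_add, Real.exp_le_exp]
    linarith
  refine k2.trans ?_
  rw [mul_assoc, mul_div_assoc, mul_left_comm (Real.exp D), ← mul_div_assoc (Real.exp D)]
  refine mul_le_mul_of_nonneg_left (le_mul_of_one_le_right (by positivity) ?_) hC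
  rwa [one_le_div (by positivity)]

lemma Sm.main {M : ℕ} {E ω : ℕ → ℝ} (h : Sav M E ω) (hω : ∀ p, 0 ≤ ω p) {G D : ℝ}
    (hG : ∀ p, ω p ≤ G) (l : ℕ) {Y : ℕ → ℕ} (hY : ∀ᶠ X : ℕ in atTop, 1 ≤ Real.log (Y X) ∧
      Real.log (Y X) ≤ D * Real.log (Real.log X) ^ 2) :
    Sm E fun X => ∑ s : Finset (Qs M X) with ∏ a ∈ s, a.1 ≤ X,
      ∏ a ∈ s, if Y X < a.1 then ω a.1 else l := by
  obtain ⟨c, C, h1, h2⟩ := h
  have hG0 : 0 ≤ G := (hω 0).trans (hG 0)
  have hlo := tend_log.eventually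
    ((isLittleO_log_rpow_rpow_atTop ((6 * l : ℕ) : ℝ) (half_pos h1)).bound one_pos)
  refine ⟨c / 2, 3 * (1 + 2 * (G + l)) * (|D| ^ (3 * l) * Real.exp (9 * l + C)), half_pos h1,
    by positivity, ?_⟩
  filter_upwards [h2, hY, hlo, tend_log.eventually_ge_atTop 1, eventually_gt_atTop 1]
    with X k1 ⟨k2, k3⟩ hlo k4 k5
  have hp : ∀ a : Qs M X, (a : ℕ).Prime := fun a => (mem_filter.mp a.2).2.1
  have hl0 : 0 < Real.log X := by linarith
  have hll := Real.log_nonneg k4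
  have k6 := hall_tenenbaum (fun a : Qs M X => (a : ℕ)) hp Subtype.val_injective
    (fun a => if Y X < (a : ℕ) then ω a else l) (G + l)
    (fun a => by split_ifs; exacts [hω _, Nat.cast_nonneg _])
    (fun a => by
      split_ifs
      · exact le_add_of_le_of_nonneg (hG _) (Nat.cast_nonneg _)
      · exact le_add_of_nonneg_left hG0) (by positivity) X k5
  have hY0 : (1 : ℝ) < Y X := by
    by_contra hcon
    linarith [Real.log_nonpos (Nat.cast_nonneg _) (not_lt.mp hcon)]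
  have k7 := sum_prime_inv_le (fun a : Qs M X => (a : ℕ)) hp Subtype.val_injective
    (univ.filter fun a => ¬ Y X < (a : ℕ)) k2 hY0
    fun a ha => by exact_mod_cast not_lt.mp (mem_filter.mp ha).2
  have k8 : ∑ a : Qs M X, (if Y X < (a : ℕ) then ω a else l) *
      ((a : ℕ) : ℝ) ^ (-(1 + 1 / Real.log X)) ≤ l * (3 * (Real.log (Real.log (Y X)) + 3)) +
        (E X - c * Real.log (Real.log X) + C) := by
    refine le_trans ?_ (add_le_add (mul_le_mul_of_nonneg_left k7 (Nat.cast_nonneg l)) k1)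
    rw [← Finset.sum_coe_sort (Qs M X), Finset.sum_filter, Finset.mul_sum,
      ← Finset.sum_add_distrib]
    refine Finset.sum_le_sum fun a _ => ?_
    have e : ((a : ℕ) : ℝ) ^ (-(1 + 1 / Real.log X)) ≤ 1 / ((a : ℕ) : ℝ) := by
      rw [one_div ((a : ℕ) : ℝ), ← Real.rpow_neg_one]
      refine Real.rpow_le_rpow_of_exponent_le (by exact_mod_cast (hp a).one_le) ?_
      have : 0 < 1 / Real.log X := by positivity
      linarith
    have := hω a
    by_cases hb : Y X < (a : ℕ)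
    · simp only [hb, if_true, not_true, if_false, mul_zero, zero_add]
      exact (mul_le_mul_of_nonneg_left e this).trans_eq (mul_one_div _ _)
    · simp only [hb, if_false, not_false_eq_true, if_true]
      refine le_add_of_le_of_nonneg ?_ (by positivity)
      gcongr
  refine ((le_div_iff₀ hl0).mpr k6).trans ?_
  rw [Real.norm_of_nonneg (by positivity), Real.norm_of_nonneg (by positivity), one_mul,
    Real.rpow_natCast] at hlo
  generalize Real.log (Y X) = y at k2 k3 k8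
  generalize Real.log X = lam at *
  have k9 : y ^ (3 * l) ≤ |D| ^ (3 * l) * lam ^ (c / 2) := by
    refine (pow_le_pow_left₀ (by linarith) (k3.trans (mul_le_mul_of_nonneg_right (le_abs_self D)
      (by positivity))) _).trans ?_
    rw [mul_pow, ← pow_mul, show 2 * (3 * l) = 6 * l by ring]
    gcongr
  have k10 : Real.exp (l * (3 * (Real.log y + 3)) + (E X - c * Real.log lam + C)) =
      y ^ (3 * l) * Real.exp (9 * l + C) * Real.exp (E X) / (lam ^ (c / 2) * lam ^ (c / 2)) := by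
    rw [← Real.rpow_add hl0, add_halves, Real.rpow_def_of_pos hl0, ← Real.exp_log (by positivity :
      0 < y ^ (3 * l)), Real.log_pow, ← Real.exp_add, ← Real.exp_add, ← Real.exp_sub]
    congr 1
    push_cast
    ring
  have hrp : 0 < lam ^ (c / 2) := by positivity
  calc _ ≤ 3 * (1 + 2 * (G + l)) * X * (|D| ^ (3 * l) * lam ^ (c / 2) * Real.exp (9 * l + C) *
        Real.exp (E X) / (lam ^ (c / 2) * lam ^ (c / 2))) / lam := by
        gcongr
        refine (Real.exp_le_exp.mpr k8).trans (k10.le.trans ?_)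
        gcongr
    _ = _ := by field_simp

lemma params3 : ∀ᶠ X : ℕ in atTop, 1 < X ∧ 1 ≤ Real.log X ∧ ∀ K u : ℕ, K = Nat.log 2 X + 1 →
    u = Nat.log 2 K + 1 → Real.log X ≤ K ∧ X < 2 ^ K ∧ K < 2 ^ u ∧ u ≤ K ∧ 1 ≤ u ∧
      u ≤ 9 * Real.log (Real.log X) := by
  filter_upwards [tend_log.eventually_ge_atTop 1,
    (Real.tendsto_log_atTop.comp tend_log).eventually_ge_atTop 1, eventually_gt_atTop 1]
    with X h1 h2 h3
  refine ⟨h3, h1, fun K u hK hu => ?_⟩
  obtain ⟨l1, l2⟩ := log_two_le (by omega) h1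
  rw [← hK] at l1 l2
  have hK0 : K ≠ 0 := by omega
  have hl0 : 0 < Real.log X := by linarith
  obtain ⟨-, l5⟩ := log_two_le hK0 (le_trans h2 (Real.log_le_log hl0 l1))
  rw [← hu] at l5
  refine ⟨l1, hK ▸ Nat.lt_pow_succ_log_self one_lt_two X,
    hu ▸ Nat.lt_pow_succ_log_self one_lt_two K, hu ▸ Nat.log_lt_self 2 hK0, by omega, ?_⟩
  have k1 := Real.log_le_log (by linarith) l2
  rw [Real.log_mul (by norm_num) hl0.ne'] at k1
  change 1 ≤ Real.log (Real.log X) at h2
  linarith [Real.log_le_sub_one_of_pos (by norm_num : (0 : ℝ) < 3)]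

/-- Restriction to a finite set of primes. -/
def S3.res {L J : Type} (σ : S3 L J ℕ) (P : Finset ℕ) (Y X N : ℕ) : T3 L J P :=
  ⟨⟨σ.gens, fun a => σ.R a, fun a => σ.sg a, fun a l j b l' => σ.ψ a l j b l'⟩, fun a => a, Y, X, N⟩

lemma S3.card_le_res {L J : Type} (σ : S3 L J ℕ) (P : Finset ℕ) (Y X N : ℕ) :
    (P.powerset.filter fun s => ∏ p ∈ s, p ≤ X ∧ σ.Surv s).card ≤ (univ.filter fun s : Finset P =>
      ∏ a ∈ s, (σ.res P Y X N).pr a ≤ (σ.res P Y X N).X ∧ (σ.res P Y X N).Surv s).card := by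
  refine Finset.card_le_card_of_injOn (fun s => s.subtype (· ∈ P)) ?_ ?_
  · intro s hs
    obtain ⟨h1, h2, lab, h3⟩ := mem_filter.mp (mem_coe.mp hs)
    have h4 : ∀ p ∈ s, p ∈ P := fun p hp => mem_powerset.mp h1 hp
    refine mem_coe.mpr (mem_filter.mpr ⟨mem_univ _, ?_, fun a => lab a, fun a ha =>
      ⟨(h3 a (mem_subtype.mp ha)).1, fun j hj => ?_⟩⟩)
    · exact (Finset.prod_subtype_of_mem (fun p => p) h4).trans_le h2
    · refine Eq.trans (congrArg _ ?_) ((h3 a (mem_subtype.mp ha)).2 j hj)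
      refine Finset.prod_bij (fun b _ => (b : ℕ)) (fun b hb => ?_)
        (fun _ _ _ _ h => Subtype.ext h) (fun b hb => ?_) fun _ _ => rfl
      · simp only [mem_erase, mem_subtype] at hb ⊢
        exact ⟨fun h => hb.1 (Subtype.ext h), hb.2⟩
      · simp only [mem_erase, mem_subtype] at hb ⊢
        exact ⟨⟨b, h4 b hb.2⟩, ⟨fun h => hb.1 (congrArg Subtype.val h), hb.2⟩, rfl⟩
  · intro s hs t ht h
    have h1 := mem_powerset.mp (mem_filter.mp (mem_coe.mp hs)).1
    have h2 := mem_powerset.mp (mem_filter.mp (mem_coe.mp ht)).1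
    rw [← Finset.subtype_map_of_mem (fun p hp => h1 hp),
      ← Finset.subtype_map_of_mem (fun p hp => h2 hp)]
    simp only at h
    rw [h]

/-- MOM (files Mom3.lean, Dens3.lean). -/
theorem moment3 {L J : Type} [Fintype L] [Fintype J] (σ : S3 L J ℕ) (M : ℕ) (E : ℕ → ℝ)
    (ok : Finset L → Prop) (lk : L × Finset J × Bool → L × Finset J × Bool → Prop)
    (hsg : ∀ a l j, |σ.sg a l j| ≤ 1) (hψ : ∀ a l j b l', |σ.ψ a l j b l'| ≤ 1)
    (h1 : ∀ Λ, ¬ ok Λ → Sav M E fun p => if Disjoint (σ.R p) Λ then 0 else 1)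
    (h2 : ∀ U : Finset (L × Finset J × Bool), ok (U.image Prod.fst) →
      (∀ u ∈ U, ∀ v ∈ U, ¬ lk u v) → Sav M E fun p =>
        ∑ w ∈ U with w.1 ∈ σ.R p ∧ w.2.1 ⊆ σ.gens w.1, (1 / 2 : ℝ) ^ ((σ.gens w.1).card + 1))
    (C0 n0 : ℕ) (hR : ∀ u v, lk u v → u.2.1 ⊆ σ.gens u.1 → v.2.1 ⊆ σ.gens v.1 →
      u ≠ v ∧ ∃ κ : ℕ → ℕ → ℝ, (∀ a, κ a a = 0) ∧ (∀ a b, |κ a b| ≤ 1) ∧
        (∀ a b, a.Prime → ¬ a ∣ M → b.Prime → ¬ b ∣ M → a ≠ b → u.1 ∈ σ.R a → v.1 ∈ σ.R b →
          (∏ j ∈ u.2.1, σ.ψ a u.1 j b v.1) * ∏ j ∈ v.2.1, σ.ψ b v.1 j a u.1 = κ a b) ∧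
        ∀ X R Z K Y, 1 ≤ Z → (Z ^ 2 * C0 ^ (R + 1) * (C0 * K * R + 1) ^ R) ^ n0 ≤ Y →
          Rect (fun a : Qs M X => (a : ℕ)) (fun a b => κ a b) (fun a => u.1 ∈ σ.R a)
            (fun a => v.1 ∈ σ.R a) R Z K Y) :
    ∃ c : ℝ, 0 < c ∧ (fun X : ℕ =>
      (((Qs M X).powerset.filter fun s => ∏ p ∈ s, p ≤ X ∧ σ.Surv s).card : ℝ)) =O[atTop]
        fun X : ℕ => X / Real.log X * Real.exp (E X) / Real.log X ^ c := by
  set w := Fintype.card (L × Finset J × Bool) with hw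
  set B : ℕ := 3 * w + 3 with hB
  set D : ℕ := n0 * (4 * B + 5 * C0 + 8) + B + 2 with hD
  set K : ℕ → ℕ := fun X => Nat.log 2 X + 1 with hK
  set u : ℕ → ℕ := fun X => Nat.log 2 (K X) + 1 with hu
  set τ : ∀ X : ℕ, T3 L J (Qs M X) := fun X => σ.res (Qs M X) (2 ^ (D * u X ^ 2)) X (2 * u X)
    with hτ
  have hO : ∀ X, (τ X).OK := fun X => ⟨fun _ _ _ => hsg _ _ _, fun _ _ _ _ _ => hψ _ _ _ _ _,
    fun a => (mem_filter.mp a.2).2.1, Subtype.val_injective⟩
  obtain ⟨ω0, s0, hω0⟩ : ∃ ω, Sav M E ω ∧ ∀ p, 0 ≤ ω p := by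
    by_cases h : ok ∅
    · exact ⟨_, h2 ∅ (by simpa using h) (by simp), fun p => by positivity⟩
    · exact ⟨_, h1 ∅ h, fun p => by positivity⟩
  have hpar : ∀ᶠ X : ℕ in atTop, 1 < X ∧ 1 ≤ Real.log X ∧ Real.log X ≤ K X ∧ X < 2 ^ K X ∧
      K X < 2 ^ u X ∧ u X ≤ K X ∧ 1 ≤ u X ∧ u X ≤ 9 * Real.log (Real.log X) := by
    filter_upwards [params3] with X h using ⟨h.1, h.2.1, h.2.2 _ _ rfl rfl⟩
  have hY : ∀ᶠ X : ℕ in atTop, 1 ≤ Real.log (2 ^ (D * u X ^ 2) : ℕ) ∧
      Real.log (2 ^ (D * u X ^ 2) : ℕ) ≤ 81 * D * Real.log (Real.log X) ^ 2 := by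
    filter_upwards [hpar] with X ⟨_, _, _, _, _, _, l9, hu⟩
    have hu1 : (1 : ℝ) ≤ u X := by exact_mod_cast l9
    have hE2 : (2 : ℝ) ≤ D := by exact_mod_cast (by omega : 2 ≤ D)
    have hEu : (2 : ℝ) ≤ D * u X ^ 2 := by nlinarith
    have : (u X : ℝ) ^ 2 ≤ (9 * Real.log (Real.log X)) ^ 2 := by gcongr
    rw [Nat.cast_pow, Real.log_pow]
    push_cast
    exact ⟨by nlinarith [Real.log_two_gt_d9], by nlinarith [Real.log_two_lt_d9]⟩
  have a1 : Sm E fun X => (∑ s : Finset (Qs M X) with ∏ a ∈ s, (τ X).pr a ≤ (τ X).X,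
      ∏ _a ∈ s, (2 : ℝ)) / 2 ^ (τ X).N := by
    refine Sm.of_sav s0 hω0 (C := 15 * Real.exp 6) (by positivity) ?_
    filter_upwards [hpar] with X ⟨h3, h1, l1, _, l6, _⟩
    have hl0 : 0 < Real.log X := by linarith
    have k1 := (le_div_iff₀ hl0).mpr (hall_tenenbaum (τ X).pr (hO X).hp (hO X).inj (fun _ => 2) 2
      (fun _ => zero_le_two) (fun _ => le_rfl) zero_le_two X h3)
    have k2 := sum_prime_rpow_le (τ X).pr (hO X).hp (hO X).inj univ (σ := 1 + 1 / Real.log X)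
      (by simpa using hl0) (by linarith [(div_le_one hl0).mpr h1])
    rw [add_sub_cancel_left, one_div_one_div] at k2
    rw [← Finset.mul_sum] at k1
    have hK2 : (K X : ℝ) ^ 2 ≤ 2 ^ (2 * u X) := by
      rw [pow_mul']
      exact_mod_cast Nat.pow_le_pow_left l6.le 2
    generalize Real.log X = lam at *
    calc _ ≤ 3 * (1 + 2 * 2) * X * Real.exp (2 * (Real.log lam + 3)) / lam / lam ^ 2 := by
          refine div_le_div₀ (by positivity) (k1.trans ?_) (by positivity) (le_trans ?_ hK2)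
          · gcongr
          · gcongr
      _ = 15 * Real.exp 6 * (X / lam) := by
          rw [show 2 * (Real.log lam + 3) = (2 : ℕ) * Real.log lam + 6 by push_cast; ring,
            Real.exp_add, Real.exp_nat_mul, Real.exp_log hl0]
          field_simp
          norm_num
  have a2 : ∀ Λ, ¬ ok Λ → Sm E fun X => ∑ s : Finset (Qs M X) with
      ∏ a ∈ s, (τ X).pr a ≤ (τ X).X, ∏ a ∈ s, (τ X).gl Λ a := fun Λ h =>
    ((Sm.main (h1 Λ h) (fun p => by positivity) (G := 1) (fun p => by split_ifs <;> norm_num) 1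
      hY).mono (Eventually.of_forall fun X => le_of_eq (Finset.sum_congr rfl fun s _ =>
        Finset.prod_congr rfl fun a _ => if_congr Iff.rfl rfl Nat.cast_one.symm)))
  have a3 : ∀ U : Finset (L × Finset J × Bool), ok (U.image Prod.fst) →
      Sm E fun X => (τ X).TT U := by
    intro U hU
    by_cases hl : ∀ u ∈ U, ∀ v ∈ U, ¬ lk u v
    · refine (Sm.main (h2 U hU hl) (fun p => by positivity) (G := U.card) (fun p => ?_)
        (Fintype.card L) hY).mono (Eventually.of_forall fun X => (T3.main_bound (hO X) U).trans ?_)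
      · refine (Finset.sum_le_card_nsmul _ _ 1 fun _ _ =>
          pow_le_one₀ (by norm_num) (by norm_num)).trans ?_
        rw [nsmul_eq_mul, mul_one, Nat.cast_le]
        exact card_filter_le _ _
      · rw [Finset.sum_filter]
        refine Finset.sum_le_sum fun s _ => ?_
        have k1 : 0 ≤ ∏ a ∈ s, (τ X).gm U a := Finset.prod_nonneg fun a _ => by
          unfold T3.gm
          split_ifs <;> positivity
        unfold T3.cut
        change (if ∏ a ∈ s, a.1 ≤ X then _ else _) * _ ≤ _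
        split_ifs
        · refine (mul_le_of_le_one_left k1 (T3.h_le _)).trans (le_of_eq ?_)
          exact Finset.prod_congr rfl fun a _ => if_congr Iff.rfl rfl rfl
        · rw [zero_mul]
    simp only [not_forall, not_not] at hl
    obtain ⟨x, hx, y, hy, hl⟩ := hl
    refine Sm.of_sav s0 hω0 (C := 10 * Real.exp 9 ^ w) (by positivity) ?_
    filter_upwards [hpar] with X ⟨h3, h1, l1, l3, l6, l8, l9, _⟩
    have hl0 : 0 < Real.log X := by linarith
    by_cases hxg : x.2.1 ⊆ σ.gens x.1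
    swap
    · rw [T3.TT_zero (σ := τ X) hx hxg]
      positivity
    by_cases hyg : y.2.1 ⊆ σ.gens y.1
    swap
    · rw [T3.TT_zero (σ := τ X) hy hyg]
      positivity
    obtain ⟨hxy, κ, k0, k1, k2, k3⟩ := hR x y hl hxg hyg
    have hK0 : 0 < K X := Nat.succ_pos _
    refine (T3.error_bound (hO X) (m := K X ^ B) (K := K X) (Nat.one_le_pow _ _ hK0) ?_ l3 U hx hy
      hxy (κ := fun a b => κ a b) (fun a => k0 a) (fun a b => k1 a b) (fun a b hab =>
        k2 a b (mem_filter.mp a.2).2.1 (mem_filter.mp a.2).2.2 (mem_filter.mp b.2).2.1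
          (mem_filter.mp b.2).2.2 fun h => hab (Subtype.ext h))
      (k3 X _ _ _ _ (Nat.one_le_pow _ _ (Nat.one_le_pow _ _ hK0))
        (param_le C0 n0 B (u X) (K X) l9 l6))).trans ?_
    · refine (Nat.pow_le_pow_left l6.le B).trans ?_
      rw [← pow_mul]
      exact Nat.pow_le_pow_right two_pos ((mul_comm (u X) B).le.trans
        (Nat.mul_le_mul (by omega) (Nat.le_self_pow two_ne_zero (u X))))
    have hK1 : (1 : ℝ) ≤ K X := h1.trans l1
    have k4 : ∏ a, (1 + 1 / ((τ X).pr a : ℝ)) ≤ Real.exp 9 * (K X : ℝ) ^ 3 := by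
      refine (prod_one_add_le_exp _ _ fun _ _ => by positivity).trans ?_
      have := sum_prime_inv_le _ (hO X).hp (hO X).inj univ h1 (by exact_mod_cast h3) fun a _ => by
        exact_mod_cast Nat.lt_succ_iff.mp (mem_range.mp (mem_filter.mp a.2).1)
      refine (Real.exp_le_exp.mpr this).trans ?_
      rw [show 3 * (Real.log (Real.log X) + 3) = 9 + (3 : ℕ) * Real.log (Real.log X) by
        push_cast; ring, Real.exp_add, Real.exp_nat_mul, Real.exp_log hl0]
      gcongr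
    have k5 : (((τ X).N : ℕ) : ℝ) + 3 ≤ 5 * K X := by
      have : (u X : ℝ) ≤ K X := by exact_mod_cast l8
      change ((2 * u X : ℕ) : ℝ) + 3 ≤ _
      push_cast
      linarith
    calc _ ≤ K X * (2 * (5 * K X) * X / (K X ^ B : ℕ)) * (Real.exp 9 * (K X : ℝ) ^ 3) ^ w := by
          gcongr
          rfl
      _ = 10 * Real.exp 9 ^ w * (X / K X) := by
          rw [hB]
          push_cast
          field_simp
          ring
      _ ≤ _ := by gcongr
  obtain ⟨c, C, c0, -, hC⟩ := ((a1.add (Sm.sum _ _ fun Λ h => a2 Λ (mem_filter.mp h).2)).add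
    (Sm.sum _ _ fun U h => a3 U (mem_filter.mp h).2)).mono (Eventually.of_forall fun X =>
      le_trans (Nat.cast_le.mpr (σ.card_le_res (Qs M X) _ _ _)) (T3.surv_le (hO X) ok))
  refine ⟨c, c0, IsBigO.of_bound C ?_⟩
  filter_upwards [hC, tend_log.eventually_gt_atTop 0] with X k1 k2
  rwa [Real.norm_natCast, Real.norm_of_nonneg (by positivity)]

end Pool.Agent.P.MP_ab3ecb_nt
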