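import Pool.Agent.P.MP_ab3ecb_nt.Points

/-!
A root of `f` in a completion gives a point of every twist.
-/

namespace Pool.Agent.P.MP_ab3ecb_nt

open Polynomial

set_option maxHeartbeats 400000

variable {F : Type} [Field F] [CharZero F]

lemma IsTwist.repr {f : ℚ[X]} {d : ℤ} (hd : d ≠ 0) {x y : F} (h : IsTwist f d x y) (z : F) :
    ∃ a b c : ℚ[X], c ≠ 0 ∧ z * aeval x c = aeval x a + aeval x b * y := by
  obtain ⟨h1, h2, h3⟩ := h
  have hinj : ∀ c : ℚ[X], aeval x c = 0 → c = 0 := fun c hc => by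
    by_contra h0
    exact h1 ⟨c, h0, hc⟩
  have hy : y ^ 2 = aeval x (C (d : ℚ)⁻¹ * f) := by
    have : (d : F) ≠ 0 := Int.cast_ne_zero.mpr hd
    rw [map_mul, ← h2]
    simp [this]
  have hz : z ∈ Subfield.closure {x, y} := h3 ▸ Subfield.mem_top z
  induction hz using Subfield.closure_induction with
  | mem z hz =>
    rcases hz with rfl | rfl
    · exact ⟨X, 0, 1, one_ne_zero, by simp⟩
    · exact ⟨0, 1, 1, one_ne_zero, by simp⟩
  | one => exact ⟨1, 0, 1, one_ne_zero, by simp⟩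
  | add z w _ _ hz hw =>
    obtain ⟨a, b, c, hc, e⟩ := hz
    obtain ⟨a', b', c', hc', e'⟩ := hw
    refine ⟨a * c' + a' * c, b * c' + b' * c, c * c', mul_ne_zero hc hc', ?_⟩
    simp only [map_add, map_mul]
    linear_combination aeval x c' * e + aeval x c * e'
  | neg z _ hz =>
    obtain ⟨a, b, c, hc, e⟩ := hz
    refine ⟨-a, -b, c, hc, ?_⟩
    simp only [map_neg]
    linear_combination -e
  | inv z _ hz =>
    obtain ⟨a, b, c, hc, e⟩ := hz
    by_cases hz0 : z = 0
    · exact ⟨0, 0, 1, one_ne_zero, by simp [hz0]⟩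
    have hc' : aeval x c ≠ 0 := fun h => hc (hinj c h)
    by_cases h4 : aeval x a - aeval x b * y = 0
    · refine ⟨c, 0, 2 * a, fun h => ?_, ?_⟩
      · have : aeval x a = 0 := by rw [(mul_eq_zero.mp h).resolve_left two_ne_zero, map_zero]
        apply mul_ne_zero hz0 hc'
        linear_combination e - h4 + 2 * this
      · simp only [map_mul, map_zero, map_ofNat]
        field_simp
        linear_combination h4 - e
    · refine ⟨c * a, -(c * b), a ^ 2 - b ^ 2 * (C (d : ℚ)⁻¹ * f), fun h => ?_, ?_⟩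
      · have := congrArg (aeval x) h
        rw [map_sub, map_mul, ← hy, map_pow, map_pow, map_zero] at this
        apply mul_ne_zero (mul_ne_zero hz0 hc') h4
        linear_combination (aeval x a - aeval x b * y) * e + this
      · rw [map_sub, map_mul _ (b ^ 2), ← hy]
        simp only [map_mul, map_pow, map_neg]
        field_simp
        linear_combination (aeval x b * y - aeval x a) * e
  | mul z w _ _ hz hw =>
    obtain ⟨a, b, c, hc, e⟩ := hz
    obtain ⟨a', b', c', hc', e'⟩ := hw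
    refine ⟨a * a' + b * b' * (C (d : ℚ)⁻¹ * f), a * b' + a' * b, c * c', mul_ne_zero hc hc', ?_⟩
    rw [map_add, map_mul _ (b * b'), ← hy]
    simp only [map_add, map_mul]
    linear_combination (w * aeval x c') * e + (aeval x a + aeval x b * y) * e'

theorem exists_pt' {f : ℚ[X]} {d : ℤ} (hd : d ≠ 0) {x y : F}
    (h : IsTwist f d x y) {K : Type} [Field K] [CharZero K] {t : K} (ht : aeval t f = 0)
    (hf : ¬ minpoly ℚ t * minpoly ℚ t ∣ f) : Nonempty (Pt F K) := by
  have hint : IsIntegral ℚ t :=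
    (show IsAlgebraic ℚ t from ⟨f, fun h => hf (h ▸ dvd_zero _), ht⟩).isIntegral
  have hm := minpoly.irreducible hint
  obtain ⟨H, hH⟩ := minpoly.dvd ℚ t ht
  set m := minpoly ℚ t with hmdef
  have hmH : ¬ m ∣ H := fun h => hf (hH ▸ mul_dvd_mul_left m h)
  have hinj : ∀ c : ℚ[X], aeval x c = 0 → c = 0 := fun c hc => by
    by_contra h0
    exact h.1 ⟨c, h0, hc⟩
  obtain ⟨O, hO1, hO2⟩ := Ideal.image_subset_nonunits_valuationSubring
    (A := (aeval x : ℚ[X] →ₐ[ℚ] F).range.toSubring) (Ideal.span {⟨aeval x m, m, rfl⟩}) (by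
      rw [Ne, Ideal.span_singleton_eq_top]
      intro hu
      obtain ⟨⟨_, q, rfl⟩, hq⟩ := hu.exists_right_inv
      have h1 : aeval x m * aeval x q = 1 := congrArg Subtype.val hq
      have h2 := hinj (m * q - 1) (by rw [map_sub, map_mul, h1, map_one, sub_self])
      exact hm.not_isUnit (IsUnit.of_mul_eq_one q (sub_eq_zero.mp h2)))
  let ev : ℚ[X] →+* O := (aeval x : ℚ[X] →ₐ[ℚ] F).toRingHom.codRestrict O.toSubring
    fun q => hO1 ⟨q, rfl⟩
  have hev : ∀ q, (ev q : F) = aeval x q := fun q => rfl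
  let r := (IsLocalRing.residue O).comp ev
  have hr : ∀ q, r q = IsLocalRing.residue O (ev q) := fun q => rfl
  have hrm : r m = 0 := by
    rw [hr, IsLocalRing.residue_eq_zero_iff]
    have := hO2 ⟨_, Ideal.mem_span_singleton_self _, rfl⟩
    exact (ValuationSubring.coe_mem_nonunits_iff (a := ev m)).mp this
  have hcop : ∀ q, ¬ m ∣ q → ∃ w, r w * r q = 1 := by
    intro q hq
    obtain ⟨u, w, huw⟩ := (hm.coprime_iff_not_dvd).mpr hq
    refine ⟨w, ?_⟩
    have := congrArg r huw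
    rwa [map_add, map_mul, map_mul, hrm, mul_zero, zero_add, map_one] at this
  have hker : ∀ q, r q = 0 → m ∣ q := by
    intro q hq
    by_contra h1
    obtain ⟨w, hw⟩ := hcop q h1
    rw [hq, mul_zero] at hw
    exact zero_ne_one hw
  have hdF : (d : F) ≠ 0 := Int.cast_ne_zero.mpr hd
  have hy2 : y ^ 2 = aeval x (C (d : ℚ)⁻¹ * f) := by
    rw [map_mul, ← h.2.1]
    simp [hdF]
  have hy : y ∈ O := mem_of_sq_mem O (hy2 ▸ (ev _).2)
  set Y : O := ⟨y, hy⟩ with hY
  have hY2 : ev (C (d : ℚ)) * Y ^ 2 = ev m * ev H := by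
    apply Subtype.ext
    change aeval x (C (d : ℚ)) * y ^ 2 = aeval x m * aeval x H
    rw [← map_mul, ← hH, ← h.2.1]
    simp
  have hY0 : IsLocalRing.residue O Y = 0 := by
    have : Y ^ 2 = ev (C (d : ℚ)⁻¹ * f) := Subtype.ext hy2
    apply pow_eq_zero_iff (two_ne_zero) |>.mp
    rw [← map_pow, this, ← hr, hH, map_mul, map_mul, hrm, zero_mul, mul_zero]
  have hm0 : ev m ≠ 0 := fun h => hm.ne_zero (hinj m (congrArg Subtype.val h))
  have hYne : Y ≠ 0 := by
    intro h0
    rw [h0] at hY2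
    have h1 : ev H = 0 := by simpa [hm0] using hY2.symm
    exact hmH (hker H (by rw [hr, h1, map_zero]))
  have hHu : IsUnit (ev H) := by
    rw [← IsLocalRing.residue_ne_zero_iff_isUnit]
    exact fun h => hmH (hker H h)
  obtain ⟨H', hH'⟩ := hHu.exists_right_inv
  have key : ∀ (n : ℕ) (z : O) (a b c : ℚ[X]), ¬ m ∣ c →
      z * ev m ^ n * ev c = ev a + ev b * Y → ∃ q, r q = IsLocalRing.residue O z := by
    intro n z
    induction n with
    | zero =>
      intro a b c hc e
      obtain ⟨w, hw⟩ := hcop c hc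
      have := congrArg (IsLocalRing.residue O) e
      rw [pow_zero, mul_one, map_mul, map_add, map_mul, hY0, mul_zero, add_zero, ← hr, ← hr] at this
      exact ⟨a * w, by rw [map_mul, ← this, mul_assoc, mul_comm (r c), hw, mul_one]⟩
    | succ n ih =>
      intro a b c hc e
      have h1 := congrArg (IsLocalRing.residue O) e
      rw [map_mul, map_mul, map_pow, map_add, map_mul, hY0, mul_zero, add_zero, ← hr, ← hr, ← hr,
        hrm, zero_pow (Nat.succ_ne_zero n), mul_zero, zero_mul] at h1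
      obtain ⟨a1, rfl⟩ := hker a h1.symm
      have h2 : ev b = Y * (ev (C (d : ℚ)) * H' * (z * ev m ^ n * ev c - ev a1)) := by
        apply mul_right_cancel₀ hYne
        rw [map_mul] at e
        linear_combination -e - (H' * (z * ev m ^ n * ev c - ev a1)) * hY2
          - (ev m * (z * ev m ^ n * ev c - ev a1)) * hH'
      obtain ⟨b1, rfl⟩ := hker b (by rw [hr, h2, map_mul, hY0, zero_mul])
      refine ih a1 b1 c hc (mul_left_cancel₀ hm0 ?_)
      rw [map_mul, map_mul] at e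
      linear_combination e
  have hsurj : Function.Surjective r := by
    intro w
    obtain ⟨z, rfl⟩ := IsLocalRing.residue_surjective w
    obtain ⟨a, b, c, hc, e⟩ := h.repr hd z
    obtain ⟨n, c', hc', rfl⟩ := WfDvdMonoid.max_power_factor hc hm
    refine key n z a b c' hc' (Subtype.ext ?_)
    rw [map_mul, map_pow, ← mul_assoc] at e
    exact e
  let ψ := RingHom.liftOfSurjective r hsurj ⟨(aeval t : ℚ[X] →ₐ[ℚ] K).toRingHom, fun q hq => by
    obtain ⟨q', rfl⟩ := hker q hq
    simp [hmdef]⟩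
  refine ⟨⟨O, ψ.comp (IsLocalRing.residue O), ⟨fun z hz => ?_⟩⟩⟩
  rw [← IsLocalRing.residue_ne_zero_iff_isUnit]
  intro h0
  rw [RingHom.comp_apply, h0, map_zero] at hz
  exact not_isUnit_zero hz

theorem exists_pt {f : ℚ[X]} (hf : Squarefree f) {d : ℤ} (hd : d ≠ 0) {x y : F}
    (h : IsTwist f d x y) {K : Type} [Field K] [CharZero K] {t : K} (ht : aeval t f = 0) :
    Nonempty (Pt F K) :=
  exists_pt' hd h ht fun h1 => (minpoly.irreducible (show IsAlgebraic ℚ t from
    ⟨f, hf.ne_zero, ht⟩).isIntegral).not_isUnit (hf _ h1)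

theorem exists_rat {f : ℚ[X]} (hf : Squarefree f) {d : ℤ} (hd : d ≠ 0) {x y : F}
    (h : IsTwist f d x y) (hr : Odd f.natDegree ∨ ∃ t : ℚ, f.eval t = 0) : Nonempty (Pt F ℚ) := by
  rcases hr with ⟨k, hk⟩ | ⟨t, ht⟩
  swap
  · exact exists_pt hf hd h (t := t) (by
      rw [← ht, aeval_def, ← eval₂_id]
      exact congrArg (fun φ => eval₂ φ t f) (RingHom.ext_rat _ _))
  obtain ⟨h1, h2, h3⟩ := h
  have hx : x ≠ 0 := fun h0 => h1 (h0 ▸ isAlgebraic_zero)
  have := invertibleOfNonzero hx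
  have h4 := eval₂_reverse_mul_pow (algebraMap ℚ F) x f
  rw [invOf_eq_inv, ← aeval_def, ← aeval_def, hk, ← h2] at h4
  refine exists_pt' (f := X * f.reverse) (x := x⁻¹) (y := y / x ^ (k + 1)) (t := (0 : ℚ)) hd
    ⟨fun h5 => h1 (IsAlgebraic.inv_iff.mp h5), ?_, ?_⟩ (by simp) fun h5 => ?_
  · rw [map_mul, aeval_X, div_pow, ← mul_div_assoc, ← h4]
    field_simp
    ring
  · rw [eq_top_iff, ← h3, Subfield.closure_le]
    have h6 : x ∈ Subfield.closure {x⁻¹, y / x ^ (k + 1)} := by
      simpa using inv_mem (Subfield.subset_closure (s := {x⁻¹, y / x ^ (k + 1)}) (Or.inl rfl))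
    rintro z (rfl | rfl)
    · exact h6
    · simpa [hx] using mul_mem (Subfield.subset_closure (s := {x⁻¹, z / x ^ (k + 1)}) (Or.inr rfl))
        (pow_mem h6 (k + 1))
  · rw [minpoly.zero, mul_dvd_mul_iff_left X_ne_zero, X_dvd_iff, coeff_zero_reverse] at h5
    exact hf.ne_zero (leadingCoeff_eq_zero.mp h5)

theorem exists_adelic {f : ℚ[X]} (hf : Squarefree f) (hr : RootsEverywhere f) {d : ℤ}
    (hd : d ≠ 0) {x y : F} (h : IsTwist f d x y) : Nonempty (Adelic F) := by
  obtain ⟨⟨t, ht⟩, h2⟩ := hr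
  obtain ⟨P⟩ := exists_pt hf hd h ht
  refine ⟨⟨P, fun p => Classical.choice ?_⟩⟩
  have : Fact (p : ℕ).Prime := ⟨p.2⟩
  obtain ⟨t, ht⟩ := h2 p
  exact exists_pt hf hd h ht

end Pool.Agent.P.MP_ab3ecb_nt
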