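import Pool.Agent.P.MP_ab3ecb_nt.NF

/-!
Reductions of an order and degree one primes of its fraction field.
-/

namespace Pool.Agent.P.MP_ab3ecb_nt

open NumberField

set_option maxHeartbeats 400000

lemma card_hom_eq_idl (K : Type) [Field K] [NumberField K] {p : ℕ} (hp : p.Prime) :
    Nat.card (𝓞 K →+* ZMod p) = (idl K p).card := by
  rw [← Nat.card_eq_finsetCard]
  refine Nat.card_congr (Equiv.ofBijective
    (fun ψ => (⟨RingHom.ker ψ, ker_mem_idl ψ⟩ : idl K p)) ⟨fun ψ ψ' h => ?_, ?_⟩)
  · have h1 : RingHom.ker ψ = RingHom.ker ψ' := congrArg Subtype.val h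
    ext z
    obtain ⟨n, hn⟩ := ZMod.intCast_surjective (ψ z)
    have h2 : z - n ∈ RingHom.ker ψ := by
      rw [RingHom.mem_ker, map_sub, map_intCast, hn, sub_self]
    rw [h1, RingHom.mem_ker, map_sub, map_intCast, hn, sub_eq_zero] at h2
    exact h2.symm
  · rintro ⟨I, hI⟩
    have hI' := mem_idl.mp hI
    have : Finite (𝓞 K ⧸ I) := (Ideal.absNorm_ne_zero_iff I).mp (hI' ▸ hp.ne_zero)
    let := Fintype.ofFinite (𝓞 K ⧸ I)
    have hc : Fintype.card (𝓞 K ⧸ I) = p := by
      rw [← Nat.card_eq_fintype_card, ← hI']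
      rfl
    refine ⟨(ZMod.ringEquivOfPrime _ hp hc).symm.toRingHom.comp (Ideal.Quotient.mk I),
      Subtype.ext ?_⟩
    ext z
    simp [RingHom.mem_ker, Ideal.Quotient.eq_zero_iff_mem]

lemma card_hom_eq_of_index {A B : Type} [CommRing A] [CommRing B] (ι : A →+* B)
    (hι : Function.Injective ι) (N : ℕ) (hN : ∀ z : B, ∃ a, ι a = N * z) {p : ℕ} (hp : p.Prime)
    (hpN : ¬ p ∣ N) : Nat.card (B →+* ZMod p) = Nat.card (A →+* ZMod p) := by
  have : Fact p.Prime := ⟨hp⟩
  have hN0 : (N : ZMod p) ≠ 0 := by rwa [Ne, ZMod.natCast_eq_zero_iff]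
  choose pre hpre using hN
  refine Nat.card_congr (Equiv.ofBijective (fun ψ => ψ.comp ι) ⟨fun ψ ψ' h => ?_, fun lam => ?_⟩)
  · ext z
    have h1 : ψ (ι (pre z)) = ψ' (ι (pre z)) := RingHom.congr_fun h (pre z)
    rw [hpre, map_mul, map_mul, map_natCast, map_natCast] at h1
    exact mul_left_cancel₀ hN0 h1
  · have e1 : ∀ a, pre (ι a) = N * a := fun a => hι (by rw [hpre, map_mul, map_natCast])
    have e2 : ∀ z w, pre (z + w) = pre z + pre w := fun z w => hι (by
      rw [map_add, hpre, hpre, hpre, mul_add])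
    have e3 : ∀ z w, N * pre (z * w) = pre z * pre w := fun z w => hι (by
      rw [map_mul, map_mul, hpre, hpre, hpre, map_natCast]
      ring)
    have e4 : ∀ a, lam (pre (ι a)) / N = lam a := fun a => by
      rw [e1, map_mul, map_natCast]
      field_simp
    refine ⟨{ toFun := fun z => lam (pre z) / N
              map_one' := by simpa using e4 1
              map_zero' := by simpa using e4 0
              map_add' := fun z w => by rw [e2, map_add, add_div]
              map_mul' := fun z w => ?_ }, RingHom.ext e4⟩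
    have := congrArg lam (e3 z w)
    rw [map_mul, map_mul, map_natCast] at this
    field_simp
    linear_combination this

/-- ORD (file Ord.lean): reductions of an order and degree one primes of its fraction field. -/
theorem order_idl (A : Type) [CommRing A] [IsDomain A] [CharZero A] [Module.Finite ℤ A] :
    ∃ (K : Type) (_ : Field K) (_ : NumberField K) (N : ℕ), N ≠ 0 ∧
      ∀ p : ℕ, p.Prime → ¬ p ∣ N → Nat.card (A →+* ZMod p) = (idl K p).card := by
  classical
  obtain ⟨K, _, _, _⟩ : ∃ (K : Type) (_ : Field K) (_ : Algebra A K), IsFractionRing A K :=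
    ⟨FractionRing A, inferInstance, inferInstance, inferInstance⟩
  have hinj := IsFractionRing.injective A K
  have : CharZero K := charZero_of_injective_algebraMap hinj
  have : Module.Finite ℚ K := Module.Finite.of_isLocalization ℤ A (nonZeroDivisors ℤ)
  have : NumberField K := ⟨⟩
  let ι : A →+* 𝓞 K := (algebraMap A K).codRestrict (integralClosure ℤ K) fun a =>
    (Algebra.IsIntegral.isIntegral (R := ℤ) a).map (algebraMap A K).toIntAlgHom
  have hι : ∀ a, ((ι a : 𝓞 K) : K) = algebraMap A K a := fun a => rfl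
  have hιi : Function.Injective ι := fun a b h => hinj (by rw [← hι, ← hι, h])
  have h3 : ∀ z : 𝓞 K, ∃ d : ℤ, d ≠ 0 ∧ (d : 𝓞 K) * z ∈ ι.range := by
    intro z
    obtain ⟨a, b, hb, hz⟩ := IsFractionRing.div_surjective (A := A) (z : K)
    obtain ⟨r, hr, c, hc⟩ :=
      (Algebra.IsAlgebraic.isAlgebraic (R := ℤ) b).exists_nonzero_dvd hb
    refine ⟨r, hr, a * c, RingOfIntegers.ext ?_⟩
    have hb0 : algebraMap A K b ≠ 0 := IsFractionRing.to_map_ne_zero_of_mem_nonZeroDivisors hb
    have h1 : (r : K) = algebraMap A K b * algebraMap A K c := by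
      rw [← map_mul, ← hc]
      simp
    change ((ι (a * c) : 𝓞 K) : K) = algebraMap (𝓞 K) K ((r : 𝓞 K) * z)
    rw [hι, map_mul, map_mul, map_intCast, h1]
    change _ = _ * (z : K)
    rw [← hz]
    field_simp
  have h4 : ∃ d : ℤ, d ≠ 0 ∧ ∀ z, (d : 𝓞 K) * z ∈ ι.range := by
    choose d hd using h3
    obtain ⟨s, hs⟩ := Module.finite_def.mp (inferInstance : Module.Finite ℤ (𝓞 K))
    refine ⟨∏ b ∈ s, d b, Finset.prod_ne_zero_iff.mpr fun b _ => (hd b).1, fun b => ?_⟩
    have hb : b ∈ Submodule.span ℤ (s : Set (𝓞 K)) := hs ▸ Submodule.mem_top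
    induction hb using Submodule.span_induction with
    | mem x hx =>
      rw [← Finset.prod_erase_mul _ _ hx, Int.cast_mul, mul_assoc]
      exact Subring.mul_mem _ (intCast_mem _ _) (hd x).2
    | zero => simp
    | add x y _ _ hx hy => rw [mul_add]; exact Subring.add_mem _ hx hy
    | smul a x _ hx => rw [mul_smul_comm]; exact zsmul_mem hx _
  obtain ⟨d, hd, hd2⟩ := h4
  refine ⟨K, inferInstance, inferInstance, d.natAbs, Int.natAbs_ne_zero.mpr hd,
    fun p hp hpN => ?_⟩
  rw [← card_hom_eq_idl K hp]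
  refine (card_hom_eq_of_index ι hιi d.natAbs (fun z => ?_) hp hpN).symm
  have h5 : ((d.natAbs : ℕ) : 𝓞 K) * z = (d.sign : 𝓞 K) * ((d : 𝓞 K) * z) := by
    rw [← mul_assoc, ← Int.cast_mul, Int.sign_mul_self_eq_natAbs, Int.cast_natCast]
  rw [h5]
  exact Subring.mul_mem _ (intCast_mem _ _) (hd2 z)

end Pool.Agent.P.MP_ab3ecb_nt
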