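import Pool.Agent.P.MP_ab3ecb_nt.Defs3
import Pool.Agent.P.MP_ab3ecb_nt.ELS
import Pool.Agent.P.MP_ab3ecb_nt.Ord
import Pool.Agent.P.MP_ab3ecb_nt.Cheb

/-!
Logarithmic density of sets of primes from two Dedekind zeta functions.
-/

namespace Pool.Agent.P.MP_ab3ecb_nt

open Polynomial Finset Filter Asymptotics
open scoped Classical IntermediateField
open Topology NumberField

set_option maxHeartbeats 400000

lemma tail_le (P : Finset ℕ) (hP : ∀ p ∈ P, p.Prime) {t : ℝ} (ht : 1 ≤ t) {X : ℕ}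
    (hX : Real.log X = t ^ 2) (hPX : ∀ p ∈ P, X < p) :
    ∑ p ∈ P, (p : ℝ) ^ (-(1 + 1 / t)) ≤ 4 := by
  have ht0 : 0 < t := by linarith
  have hX0 : (0 : ℝ) < X := by
    rcases Nat.eq_zero_or_pos X with h | h
    · rw [h] at hX
      simp at hX
      nlinarith
    · exact_mod_cast h
  have h0 : 0 < 1 / (2 * t) := by positivity
  have h1 : 1 / (2 * t) ≤ 1 := by
    rw [div_le_one (by positivity)]
    linarith
  have h7 := sum_prime_rpow_le (fun p : P => (p : ℕ)) (fun p => hP p p.2) Subtype.val_injective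
    univ (σ := 1 + 1 / (2 * t)) (by linarith) (by linarith)
  rw [Finset.sum_coe_sort P fun p => (p : ℝ) ^ (-(1 + 1 / (2 * t))), add_sub_cancel_left,
    one_div_one_div] at h7
  have h2 : Real.log (2 * t) ≤ 2 * t - 1 := Real.log_le_sub_one_of_pos (by positivity)
  have h3 : t / 2 + 1 ≤ Real.exp (t / 2) := Real.add_one_le_exp _
  have h4 : 0 < Real.exp (t / 2) := Real.exp_pos _
  calc _ ≤ ∑ p ∈ P, (Real.exp (t / 2))⁻¹ * (p : ℝ) ^ (-(1 + 1 / (2 * t))) := by
        refine Finset.sum_le_sum fun p hp => ?_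
        have k0 : (X : ℝ) ≤ p := by exact_mod_cast (hPX p hp).le
        have k1 : (0 : ℝ) < p := by linarith
        have k2 : (p : ℝ) ^ (-(1 + 1 / t)) =
            (p : ℝ) ^ (-(1 / (2 * t))) * (p : ℝ) ^ (-(1 + 1 / (2 * t))) := by
          rw [← Real.rpow_add k1]
          refine congrArg _ ?_
          field_simp
          ring
        rw [k2]
        refine mul_le_mul_of_nonneg_right ?_ (by positivity)
        rw [Real.rpow_def_of_pos k1, ← Real.exp_neg]
        refine Real.exp_le_exp.mpr ?_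
        have k3 : t ^ 2 ≤ Real.log p := hX ▸ Real.log_le_log hX0 k0
        have k4 : t ^ 2 * (1 / (2 * t)) = t / 2 := by
          field_simp
        nlinarith [mul_le_mul_of_nonneg_right k3 h0.le]
    _ ≤ 4 := by
        rw [← Finset.mul_sum, inv_mul_le_iff₀ h4]
        linarith

lemma dns_of_rpow {Q : ℕ → Prop} (hQ : ∀ p, Q p → p.Prime) {δ C : ℝ} (hδ : 0 < δ)
    (h : ∀ᶠ s : ℝ in 𝓝[>] 1, ∃ P : Finset ℕ, (∀ p ∈ P, Q p) ∧
      δ * Real.log (1 / (s - 1)) - C ≤ ∑ p ∈ P, (p : ℝ) ^ (-s)) : Dns Q := by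
  refine ⟨δ / 2, C + 4, by positivity, ?_⟩
  have h1 : Tendsto (fun X : ℕ => Real.log X) atTop atTop :=
    Real.tendsto_log_atTop.comp tendsto_natCast_atTop_atTop
  have h2 : Tendsto (fun X : ℕ => Real.sqrt (Real.log X)) atTop atTop :=
    Real.tendsto_sqrt_atTop.comp h1
  have h3 : Tendsto (fun X : ℕ => 1 + 1 / Real.sqrt (Real.log X)) atTop (𝓝[>] 1) := by
    refine tendsto_nhdsWithin_iff.mpr ⟨?_, ?_⟩
    · have := (tendsto_const_nhds (x := (1 : ℝ))).add
        ((tendsto_const_nhds (x := (1 : ℝ))).div_atTop h2)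
      simpa using this
    · filter_upwards [h2.eventually_gt_atTop 0] with X hX
      have : 0 < 1 / Real.sqrt (Real.log X) := by positivity
      simp only [Set.mem_Ioi]
      linarith
  filter_upwards [h3.eventually h, h2.eventually_ge_atTop 1, h1.eventually_ge_atTop 0] with X
    ⟨P, hP, h4⟩ ht hl
  have h5 : Real.log X = Real.sqrt (Real.log X) ^ 2 := (Real.sq_sqrt hl).symm
  generalize Real.sqrt (Real.log X) = t at h4 ht h5
  have ht0 : 0 < t := by linarith
  rw [add_sub_cancel_left, one_div_one_div] at h4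
  have h6 : Real.log (Real.log X) = 2 * Real.log t := by
    rw [h5, Real.log_pow]
    norm_num
  have h7 := tail_le (P.filter fun p => ¬ p ≤ X) (fun p hp => hQ p (hP p (mem_filter.mp hp).1))
    ht h5 fun p hp => not_le.mp (mem_filter.mp hp).2
  have h8 : ∑ p ∈ P.filter (fun p => p ≤ X), (p : ℝ) ^ (-(1 + 1 / t)) ≤
      ∑ p ∈ (range (X + 1)).filter Q, 1 / (p : ℝ) := by
    calc _ ≤ ∑ p ∈ P.filter (fun p => p ≤ X), 1 / (p : ℝ) := by
          refine Finset.sum_le_sum fun p hp => ?_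
          have k0 : (1 : ℝ) ≤ p := by exact_mod_cast (hQ p (hP p (mem_filter.mp hp).1)).one_le
          have k1 : 0 < 1 / t := by positivity
          rw [one_div (p : ℝ), ← Real.rpow_neg_one]
          exact Real.rpow_le_rpow_of_exponent_le k0 (by linarith)
      _ ≤ _ := by
          refine Finset.sum_le_sum_of_subset_of_nonneg (fun p hp => ?_) fun _ _ _ => by positivity
          rw [mem_filter] at hp ⊢
          exact ⟨mem_range.mpr (Nat.lt_succ_of_le hp.2), hP p hp.1⟩
  rw [← Finset.sum_filter_add_sum_filter_not P (fun p => p ≤ X)] at h4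
  rw [h6]
  linarith

/-- DENSE (file Dense.lean), first part. -/
theorem dns_of_pair (B B' : Type) [CommRing B] [IsDomain B] [CharZero B] [Module.Finite ℤ B]
    [CommRing B'] [IsDomain B'] [CharZero B'] [Module.Finite ℤ B'] {M : ℕ} (hM : M ≠ 0)
    (Q : ℕ → Prop) (h : ∀ p : ℕ, p.Prime → ¬ p ∣ M → ¬ Q p →
      2 * Nat.card (B →+* ZMod p) ≤ Nat.card (B' →+* ZMod p)) :
    Dns fun p => p.Prime ∧ ¬ p ∣ M ∧ Nonempty (B →+* ZMod p) ∧ Q p := by
  obtain ⟨K, _, _, N, hN, hK⟩ := order_idl B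
  obtain ⟨K', _, _, N', hN', hK'⟩ := order_idl B'
  obtain ⟨C1, hC1⟩ := ideal_lower K
  obtain ⟨C2, hC2⟩ := ideal_upper K'
  set n := Module.finrank ℤ (𝓞 K) with hn
  have hn1 : (1 : ℝ) ≤ n := by
    have : 0 < n := Module.finrank_pos
    exact_mod_cast this
  have hn0 : (0 : ℝ) < n := by linarith
  refine dns_of_rpow (fun p hp => hp.1) (δ := 1 / 2 / n)
    (C := (C1 + C2 / 2 + n * (M * N * N').divisors.card) / n) (by positivity) ?_
  filter_upwards [hC1, hC2, self_mem_nhdsWithin] with s ⟨P, hP, h1⟩ h2 h3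
  have hs : 1 < s := h3
  have h4 := h2 P hP
  refine ⟨P.filter fun p => p.Prime ∧ ¬ p ∣ M ∧ Nonempty (B →+* ZMod p) ∧ Q p,
    fun p hp => (mem_filter.mp hp).2, ?_⟩
  have h5 : ∑ p ∈ P, ((idl K p).card : ℝ) * (p : ℝ) ^ (-s) ≤ ∑ p ∈ P,
      (n * (if p.Prime ∧ ¬ p ∣ M ∧ Nonempty (B →+* ZMod p) ∧ Q p then (p : ℝ) ^ (-s) else 0) +
        1 / 2 * (((idl K' p).card : ℝ) * (p : ℝ) ^ (-s)) +
        n * if p ∈ (M * N * N').divisors then 1 else 0) := by
    refine Finset.sum_le_sum fun p hp => ?_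
    have hpp := hP p hp
    have k0 : (0 : ℝ) < p := by exact_mod_cast hpp.pos
    have k1 : 0 < (p : ℝ) ^ (-s) := by positivity
    have k2 : ((idl K p).card : ℝ) ≤ n := by exact_mod_cast card_idl_le hpp
    have k3 : 0 ≤ ((idl K' p).card : ℝ) * (p : ℝ) ^ (-s) := by positivity
    have k7 : (p : ℝ) ^ (-s) ≤ 1 :=
      Real.rpow_le_one_of_one_le_of_nonpos (by exact_mod_cast hpp.one_le) (by linarith)
    have k8 : (0 : ℝ) ≤ n * (if p.Prime ∧ ¬ p ∣ M ∧ Nonempty (B →+* ZMod p) ∧ Q p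
        then (p : ℝ) ^ (-s) else 0) := by
      split_ifs <;> positivity
    have k9 : ((idl K p).card : ℝ) * (p : ℝ) ^ (-s) ≤ n * (p : ℝ) ^ (-s) := by gcongr
    by_cases hd : p ∈ (M * N * N').divisors
    · rw [if_pos hd]
      nlinarith
    · rw [if_neg hd]
      rw [Nat.mem_divisors, not_and_or, not_not,
        or_iff_left (mul_ne_zero (mul_ne_zero hM hN) hN')] at hd
      have d1 : ¬ p ∣ M := fun k => hd ((k.mul_right _).mul_right _)
      have d2 := hK p hpp fun k => hd ((k.mul_left _).mul_right _)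
      have d3 := hK' p hpp fun k => hd (k.mul_left _)
      by_cases hq : Q p
      · by_cases hne : Nonempty (B →+* ZMod p)
        · rw [if_pos ⟨hpp, d1, hne, hq⟩]
          linarith
        · have : IsEmpty (B →+* ZMod p) := not_nonempty_iff.mp hne
          rw [← d2, Nat.card_of_isEmpty]
          push_cast
          linarith
      · have k5 := h p hpp d1 hq
        rw [d2, d3] at k5
        have k6 : 2 * ((idl K p).card : ℝ) ≤ (idl K' p).card := by exact_mod_cast k5
        nlinarith [mul_le_mul_of_nonneg_right k6 k1.le]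
  rw [Finset.sum_add_distrib, Finset.sum_add_distrib, ← Finset.mul_sum, ← Finset.mul_sum,
    ← Finset.mul_sum, Finset.sum_ite_mem, Finset.sum_const, nsmul_eq_mul, mul_one,
    ← Finset.sum_filter] at h5
  have k1 : ((P ∩ (M * N * N').divisors).card : ℝ) ≤ (M * N * N').divisors.card := by
    exact_mod_cast card_le_card inter_subset_right
  have k2 := mul_le_mul_of_nonneg_left k1 hn0.le
  rw [div_mul_eq_mul_div, ← sub_div, div_le_iff₀ hn0]
  linarith

/-- DENSE (file Dense.lean), second part. -/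
theorem chb_rp (F : ℤ[X]) (hm : F.Monic) (hdeg : 0 < F.natDegree) {M : ℕ} (hM : M ≠ 0) :
    Chb (Rp F M) := by
  obtain ⟨β, hβ⟩ : ∃ β : ℂ, aeval β F = 0 := by
    refine IsAlgClosed.exists_aeval_eq_zero_of_injective ℂ (RingHom.injective_int _) F ?_
    exact (natDegree_pos_iff_degree_pos.mp hdeg).ne'
  have hint : IsIntegral ℤ β := ⟨F, hm, hβ⟩
  have : Module.Finite ℤ (Algebra.adjoin ℤ ({β} : Set ℂ)) :=
    Module.Finite.iff_fg.mpr hint.fg_adjoin_singleton
  obtain ⟨K, _, _, N, hN, hK⟩ := order_idl (Algebra.adjoin ℤ ({β} : Set ℂ))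
  obtain ⟨c, hc, h⟩ := cheb_lower K
  set n := Module.finrank ℤ (𝓞 K) with hn
  have hn1 : (1 : ℝ) ≤ n := by
    have : 0 < n := Module.finrank_pos
    exact_mod_cast this
  have hn0 : (0 : ℝ) < n := by linarith
  set D : ℝ := ∑ d ∈ (M * N).divisors, Real.log d with hD
  refine ⟨c / 2 / n, by positivity, ?_⟩
  filter_upwards [h, (tendsto_natCast_atTop_atTop (R := ℝ)).eventually_ge_atTop
    (n * D / (c / 2))] with x h1 h2
  have h5 : ∑ p ∈ (range (x + 1)).filter Nat.Prime, ((idl K p).card : ℝ) * Real.log p ≤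
      ∑ p ∈ (range (x + 1)).filter Nat.Prime, (n * (if Rp F M p then Real.log p else 0) +
        n * if p ∈ (M * N).divisors then Real.log p else 0) := by
    refine Finset.sum_le_sum fun p hp => ?_
    have hpp := (mem_filter.mp hp).2
    have k1 : 0 ≤ Real.log p := Real.log_natCast_nonneg p
    have k2 : ((idl K p).card : ℝ) ≤ n := by exact_mod_cast card_idl_le hpp
    have k8 : (0 : ℝ) ≤ n * (if Rp F M p then Real.log p else 0) := by
      split_ifs <;> positivity
    have k9 : ((idl K p).card : ℝ) * Real.log p ≤ n * Real.log p := by gcongr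
    by_cases hd : p ∈ (M * N).divisors
    · rw [if_pos hd]
      linarith
    · rw [if_neg hd]
      rw [Nat.mem_divisors, not_and_or, not_not, or_iff_left (mul_ne_zero hM hN)] at hd
      have d1 : ¬ p ∣ M := fun k => hd (k.mul_right _)
      have d2 := hK p hpp fun k => hd (k.mul_left _)
      by_cases hne : Nonempty (Algebra.adjoin ℤ ({β} : Set ℂ) →+* ZMod p)
      · obtain ⟨φ⟩ := hne
        have k3 : Rp F M p := by
          refine ⟨hpp, d1, φ ⟨β, Algebra.self_mem_adjoin_singleton ℤ β⟩, ?_⟩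
          rw [← map_aeval_int]
          have : aeval (⟨β, Algebra.self_mem_adjoin_singleton ℤ β⟩ :
              Algebra.adjoin ℤ ({β} : Set ℂ)) F = 0 := by
            apply Subtype.val_injective
            have := map_aeval_int (Algebra.adjoin ℤ ({β} : Set ℂ)).val.toRingHom
              ⟨β, Algebra.self_mem_adjoin_singleton ℤ β⟩ F
            exact this.trans hβ
          rw [this, map_zero]
        rw [if_pos k3]
        linarith
      · have : IsEmpty (Algebra.adjoin ℤ ({β} : Set ℂ) →+* ZMod p) := not_nonempty_iff.mp hne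
        rw [← d2, Nat.card_of_isEmpty]
        push_cast
        linarith
  rw [Finset.sum_add_distrib, ← Finset.mul_sum, ← Finset.mul_sum, Finset.sum_ite_mem,
    ← Finset.sum_filter, Finset.filter_filter] at h5
  have k1 : ∑ p ∈ (range (x + 1)).filter Nat.Prime ∩ (M * N).divisors, Real.log p ≤ D :=
    Finset.sum_le_sum_of_subset_of_nonneg inter_subset_right fun p _ _ => Real.log_natCast_nonneg p
  have k2 := mul_le_mul_of_nonneg_left k1 hn0.le
  have k3 : (range (x + 1)).filter (fun p => p.Prime ∧ Rp F M p) =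
      (range (x + 1)).filter (Rp F M) := filter_congr fun p _ => ⟨fun h => h.2, fun h => ⟨h.1, h⟩⟩
  rw [k3] at h5
  rw [div_le_iff₀ (by positivity)] at h2
  rw [div_mul_eq_mul_div, div_le_iff₀ hn0]
  linarith

/-- DENSE (file Dense.lean), third part. -/
theorem sav_of_dns {M : ℕ} {P Q : ℕ → Prop} (hP : ∀ p, P p → p.Prime ∧ ¬ p ∣ M)
    (hQ : ∀ p, Q p → p.Prime ∧ ¬ p ∣ M) (hd : Dns Q) {η : ℝ} (hη : 0 < η) {ω : ℕ → ℝ}
    (h : ∀ p : ℕ, p.Prime → ¬ p ∣ M →
      ω p ≤ (if P p then 1 else 0) - η * if Q p then 1 else 0) :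
    Sav M (fun X => ∑ p ∈ (range (X + 1)).filter P, 1 / (p : ℝ)) ω := by
  obtain ⟨δ, C, hδ, hd⟩ := hd
  refine ⟨η * δ, η * C, by positivity, ?_⟩
  filter_upwards [hd] with X hX
  have e : ∀ R : ℕ → Prop, (∀ p, R p → p.Prime ∧ ¬ p ∣ M) →
      ∑ p ∈ Qs M X, (if R p then 1 / (p : ℝ) else 0) =
        ∑ p ∈ (range (X + 1)).filter R, 1 / (p : ℝ) := by
    intro R hR
    rw [← Finset.sum_filter, Qs, Finset.filter_filter]
    exact Finset.sum_congr (filter_congr fun p _ => ⟨fun h => h.2, fun h => ⟨hR p h, h⟩⟩)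
      fun _ _ => rfl
  have h1 : ∑ p ∈ Qs M X, ω p / p ≤ ∑ p ∈ Qs M X,
      ((if P p then 1 / (p : ℝ) else 0) - η * if Q p then 1 / (p : ℝ) else 0) := by
    refine Finset.sum_le_sum fun p hp => ?_
    have hp' := (mem_filter.mp hp).2
    have k0 : (0 : ℝ) < p := by exact_mod_cast hp'.1.pos
    refine (div_le_div_of_nonneg_right (h p hp'.1 hp'.2) k0.le).trans (le_of_eq ?_)
    split_ifs <;> ring
  rw [Finset.sum_sub_distrib, ← Finset.mul_sum, e P hP, e Q hQ] at h1
  nlinarith [mul_le_mul_of_nonneg_left hX hη.le]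

end Pool.Agent.P.MP_ab3ecb_nt
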