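import Pool.Agent.P.MP_ab3ecb_nt.Sums

/-!
Lower bound for the number of products of distinct primes taken from a set of primes with a
Chebyshev lower bound.
-/

namespace Pool.Agent.P.MP_ab3ecb_nt

open Finset Filter

namespace Lower

lemma pow_div_dvd_factorial {p : ℕ} (hp : p.Prime) (n : ℕ) : p ^ (n / p) ∣ n.factorial := by
  rw [hp.pow_dvd_factorial_iff (b := Nat.log p n + 2) (by omega)]
  have := Finset.single_le_sum (f := fun i => n / p ^ i) (s := Ico 1 (Nat.log p n + 2))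
    (fun _ _ => Nat.zero_le _) (a := 1) (by simp)
  simpa using this

lemma mertens_nat (S : Finset ℕ) (hS : ∀ p ∈ S, p.Prime) {n : ℕ} (hn : n ≠ 0)
    (hle : ∀ p ∈ S, p ≤ n) : ∑ p ∈ S, Real.log p / p ≤ 2 * Real.log n := by
  have hd : ∏ p ∈ S, p ^ (n / p) ∣ n.factorial := by
    refine Finset.prod_dvd_of_isRelPrime ?_ fun p hp => pow_div_dvd_factorial (hS p hp) n
    intro a ha b hb hab
    simp only [Function.onFun]
    rw [← Nat.coprime_iff_isRelPrime]
    exact Nat.Coprime.pow _ _ ((Nat.coprime_primes (hS a ha) (hS b hb)).mpr hab)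
  have h1 : ∏ p ∈ S, p ^ (n / p) ≤ n ^ n :=
    (Nat.le_of_dvd n.factorial_pos hd).trans n.factorial_le_pow
  have h2 : (∏ p ∈ S, (p : ℝ) ^ (n / p)) ≤ (n : ℝ) ^ n := by exact_mod_cast h1
  have hpos : ∀ p ∈ S, (0 : ℝ) < p := fun p hp => by exact_mod_cast (hS p hp).pos
  have h3 := Real.log_le_log (Finset.prod_pos fun p hp => pow_pos (hpos p hp) _) h2
  rw [Real.log_prod (fun p hp => (pow_pos (hpos p hp) _).ne'), Real.log_pow] at h3
  have hn0 : (0 : ℝ) < n := by exact_mod_cast Nat.pos_of_ne_zero hn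
  have h4 : (n : ℝ) * ∑ p ∈ S, Real.log p / p ≤ 2 * ∑ p ∈ S, Real.log ((p : ℝ) ^ (n / p)) := by
    rw [Finset.mul_sum, Finset.mul_sum]
    refine Finset.sum_le_sum fun p hp => ?_
    rw [Real.log_pow]
    have a1 : 1 ≤ n / p := (Nat.one_le_div_iff (hS p hp).pos).mpr (hle p hp)
    have a2 : n < p * (n / p + 1) := Nat.lt_mul_div_succ n (hS p hp).pos
    have a3 : n ≤ p * (2 * (n / p)) := a2.le.trans (Nat.mul_le_mul_left _ (by omega))
    have a4 : (n : ℝ) ≤ p * (2 * ((n / p : ℕ) : ℝ)) := by exact_mod_cast a3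
    have a5 : (n : ℝ) / p ≤ 2 * ((n / p : ℕ) : ℝ) := by
      rw [div_le_iff₀ (hpos p hp)]; linarith
    have a6 := Real.log_natCast_nonneg p
    calc (n : ℝ) * (Real.log p / p) = (n : ℝ) / p * Real.log p := by ring
      _ ≤ 2 * ((n / p : ℕ) : ℝ) * Real.log p := by gcongr
      _ = _ := by ring
  have h5 : (n : ℝ) * ∑ p ∈ S, Real.log p / p ≤ n * (2 * Real.log n) := by linarith
  exact le_of_mul_le_mul_left h5 hn0

lemma mertens (S : Finset ℕ) (hS : ∀ p ∈ S, p.Prime) {l : ℝ} (hl : 0 ≤ l)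
    (hle : ∀ p ∈ S, Real.log p ≤ l) : ∑ p ∈ S, Real.log p / p ≤ 2 * l := by
  rcases S.eq_empty_or_nonempty with rfl | hne
  · simp; linarith
  · have hm := S.max'_mem hne
    have := mertens_nat S hS (hS _ hm).ne_zero fun p hp => S.le_max' p hp
    linarith [hle _ hm]

lemma theta_le (S : Finset ℕ) (hS : ∀ p ∈ S, p.Prime) {l : ℝ}
    (hle : ∀ p ∈ S, Real.log p ≤ l) : ∑ p ∈ S, Real.log p ≤ 2 * Real.exp l := by
  have ht := (Real.exp_pos l).le
  have h1 := Chebyshev.theta_le_log4_mul_x ht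
  rw [Chebyshev.theta_eq_sum_primesLE] at h1
  have h4 : Real.log 4 ≤ 2 := by
    have : Real.log 4 = 2 * Real.log 2 := by
      rw [show (4 : ℝ) = 2 ^ 2 by norm_num, Real.log_pow]; norm_num
    linarith [Real.log_two_lt_d9]
  calc _ ≤ ∑ p ∈ Nat.primesLE ⌊Real.exp l⌋₊, Real.log p := by
        refine Finset.sum_le_sum_of_subset_of_nonneg ?_ fun _ _ _ => Real.log_natCast_nonneg _
        intro p hp
        refine Nat.mem_primesLE.mpr ⟨Nat.le_floor ?_, hS p hp⟩
        have : (0 : ℝ) < p := by exact_mod_cast (hS p hp).pos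
        exact (Real.log_le_iff_le_exp this).mp (hle p hp)
    _ ≤ Real.log 4 * Real.exp l := h1
    _ ≤ _ := by gcongr

lemma weight_le (Z : Finset ℕ) (g t : ℕ → ℝ) (hg : ∀ p, 0 ≤ g p) (ht : ∀ p, 0 ≤ t p) :
    ∑ s ∈ Z.powerset, (∑ p ∈ s, g p) * ∏ p ∈ s, t p ≤
      (∏ p ∈ Z, (1 + t p)) * ∑ p ∈ Z, g p * t p := by
  induction Z using Finset.induction_on with
  | empty => simp
  | insert a Z ha ih =>
    rw [Finset.sum_powerset_insert ha, Finset.prod_insert ha, Finset.sum_insert ha]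
    have e : ∑ s ∈ Z.powerset, (∑ p ∈ insert a s, g p) * ∏ p ∈ insert a s, t p =
        g a * t a * ∏ p ∈ Z, (1 + t p) +
          t a * ∑ s ∈ Z.powerset, (∑ p ∈ s, g p) * ∏ p ∈ s, t p := by
      rw [Finset.prod_one_add, Finset.mul_sum, Finset.mul_sum, ← Finset.sum_add_distrib]
      refine Finset.sum_congr rfl fun s hs => ?_
      have : a ∉ s := fun h => ha (mem_powerset.mp hs h)
      rw [Finset.sum_insert this, Finset.prod_insert this]
      ring
    rw [e]
    have h1 : 0 ≤ ∏ p ∈ Z, (1 + t p) := Finset.prod_nonneg fun p _ => by have := ht p; positivity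
    have h2 := mul_le_mul_of_nonneg_left ih (ht a)
    have h3 : 0 ≤ t a * (g a * t a * ∏ p ∈ Z, (1 + t p)) := by
      have := ht a; have := hg a; positivity
    nlinarith

/-- Markov: subsets with a small product carry half of the weight. -/
lemma half_le (Z : Finset ℕ) (hZ : ∀ p ∈ Z, p.Prime) {l : ℝ} (hl : 0 < l)
    (hle : ∀ p ∈ Z, Real.log p ≤ l) :
    (∏ p ∈ Z, (1 + 1 / (p : ℝ))) / 2 ≤
      ∑ s ∈ Z.powerset.filter fun s : Finset ℕ => ∑ p ∈ s, Real.log p ≤ 4 * l,
        ∏ p ∈ s, 1 / (p : ℝ) := by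
  have h1 := weight_le Z (fun p => Real.log p) (fun p => 1 / (p : ℝ))
    (fun p => Real.log_natCast_nonneg p) (fun p => by positivity)
  have h2 := mertens Z hZ hl.le hle
  have h3 : ∑ p ∈ Z, Real.log p * (1 / (p : ℝ)) = ∑ p ∈ Z, Real.log p / p :=
    Finset.sum_congr rfl fun p _ => by ring
  have h4 := Finset.sum_filter_add_sum_filter_not Z.powerset
    (fun s : Finset ℕ => ∑ p ∈ s, Real.log p ≤ 4 * l) (fun s => ∏ p ∈ s, 1 / (p : ℝ))
  rw [← Finset.prod_one_add] at h4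
  have h0 : 0 ≤ ∏ p ∈ Z, (1 + 1 / (p : ℝ)) := Finset.prod_nonneg fun p _ => by positivity
  have hw : ∀ s : Finset ℕ, 0 ≤ ∏ p ∈ s, 1 / (p : ℝ) :=
    fun s => Finset.prod_nonneg fun p _ => by positivity
  have h5 : 4 * l * ∑ s ∈ Z.powerset.filter (fun s : Finset ℕ => ¬ ∑ p ∈ s, Real.log p ≤ 4 * l),
      ∏ p ∈ s, 1 / (p : ℝ) ≤ ∑ s ∈ Z.powerset, (∑ p ∈ s, Real.log p) * ∏ p ∈ s, 1 / (p : ℝ) := by
    rw [Finset.mul_sum]
    refine le_trans (Finset.sum_le_sum fun s hs => ?_)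
      (Finset.sum_le_sum_of_subset_of_nonneg (Finset.filter_subset _ _) fun s _ _ =>
        mul_nonneg (Finset.sum_nonneg fun p _ => Real.log_natCast_nonneg p) (hw s))
    exact mul_le_mul_of_nonneg_right (not_le.mp (mem_filter.mp hs).2).le (hw s)
  rw [h3] at h1
  have h6 := mul_le_mul_of_nonneg_left h2 h0
  have h7 : l * (4 * ∑ s ∈ Z.powerset.filter (fun s : Finset ℕ => ¬ ∑ p ∈ s, Real.log p ≤ 4 * l),
      ∏ p ∈ s, 1 / (p : ℝ)) ≤ l * (2 * ∏ p ∈ Z, (1 + 1 / (p : ℝ))) := by linarith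
  have h8 := le_of_mul_le_mul_left h7 hl
  linarith

lemma exp_le_prod (A : Finset ℕ) (hA : ∀ p ∈ A, p.Prime) {l : ℝ} (hl : 0 < l)
    (hle : ∀ p ∈ A, Real.log p ≤ 12 * l) :
    Real.exp (∑ p ∈ A, 1 / (p : ℝ) - 26) ≤
      ∏ p ∈ A.filter fun p : ℕ => Real.log p ≤ l, (1 + 1 / (p : ℝ)) := by
  set Z := A.filter fun p : ℕ => Real.log p ≤ l with hZ
  have h1 := sum_le_log_prod Z (fun p => 1 / (p : ℝ)) fun p _ => by positivity
  have h2 := sum_rpow_le (σ := 2) (by norm_num) Z fun p hp => (hA p (mem_filter.mp hp).1).ne_zero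
  have h3 : ∑ p ∈ Z, (1 / (p : ℝ)) ^ 2 = ∑ p ∈ Z, (p : ℝ) ^ (-(2 : ℝ)) := by
    refine Finset.sum_congr rfl fun p _ => ?_
    rw [Real.rpow_neg (Nat.cast_nonneg p), Real.rpow_two, one_div, inv_pow]
  have h4 := Finset.sum_filter_add_sum_filter_not A (fun p : ℕ => Real.log p ≤ l)
    (fun p => 1 / (p : ℝ))
  have h5 := mertens (A.filter fun p : ℕ => ¬ Real.log p ≤ l)
    (fun p hp => hA p (mem_filter.mp hp).1) (l := 12 * l) (by positivity)
    fun p hp => hle p (mem_filter.mp hp).1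
  have h6 : l * ∑ p ∈ A.filter (fun p : ℕ => ¬ Real.log p ≤ l), 1 / (p : ℝ) ≤
      ∑ p ∈ A.filter (fun p : ℕ => ¬ Real.log p ≤ l), Real.log p / p := by
    rw [Finset.mul_sum]
    refine Finset.sum_le_sum fun p hp => ?_
    have := (not_le.mp (mem_filter.mp hp).2).le
    rw [mul_one_div]
    gcongr
  have h7 : l * ∑ p ∈ A.filter (fun p : ℕ => ¬ Real.log p ≤ l), 1 / (p : ℝ) ≤ l * 24 := by
    linarith
  have h8 := le_of_mul_le_mul_left h7 hl
  rw [← Real.le_log_iff_exp_le (Finset.prod_pos fun p _ => by positivity)]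
  rw [show (1 : ℝ) + 1 / (2 - 1) = 2 by norm_num] at h2
  linarith

open Classical in
/-- The count without congruence conditions. -/
lemma count_zero (P : ℕ → Prop) (hP : ∀ p, P p → p.Prime) {c : ℝ} (hc : 0 < c)
    (h : ∀ᶠ x : ℕ in atTop, c * x ≤ ∑ p ∈ (range (x + 1)).filter P, Real.log p) :
    ∀ᶠ Y : ℕ in atTop, 0 < Real.log Y ∧
      c / 8 * (Y / Real.log Y * Real.exp (∑ p ∈ (range (Y + 1)).filter P, 1 / (p : ℝ) - 26)) ≤
        ((((range (Y + 1)).filter P).powerset.filter fun s => ∏ p ∈ s, p ≤ Y).card : ℝ) := by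
  obtain ⟨x0, hx0⟩ := eventually_atTop.mp h
  have hlog : Tendsto (fun Y : ℕ => Real.log Y / 12) atTop atTop :=
    (Real.tendsto_log_atTop.comp tendsto_natCast_atTop_atTop).atTop_div_const (by norm_num)
  filter_upwards [hlog.eventually_gt_atTop 0, hlog.eventually_ge_atTop (8 / c),
    hlog.eventually_ge_atTop (2 * x0)] with Y hl hl1 hl2
  set l := Real.log Y / 12 with hldef
  have hL : Real.log Y = 12 * l := by rw [hldef]; ring
  have hY0 : (0 : ℝ) < Y := by
    rcases Nat.eq_zero_or_pos Y with rfl | hY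
    · simp at hL; linarith
    · exact_mod_cast hY
  have hYe : (Y : ℝ) = Real.exp (12 * l) := by rw [← hL, Real.exp_log hY0]
  refine ⟨by linarith, ?_⟩
  set A := (range (Y + 1)).filter P with hA
  have hAp : ∀ p ∈ A, p.Prime := fun p hp => hP p (mem_filter.mp hp).2
  have hlogle : ∀ p : ℕ, p.Prime → p ≤ Y → Real.log p ≤ 12 * l := fun p hp hpY => by
    rw [← hL]
    exact Real.log_le_log (by exact_mod_cast hp.pos) (by exact_mod_cast hpY)
  have hAl : ∀ p ∈ A, Real.log p ≤ 12 * l := fun p hp =>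
    hlogle p (hAp p hp) (Nat.lt_succ_iff.mp (mem_range.mp (mem_filter.mp hp).1))
  set Z := A.filter fun p : ℕ => Real.log p ≤ l with hZ
  have hZp : ∀ p ∈ Z, p.Prime := fun p hp => hAp p (mem_filter.mp hp).1
  have h1 := exp_le_prod A hAp hl hAl
  have h2 := half_le Z hZp hl fun p hp => (mem_filter.mp hp).2
  set G := Z.powerset.filter fun s : Finset ℕ => ∑ p ∈ s, Real.log p ≤ 4 * l with hG
  let B : Finset ℕ → Finset ℕ := fun s =>
    ((range (Y / ∏ p ∈ s, p + 1)).filter P).filter fun p : ℕ => ¬ Real.log p ≤ l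
  have hGZ : ∀ s ∈ G, s ⊆ Z := fun s hs => mem_powerset.mp (mem_filter.mp hs).1
  have hB : ∀ s ∈ G, c / 4 * (Y / (12 * l)) * ∏ p ∈ s, 1 / (p : ℝ) ≤ (B s).card := by
    intro s hs
    have hsp : ∀ p ∈ s, p.Prime := fun p hp => hZp p (hGZ s hs hp)
    set m := ∏ p ∈ s, p with hm
    have hm0 : 0 < m := Finset.prod_pos fun p hp => (hsp p hp).pos
    have hm0' : (0 : ℝ) < m := by exact_mod_cast hm0
    have hmr : (m : ℝ) = ∏ p ∈ s, (p : ℝ) := by rw [hm]; push_cast; rfl
    have hml : Real.log m ≤ 4 * l := by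
      rw [hmr, Real.log_prod fun p hp => by exact_mod_cast (hsp p hp).ne_zero]
      exact (mem_filter.mp hs).2
    have hme : (m : ℝ) ≤ Real.exp (4 * l) := (Real.log_le_iff_le_exp hm0').mp hml
    have hw : ∏ p ∈ s, 1 / (p : ℝ) = 1 / m := by
      rw [hmr, Finset.prod_div_distrib, Finset.prod_const_one]
    have e1 : Real.exp (8 * l) ≤ Y / m := by
      rw [le_div_iff₀ hm0', hYe, show 12 * l = 8 * l + 4 * l by ring, Real.exp_add]
      gcongr
    have e0 : 1 + l ≤ Real.exp l := by linarith [Real.add_one_le_exp l]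
    have e2 : l * Real.exp l ≤ Real.exp (8 * l) := by
      calc l * Real.exp l ≤ Real.exp l * Real.exp l := by gcongr; linarith
        _ = Real.exp (l + l) := (Real.exp_add _ _).symm
        _ ≤ _ := Real.exp_le_exp.mpr (by linarith)
    have e2' : 1 + l ≤ Real.exp (8 * l) := e0.trans (Real.exp_le_exp.mpr (by linarith))
    have hmY : m ≤ Y := by
      have : (1 : ℝ) ≤ Y / m := by linarith
      rw [le_div_iff₀ hm0', one_mul] at this
      exact_mod_cast this
    set x := Y / m with hx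
    have a1 : 1 ≤ x := (Nat.one_le_div_iff hm0).mpr hmY
    have a2 : Y < m * (x + 1) := Nat.lt_mul_div_succ Y hm0
    have a3 : Y ≤ m * (2 * x) := a2.le.trans (Nat.mul_le_mul_left _ (by omega))
    have a4 : (Y : ℝ) ≤ m * (2 * (x : ℝ)) := by exact_mod_cast a3
    have a5 : (Y : ℝ) / m ≤ 2 * x := by rw [div_le_iff₀ hm0']; linarith
    have a6 : x0 ≤ x := by
      have : (x0 : ℝ) ≤ x := by linarith
      exact_mod_cast this
    have b1 := hx0 x a6
    have b2 := Finset.sum_filter_add_sum_filter_not ((range (x + 1)).filter P)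
      (fun p : ℕ => Real.log p ≤ l) (fun p => Real.log p)
    have b3 := theta_le (((range (x + 1)).filter P).filter fun p : ℕ => Real.log p ≤ l)
      (fun p hp => hP p (mem_filter.mp (mem_filter.mp hp).1).2) fun p hp => (mem_filter.mp hp).2
    have b4 : ∑ p ∈ B s, Real.log p ≤ (B s).card * (12 * l) := by
      rw [← nsmul_eq_mul]
      refine Finset.sum_le_card_nsmul _ _ _ fun p hp => ?_
      have hp' := mem_filter.mp (mem_filter.mp hp).1
      exact hlogle p (hP p hp'.2)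
        ((Nat.lt_succ_iff.mp (mem_range.mp hp'.1)).trans (Nat.div_le_self _ _))
    have b5 : 8 ≤ c * l := by rwa [div_le_iff₀' hc] at hl1
    have b6 : 8 * Real.exp l ≤ c * (Y / m) := by
      calc 8 * Real.exp l ≤ c * l * Real.exp l := by gcongr
        _ = c * (l * Real.exp l) := by ring
        _ ≤ _ := by gcongr; linarith
    have b7 : c * (Y / m) ≤ c * (2 * x) := by gcongr
    have b8 : c / 4 * (Y / m) ≤ (B s).card * (12 * l) := by
      have : ∑ p ∈ B s, Real.log p = ∑ p ∈ ((range (x + 1)).filter P).filter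
        (fun p : ℕ => ¬ Real.log p ≤ l), Real.log p := rfl
      linarith
    rw [hw]
    calc c / 4 * (Y / (12 * l)) * (1 / m) = c / 4 * (Y / m) / (12 * l) := by ring
      _ ≤ _ := by rw [div_le_iff₀ (by positivity)]; exact b8
  have hcard : (G.sigma B).card ≤ (A.powerset.filter fun s => ∏ p ∈ s, p ≤ Y).card := by
    have hn : ∀ s ∈ G, ∀ p : ℕ, ¬ Real.log p ≤ l → p ∉ s :=
      fun s hs p hp hps => hp (mem_filter.mp (hGZ s hs hps)).2
    refine Finset.card_le_card_of_injOn (fun q => insert q.2 q.1) ?_ ?_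
    · rintro ⟨s, p⟩ hq
      obtain ⟨hs, hp⟩ := mem_sigma.mp (mem_coe.mp hq)
      obtain ⟨hp1, hp2⟩ := mem_filter.mp hp
      obtain ⟨hp3, hp4⟩ := mem_filter.mp hp1
      have hp5 : p ≤ Y / ∏ p ∈ s, p := Nat.lt_succ_iff.mp (mem_range.mp hp3)
      refine mem_coe.mpr (mem_filter.mpr ⟨mem_powerset.mpr ?_, ?_⟩)
      · refine insert_subset ?_ ((hGZ s hs).trans (filter_subset _ _))
        exact mem_filter.mpr ⟨mem_range.mpr (Nat.lt_succ_of_le
          (hp5.trans (Nat.div_le_self _ _))), hp4⟩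
      · rw [Finset.prod_insert (hn s hs p hp2)]
        exact (Nat.mul_le_mul_right _ hp5).trans (Nat.div_mul_le_self _ _)
    · rintro ⟨s, p⟩ hq ⟨s', p'⟩ hq' e
      obtain ⟨hs, hp⟩ := mem_sigma.mp (mem_coe.mp hq)
      obtain ⟨hs', hp'⟩ := mem_sigma.mp (mem_coe.mp hq')
      have hp2 := (mem_filter.mp hp).2
      have hp2' := (mem_filter.mp hp').2
      simp only at e hs hs' hp2 hp2'
      have e1 : p = p' := by
        have : p ∈ insert p' s' := e ▸ mem_insert_self p s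
        rcases mem_insert.mp this with h | h
        · exact h
        · exact absurd h (hn s' hs' p hp2)
      subst e1
      have e2 : s = s' := by
        rw [← Finset.erase_insert (hn s hs p hp2), e, Finset.erase_insert (hn s' hs' p hp2)]
      subst e2
      rfl
  have hc2 : ((G.sigma B).card : ℝ) = ∑ s ∈ G, ((B s).card : ℝ) := by
    rw [Finset.card_sigma]; push_cast; rfl
  have hc3 := Finset.sum_le_sum hB
  rw [← Finset.mul_sum, ← hc2] at hc3
  have hc4 : ((G.sigma B).card : ℝ) ≤ (A.powerset.filter fun s => ∏ p ∈ s, p ≤ Y).card := by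
    exact_mod_cast hcard
  refine le_trans ?_ (hc3.trans hc4)
  rw [hL]
  calc _ = c / 4 * (Y / (12 * l)) * (Real.exp (∑ p ∈ A, 1 / (p : ℝ) - 26) / 2) := by ring
    _ ≤ _ := by
      refine mul_le_mul_of_nonneg_left ?_ (by positivity)
      linarith

lemma prod_symmDiff (s t : Finset ℕ) :
    (∏ p ∈ symmDiff s t, p) * (∏ p ∈ s ∩ t, p) ^ 2 = (∏ p ∈ s, p) * ∏ p ∈ t, p := by
  have h1 := Finset.prod_inter_mul_prod_sdiff s t fun p => p
  have h2 := Finset.prod_inter_mul_prod_sdiff t s fun p => p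
  rw [Finset.inter_comm] at h2
  rw [← h1, ← h2, Finset.symmDiff_def, Finset.prod_union disjoint_sdiff_sdiff]
  ring

end Lower

open Lower in
open Classical in
/-- LOWER (file Lower.lean): lower bound for products of distinct primes from a set. -/
theorem count_lower (P : ℕ → Prop) (hP : ∀ p, P p → p.Prime) {c : ℝ} (hc : 0 < c)
    (h : ∀ᶠ x : ℕ in atTop, c * x ≤ ∑ p ∈ (range (x + 1)).filter P, Real.log p)
    {M D : ℕ} (hM : M ≠ 0) (hD : D ≠ 0) (hPM : ∀ p, P p → ¬ p ∣ M) :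
    ∃ c' : ℝ, 0 < c' ∧ ∀ᶠ X : ℕ in atTop,
      c' * (X / Real.log X * Real.exp (∑ p ∈ (range (X + 1)).filter P, 1 / (p : ℝ))) ≤
        ((((range (X + 1)).filter P).powerset.filter fun s => D * ∏ p ∈ s, p ≤ X ∧
          ∃ u v w : ℕ, u ≡ v [MOD M] ∧ u.Coprime M ∧ w ≠ 0 ∧
            (∏ p ∈ s, p) * w ^ 2 = u * v).card : ℝ) := by
  have hex : ∀ a : ℕ, ∃ t : Finset ℕ, (∀ p ∈ t, P p) ∧
      ∀ s : Finset ℕ, (∀ p ∈ s, P p) → (∏ p ∈ s, p) % M = a → (∏ p ∈ t, p) % M = a := by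
    intro a
    by_cases ha : ∃ s : Finset ℕ, (∀ p ∈ s, P p) ∧ (∏ p ∈ s, p) % M = a
    · obtain ⟨t, ht, hta⟩ := ha
      exact ⟨t, ht, fun _ _ _ => hta⟩
    · exact ⟨∅, by simp, fun s hs hsa => absurd ⟨s, hs, hsa⟩ ha⟩
  choose r hrP hr using hex
  have hpos : ∀ s : Finset ℕ, (∀ p ∈ s, P p) → 0 < ∏ p ∈ s, p :=
    fun s hs => Finset.prod_pos fun p hp => (hP p (hs p hp)).pos
  set R := ∏ a ∈ range M, ∏ p ∈ r a, p with hR
  have hR0 : 0 < R := Finset.prod_pos fun a _ => hpos _ (hrP a)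
  set E := D * R with hE
  have hE0 : 0 < E := Nat.mul_pos (Nat.pos_of_ne_zero hD) hR0
  have hE0' : (0 : ℝ) < E := by exact_mod_cast hE0
  have hM0 : (0 : ℝ) < M := by exact_mod_cast Nat.pos_of_ne_zero hM
  refine ⟨c / 8 * (1 / (2 * E)) * Real.exp (-26 - E) / M, by positivity, ?_⟩
  filter_upwards [(Nat.tendsto_div_const_atTop hE0.ne').eventually (count_zero P hP hc h),
    eventually_ge_atTop E] with X ⟨hL, hX⟩ hXE
  set Y := X / E with hY
  set T := (((range (X + 1)).filter P).powerset.filter fun s => D * ∏ p ∈ s, p ≤ X ∧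
          ∃ u v w : ℕ, u ≡ v [MOD M] ∧ u.Coprime M ∧ w ≠ 0 ∧
            (∏ p ∈ s, p) * w ^ 2 = u * v) with hT
  have hcard : (((range (Y + 1)).filter P).powerset.filter fun s => ∏ p ∈ s, p ≤ Y).card ≤
      (range M ×ˢ T).card := by
    refine Finset.card_le_card_of_injOn
      (fun s => ((∏ p ∈ s, p) % M, symmDiff s (r ((∏ p ∈ s, p) % M)))) ?_ ?_
    · intro s hs
      obtain ⟨hs1, hs2⟩ := mem_filter.mp (mem_coe.mp hs)
      have hsP : ∀ p ∈ s, P p := fun p hp => (mem_filter.mp (mem_powerset.mp hs1 hp)).2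
      set a := (∏ p ∈ s, p) % M with ha
      have haM : a ∈ range M := mem_range.mpr (Nat.mod_lt _ (Nat.pos_of_ne_zero hM))
      have htP : ∀ p ∈ symmDiff s (r a), P p := fun p hp => by
        rcases Finset.mem_symmDiff.mp hp with h | h
        · exact hsP p h.1
        · exact hrP a p h.1
      have hw : 0 < ∏ p ∈ s ∩ r a, p := hpos _ fun p hp => hsP p (mem_inter.mp hp).1
      have he := prod_symmDiff s (r a)
      have h1 : ∏ p ∈ r a, p ≤ R :=
        Nat.le_of_dvd hR0 (Finset.dvd_prod_of_mem (fun a => ∏ p ∈ r a, p) haM)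
      have h2 : ∏ p ∈ symmDiff s (r a), p ≤ Y * R := by
        calc _ ≤ (∏ p ∈ symmDiff s (r a), p) * (∏ p ∈ s ∩ r a, p) ^ 2 :=
              Nat.le_mul_of_pos_right _ (pow_pos hw 2)
          _ = _ := he
          _ ≤ _ := Nat.mul_le_mul hs2 h1
      have h3 : D * ∏ p ∈ symmDiff s (r a), p ≤ X := by
        calc _ ≤ D * (Y * R) := Nat.mul_le_mul_left _ h2
          _ = Y * E := by rw [hE]; ring
          _ ≤ X := Nat.div_mul_le_self _ _
      refine mem_coe.mpr (mem_product.mpr ⟨haM, mem_filter.mpr ⟨mem_powerset.mpr ?_, h3,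
        ∏ p ∈ s, p, ∏ p ∈ r a, p, ∏ p ∈ s ∩ r a, p, (hr a s hsP rfl).symm, ?_, hw.ne', he⟩⟩)
      · intro p hp
        refine mem_filter.mpr ⟨mem_range.mpr (Nat.lt_succ_of_le ?_), htP p hp⟩
        calc p ≤ ∏ p ∈ symmDiff s (r a), p :=
              Nat.le_of_dvd (hpos _ htP) (Finset.dvd_prod_of_mem (fun p => p) hp)
          _ ≤ D * ∏ p ∈ symmDiff s (r a), p := Nat.le_mul_of_pos_left _ (Nat.pos_of_ne_zero hD)
          _ ≤ X := h3
      · exact Nat.Coprime.prod_left fun p hp =>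
          (Nat.Prime.coprime_iff_not_dvd (hP p (hsP p hp))).mpr (hPM p (hsP p hp))
    · intro s _ s' _ e
      obtain ⟨e1, e2⟩ := Prod.mk.inj e
      rw [← e1] at e2
      exact symmDiff_left_injective _ e2
  rw [Finset.card_product, Finset.card_range] at hcard
  have hc2 : (((((range (Y + 1)).filter P).powerset.filter
      fun s => ∏ p ∈ s, p ≤ Y).card : ℕ) : ℝ) ≤ M * T.card := by exact_mod_cast hcard
  have a1 : 1 ≤ Y := (Nat.one_le_div_iff hE0).mpr hXE
  have a2 : X < E * (Y + 1) := Nat.lt_mul_div_succ X hE0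
  have a3 : X ≤ E * (2 * Y) := a2.le.trans (Nat.mul_le_mul_left _ (by omega))
  have a4 : (X : ℝ) ≤ E * (2 * (Y : ℝ)) := by exact_mod_cast a3
  have a5 : (X : ℝ) / (2 * E) ≤ Y := by rw [div_le_iff₀ (by positivity)]; linarith
  have hYX : Y ≤ X := Nat.div_le_self _ _
  have a6 : Real.log Y ≤ Real.log X :=
    Real.log_le_log (by exact_mod_cast a1) (by exact_mod_cast hYX)
  have a7 : ∑ p ∈ (range (X + 1)).filter P, 1 / (p : ℝ) ≤
      ∑ p ∈ (range (Y + 1)).filter P, 1 / (p : ℝ) + E := by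
    have hsub : (range (Y + 1)).filter P ⊆ (range (X + 1)).filter P :=
      filter_subset_filter _ (range_mono (by omega))
    rw [← Finset.sum_sdiff hsub, add_comm]
    refine add_le_add le_rfl ?_
    have b1 : (X : ℝ) + 1 ≤ E * (Y + 1) := by exact_mod_cast a2
    calc _ ≤ ((range (X + 1)).filter P \ (range (Y + 1)).filter P).card • (1 / ((Y : ℝ) + 1)) := by
          refine Finset.sum_le_card_nsmul _ _ _ fun p hp => ?_
          obtain ⟨hp1, hp2⟩ := mem_sdiff.mp hp
          have : Y + 1 ≤ p := by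
            by_contra hlt
            exact hp2 (mem_filter.mpr ⟨mem_range.mpr (by omega), (mem_filter.mp hp1).2⟩)
          have : (Y : ℝ) + 1 ≤ p := by exact_mod_cast this
          gcongr
      _ ≤ ((X : ℝ) + 1) * (1 / ((Y : ℝ) + 1)) := by
          rw [nsmul_eq_mul]
          gcongr
          have : ((range (X + 1)).filter P \ (range (Y + 1)).filter P).card ≤ X + 1 :=
            (Finset.card_le_card (sdiff_subset.trans (filter_subset _ _))).trans
              (Finset.card_range _).le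
          exact_mod_cast this
      _ ≤ E := by
          rw [mul_one_div, div_le_iff₀ (by positivity)]
          exact b1
  have hfin : c / 8 * (X / (2 * E) / Real.log X *
      Real.exp (∑ p ∈ (range (X + 1)).filter P, 1 / (p : ℝ) + (-26 - E))) ≤ M * T.card := by
    refine le_trans ?_ (hX.trans hc2)
    gcongr
    linarith
  rw [Real.exp_add] at hfin
  calc _ = c / 8 * (X / (2 * E) / Real.log X *
      (Real.exp (∑ p ∈ (range (X + 1)).filter P, 1 / (p : ℝ)) * Real.exp (-26 - E))) / M := by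
        ring
    _ ≤ _ := by rw [div_le_iff₀ hM0]; linarith

end Pool.Agent.P.MP_ab3ecb_nt
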