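import Pool.Agent.P.MP_ab3ecb_nt.ELS

/-!
Generic local points of a twist, and existence of the function field of a twist.
-/

namespace Pool.Agent.P.MP_ab3ecb_nt

open Polynomial Filter Topology

set_option maxHeartbeats 400000

lemma isSquare_nhds {K : Type} [NontriviallyNormedField K] [CompleteSpace K] [CharZero K] {a : K}
    (ha : a ≠ 0) (hs : IsSquare a) : ∀ᶠ b in 𝓝 a, IsSquare b := by
  obtain ⟨s, rfl⟩ := hs
  have hs0 : s ≠ 0 := by
    rintro rfl
    simp at ha
  have h1 : HasStrictDerivAt (fun z : K => z * z) (1 * s + s * 1) s :=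
    (hasStrictDerivAt_id s).mul (hasStrictDerivAt_id s)
  have h2 := h1.map_nhds_eq (by
    rw [one_mul, mul_one, ← two_mul]
    exact mul_ne_zero two_ne_zero hs0)
  rw [← h2, eventually_map]
  exact Eventually.of_forall fun z => ⟨z, rfl⟩

lemma eval₂_mem_subfield {R F : Type} [CommRing R] [Field F] (S : Subfield F) (φ : R →+* F)
    (hφ : ∀ r, φ r ∈ S) {y : F} (hy : y ∈ S) (q : R[X]) : eval₂ φ y q ∈ S := by
  induction q using Polynomial.induction_on' with
  | add p q hp hq => rw [eval₂_add]; exact add_mem hp hq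
  | monomial n a => rw [eval₂_monomial]; exact mul_mem (hφ a) (pow_mem hy n)

lemma aeval_eq_ringHom {F : Type} [Field F] [CharZero F] (φ : ℚ[X] →+* F) (q : ℚ[X]) :
    aeval (φ X) q = φ q := by
  have : (aeval (φ X) : ℚ[X] →ₐ[ℚ] F).toRingHom = φ :=
    Polynomial.ringHom_ext' (RingHom.ext_rat _ _) (by simp)
  exact RingHom.congr_fun this q

lemma exists_pt_tr {F : Type} [Field F] [CharZero F] {f : ℚ[X]} {d : ℤ} (hd : d ≠ 0) {x y : F}
    (h : IsTwist f d x y) {K : Type} [Field K] [CharZero K]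
    {t : K} (ht : Transcendental ℚ t) (hs : IsSquare ((d : K) * aeval t f)) :
    Nonempty (Pt F K) := by
  obtain ⟨h1, h2, h3⟩ := h
  obtain ⟨b, hb⟩ := hs
  obtain ⟨Ω, _, _, j⟩ : ∃ (Ω : Type) (_ : Field Ω) (_ : IsAlgClosed Ω), Nonempty (K →+* Ω) :=
    ⟨AlgebraicClosure K, inferInstance, inferInstance, ⟨algebraMap _ _⟩⟩
  obtain ⟨j⟩ := j
  let _ : Algebra ℚ[X] F := (aeval x : ℚ[X] →ₐ[ℚ] F).toRingHom.toAlgebra
  let _ : Algebra ℚ[X] Ω := (j.comp (aeval t : ℚ[X] →ₐ[ℚ] K).toRingHom).toAlgebra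
  have eF : ∀ q : ℚ[X], algebraMap ℚ[X] F q = aeval x q := fun q => rfl
  have eΩ : ∀ q : ℚ[X], algebraMap ℚ[X] Ω q = j (aeval t q) := fun q => rfl
  have : Module.IsTorsionFree ℚ[X] F := Module.isTorsionFree_iff_algebraMap_injective.mpr
    (transcendental_iff_injective.mp h1)
  have : Module.IsTorsionFree ℚ[X] Ω := Module.isTorsionFree_iff_algebraMap_injective.mpr
    (j.injective.comp (transcendental_iff_injective.mp ht))
  have hdF : (d : F) ≠ 0 := Int.cast_ne_zero.mpr hd
  have hy2 : y ^ 2 = aeval x (C (d : ℚ)⁻¹ * f) := by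
    rw [map_mul, ← h2]
    simp [hdF]
  have : Algebra.IsAlgebraic ℚ[X] F := ⟨fun z => by
    have hz : z ∈ Subfield.closure {x, y} := h3 ▸ Subfield.mem_top z
    induction hz using Subfield.closure_induction with
    | mem z hz =>
      rcases hz with rfl | rfl
      · have := isAlgebraic_algebraMap (R := ℚ[X]) (A := F) X
        rwa [eF, aeval_X] at this
      · refine IsAlgebraic.of_pow two_pos ?_
        rw [hy2, ← eF]
        exact isAlgebraic_algebraMap _
    | one => exact isAlgebraic_one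
    | add z w _ _ hz hw => exact hz.add hw
    | neg z _ hz => exact hz.neg
    | inv z _ hz => exact hz.inv
    | mul z w _ _ hz hw => exact hz.mul hw⟩
  let ψ : F →ₐ[ℚ[X]] Ω := IsAlgClosed.lift
  have hψ : ∀ q : ℚ[X], ψ (aeval x q) = j (aeval t q) := fun q => by
    rw [← eF, ψ.commutes, eΩ]
  have hx : ψ x = j t := by simpa using hψ X
  have hdK : (d : K) ≠ 0 := Int.cast_ne_zero.mpr hd
  have hy : ψ y = j (b / d) ∨ ψ y = j (-(b / d)) := by
    rw [map_neg, ← sq_eq_sq_iff_eq_or_eq_neg, ← map_pow, ← map_pow, hy2, hψ, map_mul, div_pow,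
      sq b, ← hb]
    congr 1
    simp only [aeval_C, map_inv₀, map_intCast]
    field_simp
  have hr : ∀ z, ψ z ∈ j.fieldRange := fun z => by
    have hz : z ∈ Subfield.closure {x, y} := h3 ▸ Subfield.mem_top z
    have hle : Subfield.closure {x, y} ≤ j.fieldRange.comap ψ.toRingHom := by
      rw [Subfield.closure_le]
      rintro w (rfl | rfl)
      · exact ⟨t, hx.symm⟩
      · rcases hy with hy | hy
        · exact ⟨_, hy.symm⟩
        · exact ⟨_, hy.symm⟩
    exact hle hz
  let φ : F →+* K := j.rangeRestrictFieldEquiv.symm.toRingHom.comp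
    (ψ.toRingHom.codRestrict j.fieldRange hr)
  refine ⟨⟨⊤, φ.comp (⊤ : ValuationSubring F).subtype, ⟨fun z hz => ?_⟩⟩⟩
  have hz0 : (z : F) ≠ 0 := by
    intro h0
    have : φ (z : F) = 0 := by rw [h0, map_zero]
    exact hz.ne_zero this
  exact IsUnit.of_mul_eq_one ⟨(z : F)⁻¹, ValuationSubring.mem_top _⟩
    (Subtype.ext (mul_inv_cancel₀ hz0))

/-- PT (file Pt2.lean), first part. -/
theorem exists_pt_sq {F : Type} [Field F] [CharZero F] {f : ℚ[X]} {d : ℤ} (hd : d ≠ 0) {x y : F}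
    (h : IsTwist f d x y) {K : Type} [NontriviallyNormedField K] [CompleteSpace K] [CharZero K]
    {t : K} (ht : aeval t f ≠ 0) (hs : IsSquare ((d : K) * aeval t f)) : Nonempty (Pt F K) := by
  have h1 := isSquare_nhds (mul_ne_zero (Int.cast_ne_zero.mpr hd) ht) hs
  have h2 : Continuous fun s : K => (d : K) * aeval s f :=
    continuous_const.mul f.continuous_aeval
  have h3 := (h2.tendsto t).eventually h1
  have h4 := (Algebraic.countable ℚ K).dense_compl K
  obtain ⟨s, hs1, hs2⟩ := h4.inter_nhds_nonempty h3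
  exact exists_pt_tr hd h hs1 hs2

/-- PT (file Pt2.lean), second part. -/
theorem exists_twist {f : ℚ[X]} (hf : Squarefree f) (hdeg : 0 < f.natDegree) {d : ℤ} (hd : d ≠ 0) :
    ∃ (F : Type) (_ : Field F) (_ : CharZero F) (x y : F), IsTwist f d x y := by
  obtain ⟨L, _, _, _⟩ : ∃ (L : Type) (_ : Field L) (_ : Algebra ℚ[X] L), IsFractionRing ℚ[X] L :=
    ⟨FractionRing ℚ[X], inferInstance, inferInstance, inferInstance⟩
  have hinj := IsFractionRing.injective ℚ[X] L
  have hdQ : (d : ℚ) ≠ 0 := Int.cast_ne_zero.mpr hd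
  have hirr : Irreducible (X ^ 2 - C (algebraMap ℚ[X] L (C (d : ℚ)⁻¹ * f)) : L[X]) := by
    refine X_pow_sub_C_irreducible_of_prime Nat.prime_two fun b hb => ?_
    obtain ⟨r, rfl⟩ := IsIntegrallyClosed.exists_algebraMap_eq_of_isIntegral_pow (R := ℚ[X])
      two_pos (hb ▸ isIntegral_algebraMap)
    rw [← map_pow] at hb
    have h1 := hinj hb
    have h2 : f = r * r * C (d : ℚ) := by
      rw [← sq, h1, mul_right_comm, ← C_mul, inv_mul_cancel₀ hdQ, C_1, one_mul]
    have h3 := hf r ⟨_, h2⟩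
    rw [h2, natDegree_eq_zero_of_isUnit ((h3.mul h3).mul (isUnit_C.mpr hdQ.isUnit))] at hdeg
    exact lt_irrefl _ hdeg
  obtain ⟨F, _, j, y, hy, hF⟩ : ∃ (F : Type) (_ : Field F) (j : L →+* F) (y : F),
      y ^ 2 = j (algebraMap ℚ[X] L (C (d : ℚ)⁻¹ * f)) ∧ ∀ z : F, ∃ q : L[X], eval₂ j y q = z := by
    have : Fact (Irreducible _) := ⟨hirr⟩
    refine ⟨AdjoinRoot (X ^ 2 - C (algebraMap ℚ[X] L (C (d : ℚ)⁻¹ * f)) : L[X]), inferInstance,
      AdjoinRoot.of _, AdjoinRoot.root _, ?_, fun z => ?_⟩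
    · have := AdjoinRoot.eval₂_root (X ^ 2 - C (algebraMap ℚ[X] L (C (d : ℚ)⁻¹ * f)) : L[X])
      rwa [eval₂_sub, eval₂_X_pow, eval₂_C, sub_eq_zero] at this
    · obtain ⟨q, rfl⟩ := AdjoinRoot.mk_surjective z
      exact ⟨q, AdjoinRoot.aeval_eq q⟩
  let φ : ℚ[X] →+* F := j.comp (algebraMap ℚ[X] L)
  have hφ : Function.Injective φ := j.injective.comp hinj
  have : CharZero F := charZero_of_injective_ringHom hφ
  have he := aeval_eq_ringHom φ
  refine ⟨F, inferInstance, inferInstance, φ X, y, ?_, ?_, ?_⟩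
  · rw [transcendental_iff_injective]
    intro a b hab
    rw [he, he] at hab
    exact hφ hab
  · rw [hy]
    change (d : F) * φ _ = _
    rw [← he, map_mul]
    have : (d : F) ≠ 0 := Int.cast_ne_zero.mpr hd
    simp [this]
  · rw [eq_top_iff]
    intro z _
    obtain ⟨q, rfl⟩ := hF z
    have hm : ∀ a : ℚ[X], φ a ∈ Subfield.closure {φ X, y} := fun a => by
      rw [← he a, aeval_def]
      exact eval₂_mem_subfield (Subfield.closure {φ X, y}) (algebraMap ℚ F)
        (fun r => by rw [eq_ratCast]; exact SubfieldClass.ratCast_mem _ r)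
        (Subfield.subset_closure (s := {φ X, y}) (Or.inl rfl)) a
    refine eval₂_mem_subfield (Subfield.closure {φ X, y}) _ (fun u => ?_)
      (Subfield.subset_closure (s := {φ X, y}) (Or.inr rfl)) q
    obtain ⟨a, b, -, rfl⟩ := IsFractionRing.div_surjective (A := ℚ[X]) u
    rw [map_div₀]
    exact div_mem (hm a) (hm b)

end Pool.Agent.P.MP_ab3ecb_nt
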