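import Mathlib

/-! A separable polynomial of small degree over a prime field takes a value in every square
class (or vanishes); Stepanov's method in its simplest form. -/

namespace Pool.Agent.P.MP_ab3ecb_nt

open Polynomial Finset

namespace Step

variable {K : Type} [Field K]

/-- the differential operator killing `F ^ (j - 1 / 2)` -/
noncomputable def op (F : K[X]) (j : ℕ) (w : K[X]) : K[X] :=
  2 * F * derivative w - (2 * (j : K[X]) - 1) * derivative F * w

lemma op_mul_pow {F T : K[X]} (hT : derivative T = -1) (i j : ℕ) (V : K[X]) :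
    op F i (T ^ (j + 1) * V) = T ^ (j + 1) * op F i V - 2 * ((j : K[X]) + 1) * F * V * T ^ j := by
  simp only [op, derivative_mul, derivative_pow_succ, hT, map_add, map_natCast, map_one]
  ring

lemma op_step (F : K[X]) (j : ℕ) (W B : K[X]) :
    op F (j + 1) (2 * ((j : K[X]) + 1) * F * W + B) =
      2 * ((j : K[X]) + 1) * F * op F j W + op F (j + 1) B := by
  simp only [op, derivative_mul, derivative_add, derivative_ofNat, derivative_natCast,
    derivative_one]
  push_cast
  ring

lemma isUnit_cast {n : ℕ} (h : (n : K) ≠ 0) : IsUnit (n : K[X]) := by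
  rw [← map_natCast (C : K →+* K[X])]
  exact isUnit_C.2 (Ne.isUnit h)

lemma main {F T W₀ : K[X]} {e : K} {n p : ℕ} (hs : F.Separable) (hF : F.natDegree = n)
    (hT : derivative T = -1) (hTd : T.natDegree = p) (hT0 : T ≠ 0) (hTF : IsCoprime T F)
    (he : e ≠ 0) (h0 : op F 0 W₀ = C e * derivative F) (h1 : T ∣ W₀) (h2 : W₀.natDegree ≤ n * p)
    (hu : ∀ j < n, ((2 * j + 1 : ℕ) : K) ≠ 0 ∧ ((2 * (j + 1) : ℕ) : K) ≠ 0) (j : ℕ) (hj : j ≤ n) :
    ∃ W A : K[X], op F j W = T ^ j * A ∧ IsCoprime A F ∧ W.natDegree ≤ j * n + n * p ∧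
      A.natDegree ≤ (j + 1) * n ∧ T ^ (j + 1) ∣ W := by
  have hd : (derivative F).natDegree ≤ n := (natDegree_derivative_le F).trans (by omega)
  induction j with
  | zero =>
    refine ⟨W₀, C e * derivative F, by simpa using h0, ?_, by simpa using h2, ?_, by simpa using h1⟩
    · exact (isCoprime_mul_unit_left_left (isUnit_C.2 (Ne.isUnit he)) _ _).2 hs.symm
    · exact (natDegree_C_mul_le _ _).trans (by omega)
  | succ j ih =>
    obtain ⟨W, A, a1, a2, a3, a4, a5⟩ := ih (by omega)
    obtain ⟨u1, u2⟩ := hu j (by omega)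
    have u1' := isUnit_cast u1
    have u2' := isUnit_cast u2
    have e1 : op F (j + 1) (2 * ((j : K[X]) + 1) * F * W + T ^ (j + 1) * A) =
        T ^ (j + 1) * op F (j + 1) A := by
      rw [op_step, op_mul_pow hT, a1]
      ring
    have c1 : (2 * ((j : K[X]) + 1)).natDegree = 0 := by
      have : (2 * ((j : K[X]) + 1)) = ((2 * (j + 1) : ℕ) : K[X]) := by push_cast; ring
      rw [this, natDegree_natCast]
    refine ⟨_, _, e1, ?_, ?_, ?_, ?_⟩
    · have : op F (j + 1) A = -(((2 * j + 1 : ℕ) : K[X]) * (derivative F * A)) +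
          F * (2 * derivative A) := by
        simp only [op]
        push_cast
        ring
      rw [this]
      refine IsCoprime.add_mul_left_left (IsCoprime.neg_left ?_) _
      exact (isCoprime_mul_unit_left_left u1' _ _).2 (IsCoprime.mul_left hs.symm a2)
    · refine natDegree_add_le_of_degree_le ?_ ?_
      · have b1 := natDegree_mul_le (p := 2 * ((j : K[X]) + 1) * F) (q := W)
        have b2 := natDegree_mul_le (p := 2 * ((j : K[X]) + 1)) (q := F)
        have : (j + 1) * n = j * n + n := by ring
        omega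
      · have b1 := natDegree_mul_le (p := T ^ (j + 1)) (q := A)
        have b2 := natDegree_pow_le (p := T) (n := j + 1)
        have b3 : (j + 1) * p ≤ n * p := Nat.mul_le_mul_right _ hj
        rw [hTd] at b2
        omega
    · have e2 : (j + 1 + 1) * n = (j + 1) * n + n := by ring
      refine (natDegree_sub_le _ _).trans (max_le ?_ ?_)
      · have b1 := natDegree_mul_le (p := 2 * F) (q := derivative A)
        have b2 := natDegree_mul_le (p := (2 : K[X])) (q := F)
        have b3 := natDegree_derivative_le A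
        have b4 : (2 : K[X]).natDegree = 0 := natDegree_ofNat 2
        omega
      · have b0 : (2 * ((j + 1 : ℕ) : K[X]) - 1) = ((2 * j + 1 : ℕ) : K[X]) := by push_cast; ring
        rw [b0]
        have b1 := natDegree_mul_le (p := ((2 * j + 1 : ℕ) : K[X]) * derivative F) (q := A)
        have b2 := natDegree_mul_le (p := ((2 * j + 1 : ℕ) : K[X])) (q := derivative F)
        rw [natDegree_natCast] at b2
        omega
    · obtain ⟨V, hV⟩ : T ^ (j + 1) ∣ 2 * ((j : K[X]) + 1) * F * W + T ^ (j + 1) * A :=
        dvd_add (a5.mul_left _) (dvd_mul_right _ _)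
      rw [hV, op_mul_pow hT] at e1
      have e3 : T ^ j * (((2 * (j + 1) : ℕ) : K[X]) * (F * V)) =
          T ^ j * (T * (op F (j + 1) V - op F (j + 1) A)) := by
        push_cast
        linear_combination -e1
      have e4 := mul_left_cancel₀ (pow_ne_zero j hT0) e3
      have e5 : T ∣ V :=
        hTF.dvd_of_dvd_mul_left ((u2'.dvd_mul_left).1 ⟨_, e4⟩)
      rw [hV, pow_succ T (j + 1)]
      exact mul_dvd_mul_left _ e5

end Step

/-- a separable polynomial of small degree takes a value in every square class (or vanishes). -/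
theorem exists_sq_value {p : ℕ} [Fact p.Prime] (hp2 : p ≠ 2) (F : (ZMod p)[X]) (hs : F.Separable)
    (hn : 0 < F.natDegree) (hp : F.natDegree ^ 2 < p) (a : ZMod p) :
    ∃ x : ZMod p, IsSquare (a * F.eval x) := by
  by_contra hc
  push Not at hc
  have hpp : p.Prime := Fact.out
  obtain ⟨m, hm⟩ : ∃ m, p = 2 * m + 1 := hpp.odd_of_ne_two hp2
  have hm' : p / 2 = m := by omega
  have hne : ∀ x, a * F.eval x ≠ 0 := fun x h => hc x (h ▸ IsSquare.zero)
  have ha : a ≠ 0 := left_ne_zero_of_mul (hne 0)
  have hval : ∀ x, a ^ m * F.eval x ^ m = -1 := fun x => by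
    rw [← mul_pow, ← hm']
    rcases ZMod.pow_div_two_eq_neg_one_or_one p (hne x) with h | h
    · exact absurd ((ZMod.euler_criterion p (hne x)).2 h) (hc x)
    · exact h
  set T : (ZMod p)[X] := X ^ p - X with hTdef
  have hTd : T.natDegree = p := FiniteField.X_pow_card_sub_X_natDegree_eq _ hpp.one_lt
  have hT0 : T ≠ 0 := FiniteField.X_pow_card_sub_X_ne_zero _ hpp.one_lt
  have hTm : T.Monic := by
    refine (monic_X_pow p).sub_of_left ?_
    rw [degree_X, degree_X_pow]
    exact_mod_cast hpp.one_lt
  have hroots : T.roots = (univ : Finset (ZMod p)).val := by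
    have := FiniteField.roots_X_pow_card_sub_X (ZMod p)
    rwa [ZMod.card] at this
  have hprod : T = ∏ x : ZMod p, (X - C x) := by
    have := prod_multiset_X_sub_C_of_monic_of_roots_card_eq hTm
      (by rw [hroots, hTd]; exact ZMod.card p)
    rw [hroots] at this
    exact this.symm
  have hcast : ((p : ℕ) : (ZMod p)[X]) = 0 := by
    rw [← map_natCast (C : ZMod p →+* (ZMod p)[X]), ZMod.natCast_self, map_zero]
  have hT : derivative T = -1 := by
    simp [hTdef, derivative_X_pow]
  have hTF : IsCoprime T F := by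
    rw [hprod]
    refine IsCoprime.prod_left fun x _ => ?_
    rw [(irreducible_X_sub_C x).coprime_iff_not_dvd, dvd_iff_isRoot]
    exact right_ne_zero_of_mul (hne x)
  have h1 : T ∣ C (a ^ m) * F ^ m + 1 := by
    rw [hprod]
    refine Finset.prod_dvd_of_coprime (fun x _ y _ h =>
      pairwise_coprime_X_sub_C Function.injective_id h) fun x _ => ?_
    rw [dvd_iff_isRoot, IsRoot.def]
    simp only [eval_add, eval_mul, eval_C, eval_pow, eval_one, hval, neg_add_cancel]
  have h0 : Step.op F 0 (C (a ^ m) * F ^ m + 1) = C 1 * derivative F := by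
    have e1 : F * derivative (F ^ m) = (m : (ZMod p)[X]) * F ^ m * derivative F := by
      cases m with
      | zero => simp
      | succ m =>
        rw [derivative_pow_succ]
        simp only [map_add, map_natCast, map_one]
        push_cast
        ring
    have e2 : (2 * (m : (ZMod p)[X]) + 1) = 0 := by
      have e3 : ((2 * m + 1 : ℕ) : (ZMod p)[X]) = 0 := by rw [← hm]; exact hcast
      push_cast at e3
      exact e3
    simp only [Step.op, derivative_add, derivative_mul, derivative_C, derivative_one, map_one]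
    push_cast
    linear_combination 2 * C (a ^ m) * e1 + C (a ^ m) * F ^ m * derivative F * e2
  have h2 : (C (a ^ m) * F ^ m + 1).natDegree ≤ F.natDegree * p := by
    refine natDegree_add_le_of_degree_le ((natDegree_C_mul_le _ _).trans ?_) (by simp)
    refine natDegree_pow_le.trans ?_
    rw [mul_comm]
    exact Nat.mul_le_mul_left _ (by omega)
  have hz : ∀ k : ℕ, 0 < k → k < p → (k : ZMod p) ≠ 0 := fun k k0 k1 h =>
    absurd (Nat.le_of_dvd k0 ((ZMod.natCast_eq_zero_iff k p).1 h)) (by omega)
  obtain ⟨W, A, a1, a2, a3, -, a5⟩ := Step.main hs rfl hT hTd hT0 hTF one_ne_zero h0 h1 h2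
    (fun j hj => by
      have b1 : 2 * j + 1 < p := by nlinarith
      refine ⟨hz _ (by omega) b1, ?_⟩
      rw [Nat.cast_mul]
      exact mul_ne_zero (hz 2 (by omega) (by omega)) (hz _ (by omega) (by omega)))
    F.natDegree le_rfl
  have hW : W = 0 := by
    refine eq_zero_of_dvd_of_natDegree_lt a5 ?_
    rw [natDegree_pow, hTd]
    nlinarith
  have hA : A = 0 := by
    have : T ^ F.natDegree * A = 0 := by rw [← a1, hW]; simp [Step.op]
    exact (mul_eq_zero.1 this).resolve_left (pow_ne_zero _ hT0)
  rw [hA, isCoprime_zero_left] at a2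
  exact hn.ne' (natDegree_eq_zero_of_isUnit a2)

end Pool.Agent.P.MP_ab3ecb_nt
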