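import Pool.Agent.P.MP_ab3ecb_nt.Defs3
import Pool.Agent.P.MP_ab3ecb_nt.Pt2
import Pool.Agent.P.MP_ab3ecb_nt.Lower
import Pool.Agent.P.MP_ab3ecb_nt.Step

/-!
A lower bound for the number of everywhere locally soluble quadratic twists.
-/

namespace Pool.Agent.P.MP_ab3ecb_nt

open Polynomial Finset Filter Asymptotics
open scoped Classical IntermediateField

set_option maxHeartbeats 400000

/-- A monic integral model of a squarefree polynomial. -/
theorem exists_model3 (f : ℚ[X]) (hf : Squarefree f) : ∃ (F : ℤ[X]) (a c : ℚ) (e r : ℤ),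
    F.Monic ∧ F.natDegree = f.natDegree ∧ a ≠ 0 ∧ c ≠ 0 ∧ e ≠ 0 ∧ r ≠ 0 ∧
      (∃ u v : ℤ[X], u * F + v * derivative F = C r) ∧
      ∀ (E : Type) [Field E] [CharZero E] (x : E),
        aeval ((a : E) * x) F = e * (c : E) ^ 2 * aeval x f := by
  have hf0 := hf.ne_zero
  have hlc : f.leadingCoeff ≠ 0 := leadingCoeff_ne_zero.mpr hf0
  obtain ⟨j, hj, h1⟩ : ∃ j : ℚ[X], j.Monic ∧ C f.leadingCoeff * j = f :=
    ⟨f * C f.leadingCoeff⁻¹, monic_mul_leadingCoeff_inv hf0, by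
      rw [mul_comm, mul_assoc, ← map_mul, inv_mul_cancel₀ hlc, map_one, mul_one]⟩
  obtain ⟨D, hD, g', hg'⟩ := clear_den j
  have hN : (D : ℚ) ≠ 0 := Int.cast_ne_zero.mpr hD
  obtain ⟨g, hg, hnat, hmon⟩ : ∃ q : ℤ[X], q.map (algebraMap ℤ ℚ) = scE hN j ∧
      q.natDegree = (scE hN j).natDegree ∧ q.Monic := by
    refine lifts_and_natDegree_eq_and_monic ((lifts_iff_coeff_lifts _).mpr fun i => ?_)
      ((monic_scaleRoots_iff _).mpr hj)
    change ∃ z : ℤ, (z : ℚ) = (scaleRoots j _).coeff i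
    rw [coeff_scaleRoots]
    rcases lt_trichotomy i j.natDegree with h | rfl | h
    · obtain ⟨m, hm⟩ := Nat.exists_eq_succ_of_ne_zero (Nat.sub_ne_zero_of_lt h)
      have := congrArg (coeff · i) hg'
      simp only [coeff_map, coeff_C_mul, eq_intCast] at this
      refine ⟨g'.coeff i * D ^ m, ?_⟩
      rw [hm, pow_succ, Int.cast_mul, Int.cast_pow, this]
      ring
    · exact ⟨1, by simp [hj.coeff_natDegree]⟩
    · exact ⟨0, by simp [coeff_eq_zero_of_natDegree_lt h]⟩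
  have h3 : j.natDegree = f.natDegree := by
    conv_rhs => rw [← h1, natDegree_C_mul hlc]
  have hsq : Squarefree (g.map (algebraMap ℤ ℚ)) := fun q hq => by
    have := map_dvd (scE hN).symm (hg ▸ hq)
    rw [map_mul, MulEquiv.symm_apply_apply] at this
    simpa using (hf _ (this.trans (h1 ▸ dvd_mul_left _ _))).map (scE hN)
  obtain ⟨r, hr, hb⟩ := bezout_int (a := g) (b := derivative g) (by
    rw [← derivative_map]
    exact (separable_def _).mp (PerfectField.separable_iff_squarefree.mpr hsq))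
  set κ : ℚ := (D : ℚ) ^ f.natDegree / f.leadingCoeff with hκ
  have hκ0 : κ ≠ 0 := div_ne_zero (pow_ne_zero _ hN) hlc
  refine ⟨g, D, (κ.den : ℚ)⁻¹, κ.num * κ.den, r, hmon, ?_, hN, by simp,
    mul_ne_zero (Rat.num_ne_zero.mpr hκ0) (by simp), hr, hb, fun E _ _ x => ?_⟩
  · rw [hnat]
    change (scaleRoots _ _).natDegree = _
    rw [natDegree_scaleRoots, h3]
  · have k1 := scaleRoots_eval₂_mul (p := j) (algebraMap ℚ E) x (D : ℚ)
    have k2 : ((κ.num * κ.den : ℤ) : ℚ) * (κ.den : ℚ)⁻¹ ^ 2 * f.leadingCoeff =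
        (D : ℚ) ^ f.natDegree := by
      rw [← div_mul_cancel₀ (_ ^ f.natDegree) hlc, ← hκ]
      congr 1
      push_cast
      conv_rhs => rw [← Rat.num_div_den κ]
      field_simp
    rw [← aeval_map_algebraMap ℚ, hg, aeval_def]
    refine k1.trans ?_
    rw [h3, ← map_pow, ← k2, ← aeval_def]
    conv_rhs => rw [← h1]
    simp only [map_mul, aeval_C, map_pow, eq_ratCast, Rat.cast_intCast, mul_assoc]

namespace ELS3

section
variable {f : ℚ[X]} {F : ℤ[X]} {a c : ℚ} {e : ℤ} (ha : a ≠ 0) (hc : c ≠ 0) (he : e ≠ 0)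
  (hmap : ∀ (E : Type) [Field E] [CharZero E] (x : E),
    aeval ((a : E) * x) F = e * (c : E) ^ 2 * aeval x f)
  {d : ℤ} (hd : d ≠ 0) {E : Type} [Field E] [CharZero E] {x y : E} (h : IsTwist f d x y)
include ha hc he hmap hd h

lemma pt_of_root (hf : Squarefree f) {K : Type} [Field K] [CharZero K] {s : K}
    (hs : aeval s F = 0) : Nonempty (Pt E K) := by
  have h1 := hmap K (s / a)
  have ha' : (a : K) ≠ 0 := by exact_mod_cast ha
  have hc' : (c : K) ≠ 0 := by exact_mod_cast hc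
  have he' : (e : K) ≠ 0 := by exact_mod_cast he
  rw [mul_div_cancel₀ _ ha', hs] at h1
  exact exists_pt hf hd h
    ((mul_eq_zero.mp h1.symm).resolve_left (mul_ne_zero he' (pow_ne_zero _ hc')))

lemma pt_of_sq {K : Type} [NontriviallyNormedField K] [CompleteSpace K] [CharZero K] {s : K}
    (hs : aeval s F ≠ 0) (hq : IsSquare ((d : K) * e * aeval s F)) : Nonempty (Pt E K) := by
  have h1 := hmap K (s / a)
  have ha' : (a : K) ≠ 0 := by exact_mod_cast ha
  have hc' : (c : K) ≠ 0 := by exact_mod_cast hc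
  have he' : (e : K) ≠ 0 := by exact_mod_cast he
  rw [mul_div_cancel₀ _ ha'] at h1
  refine exists_pt_sq hd h (t := s / a) (fun h0 => hs (by rw [h1, h0, mul_zero])) ?_
  obtain ⟨w, hw⟩ := hq
  refine ⟨w / (e * c), ?_⟩
  rw [h1] at hw
  field_simp
  linear_combination hw

lemma pt_of_int {K : Type} [NontriviallyNormedField K] [CompleteSpace K] [CharZero K]
    {x0 d0 k : ℤ} {n u v w : ℕ} (h0 : aeval x0 F ≠ 0) (h1 : e * aeval x0 F = d0 * k ^ 2)
    (h2 : d = d0 * n) (hw : w ≠ 0) (h3 : n * w ^ 2 = u * v)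
    (hq : IsSquare (((u * v : ℕ) : ℤ) : K)) : Nonempty (Pt E K) := by
  have e1 : aeval (x0 : K) F = ((aeval x0 F : ℤ) : K) :=
    (map_aeval_int (Int.castRingHom K) x0 F).symm
  refine pt_of_sq ha hc he hmap hd h (s := (x0 : K)) (by rw [e1]; exact_mod_cast h0) ?_
  obtain ⟨z, hz⟩ := hq
  have hw' : (w : K) ≠ 0 := by exact_mod_cast hw
  have h4 : (n : K) * w ^ 2 = z * z := by
    rw [← hz, ← h3]
    push_cast
    ring
  have h5 : (e : K) * ((aeval x0 F : ℤ) : K) = d0 * k ^ 2 := by exact_mod_cast h1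
  refine ⟨d0 * k * z / w, ?_⟩
  rw [e1, mul_assoc, h5, h2]
  push_cast
  field_simp
  linear_combination (d0 : K) ^ 2 * k ^ 2 * h4

end

lemma root_lift {p : ℕ} [Fact p.Prime] {F u v : ℤ[X]} {r : ℤ}
    (sep : u * F + v * derivative F = C r) (hr : ¬ (p : ℤ) ∣ r) {t : ZMod p}
    (ht : aeval t F = 0) : ∃ s : ℚ_[p], aeval s F = 0 := by
  obtain ⟨a, ha⟩ := ZMod.ringHom_surjective (PadicInt.toZMod (p := p)) t
  have hs : aeval t (derivative F) ≠ 0 := by
    intro h0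
    have := congrArg (aeval t) sep
    rw [map_add, map_mul, map_mul, ht, h0, mul_zero, mul_zero, add_zero, aeval_C] at this
    exact hr ((ZMod.intCast_zmod_eq_zero_iff_dvd r p).mp this.symm)
  have h1 : ‖aeval a (derivative F)‖ = 1 := by
    rw [← PadicInt.isUnit_iff, isUnit_iff_toZMod, map_aeval_int, ha]
    exact hs
  obtain ⟨ρ, h2, -⟩ := hensels_lemma (F := F) (a := a) (by
    rw [h1, one_pow, ← PadicInt.not_isUnit_iff, isUnit_iff_toZMod, map_aeval_int, ha, ht, not_not])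
  exact ⟨ρ, by rw [← coe_aeval, h2, PadicInt.coe_zero]⟩

lemma sq_lift {p : ℕ} [Fact p.Prime] (hp2 : p ≠ 2) {F u v : ℤ[X]} {r : ℤ} (hm : F.Monic)
    (hn : 0 < F.natDegree) (hp : F.natDegree ^ 2 < p)
    (sep : u * F + v * derivative F = C r) (hr : ¬ (p : ℤ) ∣ r) {m : ℤ} (hm' : ¬ (p : ℤ) ∣ m)
    (ht : ∀ t : ZMod p, aeval t F ≠ 0) :
    ∃ s : ℚ_[p], aeval s F ≠ 0 ∧ IsSquare ((m : ℚ_[p]) * aeval s F) := by
  have hr' : (r : ZMod p) ≠ 0 := mt (ZMod.intCast_zmod_eq_zero_iff_dvd r p).mp hr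
  have hm2 : (m : ZMod p) ≠ 0 := mt (ZMod.intCast_zmod_eq_zero_iff_dvd m p).mp hm'
  have hdeg : (F.map (algebraMap ℤ (ZMod p))).natDegree = F.natDegree := hm.natDegree_map _
  have hs : (F.map (algebraMap ℤ (ZMod p))).Separable := by
    have h1 := congrArg (Polynomial.map (algebraMap ℤ (ZMod p))) sep
    rw [Polynomial.map_add, Polynomial.map_mul, Polynomial.map_mul, map_C, ← derivative_map] at h1
    refine (separable_def' _).mpr ⟨C (r : ZMod p)⁻¹ * u.map (algebraMap ℤ (ZMod p)),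
      C (r : ZMod p)⁻¹ * v.map (algebraMap ℤ (ZMod p)), ?_⟩
    rw [mul_assoc, mul_assoc, ← mul_add, h1, ← map_mul, eq_intCast, inv_mul_cancel₀ hr', map_one]
  obtain ⟨t, h2⟩ := exists_sq_value hp2 _ hs (hdeg ▸ hn) (hdeg ▸ hp) (m : ZMod p)
  rw [eval_map, ← aeval_def] at h2
  obtain ⟨a, ha⟩ := ZMod.ringHom_surjective (PadicInt.toZMod (p := p)) t
  have h3 : PadicInt.toZMod ((m : ℤ_[p]) * aeval a F) = m * aeval t F := by
    rw [map_mul, map_intCast, map_aeval_int, ha]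
  have h4 : IsUnit ((m : ℤ_[p]) * aeval a F) := by
    rw [isUnit_iff_toZMod, h3]
    exact mul_ne_zero hm2 (ht t)
  have h5 := isSquare_of_toZMod hp2 h4 (h3 ▸ h2)
  rw [PadicInt.coe_mul, coe_aeval, PadicInt.coe_intCast] at h5
  refine ⟨a, fun h0 => ?_, h5⟩
  rw [← coe_aeval, PadicInt.coe_eq_zero] at h0
  exact h4.ne_zero (by rw [h0, mul_zero])

end ELS3

open ELS3 in
/-- Lower bound for the number of everywhere locally soluble twists. -/
theorem els_lower {f : ℚ[X]} (hf : Squarefree f) (hdeg : 0 < f.natDegree) {F : ℤ[X]} {a c : ℚ}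
    {e r : ℤ} (hm : F.Monic) (hF : F.natDegree = f.natDegree) (ha : a ≠ 0) (hc : c ≠ 0)
    (he : e ≠ 0) (hr : r ≠ 0) (sep : ∃ u v : ℤ[X], u * F + v * derivative F = C r)
    (hmap : ∀ (E : Type) [Field E] [CharZero E] (x : E),
      aeval ((a : E) * x) F = e * (c : E) ^ 2 * aeval x f) :
    ∃ M0 : ℕ, M0 ≠ 0 ∧ ∀ M : ℕ, M ≠ 0 → M0 ∣ M → Chb (Rp F M) → ∃ c' : ℝ, 0 < c' ∧
      ∀ᶠ X : ℕ in atTop, c' * (X / Real.log X *
        Real.exp (∑ p ∈ (range (X + 1)).filter (Rp F M), 1 / (p : ℝ))) ≤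
        (Set.ncard {d : ℤ | Squarefree d ∧ |d| ≤ X ∧ ∃ (E : Type) (_ : Field E) (_ : CharZero E)
          (x y : E), IsTwist f d x y ∧ Nonempty (Adelic E)} : ℝ) := by
  obtain ⟨U, V, sep⟩ := sep
  obtain ⟨x0, hx0⟩ : ∃ x0 : ℤ, aeval x0 F ≠ 0 := by
    by_contra hcon
    push Not at hcon
    exact hm.ne_zero (Polynomial.funext fun z => by simpa using hcon z)
  have hN : e * aeval x0 F ≠ 0 := mul_ne_zero he hx0
  obtain ⟨D, k, hD, -, hDk, hDsq⟩ := Nat.sq_mul_squarefree_of_pos (Int.natAbs_pos.mpr hN)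
  obtain ⟨d0, hd0, hd1⟩ : ∃ d0 : ℤ, d0.natAbs = D ∧ e * aeval x0 F = d0 * (k : ℤ) ^ 2 := by
    refine ⟨(e * aeval x0 F).sign * D, ?_, ?_⟩
    · rw [Int.natAbs_mul, Int.natAbs_sign_of_ne_zero hN, one_mul, Int.natAbs_natCast]
    · conv_lhs => rw [← Int.sign_mul_natAbs (e * aeval x0 F), ← hDk]
      push_cast
      ring
  refine ⟨8 * ((e * aeval x0 F).natAbs * (r.natAbs * (F.natDegree ^ 2).factorial)),
    by positivity, fun M hM hM0 hch => ?_⟩
  obtain ⟨c0, hc0, hch⟩ := hch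
  have h8 : 8 ∣ M := (dvd_mul_right _ _).trans hM0
  have hNM : (e * aeval x0 F).natAbs ∣ M := ((dvd_mul_right _ _).mul_left _).trans hM0
  have hrM : r.natAbs ∣ M := (((dvd_mul_right _ _).mul_left _).mul_left _).trans hM0
  have hfM : (F.natDegree ^ 2).factorial ∣ M :=
    (((dvd_mul_left _ _).mul_left _).mul_left _).trans hM0
  have hDM : D ∣ M := (Dvd.intro_left _ hDk).trans hNM
  have heM : e.natAbs ∣ M := (Int.natAbs_dvd_natAbs.mpr (dvd_mul_right _ _)).trans hNM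
  obtain ⟨c', hc', hX⟩ := count_lower (Rp F M) (fun p hp => hp.1) hc0 hch hM hD.ne'
    fun p hp => hp.2.1
  refine ⟨c', hc', hX.mono fun X hX => hX.trans ?_⟩
  rw [Nat.cast_le, ← Set.ncard_coe_finset]
  refine Set.ncard_le_ncard_of_injOn (fun s => d0 * ((∏ p ∈ s, p : ℕ) : ℤ)) ?_ ?_
    ((Set.finite_Icc (-(X : ℤ)) X).subset fun d hd => abs_le.mp hd.2.1)
  · intro s hs
    obtain ⟨hs1, hs2, u, v, w, huv, hu, hw, hsw⟩ := mem_filter.mp (mem_coe.mp hs)
    have hsP : ∀ p ∈ s, Rp F M p := fun p hp => (mem_filter.mp (mem_powerset.mp hs1 hp)).2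
    have hsq : Squarefree (∏ p ∈ s, p) := by
      refine Finset.squarefree_prod_of_pairwise_isCoprime ?_
        fun p hp => (hsP p hp).1.prime.squarefree
      intro p hp q hq hpq
      exact Nat.coprime_iff_isRelPrime.mp ((Nat.coprime_primes (hsP p hp).1 (hsP q hq).1).mpr hpq)
    have hcop : D.Coprime (∏ p ∈ s, p) := Nat.Coprime.prod_right fun p hp =>
      ((Nat.Prime.coprime_iff_not_dvd (hsP p hp).1).mpr fun h => (hsP p hp).2.1 (h.trans hDM)).symm
    generalize hn : ∏ p ∈ s, p = n at *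
    have habs : (d0 * (n : ℤ)).natAbs = D * n := by rw [Int.natAbs_mul, hd0, Int.natAbs_natCast]
    have hdsq : Squarefree (d0 * (n : ℤ)) := by
      rw [← Int.squarefree_natAbs, habs]
      exact (Nat.squarefree_mul hcop).mpr ⟨hDsq, hsq⟩
    have hd := hdsq.ne_zero
    obtain ⟨E, _, _, x, y, h⟩ := exists_twist hf hdeg hd
    refine ⟨hdsq, ?_, E, inferInstance, inferInstance, x, y, h, ⟨⟨Classical.choice ?_,
      fun p => Classical.choice ?_⟩⟩⟩
    · rw [← Int.natCast_natAbs, habs]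
      exact_mod_cast hs2
    · refine pt_of_int ha hc he hmap hd h hx0 hd1 rfl hw hsw ⟨√(((u * v : ℕ) : ℤ) : ℝ), ?_⟩
      exact (Real.mul_self_sqrt (by positivity)).symm
    · obtain ⟨p, hp⟩ := p
      have : Fact p.Prime := ⟨hp⟩
      change Nonempty (Pt E ℚ_[p])
      by_cases hpM : p ∣ M
      · refine pt_of_int ha hc he hmap hd h hx0 hd1 rfl hw hsw (isSquare_bad h8 hpM ?_ huv)
        exact fun h => hp.one_lt.ne' (Nat.eq_one_of_dvd_coprimes hu h hpM)
      have hpr : ¬ (p : ℤ) ∣ r := fun h => hpM ((Int.natCast_dvd.mp h).trans hrM)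
      by_cases hrt : ∃ t : ZMod p, aeval t F = 0
      · obtain ⟨t, ht⟩ := hrt
        obtain ⟨z, hz⟩ := root_lift sep hpr ht
        exact pt_of_root ha hc he hmap hd h hf hz
      have hp2 : p ≠ 2 := by
        rintro rfl
        exact hpM ((by norm_num : 2 ∣ 8).trans h8)
      have hpn : F.natDegree ^ 2 < p := by
        by_contra hcon
        exact hpM (((Nat.Prime.dvd_factorial hp).mpr (not_lt.mp hcon)).trans hfM)
      have hpd : ¬ (p : ℤ) ∣ d0 * n * e := by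
        rw [Int.natCast_dvd, Int.natAbs_mul, habs, hp.dvd_mul, hp.dvd_mul]
        rintro ((h1 | h1) | h1)
        · exact hpM (h1.trans hDM)
        · rw [← hn] at h1
          obtain ⟨q, hq, h2⟩ := (hp.prime.dvd_finsetProd_iff _).mp h1
          obtain rfl := (Nat.prime_dvd_prime_iff_eq hp (hsP q hq).1).mp h2
          exact hrt (hsP p hq).2.2
        · exact hpM (h1.trans heM)
      obtain ⟨z, hz1, hz2⟩ := sq_lift hp2 hm (hF ▸ hdeg) hpn sep hpr hpd
        fun t ht => hrt ⟨t, ht⟩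
      exact pt_of_sq ha hc he hmap hd h hz1 (by rwa [Int.cast_mul] at hz2)
  · intro s hs t ht hst
    have hsP : ∀ p ∈ s, p.Prime := fun p hp =>
      (mem_filter.mp (mem_powerset.mp (mem_filter.mp (mem_coe.mp hs)).1 hp)).2.1
    have htP : ∀ p ∈ t, p.Prime := fun p hp =>
      (mem_filter.mp (mem_powerset.mp (mem_filter.mp (mem_coe.mp ht)).1 hp)).2.1
    have hd0' : d0 ≠ 0 := Int.natAbs_pos.mp (hd0 ▸ hD)
    have h1 : ∏ p ∈ s, p = ∏ p ∈ t, p := by exact_mod_cast mul_left_cancel₀ hd0' hst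
    rw [← Nat.primeFactors_prod hsP, h1, Nat.primeFactors_prod htP]

end Pool.Agent.P.MP_ab3ecb_nt
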