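import Pool.Agent.P.MP_ab3ecb_nt.Points

/-!
The quadratic residue conditions forced by a point of the Brauer-Manin set.
-/

namespace Pool.Agent.P.MP_ab3ecb_nt

open Polynomial TensorProduct Quaternion QuaternionAlgebra Finset
open scoped NumberTheorySymbols Classical

set_option maxHeartbeats 400000
set_option linter.unusedSectionVars false

section padic
variable {p : ℕ} [Fact p.Prime]

lemma inv_unit (hp2 : p ≠ 2) {δ : ℤ} (hδ : ¬ (p : ℤ) ∣ δ) {t : ℚ_[p]} (ht : t ≠ 0) :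
    InvP p ℍ[ℚ_[p],(δ : ℚ_[p]),0,t]
      (if J(δ | p) = -1 ∧ Odd t.valuation then ((1 / 2 : ℚ) : AddCircle (1 : ℚ)) else 0) := by
  have hu := (isUnit_intCast_iff δ).mpr hδ
  by_cases h : J(δ | p) = -1
  · have h1 := InvP.cyclic hp2 (δ : ℤ_[p]) (by
      rw [map_intCast]; exact ZMod.nonsquare_of_jacobiSym_eq_neg_one h) (a := (δ : ℚ_[p]))
      (s := 1) (by simp) one_ne_zero ht
    rcases Int.even_or_odd t.valuation with h2 | h2
    · rw [if_neg fun h3 => Int.not_odd_iff_even.mpr h2 h3.2]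
      rwa [half_even h2] at h1
    · rw [if_pos ⟨h, h2⟩]
      rwa [half_odd h2] at h1
  · rw [if_neg fun h3 => h h3.1]
    refine InvP.of_split (BrEq.quat_left ?_ (val_unit hu).1 ht)
    refine isSquare_of_toZMod hp2 hu ?_
    rw [map_intCast]
    by_contra h2
    exact h (ZMod.nonsquare_iff_jacobiSym_eq_neg_one.mpr h2)

lemma inv_ram (hp2 : p ≠ 2) {δ : ℚ_[p]} (hδ0 : δ ≠ 0) (hδ : Odd δ.valuation) {t : ℤ_[p]}
    (ht : IsUnit t) {n : ℤ} (hn : PadicInt.toZMod t = n) :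
    InvP p ℍ[ℚ_[p],δ,0,(t : ℚ_[p])]
      (if J(n | p) = -1 then ((1 / 2 : ℚ) : AddCircle (1 : ℚ)) else 0) := by
  split_ifs with h
  · have h1 := InvP.cyclic' hp2 t (hn ▸ ZMod.nonsquare_of_jacobiSym_eq_neg_one h)
      (a := (t : ℚ_[p])) (s := 1) (by simp) one_ne_zero hδ0
    rwa [half_odd hδ] at h1
  · refine InvP.of_split (BrEq.quat_right ?_ hδ0 (val_unit ht).1)
    refine isSquare_of_toZMod hp2 ht ?_
    rw [hn]
    by_contra h2
    exact h (ZMod.nonsquare_iff_jacobiSym_eq_neg_one.mpr h2)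

lemma val_one {n : ℤ} (hn : ¬ (p : ℤ) ∣ n) :
    ((p * n : ℤ) : ℚ_[p]) ≠ 0 ∧ ((p * n : ℤ) : ℚ_[p]).valuation = 1 := by
  obtain ⟨h1, h2⟩ := val_unit ((isUnit_intCast_iff n).mpr hn)
  rw [PadicInt.coe_intCast] at h1 h2
  have h3 : (p : ℚ_[p]) ≠ 0 := Nat.cast_ne_zero.mpr (Fact.out : p.Prime).ne_zero
  push_cast
  exact ⟨mul_ne_zero h3 h1, by rw [Padic.valuation_mul h3 h1, h2, Padic.valuation_p, add_zero]⟩

lemma jac_ne_zero {n : ℤ} (hn : (n : ZMod p) ≠ 0) : J(n | p) = 1 ∨ J(n | p) = -1 := by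
  rw [← jacobiSym.legendreSym.to_jacobiSym]
  exact legendreSym.eq_one_or_neg_one p hn

end padic

/-- The modulus `M` collects all bad primes of the family `g` and of the constant `e`. -/
structure Good {J : Type} [Fintype J] (g : J → ℤ[X]) (M : ℕ) (e : ℤ) : Prop where
  M0 : M ≠ 0
  h8 : 8 ∣ M
  lc : ∀ j, (g j).leadingCoeff ∣ M
  ev : ∀ j, Even (g j).natDegree
  bez : ∀ j, ∃ (u v : ℤ[X]) (r : ℤ), u * g j + v * ∏ i ∈ univ.erase j, g i = C r ∧ r ∣ M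
  he : e ∣ M

variable {J : Type} [Fintype J] {g : J → ℤ[X]} {M : ℕ} {e d : ℤ} {F : Type} [Field F] {x y : F}

lemma Good.ne_zero (h : Good g M e) {r : ℤ} (hr : r ∣ M) : r ≠ 0 := by
  rintro rfl
  exact h.M0 (by exact_mod_cast zero_dvd_iff.mp hr)

lemma not_dvd_of_dvd {p M : ℕ} (hp : ¬ p ∣ M) {r : ℤ} (hr : r ∣ M) : ¬ (p : ℤ) ∣ r :=
  fun h => hp (Int.natCast_dvd_natCast.mp (h.trans hr))

lemma Good.even_prod (h : Good g M e) : Even (∏ j, g j).natDegree := by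
  rw [natDegree_prod _ _ fun j _ => leadingCoeff_ne_zero.mp (h.ne_zero (h.lc j))]
  exact Finset.even_sum _ fun j _ => h.ev j

lemma Good.lc_prod (h : Good g M e) {p : ℕ} [Fact p.Prime] (hp : ¬ p ∣ M) :
    ¬ (p : ℤ) ∣ (∏ j, g j).leadingCoeff := by
  rw [leadingCoeff_prod, (Nat.prime_iff_prime_int.mp Fact.out).dvd_finsetProd_iff]
  rintro ⟨j, -, hj⟩
  exact not_dvd_of_dvd hp (h.lc j) hj

/-- The point `P` reduces to the root `θ` of `g i` modulo `p`. -/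
def AtPt (g : J → ℤ[X]) (x : F) {p : ℕ} [Fact p.Prime] (P : Pt F ℚ_[p]) (i : J) (θ : ℕ) : Prop :=
  ∃ (hx : x ∈ P.O) (a : ℤ_[p]), (a : ℚ_[p]) = P.φ ⟨x, hx⟩ ∧ ¬ IsUnit (aeval a (g i)) ∧
    PadicInt.toZMod a = θ ∧ θ < p

lemma val_D (h : Good g M e) (hd : Squarefree d) {p : ℕ} [Fact p.Prime] (hp : ¬ p ∣ M)
    (hpd : (p : ℤ) ∣ d) : ((e * d : ℤ) : ℚ_[p]).valuation = 1 := by
  obtain ⟨d', rfl⟩ := hpd
  have h1 : ¬ (p : ℤ) ∣ e * d' := by
    rw [(Nat.prime_iff_prime_int.mp Fact.out).dvd_mul, not_or]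
    refine ⟨not_dvd_of_dvd hp h.he, fun h2 => ?_⟩
    exact (Nat.prime_iff_prime_int.mp (Fact.out : p.Prime)).not_isUnit
      (hd p (mul_dvd_mul_left _ h2))
  rw [show e * (p * d') = p * (e * d') by ring]
  exact (val_one h1).2

lemma exists_atPt (h : Good g M e) (hd : Squarefree d)
    (hxy : ((e * d : ℤ) : F) * y ^ 2 = aeval x (∏ j, g j)) {p : ℕ} [Fact p.Prime] (hp : ¬ p ∣ M)
    (hpd : (p : ℤ) ∣ d) (P : Pt F ℚ_[p]) : ∃ i θ, AtPt g x P i θ := by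
  have hD : e * d ≠ 0 := mul_ne_zero (h.ne_zero h.he) hd.ne_zero
  have hv := val_D h hd hp hpd
  have hodd : ∀ b : ℚ_[p], ((e * d : ℤ) : ℚ_[p]) * b ^ 2 ≠ 0 →
      ¬ Even (((e * d : ℤ) : ℚ_[p]) * b ^ 2).valuation := by
    intro b hb
    rw [val_mul_sq hb, hv, Int.not_even_iff_odd]
    exact ⟨b.valuation, by ring⟩
  obtain ⟨h1, h2⟩ := P.eqn hD h.even_prod hxy
  by_cases hx : x ∈ P.O
  · obtain ⟨b, hb⟩ := h1 hx
    have h3 : ‖P.φ ⟨x, hx⟩‖ ≤ 1 := by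
      by_contra h3
      obtain ⟨h4, h5⟩ := big_arg (h.lc_prod hp) h.even_prod (not_le.mp h3)
      exact hodd b (hb ▸ h4) (hb ▸ h5)
    obtain ⟨a, ha⟩ : ∃ a : ℤ_[p], (a : ℚ_[p]) = P.φ ⟨x, hx⟩ := ⟨⟨_, h3⟩, rfl⟩
    have h4 : ¬ IsUnit (aeval a (∏ j, g j)) := by
      intro h4
      obtain ⟨h5, h6⟩ := val_unit h4
      rw [coe_aeval, ha, ← hb] at h5 h6
      exact hodd b h5 (h6 ▸ Even.zero)
    rw [map_prod, IsUnit.prod_iff] at h4
    simp only [mem_univ, true_imp_iff, not_forall] at h4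
    obtain ⟨i, hi⟩ := h4
    exact ⟨i, (PadicInt.toZMod a).val, hx, a, ha, hi, (ZMod.natCast_zmod_val _).symm,
      ZMod.val_lt _⟩
  · obtain ⟨w, hw⟩ := h2 hx
    obtain ⟨h5, h6⟩ := val_unit ((isUnit_intCast_iff _).mpr (h.lc_prod hp))
    rw [PadicInt.coe_intCast, ← hw] at h5 h6
    exact absurd (h6 ▸ Even.zero) (hodd w h5)

lemma AtPt.unit (h : Good g M e) {p : ℕ} [Fact p.Prime] (hp : ¬ p ∣ M) {i j : J} (hj : j ≠ i)
    {a : ℤ_[p]} (ha : ¬ IsUnit (aeval a (g i))) : IsUnit (aeval a (g j)) := by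
  obtain ⟨u, v, r, h1, h2⟩ := h.bez i
  have := bez_unit (not_dvd_of_dvd hp h2) h1 ha
  rw [map_prod, IsUnit.prod_iff] at this
  exact this j (mem_erase.mpr ⟨hj, mem_univ _⟩)

lemma toZMod_aeval {p : ℕ} [Fact p.Prime] {a : ℤ_[p]} {θ : ℕ} (h : PadicInt.toZMod a = θ)
    (G : ℤ[X]) : PadicInt.toZMod (aeval a G) = (G.eval (θ : ℤ) : ℤ) := by
  rw [map_aeval_int, h, ← Int.cast_natCast, aeval_def, algebraMap_int_eq, eval₂_at_intCast]
  simp

lemma AtPt.mem_rts {p : ℕ} [Fact p.Prime] {P : Pt F ℚ_[p]} {i : J} {θ : ℕ}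
    (h : AtPt g x P i θ) : θ ∈ rts (g i) p := by
  obtain ⟨_, a, -, h1, h2, h3⟩ := h
  refine mem_filter.mpr ⟨mem_range.mpr h3, ?_⟩
  rwa [isUnit_iff_toZMod, not_not, toZMod_aeval h2, ZMod.intCast_zmod_eq_zero_iff_dvd] at h1

lemma AtPt.jac (h : Good g M e) {p : ℕ} [Fact p.Prime] (hp : ¬ p ∣ M) {P : Pt F ℚ_[p]} {i j : J}
    {θ : ℕ} (hP : AtPt g x P i θ) (hj : j ≠ i) :
    J((g j).eval (θ : ℤ) | p) = 1 ∨ J((g j).eval (θ : ℤ) | p) = -1 := by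
  obtain ⟨_, a, -, h1, h2, -⟩ := hP
  have := AtPt.unit h hp hj h1
  rw [isUnit_iff_toZMod, toZMod_aeval h2] at this
  exact jac_ne_zero this

/-- The description of the local value of `g j (x)` at a point. -/
def IsVal (g : J → ℤ[X]) (D : ℤ) (x : F) {K : Type} [Field K] (P : Pt F K) (j : J) (t : K) :
    Prop :=
  t ≠ 0 ∧ (∀ hx : x ∈ P.O, (aeval (P.φ ⟨x, hx⟩) (g j) ≠ 0 ∧ t = aeval (P.φ ⟨x, hx⟩) (g j)) ∨
    (aeval (P.φ ⟨x, hx⟩) (g j) = 0 ∧ t = D * aeval (P.φ ⟨x, hx⟩) (∏ i ∈ univ.erase j, g i))) ∧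
  (x ∉ P.O → t = (g j).leadingCoeff)

lemma exists_val (h : Good g M e) (hd : d ≠ 0)
    (hxy : ((e * d : ℤ) : F) * y ^ 2 = aeval x (∏ j, g j)) (j : J) (hG : aeval x (g j) ≠ 0)
    {K : Type} [Field K] [CharZero K] (P : Pt F K) {δ : ℤ} (hδ : δ ≠ 0) :
    ∃ t : K, IsVal g (e * d) x P j t ∧
      ∀ (Inv : (B : Type) → [Ring B] → [Algebra K B] → AddCircle (1 : ℚ) → Prop)
        (q : AddCircle (1 : ℚ)), (∀ (B B' : Type) [Ring B] [Ring B'] [Algebra K B] [Algebra K B'],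
          (B ≃ₐ[K] B') → Inv B' q → Inv B q) → Inv ℍ[K,(δ : K),0,t] q →
        ValInv ℍ[F,(δ : F),0,aeval x (g j)] P Inv q := by
  obtain ⟨u, v, r, h1, h2⟩ := h.bez j
  rw [← Finset.mul_prod_erase _ _ (mem_univ j), map_mul] at hxy
  obtain ⟨τ, h3, ⟨s, hs, h4⟩, h5⟩ := exists_tau P.O P.isUnit_intCast (h.ne_zero h2)
    (mul_ne_zero (h.ne_zero h.he) hd) h1 (h.ev j) hxy hG
  exact ⟨P.φ τ, ⟨(h3.map P.φ).ne_zero, h5 K P.φ P.loc⟩, fun Inv q k1 k2 =>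
    valInv_quat P hδ h3 hs h4 Inv q k1 k2⟩

lemma unram_quat [CharZero F] (h : Good g M e) (hd : d ≠ 0)
    (hxy : ((e * d : ℤ) : F) * y ^ 2 = aeval x (∏ j, g j)) (j : J) (hG : aeval x (g j) ≠ 0)
    {δ : ℤ} (hδ : δ ≠ 0) : Unram F ℍ[F,(δ : F),0,aeval x (g j)] := by
  intro O hO
  obtain ⟨u, v, r, h1, h2⟩ := h.bez j
  rw [← Finset.mul_prod_erase _ _ (mem_univ j), map_mul] at hxy
  obtain ⟨τ, h3, ⟨s, hs, h4⟩, -⟩ := exists_tau O (isUnit_intCast_of_rat O hO) (h.ne_zero h2)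
    (mul_ne_zero (h.ne_zero h.he) hd) h1 (h.ev j) hxy hG
  exact ⟨_, _, _, isModel_quat O (isUnit_intCast_of_rat O hO) hδ h3 hs h4⟩

lemma IsVal.parity (h : Good g M e) (hd : d ≠ 0)
    (hxy : ((e * d : ℤ) : F) * y ^ 2 = aeval x (∏ j, g j)) {p : ℕ} [Fact p.Prime] (hp : ¬ p ∣ M)
    {P : Pt F ℚ_[p]} {j : J} {t : ℚ_[p]} (ht : IsVal g (e * d) x P j t) (hx : x ∈ P.O)
    {a : ℤ_[p]} (ha : (a : ℚ_[p]) = P.φ ⟨x, hx⟩) (hu : ¬ IsUnit (aeval a (g j))) :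
    ∃ k : ℤ, t.valuation = ((e * d : ℤ) : ℚ_[p]).valuation + 2 * k := by
  have hD : e * d ≠ 0 := mul_ne_zero (h.ne_zero h.he) hd
  obtain ⟨u, v, r, h1, h2⟩ := h.bez j
  obtain ⟨b, hb⟩ := (P.eqn hD h.even_prod hxy).1 hx
  rw [← Finset.mul_prod_erase _ _ (mem_univ j), map_mul, ← ha] at hb
  exact val_parity (not_dvd_of_dvd hp h2) hD h1 hb hu (ha ▸ ht.2.1 hx)

lemma IsVal.eq_of_unit {D : ℤ} {p : ℕ} [Fact p.Prime] {P : Pt F ℚ_[p]} {j : J} {t : ℚ_[p]}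
    (ht : IsVal g D x P j t) (hx : x ∈ P.O) {a : ℤ_[p]} (ha : (a : ℚ_[p]) = P.φ ⟨x, hx⟩)
    (hu : IsUnit (aeval a (g j))) : t = (aeval a (g j) : ℤ_[p]) := by
  rcases ht.2.1 hx with h1 | h1
  · rw [coe_aeval, ha, h1.2]
  · exact absurd (by rw [coe_aeval, ha, h1.1]) (val_unit hu).1

lemma IsVal.even (h : Good g M e) (hd : d ≠ 0)
    (hxy : ((e * d : ℤ) : F) * y ^ 2 = aeval x (∏ j, g j)) {p : ℕ} [Fact p.Prime] (hp : ¬ p ∣ M)
    (hpd : ¬ (p : ℤ) ∣ d) {P : Pt F ℚ_[p]} {j : J} {t : ℚ_[p]} (ht : IsVal g (e * d) x P j t) :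
    Even t.valuation := by
  by_cases hx : x ∈ P.O
  · by_cases h3 : ‖P.φ ⟨x, hx⟩‖ ≤ 1
    · obtain ⟨a, ha⟩ : ∃ a : ℤ_[p], (a : ℚ_[p]) = P.φ ⟨x, hx⟩ := ⟨⟨_, h3⟩, rfl⟩
      by_cases hu : IsUnit (aeval a (g j))
      · rw [ht.eq_of_unit hx ha hu, (val_unit hu).2]
        exact Even.zero
      · obtain ⟨k, hk⟩ := ht.parity h hd hxy hp hx ha hu
        have h4 : ¬ (p : ℤ) ∣ e * d := by
          rw [(Nat.prime_iff_prime_int.mp Fact.out).dvd_mul, not_or]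
          exact ⟨not_dvd_of_dvd hp h.he, hpd⟩
        have h5 := (val_unit ((isUnit_intCast_iff _).mpr h4)).2
        rw [PadicInt.coe_intCast] at h5
        rw [hk, h5, zero_add]
        exact even_two_mul k
    · obtain ⟨h4, h5⟩ := big_arg (not_dvd_of_dvd hp (h.lc j)) (h.ev j) (not_le.mp h3)
      rcases ht.2.1 hx with h1 | h1
      · exact h1.2 ▸ h5
      · exact absurd h1.1 h4
  · have h5 := (val_unit ((isUnit_intCast_iff _).mpr (not_dvd_of_dvd hp (h.lc j)))).2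
    rw [PadicInt.coe_intCast] at h5
    rw [ht.2.2 hx, h5]
    exact Even.zero

/-- The good primes dividing `d`. -/
noncomputable def gp (M : ℕ) (d : ℤ) : Finset ℕ := d.natAbs.primeFactors.filter fun p => ¬ p ∣ M

lemma mem_gp {p : ℕ} (hd : d ≠ 0) : p ∈ gp M d ↔ p.Prime ∧ (p : ℤ) ∣ d ∧ ¬ p ∣ M := by
  simp [gp, Int.natCast_dvd, hd, and_assoc]

theorem local_conditions [Nonempty J] [CharZero F] (h : Good g M e) (hd : Squarefree d)
    (hxy : ((e * d : ℤ) : F) * y ^ 2 = aeval x (∏ j, g j)) (hG : ∀ j, aeval x (g j) ≠ 0)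
    (P : Adelic F) (hP : InBM P) :
    ∃ (cls : ℕ → J) (θ : ℕ → ℕ), (∀ q ∈ gp M d, θ q ∈ rts (g (cls q)) q ∧ ∀ j, j ≠ cls q →
        J((g j).eval (θ q : ℤ) | q) = 1 ∨ J((g j).eval (θ q : ℤ) | q) = -1) ∧
      ∀ q ∈ gp M d, ∀ q' ∈ gp M d, q ≡ q' [MOD M] → ∀ j, j ≠ cls q → j ≠ cls q' →
        (∏ p ∈ gp M d with cls p = j, J((q : ℤ) | p)) * J((g j).eval (θ q : ℤ) | q)
          = (∏ p ∈ gp M d with cls p = j, J((q' : ℤ) | p)) * J((g j).eval (θ q' : ℤ) | q') := by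
  have hd0 := hd.ne_zero
  have hex : ∀ q : ℕ, ∃ (i : J) (θ : ℕ), ∀ hq : q.Prime, q ∈ gp M d →
      @AtPt J F _ g x q ⟨hq⟩ (P.fin ⟨q, hq⟩) i θ := by
    intro q
    by_cases hq : q ∈ gp M d
    · obtain ⟨h1, h2, h3⟩ := (mem_gp hd0).mp hq
      have : Fact q.Prime := ⟨h1⟩
      obtain ⟨i, θ, h4⟩ := exists_atPt h hd hxy h3 h2 (P.fin ⟨q, h1⟩)
      exact ⟨i, θ, fun _ _ => h4⟩
    · exact ⟨Classical.arbitrary J, 0, fun _ h => absurd h hq⟩
  choose cls θ hAt using hex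
  have hjac : ∀ q ∈ gp M d, ∀ j, j ≠ cls q →
      J((g j).eval (θ q : ℤ) | q) = 1 ∨ J((g j).eval (θ q : ℤ) | q) = -1 := by
    intro q hq j hj
    obtain ⟨h1, -, h3⟩ := (mem_gp hd0).mp hq
    have : Fact q.Prime := ⟨h1⟩
    exact (hAt q h1 hq).jac h h3 hj
  refine ⟨cls, θ, fun q hq => ⟨?_, hjac q hq⟩, fun q hq q' hq' hqq j hj hj' => ?_⟩
  · have h1 := ((mem_gp hd0).mp hq).1
    have : Fact q.Prime := ⟨h1⟩
    exact (hAt q h1 hq).mem_rts
  by_cases hne : q = q'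
  · rw [hne]
  obtain ⟨q1, -, q3⟩ := (mem_gp hd0).mp hq
  obtain ⟨q1', -, q3'⟩ := (mem_gp hd0).mp hq'
  have hδ : ((q * q' : ℕ) : ℤ) ≠ 0 := by exact_mod_cast mul_ne_zero q1.ne_zero q1'.ne_zero
  set sgn : ℕ → ℤ := fun p => if cls p = j then J(((q * q' : ℕ) : ℤ) | p)
    else if p = q ∨ p = q' then J((g j).eval (θ p : ℤ) | p) else 1 with hsgn
  have hnd : ∀ p : ℕ, p.Prime → ¬ (p = q ∨ p = q') → ¬ (p : ℤ) ∣ ((q * q' : ℕ) : ℤ) := by
    intro p hp h1 h2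
    rw [Int.natCast_dvd_natCast, hp.dvd_mul, Nat.prime_dvd_prime_iff_eq hp q1,
      Nat.prime_dvd_prime_iff_eq hp q1'] at h2
    exact h1 h2
  have hcl : ∀ p, cls p = j → ¬ (p = q ∨ p = q') := by
    rintro p rfl (rfl | rfl)
    · exact hj rfl
    · exact hj' rfl
  have hs : ∀ p ∈ gp M d, sgn p = 1 ∨ sgn p = -1 := by
    intro p hp
    have p1 := ((mem_gp hd0).mp hp).1
    have : Fact p.Prime := ⟨p1⟩
    simp only [hsgn]
    split_ifs with h1 h2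
    · exact jac_ne_zero fun h => hnd p p1 (hcl p h1) ((ZMod.intCast_zmod_eq_zero_iff_dvd _ _).mp h)
    · exact hjac p hp j (Ne.symm h1)
    · exact Or.inl rfl
  let inv : Nat.Primes →₀ AddCircle (1 : ℚ) := Finsupp.onFinset ((gp M d).subtype Nat.Prime)
    (fun p => if (p : ℕ) ∈ gp M d ∧ sgn p = -1 then ((1 / 2 : ℚ) : AddCircle (1 : ℚ)) else 0)
    (fun p hp => by
      by_contra hcon
      exact hp (if_neg fun h => hcon (mem_subtype.mpr h.1)))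
  have key := hP _ (unram_quat h hd0 hxy j (hG j) hδ) 0 inv ?_ ?_
  · rw [zero_add, Finsupp.sum_onFinset _ _ _ _ (fun _ _ => rfl)] at key
    have k1 : ∑ p ∈ gp M d, (if sgn p = -1 then ((1 / 2 : ℚ) : AddCircle (1 : ℚ)) else 0) = 0 := by
      rw [← Finset.sum_subtype_of_mem _ fun p hp => ((mem_gp hd0).mp hp).1]
      refine Eq.trans (Finset.sum_congr rfl fun p hp => ?_) key
      have : (p : ℕ) ∈ gp M d := mem_subtype.mp hp
      simp only [this, true_and]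
    have k2 := prod_eq_one_of_sum _ sgn hs k1
    rw [Finset.prod_ite, Finset.prod_ite, Finset.prod_const_one, mul_one] at k2
    have k3 : ((gp M d).filter fun p => ¬ cls p = j).filter (fun p => p = q ∨ p = q') = {q, q'} := by
      ext p
      simp only [mem_filter, mem_insert, mem_singleton]
      refine ⟨fun h => h.2, fun h => ⟨?_, h⟩⟩
      rcases h with rfl | rfl
      · exact ⟨hq, hj.symm⟩
      · exact ⟨hq', hj'.symm⟩
    rw [k3, Finset.prod_pair hne] at k2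
    simp only [Nat.cast_mul, jacobiSym.mul_left, Finset.prod_mul_distrib] at k2
    apply Int.eq_of_mul_eq_one
    linear_combination k2
  · obtain ⟨t, ht, h1⟩ := exists_val h hd0 hxy j (hG j) P.inf hδ
    refine h1 _ _ (fun _ _ _ _ _ _ e h => InvR.of_equiv e h) (Or.inl ⟨?_, rfl⟩)
    refine BrEq.quat_left ?_ (Int.cast_ne_zero.mpr hδ) ht.1
    exact ⟨√((q * q' : ℕ) : ℤ), (Real.mul_self_sqrt (by positivity)).symm⟩
  · rintro ⟨p, p1⟩
    have : Fact p.Prime := ⟨p1⟩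
    obtain ⟨t, ht, h1⟩ := exists_val h hd0 hxy j (hG j) (P.fin ⟨p, p1⟩) hδ
    refine h1 _ _ (fun _ _ _ _ _ _ e h => InvP.of_equiv e h) ?_
    change InvP p _ (if p ∈ gp M d ∧ sgn p = -1 then _ else _)
    by_cases hpM : p ∣ M
    · rw [if_neg fun h => ((mem_gp hd0).mp h.1).2.2 hpM]
      refine InvP.of_split (BrEq.quat_left (isSquare_bad h.h8 hpM ?_ hqq)
        (Int.cast_ne_zero.mpr hδ) ht.1)
      rw [Nat.prime_dvd_prime_iff_eq p1 q1]
      rintro rfl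
      exact q3 hpM
    have hp2 : p ≠ 2 := by
      rintro rfl
      exact hpM (Dvd.dvd.trans (by norm_num) h.h8)
    by_cases hpq : p = q ∨ p = q'
    · have hp : p ∈ gp M d := by rcases hpq with rfl | rfl <;> assumption
      have hc : cls p ≠ j := fun h => hcl p h hpq
      obtain ⟨hx, a, ha, k1, k2, -⟩ := hAt p p1 hp
      have k3 := AtPt.unit h hpM hc.symm k1
      have k4 : (((q * q' : ℕ) : ℤ) : ℚ_[p]).valuation = 1 := by
        rcases hpq with rfl | rfl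
        · rw [Nat.cast_mul]
          refine (val_one ?_).2
          rwa [Int.natCast_dvd_natCast, Nat.prime_dvd_prime_iff_eq p1 q1']
        · rw [Nat.cast_mul, mul_comm]
          refine (val_one ?_).2
          rw [Int.natCast_dvd_natCast, Nat.prime_dvd_prime_iff_eq p1 q1]
          exact Ne.symm hne
      have k5 := inv_ram hp2 (Int.cast_ne_zero.mpr hδ) (k4 ▸ odd_one) k3 (toZMod_aeval k2 _)
      rw [ht.eq_of_unit hx ha k3]
      simp only [hsgn, hp, true_and, if_neg hc, if_pos hpq]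
      exact k5
    · have k1 := inv_unit hp2 (hnd p p1 hpq) ht.1
      have k2 : (p ∈ gp M d ∧ sgn p = -1) ↔
          (J(((q * q' : ℕ) : ℤ) | p) = -1 ∧ Odd t.valuation) := by
        by_cases hp : p ∈ gp M d
        · obtain ⟨hx, a, ha, k1, -, -⟩ := hAt p p1 hp
          by_cases hc : cls p = j
          · obtain ⟨k, hk⟩ := ht.parity h hd0 hxy hpM hx ha (hc ▸ k1)
            rw [val_D h hd hpM ((mem_gp hd0).mp hp).2.1] at hk
            have : Odd t.valuation := ⟨k, by rw [hk]; ring⟩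
            simp only [hsgn, hp, true_and, if_pos hc, this, and_true]
          · have k3 := AtPt.unit h hpM (Ne.symm hc) k1
            have : ¬ Odd t.valuation := by
              rw [ht.eq_of_unit hx ha k3, (val_unit k3).2]
              decide
            simp [hsgn, hc, hpq, this]
        · have : ¬ Odd t.valuation := Int.not_odd_iff_even.mpr
            (ht.even h hd0 hxy hpM fun h => hp ((mem_gp hd0).mpr ⟨p1, h, hpM⟩))
          simp [hp, this]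
      simp only [k2]
      exact k1

end Pool.Agent.P.MP_ab3ecb_nt
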