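import Pool.Agent.P.MP_ab3ecb_nt.Val
import Pool.Agent.P.MP_ab3ecb_nt.Local

/-!
Values of the test classes at `p`-adic points.
-/

namespace Pool.Agent.P.MP_ab3ecb_nt

open TensorProduct Module Polynomial
open scoped NumberTheorySymbols

set_option maxHeartbeats 400000
set_option linter.unusedSectionVars false

lemma sy_of_rep {K : Type} [Field K] {x y a b c : K} (hx : x ≠ 0) (hy : y ≠ 0)
    (hc : c = x * a ^ 2 + y * b ^ 2) (h0 : c ≠ 0) : sy x y = sy c (c * x * y) := by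
  rw [← cc_bin' hx hy, ← cc_bin' h0 (mul_ne_zero (mul_ne_zero h0 hx) hy)]
  let f : K × K →ₗ[K] K × K :=
    (a • LinearMap.fst K K K - (y * b) • LinearMap.snd K K K).prod
      (b • LinearMap.fst K K K + (x * a) • LinearMap.snd K K K)
  let g : K × K →ₗ[K] K × K :=
    ((x * a / c) • LinearMap.fst K K K + (y * b / c) • LinearMap.snd K K K).prod
      ((a / c) • LinearMap.snd K K K - (b / c) • LinearMap.fst K K K)
  refine (cc_congr (equiv_of (LinearEquiv.ofLinearMap f g ?_ ?_) fun z => ?_)).symm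
  · refine LinearMap.ext fun z => Prod.ext ?_ ?_
    · simp [f, g]; field_simp; rw [hc]; ring
    · simp [f, g]; field_simp; rw [hc]; ring
  · refine LinearMap.ext fun z => Prod.ext ?_ ?_
    · simp [f, g]; field_simp; rw [hc]; ring
    · simp [f, g]; field_simp; rw [hc]; ring
  · simp [f, bin_apply, hc]; ring

section idem
variable {R B : Type} [CommRing R] [CommRing B] [Algebra R B] [Module.Free R B] [Module.Finite R B]

lemma Perf.inj {s : B →ₗ[R] R} (h : Perf (bf s 1)) {z : B} (hz : ∀ w, s (z * w) = 0) : z = 0 := by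
  classical
  let b := Module.Free.chooseBasis R B
  have h1 : Function.Injective (bf s 1) :=
    OrzechProperty.injective_of_surjective_of_injective b.toDualEquiv.toLinearMap _
      b.toDualEquiv.injective h
  refine h1 (LinearMap.ext fun w => ?_)
  rw [bf_apply, one_mul, hz, map_zero, LinearMap.zero_apply]

lemma exists_idem (h : Perf (bf (Algebra.trace R B) 1)) (l : B →ₐ[R] R) :
    ∃ ε : B, (∀ z, z * ε = l z • ε) ∧ l ε = 1 := by
  obtain ⟨ε, hε⟩ := h l.toLinearMap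
  have h1 : ∀ w, Algebra.trace R B (ε * w) = l w := fun w => by
    simpa [bf_apply] using LinearMap.congr_fun hε w
  have h2 : ∀ z, z * ε = l z • ε := fun z => sub_eq_zero.mp (h.inj fun w => by
    rw [sub_mul, map_sub, smul_mul_assoc, map_smul, mul_comm z, mul_assoc, h1, h1, map_mul,
      smul_eq_mul, sub_self])
  refine ⟨ε, h2, ?_⟩
  have h3 : Algebra.lmul R B ε = l.toLinearMap.smulRight ε := LinearMap.ext fun z => by
    simpa [mul_comm] using h2 z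
  have h4 := h1 1
  rwa [mul_one, map_one, Algebra.trace_apply, h3, LinearMap.trace_smulRight] at h4

variable {l : B →ₐ[R] R} {ε : B}

lemma idem_mul (hε : ∀ z, z * ε = l z • ε) (hl : l ε = 1) (x y : B) :
    ε + (1 - ε) * (x * y) = (ε + (1 - ε) * x) * (ε + (1 - ε) * y) := by
  have h1 := hε ε
  rw [hl, one_smul] at h1
  linear_combination (-1 + x + y - x * y) * h1

lemma norm_idem (hε : ∀ z, z * ε = l z • ε) (hl : l ε = 1) (x : B) :
    Algebra.norm R x = l x * Algebra.norm R (ε + (1 - ε) * x) := by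
  have h1 := hε ε
  rw [hl, one_smul] at h1
  have h2 : Algebra.norm R (1 + (l x - 1) • ε) = l x := by
    have : Algebra.lmul R B (1 + (l x - 1) • ε) =
        LinearMap.transvection ((l x - 1) • l.toLinearMap) ε := LinearMap.ext fun z => by
      simp [LinearMap.transvection.apply, mul_comm ε, hε, smul_smul]
    rw [Algebra.norm_apply]
    change LinearMap.det (Algebra.lmul R B _) = _
    rw [this, LinearMap.transvection.det]
    simp [hl]
  rw [← h2, ← map_mul]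
  congr 1
  have h3 := hε x
  rw [sub_smul, one_smul, ← h3]
  linear_combination (1 - 2 * x + x ^ 2) * h1

end idem

section padic
variable {p : ℕ} [Fact p.Prime]

lemma un {z : ℤ_[p]} (h : IsUnit z) : algebraMap ℤ_[p] ℚ_[p] z ≠ 0 := (h.map _).ne_zero

lemma sy_units (hp2 : p ≠ 2) (x y : ℤ_[p]) (hx : IsUnit x) (hy : IsUnit y) :
    sy (algebraMap ℤ_[p] ℚ_[p] x) (algebraMap ℤ_[p] ℚ_[p] y) = 1 := by
  have h1 := (isUnit_iff_toZMod x).mp hx
  have h2 := (isUnit_iff_toZMod y).mp hy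
  obtain ⟨a, b, h⟩ := FiniteField.exists_root_sum_quadratic
    (f := C (PadicInt.toZMod x) * X ^ 2) (g := C (PadicInt.toZMod y) * X ^ 2 - 1)
    (degree_C_mul_X_pow _ h1) (by
      rw [degree_sub_eq_left_of_degree_lt] <;> rw [degree_C_mul_X_pow _ h2]
      · rfl
      · rw [degree_one]
        decide)
    (by rw [ZMod.card]; exact ((Fact.out : p.Prime).eq_two_or_odd).resolve_left hp2)
  obtain ⟨a, rfl⟩ := ZMod.ringHom_surjective (PadicInt.toZMod (p := p)) a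
  obtain ⟨b, rfl⟩ := ZMod.ringHom_surjective (PadicInt.toZMod (p := p)) b
  have h3 : PadicInt.toZMod (x * a ^ 2 + y * b ^ 2) = 1 := by
    simp only [eval_mul, eval_C, eval_pow, eval_X, eval_sub, eval_one] at h
    simp only [map_add, map_mul, map_pow]
    linear_combination h
  have h4 := (isUnit_iff_toZMod _).mpr (h3 ▸ one_ne_zero)
  have h5 := isSquare_of_toZMod hp2 h4 (h3 ▸ IsSquare.one)
  have h6 := un h4
  rw [sy_of_rep (a := algebraMap ℤ_[p] ℚ_[p] a) (b := algebraMap ℤ_[p] ℚ_[p] b) (un hx) (un hy)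
    (by simp only [map_add, map_mul, map_pow]) h6, sy_comm]
  exact sy_of_isSquare (mul_ne_zero (mul_ne_zero h6 (un hx)) (un hy)) h6 h5

/-- The class `x` is tame with sign `e`. -/
def Sg (p : ℕ) [Fact p.Prime] (x : Br ℚ_[p]) (e : ZMod p) : Prop :=
  ∃ v : ℤ_[p], IsUnit v ∧ x = sy (p : ℚ_[p]) (algebraMap ℤ_[p] ℚ_[p] v) ∧
    quadraticChar (ZMod p) (PadicInt.toZMod v) = quadraticChar (ZMod p) e

lemma p_ne : (p : ℚ_[p]) ≠ 0 := Nat.cast_ne_zero.mpr (Fact.out : p.Prime).ne_zero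

lemma Sg.one : Sg p 1 1 := ⟨1, isUnit_one, by rw [map_one, sy_one p_ne], by rw [map_one]⟩

lemma Sg.mul {x y : Br ℚ_[p]} {e e' : ZMod p} (h : Sg p x e) (h' : Sg p y e') :
    Sg p (x * y) (e * e') := by
  obtain ⟨v, h1, rfl, h2⟩ := h
  obtain ⟨v', h3, rfl, h4⟩ := h'
  exact ⟨v * v', h1.mul h3, by rw [map_mul, sy_mul p_ne (un h1) (un h3)],
    by simp only [map_mul, h2, h4]⟩

lemma Sg.pow {x : Br ℚ_[p]} {e : ZMod p} (h : Sg p x e) (n : ℕ) : Sg p (x ^ n) (e ^ n) := by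
  induction n with
  | zero => simpa only [pow_zero] using Sg.one
  | succ n ih => simpa only [pow_succ] using ih.mul h

lemma Sg.ne_zero {x : Br ℚ_[p]} {e : ZMod p} (h : Sg p x e) : e ≠ 0 := by
  obtain ⟨v, h1, -, h2⟩ := h
  rintro rfl
  rw [quadraticChar_zero, quadraticChar_eq_zero_iff] at h2
  exact (isUnit_iff_toZMod v).mp h1 h2

lemma Sg.congr {x : Br ℚ_[p]} {e e' : ZMod p} (h : Sg p x e) (t : ZMod p) (ht : t ≠ 0)
    (he : e = e' * t ^ 2) : Sg p x e' := by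
  obtain ⟨v, h1, h2, h3⟩ := h
  exact ⟨v, h1, h2, by rw [h3, he, map_mul, quadraticChar_sq_one' ht, mul_one]⟩

lemma Sg.inv (hp2 : p ≠ 2) {x : Br ℚ_[p]} {e : ZMod p} (h : Sg p x e) (B : Type) [Ring B]
    [Algebra ℚ_[p] B] (hB : cl ℚ_[p] B = x) : InvP p B
      (if quadraticChar (ZMod p) e = -1 then ((1 / 2 : ℚ) : AddCircle (1 : ℚ)) else 0) := by
  obtain ⟨v, h1, rfl, h2⟩ := h
  obtain ⟨n, hn⟩ := ZMod.intCast_surjective (PadicInt.toZMod v)
  have h3 := inv_ram hp2 p_ne (by rw [Padic.valuation_p]; exact odd_one) h1 hn.symm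
  rw [← jacobiSym.legendreSym.to_jacobiSym, legendreSym, hn, h2] at h3
  obtain ⟨D, _, _, θ, u, g, h, c, k1, k2⟩ := h3
  exact ⟨D, _, _, θ, u, g, h, c, (cl_eq.mp hB).trans k1, k2⟩

lemma sg_unit (hp2 : p ≠ 2) {x y : ℤ_[p]} (hx : IsUnit x) (hy : IsUnit y) :
    Sg p (sy (algebraMap ℤ_[p] ℚ_[p] (p * x)) (algebraMap ℤ_[p] ℚ_[p] y)) (PadicInt.toZMod y) :=
  ⟨y, hy, by rw [map_mul, map_natCast, sy_mul' p_ne (un hx) (un hy),
    sy_units hp2 x y hx hy, mul_one], rfl⟩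

lemma sg_ram (hp2 : p ≠ 2) {x y : ℤ_[p]} (hx : IsUnit x) (hy : IsUnit y) :
    Sg p (sy (algebraMap ℤ_[p] ℚ_[p] (p * x)) (algebraMap ℤ_[p] ℚ_[p] (p * y)))
      (PadicInt.toZMod (-(x * y))) := by
  have h1 := sg_unit hp2 hx (hx.mul hy).neg
  have h2 : algebraMap ℤ_[p] ℚ_[p] (p * x) ≠ 0 := by
    rw [map_mul, map_natCast]
    exact mul_ne_zero p_ne (un hx)
  have h3 : algebraMap ℤ_[p] ℚ_[p] (p * y) ≠ 0 := by
    rw [map_mul, map_natCast]
    exact mul_ne_zero p_ne (un hy)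
  rw [sy_comm, ← sy_neg_mul h3 h2, sy_comm, sy_congr h2 (neg_ne_zero.mpr (mul_ne_zero h3 h2))
    (un (hx.mul hy).neg) ⟨algebraMap ℤ_[p] ℚ_[p] (p * x * y), ?_⟩]
  · exact h1
  · simp only [map_mul, map_neg]
    ring

variable {A : Type} [CommRing A] [Module.Free ℤ A] [Module.Finite ℤ A] [Nontrivial A]
  {F G H : ℤ[X]} {r D : ℤ} {θ α : A} {H' : A[X]}

lemma rep_of_rel {R K : Type} [CommRing R] [CommRing K] (φ : R →+* K) {x z w : R} {u : R ⊗[ℤ] A}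
    (h1 : IsUnit (φ w)) (h2 : IsUnit (tm A φ u))
    (h3 : Rel w (hv (Int.castRingHom R) G x z) (D * hv (Int.castRingHom R) H x z))
    (h4 : Rel u (hv (inc A R) (X - C θ) (algebraMap R _ x) (algebraMap R _ z))
      (D * hv (inc A R) H' (algebraMap R _ x) (algebraMap R _ z))) :
    Rep D G H θ H' (φ x) (φ z) (φ w) (tm A φ u) := by
  refine ⟨h1, h2, ?_, ?_⟩
  · have := h3.map φ
    rwa [map_mul, map_hv, map_hv, map_intCast, RingHom.ext_int (RingHom.comp _ _)] at this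
  · have := h4.map (tm A φ)
    rwa [map_mul, map_hv, map_hv, map_intCast, tm_comp, tm_alg, tm_alg] at this

lemma two_unit (hp2 : p ≠ 2) : IsUnit (2 : ℤ_[p]) := by
  have := (isUnit_intCast_iff (p := p) 2).mpr fun h => hp2
    ((Nat.prime_dvd_prime_iff_eq Fact.out Nat.prime_two).mp (Int.natCast_dvd_natCast.mp h))
  exact_mod_cast this

lemma cf_units (hp2 : p ≠ 2) (hd : Dual A r) (hr : IsUnit (r : ℤ_[p]))
    (hα : IsUnit ((Algebra.norm ℤ α : ℤ) : ℤ_[p])) {u : ℤ_[p] ⊗[ℤ] A} (hu : IsUnit u) :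
    cf (Algebra.trace ℚ_[p] _) 1 (inc A ℚ_[p] α) * cf (Algebra.trace ℚ_[p] _)
      (tm A (algebraMap ℤ_[p] ℚ_[p]) u) (inc A ℚ_[p] α) = 1 := by
  rw [← tm_inc (algebraMap ℤ_[p] ℚ_[p]), ← map_one (tm A (algebraMap ℤ_[p] ℚ_[p])),
    cf_unit (two_unit hp2) (hd.perf hr) bc_tm (sy_units hp2) isUnit_one (isUnit_inc hα),
    cf_unit (two_unit hp2) (hd.perf hr) bc_tm (sy_units hp2) hu (isUnit_inc hα), mul_one]

lemma cv_units (hp2 : p ≠ 2) (hd : Dual A r) (hr : IsUnit (r : ℤ_[p]))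
    (hα : IsUnit ((Algebra.norm ℤ α : ℤ) : ℤ_[p])) {w : ℤ_[p]} {u : ℤ_[p] ⊗[ℤ] A} (hw : IsUnit w)
    (hu : IsUnit u) (n : ℕ) :
    cv n α (algebraMap ℤ_[p] ℚ_[p] w) (tm A (algebraMap ℤ_[p] ℚ_[p]) u) = 1 := by
  rw [cv, cf_units hp2 hd hr hα hu, one_pow, mul_one, ← map_intCast (algebraMap ℤ_[p] ℚ_[p]),
    sy_units hp2 _ _ hw hα]

lemma cf_splits (hp2 : p ≠ 2) (hd : Dual A r) (hr : IsUnit (r : ℤ_[p]))
    (hN : Algebra.norm ℤ α ≠ 0) {l : ℤ_[p] ⊗[ℤ] A →ₐ[ℤ_[p]] ℤ_[p]} {ε u : ℤ_[p] ⊗[ℤ] A}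
    (hε : ∀ z, z * ε = l z • ε) (hl : l ε = 1) (hu : IsUnit (ε + (1 - ε) * u))
    (hα : IsUnit (ε + (1 - ε) * inc A ℤ_[p] α)) (hu0 : algebraMap ℤ_[p] ℚ_[p] (l u) ≠ 0)
    (hα0 : algebraMap ℤ_[p] ℚ_[p] (l (inc A ℤ_[p] α)) ≠ 0) :
    cf (Algebra.trace ℚ_[p] _) 1 (inc A ℚ_[p] α) * cf (Algebra.trace ℚ_[p] _)
      (tm A (algebraMap ℤ_[p] ℚ_[p]) u) (inc A ℚ_[p] α) =
      sy (algebraMap ℤ_[p] ℚ_[p] (l u)) (algebraMap ℤ_[p] ℚ_[p] (l (inc A ℤ_[p] α))) := by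
  have h1 : Algebra.norm ℚ_[p] (tm A (algebraMap ℤ_[p] ℚ_[p]) (inc A ℤ_[p] α)) ≠ 0 := by
    rw [tm_inc, norm_inc]
    exact Int.cast_ne_zero.mpr hN
  have h2 := cf_split (two_unit hp2) (hd.perf hr) bc_tm (sy_units hp2) l hε hl (γ := 1)
    (by simp) hα (by simp) hα0 h1
  have h3 := cf_split (two_unit hp2) (hd.perf hr) bc_tm (sy_units hp2) l hε hl hu hα hu0 hα0 h1
  have h4 : IsUnit (Algebra.trace ℤ_[p] _ ε) := by
    obtain ⟨z, hz⟩ := hd.perf hr l.toLinearMap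
    have := LinearMap.congr_fun hz ε
    rw [bf_apply, one_mul, hε, map_smul, AlgHom.toLinearMap_apply, hl] at this
    exact IsUnit.of_mul_eq_one_right _ this
  rw [← tm_inc (algebraMap ℤ_[p] ℚ_[p]), ← map_one (tm A (algebraMap ℤ_[p] ℚ_[p])), h2, h3,
    map_one, map_one, sy_comm 1, sy_one hα0, one_mul, mul_left_comm, mul_mul_mul_comm,
    sy_self (un h4) hα0, sy_self hα0 (mul_ne_zero hα0 h1), mul_one, mul_one]

lemma Dat.exists_w (h : Dat F r G H θ H') (hr : IsUnit (r : ℤ_[p])) {a η d : ℤ_[p]}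
    (hD : (D : ℤ_[p]) = p * d) (hd : IsUnit d) (hη : η ^ 2 = D * hv (Int.castRingHom _) F a 1) :
    ∃ w : ℤ_[p], algebraMap ℤ_[p] ℚ_[p] w ≠ 0 ∧
      Rel w (hv (Int.castRingHom _) G a 1) (D * hv (Int.castRingHom _) H a 1) ∧
      ((hv (Int.castRingHom _) G (PadicInt.toZMod a) 1 ≠ 0 ∧ IsUnit w ∧
          PadicInt.toZMod w = hv (Int.castRingHom _) G (PadicInt.toZMod a) 1) ∨
        (hv (Int.castRingHom _) G (PadicInt.toZMod a) 1 = 0 ∧ ∃ v, IsUnit v ∧ w = p * (d * v) ∧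
          PadicInt.toZMod v = hv (Int.castRingHom _) H (PadicInt.toZMod a) 1)) := by
  have h1 : ∀ P : ℤ[X], PadicInt.toZMod (hv (Int.castRingHom _) P a 1) =
      hv (Int.castRingHom _) P (PadicInt.toZMod a) 1 := fun P => by
    rw [map_hv, map_one, RingHom.ext_int (RingHom.comp _ _)]
  have h2 := (h.eqn hη).1
  by_cases hG : IsUnit (hv (Int.castRingHom _) G a 1)
  · exact ⟨_, un hG, ⟨⟨_, rfl⟩, ⟨η, h2.trans (sq η)⟩⟩,
      Or.inl ⟨h1 G ▸ (isUnit_iff_toZMod _).mp hG, hG, h1 G⟩⟩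
  · obtain ⟨s, t, hst⟩ := h.s1.coprime (Int.castRingHom ℤ_[p]) hr (x := a) (Or.inr isUnit_one)
    have h3 : IsUnit (hv (Int.castRingHom _) H a 1) :=
      isUnit_of_mul_isUnit_right ((IsLocalRing.isUnit_or_isUnit_of_add_one hst).resolve_left
        fun h => hG (isUnit_of_mul_isUnit_right h))
    refine ⟨_, ?_, ⟨⟨η, (mul_comm _ _).trans (h2.trans (sq η))⟩, ⟨_, rfl⟩⟩,
      Or.inr ⟨?_, _, h3, by rw [hD, mul_assoc], h1 H⟩⟩
    · rw [hD, map_mul, map_mul, map_natCast]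
      exact mul_ne_zero (mul_ne_zero p_ne (un hd)) (un h3)
    · rwa [isUnit_iff_toZMod, not_not, h1] at hG

lemma Dat.eval_away (h : Dat F r G H θ H') (hp2 : p ≠ 2) (hr : IsUnit (r : ℤ_[p]))
    {a η d : ℤ_[p]} (hD : (D : ℤ_[p]) = p * d) (hd : IsUnit d)
    (hη : η ^ 2 = D * hv (Int.castRingHom _) F a 1)
    (hx : IsUnit (algebraMap ℤ_[p] _ a - inc A ℤ_[p] θ))
    (hα : IsUnit ((Algebra.norm ℤ α : ℤ) : ℤ_[p])) (n : ℕ) :
    ∃ w u, Rep D G H θ H' (algebraMap ℤ_[p] ℚ_[p] a) 1 w u ∧ Sg p (cv n α w u)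
      (if hv (Int.castRingHom _) G (PadicInt.toZMod a) 1 = 0 then
        ((Algebra.norm ℤ α : ℤ) : ZMod p) else 1) := by
  obtain ⟨w, h1, h2, h3⟩ := h.exists_w hr hD hd hη
  have h4 := (h.eqn hη).2
  have h5 : hv (inc A ℤ_[p]) (X - C θ) (algebraMap ℤ_[p] _ a) (algebraMap ℤ_[p] _ 1) =
      algebraMap ℤ_[p] _ a - inc A ℤ_[p] θ := by rw [hv_lin, map_one, mul_one]
  have h6 := rep_of_rel (H' := H') (algebraMap ℤ_[p] ℚ_[p]) (IsUnit.mk0 _ h1) (hx.map _) h2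
    (by rw [← h5]; exact ⟨⟨_, rfl⟩, ⟨_, h4.trans (sq _)⟩⟩)
  rw [map_one] at h6
  refine ⟨_, _, h6, ?_⟩
  rcases h3 with ⟨h3, h7, -⟩ | ⟨h3, v, h7, rfl, -⟩
  · rw [if_neg h3, cv_units hp2 h.du hr hα h7 hx]
    exact Sg.one
  · rw [if_pos h3, cv, cf_units hp2 h.du hr hα hx, one_pow, mul_one]
    simpa only [map_intCast] using sg_unit hp2 (hd.mul h7) hα

/-- The splitting of `A` over `ℤ_[p]` that lifts a simple root modulo `p`. -/
def Loc (θ : A) (lb : A →+* ZMod p) (ν : A → ZMod p) : Prop :=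
  ∃ (l : ℤ_[p] ⊗[ℤ] A →ₐ[ℤ_[p]] ℤ_[p]) (ε : ℤ_[p] ⊗[ℤ] A), (∀ z, z * ε = l z • ε) ∧ l ε = 1 ∧
    (∀ z, PadicInt.toZMod (l (inc A _ z)) = lb z) ∧
    (∀ z, ν z = PadicInt.toZMod (Algebra.norm ℤ_[p] (ε + (1 - ε) * inc A _ z))) ∧
    ∀ z, inc A _ θ - algebraMap _ _ (l (inc A _ θ)) ∣ z - algebraMap _ _ (l z)

variable {lb : A →+* ZMod p} {ν : A → ZMod p}

lemma Loc.mul (h : Loc θ lb ν) (x y : A) : ν (x * y) = ν x * ν y := by
  obtain ⟨l, ε, h1, h2, -, h3, -⟩ := h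
  rw [h3, h3, h3, map_mul, idem_mul h1 h2, map_mul, map_mul]

lemma Loc.norm (h : Loc θ lb ν) (x : A) : ((Algebra.norm ℤ x : ℤ) : ZMod p) = lb x * ν x := by
  obtain ⟨l, ε, h1, h2, h3, h4, -⟩ := h
  rw [h4, ← h3, ← map_mul, ← norm_idem h1 h2, norm_inc, map_intCast]

lemma Dat.eval_at (h : Dat F r G H θ H') (hp2 : p ≠ 2) (hr : IsUnit (r : ℤ_[p]))
    {a η d : ℤ_[p]} (hD : (D : ℤ_[p]) = p * d) (hd : IsUnit d)
    (hη : η ^ 2 = D * hv (Int.castRingHom _) F a 1) (hl : Loc θ lb ν)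
    (ha : PadicInt.toZMod a = lb θ) (n : ℕ) :
    ∃ w u, Rep D G H θ H' (algebraMap ℤ_[p] ℚ_[p] a) 1 w u ∧
      (IsUnit ((Algebra.norm ℤ α : ℤ) : ℤ_[p]) → Sg p (cv n α w u)
        ((if hv (Int.castRingHom _) G (lb θ) 1 = 0 then ((Algebra.norm ℤ α : ℤ) : ZMod p) else 1) *
          lb α ^ n)) ∧
      ∀ m : ℤ, IsUnit (m : ℤ_[p]) → Algebra.norm ℤ α = p * m → lb α = 0 →
        (hv (Int.castRingHom _) G (lb θ) 1 = 0 ↔ Odd n) → Sg p (cv n α w u)
        (if hv (Int.castRingHom _) G (lb θ) 1 = 0 then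
          hv (Int.castRingHom _) H (lb θ) 1 * hv lb H' (lb θ) 1 * ν α
        else hv (Int.castRingHom _) G (lb θ) 1) := by
  obtain ⟨w, h1, h2, h3⟩ := h.exists_w hr hD hd hη
  obtain ⟨l, ε, e1, e2, e3, e4, e5⟩ := hl
  have e6 := e1 ε
  rw [e2, one_smul] at e6
  have h4 := (h.eqn hη).2
  have h5 := h.s2.coprime (inc A ℤ_[p]) hr (x := a) (Or.inr isUnit_one)
  generalize hy : hv (inc A ℤ_[p]) H' (algebraMap ℤ_[p] _ a) (algebraMap ℤ_[p] _ 1) = y at h4 h5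
  generalize hx : hv (inc A ℤ_[p]) (X - C θ) (algebraMap ℤ_[p] _ a) (algebraMap ℤ_[p] _ 1) = x
    at h4 h5
  have k1 : x = algebraMap ℤ_[p] _ a - inc A ℤ_[p] θ := by rw [← hx, hv_lin, map_one, mul_one]
  have k2 : ¬ IsUnit (l x) := by
    rw [isUnit_iff_toZMod, not_not, k1, map_sub, map_sub, e3, AlgHom.commutes, ← ha]
    exact sub_self _
  have k3 : IsUnit (l y) := by
    obtain ⟨s, t, hst⟩ := h5.map l.toRingHom
    exact isUnit_of_mul_isUnit_right ((IsLocalRing.isUnit_or_isUnit_of_add_one hst).resolve_left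
      fun h => k2 (isUnit_of_mul_isUnit_right h))
  have k4 : PadicInt.toZMod (l y) = hv lb H' (lb θ) 1 := by
    have := map_hv (inc A ℤ_[p]) (PadicInt.toZMod.comp l.toRingHom) H' (algebraMap ℤ_[p] _ a)
      (algebraMap ℤ_[p] _ 1)
    rw [hy, show (PadicInt.toZMod.comp l.toRingHom).comp (inc A ℤ_[p]) = lb from
      RingHom.ext e3] at this
    simpa only [RingHom.comp_apply, AlgHom.toRingHom_eq_coe, RingHom.coe_coe, AlgHom.commutes,
      Algebra.algebraMap_self_apply, ha, map_one] using this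
  have k5 : IsUnit (ε + (1 - ε) * x) := by
    obtain ⟨t, ht⟩ := e5 ε
    have k6 : algebraMap ℤ_[p] _ (l x) =
        algebraMap ℤ_[p] _ a - algebraMap ℤ_[p] (ℤ_[p] ⊗[ℤ] A) (l (inc A ℤ_[p] θ)) := by
      rw [k1, map_sub, map_sub, AlgHom.commutes]
      rfl
    refine isUnit_of_mul_isUnit_left (y := ε + (1 - ε) * t) ?_
    have := isUnit_one_add k2 ((1 - ε) * t)
    rw [e2, map_one] at ht
    rw [k6] at this
    refine (congrArg IsUnit ?_).mp this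
    rw [k1]
    linear_combination (ε - 1) * ht - (2 - t + (t - 1) *
      (algebraMap ℤ_[p] _ a - inc A ℤ_[p] θ)) * e6
  set u := ε * (D * y) + (1 - ε) * x with hu
  have k6 : ε + (1 - ε) * u = ε + (1 - ε) * x := by
    rw [hu]
    linear_combination (x - D * y) * e6
  have k7 : l u = p * (d * l y) := by simp [hu, e2, hD, mul_assoc]
  have k8 : algebraMap ℤ_[p] ℚ_[p] (l u) ≠ 0 := by
    rw [k7, map_mul, map_natCast]
    exact mul_ne_zero p_ne (un (hd.mul k3))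
  have k9 : IsUnit (tm A (algebraMap ℤ_[p] ℚ_[p]) u) := by
    have k10 : u * ε = algebraMap _ _ (l u) * ε := (e1 u).trans (Algebra.smul_def (l u) ε)
    have : u = (ε + (1 - ε) * u) * (ε * algebraMap _ _ (l u) + (1 - ε)) := by
      linear_combination k10 - (u - 1 + algebraMap _ _ (l u) - u * algebraMap _ _ (l u)) * e6
    rw [this, map_mul]
    refine ((k6 ▸ k5).map _).mul ?_
    refine IsUnit.of_mul_eq_one (tm A (algebraMap ℤ_[p] ℚ_[p]) ε * algebraMap _ _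
      (algebraMap ℤ_[p] ℚ_[p] (l u))⁻¹ + (1 - tm A (algebraMap ℤ_[p] ℚ_[p]) ε)) ?_
    have k11 := congrArg (tm A (algebraMap ℤ_[p] ℚ_[p])) e6
    have k12 := congrArg (algebraMap ℚ_[p] (ℚ_[p] ⊗[ℤ] A)) (mul_inv_cancel₀ k8)
    simp only [map_add, map_mul, map_sub, map_one, tm_alg] at k11 k12 ⊢
    linear_combination tm A (algebraMap ℤ_[p] ℚ_[p]) ε ^ 2 * k12 + (2 - algebraMap ℚ_[p]
      (ℚ_[p] ⊗[ℤ] A) (algebraMap ℤ_[p] ℚ_[p] (l u)) - algebraMap ℚ_[p] (ℚ_[p] ⊗[ℤ] A)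
      (algebraMap ℤ_[p] ℚ_[p] (l u))⁻¹) * k11
  have h6 := rep_of_rel (H' := H') (algebraMap ℤ_[p] ℚ_[p]) (IsUnit.mk0 _ h1) k9 h2 (by
    rw [hx, hy, hu]
    exact ⟨⟨ε * algebraMap _ _ η + (1 - ε) * x, by
        linear_combination ε * h4 - (algebraMap _ _ η - x) ^ 2 * e6⟩,
      ⟨ε * (D * y) + (1 - ε) * algebraMap _ _ η, by
        linear_combination (1 - ε) * h4 - (D * y - algebraMap _ _ η) ^ 2 * e6⟩⟩)
  rw [map_one] at h6
  rw [ha] at h3
  have hN := norm_idem e1 e2 (inc A ℤ_[p] α)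
  rw [norm_inc] at hN
  refine ⟨_, _, h6, fun hα => ?_, fun m hm h7 h8 h9 => ?_⟩
  · have m1 := isUnit_of_mul_isUnit_left (hN ▸ hα)
    have m2 := isUnit_of_norm (isUnit_of_mul_isUnit_right (hN ▸ hα))
    rw [cv, cf_splits hp2 h.du hr (fun h0 => by simp [h0] at hα) e1 e2 (k6 ▸ k5) m2 k8 (un m1),
      k7, ← e3 α, ← map_intCast (algebraMap ℤ_[p] ℚ_[p])]
    refine Sg.mul ?_ ((sg_unit hp2 (hd.mul k3) m1).pow n)
    rcases h3 with ⟨h3, h7, -⟩ | ⟨h3, v, h7, rfl, -⟩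
    · rw [if_neg h3, sy_units hp2 _ _ h7 hα]
      exact Sg.one
    · rw [if_pos h3]
      simpa only [map_intCast] using sg_unit hp2 (hd.mul h7) hα
  · obtain ⟨s, hs⟩ : (p : ℤ_[p]) ∣ l (inc A ℤ_[p] α) := by
      rw [← Ideal.mem_span_singleton, ← PadicInt.maximalIdeal_eq_span_p, ← PadicInt.ker_toZMod,
        RingHom.mem_ker, e3, h8]
    have m0 : (m : ℤ_[p]) = s * Algebra.norm ℤ_[p] (ε + (1 - ε) * inc A ℤ_[p] α) := by
      rw [h7, hs, Int.cast_mul, Int.cast_natCast, mul_assoc] at hN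
      exact mul_left_cancel₀ (Nat.cast_ne_zero.mpr (Fact.out : p.Prime).ne_zero) hN
    have m1 := isUnit_of_mul_isUnit_left (m0 ▸ hm)
    have m2 := isUnit_of_norm (isUnit_of_mul_isUnit_right (m0 ▸ hm))
    have m3 : Algebra.norm ℤ α ≠ 0 := fun h0 => by
      rw [h0, eq_comm, mul_eq_zero] at h7
      rcases h7 with h7 | h7
      · exact (Fact.out : p.Prime).ne_zero (by exact_mod_cast h7)
      · simp [h7] at hm
    rw [cv, cf_splits hp2 h.du hr m3 e1 e2 (k6 ▸ k5) m2 k8 (by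
      rw [hs, map_mul, map_natCast]; exact mul_ne_zero p_ne (un m1)),
      k7, hs, ← map_intCast (algebraMap ℤ_[p] ℚ_[p]), h7, Int.cast_mul, Int.cast_natCast]
    have m4 := sg_ram hp2 (hd.mul k3) m1
    have m5 := m4.ne_zero
    rcases h3 with ⟨h3, m6, m7⟩ | ⟨h3, v, m6, rfl, m7⟩
    · obtain ⟨k, rfl⟩ := Nat.not_odd_iff_even.mp (mt h9.mpr h3)
      rw [if_neg h3, sy_comm, ← m7]
      exact ((sg_unit hp2 hm m6).mul (m4.pow _)).congr _ (pow_ne_zero k m5) (by ring)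
    · obtain ⟨k, rfl⟩ := h9.mp h3
      rw [if_pos h3, ← m7, ← k4, e4]
      refine ((sg_ram hp2 (hd.mul m6) hm).mul (m4.pow _)).congr _ (mul_ne_zero (pow_ne_zero k m5)
        ((isUnit_iff_toZMod _).mp (hd.mul m1))) ?_
      simp only [m0, map_neg, map_mul]
      ring

end padic

end Pool.Agent.P.MP_ab3ecb_nt
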