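import Pool.Agent.P.MP_ab3ecb_nt.Zeta

/-!
Average number of roots of an irreducible polynomial modulo primes, with a saving coming from
primes that split completely.
-/

namespace Pool.Agent.P.MP_ab3ecb_nt

open Finset Filter Topology NumberField Polynomial
open scoped Classical NumberTheorySymbols

set_option linter.unusedSectionVars false
set_option maxHeartbeats 400000

lemma clear_den (q : ℚ[X]) :
    ∃ D : ℤ, D ≠ 0 ∧ ∃ q' : ℤ[X], q'.map (algebraMap ℤ ℚ) = C (D : ℚ) * q := by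
  obtain ⟨b, hb, h⟩ := IsLocalization.integerNormalization_spec (nonZeroDivisors ℤ) q
  refine ⟨b, nonZeroDivisors.ne_zero hb, _, h.trans ?_⟩
  rw [← smul_eq_C_mul, Int.cast_smul_eq_zsmul]

lemma map_int_injective : Function.Injective (Polynomial.map (algebraMap ℤ ℚ)) :=
  Polynomial.map_injective _ (RingHom.injective_int _)

lemma dvd_int {a b : ℤ[X]} (h : a.map (algebraMap ℤ ℚ) ∣ b.map (algebraMap ℤ ℚ)) :
    ∃ D : ℤ, D ≠ 0 ∧ ∃ q : ℤ[X], C D * b = a * q := by
  obtain ⟨q, hq⟩ := h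
  obtain ⟨D, hD, q', h⟩ := clear_den q
  refine ⟨D, hD, q', map_int_injective ?_⟩
  rw [Polynomial.map_mul, Polynomial.map_mul, h, hq, map_C]
  simp only [eq_intCast]
  ring

lemma bezout_int {a b : ℤ[X]} (h : IsCoprime (a.map (algebraMap ℤ ℚ)) (b.map (algebraMap ℤ ℚ))) :
    ∃ D : ℤ, D ≠ 0 ∧ ∃ u v : ℤ[X], u * a + v * b = C D := by
  obtain ⟨u, v, huv⟩ := h
  obtain ⟨D, hD, u', hu⟩ := clear_den u
  obtain ⟨E, hE, v', hv⟩ := clear_den v
  refine ⟨D * E, mul_ne_zero hD hE, C E * u', C D * v', map_int_injective ?_⟩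
  rw [Polynomial.map_add, Polynomial.map_mul, Polynomial.map_mul, Polynomial.map_mul,
    Polynomial.map_mul, hu, hv, map_C, map_C, map_C, map_mul, map_mul]
  simp only [eq_intCast]
  linear_combination (C (D : ℚ) * C (E : ℚ)) * huv

/-- The roots of `g` modulo `p`. -/
noncomputable def rts (g : ℤ[X]) (p : ℕ) : Finset ℕ :=
  (range p).filter fun t => (p : ℤ) ∣ g.eval (t : ℤ)

lemma dvd_eval_iff (g : ℤ[X]) (p : ℕ) (t : ℤ) : (p : ℤ) ∣ g.eval t ↔ aeval (t : ZMod p) g = 0 := by
  rw [← ZMod.intCast_zmod_eq_zero_iff_dvd, aeval_def, algebraMap_int_eq, eval₂_at_intCast]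
  simp

lemma map_aeval_int {R S : Type*} [CommRing R] [CommRing S] (φ : R →+* S) (θ : R) (q : ℤ[X]) :
    φ (aeval θ q) = aeval (φ θ) q :=
  (aeval_algHom_apply φ.toIntAlgHom θ q).symm

lemma exists_stem (g : ℚ[X]) (hirr : Irreducible g) :
    ∃ (K : Type) (_ : Field K) (_ : NumberField K) (θ : K),
      (∀ q : ℚ[X], aeval θ q = 0 ↔ g ∣ q) ∧ ∀ z : K, ∃ q : ℚ[X], aeval θ q = z := by
  have : Fact (Irreducible g) := ⟨hirr⟩
  refine ⟨AdjoinRoot g, inferInstance, inferInstance, AdjoinRoot.root g, fun q => ?_, fun z => ?_⟩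
  · rw [← AdjoinRoot.mk_eq_zero, ← AdjoinRoot.aeval_eq]
    congr!
  · obtain ⟨q, rfl⟩ := AdjoinRoot.mk_surjective z
    refine ⟨q, ?_⟩
    rw [← AdjoinRoot.aeval_eq]
    congr!

lemma roots_le (g : ℤ[X]) (hirr : Irreducible (g.map (algebraMap ℤ ℚ))) :
    ∃ (K : Type) (_ : Field K) (_ : NumberField K) (N : ℕ), N ≠ 0 ∧
      ∀ p : ℕ, p.Prime → ¬ p ∣ N → (rts g p).card ≤ (idl K p).card := by
  obtain ⟨K, _, _, θ, hθ, hθ2⟩ := exists_stem _ hirr
  have hg0 : g ≠ 0 := by
    rintro rfl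
    simp at hirr
  have hlc : g.leadingCoeff ≠ 0 := leadingCoeff_ne_zero.mpr hg0
  have h1 : aeval θ g = 0 := by
    rw [← aeval_map_algebraMap ℚ, hθ]
  set α : 𝓞 K := ⟨g.leadingCoeff • θ, isIntegral_leadingCoeff_smul g θ h1⟩ with hα
  have hαK : algebraMap (𝓞 K) K α = g.leadingCoeff * θ := by
    rw [← zsmul_eq_mul]; rfl
  have h2 : g.map (algebraMap ℤ ℚ) ∣
      ((minpoly ℤ α).comp (C g.leadingCoeff * X)).map (algebraMap ℤ ℚ) := by
    rw [← hθ, aeval_map_algebraMap, aeval_comp]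
    simp only [map_mul, aeval_X, eq_intCast, map_intCast]
    rw [← hαK, aeval_algebraMap_apply, minpoly.aeval, map_zero]
  obtain ⟨D, hD, q, hq⟩ := dvd_int h2
  have h3 : ∀ b : 𝓞 K, ∃ d : ℤ, d ≠ 0 ∧ (d : 𝓞 K) * b ∈ Algebra.adjoin ℤ {α} := by
    intro b
    obtain ⟨r, hr⟩ := hθ2 (algebraMap (𝓞 K) K b)
    obtain ⟨d, hd, r', hr'⟩ := clear_den (r.comp (C (g.leadingCoeff : ℚ)⁻¹ * X))
    refine ⟨d, hd, ?_⟩
    have : (d : 𝓞 K) * b = aeval α r' := by
      apply FaithfulSMul.algebraMap_injective (𝓞 K) K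
      rw [← aeval_algebraMap_apply, ← aeval_map_algebraMap ℚ, hr', map_mul, map_mul, aeval_comp,
        ← hr, hαK]
      have e : (g.leadingCoeff : K) ≠ 0 := Int.cast_ne_zero.mpr hlc
      simp [inv_mul_cancel_left₀ e]
    rw [this]
    exact aeval_mem_adjoin_singleton _ _
  have h4 : ∃ d : ℤ, d ≠ 0 ∧ (d : 𝓞 K) ∈ conductor ℤ α := by
    choose d hd using h3
    obtain ⟨s, hs⟩ := Module.finite_def.mp (inferInstance : Module.Finite ℤ (𝓞 K))
    refine ⟨∏ b ∈ s, d b, Finset.prod_ne_zero_iff.mpr fun b _ => (hd b).1, ?_⟩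
    rw [mem_conductor_iff]
    intro b
    have hb : b ∈ Submodule.span ℤ (s : Set (𝓞 K)) := hs ▸ Submodule.mem_top
    induction hb using Submodule.span_induction with
    | mem x hx =>
      rw [← Finset.prod_erase_mul _ _ hx, Int.cast_mul, mul_assoc]
      exact Subalgebra.mul_mem _ (intCast_mem _ _) (hd x).2
    | zero => simp
    | add x y _ _ hx hy => rw [mul_add]; exact Subalgebra.add_mem _ hx hy
    | smul a x _ hx => rw [mul_smul_comm]; exact Subalgebra.smul_mem _ hx _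
  obtain ⟨d, hd, hd2⟩ := h4
  refine ⟨K, inferInstance, inferInstance, (g.leadingCoeff * D * d).natAbs,
    Int.natAbs_ne_zero.mpr (mul_ne_zero (mul_ne_zero hlc hD) hd), fun p hp hpN => ?_⟩
  have : Fact p.Prime := ⟨hp⟩
  rw [← Int.natCast_dvd, ← ZMod.intCast_zmod_eq_zero_iff_dvd] at hpN
  push_cast at hpN
  simp only [mul_eq_zero, not_or] at hpN
  obtain ⟨⟨n1, n2⟩, n3⟩ := hpN
  have hexp : ¬ p ∣ RingOfIntegers.exponent α := by
    intro h
    apply n3
    rw [ZMod.intCast_zmod_eq_zero_iff_dvd]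
    exact (Int.natCast_dvd_natCast.mpr h).trans (Int.cast_mem_ideal_iff.mp hd2)
  refine Finset.card_le_card_of_forall_subsingleton
    (fun (t : ℕ) I => ∃ ψ : 𝓞 K →+* ZMod p, RingHom.ker ψ = I ∧
      ψ α = g.leadingCoeff * ((t : ℤ) : ZMod p)) ?_ ?_
  · intro t ht
    have k1 := (dvd_eval_iff g p t).mp (mem_filter.mp ht).2
    have k2 := congrArg (aeval ((t : ℤ) : ZMod p)) hq
    rw [map_mul, map_mul, k1, zero_mul, aeval_comp] at k2
    simp only [eq_intCast, map_intCast, map_mul, aeval_X, mul_eq_zero, n2, false_or] at k2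
    let ψ1 : ((ZMod p)[X] ⧸ Ideal.span {map (Int.castRingHom (ZMod p)) (minpoly ℤ α)}) →+* ZMod p :=
      Ideal.Quotient.lift _ (evalRingHom (g.leadingCoeff * ((t : ℤ) : ZMod p))) (by
        intro a ha
        obtain ⟨c, rfl⟩ := Ideal.mem_span_singleton.mp ha
        rw [map_mul, coe_evalRingHom, eval_map, ← algebraMap_int_eq, ← aeval_def, k2, zero_mul])
    let e := RingOfIntegers.ZModXQuotSpanEquivQuotSpan hexp
    refine ⟨_, ker_mem_idl (ψ1.comp (e.symm.toRingHom.comp (Ideal.Quotient.mk _))), _, rfl, ?_⟩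
    have k3 := RingOfIntegers.ZModXQuotSpanEquivQuotSpan_mk_apply hexp X
    rw [aeval_X] at k3
    simp only [RingHom.comp_apply, RingEquiv.toRingHom_eq_coe, RingHom.coe_coe]
    rw [← k3, RingEquiv.symm_apply_apply]
    simp [ψ1]
  · rintro I - t ⟨ht, ψ, h5, h6⟩ t' ⟨ht', ψ', h5', h6'⟩
    have k1 : α - ((g.leadingCoeff * t : ℤ) : 𝓞 K) ∈ RingHom.ker ψ := by
      rw [RingHom.mem_ker, map_sub, h6, map_intCast]
      simp
    rw [h5, ← h5', RingHom.mem_ker, map_sub, h6', map_intCast, sub_eq_zero, Int.cast_mul] at k1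
    have k2 := mul_left_cancel₀ n1 k1
    simp only [Int.cast_natCast] at k2
    exact ((ZMod.natCast_eq_natCast_iff _ _ _).mp k2).symm.eq_of_lt_of_lt
      (mem_range.mp (mem_filter.mp ht).1) (mem_range.mp (mem_filter.mp ht').1)

lemma exists_closure : ∃ (Ω : Type) (_ : Field Ω) (_ : CharZero Ω),
    IsAlgClosed Ω ∧ Algebra.IsAlgebraic ℚ Ω :=
  ⟨AlgebraicClosure ℚ, inferInstance, inferInstance, inferInstance, by
    convert AlgebraicClosure.isAlgebraic ℚ
    · rfl
    · exact Subsingleton.elim _ _⟩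

lemma exists_field {J : Type} [Fintype J] (g : J → ℤ[X]) :
    ∃ (K : Type) (_ : Field K) (_ : NumberField K), ∀ i, ((g i).map (algebraMap ℤ K)).Splits ∧
      (g i ≠ 0 → ∀ θ : K, aeval θ (g i) = 0 → ∀ j, IsSquare (aeval θ (g j))) := by
  obtain ⟨Ω, _, _, _, _⟩ := exists_closure
  choose r hr using fun z : Ω => IsAlgClosed.exists_eq_mul_self z
  set T1 : Set Ω := ⋃ i, (g i).rootSet Ω with hT1
  set T : Set Ω := T1 ∪ ⋃ j, (fun θ => r (aeval θ (g j))) '' T1 with hT
  have f1 : T1.Finite := Set.finite_iUnion fun i => rootSet_finite _ _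
  have f2 : Finite T := f1.union (Set.finite_iUnion fun j => f1.image _)
  have f3 := IntermediateField.finiteDimensional_adjoin (K := ℚ) (S := T)
    fun x _ => (Algebra.IsAlgebraic.isAlgebraic x).isIntegral
  refine ⟨IntermediateField.adjoin ℚ T, inferInstance, ⟨⟩, fun i => ⟨?_, fun h0 θ hθ j => ?_⟩⟩
  · have := IntermediateField.splits_of_splits (F := IntermediateField.adjoin ℚ T)
      (p := (g i).map (algebraMap ℤ ℚ)) (IsAlgClosed.splits _) fun x hx => by
        refine IntermediateField.subset_adjoin _ _ (Or.inl (Set.mem_iUnion.mpr ⟨i, ?_⟩))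
        rw [mem_rootSet'] at hx ⊢
        rwa [Polynomial.map_map, aeval_map_algebraMap, ← IsScalarTower.algebraMap_eq] at hx
    rw [Polynomial.map_map] at this
    convert this using 2
    exact RingHom.ext_int _ _
  · have e := map_aeval_int (IntermediateField.adjoin ℚ T).subtype θ
    have h1 : (θ : Ω) ∈ T1 := by
      refine Set.mem_iUnion.mpr ⟨i, ?_⟩
      rw [mem_rootSet]
      exact ⟨h0, (e _).symm.trans (by rw [hθ, map_zero])⟩
    refine ⟨⟨r (aeval (θ : Ω) (g j)), IntermediateField.subset_adjoin _ _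
      (Or.inr (Set.mem_iUnion.mpr ⟨j, _, h1, rfl⟩))⟩, Subtype.ext ?_⟩
    exact (e _).trans (hr _)

lemma exists_reduction (K : Type) [Field K] [NumberField K] (T : Finset K) :
    ∃ (N : ℕ) (A : Subring K), N ≠ 0 ∧ (∀ z ∈ T, z ∈ A) ∧
      ∀ p : ℕ, p.Prime → ¬ p ∣ N → (𝓞 K →+* ZMod p) → Nonempty (A →+* ZMod p) := by
  have : Algebra.IsAlgebraic ℤ K := (IsFractionRing.comap_isAlgebraic_iff (A := ℤ) (K := ℚ)).mpr
    inferInstance
  obtain ⟨y, hy, h⟩ := Algebra.IsAlgebraic.exists_integral_multiples ℤ T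
  have hS : Submonoid.powers (y : 𝓞 K) ≤ nonZeroDivisors (𝓞 K) :=
    powers_le_nonZeroDivisors_of_noZeroDivisors (Int.cast_ne_zero.mpr hy)
  refine ⟨y.natAbs, (Localization.subalgebra.ofField K _ hS).toSubring,
    Int.natAbs_ne_zero.mpr hy, fun z hz => ?_, fun p hp hN ψ => ?_⟩
  · refine ⟨⟨y • z, h z hz⟩, y, Submonoid.mem_powers _, ?_⟩
    have e : (y : K) ≠ 0 := Int.cast_ne_zero.mpr hy
    change z = y • z * _
    rw [map_intCast, zsmul_eq_mul]
    field_simp
  · have : Fact p.Prime := ⟨hp⟩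
    refine ⟨IsLocalization.lift (M := Submonoid.powers (y : 𝓞 K))
      (S := Localization.subalgebra.ofField K _ hS) (g := ψ) ?_⟩
    rintro ⟨_, n, rfl⟩
    simp only [map_pow, map_intCast]
    refine (IsUnit.mk0 _ ?_).pow n
    rwa [Ne, ZMod.intCast_zmod_eq_zero_iff_dvd, Int.natCast_dvd]

/-- The sign patterns of the polynomials `g j` at the roots of `g i` modulo `p`. -/
noncomputable def pats {J : Type} [Fintype J] (g : J → ℤ[X]) (i : J) (p : ℕ) : Finset (J → Bool) :=
  (rts (g i) p).image fun (t : ℕ) j => decide (J((g j).eval (t : ℤ) | p) = -1)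

lemma split_saving {J : Type} [Fintype J] (g : J → ℤ[X])
    (hirr : ∀ j, Irreducible ((g j).map (algebraMap ℤ ℚ))) (hdeg : ∀ j, 2 ≤ (g j).natDegree) :
    ∃ (K : Type) (_ : Field K) (_ : NumberField K) (N : ℕ), N ≠ 0 ∧
      ∀ p : ℕ, p.Prime → ¬ p ∣ N → (idl K p).card ≠ 0 → ∀ i,
        (pats g i p).card + 1 ≤ (rts (g i) p).card := by
  obtain ⟨K, _, _, hK⟩ := exists_field g
  have hg0 : ∀ i, g i ≠ 0 := fun i h => by
    have := hdeg i
    simp [h] at this
  set Rts : Finset K := univ.biUnion fun i => ((g i).map (algebraMap ℤ K)).roots.toFinset with hR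
  have hsq : ∀ z : K, ∃ w, IsSquare z → z = w * w := fun z => by
    by_cases h : IsSquare z
    · obtain ⟨w, hw⟩ := h
      exact ⟨w, fun _ => hw⟩
    · exact ⟨0, fun h' => absurd h' h⟩
  choose sq hsq using hsq
  obtain ⟨N, A, hN, hA, hred⟩ := exists_reduction K (Rts ∪
    (Rts ×ˢ univ).image (fun z : K × J => sq (aeval z.1 (g z.2))) ∪
    (Rts ×ˢ Rts).image fun z => (z.1 - z.2)⁻¹)
  refine ⟨K, inferInstance, inferInstance, N * (∏ i, (g i).leadingCoeff).natAbs,
    mul_ne_zero hN (Int.natAbs_ne_zero.mpr (Finset.prod_ne_zero_iff.mpr fun i _ =>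
      leadingCoeff_ne_zero.mpr (hg0 i))), fun p hp hpN hidl i => ?_⟩
  have : Fact p.Prime := ⟨hp⟩
  obtain ⟨ψ0⟩ := exists_hom_of_idl hp hidl
  obtain ⟨ψ⟩ := hred p hp (fun h => hpN (h.mul_right _)) ψ0
  have hlc : ((g i).leadingCoeff : ZMod p) ≠ 0 := by
    rw [Ne, ZMod.intCast_zmod_eq_zero_iff_dvd]
    intro h
    exact hpN ((Int.natCast_dvd.mp (h.trans (Finset.dvd_prod_of_mem
      (fun i => (g i).leadingCoeff) (mem_univ i)))).mul_left _)
  have hinjK : Function.Injective (algebraMap ℤ K) := RingHom.injective_int _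
  have hmem : ∀ θ ∈ ((g i).map (algebraMap ℤ K)).roots, θ ∈ Rts := fun θ h =>
    mem_biUnion.mpr ⟨i, mem_univ _, Multiset.mem_toFinset.mpr h⟩
  have hroot : ∀ θ ∈ ((g i).map (algebraMap ℤ K)).roots, aeval θ (g i) = 0 := fun θ h => by
    have := (mem_roots'.mp h).2
    rwa [IsRoot.def, eval_map, ← aeval_def] at this
  have hcoe : ∀ (θ : A) (q : ℤ[X]), ((aeval θ q : A) : K) = aeval (θ : K) q := fun θ q =>
    map_aeval_int A.subtype θ q
  have hψ : ∀ (θ : A) (q : ℤ[X]), ψ (aeval θ q) = aeval (ψ θ) q := fun θ q =>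
    map_aeval_int ψ θ q
  have hcard : 2 ≤ ((g i).map (algebraMap ℤ K)).roots.toFinset.card := by
    have hsep : ((g i).map (algebraMap ℤ K)).Separable := by
      have := (hirr i).separable.map (f := algebraMap ℚ K)
      rwa [Polynomial.map_map, ← IsScalarTower.algebraMap_eq] at this
    rw [Multiset.toFinset_card_of_nodup (nodup_roots hsep), ← (hK i).1.natDegree_eq_card_roots,
      natDegree_map_eq_of_injective hinjK]
    exact hdeg i
  have h1 : (pats g i p).card ≤ 1 := by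
    have key : ∀ t ∈ rts (g i) p, ∀ j, J((g j).eval (t : ℤ) | p) ≠ -1 := by
      intro t ht j hj
      apply ZMod.nonsquare_of_jacobiSym_eq_neg_one hj
      have k1 := (hK i).1.eval_eq_prod_roots ((t : ℤ) : K)
      have k0 : ∀ θ ∈ ((g i).map (algebraMap ℤ K)).roots, θ ∈ A := fun θ h =>
        hA θ (mem_union_left _ (mem_union_left _ (hmem θ h)))
      have k2 := (dvd_eval_iff (g i) p t).mp (mem_filter.mp ht).2
      obtain ⟨s, hs⟩ : ∃ s : Multiset A, s.map (↑) = ((g i).map (algebraMap ℤ K)).roots :=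
        CanLift.prf (cond := fun s : Multiset K => ∀ x ∈ s, x ∈ A) _ k0
      have k3 : aeval ((t : ℤ) : A) (g i) = (g i).leadingCoeff * (s.map (((t : ℤ) : A) - ·)).prod := by
        apply A.subtype_injective
        rw [leadingCoeff_map_of_injective hinjK, eval_map, ← aeval_def, ← hs] at k1
        rw [map_aeval_int, map_mul, map_intCast, map_intCast, map_multiset_prod, k1,
          Multiset.map_map, Multiset.map_map]
        simp
      have k4 := congrArg ψ k3
      rw [hψ, map_intCast, k2, map_mul, map_intCast, map_multiset_prod] at k4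
      have k5 := (mul_eq_zero.mp k4.symm).resolve_left hlc
      rw [Multiset.prod_eq_zero_iff, Multiset.map_map, Multiset.mem_map] at k5
      obtain ⟨θ, hθ, k6⟩ := k5
      simp only [Function.comp_apply, map_sub, map_intCast, sub_eq_zero] at k6
      have k7 : (θ : K) ∈ ((g i).map (algebraMap ℤ K)).roots := hs ▸ Multiset.mem_map_of_mem _ hθ
      have k8 := hsq _ ((hK i).2 (hg0 i) θ (hroot _ k7) j)
      have k9 : sq (aeval (θ : K) (g j)) ∈ A := hA _ (mem_union_left _ (mem_union_right _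
        (mem_image.mpr ⟨(θ, j), mem_product.mpr ⟨hmem _ k7, mem_univ _⟩, rfl⟩)))
      refine ⟨ψ ⟨_, k9⟩, ?_⟩
      rw [← map_mul, show (⟨_, k9⟩ * ⟨_, k9⟩ : A) = aeval θ (g j) from
        Subtype.ext (by rw [hcoe]; exact k8.symm), hψ, ← k6, aeval_def, algebraMap_int_eq,
        eval₂_at_intCast]
      simp
    refine Finset.card_le_one.mpr fun a ha b hb => ?_
    obtain ⟨t, ht, rfl⟩ := mem_image.mp ha
    obtain ⟨t', ht', rfl⟩ := mem_image.mp hb
    funext j
    simp [key t ht j, key t' ht' j]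
  have h2 : 2 ≤ (rts (g i) p).card := by
    obtain ⟨a, ha, b, hb, hab⟩ := Finset.one_lt_card.mp hcard
    rw [Multiset.mem_toFinset] at ha hb
    have ma : a ∈ A := hA a (mem_union_left _ (mem_union_left _ (hmem a ha)))
    have mb : b ∈ A := hA b (mem_union_left _ (mem_union_left _ (hmem b hb)))
    have mw : (a - b)⁻¹ ∈ A := hA _ (mem_union_right _
      (mem_image.mpr ⟨(a, b), mem_product.mpr ⟨hmem a ha, hmem b hb⟩, rfl⟩))
    have hr : ∀ θ : A, aeval (θ : K) (g i) = 0 → (ψ θ).val ∈ rts (g i) p := by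
      intro θ hθ
      refine mem_filter.mpr ⟨mem_range.mpr (ZMod.val_lt _), ?_⟩
      rw [dvd_eval_iff, Int.cast_natCast, ZMod.natCast_zmod_val, ← hψ,
        show aeval θ (g i) = 0 from Subtype.ext (by rw [hcoe]; exact hθ), map_zero]
    refine Finset.one_lt_card.mpr ⟨_, hr ⟨a, ma⟩ (hroot a ha), _, hr ⟨b, mb⟩ (hroot b hb), ?_⟩
    intro h
    have k1 := ZMod.val_injective p h
    have k2 : ((⟨a, ma⟩ - ⟨b, mb⟩) * ⟨_, mw⟩ : A) = 1 :=
      Subtype.ext (mul_inv_cancel₀ (sub_ne_zero.mpr hab))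
    have k3 := congrArg ψ k2
    rw [map_mul, map_sub, k1, sub_self, zero_mul, map_one] at k3
    exact zero_ne_one k3
  omega

theorem nf_bound {J : Type} [Fintype J] (g : J → ℤ[X])
    (hirr : ∀ j, Irreducible ((g j).map (algebraMap ℤ ℚ))) (hdeg : ∀ j, 2 ≤ (g j).natDegree) :
    ∃ c C : ℝ, 0 < c ∧ c ≤ 1 ∧ ∀ᶠ s in 𝓝[>] (1 : ℝ), ∀ i, ∀ P : Finset ℕ, (∀ p ∈ P, p.Prime) →
      ∑ p ∈ P, ((pats g i p).card : ℝ) * (p : ℝ) ^ (-s)
        ≤ (1 - c) * Real.log (1 / (s - 1)) + C := by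
  obtain ⟨K, _, _, N, hN, hK⟩ := split_saving g hirr hdeg
  obtain ⟨C1, hC1⟩ := ideal_lower K
  set n := Module.finrank ℤ (𝓞 K) with hn
  have hn1 : (1 : ℝ) ≤ n := by
    have : 0 < n := Module.finrank_pos
    exact_mod_cast this
  have key : ∀ i, ∃ C : ℝ, ∀ᶠ s in 𝓝[>] (1 : ℝ), ∀ P : Finset ℕ, (∀ p ∈ P, p.Prime) →
      ∑ p ∈ P, ((pats g i p).card : ℝ) * (p : ℝ) ^ (-s)
        ≤ (1 - 1 / n) * Real.log (1 / (s - 1)) + C := by
    intro i
    obtain ⟨K', _, _, N', hN', hK'⟩ := roots_le (g i) (hirr i)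
    obtain ⟨C2, hC2⟩ := ideal_upper K'
    refine ⟨C2 + C1 / n + 2 * (N * N').divisors.card, ?_⟩
    filter_upwards [hC1, hC2, self_mem_nhdsWithin] with s ⟨P1, hP1, h1⟩ h2 h3 P hP
    have hs : 1 < s := h3
    have hP' : ∀ p ∈ P ∪ P1, p.Prime := fun p hp => (mem_union.mp hp).elim (hP p) (hP1 p)
    have h4 := h2 (P ∪ P1) hP'
    have h5 : ∑ p ∈ P1, ((idl K p).card : ℝ) * (p : ℝ) ^ (-s)
        ≤ ∑ p ∈ P ∪ P1, ((idl K p).card : ℝ) * (p : ℝ) ^ (-s) :=
      Finset.sum_le_sum_of_subset_of_nonneg subset_union_right fun _ _ _ => by positivity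
    calc _ ≤ ∑ p ∈ P ∪ P1, ((pats g i p).card : ℝ) * (p : ℝ) ^ (-s) :=
          Finset.sum_le_sum_of_subset_of_nonneg subset_union_left fun _ _ _ => by positivity
      _ ≤ ∑ p ∈ P ∪ P1, (((idl K' p).card : ℝ) * (p : ℝ) ^ (-s)
            - 1 / n * (((idl K p).card : ℝ) * (p : ℝ) ^ (-s))
            + 2 * if p ∈ (N * N').divisors then 1 else 0) := by
          refine Finset.sum_le_sum fun p hp => ?_
          have hpp := hP' p hp
          have k0 : (0 : ℝ) < p := by exact_mod_cast hpp.pos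
          have k1 : 0 < (p : ℝ) ^ (-s) := by positivity
          have k2 : ((idl K p).card : ℝ) ≤ n := by exact_mod_cast card_idl_le hpp
          have k3 : 1 / n * (((idl K p).card : ℝ) * (p : ℝ) ^ (-s)) ≤ (p : ℝ) ^ (-s) := by
            rw [← mul_assoc]
            refine mul_le_of_le_one_left k1.le ?_
            rw [one_div, inv_mul_le_iff₀ (by linarith), mul_one]
            exact k2
          have k4 : (pats g i p).card ≤ (rts (g i) p).card := card_image_le
          split_ifs with hd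
          · have k5 : (p : ℝ) * (p : ℝ) ^ (-s) ≤ 1 := by
              rw [← Real.rpow_one_add' k0.le (by linarith)]
              exact Real.rpow_le_one_of_one_le_of_nonpos (by exact_mod_cast hpp.one_le)
                (by linarith)
            have k6 : ((pats g i p).card : ℝ) ≤ p := by
              have : (pats g i p).card ≤ p := k4.trans ((card_filter_le _ _).trans (by simp))
              exact_mod_cast this
            have k7 : (p : ℝ) ^ (-s) ≤ 1 :=
              Real.rpow_le_one_of_one_le_of_nonpos (by exact_mod_cast hpp.one_le) (by linarith)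
            have k8 : 0 ≤ ((idl K' p).card : ℝ) * (p : ℝ) ^ (-s) := by positivity
            nlinarith
          · rw [Nat.mem_divisors, not_and_or, not_not, or_iff_left (mul_ne_zero hN hN')] at hd
            have k5 := hK' p hpp fun h => hd (h.mul_left _)
            by_cases k6 : (idl K p).card = 0
            · rw [k6]
              have : ((pats g i p).card : ℝ) ≤ (idl K' p).card := by exact_mod_cast k4.trans k5
              simp only [Nat.cast_zero, zero_mul, mul_zero, sub_zero, add_zero]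
              gcongr
            · have k7 := hK p hpp (fun h => hd (h.mul_right _)) k6 i
              have : ((pats g i p).card : ℝ) + 1 ≤ (idl K' p).card := by exact_mod_cast k7.trans k5
              nlinarith
      _ ≤ _ := by
          rw [Finset.sum_add_distrib, Finset.sum_sub_distrib, ← Finset.mul_sum, ← Finset.mul_sum,
            Finset.sum_ite_mem, Finset.sum_const, nsmul_eq_mul, mul_one]
          have k1 : (((P ∪ P1) ∩ (N * N').divisors).card : ℝ) ≤ (N * N').divisors.card := by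
            exact_mod_cast card_le_card inter_subset_right
          have k2 := mul_le_mul_of_nonneg_left (h1.trans h5) (by positivity : (0 : ℝ) ≤ 1 / n)
          have e : C1 / n = 1 / n * C1 := by ring
          rw [e]
          nlinarith
  choose C hC using key
  refine ⟨1 / n, ∑ i, |C i|, by positivity, by rw [div_le_one (by linarith)]; exact hn1, ?_⟩
  filter_upwards [eventually_all.mpr hC] with s hs i P hP
  refine (hs i P hP).trans ?_
  gcongr
  exact (le_abs_self _).trans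
    (Finset.single_le_sum (f := fun i => |C i|) (fun _ _ => abs_nonneg _) (mem_univ i))

end Pool.Agent.P.MP_ab3ecb_nt
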