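import Pool.Agent.P.MP_ab3ecb_nt.Quat
import Pool.Agent.P.MP_ab3ecb_nt.NF

/-!
Unit representatives of the functions `g(x)` at the points of the curve, and `p`-adic lemmas.
-/

namespace Pool.Agent.P.MP_ab3ecb_nt

open Polynomial TensorProduct Quaternion QuaternionAlgebra

set_option maxHeartbeats 400000

section geometry
variable {F : Type} [Field F]

lemma aeval_reverse_mul {x : F} (hx : x ≠ 0) (G : ℤ[X]) :
    aeval x⁻¹ G.reverse * x ^ G.natDegree = aeval x G := by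
  let := invertibleOfNonzero hx
  have := eval₂_reverse_mul_pow (algebraMap ℤ F) x G
  rwa [invOf_eq_inv, ← aeval_def, ← aeval_def] at this

lemma map_reverse_zero {R K : Type*} [CommRing R] [CommRing K] (φ : R →+* K) {t : R}
    (ht : φ t = 0) (G : ℤ[X]) : φ (aeval t G.reverse) = G.leadingCoeff := by
  rw [map_aeval_int, ht, ← coeff_zero_eq_aeval_zero', coeff_zero_reverse, eq_intCast]

lemma mem_of_sq_mem (O : ValuationSubring F) {y : F} (h : y ^ 2 ∈ O) : y ∈ O := by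
  rcases O.mem_or_inv_mem y with h1 | h1
  · exact h1
  · by_cases h0 : y = 0
    · exact h0 ▸ O.zero_mem
    · have : y = y ^ 2 * y⁻¹ := by field_simp
      exact this ▸ O.mul_mem _ _ h h1

lemma inv_nonunit (O : ValuationSubring F) {x : F} (hx : x ∉ O) :
    ∃ h : x⁻¹ ∈ O, ¬ IsUnit (⟨x⁻¹, h⟩ : O) := by
  refine ⟨(O.mem_or_inv_mem x).resolve_left hx, fun h => hx ?_⟩
  obtain ⟨z, hz⟩ := h.exists_right_inv
  have h1 : x⁻¹ * (z : F) = 1 := congrArg Subtype.val hz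
  have h0 : x ≠ 0 := fun h => hx (h ▸ O.zero_mem)
  have : x = z := by
    field_simp at h1
    exact h1.symm
  exact this ▸ z.2

lemma map_nonunit {R K : Type*} [CommRing R] [Field K] (φ : R →+* K) (h : IsLocalHom φ) {t : R}
    (ht : ¬ IsUnit t) : φ t = 0 := by
  by_contra h0
  exact ht (h.map_nonunit t (IsUnit.mk0 _ h0))

lemma exists_tau (O : ValuationSubring F) (hO : ∀ n : ℤ, n ≠ 0 → IsUnit (n : O))
    {G H u v : ℤ[X]} {r D : ℤ} (hr : r ≠ 0) (hD : D ≠ 0) (hbez : u * G + v * H = C r)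
    (hev : Even G.natDegree) {x y : F} (hxy : D * y ^ 2 = aeval x G * aeval x H)
    (hG : aeval x G ≠ 0) :
    ∃ τ : O, IsUnit τ ∧ (∃ s : F, s ≠ 0 ∧ aeval x G = τ * s ^ 2) ∧
      ∀ (K : Type) [Field K] (φ : O →+* K), IsLocalHom φ →
        (∀ hx : x ∈ O, (aeval (φ ⟨x, hx⟩) G ≠ 0 ∧ φ τ = aeval (φ ⟨x, hx⟩) G) ∨
          (aeval (φ ⟨x, hx⟩) G = 0 ∧ φ τ = D * aeval (φ ⟨x, hx⟩) H)) ∧
        (x ∉ O → φ τ = G.leadingCoeff) := by
  have hG0 : G ≠ 0 := by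
    rintro rfl
    simp at hG
  by_cases hx : x ∈ O
  · have hcoe : ∀ q : ℤ[X], ((aeval (⟨x, hx⟩ : O) q : O) : F) = aeval x q := fun q =>
      map_aeval_int O.subtype _ q
    by_cases h1 : IsUnit (aeval (⟨x, hx⟩ : O) G)
    · refine ⟨_, h1, ⟨1, one_ne_zero, by rw [hcoe, one_pow, mul_one]⟩, fun K _ φ hφ =>
        ⟨fun _ => Or.inl ⟨?_, map_aeval_int _ _ _⟩, fun h => absurd hx h⟩⟩
      rw [← map_aeval_int]
      exact (h1.map φ).ne_zero
    · have h2 : IsUnit (aeval (⟨x, hx⟩ : O) H) := by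
        have := congrArg (aeval (⟨x, hx⟩ : O)) hbez
        rw [map_add, map_mul, map_mul, eq_intCast, map_intCast] at this
        rcases IsLocalRing.isUnit_or_isUnit_of_isUnit_add (this ▸ hO r hr) with h | h
        · exact absurd (isUnit_of_mul_isUnit_right h) h1
        · exact isUnit_of_mul_isUnit_right h
      have h3 : IsUnit ((D : O) * aeval (⟨x, hx⟩ : O) H) := (hO D hD).mul h2
      have h4 : (((D : O) * aeval (⟨x, hx⟩ : O) H : O) : F) = D * aeval x H := by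
        rw [← hcoe]; rfl
      have h5 : (D : F) * aeval x H ≠ 0 := h4 ▸ fun h => h3.ne_zero (Subtype.ext h)
      have h6 : aeval x G = D * aeval x H * (D * y / (D * aeval x H)) ^ 2 := by
        have := left_ne_zero_of_mul h5
        have := right_ne_zero_of_mul h5
        field_simp
        linear_combination -hxy
      refine ⟨_, h3, ⟨D * y / (D * aeval x H), fun h => hG ?_, by rw [h4]; exact h6⟩,
        fun K _ φ hφ => ⟨fun _ => Or.inr ⟨?_, ?_⟩, fun h => absurd hx h⟩⟩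
      · rw [h6, h]; simp
      · rw [← map_aeval_int]
        exact map_nonunit φ hφ h1
      · rw [map_mul, map_intCast, map_aeval_int]
  · obtain ⟨h1, h2⟩ := inv_nonunit O hx
    have h0 : x ≠ 0 := fun h => hx (h ▸ O.zero_mem)
    obtain ⟨m, hm⟩ := hev
    refine ⟨aeval (⟨x⁻¹, h1⟩ : O) G.reverse, ?_, ⟨x ^ m, pow_ne_zero _ h0, ?_⟩, fun K _ φ hφ =>
      ⟨fun h => absurd h hx, fun _ => map_reverse_zero φ (map_nonunit φ hφ h2) G⟩⟩
    · rw [← IsLocalRing.residue_ne_zero_iff_isUnit, map_reverse_zero _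
        (map_nonunit _ inferInstance h2), ← map_intCast (IsLocalRing.residue O),
        IsLocalRing.residue_ne_zero_iff_isUnit]
      exact hO _ (leadingCoeff_ne_zero.mpr hG0)
    · rw [← aeval_reverse_mul h0, hm]
      have : ((aeval (⟨x⁻¹, h1⟩ : O) G.reverse : O) : F) = aeval x⁻¹ G.reverse :=
        map_aeval_int O.subtype _ _
      rw [this]
      ring

lemma Pt.isUnit_intCast {K : Type} [Field K] [CharZero K] (P : Pt F K) (n : ℤ) (hn : n ≠ 0) :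
    IsUnit (n : P.O) :=
  P.loc.map_nonunit _ (by rw [map_intCast]; exact IsUnit.mk0 _ (Int.cast_ne_zero.mpr hn))

lemma isUnit_intCast_of_rat [CharZero F] (O : ValuationSubring F) (h : ∀ q : ℚ, (q : F) ∈ O)
    (n : ℤ) (hn : n ≠ 0) : IsUnit (n : O) := by
  refine IsUnit.of_mul_eq_one ⟨((n : ℚ)⁻¹ : ℚ), h _⟩ (Subtype.ext ?_)
  change (n : F) * (((n : ℚ)⁻¹ : ℚ) : F) = 1
  have : (n : F) ≠ 0 := Int.cast_ne_zero.mpr hn
  simp [this]

lemma Pt.eqn {K : Type} [Field K] [CharZero K] (P : Pt F K) {f : ℤ[X]} {D : ℤ} (hD : D ≠ 0)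
    (hev : Even f.natDegree) {x y : F} (hxy : D * y ^ 2 = aeval x f) :
    (∀ hx : x ∈ P.O, ∃ b : K, D * b ^ 2 = aeval (P.φ ⟨x, hx⟩) f) ∧
      (x ∉ P.O → ∃ w : K, D * w ^ 2 = f.leadingCoeff) := by
  have key : ∀ (w : F) (z : P.O), D * w ^ 2 = z → ∃ b : K, D * b ^ 2 = P.φ z := by
    intro w z h
    obtain ⟨c, hc⟩ := (P.isUnit_intCast D hD).exists_left_inv
    have hc' : (c : F) * D = 1 := congrArg Subtype.val hc
    have h1 : w ∈ P.O := by
      apply mem_of_sq_mem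
      have : w ^ 2 = c * z := by rw [← h, ← mul_assoc, hc', one_mul]
      exact this ▸ P.O.mul_mem _ _ c.2 z.2
    refine ⟨P.φ ⟨w, h1⟩, ?_⟩
    rw [← map_intCast P.φ, ← map_pow, ← map_mul]
    congr 1
    exact Subtype.ext h
  refine ⟨fun hx => ?_, fun hx => ?_⟩
  · rw [← map_aeval_int]
    exact key y _ (hxy.trans (map_aeval_int P.O.subtype ⟨x, hx⟩ f).symm)
  · obtain ⟨h1, h2⟩ := inv_nonunit P.O hx
    have h0 : x ≠ 0 := fun h => hx (h ▸ P.O.zero_mem)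
    obtain ⟨m, hm⟩ := hev
    rw [← map_reverse_zero P.φ (map_nonunit _ P.loc h2) f]
    refine key (y / x ^ m) _ (Eq.trans ?_ (map_aeval_int P.O.subtype ⟨x⁻¹, h1⟩ f.reverse).symm)
    change _ = aeval x⁻¹ f.reverse
    have := aeval_reverse_mul h0 f
    rw [hm, ← hxy] at this
    generalize aeval x⁻¹ f.reverse = z at this
    field_simp
    linear_combination -this

lemma isModel_quat (O : ValuationSubring F) (hO : ∀ n : ℤ, n ≠ 0 → IsUnit (n : O)) {δ : ℤ}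
    (hδ : δ ≠ 0) {G s : F} {τ : O} (hτ : IsUnit τ) (hs : s ≠ 0) (hG : G = τ * s ^ 2) :
    IsModel ℍ[F,(δ : F),0,G] O ℍ[O,(δ : O),0,τ] := by
  refine ⟨quat_azumaya (by exact_mod_cast hO 2 two_ne_zero) (hO δ hδ) hτ, ?_⟩
  obtain ⟨e1⟩ := quat_baseChange (S := F) (δ : O) τ
  obtain ⟨e2⟩ := quat_scale (δ : F) τ s hs
  subst hG
  exact BrEq.of_equiv (e1.trans e2)

lemma valInv_quat {K : Type} [Field K] [CharZero K] (P : Pt F K) {δ : ℤ} (hδ : δ ≠ 0) {G s : F}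
    {τ : P.O} (hτ : IsUnit τ) (hs : s ≠ 0) (hG : G = τ * s ^ 2)
    (Inv : (B : Type) → [Ring B] → [Algebra K B] → AddCircle (1 : ℚ) → Prop)
    (q : AddCircle (1 : ℚ))
    (hInv : ∀ (B B' : Type) [Ring B] [Ring B'] [Algebra K B] [Algebra K B'],
      (B ≃ₐ[K] B') → Inv B' q → Inv B q)
    (h : Inv ℍ[K,(δ : K),0,P.φ τ] q) : ValInv ℍ[F,(δ : F),0,G] P Inv q := by
  refine ⟨_, _, _, isModel_quat P.O P.isUnit_intCast hδ hτ hs hG, ?_⟩
  let := P.φ.toAlgebra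
  obtain ⟨e1⟩ := quat_baseChange (S := K) (δ : P.O) τ
  refine hInv _ _ e1 ?_
  rw [map_intCast]
  exact h

end geometry

section padic
variable {p : ℕ} [Fact p.Prime]

lemma isUnit_iff_toZMod (z : ℤ_[p]) : IsUnit z ↔ PadicInt.toZMod z ≠ 0 := by
  rw [Ne, ← RingHom.mem_ker, PadicInt.ker_toZMod, IsLocalRing.notMem_maximalIdeal]

lemma isUnit_intCast_iff (n : ℤ) : IsUnit (n : ℤ_[p]) ↔ ¬ (p : ℤ) ∣ n := by
  rw [isUnit_iff_toZMod, map_intCast, Ne, ZMod.intCast_zmod_eq_zero_iff_dvd]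

lemma val_unit {z : ℤ_[p]} (hz : IsUnit z) : (z : ℚ_[p]) ≠ 0 ∧ (z : ℚ_[p]).valuation = 0 := by
  have h0 : (z : ℚ_[p]) ≠ 0 := PadicInt.coe_ne_zero.mpr hz.ne_zero
  refine ⟨h0, ?_⟩
  have h1 := Padic.norm_eq_zpow_neg_valuation h0
  rw [PadicInt.padic_norm_e_of_padicInt, PadicInt.isUnit_iff.mp hz] at h1
  have h2 : (1 : ℝ) < p := by exact_mod_cast (Fact.out : p.Prime).one_lt
  have := (zpow_eq_one_iff_right₀ (by linarith) h2.ne').mp h1.symm
  omega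

lemma isSquare_of_hensel (δ a : ℤ_[p]) (h : ‖a ^ 2 - δ‖ < ‖2 * a‖ ^ 2) :
    IsSquare (δ : ℚ_[p]) := by
  obtain ⟨z, hz, -⟩ := hensels_lemma (F := (X ^ 2 - C δ : ℤ_[p][X])) (a := a) (by
    simpa [derivative_X_pow, one_add_one_eq_two] using h)
  refine ⟨z, ?_⟩
  simp only [map_sub, map_pow, aeval_X, aeval_C, Algebra.algebraMap_self, RingHom.id_apply,
    sub_eq_zero] at hz
  rw [← hz, sq, PadicInt.coe_mul]

lemma isSquare_of_toZMod (hp2 : p ≠ 2) {δ : ℤ_[p]} (hδ : IsUnit δ)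
    (h : IsSquare (PadicInt.toZMod δ)) : IsSquare (δ : ℚ_[p]) := by
  obtain ⟨r, hr⟩ := h
  obtain ⟨a, rfl⟩ := ZMod.ringHom_surjective PadicInt.toZMod r
  apply isSquare_of_hensel δ a
  have h1 : IsUnit a := by
    rw [isUnit_iff_toZMod] at hδ ⊢
    exact left_ne_zero_of_mul (hr ▸ hδ)
  have h2 : IsUnit (2 : ℤ_[p]) := by
    have := (isUnit_intCast_iff (p := p) 2).mpr fun h => hp2
      ((Nat.prime_dvd_prime_iff_eq Fact.out Nat.prime_two).mp (by exact_mod_cast h))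
    exact_mod_cast this
  rw [PadicInt.isUnit_iff.mp (h2.mul h1), one_pow, ← PadicInt.not_isUnit_iff, isUnit_iff_toZMod,
    not_not, map_sub, map_pow, hr, sq, sub_self]

lemma isSquare_bad {M q q' : ℕ} (h8 : 8 ∣ M) (hpM : p ∣ M) (hq : ¬ p ∣ q) (h : q ≡ q' [MOD M]) :
    IsSquare (((q * q' : ℕ) : ℤ) : ℚ_[p]) := by
  have := isSquare_of_hensel (p := p) (((q * q' : ℕ) : ℤ) : ℤ_[p]) ((q : ℤ) : ℤ_[p]) ?_
  · simpa using this
  have h1 : ‖((q : ℤ) : ℤ_[p])‖ = 1 :=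
    PadicInt.isUnit_iff.mp ((isUnit_intCast_iff _).mpr (by exact_mod_cast hq))
  have h2 : ((q : ℤ) : ℤ_[p]) ^ 2 - (((q * q' : ℕ) : ℤ) : ℤ_[p])
      = - ((q : ℤ) : ℤ_[p]) * ((q' - q : ℤ) : ℤ_[p]) := by push_cast; ring
  rw [h2, norm_mul, norm_neg, norm_mul, h1, one_mul, mul_one]
  have h3 := h.dvd
  by_cases hp2 : p = 2
  · subst hp2
    have k1 : ‖((q' - q : ℤ) : ℤ_[2])‖ ≤ ((2 : ℕ) : ℝ) ^ (-((3 : ℕ) : ℤ)) :=
      PadicInt.norm_int_le_pow_iff_dvd.mpr ((Int.natCast_dvd_natCast.mpr h8).trans h3)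
    have k2 : ‖(2 : ℤ_[2])‖ = ((2 : ℕ) : ℝ)⁻¹ := PadicInt.norm_p (p := 2)
    rw [k2]
    refine k1.trans_lt ?_
    norm_num
  · have h2 : IsUnit (2 : ℤ_[p]) := by
      have := (isUnit_intCast_iff (p := p) 2).mpr fun h => hp2
        ((Nat.prime_dvd_prime_iff_eq Fact.out Nat.prime_two).mp (by exact_mod_cast h))
      exact_mod_cast this
    rw [PadicInt.isUnit_iff.mp h2, one_pow, PadicInt.norm_int_lt_one_iff_dvd]
    exact (Int.natCast_dvd_natCast.mpr hpM).trans h3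

lemma coe_aeval (a : ℤ_[p]) (G : ℤ[X]) : ((aeval a G : ℤ_[p]) : ℚ_[p]) = aeval (a : ℚ_[p]) G :=
  map_aeval_int PadicInt.Coe.ringHom a G

lemma big_arg {G : ℤ[X]} (hlc : ¬ (p : ℤ) ∣ G.leadingCoeff) (hev : Even G.natDegree) {a : ℚ_[p]}
    (ha : 1 < ‖a‖) : aeval a G ≠ 0 ∧ Even (aeval a G).valuation := by
  have h0 : a ≠ 0 := by
    rintro rfl
    norm_num at ha
  have h1 : ‖a⁻¹‖ < 1 := by
    rw [norm_inv]
    exact inv_lt_one_of_one_lt₀ ha
  obtain ⟨z, hz⟩ : ∃ z : ℤ_[p], (z : ℚ_[p]) = a⁻¹ := ⟨⟨a⁻¹, h1.le⟩, rfl⟩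
  have h2 : PadicInt.toZMod z = 0 := by
    rw [← not_ne_iff, ← isUnit_iff_toZMod, PadicInt.not_isUnit_iff, PadicInt.norm_def, hz]
    exact h1
  have h3 : IsUnit (aeval z G.reverse) := by
    rw [isUnit_iff_toZMod, map_reverse_zero _ h2, Ne, ZMod.intCast_zmod_eq_zero_iff_dvd]
    exact hlc
  obtain ⟨h4, h5⟩ := val_unit h3
  rw [coe_aeval, hz] at h4 h5
  rw [← aeval_reverse_mul h0]
  refine ⟨mul_ne_zero h4 (pow_ne_zero _ h0), ?_⟩
  rw [Padic.valuation_mul h4 (pow_ne_zero _ h0), h5, zero_add, Padic.valuation_pow]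
  exact (Int.even_coe_nat _).mpr hev |>.mul_right _

lemma val_mul_sq {D b : ℚ_[p]} (h : D * b ^ 2 ≠ 0) :
    (D * b ^ 2).valuation = D.valuation + 2 * b.valuation := by
  rw [Padic.valuation_mul (left_ne_zero_of_mul h) (right_ne_zero_of_mul h), Padic.valuation_pow]
  rfl

lemma bez_unit {G H u v : ℤ[X]} {r : ℤ} (hr : ¬ (p : ℤ) ∣ r) (hbez : u * G + v * H = C r)
    {a : ℤ_[p]} (h : ¬ IsUnit (aeval a G)) : IsUnit (aeval a H) := by
  have := congrArg (aeval a) hbez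
  rw [map_add, map_mul, map_mul, eq_intCast, map_intCast] at this
  rcases IsLocalRing.isUnit_or_isUnit_of_isUnit_add (this ▸ (isUnit_intCast_iff r).mpr hr)
    with h1 | h1
  · exact absurd (isUnit_of_mul_isUnit_right h1) h
  · exact isUnit_of_mul_isUnit_right h1

/-- The parity of the valuation of the local value at an integral point where `G` is a nonunit. -/
lemma val_parity {G H u v : ℤ[X]} {r D : ℤ} (hr : ¬ (p : ℤ) ∣ r) (hD : D ≠ 0)
    (hbez : u * G + v * H = C r) {a : ℤ_[p]} {b t : ℚ_[p]}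
    (heq : D * b ^ 2 = aeval (a : ℚ_[p]) G * aeval (a : ℚ_[p]) H) (h : ¬ IsUnit (aeval a G))
    (ht : (aeval (a : ℚ_[p]) G ≠ 0 ∧ t = aeval (a : ℚ_[p]) G) ∨
      (aeval (a : ℚ_[p]) G = 0 ∧ t = D * aeval (a : ℚ_[p]) H)) :
    ∃ k : ℤ, t.valuation = (D : ℚ_[p]).valuation + 2 * k := by
  obtain ⟨h1, h2⟩ := val_unit (bez_unit hr hbez h)
  rw [coe_aeval] at h1 h2
  rcases ht with ⟨h3, rfl⟩ | ⟨-, rfl⟩
  · refine ⟨b.valuation, ?_⟩
    rw [← val_mul_sq (heq ▸ mul_ne_zero h3 h1), heq, Padic.valuation_mul h3 h1, h2, add_zero]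
  · exact ⟨0, by rw [Padic.valuation_mul (Int.cast_ne_zero.mpr hD) h1, h2, mul_zero]⟩

end padic

lemma half_even {n : ℤ} (h : Even n) : ((n / 2 : ℚ) : AddCircle (1 : ℚ)) = 0 := by
  obtain ⟨k, rfl⟩ := h
  exact (AddCircle.coe_eq_zero_iff _).mpr ⟨k, by push_cast; simp⟩

lemma half_odd {n : ℤ} (h : Odd n) :
    ((n / 2 : ℚ) : AddCircle (1 : ℚ)) = ((1 / 2 : ℚ) : AddCircle (1 : ℚ)) := by
  obtain ⟨k, rfl⟩ := h
  have : (((2 * k + 1 : ℤ) : ℚ) / 2) = ((2 * k : ℤ) : ℚ) / 2 + 1 / 2 := by push_cast; ring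
  rw [this, AddCircle.coe_add, half_even (even_two_mul k), zero_add]

lemma half_ne_zero' : ((1 / 2 : ℚ) : AddCircle (1 : ℚ)) ≠ 0 := by
  rw [Ne, AddCircle.coe_eq_zero_iff]
  rintro ⟨k, hk⟩
  have h : (2 * k : ℤ) = 1 := by
    simp only [zsmul_eq_mul, mul_one] at hk
    exact_mod_cast (by rw [hk]; norm_num : (2 * k : ℚ) = 1)
  omega

lemma prod_eq_one_of_sum {ι : Type*} (T : Finset ι) (f : ι → ℤ) (hf : ∀ i ∈ T, f i = 1 ∨ f i = -1)
    (h : ∑ i ∈ T, (if f i = -1 then ((1 / 2 : ℚ) : AddCircle (1 : ℚ)) else 0) = 0) :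
    ∏ i ∈ T, f i = 1 := by
  classical
  have key : ∀ T : Finset ι, (∀ i ∈ T, f i = 1 ∨ f i = -1) →
      ((∏ i ∈ T, f i = 1 ∧
        ∑ i ∈ T, (if f i = -1 then ((1 / 2 : ℚ) : AddCircle (1 : ℚ)) else 0) = 0) ∨
      (∏ i ∈ T, f i = -1 ∧
        ∑ i ∈ T, (if f i = -1 then ((1 / 2 : ℚ) : AddCircle (1 : ℚ)) else 0)
          = ((1 / 2 : ℚ) : AddCircle (1 : ℚ)))) := by
    intro T
    induction T using Finset.induction_on with
    | empty => simp
    | insert i T hi ih =>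
      intro hf
      rw [Finset.prod_insert hi, Finset.sum_insert hi]
      have h2 : ((1 / 2 : ℚ) : AddCircle (1 : ℚ)) + ((1 / 2 : ℚ) : AddCircle (1 : ℚ)) = 0 := by
        rw [← AddCircle.coe_add]
        norm_num
      rcases hf i (Finset.mem_insert_self _ _) with h1 | h1 <;>
        rcases ih (fun j hj => hf j (Finset.mem_insert_of_mem hj)) with ⟨h3, h4⟩ | ⟨h3, h4⟩ <;>
        rw [h1, h3, h4]
      · simp
      · simp
      · simp
      · exact Or.inl ⟨by norm_num, by rw [if_pos rfl, h2]⟩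
  rcases key T hf with h1 | h1
  · exact h1.1
  · exact absurd (h1.2.symm.trans h) half_ne_zero'

end Pool.Agent.P.MP_ab3ecb_nt
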