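import Pool.Agent.P.MP_ab3ecb_nt.Trace
import Pool.Agent.P.MP_ab3ecb_nt.Points

/-!
Unramified classes on the curve and their values at points.
-/

namespace Pool.Agent.P.MP_ab3ecb_nt

open TensorProduct Module Polynomial

set_option maxHeartbeats 400000
set_option linter.unusedSectionVars false

section rel
variable {R B : Type} [CommRing R] [CommRing B] [Algebra R B]

/-- `u` represents the common square class of `x` and `y`. -/
def Rel (u x y : B) : Prop := IsSquare (u * x) ∧ IsSquare (u * y)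

lemma exists_rel [IsLocalRing R] [Module.Finite R B] {x y : B} {η : R}
    (h : x * y = algebraMap R B η ^ 2) (hc : IsCoprime x y) : ∃ u, IsUnit u ∧ Rel u x y := by
  by_cases hη : IsUnit η
  · exact ⟨x, isUnit_of_mul_isUnit_left (h ▸ (hη.map _).pow 2), ⟨x, rfl⟩, ⟨_, h.trans (sq _)⟩⟩
  · obtain ⟨a, b, hab⟩ := hc
    set e := algebraMap R B η with he
    refine ⟨a ^ 2 * x + 2 * a * b * e + b ^ 2 * y, ?_, ⟨a * x + b * e, ?_⟩, ⟨a * e + b * y, ?_⟩⟩
    · have := isUnit_one_add hη ((a - b) ^ 2 * e + 2 * a * b * (x + y))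
      refine isUnit_of_mul_isUnit_left (y := x + y) ?_
      rwa [show (a ^ 2 * x + 2 * a * b * e + b ^ 2 * y) * (x + y)
        = 1 + e * ((a - b) ^ 2 * e + 2 * a * b * (x + y)) by
          linear_combination (a - b) ^ 2 * h + (a * x + b * y + 1) * hab]
    · linear_combination b ^ 2 * h
    · linear_combination a ^ 2 * h

lemma rel_unique {K : Type} [Field K] [Algebra K B] {x y u u' : B} {η : K}
    (h : x * y = algebraMap K B η ^ 2) (hc : IsCoprime x y) (h1 : Rel u x y) (h2 : Rel u' x y) :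
    IsSquare (u * u') := by
  obtain ⟨⟨s, hs⟩, t, ht⟩ := h1
  obtain ⟨⟨s', hs'⟩, t', ht'⟩ := h2
  by_cases hη : η = 0
  · obtain ⟨a, b, hab⟩ := hc
    rw [hη, map_zero, zero_pow two_ne_zero] at h
    have h3 : (a * x) ^ 4 + (b * y) ^ 4 = 1 := by
      linear_combination (-(a * b) * (4 * (a * x) ^ 2 + 6 * (a * x) * (b * y) + 4 * (b * y) ^ 2)) * h
        + ((a * x + b * y + 1) * ((a * x + b * y) ^ 2 + 1)) * hab
    refine ⟨a * x * a * s * s' + b * y * b * t * t', ?_⟩
    linear_combination (-(u * u')) * h3 - 2 * a ^ 2 * b ^ 2 * s * s' * t * t' * h +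
      a ^ 4 * x ^ 2 * (u' * x * hs + s * s * hs') + b ^ 4 * y ^ 2 * (u' * y * ht + t * t * ht')
  · have h3 : IsUnit x := isUnit_of_mul_isUnit_left (h ▸ ((IsUnit.mk0 _ hη).map _).pow 2)
    obtain ⟨c, hc⟩ := h3.exists_right_inv
    refine ⟨s * s' * c, ?_⟩
    linear_combination c ^ 2 * (u' * x * hs + s * s * hs') - u * u' * (x * c + 1) * hc

lemma Rel.map {C : Type} [CommRing C] (Φ : B →+* C) {u x y : B} (h : Rel u x y) :
    Rel (Φ u) (Φ x) (Φ y) := ⟨map_mul Φ u x ▸ h.1.map Φ, map_mul Φ u y ▸ h.2.map Φ⟩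

end rel

section hv
variable {A B : Type} [CommRing A] [CommRing B]

/-- The value of the homogenization of `G`. -/
noncomputable def hv (ρ : A →+* B) (G : A[X]) (x z : B) : B :=
  MvPolynomial.eval₂ ρ ![x, z] (G.homogenize G.natDegree)

variable (ρ : A →+* B)

lemma hv_eq (G : A[X]) (x z : B) : hv ρ G x z =
    ∑ k ∈ Finset.HasAntidiagonal.antidiagonal G.natDegree, ρ (G.coeff k.1) * (x ^ k.1 * z ^ k.2) := by
  rw [hv, homogenize, MvPolynomial.eval₂_sum]
  refine Finset.sum_congr rfl fun k _ => ?_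
  rw [MvPolynomial.eval₂_monomial, Finsupp.prod_fintype _ _ (by simp)]
  simp

lemma hv_mul {G H : A[X]} (hG : G.Monic) (hH : H.Monic) (x z : B) :
    hv ρ (G * H) x z = hv ρ G x z * hv ρ H x z := by
  rw [hv, hG.natDegree_mul hH, homogenize_mul _ _ le_rfl le_rfl, MvPolynomial.eval₂_mul, hv, hv]

lemma map_hv {C : Type} [CommRing C] (Φ : B →+* C) (G : A[X]) (x z : B) :
    Φ (hv ρ G x z) = hv (Φ.comp ρ) G (Φ x) (Φ z) := by
  simp [hv_eq]

lemma hv_map {C : Type} [CommRing C] [Nontrivial A] (σ : C →+* A) {G : C[X]} (hG : G.Monic)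
    (x z : B) : hv ρ (G.map σ) x z = hv (ρ.comp σ) G x z := by
  simp [hv_eq, hG.natDegree_map]

lemma hv_smul (G : A[X]) (t x z : B) :
    hv ρ G (t * x) (t * z) = t ^ G.natDegree * hv ρ G x z := by
  rw [hv_eq, hv_eq, Finset.mul_sum]
  refine Finset.sum_congr rfl fun k hk => ?_
  rw [← Finset.HasAntidiagonal.mem_antidiagonal.mp hk]
  ring

lemma hv_one (G : A[X]) (x : B) : hv ρ G x 1 = G.eval₂ ρ x :=
  (eval₂_homogenize_of_eq_one le_rfl ρ ![x, 1] rfl)

lemma hv_monic {G : A[X]} (hG : G.Monic) (x z : B) :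
    ∃ w, hv ρ G x z = x ^ G.natDegree + z * w := by
  rw [hv_eq, ← Finset.add_sum_erase _ _ (a := (G.natDegree, 0)) (by simp)]
  obtain ⟨w, hw⟩ : z ∣ ∑ k ∈ (Finset.HasAntidiagonal.antidiagonal G.natDegree).erase (G.natDegree, 0),
      ρ (G.coeff k.1) * (x ^ k.1 * z ^ k.2) := Finset.dvd_sum fun k hk => by
    refine ((dvd_pow_self z fun h => ?_).mul_left _).mul_left _
    obtain ⟨h1, h2⟩ := Finset.mem_erase.mp hk
    rw [Finset.HasAntidiagonal.mem_antidiagonal] at h2
    exact h1 (Prod.ext (by simp only; omega) h)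
  exact ⟨w, by simp [hw, hG.coeff_natDegree]⟩

lemma hv_lin [Nontrivial A] (θ : A) (x z : B) : hv ρ (X - C θ) x z = x - ρ θ * z := by
  simp [hv_eq, Finset.Nat.antidiagonal_succ, coeff_X]
  ring

/-- A factorization of `F` into two coprime monic polynomials. -/
structure Spl (F : ℤ[X]) (r : ℤ) (G H : A[X]) : Prop where
  mG : G.Monic
  mH : H.Monic
  mF : F.Monic
  mul : G * H = F.map (Int.castRingHom A)
  bez : ∃ u v : A[X], u * G + v * H = C (r : A)
  ev : Even F.natDegree

variable {F : ℤ[X]} {r : ℤ} {G H : A[X]} [Nontrivial A]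

lemma Spl.hv_mul (h : Spl F r G H) (x z : B) :
    hv ρ G x z * hv ρ H x z = hv (Int.castRingHom B) F x z := by
  rw [← MP_ab3ecb_nt.hv_mul ρ h.mG h.mH, h.mul, hv_map _ _ h.mF, RingHom.ext_int (ρ.comp _)]

lemma hv_unit {R : Type} [CommRing R] [IsLocalRing R] [Algebra R B] [Module.Finite R B]
    (hG : G.Monic) {x z : R} (hx : IsUnit x) (hz : ¬ IsUnit z) :
    IsUnit (hv ρ G (algebraMap R B x) (algebraMap R B z)) := by
  obtain ⟨w, hw⟩ := hv_monic ρ hG (algebraMap R B x) (algebraMap R B z)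
  have h1 := (hx.map (algebraMap R B)).pow G.natDegree
  obtain ⟨c, hc⟩ := h1.exists_right_inv
  have := h1.mul (isUnit_one_add hz (w * c))
  rwa [show _ * (1 + algebraMap R B z * (w * c)) = hv ρ G (algebraMap R B x) (algebraMap R B z) by
    linear_combination algebraMap R B z * w * hc - hw] at this

lemma Spl.coprime {R : Type} [CommRing R] [IsLocalRing R] [Algebra R B] [Module.Finite R B]
    (h : Spl F r G H) (hr : IsUnit (r : R)) {x z : R} (hxz : IsUnit x ∨ IsUnit z) :
    IsCoprime (hv ρ G (algebraMap R B x) (algebraMap R B z))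
      (hv ρ H (algebraMap R B x) (algebraMap R B z)) := by
  by_cases hz : IsUnit z
  · obtain ⟨c, hc⟩ := hz.exists_right_inv
    have h1 := hz.map (algebraMap R B)
    have h2 : algebraMap R B x = algebraMap R B z * algebraMap R B (c * x) := by
      rw [← map_mul, ← mul_assoc, hc, one_mul]
    rw [h2]
    nth_rw 2 4 [← mul_one (algebraMap R B z)]
    rw [hv_smul, hv_smul, hv_one, hv_one, isCoprime_mul_unit_left_left (h1.pow _),
      isCoprime_mul_unit_left_right (h1.pow _)]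
    obtain ⟨u, v, huv⟩ := h.bez
    have h3 := congrArg (eval₂ ρ (algebraMap R B (c * x))) huv
    rw [eval₂_add, eval₂_mul, eval₂_mul, eval₂_C, map_intCast] at h3
    have h4 := hr.map (algebraMap R B)
    rw [map_intCast] at h4
    obtain ⟨e, he⟩ := h4.exists_left_inv
    exact ⟨e * eval₂ ρ _ u, e * eval₂ ρ _ v, by rw [mul_assoc, mul_assoc, ← mul_add, h3, he]⟩
  · obtain ⟨c, hc⟩ := (hv_unit ρ h.mG (hxz.resolve_right hz) hz).exists_left_inv
    exact ⟨c, 0, by rw [hc, zero_mul, add_zero]⟩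

lemma Spl.scale (h : Spl F r G H) {u d x z : B} (t : B)
    (h1 : Rel u (hv ρ G x z) (d * hv ρ H x z)) :
    Rel (t ^ G.natDegree * u) (hv ρ G (t * x) (t * z)) (d * hv ρ H (t * x) (t * z)) := by
  obtain ⟨⟨s, hs⟩, s', hs'⟩ := h1
  obtain ⟨m, hm⟩ := h.ev
  rw [← h.mF.natDegree_map (Int.castRingHom A), ← h.mul, h.mG.natDegree_mul h.mH] at hm
  have h2 : t ^ G.natDegree * t ^ H.natDegree = t ^ m * t ^ m := by rw [← pow_add, hm, pow_add]
  rw [hv_smul, hv_smul]
  exact ⟨⟨t ^ G.natDegree * s, by linear_combination (t ^ G.natDegree) ^ 2 * hs⟩,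
    ⟨t ^ m * s', by linear_combination t ^ m * t ^ m * hs' + u * d * hv ρ H x z * h2⟩⟩

end hv

section tensor
variable (A : Type) [CommRing A] [Module.Free ℤ A] [Module.Finite ℤ A]

/-- The inclusion of `A` in its base change. -/
noncomputable def inc (R : Type) [CommRing R] : A →+* R ⊗[ℤ] A :=
  (Algebra.TensorProduct.includeRight (R := ℤ) (A := R) (B := A)).toRingHom

/-- The transition map between two base changes. -/
noncomputable def tm {R K : Type} [CommRing R] [CommRing K] (φ : R →+* K) :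
    R ⊗[ℤ] A →+* K ⊗[ℤ] A :=
  (Algebra.TensorProduct.map φ.toIntAlgHom (AlgHom.id ℤ A)).toRingHom

variable {A} {R K : Type} [CommRing R]

lemma tm_tmul [CommRing K] (φ : R →+* K) (r : R) (a : A) : tm A φ (r ⊗ₜ a) = φ r ⊗ₜ a := rfl

lemma tm_inc [CommRing K] (φ : R →+* K) (a : A) : tm A φ (inc A R a) = inc A K a := by
  change tm A φ (1 ⊗ₜ a) = 1 ⊗ₜ a
  rw [tm_tmul, map_one]

lemma tm_comp [CommRing K] (φ : R →+* K) : (tm A φ).comp (inc A R) = inc A K :=
  RingHom.ext (tm_inc φ)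

lemma tm_alg [CommRing K] (φ : R →+* K) (r : R) :
    tm A φ (algebraMap R _ r) = algebraMap K _ (φ r) := rfl

lemma lmul_inc (a : A) :
    Algebra.lmul R (R ⊗[ℤ] A) (inc A R a) = (Algebra.lmul ℤ A a).baseChange R := by
  ext b
  simp [inc]

lemma trace_tmul (r : R) (a : A) :
    Algebra.trace R (R ⊗[ℤ] A) (r ⊗ₜ a) = r * (Algebra.trace ℤ A a : ℤ) := by
  have : r ⊗ₜ[ℤ] a = r • inc A R a := by simp [inc, smul_tmul']
  rw [this, map_smul, Algebra.trace_apply, lmul_inc, LinearMap.trace_baseChange, smul_eq_mul,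
    Algebra.trace_apply, eq_intCast]

lemma norm_inc (a : A) : Algebra.norm R (inc A R a) = (Algebra.norm ℤ a : ℤ) := by
  rw [Algebra.norm_apply, Algebra.norm_apply]
  have := lmul_inc (R := R) a
  change LinearMap.det (Algebra.lmul R _ (inc A R a)) = ((LinearMap.det (Algebra.lmul ℤ A a) : ℤ) : R)
  rw [this, LinearMap.det_baseChange, eq_intCast]

lemma isUnit_of_norm {B : Type} [CommRing B] [Algebra R B] [Module.Free R B] [Module.Finite R B]
    {z : B} (h : IsUnit (Algebra.norm R z)) : IsUnit z :=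
  Algebra.lmul_isUnit_iff.mp ((LinearMap.isUnit_iff_isUnit_det _).mpr h)

lemma isUnit_inc {a : A} (h : IsUnit ((Algebra.norm ℤ a : ℤ) : R)) : IsUnit (inc A R a) :=
  isUnit_of_norm (by rwa [norm_inc])

lemma bc_tm [Nontrivial R] [Field K] [Algebra R K] : BC (Algebra.trace R (R ⊗[ℤ] A))
    (Algebra.trace K (K ⊗[ℤ] A)) (tm A (algebraMap R K)) := by
  refine ⟨inferInstance, by rw [finrank_baseChange, finrank_baseChange], fun z => ?_⟩
  induction z with
  | zero => simp
  | add x y h1 h2 => simp only [map_add, h1, h2]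
  | tmul r a => rw [tm_tmul, trace_tmul, trace_tmul, map_mul, map_intCast]

/-- The trace form of `A` is perfect away from `r`. -/
def Dual (A : Type) [CommRing A] (r : ℤ) : Prop :=
  ∀ f : A →ₗ[ℤ] ℤ, ∃ z, ∀ w, Algebra.trace ℤ A (z * w) = r * f w

lemma Dual.perf {r : ℤ} (h : Dual A r) (hr : IsUnit (r : R)) :
    Perf (bf (Algebra.trace R (R ⊗[ℤ] A)) 1) := by
  classical
  intro f
  obtain ⟨c, hc⟩ := hr.exists_left_inv
  let b := Module.Free.chooseBasis ℤ A
  choose z hz using fun i => h (b.coord i)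
  refine ⟨∑ i, (c * f (1 ⊗ₜ b i)) ⊗ₜ z i, (b.baseChange R).ext fun j => ?_⟩
  simp only [map_sum, LinearMap.sum_apply, bf_apply, Basis.baseChange_apply, one_mul,
    Algebra.TensorProduct.tmul_mul_tmul, trace_tmul, hz, Basis.coord_apply, Basis.repr_self]
  rw [Finset.sum_eq_single j (fun i _ hi => by simp [Finsupp.single_eq_of_ne hi]) (by simp)]
  simp only [Finsupp.single_eq_same, mul_one]
  linear_combination f (1 ⊗ₜ b j) * hc

end tensor

end Pool.Agent.P.MP_ab3ecb_nt
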