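import Pool.Agent.P.MP_ab3ecb_nt.Br

/-!
Discriminant and Clifford class of even dimensional forms, and Azumaya models.
-/

namespace Pool.Agent.P.MP_ab3ecb_nt

open TensorProduct Quaternion QuaternionAlgebra

set_option maxHeartbeats 400000
set_option linter.unusedSectionVars false

variable {K : Type} [Field K]
variable {M M' : Type} [AddCommGroup M] [Module K M] [AddCommGroup M'] [Module K M']

lemma equiv_of {Q : QuadraticForm K M} {Q' : QuadraticForm K M'} (e : M ≃ₗ[K] M')
    (h : ∀ z, Q' (e z) = Q z) : Q.Equivalent Q' := ⟨⟨e, h⟩⟩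

lemma cc_trivial [Subsingleton M] (Q : QuadraticForm K M) : cc Q = 1 := by
  refine cl_congr (AlgEquiv.ofAlgHom (CliffordAlgebra.lift Q ⟨0, fun m => ?_⟩)
    (Algebra.ofId K _) (by ext) ?_)
  · simp [Subsingleton.elim m 0]
  · ext m
    simp [Subsingleton.elim m 0]

lemma smul_bin (t a b : K) : t • bin a b = bin (t * a) (t * b) := by
  refine QuadraticMap.ext fun z => ?_
  simp only [smul_apply, bin_apply, smul_eq_mul]
  ring

lemma cc_bin' {a b : K} (ha : a ≠ 0) (hb : b ≠ 0) : cc (bin a b) = sy a b := by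
  have h := cc_bin ha hb (0 : QuadraticForm K PUnit)
  rw [cc_trivial (_ • _), mul_one] at h
  rw [← h]
  exact cc_congr (equiv_of LinearEquiv.prodUnique.symm fun z => by simp)

lemma cc_sq (Q : QuadraticForm K M) (d : K) {s : K} (hs : s ≠ 0) :
    cc ((d * s ^ 2) • Q) = cc (d • Q) :=
  cc_congr (equiv_of (LinearEquiv.smulOfNeZero K M s hs) fun z => by
    simp [QuadraticMap.map_smul, sq, mul_assoc])

variable [CharZero K]

lemma sy_one {a : K} (ha : a ≠ 0) : sy a 1 = 1 := sy_of_isSquare ha one_ne_zero IsSquare.one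

lemma sy_aux {a b c : K} (ha : a ≠ 0) (hb : b ≠ 0) (hc : c ≠ 0) :
    sy a b = sy a c * sy (-(a * (b * c))) (b * c) := by
  have h1 := cc_bin ha hb (bin c (-(a * b)))
  have h2 := cc_bin ha hc (bin b (-(a * b)))
  have h3 : ((bin a b).prod (bin c (-(a * b)))).Equivalent ((bin a c).prod (bin b (-(a * b)))) :=
    equiv_of (LinearEquiv.prodProdProdComm K K K K K) fun z => by
      simp [bin_apply]
      ring
  rw [cc_congr h3, h2, smul_bin, smul_bin, cc_bin' (by simp [*]) (by simp [*]),
    cc_bin' (by simp [*]) (by simp [*]),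
    sy_of_isSquare (b := -(a * b) * -(a * b)) (by simp [*]) (by simp [*]) ⟨_, rfl⟩, mul_one,
    show -(a * c) * -(a * b) = b * c * a ^ 2 by ring, sy_sq _ _ ha,
    show -(a * c) * b = -(a * (b * c)) by ring] at h1
  exact h1.symm

lemma sy_neg_mul {a b : K} (ha : a ≠ 0) (hb : b ≠ 0) : sy (-(a * b)) b = sy a b := by
  have := sy_aux ha hb one_ne_zero
  rw [sy_one ha, one_mul, mul_one] at this
  exact this.symm

lemma sy_self {a b : K} (ha : a ≠ 0) (hb : b ≠ 0) : sy a b * sy a b = 1 := by
  have := sy_aux ha one_ne_zero hb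
  rw [sy_one ha, one_mul, sy_neg_mul ha hb] at this
  exact this.symm

lemma sy_mul {a b c : K} (ha : a ≠ 0) (hb : b ≠ 0) (hc : c ≠ 0) :
    sy a (b * c) = sy a b * sy a c := by
  rw [sy_aux ha hb hc, sy_neg_mul ha (mul_ne_zero hb hc), mul_right_comm, sy_self ha hc, one_mul]

lemma sy_mul' {a b c : K} (ha : a ≠ 0) (hb : b ≠ 0) (hc : c ≠ 0) :
    sy (a * b) c = sy a c * sy b c := by
  rw [sy_comm, sy_mul hc ha hb, sy_comm c, sy_comm c]

lemma sy_neg_self {a : K} (ha : a ≠ 0) : sy (-a) a = 1 := by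
  have := sy_neg_mul one_ne_zero ha
  rwa [one_mul, sy_comm 1, sy_one ha] at this

lemma sy_congr {a b c : K} (ha : a ≠ 0) (hb : b ≠ 0) (hc : c ≠ 0) (h : IsSquare (b * c)) :
    sy a b = sy a c := by
  rw [← mul_one (sy a b), ← sy_self ha hc, ← mul_assoc, ← sy_mul ha hb hc,
    sy_of_isSquare ha (mul_ne_zero hb hc) h, one_mul]

/-- `Q` has signed discriminant `d` and Clifford class `c`. -/
def Has (Q : QuadraticForm K M) (d : K) (c : Br K) : Prop :=
  d ≠ 0 ∧ ∀ t : K, t ≠ 0 → ∀ (N : Type) [AddCommGroup N] [Module K N] (Q' : QuadraticForm K N),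
    cc ((t • Q).prod Q') = c * sy t d * cc (d • Q')

lemma has_bin {a b : K} (ha : a ≠ 0) (hb : b ≠ 0) : Has (bin a b) (-(a * b)) (sy a b) := by
  refine ⟨by simp [*], fun t ht N _ _ Q' => ?_⟩
  rw [smul_bin, cc_bin (by simp [*]) (by simp [*]),
    show -(t * a * (t * b)) = -(a * b) * t ^ 2 by ring, cc_sq _ _ ht,
    ← sy_neg_mul (by simp [*]) (by simp [*]), show -(t * a * (t * b)) = -(a * b) * t ^ 2 by ring,
    sy_comm, sy_sq _ _ ht, sy_mul' ht hb (by simp [*]), sy_comm b, sy_neg_mul ha hb,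
    mul_comm (sy t _)]

lemma has_trivial [Subsingleton M] (Q : QuadraticForm K M) : Has Q 1 1 := by
  refine ⟨one_ne_zero, fun t ht N _ _ Q' => ?_⟩
  let := uniqueOfSubsingleton (0 : M)
  rw [sy_one ht, one_mul, one_mul, one_smul]
  exact cc_congr (equiv_of LinearEquiv.uniqueProd fun z => by simp [Subsingleton.elim z.1 0])

omit [CharZero K] in
lemma Has.congr {Q : QuadraticForm K M} {Q' : QuadraticForm K M'} {d : K} {c : Br K}
    (h : Has Q d c) (e : Q'.Equivalent Q) : Has Q' d c := by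
  refine ⟨h.1, fun t ht N _ _ R => ?_⟩
  obtain ⟨e⟩ := e
  rw [← h.2 t ht]
  exact cc_congr (equiv_of (e.toLinearEquiv.prodCongr (LinearEquiv.refl K N)) fun z => by simp)

lemma Has.prod {Q : QuadraticForm K M} {Q' : QuadraticForm K M'} {d d' : K} {c c' : Br K}
    (h : Has Q d c) (h' : Has Q' d' c') : Has (Q.prod Q') (d * d') (c * c' * sy d d') := by
  refine ⟨mul_ne_zero h.1 h'.1, fun t ht N _ _ R => ?_⟩
  have h1 : ((t • Q.prod Q').prod R).Equivalent ((t • Q).prod ((t • Q').prod R)) :=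
    equiv_of (LinearEquiv.prodAssoc K M M' N) fun z => by simp [mul_add, add_assoc]
  have h2 : d • (t • Q').prod R = ((d * t) • Q').prod (d • R) :=
    QuadraticMap.ext fun z => by simp [mul_add, mul_assoc]
  rw [cc_congr h1, h.2 t ht, h2, h'.2 _ (mul_ne_zero h.1 ht), smul_smul, mul_comm d' d,
    sy_mul' h.1 ht h'.1, sy_mul ht h.1 h'.1]
  simp only [mul_assoc, mul_left_comm]

lemma Has.cc_smul {Q : QuadraticForm K M} {d : K} {c : Br K} (h : Has Q d c) {t : K}
    (ht : t ≠ 0) : cc (t • Q) = c * sy t d := by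
  have h1 := h.2 t ht PUnit 0
  rw [cc_trivial (d • _), mul_one] at h1
  rw [← h1]
  exact cc_congr (equiv_of LinearEquiv.prodUnique.symm fun z => by simp)

lemma Has.cc_eq {Q : QuadraticForm K M} {d : K} {c : Br K} (h : Has Q d c) : cc Q = c := by
  have := h.cc_smul one_ne_zero
  rwa [one_smul, sy_comm, sy_one h.1, mul_one] at this

/-- The sum of two diagonal forms of the same dimension. -/
noncomputable def PF {n : ℕ} (a b : Fin n → K) : QuadraticForm K ((Fin n → K) × (Fin n → K)) :=
  (QuadraticMap.weightedSumSquares K a).prod (QuadraticMap.weightedSumSquares K b)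

/-- The Clifford class of `PF a b`. -/
noncomputable def pc : (n : ℕ) → (Fin n → K) → (Fin n → K) → Br K
  | 0, _, _ => 1
  | n + 1, a, b => sy (a 0) (b 0) * pc n (Fin.tail a) (Fin.tail b) *
      sy (-(a 0 * b 0)) (∏ k, -(Fin.tail a k * Fin.tail b k))

lemma has_PF (n : ℕ) (a b : Fin n → K) (ha : ∀ k, a k ≠ 0) (hb : ∀ k, b k ≠ 0) :
    Has (PF a b) (∏ k, -(a k * b k)) (pc n a b) := by
  induction n with
  | zero => simpa [pc] using has_trivial _
  | succ n ih =>
    rw [Fin.prod_univ_succ]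
    refine ((has_bin (ha 0) (hb 0)).prod (ih (Fin.tail a) (Fin.tail b) (fun k => ha _)
      fun k => hb _)).congr (equiv_of (((Fin.consLinearEquiv K fun _ => K).symm.prodCongr
        (Fin.consLinearEquiv K fun _ => K).symm).trans
          (LinearEquiv.prodProdProdComm K _ _ _ _)) fun z => ?_)
    simp [PF, bin_apply, Fin.sum_univ_succ, Fin.tail]
    ring

omit [CharZero K] in
lemma pc_eq_one (H : Subgroup Kˣ) (h1 : -1 ∈ H) (hH : ∀ x ∈ H, ∀ y ∈ H, sy (x : K) y = 1)
    (n : ℕ) (a b : Fin n → Kˣ) (ha : ∀ k, a k ∈ H) (hb : ∀ k, b k ∈ H) :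
    pc n (fun k => (a k : K)) (fun k => b k) = 1 := by
  induction n with
  | zero => rfl
  | succ n ih =>
    have h2 : ∀ k, -(a k * b k) ∈ H := fun k => by
      rw [← neg_one_mul]
      exact H.mul_mem h1 (H.mul_mem (ha k) (hb k))
    have h3 := hH _ (h2 0) _ (H.prod_mem (t := Finset.univ) fun (k : Fin n) _ => h2 k.succ)
    have h4 := ih (Fin.tail a) (Fin.tail b) (fun k => ha _) fun k => hb _
    simp only [Units.val_neg, Units.val_mul, Units.coe_prod] at h3
    rw [pc, hH _ (ha 0) _ (hb 0), one_mul]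
    exact (congrArg₂ (· * ·) h4 h3).trans (one_mul 1)

lemma pc_neg (n : ℕ) (a : Fin n → K) (ha : ∀ k, a k ≠ 0) : pc n a (fun k => -a k) = 1 := by
  induction n with
  | zero => rfl
  | succ n ih =>
    rw [pc, sy_comm, sy_neg_self (ha 0), one_mul]
    refine (congrArg₂ (· * ·) (ih (Fin.tail a) fun k => ha _) (?_ : _ = (1 : Br K))).trans
      (one_mul 1)
    rw [sy_comm]
    refine sy_of_isSquare (Finset.prod_ne_zero_iff.mpr fun k _ => ?_) (by simp [ha])
      ⟨a 0, by ring⟩
    simp [Fin.tail, ha]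

section model
variable {O : Type} [CommRing O]

/-- The family of classes `x` comes from an Azumaya algebra over `O`. -/
def Mod (O : Type) [CommRing O] (x : (K : Type) → [Field K] → [Algebra O K] → Br K) : Prop :=
  ∃ (M : Type) (_ : Ring M) (_ : Algebra O M), Module.Free O M ∧ Nontrivial M ∧ IsAzumaya O M ∧
    ∀ (K : Type) [Field K] [Algebra O K], cl K (K ⊗[O] M) = x K

lemma Mod.one [Nontrivial O] : Mod O fun _ _ _ => 1 :=
  ⟨O, _, _, inferInstance, inferInstance, inferInstance, fun K _ _ =>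
    cl_congr (Algebra.TensorProduct.rid O K K)⟩

lemma Mod.sy [Nontrivial O] (h2 : IsUnit (2 : O)) {a b : O} (ha : IsUnit a) (hb : IsUnit b) :
    Mod O fun K _ _ => sy (algebraMap O K a) (algebraMap O K b) :=
  ⟨ℍ[O,a,0,b], _, _, inferInstance, inferInstance, quat_azumaya h2 ha hb, fun _ _ _ =>
    cl_congr (quat_baseChange a b).some⟩

lemma Mod.mul [Nontrivial O] {x y : (K : Type) → [Field K] → [Algebra O K] → Br K}
    (hx : Mod O x) (hy : Mod O y) : Mod O fun K _ _ => x K * y K := by
  obtain ⟨A, _, _, _, _, hA, h1⟩ := hx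
  obtain ⟨B, _, _, _, _, hB, h2⟩ := hy
  have hn : Nontrivial (A ⊗[O] B) := by
    rw [← Module.finrank_pos_iff_of_free (R := O), Module.finrank_tensorProduct]
    exact mul_pos ((Module.finrank_pos_iff_of_free O A).mpr inferInstance)
      ((Module.finrank_pos_iff_of_free O B).mpr inferInstance)
  refine ⟨A ⊗[O] B, _, _, inferInstance, hn, ?_, fun K _ _ => ?_⟩
  · have hsurj : Function.Surjective (AlgHom.mulLeftRight O (A ⊗[O] B)) := by
      intro f
      obtain ⟨z, rfl⟩ := (homTensorHomEquiv O A B A B).surjective f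
      change _ ∈ (AlgHom.mulLeftRight O (A ⊗[O] B)).range
      induction z with
      | zero => rw [map_zero]; exact zero_mem _
      | add x y h1 h2 => rw [map_add]; exact add_mem h1 h2
      | tmul f g =>
        obtain ⟨f, rfl⟩ := hA.bij.2 f
        obtain ⟨g, rfl⟩ := hB.bij.2 g
        induction f with
        | zero => rw [map_zero, zero_tmul, map_zero]; exact zero_mem _
        | add x y h1 h2 => rw [map_add, add_tmul, map_add]; exact add_mem h1 h2
        | tmul a a' =>
          induction g with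
          | zero => rw [map_zero, tmul_zero, map_zero]; exact zero_mem _
          | add x y h1 h2 => rw [map_add, tmul_add, map_add]; exact add_mem h1 h2
          | tmul b b' =>
            refine ⟨(a ⊗ₜ b) ⊗ₜ MulOpposite.op (a'.unop ⊗ₜ b'.unop), ?_⟩
            ext x y
            simp [AlgHom.mulLeftRight_apply]
    have hfr : Module.finrank O ((A ⊗[O] B) ⊗[O] (A ⊗[O] B)ᵐᵒᵖ)
        = Module.finrank O (Module.End O (A ⊗[O] B)) := by
      rw [Module.finrank_tensorProduct (M := A ⊗[O] B), Module.finrank_linearMap,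
        ← (MulOpposite.opLinearEquiv O).finrank_eq]
    have e := LinearEquiv.ofFinrankEq _ _ hfr
    exact { bij := ⟨OrzechProperty.injective_of_surjective_of_injective e.toLinearMap
      (AlgHom.mulLeftRight O (A ⊗[O] B)).toLinearMap e.injective hsurj, hsurj⟩ }
  · change _ = x K * y K
    rw [← h1, ← h2, ← cl_tensor]
    exact cl_congr ((Algebra.TensorProduct.assoc O O K K A B).symm.trans
      (AlgEquiv.ofLinearEquiv (AlgebraTensorModule.cancelBaseChange O K K (K ⊗[O] A) B).symm
        (by simp [Algebra.TensorProduct.one_def])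
        (LinearMap.map_mul_of_map_mul_tmul fun _ _ _ _ => by simp)))

lemma Mod.pc [Nontrivial O] (h2 : IsUnit (2 : O)) (n : ℕ) (a b : Fin n → O)
    (ha : ∀ k, IsUnit (a k)) (hb : ∀ k, IsUnit (b k)) :
    Mod O fun K _ _ => pc n (fun k => algebraMap O K (a k)) fun k => algebraMap O K (b k) := by
  induction n with
  | zero => exact Mod.one
  | succ n ih =>
    have := ((Mod.sy h2 (ha 0) (hb 0)).mul (ih (Fin.tail a) (Fin.tail b) (fun k => ha _)
      fun k => hb _)).mul (Mod.sy h2 ((ha 0).mul (hb 0)).neg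
        (IsUnit.prod_univ_iff.mpr fun k : Fin n => ((ha k.succ).mul (hb k.succ)).neg))
    simp only [map_neg, map_mul, map_prod] at this
    exact this

end model

end Pool.Agent.P.MP_ab3ecb_nt
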