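import Pool.Agent.P.MP_ab3ecb_nt.Lattice
import Pool.Agent.P.MP_ab3ecb_nt.Config

/-!
From rectangles to hyperbolic regions.
-/

namespace Pool.Agent.P.MP_ab3ecb_nt

open Finset Function
open scoped Classical

set_option maxHeartbeats 400000
set_option linter.unusedSectionVars false

variable {ι : Type} [Fintype ι] [DecidableEq ι] {pr : ι → ℕ} (hp : ∀ a, (pr a).Prime)
  (hinj : Injective pr) {κ : ι → ι → ℝ} (hκ : ∀ a b, |κ a b| ≤ 1) {gs gt : ι → Prop}
  {R m K Y : ℕ} (hR : Rect pr κ gs gt R (m ^ 2) K Y) (hm : 1 ≤ m) (hmY : m ≤ Y)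
  {h : ℕ → ℝ} (h1 : ∀ r, |h r| ≤ 1) (h2 : ∀ r, R < r → h r = 0)

include hp hinj hκ hR hm hmY h1 h2

lemma hyper_box (α β : Finset ι → ℝ) (hα : ∀ s, |α s| ≤ 1) (hβ : ∀ s, |β s| ≤ 1) (T f : ℕ)
    (hf : f < K) (hs : ∀ s, α s ≠ 0 → Y ≤ ∏ a ∈ s, pr a ∧ ∀ a ∈ s, gs a)
    (ht : ∀ t, β t ≠ 0 → Y ≤ ∏ a ∈ t, pr a ∧ (∀ a ∈ t, gt a) ∧ 2 ^ f ≤ ∏ a ∈ t, pr a ∧
      ∏ a ∈ t, pr a ≤ 2 ^ (f + 1)) :
    ∑ s, ∑ t, α s * β t * ((if (∏ a ∈ s, pr a) * ∏ a ∈ t, pr a ≤ T then h (s.card + t.card)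
      else 0) * ∏ a ∈ s, ∏ b ∈ t, κ a b) ≤ 2 * (R + 3) * T / m := by
  set D : Finset ι → ℕ := fun s => ∏ a ∈ s, pr a with hD
  set k : Finset ι → Finset ι → ℝ := fun s t => ∏ a ∈ s, ∏ b ∈ t, κ a b with hk
  have hD0 : ∀ s, 0 < D s := fun s => Finset.prod_pos fun a _ => (hp a).pos
  have hk1 : ∀ s t, |k s t| ≤ 1 := fun s t => by
    simp only [hk, Finset.abs_prod]
    exact Finset.prod_le_one (fun _ _ => Finset.prod_nonneg fun _ _ => abs_nonneg _) fun a _ =>
      Finset.prod_le_one (fun _ _ => abs_nonneg _) fun b _ => hκ a b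
  have hm0 : (0 : ℝ) < m := by exact_mod_cast hm
  change ∑ s, ∑ t, α s * β t * ((if D s * D t ≤ T then h (s.card + t.card) else 0) * k s t) ≤ _
  by_cases hz : ∀ s t, α s ≠ 0 → β t ≠ 0 → ¬ D s * D t ≤ T
  · refine le_trans (le_of_eq (Finset.sum_eq_zero fun s _ => Finset.sum_eq_zero fun t _ => ?_))
      (by positivity)
    by_cases k1 : α s = 0
    · simp [k1]
    by_cases k2 : β t = 0
    · simp [k2]
    simp [hz s t k1 k2]
  simp only [not_forall, not_not] at hz
  obtain ⟨s0, t0, k1, k2, k3⟩ := hz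
  set A := T / 2 ^ f with hA
  have hN : ∀ t, β t ≠ 0 → T / D t ≤ A := fun t h =>
    Nat.div_le_div_left (ht t h).2.2.1 (by positivity)
  have hYA : Y ≤ A := (hs s0 k1).1.trans (((Nat.le_div_iff_mul_le (hD0 _)).mpr k3).trans (hN _ k2))
  have hYB : Y ≤ 2 ^ (f + 1) := (ht t0 k2).1.trans (ht t0 k2).2.2.2
  set l := A / m + 1 with hl
  have hl0 : 0 < l := Nat.succ_pos _
  have hr : ∀ t, β t ≠ 0 → T / D t / l < m := fun t h => by
    rw [Nat.div_lt_iff_lt_mul hl0]
    exact (hN t h).trans_lt (Nat.lt_mul_div_succ _ hm)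
  set α' : ℕ × ℕ → Finset ι → ℝ := fun z s =>
    if D s ≤ z.1 * l ∧ D s ≤ A ∧ s.card = z.2 then α s else 0 with hα'
  set β' : ℕ × ℕ → Finset ι → ℝ := fun z t =>
    if T / D t / l = z.1 then β t * h (z.2 + t.card) else 0 with hβ'
  have e1 : ∀ s t, α s * β t * ((if D s * D t ≤ T then h (s.card + t.card) else 0) * k s t) ≤
      ∑ z ∈ range m ×ˢ range (R + 1), α' z s * β' z t * k s t +
        if β t ≠ 0 ∧ T / D t / l * l < D s ∧ D s ≤ T / D t then 1 else 0 := by
    intro s t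
    by_cases k4 : β t = 0
    · simp [hβ', k4]
    have k5 := Nat.div_mul_le_self (T / D t) l
    rw [Finset.sum_eq_single (T / D t / l, s.card)]
    · simp only [hα', hβ', if_true, and_true, ← Nat.le_div_iff_mul_le (hD0 t)]
      by_cases k6 : D s ≤ T / D t / l * l
      · rw [if_pos (k6.trans k5), if_pos ⟨k6, (k6.trans k5).trans (hN t k4)⟩,
          if_neg fun h => absurd k6 (not_le.mpr h.2.1)]
        exact le_of_eq (by ring)
      · rw [if_neg fun h : _ ∧ _ => k6 h.1, zero_mul, zero_mul, zero_add]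
        by_cases k7 : D s ≤ T / D t
        · rw [if_pos k7, if_pos ⟨k4, not_le.mp k6, k7⟩]
          refine (le_abs_self _).trans ?_
          rw [abs_mul, abs_mul, abs_mul]
          exact mul_le_one₀ (mul_le_one₀ (hα s) (abs_nonneg _) (hβ t)) (by positivity)
            (mul_le_one₀ (h1 _) (abs_nonneg _) (hk1 s t))
        · simp [k7]
    · rintro ⟨r, ρ⟩ _ hz
      simp only [hα', hβ']
      split_ifs with k6 k7
      · exact absurd (Prod.ext k7.symm k6.2.2.symm) hz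
      all_goals simp
    · intro hz
      have : R < s.card := by
        by_contra k6
        exact hz (mem_product.mpr ⟨mem_range.mpr (hr t k4), mem_range.mpr (by omega)⟩)
      simp [hβ', h2 (s.card + t.card) (by omega)]
  have e2 : ∀ z ∈ range m ×ˢ range (R + 1), ∑ s, ∑ t, α' z s * β' z t * k s t ≤
      A * (2 ^ (f + 1) : ℕ) / (m ^ 2 : ℕ) := fun z hz => (le_abs_self _).trans
    (hR _ _ _ _ (fun s => by
      simp only [hα']
      split_ifs
      · exact hα s
      · simp) (fun t => by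
      simp only [hβ']
      split_ifs
      · rw [abs_mul]
        exact mul_le_one₀ (hβ t) (abs_nonneg _) (h1 _)
      · simp) hYA hYB (Nat.pow_le_pow_right two_pos hf) (fun s h => by
      obtain ⟨k4, k5⟩ := ite_ne_right_iff.mp h
      have := mem_range.mp (mem_product.mp hz).2
      exact ⟨k4.2.1, by omega, (hs s k5).2⟩) fun t h => by
      have := ht t (left_ne_zero_of_mul (ite_ne_right_iff.mp h).2)
      exact ⟨this.2.2.2, this.2.1⟩)
  have e3 : ∑ s, ∑ t, (if β t ≠ 0 ∧ T / D t / l * l < D s ∧ D s ≤ T / D t then (1 : ℝ) else 0) ≤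
      (2 ^ (f + 1) : ℕ) * l := by
    rw [Finset.sum_comm]
    calc _ ≤ ∑ t, if β t ≠ 0 then (l : ℝ) else 0 := by
          refine Finset.sum_le_sum fun t _ => ?_
          split_ifs with k4
          · rw [Finset.sum_boole, Nat.cast_le]
            refine (card_sets_le pr hp hinj _ fun s hs => (mem_filter.mp hs).2.2).trans ?_
            exact Nat.sub_le_iff_le_add'.mpr (Nat.lt_div_mul_add hl0).le
          · simp [not_not.mp k4]
      _ ≤ _ := by
          rw [← Finset.sum_filter, Finset.sum_const, nsmul_eq_mul]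
          gcongr
          exact card_sets_le pr hp hinj _ (lo := 0) fun t h =>
            ⟨hD0 t, (ht t (mem_filter.mp h).2).2.2.2⟩
  have e4 : (l : ℝ) ≤ 2 * A / m := by
    have k4 : l * m ≤ 2 * A := by
      have := Nat.div_mul_le_self A m
      rw [hl, add_mul]
      omega
    rw [le_div_iff₀ hm0]
    exact_mod_cast k4
  have e5 : (A : ℝ) * (2 ^ (f + 1) : ℕ) ≤ 2 * T := by
    have k4 : A * 2 ^ (f + 1) ≤ 2 * T := by
      rw [pow_succ, ← mul_assoc, mul_comm]
      exact Nat.mul_le_mul_left _ (Nat.div_mul_le_self T (2 ^ f))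
    exact_mod_cast k4
  generalize ((2 ^ (f + 1) : ℕ) : ℝ) = B at *
  refine (Finset.sum_le_sum fun s _ => Finset.sum_le_sum fun t _ => e1 s t).trans ?_
  simp only [Finset.sum_add_distrib]
  rw [Finset.sum_congr rfl fun s _ => Finset.sum_comm, Finset.sum_comm]
  have hB : 0 ≤ B := by
    have := le_trans (Finset.sum_nonneg fun _ _ => Finset.sum_nonneg fun _ _ => by positivity) e3
    exact nonneg_of_mul_nonneg_left this (by exact_mod_cast hl0)
  calc _ ≤ (m * (R + 1) : ℕ) * (A * B / (m ^ 2 : ℕ)) + B * (2 * A / m) := by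
        refine add_le_add ((Finset.sum_le_card_nsmul _ _ _ e2).trans (le_of_eq ?_))
          (e3.trans (by gcongr))
        rw [card_product, card_range, card_range, nsmul_eq_mul]
    _ = (R + 3) * (A * B) / m := by
        push_cast
        field_simp
        ring
    _ ≤ (R + 3) * (2 * T) / m := by gcongr
    _ = _ := by ring

lemma hyper (α β : Finset ι → ℝ) (hα : ∀ s, |α s| ≤ 1) (hβ : ∀ s, |β s| ≤ 1) (T : ℕ)
    (hT : T < 2 ^ K) (hs : ∀ s t, α s * β t ≠ 0 → (Y ≤ ∏ a ∈ s, pr a ∧ ∀ a ∈ s, gs a) ∧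
      Y ≤ ∏ a ∈ t, pr a ∧ ∀ a ∈ t, gt a) :
    ∑ s, ∑ t, α s * β t * ((if (∏ a ∈ s, pr a) * ∏ a ∈ t, pr a ≤ T then h (s.card + t.card)
      else 0) * ∏ a ∈ s, ∏ b ∈ t, κ a b) ≤ K * (2 * (R + 3) * T / m) := by
  by_cases hz : ∀ s t, α s * β t = 0
  · simp only [hz, zero_mul, Finset.sum_const_zero]
    positivity
  simp only [not_forall] at hz
  obtain ⟨s0, t0, h0⟩ := hz
  have hD0 : ∀ s : Finset ι, 0 < ∏ a ∈ s, pr a := fun s => Finset.prod_pos fun a _ => (hp a).pos
  refine le_trans (le_of_eq ?_) ((Finset.sum_le_card_nsmul (range K) _ _ fun f hf =>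
    hyper_box hp hinj hκ hR hm hmY h1 h2 α (fun t => if Nat.log 2 (∏ a ∈ t, pr a) = f then β t
      else 0) hα (fun t => by split_ifs; exacts [hβ t, by simp]) T f (mem_range.mp hf)
      (fun s h => (hs s t0 (mul_ne_zero h (right_ne_zero_of_mul h0))).1) fun t h => ?_).trans
    (by rw [card_range, nsmul_eq_mul]))
  · rw [Finset.sum_comm (s := range K)]
    refine Finset.sum_congr rfl fun s _ => ?_
    rw [Finset.sum_comm (s := range K)]
    refine Finset.sum_congr rfl fun t _ => ?_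
    rw [← Finset.sum_mul, ← Finset.mul_sum, Finset.sum_ite_eq]
    split_ifs with k1 k2 k2
    · rfl
    · exact absurd (mem_range.mpr (Nat.log_lt_of_lt_pow (hD0 t).ne'
        (((Nat.le_mul_of_pos_left _ (hD0 s)).trans k1).trans_lt hT))) k2
    · rfl
    · simp
  · obtain ⟨rfl, k1⟩ := ite_ne_right_iff.mp h
    have := (hs s0 t (mul_ne_zero (left_ne_zero_of_mul h0) k1)).2
    exact ⟨this.1, this.2, Nat.pow_log_le_self 2 (hD0 t).ne',
      (Nat.lt_pow_succ_log_self one_lt_two _).le⟩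

end Pool.Agent.P.MP_ab3ecb_nt
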