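import Pool.Agent.P.MP_ab3ecb_nt.Small

/-!
Idempotents, and the values of transfer classes that ramify along an idempotent.
-/

namespace Pool.Agent.P.MP_ab3ecb_nt

open TensorProduct Module Polynomial
open scoped Classical

set_option maxHeartbeats 400000
set_option linter.unusedSectionVars false

section ring
variable {B : Type} [CommRing B] {e e' g h x y : B}

/-- `e` is the idempotent that carries `h`. -/
def IsE (e h : B) : Prop := e * e = e ∧ e * h = h ∧ IsUnit (h + (1 - e))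

lemma IsE.unique (h1 : IsE e h) (h2 : IsE e' h) : e = e' := by
  have key : ∀ {e e' : B}, IsE e h → IsE e' h → e = e * e' := fun {e e'} h1 h2 => by
    refine h1.2.2.mul_right_cancel ?_
    linear_combination (e' - 1) * h1.1 + (1 - e') * h1.2.1 - h2.2.1
  rw [key h1 h2, mul_comm, ← key h2 h1]

lemma IsE.map {C : Type} [CommRing C] (Φ : B →+* C) (h1 : IsE e h) : IsE (Φ e) (Φ h) :=
  ⟨by rw [← map_mul, h1.1], by rw [← map_mul, h1.2.1], by simpa using h1.2.2.map Φ⟩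

lemma unit_idem (he : e * e = e) (hx : IsUnit x) (hy : IsUnit y) :
    IsUnit (e * x + (1 - e) * y) := by
  obtain ⟨a, ha⟩ := hx.exists_right_inv
  obtain ⟨b, hb⟩ := hy.exists_right_inv
  exact IsUnit.of_mul_eq_one (e * a + (1 - e) * b) (by
    linear_combination (x * a - x * b - y * a + y * b) * he + e * ha + (1 - e) * hb)

lemma isE_of_bez {u v c : B} (h0 : g * h = 0) (hb : u * g + v * h = c) (hc : IsUnit c) :
    ∃ e, IsE e h ∧ IsE (1 - e) g ∧ v * h = c * e := by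
  obtain ⟨d, hd⟩ := hc.exists_right_inv
  have h1 : 1 - v * h * d = u * g * d := by linear_combination -hd - d * hb
  have h2 : v * h * d * (v * h * d) = v * h * d := by
    linear_combination (-(v * h * d)) * h1 - u * v * d ^ 2 * h0
  refine ⟨v * h * d, ⟨h2, by linear_combination (-h) * h1 - u * d * h0,
    IsUnit.of_mul_eq_one (v * h * d * (v * d) + (1 - v * h * d)) ?_⟩,
    ⟨by linear_combination h2, by linear_combination (-(v * d)) * h0,
    IsUnit.of_mul_eq_one (u * g * d * (u * d) + v * h * d) ?_⟩, by linear_combination -v * h * hd⟩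
  · linear_combination (2 - v * d) * h2 + h * h1 + u * d * h0
  · linear_combination h2 + (v * d + u ^ 2 * v * d ^ 3) * h0 -
      (1 - v * h * d + u * g * d) * h1 + h2

/-- The idempotent that carries `h`. -/
noncomputable def ide (h : B) : B := if hh : ∃ e, IsE e h then hh.choose else 0

lemma IsE.ide_eq (h1 : IsE e h) : ide h = e := by
  have h2 : ∃ e, IsE e h := ⟨e, h1⟩
  rw [ide, dif_pos h2]
  exact h2.choose_spec.unique h1

lemma ide_idem (h : B) : ide h * ide h = ide h := by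
  unfold ide
  split_ifs with h1
  · exact h1.choose_spec.1
  · simp

end ring

lemma cf_idem {K B : Type} [Field K] [CharZero K] [CommRing B] [Algebra K B] [Module.Finite K B]
    [Module.Free K B] {s : B →ₗ[K] K} (hs : Perf (bf s 1)) {e γ γ' α α' : B} (he : e * e = e)
    (hγ : IsUnit γ) (hγ' : IsUnit γ') (hα : IsUnit α) (hα' : IsUnit α') (h1 : (1 - e) * α = 1 - e)
    (h2 : e * α' = e) : cf s (e * γ + (1 - e) * γ') (α * α') =
      cf s γ α * cf s γ' α' * sy (Algebra.norm K α) (Algebra.norm K α') := by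
  have key : ∀ {γ α : B}, IsUnit γ → IsUnit α → ∃ d, Has (phi s γ α) d (cf s γ α) ∧
      IsSquare (d * Algebra.norm K α) := fun {γ α} hγ hα => by
    have h2 : IsUnit (2 : K) := IsUnit.mk0 _ two_ne_zero
    obtain ⟨v, hv⟩ := diag h2 _ B _ (bf_symm s γ) (hs.unit hγ) rfl
    obtain ⟨w, hw⟩ := diag h2 _ B _ (bf_symm s _) (hs.unit (hγ.mul hα)) rfl
    obtain ⟨h3, h4⟩ := has_phi s γ α rfl hv hw
    exact ⟨_, by rw [cf, h3.cc_eq]; exact h3, h4⟩
  obtain ⟨d1, k1, k2⟩ := key hγ hα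
  obtain ⟨d2, k3, k4⟩ := key hγ' hα'
  obtain ⟨d3, k5, -⟩ := key (unit_idem he hγ hγ') (hα.mul hα')
  obtain ⟨d4, k7, k8⟩ := key (unit_idem he hγ' hγ) isUnit_one
  have n1 := (hα.map (Algebra.norm K)).ne_zero
  have n2 := (hα'.map (Algebra.norm K)).ne_zero
  rw [map_one, mul_one] at k8
  have e1 := (k5.prod k7).cc_eq
  rw [cf_of_isSquare hs (unit_idem he hγ' hγ) isUnit_one IsSquare.one, mul_one,
    sy_of_isSquare k5.1 k7.1 k8, mul_one] at e1
  rw [← e1, ← sy_congr n1 k3.1 n2 k4, sy_comm, ← sy_congr k3.1 k1.1 n1 k2, sy_comm,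
    ← (k1.prod k3).cc_eq]
  let f : (B × B) × (B × B) →ₗ[B] (B × B) × (B × B) :=
    LinearMap.prod (e • LinearMap.fst B _ _ + (1 - e) • LinearMap.snd B _ _)
      (e • LinearMap.snd B _ _ + (1 - e) • LinearMap.fst B _ _)
  have hf : ∀ z, f (f z) = z := fun z => by
    refine Prod.ext (Prod.ext ?_ ?_) (Prod.ext ?_ ?_) <;> simp [f]
    · linear_combination (2 * z.1.1 - 2 * z.2.1) * he
    · linear_combination (2 * z.1.2 - 2 * z.2.2) * he
    · linear_combination (2 * z.2.1 - 2 * z.1.1) * he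
    · linear_combination (2 * z.2.2 - 2 * z.1.2) * he
  refine cc_congr (equiv_of (LinearEquiv.ofInvolutive (f.restrictScalars K) hf) fun z => ?_)
  simp only [QuadraticMap.prod_apply, phi_apply, ← map_sub, ← map_add]
  congr 1
  simp [f]
  linear_combination ((γ + γ') * (z.1.1 - z.2.1) ^ 2 - (γ * α + γ' * α') * (z.1.2 - z.2.2) ^ 2) * he
    + (γ * α * z.1.2 ^ 2 - γ' * z.2.2 ^ 2) * h2 + (γ' * α' * z.1.2 ^ 2 - γ * z.2.2 ^ 2) * h1

variable {A : Type} [CommRing A] [Module.Free ℤ A] [Module.Finite ℤ A]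

lemma norm_tm {R K : Type} [CommRing R] [CommRing K] (φ : R →+* K) (z : R ⊗[ℤ] A) :
    Algebra.norm K (tm A φ z) = φ (Algebra.norm R z) := by
  let b := Module.Free.chooseBasis ℤ A
  have h1 : ∀ w i, (b.baseChange K).repr (tm A φ w) i = φ ((b.baseChange R).repr w i) := by
    intro w i
    induction w with
    | zero => simp
    | add x y h1 h2 => simp only [map_add, Finsupp.add_apply, h1, h2]
    | tmul r a => simp [tm_tmul]
  rw [Algebra.norm_eq_matrix_det (b.baseChange K), Algebra.norm_eq_matrix_det (b.baseChange R),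
    RingHom.map_det]
  congr 1
  ext i j
  rw [RingHom.mapMatrix_apply, Matrix.map_apply, Algebra.leftMulMatrix_eq_repr_mul,
    Algebra.leftMulMatrix_eq_repr_mul, ← h1, map_mul (tm A φ), Basis.baseChange_apply,
    Basis.baseChange_apply, tm_tmul, map_one]

/-- The corestriction of the symbol `(γ, α)`. -/
noncomputable def cp {K : Type} [Field K] (γ α : K ⊗[ℤ] A) : Br K :=
  cf (Algebra.trace K _) 1 α * cf (Algebra.trace K _) γ α

variable {p : ℕ} [Fact p.Prime] {r : ℤ} {e γ α : ℤ_[p] ⊗[ℤ] A}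

lemma cp_units (hp2 : p ≠ 2) (hd : Dual A r) (hr : IsUnit (r : ℤ_[p])) (hγ : IsUnit γ)
    (hα : IsUnit α) :
    cp (tm A (algebraMap ℤ_[p] ℚ_[p]) γ) (tm A (algebraMap ℤ_[p] ℚ_[p]) α) = 1 := by
  rw [cp, ← map_one (tm A (algebraMap ℤ_[p] ℚ_[p])),
    cf_unit (two_unit hp2) (hd.perf hr) bc_tm (sy_units hp2) isUnit_one hα,
    cf_unit (two_unit hp2) (hd.perf hr) bc_tm (sy_units hp2) hγ hα, mul_one]

lemma cp_split (hp2 : p ≠ 2) (hd : Dual A r) (hr : IsUnit (r : ℤ_[p])) (he : e * e = e)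
    (hγ : IsUnit γ) (h1 : IsUnit (e * α + (1 - e)))
    (h2 : IsUnit (tm A (algebraMap ℤ_[p] ℚ_[p]) (e + (1 - e) * α))) :
    cp (tm A (algebraMap ℤ_[p] ℚ_[p]) ((p * e + (1 - e)) * γ)) (tm A (algebraMap ℤ_[p] ℚ_[p]) α) =
      sy (p : ℚ_[p]) (algebraMap ℤ_[p] ℚ_[p] (Algebra.norm ℤ_[p] (e * α + (1 - e)))) *
      cp (tm A (algebraMap ℤ_[p] ℚ_[p]) γ) (tm A (algebraMap ℤ_[p] ℚ_[p]) (e + (1 - e) * α)) := by
  have hs := hd.perf (R := ℚ_[p]) (by simpa using hr.map (algebraMap ℤ_[p] ℚ_[p]))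
  have h0 := cp_units hp2 hd hr hγ h1
  set Φ := tm A (algebraMap ℤ_[p] ℚ_[p]) with hΦ
  have he' : Φ e * Φ e = Φ e := by rw [← map_mul, he]
  have k1 : (1 - Φ e) * Φ (e * α + (1 - e)) = 1 - Φ e := by
    simp only [map_add, map_mul, map_sub, map_one]
    linear_combination (1 - Φ α) * he'
  have k2 : Φ e * Φ (e + (1 - e) * α) = Φ e := by
    simp only [map_add, map_mul, map_sub, map_one]
    linear_combination (1 - Φ α) * he'
  have k3 : Φ α = Φ (e * α + (1 - e)) * Φ (e + (1 - e) * α) := by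
    rw [← map_mul]
    congr 1
    linear_combination (1 - α) ^ 2 * he
  have k4 := cf_idem hs he' isUnit_one isUnit_one (h1.map Φ) h2 k1 k2
  have k5 := cf_idem hs he' (((IsUnit.mk0 _ p_ne).map (algebraMap ℚ_[p] _)).mul (hγ.map Φ))
    (hγ.map Φ) (h1.map Φ) h2 k1 k2
  rw [← k3] at k4 k5
  rw [mul_one, mul_one, add_sub_cancel] at k4
  rw [cf_smul hs (hγ.map Φ) (h1.map Φ) p_ne, map_natCast] at k5
  have k6 := sy_self ((h1.map Φ).map (Algebra.norm ℚ_[p])).ne_zero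
    (h2.map (Algebra.norm ℚ_[p])).ne_zero
  rw [cp] at h0
  rw [cp, cp, k4, show Φ ((p * e + (1 - e)) * γ) = Φ e * (p * Φ γ) + (1 - Φ e) * Φ γ by
    simp only [map_add, map_mul, map_sub, map_one, map_natCast]; ring, k5, ← norm_tm,
    mul_mul_mul_comm, k6, mul_one, mul_mul_mul_comm, ← mul_assoc (cf _ 1 _), h0, one_mul]

lemma toZMod_norm (z : ℤ_[p] ⊗[ℤ] A) : PadicInt.toZMod (Algebra.norm ℤ_[p] z) =
    Algebra.norm (ZMod p) (tm A PadicInt.toZMod z) := (norm_tm _ z).symm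

lemma cp_idem (hp2 : p ≠ 2) (hd : Dual A r) (hr : IsUnit (r : ℤ_[p])) (he : e * e = e)
    (hγ : IsUnit γ) (hα : IsUnit α) :
    Sg p (cp (tm A (algebraMap ℤ_[p] ℚ_[p]) ((p * e + (1 - e)) * γ))
      (tm A (algebraMap ℤ_[p] ℚ_[p]) α))
      (PadicInt.toZMod (Algebra.norm ℤ_[p] (e * α + (1 - e)))) := by
  have h1 := unit_idem he hα isUnit_one
  have h2 := unit_idem he isUnit_one hα
  rw [mul_one] at h1 h2
  rw [cp_split hp2 hd hr he hγ h1 (h2.map _), cp_units hp2 hd hr hγ h2, mul_one]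
  exact ⟨_, h1.map _, rfl, rfl⟩

lemma cp_ram (hp2 : p ≠ 2) (hd : Dual A r) (hr : IsUnit (r : ℤ_[p])) (he : e * e = e)
    (hγ : IsUnit γ) {l : ℤ_[p] ⊗[ℤ] A →ₐ[ℤ_[p]] ℤ_[p]} {ε : ℤ_[p] ⊗[ℤ] A}
    (hε : ∀ z, z * ε = l z • ε) (hl : l ε = 1) (hle : l e = 0)
    (hα : IsUnit (ε + (1 - ε) * α)) {s : ℤ_[p]} (hs : IsUnit s) (hα0 : l α = p * s) :
    Sg p (cp (tm A (algebraMap ℤ_[p] ℚ_[p]) ((p * e + (1 - e)) * γ))
      (tm A (algebraMap ℤ_[p] ℚ_[p]) α))
      (PadicInt.toZMod (Algebra.norm ℤ_[p] (e * α + (1 - e))) * PadicInt.toZMod (l γ)) := by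
  have h0 := hε e
  rw [hle, zero_smul] at h0
  have h3 := hε ε
  rw [hl, one_smul] at h3
  have h1 := unit_idem he hα isUnit_one
  have h2 := unit_idem he isUnit_one hα
  rw [show e * (ε + (1 - ε) * α) + (1 - e) * 1 = e * α + (1 - e) by
    linear_combination (1 - α) * h0] at h1
  rw [show e * 1 + (1 - e) * (ε + (1 - ε) * α) = ε + (1 - ε) * (e + (1 - e) * α) by
    ring_nf] at h2
  have h4 : l (e + (1 - e) * α) = p * s := by simp [hle, hα0]
  have h5 : algebraMap ℤ_[p] ℚ_[p] (l (e + (1 - e) * α)) ≠ 0 := by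
    rw [h4, map_mul, map_natCast]
    exact mul_ne_zero p_ne (un hs)
  have h6 : Algebra.norm ℚ_[p] (tm A (algebraMap ℤ_[p] ℚ_[p]) (e + (1 - e) * α)) ≠ 0 := by
    rw [norm_tm, norm_idem hε hl, map_mul]
    exact mul_ne_zero h5 (un (h2.map _))
  have h7 := unit_idem h3 isUnit_one hγ
  rw [mul_one] at h7
  have k2 := cf_split (two_unit hp2) (hd.perf hr) bc_tm (sy_units hp2) l hε hl (γ := 1)
    (by simp) h2 (by simp) h5 h6
  have k3 := cf_split (two_unit hp2) (hd.perf hr) bc_tm (sy_units hp2) l hε hl h7 h2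
    (un (hγ.map l)) h5 h6
  have k4 : IsUnit (Algebra.trace ℤ_[p] _ ε) := by
    obtain ⟨z, hz⟩ := hd.perf hr l.toLinearMap
    have := LinearMap.congr_fun hz ε
    rw [bf_apply, one_mul, hε, map_smul, AlgHom.toLinearMap_apply, hl] at this
    exact IsUnit.of_mul_eq_one_right _ this
  rw [map_one] at k2
  rw [cp_split hp2 hd hr he hγ h1 (isUnit_of_norm (IsUnit.mk0 (Algebra.norm ℚ_[p] _) h6)), cp, k2,
    k3, map_one, map_one, sy_comm 1, sy_one h5, one_mul, mul_left_comm (_ * _), mul_mul_mul_comm,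
    sy_self (un k4) h5, sy_self h5 (mul_ne_zero h5 h6), mul_one, mul_one, h4,
    sy_comm (algebraMap ℤ_[p] ℚ_[p] (l γ))]
  exact Sg.mul ⟨_, h1.map _, rfl, rfl⟩ (sg_unit hp2 hs (hγ.map l))

end Pool.Agent.P.MP_ab3ecb_nt
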