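import Pool.Agent.P.MP_ab3ecb_nt.Cond

/-!
Small generators, and the characters attached to primes.
-/

namespace Pool.Agent.P.MP_ab3ecb_nt

open TensorProduct Module Polynomial Finset
open scoped NumberTheorySymbols Classical

set_option maxHeartbeats 400000
set_option linter.unusedSectionVars false

variable {A : Type} [CommRing A] {n : ℕ} (b : Basis (Fin n) ℤ A)

/-- The largest coordinate. -/
noncomputable def sz (z : A) : ℕ := univ.sup fun k => (b.repr z k).natAbs

lemma le_sz (z : A) (k : Fin n) : (b.repr z k).natAbs ≤ sz b z :=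
  Finset.le_sup (f := fun k => (b.repr z k).natAbs) (mem_univ k)

lemma sz_mul : ∃ C : ℕ, 1 ≤ C ∧ ∀ x y, sz b (x * y) ≤ C * (sz b x * sz b y) := by
  refine ⟨1 + ∑ i, ∑ j, sz b (b i * b j), by omega, fun x y => Finset.sup_le fun k _ => ?_⟩
  have h1 : b.repr (x * y) k = ∑ i, ∑ j, b.repr x i * b.repr y j * b.repr (b i * b j) k := by
    conv_lhs => rw [← b.sum_repr x, ← b.sum_repr y, Finset.sum_mul_sum]
    simp only [smul_mul_smul_comm, map_sum, map_smul, Finsupp.coe_finsetSum, Finset.sum_apply,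
      Finsupp.smul_apply, smul_eq_mul]
  rw [h1, add_mul, Finset.sum_mul]
  refine ((Int.natAbs_sum_le _ _).trans (Finset.sum_le_sum fun i _ => ?_)).trans
    (Nat.le_add_left _ _)
  rw [Finset.sum_mul]
  refine (Int.natAbs_sum_le _ _).trans (Finset.sum_le_sum fun j _ => ?_)
  rw [Int.natAbs_mul, Int.natAbs_mul, mul_comm]
  exact Nat.mul_le_mul (le_sz b _ k) (Nat.mul_le_mul (le_sz b x i) (le_sz b y j))

lemma norm_le_sz : ∃ C : ℕ, ∀ z, (Algebra.norm ℤ z).natAbs ≤ C * sz b z ^ n := by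
  obtain ⟨C, -, hC⟩ := sz_mul b
  refine ⟨n.factorial * (C * ∑ j, sz b (b j)) ^ n, fun z => ?_⟩
  have := Matrix.det_le (A := Algebra.leftMulMatrix b z) (abv := AbsoluteValue.abs)
    (x := (C * (∑ j, sz b (b j)) * sz b z : ℕ)) fun i j => by
      rw [Algebra.leftMulMatrix_eq_repr_mul, AbsoluteValue.abs_apply, ← Int.natCast_natAbs,
        Int.ofNat_le, mul_right_comm, mul_assoc]
      exact (le_sz b _ i).trans ((hC _ _).trans (Nat.mul_le_mul_left _ (Nat.mul_le_mul_left _
        (Finset.single_le_sum (f := fun j => sz b (b j)) (fun _ _ => Nat.zero_le _) (mem_univ j)))))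
  rw [AbsoluteValue.abs_apply, ← Int.natCast_natAbs, ← Algebra.norm_eq_matrix_det,
    Fintype.card_fin, nsmul_eq_mul] at this
  rw [mul_assoc, ← mul_pow]
  exact_mod_cast this

lemma dvd_iff_repr (q : ℕ) (z : A) : (q : A) ∣ z ↔ ∀ k, (q : ℤ) ∣ b.repr z k := by
  constructor
  · rintro ⟨w, rfl⟩ k
    rw [← nsmul_eq_mul, map_nsmul, Finsupp.smul_apply, nsmul_eq_mul]
    exact dvd_mul_right _ _
  · intro h
    choose c hc using h
    refine ⟨b.equivFun.symm c, b.equivFun.injective (funext fun k => ?_)⟩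
    rw [← nsmul_eq_mul, map_nsmul, LinearEquiv.apply_symm_apply, Pi.smul_apply, nsmul_eq_mul,
      ← hc, Basis.equivFun_apply]

/-- A nonprincipal real character modulo `q`. -/
structure Ch (q : ℕ) (χ : A → ℝ) : Prop where
  mul : ∀ x y, χ (x * y) = χ x * χ y
  one : χ 1 = 1
  bd : ∀ x, |χ x| ≤ 1
  per : ∀ x y, χ (x + q * y) = χ x
  np : ∃ γ γ', (q : A) ∣ γ * γ' - 1 ∧ χ γ = -1

lemma exists_nonsq {k B : Type} [Field k] [Finite k] [CommRing B] [Algebra k B] [Module.Finite k B]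
    [IsReduced B] (h2 : ringChar k ≠ 2) (m : MaximalSpectrum B) :
    ∃ z : B, IsUnit z ∧ ¬ IsSquare (Algebra.norm k z) ∧
      ∀ m' : MaximalSpectrum B, m' ≠ m → z - 1 ∈ m'.asIdeal := by
  have := IsArtinianRing.of_finite k B
  have := m.isMaximal
  let := Ideal.Quotient.field m.asIdeal
  have : Finite (B ⧸ m.asIdeal) := Module.finite_of_finite k
  obtain ⟨c, hc⟩ := FiniteField.exists_nonsquare h2
  obtain ⟨g, hg⟩ := FiniteField.norm_surjective k (B ⧸ m.asIdeal) c
  set e := IsArtinianRing.equivPi B with he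
  set z := e.symm (Function.update 1 m g) with hz
  have h1 : ∀ m', Ideal.Quotient.mk m'.asIdeal z = Function.update (1 : ∀ m' : MaximalSpectrum B,
      B ⧸ m'.asIdeal) m g m' := fun m' => congrFun (e.apply_symm_apply _) m'
  have h3 : ∀ m' : MaximalSpectrum B, m' ≠ m → z - 1 ∈ m'.asIdeal := fun m' h => by
    rw [← Ideal.Quotient.eq, h1, Function.update_of_ne h]
    rfl
  have h4 : Algebra.norm k z = c := by
    have h5 : ∀ w ∈ m.asIdeal, z * w = w := fun w hw => e.injective (funext fun m' => by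
      change Ideal.Quotient.mk _ (z * w) = Ideal.Quotient.mk _ w
      rw [Ideal.Quotient.eq, ← sub_one_mul]
      by_cases h : m' = m
      · exact h ▸ Ideal.mul_mem_left _ _ hw
      · exact Ideal.mul_mem_right _ _ (h3 m' h))
    have h6 : m.asIdeal.restrictScalars k ≤
        (m.asIdeal.restrictScalars k).comap (Algebra.lmul k B z) := fun w hw =>
      Ideal.mul_mem_left _ _ hw
    have h7 : (Algebra.lmul k B z).restrict h6 = LinearMap.id :=
      LinearMap.ext fun w => Subtype.ext (h5 w w.2)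
    rw [Algebra.norm_apply]
    change LinearMap.det (Algebra.lmul k B z) = _
    rw [LinearMap.det_eq_det_mul_det _ _ h6, h7, LinearMap.det_id, one_mul, ← hg,
      Algebra.norm_apply, ← LinearMap.det_conj _
        (Submodule.Quotient.restrictScalarsEquiv k m.asIdeal)]
    congr 1
    refine LinearMap.ext fun w => ?_
    obtain ⟨w, rfl⟩ := Ideal.Quotient.mk_surjective w
    change Ideal.Quotient.mk _ (z * w) = g * Ideal.Quotient.mk _ w
    rw [map_mul, h1, Function.update_self]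
  refine ⟨z, isUnit_of_norm (R := k) (IsUnit.mk0 _ ?_), h4 ▸ hc, h3⟩
  rw [h4]
  rintro rfl
  exact hc IsSquare.zero

variable [Module.Free ℤ A] [Module.Finite ℤ A] [Nontrivial A]

/-- The extension of a reduction map to the base change. -/
noncomputable def ext1 {q : ℕ} (lb : A →+* ZMod q) : ZMod q ⊗[ℤ] A →ₐ[ZMod q] ZMod q :=
  Algebra.TensorProduct.lift (AlgHom.id _ _) lb.toIntAlgHom fun _ _ => Commute.all _ _

lemma ext1_inc {q : ℕ} (lb : A →+* ZMod q) (z : A) : ext1 lb (inc A _ z) = lb z := by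
  simp [ext1, inc]

lemma ne_zero_of_norm {q : ℕ} [Fact q.Prime] (lb : A →+* ZMod q) {z : A}
    (h : ¬ (q : ℤ) ∣ Algebra.norm ℤ z) : lb z ≠ 0 :=
  ext1_inc lb z ▸ ((isUnit_inc (IsUnit.mk0 _
    (mt (ZMod.intCast_zmod_eq_zero_iff_dvd _ q).mp h))).map (ext1 lb)).ne_zero

lemma exists_small [NoZeroDivisors A] : ∃ C : ℕ, C ≠ 0 ∧ ∀ M : ℕ, C ∣ M → ∀ p : ℕ, p.Prime →
    ∀ lb : A →+* ZMod p, ∃ π, Small b M p π ∧ lb π = 0 := by
  obtain ⟨C, hC⟩ := norm_le_sz b
  refine ⟨C.factorial, C.factorial_ne_zero, fun M hM p hp lb => ?_⟩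
  have : Fact p.Prime := ⟨hp⟩
  have := NoZeroDivisors.to_isDomain A
  have hn : n ≠ 0 := by
    rintro rfl
    exact not_subsingleton A b.repr.injective.subsingleton
  obtain ⟨c, h1, c', h2, h3, h4⟩ := Finset.exists_ne_map_eq_of_card_lt_of_maps_to
    (s := Fintype.piFinset fun _ : Fin n => Icc (0 : ℤ) (Nat.nthRoot n p)) (t := univ)
    (f := fun c => lb (b.equivFun.symm c)) (by simpa using Nat.lt_pow_nthRoot_add_one hn p)
    fun _ _ => mem_coe.mpr (mem_univ _)
  have h5 : lb (b.equivFun.symm (c - c')) = 0 := by rw [map_sub, map_sub, h4, sub_self]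
  have h6 : ∀ k, (b.repr (b.equivFun.symm (c - c')) k).natAbs ≤ Nat.nthRoot n p := fun k => by
    have k1 := mem_Icc.mp (Fintype.mem_piFinset.mp h1 k)
    have k2 := mem_Icc.mp (Fintype.mem_piFinset.mp h2 k)
    rw [← Basis.equivFun_apply, LinearEquiv.apply_symm_apply, Pi.sub_apply]
    omega
  have h7 : b.equivFun.symm (c - c') ≠ 0 := by
    rwa [Ne, LinearEquiv.map_eq_zero_iff, sub_eq_zero]
  generalize b.equivFun.symm (c - c') = π at *
  obtain ⟨m, hm⟩ : (p : ℤ) ∣ Algebra.norm ℤ π := by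
    by_contra h
    exact ne_zero_of_norm lb h h5
  refine ⟨π, ⟨fun k => (Nat.le_nthRoot_iff hn).mp (h6 k), m, ?_, hm⟩, h5⟩
  have h8 := (hC π).trans (Nat.mul_le_mul_left C ((Nat.le_nthRoot_iff hn).mp
    (Finset.sup_le fun k _ => h6 k)))
  rw [hm, Int.natAbs_mul, Int.natAbs_natCast, mul_comm C, Nat.mul_le_mul_left_iff hp.pos] at h8
  rw [← Int.natAbs_dvd, Int.natCast_dvd_natCast]
  refine (Nat.dvd_factorial (Int.natAbs_pos.mpr ?_) h8).trans hM
  rintro rfl
  exact Algebra.norm_ne_zero_iff.mpr h7 (hm.trans (mul_zero _))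

include b in
lemma ch_Xc {g : ℤ[X]} {θ : A} (hs : Stem g θ) (hn : 2 ≤ n) {r : ℤ} (hd : Dual A r) {q t : ℕ}
    (hq : q.Prime) (h2 : q ≠ 2) (hr : ¬ (q : ℤ) ∣ r) {same : Prop}
    (ht : same → aeval (t : ZMod q) g = 0) : Ch q fun z => (Xc θ q same t z : ℝ) := by
  have : Fact q.Prime := ⟨hq⟩
  have hp := hd.perf (R := ZMod q)
    (IsUnit.mk0 _ (mt (ZMod.intCast_zmod_eq_zero_iff_dvd _ q).mp hr))
  have hred : IsReduced (ZMod q ⊗[ℤ] A) := ⟨fun z hz => hp.inj fun w =>
    (LinearMap.isNilpotent_trace_of_isNilpotent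
      (((Commute.all _ _).isNilpotent_mul_right hz).map (Algebra.lmul (ZMod q) _))).eq_zero⟩
  have hrk : finrank (ZMod q) (ZMod q ⊗[ℤ] A) = n := by
    rw [finrank_eq_card_basis (b.baseChange _), Fintype.card_fin]
  have hsurj : Function.Surjective (inc A (ZMod q)) := fun z => by
    choose c hc using fun k => ZMod.intCast_surjective ((b.baseChange _).equivFun z k)
    refine ⟨b.equivFun.symm c, (b.baseChange _).equivFun.injective (funext fun k => ?_)⟩
    rw [equivFun_inc, ← hc, ← Basis.equivFun_apply, LinearEquiv.apply_symm_apply]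
  obtain ⟨ψ, h1, z, h3, h4⟩ : ∃ ψ : ZMod q ⊗[ℤ] A →* ZMod q,
      (∀ z, Xc θ q same t z = quadraticChar _ (ψ (inc A _ z))) ∧
        ∃ z, IsUnit z ∧ ¬ IsSquare (ψ z) := by
    have h0 : ringChar (ZMod q) ≠ 2 := by rwa [ZMod.ringChar_zmod_n]
    by_cases h : same
    · obtain ⟨lb, hlb⟩ := hs.lift _ _ (ht h)
      let m0 : MaximalSpectrum (ZMod q ⊗[ℤ] A) := ⟨RingHom.ker (ext1 lb),
        RingHom.ker_isMaximal_of_surjective _ fun c => ⟨algebraMap _ _ c, AlgHom.commutes _ _⟩⟩
      obtain ⟨m, hm⟩ : ∃ m, m0 ≠ m := by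
        by_contra hcon
        simp only [not_exists, not_not] at hcon
        have := IsArtinianRing.of_finite (ZMod q) (ZMod q ⊗[ℤ] A)
        have k1 := LinearMap.finrank_le_finrank_of_injective (f := (ext1 lb).toLinearMap)
          fun x y hxy => (IsArtinianRing.equivPi _).injective (funext fun m => by
            change Ideal.Quotient.mk _ _ = Ideal.Quotient.mk _ _
            rw [Ideal.Quotient.eq, ← hcon m]
            exact (map_sub _ _ _).trans (sub_eq_zero.mpr hxy))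
        rw [hrk, finrank_self] at k1
        omega
      obtain ⟨z, k1, k2, k3⟩ := exists_nonsq h0 m
      refine ⟨Algebra.norm (ZMod q) * (ext1 lb : _ →* _), fun z => ?_, z, k1, ?_⟩
      · rw [Xc, chi_eq, if_pos h, hs.lam_eq hlb, ← norm_inc, ← ext1_inc]
        rfl
      · have k4 : ext1 lb z = 1 := by
          have : ext1 lb (z - 1) = 0 := k3 m0 hm
          rwa [map_sub, map_one, sub_eq_zero] at this
        change ¬ IsSquare (_ * ext1 lb z)
        rwa [k4, mul_one]
    · have : Nontrivial (ZMod q ⊗[ℤ] A) :=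
        Module.nontrivial_of_finrank_pos (R := ZMod q) (by omega)
      obtain ⟨z, k1, k2, -⟩ := exists_nonsq h0 (Classical.arbitrary (MaximalSpectrum
        (ZMod q ⊗[ℤ] A)))
      exact ⟨Algebra.norm (ZMod q), fun z => by rw [Xc, chi_eq, if_neg h, mul_one, norm_inc],
        z, k1, k2⟩
  simp only [h1]
  refine ⟨fun x y => by simp only [map_mul, Int.cast_mul], by simp, fun x => ?_, fun x y => ?_, ?_⟩
  · rcases quadraticChar_isQuadratic (ZMod q) (ψ (inc A _ x)) with h | h | h <;> simp [h]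
  · rw [map_add, map_mul, map_natCast, ← map_natCast (algebraMap (ZMod q) _), ZMod.natCast_self,
      map_zero, zero_mul, add_zero]
  · obtain ⟨w, hw⟩ := h3.exists_right_inv
    obtain ⟨γ, rfl⟩ := hsurj z
    obtain ⟨γ', rfl⟩ := hsurj w
    refine ⟨γ, γ', (dvd_iff_repr b q _).mpr fun k => ?_, by
      rw [quadraticChar_neg_one_iff_not_isSquare.mpr h4]; simp⟩
    rw [← ZMod.intCast_zmod_eq_zero_iff_dvd, ← equivFun_inc, map_sub, map_mul, hw, map_one,
      sub_self, map_zero, Pi.zero_apply]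

end Pool.Agent.P.MP_ab3ecb_nt
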