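import Pool.Agent.P.MP_ab3ecb_nt.Defs3

/-!
Orders generated by sets of roots, roots fixed by Frobenius, Galois permutations.
-/

namespace Pool.Agent.P.MP_ab3ecb_nt

open Polynomial Finset Filter Asymptotics
open scoped Classical IntermediateField

/-- The ring of all algebraic integers. -/
abbrev TwO : Type := integralClosure ℤ ℂ

lemma tw_local (p : ℕ) [Fact p.Prime] : ∃ (k : Type) (_ : Field k) (ν : TwO →+* k)
    (ι : ZMod p →+* k) (W : Type) (_ : Field W) (j : TwO →+* W) (i : ℤ_[p] →+* W),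
      Function.Injective i ∧ ∀ x y, j x = i y → ν x = ι (PadicInt.toZMod y) := by
  let W := AlgebraicClosure ℚ_[p]
  let j : TwO →+* W := (IsAlgClosed.lift : TwO →ₐ[ℤ] W).toRingHom
  let S := integralClosure ℤ_[p] W
  have hinj : Function.Injective (algebraMap ℤ_[p] W) := by
    rw [IsScalarTower.algebraMap_eq ℤ_[p] ℚ_[p] W]
    exact (algebraMap ℚ_[p] W).injective.comp Subtype.val_injective
  have hj : ∀ x, j x ∈ S := fun x =>
    IsIntegral.tower_top (R := ℤ) ((Algebra.IsIntegral.isIntegral (R := ℤ) x).map j.toIntAlgHom)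
  let j' : TwO →+* S := j.codRestrict S hj
  obtain ⟨Q, hQ, hc⟩ := Ideal.exists_ideal_over_maximal_of_isIntegral (S := S)
    (IsLocalRing.maximalIdeal ℤ_[p]) (by
      intro x hx
      have : x = 0 := hinj (by
        rw [map_zero]
        exact congrArg Subtype.val (RingHom.mem_ker.1 hx))
      rw [this]
      exact zero_mem _)
  have hs : Function.Surjective (PadicInt.toZMod (p := p)) := ZMod.ringHom_surjective _
  let ι : ZMod p →+* S ⧸ Q := RingHom.liftOfSurjective _ hs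
    ⟨(Ideal.Quotient.mk Q).comp (algebraMap ℤ_[p] S), by
      intro x hx
      rw [PadicInt.ker_toZMod, ← hc, Ideal.mem_comap] at hx
      exact RingHom.mem_ker.2 (Ideal.Quotient.eq_zero_iff_mem.2 hx)⟩
  refine ⟨S ⧸ Q, Ideal.Quotient.field Q, (Ideal.Quotient.mk Q).comp j', ι, W, inferInstance, j,
    algebraMap ℤ_[p] W, hinj, fun x y h => ?_⟩
  have h1 : ι (PadicInt.toZMod y) = Ideal.Quotient.mk Q (algebraMap ℤ_[p] S y) :=
    RingHom.liftOfSurjective_comp_apply _ hs _ y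
  rw [h1]
  exact congrArg (Ideal.Quotient.mk Q) (Subtype.ext h)

lemma tw_conj0 {k E : Type} [Field k] [Field E] [Algebra k E] [IsAlgClosed E]
    (x y : algebraicClosure k E) (h : aeval (x : E) (minpoly k (y : E)) = 0) :
    ∃ σ : algebraicClosure k E →+* E, σ x = y := by
  obtain ⟨σ, hσ⟩ := minpoly.exists_algEquiv_of_root (K := k) (x := x) (y := y)
    (Algebra.IsAlgebraic.isAlgebraic _) (by
      rw [IntermediateField.minpoly_eq]
      apply (algebraMap (algebraicClosure k E) E).injective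
      rw [map_zero, ← aeval_algebraMap_apply]
      exact h)
  exact ⟨(algebraMap (algebraicClosure k E) E).comp (σ : _ →+* _),
    congrArg (algebraMap (algebraicClosure k E) E) hσ⟩

lemma tw_conj (x y : TwO) (h : aeval (x : ℂ) (minpoly ℚ (y : ℂ)) = 0) :
    ∃ s : TwO →+* TwO, s x = y := by
  let e : TwO →+* algebraicClosure ℚ ℂ := (integralClosure ℤ ℂ).val.toRingHom.codRestrict _
    fun z => IsIntegral.tower_top (R := ℤ) z.2
  obtain ⟨σ, hσ⟩ := tw_conj0 (e x) (e y) h
  exact ⟨(σ.comp e).codRestrict (integralClosure ℤ ℂ) fun z =>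
    (Algebra.IsIntegral.isIntegral (R := ℤ) z).map (σ.comp e).toIntAlgHom, Subtype.ext hσ⟩

section Roots

variable {F : ℤ[X]} {r : ℤ} {Ω : Type} [Fintype Ω] {th : Ω → TwO}

lemma tw_map (hF : F.map (Int.castRingHom TwO) = ∏ c, (X - C (th c))) {k : Type} [CommRing k]
    (ν : TwO →+* k) : F.map (Int.castRingHom k) = ∏ c, (X - C (ν (th c))) := by
  have := congrArg (Polynomial.map ν) hF
  rw [Polynomial.map_map, Polynomial.map_prod] at this
  simp only [Polynomial.map_sub, map_X, map_C] at this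
  rw [← this, RingHom.ext_int (Int.castRingHom k) (ν.comp (Int.castRingHom TwO))]

lemma tw_root (hF : F.map (Int.castRingHom TwO) = ∏ c, (X - C (th c))) {k : Type} [CommRing k]
    [IsDomain k] (ν : TwO →+* k) (t : k) : aeval t F = 0 ↔ ∃ c, t = ν (th c) := by
  rw [aeval_def, algebraMap_int_eq, ← eval_map, tw_map hF ν, eval_prod, prod_eq_zero_iff]
  simp [sub_eq_zero]

lemma tw_sep (sep : ∃ u v : ℤ[X], u * F + v * derivative F = C r) {k : Type} [Field k]
    (hr : (r : k) ≠ 0) : (F.map (Int.castRingHom k)).Separable := by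
  obtain ⟨u, v, h⟩ := sep
  have := congrArg (Polynomial.map (Int.castRingHom k)) h
  rw [Polynomial.map_add, Polynomial.map_mul, Polynomial.map_mul, map_C, eq_intCast,
    ← derivative_map] at this
  refine ⟨C (r : k)⁻¹ * u.map (Int.castRingHom k), C (r : k)⁻¹ * v.map (Int.castRingHom k), ?_⟩
  rw [mul_assoc, mul_assoc, ← mul_add, this, ← C_mul, inv_mul_cancel₀ hr, C_1]

lemma tw_inj (hF : F.map (Int.castRingHom TwO) = ∏ c, (X - C (th c)))
    (sep : ∃ u v : ℤ[X], u * F + v * derivative F = C r) {k : Type} [Field k]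
    (hr : (r : k) ≠ 0) (ν : TwO →+* k) : Function.Injective fun c => ν (th c) :=
  Separable.injective_of_prod_X_sub_C (tw_map hF ν ▸ tw_sep sep hr)

lemma tw_roots (hm : F.Monic) (hr : r ≠ 0)
    (sep : ∃ u v : ℤ[X], u * F + v * derivative F = C r) : ∃ (Ω : Type) (_ : Fintype Ω)
      (th : Ω → TwO), F.map (Int.castRingHom TwO) = ∏ c, (X - C (th c)) := by
  let s := (F.map (Int.castRingHom ℂ)).roots.toFinset
  have hs : ∀ c ∈ s, c ∈ integralClosure ℤ ℂ := fun c hc =>
    ⟨F, hm, by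
      rw [← eval_map, algebraMap_int_eq]
      exact isRoot_of_mem_roots (Multiset.mem_toFinset.1 hc)⟩
  refine ⟨s, inferInstance, fun c => ⟨c, hs c c.2⟩, ?_⟩
  apply Polynomial.map_injective (integralClosure ℤ ℂ).val.toRingHom Subtype.val_injective
  rw [Polynomial.map_map, Polynomial.map_prod,
    ← RingHom.ext_int (Int.castRingHom ℂ) (RingHom.comp _ _),
    (IsAlgClosed.splits _).eq_prod_roots_of_monic (hm.map (Int.castRingHom ℂ))]
  simp only [Polynomial.map_sub, map_X, map_C]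
  rw [← Multiset.dedup_eq_self.2 (nodup_roots (tw_sep sep (k := ℂ) (Int.cast_ne_zero.2 hr)))]
  exact (Finset.prod_coe_sort s fun c => X - C c).symm

lemma tw_perm (hF : F.map (Int.castRingHom TwO) = ∏ c, (X - C (th c))) (hr : r ≠ 0)
    (sep : ∃ u v : ℤ[X], u * F + v * derivative F = C r) (s : TwO →+* TwO) :
    ∃ g : Equiv.Perm Ω, ∀ c, s (th c) = th (g c) := by
  have h1 : ∀ c, ∃ c', s (th c) = th c' := fun c =>
    (tw_root hF (RingHom.id _) _).1 ((tw_root hF s _).2 ⟨c, rfl⟩)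
  choose g hg using h1
  have h2 : Function.Injective g := fun a b h =>
    tw_inj hF sep (k := ℂ) (Int.cast_ne_zero.2 hr) ((integralClosure ℤ ℂ).val.toRingHom.comp s) (by
      simp only [RingHom.comp_apply, hg, h])
  exact ⟨Equiv.ofBijective g (Finite.injective_iff_bijective.1 h2), hg⟩

lemma tw_loc (hF : F.map (Int.castRingHom TwO) = ∏ c, (X - C (th c)))
    (sep : ∃ u v : ℤ[X], u * F + v * derivative F = C r) (p : ℕ) :
    ∃ (fr : Finset Ω) (rt : Ω → ZMod p), ∀ [Fact p.Prime], ¬ (p : ℤ) ∣ r →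
      (∃ φ : Algebra.adjoin ℤ (th '' fr) →+* ℤ_[p], ∀ c ∈ fr, ∀ h,
        PadicInt.toZMod (φ ⟨th c, h⟩) = rt c) ∧
      (∀ t : ZMod p, aeval t F = 0 → ∃ c ∈ fr, rt c = t) ∧
      ∃ (k : Type) (_ : Field k) (ν : TwO →+* k) (ι : ZMod p →+* k),
        (∀ c ∈ fr, ι (rt c) = ν (th c)) ∧ Function.Injective fun c => ν (th c) := by
  by_cases hp : p.Prime
  swap
  · exact ⟨∅, 0, fun [h : Fact p.Prime] => absurd h.out hp⟩
  have : Fact p.Prime := ⟨hp⟩
  obtain ⟨k, _, ν, ι, W, _, j, i, hi, hν⟩ := tw_local p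
  have h0 : ∀ x : TwO, ∃ y, j x ∈ i.range → j x = i y := fun x => by
    by_cases h : j x ∈ i.range
    · obtain ⟨y, hy⟩ := h
      exact ⟨y, fun _ => hy.symm⟩
    · exact ⟨0, fun h' => absurd h' h⟩
  choose f hf using h0
  refine ⟨univ.filter fun c => j (th c) ∈ i.range, fun c => PadicInt.toZMod (f (th c)),
    fun hr => ?_⟩
  have hr' : (r : ZMod p) ≠ 0 := by rwa [Ne, ZMod.intCast_zmod_eq_zero_iff_dvd]
  refine ⟨?_, fun t ht => ?_, k, inferInstance, ν, ι,
    fun c hc => (hν _ _ (hf _ (mem_filter.1 hc).2)).symm, tw_inj hF sep ?_ ν⟩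
  · have h1 : ∀ x ∈ Algebra.adjoin ℤ (th '' (univ.filter fun c => j (th c) ∈ i.range : Finset Ω)),
        j x ∈ i.range := fun x hx => by
      induction hx using Algebra.adjoin_induction with
      | mem x hx =>
        obtain ⟨c, hc, rfl⟩ := hx
        exact (mem_filter.1 hc).2
      | algebraMap n =>
        rw [eq_intCast, map_intCast]
        exact intCast_mem _ n
      | add x y _ _ h1 h2 =>
        rw [map_add]
        exact add_mem h1 h2
      | mul x y _ _ h1 h2 =>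
        rw [map_mul]
        exact mul_mem h1 h2
    refine ⟨⟨⟨⟨fun x => f x, hi ?_⟩, fun x y => hi ?_⟩, hi ?_, fun x y => hi ?_⟩, fun c _ _ => rfl⟩
    · rw [← hf _ (h1 _ (Subtype.prop _))]
      simp
    · rw [map_mul, ← hf _ (h1 _ (Subtype.prop _)), ← hf _ (h1 _ x.2), ← hf _ (h1 _ y.2)]
      simp
    · dsimp only
      rw [← hf _ (h1 _ (Subtype.prop _))]
      simp
    · dsimp only
      rw [map_add, ← hf _ (h1 _ (Subtype.prop _)), ← hf _ (h1 _ x.2), ← hf _ (h1 _ y.2)]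
      simp
  · have hu : ∀ z : ℤ_[p], IsUnit z ↔ PadicInt.toZMod z ≠ 0 := fun z => by
      rw [Ne, ← RingHom.mem_ker, PadicInt.ker_toZMod, IsLocalRing.notMem_maximalIdeal]
    obtain ⟨a, ha⟩ := ZMod.ringHom_surjective (PadicInt.toZMod (p := p)) t
    have h1 : ‖aeval a (derivative F)‖ = 1 := by
      rw [← PadicInt.isUnit_iff, hu, map_aeval_int, ha]
      intro h
      obtain ⟨u, v, huv⟩ := sep
      have := congrArg (aeval t) huv
      rw [map_add, map_mul, map_mul, ht, h, aeval_C, eq_intCast] at this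
      exact hr' (by rw [← this]; simp)
    obtain ⟨ρ, h2, h3, -⟩ := hensels_lemma (F := F) (a := a) (by
      rw [h1, one_pow, ← PadicInt.not_isUnit_iff, hu, map_aeval_int, ha, ht, not_not])
    rw [h1, ← PadicInt.not_isUnit_iff, hu, not_not, map_sub, ha, sub_eq_zero] at h3
    obtain ⟨c, hc⟩ := (tw_root hF j (i ρ)).1 (by rw [← map_aeval_int, h2, map_zero])
    have h4 : j (th c) ∈ i.range := ⟨ρ, hc⟩
    refine ⟨c, mem_filter.2 ⟨mem_univ _, h4⟩, ?_⟩
    rw [← h3, hi (hc.trans (hf _ h4))]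
  · rw [← map_intCast ι]
    exact (map_ne_zero ι).2 hr'

lemma tw_fin (B k : Type) [CommRing B] [Module.Finite ℤ B] [CommRing k] [Finite k] :
    Finite (B →+* k) := by
  obtain ⟨n, v, hv⟩ := Module.Finite.exists_fin (R := ℤ) (M := B)
  refine Finite.of_injective (fun (φ : B →+* k) i => φ (v i)) fun φ ψ h => RingHom.ext fun z => ?_
  exact LinearMap.congr_fun (LinearMap.ext_on_range (f := φ.toAddMonoidHom.toIntLinearMap)
    (g := ψ.toAddMonoidHom.toIntLinearMap) hv (congrFun h)) z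

/-- The homomorphism out of a quadratic algebra given by a root. -/
def twLift {B k : Type} [CommRing B] [CommRing k] {a b : B} (ψ : B →+* k) (t : k)
    (h : t * t = ψ a + ψ b * t) : QuadraticAlgebra B a b →+* k where
  toFun z := ψ z.re + ψ z.im * t
  map_one' := by simp [QuadraticAlgebra.re_one, QuadraticAlgebra.im_one]
  map_zero' := by simp
  map_add' z w := by
    simp only [QuadraticAlgebra.re_add, QuadraticAlgebra.im_add, map_add]
    ring
  map_mul' z w := by
    simp only [QuadraticAlgebra.re_mul, QuadraticAlgebra.im_mul, map_add, map_mul]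
    linear_combination (-ψ z.im * ψ w.im) * h

lemma tw_adj (s : Set TwO) (hs : s.Finite) : Module.Finite ℤ (Algebra.adjoin ℤ s) :=
  Algebra.finite_adjoin_of_finite_of_isIntegral hs fun x _ => Algebra.IsIntegral.isIntegral x

lemma tw_quad0 (β α : TwO) (hαβ : (α : ℂ) ∉ ℚ⟮(β : ℂ)⟯) (a b : ℤ) (h : α * α = a + b * α) :
    ∃ (B' : Type) (_ : CommRing B') (_ : IsDomain B') (_ : CharZero B') (_ : Module.Finite ℤ B'),
      ∀ (p : ℕ) [Fact p.Prime] (t t' : ZMod p), t ≠ t' → t * t = a + b * t →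
        t' * t' = a + b * t' → 2 * Nat.card (Algebra.adjoin ℤ ({β} : Set TwO) →+* ZMod p) ≤
          Nat.card (B' →+* ZMod p) := by
  let B := Algebra.adjoin ℤ ({β} : Set TwO)
  have hB : Module.Finite ℤ B := tw_adj _ (Set.finite_singleton β)
  let e : B →+* ℂ := (integralClosure ℤ ℂ).val.toRingHom.comp B.val.toRingHom
  have he : Function.Injective e := Subtype.val_injective.comp Subtype.val_injective
  have hm : ∀ x ∈ B, (x : ℂ) ∈ ℚ⟮(β : ℂ)⟯ := fun x hx => by
    induction hx using Algebra.adjoin_induction with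
    | mem x hx =>
      rw [Set.mem_singleton_iff.1 hx]
      exact IntermediateField.mem_adjoin_simple_self ℚ _
    | algebraMap n => exact intCast_mem _ n
    | add x y _ _ h1 h2 => exact add_mem h1 h2
    | mul x y _ _ h1 h2 => exact mul_mem h1 h2
  let l : QuadraticAlgebra B a b →+* ℂ := twLift e α (by
    rw [map_intCast, map_intCast]
    exact congrArg Subtype.val h)
  have hl : Function.Injective l := (injective_iff_map_eq_zero l).2 fun z hz => by
    have h1 : e z.re + e z.im * α = 0 := hz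
    have h2 : e z.im = 0 := by
      by_contra h2
      apply hαβ
      rw [show (α : ℂ) = -e z.re / e z.im by
        rw [eq_div_iff h2]
        linear_combination h1]
      exact div_mem (neg_mem (hm _ z.re.2)) (hm _ z.im.2)
    rw [h2, zero_mul, add_zero] at h1
    exact QuadraticAlgebra.ext ((map_eq_zero_iff e he).1 h1) ((map_eq_zero_iff e he).1 h2)
  have hf : Module.Finite ℤ (QuadraticAlgebra B a b) := Module.Finite.trans B _
  refine ⟨QuadraticAlgebra B a b, inferInstance, hl.isDomain l, l.charZero, hf,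
    fun p _ t t' h0 h1 h2 => ?_⟩
  have := tw_fin (QuadraticAlgebra B a b) (ZMod p)
  let T : Bool → ZMod p := fun c => if c then t else t'
  have hT : ∀ (c) (ψ : B →+* ZMod p), T c * T c = ψ a + ψ b * T c := fun c ψ => by
    rw [map_intCast, map_intCast]
    cases c
    exacts [h2, h1]
  have h3 := Nat.card_le_card_of_injective
    (fun x : Bool × (B →+* ZMod p) => twLift x.2 (T x.1) (hT x.1 x.2)) (by
      rintro ⟨c, ψ⟩ ⟨c', ψ'⟩ h3
      have h4 : ∀ x y : B, ψ x + ψ y * T c = ψ' x + ψ' y * T c' := fun x y =>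
        RingHom.congr_fun h3 ⟨x, y⟩
      have h5 : T c = T c' := by simpa using h4 0 1
      refine Prod.ext ?_ (RingHom.ext fun x => by simpa using h4 x 0)
      cases c <;> cases c' <;> first | rfl | exact absurd h5 h0 | exact absurd h5.symm h0)
  rwa [Nat.card_prod, Nat.card_eq_fintype_card (α := Bool), Fintype.card_bool] at h3

lemma tw_quad1 (hF : F.map (Int.castRingHom TwO) = ∏ c, (X - C (th c))) (hr : r ≠ 0)
    (sep : ∃ u v : ℤ[X], u * F + v * derivative F = C r)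
    (hq : ∀ α : ℂ, aeval α F = 0 → (minpoly ℚ α).natDegree ≤ 2 →
      ∃ β : ℂ, aeval β F = 0 ∧ α ∉ ℚ⟮β⟯) {Λ : Finset Ω} {a : Ω} (ha : a ∈ Λ)
    (h2 : (orb {g | ∃ s : TwO →+* TwO, ∀ c, s (th c) = th (g c)} Λ).card ≤ 2) :
    ∃ (c0 : Ω) (u v : ℤ), (th a : ℂ) ∉ ℚ⟮(th c0 : ℂ)⟯ ∧
      ∀ c ∈ Λ, th c * th c = u + v * th c ∧ ∃ c', c' ≠ c ∧ th c' = v - th c := by
  set G : Set (Equiv.Perm Ω) := {g | ∃ s : TwO →+* TwO, ∀ c, s (th c) = th (g c)}
  let e : TwO →+* ℂ := (integralClosure ℤ ℂ).val.toRingHom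
  have hi : Function.Injective fun c => e (th c) := tw_inj hF sep (Int.cast_ne_zero.2 hr) e
  have hα : aeval (th a : ℂ) F = 0 := (tw_root hF e _).2 ⟨a, rfl⟩
  have hz : IsIntegral ℤ (th a : ℂ) := (th a).2
  have hQ : IsIntegral ℚ (th a : ℂ) := hz.tower_top
  have h3 : ∀ x : ℂ, aeval x (minpoly ℚ (th a : ℂ)) = 0 → ∃ c ∈ orb G Λ, e (th c) = x := by
    intro x hx
    have h4 := aeval_eq_zero_of_dvd_aeval_eq_zero (minpoly.dvd ℚ (th a : ℂ)
      (p := F.map (algebraMap ℤ ℚ)) (by rwa [aeval_map_algebraMap])) hx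
    rw [aeval_map_algebraMap] at h4
    obtain ⟨c, rfl⟩ := (tw_root hF e _).1 h4
    obtain ⟨s, hs⟩ := tw_conj (th c) (th a) hx
    obtain ⟨g, hg⟩ := tw_perm hF hr sep s
    have h5 : g c = a := hi (congrArg e ((hg c).symm.trans hs))
    exact ⟨c, mem_filter.2 ⟨mem_univ _, g, ⟨s, hg⟩, h5 ▸ ha⟩, rfl⟩
  have h4 : (minpoly ℚ (th a : ℂ)).natDegree ≤ 2 := by
    rw [← card_rootSet_eq_natDegree (K := ℂ) (minpoly.irreducible hQ).separable
      (IsAlgClosed.splits _), ← Set.toFinset_card]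
    refine le_trans (card_le_card fun x hx => ?_)
      ((card_image_le (f := fun c => e (th c))).trans h2)
    exact mem_image.2 (h3 x (aeval_eq_zero_of_mem_rootSet (Set.mem_toFinset.1 hx)))
  obtain ⟨β, hβ, hn⟩ := hq _ hα h4
  obtain ⟨c0, rfl⟩ := (tw_root hF e _).1 hβ
  have h5 : 2 ≤ (minpoly ℚ (th a : ℂ)).natDegree := (minpoly.two_le_natDegree_iff hQ).2 (by
    rintro ⟨q, hq⟩
    exact hn (hq ▸ IntermediateField.algebraMap_mem _ q))
  have h6 := minpoly.isIntegrallyClosed_eq_field_fractions' ℚ hz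
  obtain ⟨v, u, h7⟩ := (isMonicOfDegree_two_iff' (f := minpoly ℤ (th a : ℂ))).1
    ⟨by rw [← (minpoly.monic hz).natDegree_map (algebraMap ℤ ℚ), ← h6]; omega, minpoly.monic hz⟩
  have h8 : ∀ x : ℂ, aeval x (minpoly ℚ (th a : ℂ)) = x ^ 2 - v * x + u := fun x => by
    rw [h6, aeval_map_algebraMap, h7]
    simp
  have h9 : (th a : ℂ) ^ 2 - v * th a + u = 0 := (h8 _).symm.trans (minpoly.aeval _ _)
  obtain ⟨a', ha', h10⟩ := h3 (v - th a) (by rw [h8]; linear_combination h9)
  have h11 : a' ≠ a := by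
    rintro rfl
    apply hn
    have h11 : (th a' : ℂ) = v - th a' := h10
    rw [show (th a' : ℂ) = v / (2 : ℤ) by push_cast; linear_combination h11 / 2]
    exact div_mem (intCast_mem _ _) (intCast_mem _ _)
  have h12 : ∀ c ∈ Λ, c ∈ orb G Λ := fun c hc =>
    mem_filter.2 ⟨mem_univ _, 1, ⟨RingHom.id _, fun _ => rfl⟩, hc⟩
  have h13 : ({a', a} : Finset Ω) = orb G Λ := eq_of_subset_of_card_le
    (insert_subset ha' (singleton_subset_iff.2 (h12 a ha))) (by rwa [card_pair h11])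
  have h14 : th a' = v - th a := Subtype.ext h10
  have h15 : th a * th a = (-u : ℤ) + v * th a := Subtype.ext (by
    push_cast
    linear_combination h9)
  refine ⟨c0, -u, v, hn, fun c hc => ?_⟩
  have h16 := h12 c hc
  rw [← h13, mem_insert, mem_singleton] at h16
  rcases h16 with rfl | rfl
  · exact ⟨by rw [h14]; linear_combination h15, a, h11.symm, by rw [h14]; ring⟩
  · exact ⟨h15, a', h11, h14⟩

end Roots

/-- TOWER. -/
theorem exists_tower (F : ℤ[X]) (hm : F.Monic) (hdeg : 0 < F.natDegree) {r : ℤ} (hr : r ≠ 0)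
    (sep : ∃ u v : ℤ[X], u * F + v * derivative F = C r)
    (hq : ∀ α : ℂ, aeval α F = 0 → (minpoly ℚ α).natDegree ≤ 2 →
      ∃ β : ℂ, aeval β F = 0 ∧ α ∉ ℚ⟮β⟯) :
    ∃ (Ω : Type) (_ : Fintype Ω) (A : Finset Ω → Type) (_ : ∀ Φ, CommRing (A Φ))
      (_ : ∀ Φ, IsDomain (A Φ)) (_ : ∀ Φ, CharZero (A Φ)) (_ : ∀ Φ, Module.Finite ℤ (A Φ))
      (θ : ∀ Φ, Ω → A Φ) (fr : ℕ → Finset Ω) (rt : ∀ p : ℕ, Ω → ZMod p)
      (G : Set (Equiv.Perm Ω)), ∀ M : ℕ, r ∣ M → Tw F M A θ fr rt G := by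
  obtain ⟨Ω, _, th, hF⟩ := tw_roots hm hr sep
  choose fr rt hl using tw_loc hF sep
  have hi : Function.Injective th := fun a b h =>
    tw_inj hF sep (k := ℂ) (Int.cast_ne_zero.2 hr) (integralClosure ℤ ℂ).val.toRingHom
      (congrArg Subtype.val h)
  let A : Finset Ω → Subalgebra ℤ TwO := fun Φ => Algebra.adjoin ℤ (th '' Φ)
  let θ : ∀ Φ, Ω → A Φ := fun Φ c =>
    if h : c ∈ Φ then ⟨th c, Algebra.subset_adjoin ⟨c, h, rfl⟩⟩ else 0
  have hθ : ∀ Φ, ∀ c ∈ Φ, (θ Φ c : TwO) = th c := fun Φ c h => by simp only [θ, dif_pos h]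
  have hroot : ∀ (B : Subalgebra ℤ TwO) (x : B) (c : Ω), (x : TwO) = th c → aeval x F = 0 :=
    fun B x c h => Subtype.ext ((map_aeval_int B.val.toRingHom x F).trans
      ((tw_root hF (RingHom.id _) _).2 ⟨c, h⟩))
  have hcard : Fintype.card Ω = F.natDegree := by
    rw [← hm.natDegree_map (Int.castRingHom TwO), hF, natDegree_prod_of_monic _ _
      fun c _ => monic_X_sub_C _]
    simp
  refine ⟨Ω, inferInstance, fun Φ => A Φ, inferInstance, inferInstance, inferInstance,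
    fun Φ => tw_adj _ ((Φ.finite_toSet).image _), θ, fr, rt,
    {g | ∃ s : TwO →+* TwO, ∀ c, s (th c) = th (g c)}, fun M hM => ?_⟩
  have hpr : ∀ p : ℕ, ¬ p ∣ M → ¬ (p : ℤ) ∣ r := fun p hp h =>
    hp (Int.natCast_dvd_natCast.1 (h.trans hM))
  have hne : ∀ (c : Ω) (p : ℕ), p.Prime → ¬ p ∣ M →
      Nonempty (Algebra.adjoin ℤ ({th c} : Set TwO) →+* ZMod p) → (fr p).Nonempty := by
    rintro c p hp hpM ⟨ψ⟩
    have : Fact p.Prime := ⟨hp⟩
    obtain ⟨c', hc', -⟩ := (hl p (hpr p hpM)).2.1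
      (ψ ⟨th c, Algebra.subset_adjoin (Set.mem_singleton _)⟩) (by
        rw [← map_aeval_int, hroot _ _ c rfl, map_zero])
    exact ⟨c', hc'⟩
  refine ⟨hcard, fun Φ a ha => hroot _ _ a (hθ Φ a ha), fun Φ a ha b hb hab => ?_,
    fun p _ hp Φ hΦ => ?_, fun p hp hpM => ?_, ⟨RingHom.id _, fun _ => rfl⟩, ?_, fun Λ h2 => ?_⟩
  · have h1 : ∀ c ∈ Φ, IsRoot (F.map (Int.castRingHom (A Φ))) (θ Φ c) := fun c hc => by
      rw [IsRoot.def, eval_map, ← algebraMap_int_eq, ← aeval_def, hroot _ _ c (hθ Φ c hc)]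
    obtain ⟨q, hq⟩ := dvd_iff_isRoot.2 (h1 a ha)
    have h2 := h1 b hb
    rw [hq, root_mul, root_X_sub_C] at h2
    rw [hq]
    refine mul_dvd_mul_left _ (dvd_iff_isRoot.2 (h2.resolve_left fun h => hab (hi ?_)))
    rw [← hθ Φ a ha, ← hθ Φ b hb, h]
  · subst hΦ
    obtain ⟨φ, hφ⟩ := (hl p (hpr p hp)).1
    exact ⟨φ, fun c hc => by
      simp only [θ, dif_pos hc]
      exact hφ c hc _⟩
  · have : Fact p.Prime := ⟨hp⟩
    exact (hl p (hpr p hpM)).2.1
  · rintro g ⟨s, hs⟩ q hq hqM Φ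
    have : Fact q.Prime := ⟨hq⟩
    obtain ⟨k, _, ν, ι, h1, h2⟩ := (hl q (hpr q hqM)).2.2
    refine ⟨k, inferInstance, ν.comp (s.comp (A Φ).val.toRingHom), ι, fun c hc c' hc' => ?_⟩
    have h3 : (ν.comp (s.comp (A Φ).val.toRingHom)) (θ Φ c) = ν (th (g c)) := by
      rw [← hs, ← hθ Φ c hc]
      rfl
    rw [h1 c' hc', h3]
    exact h2.eq_iff
  · rcases Λ.eq_empty_or_nonempty with rfl | ⟨a, ha⟩
    · obtain ⟨c⟩ : Nonempty Ω := Fintype.card_pos_iff.1 (hcard ▸ hdeg)
      have := tw_adj _ (Set.finite_singleton (th c))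
      exact ⟨Algebra.adjoin ℤ ({th c} : Set TwO), Algebra.adjoin ℤ ({th c} : Set TwO),
        inferInstance, inferInstance, inferInstance, this, inferInstance, inferInstance,
        inferInstance, this, fun p hp hpM =>
          ⟨hne c p hp hpM, fun h => absurd (disjoint_empty_right _) h⟩⟩
    · obtain ⟨c0, u, v, h3, h4⟩ := tw_quad1 hF hr sep hq ha h2
      obtain ⟨B', i1, i2, i3, i4, h5⟩ := tw_quad0 (th c0) (th a) h3 u v (h4 a ha).1
      refine ⟨Algebra.adjoin ℤ ({th c0} : Set TwO), B', inferInstance, inferInstance,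
        inferInstance, tw_adj _ (Set.finite_singleton _), i1, i2, i3, i4, fun p hp hpM =>
          ⟨hne c0 p hp hpM, fun h => ?_⟩⟩
      have : Fact p.Prime := ⟨hp⟩
      obtain ⟨c, hc, hc'⟩ := not_disjoint_iff.1 h
      obtain ⟨h6, c', h7, h8⟩ := h4 c hc'
      obtain ⟨k, _, ν, ι, h9, h10⟩ := (hl p (hpr p hpM)).2.2
      have h11 : rt p c * rt p c = u + v * rt p c := ι.injective (by
        simp only [map_add, map_mul, map_intCast, h9 c hc]
        simpa using congrArg ν h6)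
      refine h5 p (rt p c) (v - rt p c) (fun h12 => h7 (h10 ?_)) h11 (by linear_combination h11)
      have h13 := congrArg ι h12
      rw [map_sub, map_intCast, h9 c hc] at h13
      simp only [h8, map_sub, map_intCast]
      exact h13.symm

end Pool.Agent.P.MP_ab3ecb_nt
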