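import Pool.Agent.P.MP_ab3ecb_nt.NF

/-!
Multiplicative weights that exploit the primes splitting completely.
-/

namespace Pool.Agent.P.MP_ab3ecb_nt

open Finset Filter Topology NumberField Polynomial
open scoped Classical

set_option linter.unusedSectionVars false
set_option maxHeartbeats 400000

theorem nf_weights {J : Type} [Fintype J] (g : J → ℤ[X])
    (hirr : ∀ j, Irreducible ((g j).map (algebraMap ℤ ℚ))) (hdeg : ∀ j, 2 ≤ (g j).natDegree) :
    ∃ (om : ℕ → ℝ) (μ c C : ℝ), 1 ≤ μ ∧ μ ≤ 2 ∧ 0 < c ∧ c ≤ 1 ∧ (∀ p, 1 / 2 ≤ om p ∧ om p ≤ 1) ∧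
      ∀ᶠ s in 𝓝[>] (1 : ℝ), ∀ P : Finset ℕ, (∀ p ∈ P, p.Prime) →
        (∀ i, ∑ p ∈ P, μ * om p * ((rts (g i) p).card : ℝ) * (p : ℝ) ^ (-s)
          ≤ (1 - c) * Real.log (1 / (s - 1)) + C) ∧
        ∑ p ∈ P, (μ * om p)⁻¹ * (p : ℝ) ^ (-s) ≤ (1 - c) * Real.log (1 / (s - 1)) + C := by
  obtain ⟨K, _, _, N, hN, hK⟩ := split_saving g hirr hdeg
  obtain ⟨C1, hC1⟩ := ideal_lower K
  obtain ⟨C3, hC3⟩ := ideal_upper K
  set n := Module.finrank ℤ (𝓞 K) with hn
  have hn1 : (1 : ℝ) ≤ n := by
    have : 0 < n := Module.finrank_pos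
    exact_mod_cast this
  obtain ⟨x, hx0, hx⟩ : ∃ x : ℝ, 0 < x ∧ x * n = 1 / 8 := ⟨1 / 8 / n, by positivity, by field_simp⟩
  have hx1 : x ≤ 1 / 8 := by nlinarith
  have ht : ∀ p : ℕ, p.Prime → x * (idl K p).card ≤ 1 / 8 := fun p hp => by
    have : ((idl K p).card : ℝ) ≤ n := by exact_mod_cast card_idl_le hp
    nlinarith
  have ht0 : ∀ p : ℕ, 0 ≤ x * (idl K p).card := fun p => by positivity
  have key : ∀ i, ∃ C : ℝ, ∀ᶠ s in 𝓝[>] (1 : ℝ), ∀ P : Finset ℕ, (∀ p ∈ P, p.Prime) →
      ∑ p ∈ P, (1 - x * (idl K p).card) * ((rts (g i) p).card : ℝ) * (p : ℝ) ^ (-s)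
        ≤ (1 - 2 * x) * Real.log (1 / (s - 1)) + C := by
    intro i
    obtain ⟨K', _, _, N', hN', hK'⟩ := roots_le (g i) (hirr i)
    obtain ⟨C2, hC2⟩ := ideal_upper K'
    refine ⟨C2 + 2 * x * C1 + 2 * (N * N').divisors.card, ?_⟩
    filter_upwards [hC1, hC2, self_mem_nhdsWithin] with s ⟨P1, hP1, h1⟩ h2 h3 P hP
    have hs : 1 < s := h3
    have hP' : ∀ p ∈ P ∪ P1, p.Prime := fun p hp => (mem_union.mp hp).elim (hP p) (hP1 p)
    have h4 := h2 (P ∪ P1) hP'
    have h5 : ∑ p ∈ P1, ((idl K p).card : ℝ) * (p : ℝ) ^ (-s)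
        ≤ ∑ p ∈ P ∪ P1, ((idl K p).card : ℝ) * (p : ℝ) ^ (-s) :=
      Finset.sum_le_sum_of_subset_of_nonneg subset_union_right fun _ _ _ => by positivity
    calc _ ≤ ∑ p ∈ P ∪ P1, (1 - x * (idl K p).card) * ((rts (g i) p).card : ℝ) * (p : ℝ) ^ (-s) :=
          Finset.sum_le_sum_of_subset_of_nonneg subset_union_left fun p hp _ =>
            mul_nonneg (mul_nonneg (by linarith [ht p (hP' p hp)]) (by positivity)) (by positivity)
      _ ≤ ∑ p ∈ P ∪ P1, (((idl K' p).card : ℝ) * (p : ℝ) ^ (-s)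
            - 2 * x * (((idl K p).card : ℝ) * (p : ℝ) ^ (-s))
            + 2 * if p ∈ (N * N').divisors then 1 else 0) := by
          refine Finset.sum_le_sum fun p hp => ?_
          have hpp := hP' p hp
          have k0 : (0 : ℝ) < p := by exact_mod_cast hpp.pos
          have k1 : 0 < (p : ℝ) ^ (-s) := by positivity
          have k2 := ht p hpp
          have k3 := ht0 p
          rw [← mul_assoc, mul_assoc 2]
          generalize hy : x * (idl K p).card = y at k2 k3
          split_ifs with hd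
          · have k5 : (p : ℝ) * (p : ℝ) ^ (-s) ≤ 1 := by
              rw [← Real.rpow_one_add' k0.le (by linarith)]
              exact Real.rpow_le_one_of_one_le_of_nonpos (by exact_mod_cast hpp.one_le)
                (by linarith)
            have k6 : ((rts (g i) p).card : ℝ) ≤ p := by
              exact_mod_cast (card_filter_le _ _).trans (card_range p).le
            have k7 : (p : ℝ) ^ (-s) ≤ 1 :=
              Real.rpow_le_one_of_one_le_of_nonpos (by exact_mod_cast hpp.one_le) (by linarith)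
            have k8 : 0 ≤ ((idl K' p).card : ℝ) * (p : ℝ) ^ (-s) := by positivity
            have k9 : 0 ≤ y * ((rts (g i) p).card : ℝ) * (p : ℝ) ^ (-s) := by positivity
            nlinarith
          · rw [Nat.mem_divisors, not_and_or, not_not, or_iff_left (mul_ne_zero hN hN')] at hd
            have k5 : ((rts (g i) p).card : ℝ) ≤ (idl K' p).card := by
              exact_mod_cast hK' p hpp fun h => hd (h.mul_left _)
            have k6 : 2 * y ≤ y * (rts (g i) p).card := by
              by_cases k6 : (idl K p).card = 0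
              · simp [← hy, k6]
              · have k7 := hK p hpp (fun h => hd (h.mul_right _)) k6 i
                have k8 : 0 < (pats g i p).card :=
                  card_pos.mpr ((card_pos.mp (by omega)).image _)
                have : (2 : ℝ) ≤ (rts (g i) p).card := by exact_mod_cast (by omega)
                nlinarith
            nlinarith
      _ ≤ _ := by
          rw [Finset.sum_add_distrib, Finset.sum_sub_distrib, ← Finset.mul_sum, ← Finset.mul_sum,
            Finset.sum_ite_mem, Finset.sum_const, nsmul_eq_mul, mul_one]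
          have k1 : (((P ∪ P1) ∩ (N * N').divisors).card : ℝ) ≤ (N * N').divisors.card := by
            exact_mod_cast card_le_card inter_subset_right
          nlinarith [mul_le_mul_of_nonneg_left (h1.trans h5) hx0.le]
  choose C hC using key
  refine ⟨fun p => if p.Prime then 1 - x * (idl K p).card else 1, 1 + 3 / 2 * x, x / 4,
    2 * ∑ i, |C i| + (3 + |C3|), by linarith, by linarith, by positivity, by linarith, fun p => ?_,
    ?_⟩
  · beta_reduce
    split_ifs with h
    · exact ⟨by linarith [ht p h], by linarith [ht0 p]⟩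
    · norm_num
  filter_upwards [eventually_all.mpr hC, hC3, Ioc_mem_nhdsGT one_lt_two] with s hs h3 h4 P hP
  have h5 : 0 ≤ Real.log (1 / (s - 1)) :=
    Real.log_nonneg ((one_le_div (by linarith [h4.1])).mpr (by linarith [h4.2]))
  have h6 : 0 ≤ ∑ i, |C i| := Finset.sum_nonneg fun _ _ => abs_nonneg _
  have h7 := sum_prime_rpow_le (fun p : P => (p : ℕ)) (fun p => hP p p.2) Subtype.val_injective
    univ h4.1 h4.2
  rw [Finset.sum_coe_sort P fun p => (p : ℝ) ^ (-s)] at h7
  have h8 := (h3 P hP).trans (add_le_add le_rfl (le_abs_self C3))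
  generalize Real.log (1 / (s - 1)) = Lg at *
  refine ⟨fun i => ?_, ?_⟩
  · rw [Finset.sum_congr rfl fun p hp => by rw [if_pos (hP p hp), mul_assoc, mul_assoc,
      ← mul_assoc (1 - _)], ← Finset.mul_sum]
    have k1 := (hs i P hP).trans (add_le_add le_rfl ((le_abs_self _).trans
      (Finset.single_le_sum (f := fun i => |C i|) (fun _ _ => abs_nonneg _) (mem_univ i))))
    refine (mul_le_mul_of_nonneg_left k1 (by linarith)).trans ?_
    nlinarith [abs_nonneg C3, mul_nonneg hx0.le h5, mul_nonneg (mul_nonneg hx0.le hx0.le) h5]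
  · calc _ ≤ ∑ p ∈ P, (1 + 3 / 2 * x)⁻¹ * ((p : ℝ) ^ (-s) +
          8 / 7 * x * ((idl K p).card * (p : ℝ) ^ (-s))) := by
          refine Finset.sum_le_sum fun p hp => ?_
          have k1 := ht p (hP p hp)
          have k2 := ht0 p
          rw [if_pos (hP p hp), mul_inv, mul_assoc, ← mul_assoc (8 / 7 * x), ← one_add_mul,
            mul_assoc (8 / 7)]
          generalize x * (idl K p).card = y at k1 k2
          gcongr
          rw [inv_le_iff_one_le_mul₀ (by linarith)]
          nlinarith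
      _ ≤ (1 + 3 / 2 * x)⁻¹ * (Lg + 3 + 8 / 7 * x * (Lg + |C3|)) := by
          rw [← Finset.mul_sum, Finset.sum_add_distrib, ← Finset.mul_sum]
          gcongr
      _ ≤ _ := by
          rw [inv_mul_le_iff₀ (by linarith)]
          nlinarith [abs_nonneg C3, mul_nonneg hx0.le h5, mul_nonneg hx0.le h6,
            mul_nonneg hx0.le (abs_nonneg C3), mul_nonneg (mul_nonneg hx0.le h5) (sub_nonneg.mpr hx1)]

end Pool.Agent.P.MP_ab3ecb_nt
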