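import Pool.Agent.P.MP_ab3ecb_nt.Dens2
import Pool.Agent.P.MP_ab3ecb_nt.NF2

/-!
Integral models: monic factors, their orders, and the admissible sets of factors.
-/

namespace Pool.Agent.P.MP_ab3ecb_nt

open Polynomial Finset Module
open scoped Classical

set_option maxHeartbeats 400000
set_option linter.unusedSectionVars false

/-- Scaling of roots as a multiplicative automorphism. -/
noncomputable def scE {N : ℚ} (hN : N ≠ 0) : ℚ[X] ≃* ℚ[X] where
  toFun p := p.scaleRoots N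
  invFun p := p.scaleRoots N⁻¹
  left_inv p := by simp only [← scaleRoots_mul, mul_inv_cancel₀ hN, scaleRoots_one]
  right_inv p := by simp only [← scaleRoots_mul, inv_mul_cancel₀ hN, scaleRoots_one]
  map_mul' p q := mul_scaleRoots_of_noZeroDivisors p q N

lemma exists_model2 (f : ℚ[X]) (hf : Squarefree f) (hdeg : 0 < f.natDegree)
    (hev : Even f.natDegree) (hrt : ∀ t : ℚ, f.eval t ≠ 0) :
    ∃ (J : Type) (_ : Fintype J) (_ : Nonempty J) (g : J → ℤ[X]) (a c : ℚ) (e r : ℤ),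
      (∀ j, (g j).Monic) ∧ (∀ j, Irreducible ((g j).map (algebraMap ℤ ℚ))) ∧
      (∀ j, 2 ≤ (g j).natDegree) ∧ Even (∏ j, g j).natDegree ∧ e ≠ 0 ∧ r ≠ 0 ∧
      (∃ u v : ℤ[X], u * ∏ j, g j + v * derivative (∏ j, g j) = C r) ∧
      ∀ (E : Type) [Field E] [CharZero E] (x : E),
        aeval ((a : E) * x) (∏ j, g j) = e * (c : E) ^ 2 * aeval x f := by
  have hf0 := hf.ne_zero
  set T := (UniqueFactorizationMonoid.normalizedFactors f).toFinset with hT
  have h1 : C f.leadingCoeff * ∏ j : T, (j : ℚ[X]) = f := by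
    rw [Finset.prod_coe_sort T fun j => j, hT, ← Multiset.toFinset_eq
      ((UniqueFactorizationMonoid.squarefree_iff_nodup_normalizedFactors hf0).mp hf),
      Finset.prod_mk, Multiset.map_id']
    exact leadingCoeff_mul_prod_normalizedFactors f
  have hmem : ∀ j : T, Irreducible (j : ℚ[X]) ∧ (j : ℚ[X]).Monic ∧ (j : ℚ[X]) ∣ f := fun j =>
    (Polynomial.mem_normalizedFactors_iff hf0).mp (Multiset.mem_toFinset.mp j.2)
  have hne : Nonempty T := by
    by_contra hcon
    rw [not_nonempty_iff] at hcon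
    rw [← h1] at hdeg
    simp at hdeg
  choose D hD g' hg' using fun j : T => clear_den (j : ℚ[X])
  have hN : ((∏ j, D j : ℤ) : ℚ) ≠ 0 :=
    Int.cast_ne_zero.mpr (Finset.prod_ne_zero_iff.mpr fun j _ => hD j)
  have hex : ∀ j : T, ∃ q : ℤ[X], q.map (algebraMap ℤ ℚ) = scE hN j ∧
      q.natDegree = (scE hN j).natDegree ∧ q.Monic := fun j => by
    refine lifts_and_natDegree_eq_and_monic ((lifts_iff_coeff_lifts _).mpr fun i => ?_)
      ((monic_scaleRoots_iff _).mpr (hmem j).2.1)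
    change ∃ z : ℤ, (z : ℚ) = (scaleRoots (j : ℚ[X]) _).coeff i
    rw [coeff_scaleRoots]
    rcases lt_trichotomy i (j : ℚ[X]).natDegree with h | rfl | h
    · obtain ⟨k, hk⟩ := Finset.dvd_prod_of_mem D (mem_univ j)
      obtain ⟨m, hm⟩ := Nat.exists_eq_succ_of_ne_zero (Nat.sub_ne_zero_of_lt h)
      have := congrArg (coeff · i) (hg' j)
      simp only [coeff_map, coeff_C_mul, eq_intCast] at this
      refine ⟨(g' j).coeff i * k * (∏ j, D j) ^ m, ?_⟩
      rw [hm, pow_succ, Int.cast_mul, Int.cast_mul, Int.cast_pow, this, hk, Int.cast_mul]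
      ring
    · exact ⟨1, by simp [(hmem j).2.1.coeff_natDegree]⟩
    · exact ⟨0, by simp [coeff_eq_zero_of_natDegree_lt h]⟩
  choose g hg hnat hmon using hex
  have hlc : f.leadingCoeff ≠ 0 := leadingCoeff_ne_zero.mpr hf0
  have h2 : (∏ j, g j).map (algebraMap ℤ ℚ) = scE hN (∏ j : T, (j : ℚ[X])) := by
    simp only [Polynomial.map_prod, hg, map_prod]
  have h3 : (∏ j : T, (j : ℚ[X])).natDegree = f.natDegree := by
    conv_rhs => rw [← h1, natDegree_C_mul hlc]
  have hsq : Squarefree ((∏ j, g j).map (algebraMap ℤ ℚ)) := fun q hq => by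
    have := map_dvd (scE hN).symm (h2 ▸ hq)
    rw [map_mul, MulEquiv.symm_apply_apply] at this
    simpa using (hf _ (this.trans (h1 ▸ dvd_mul_left _ _))).map (scE hN)
  obtain ⟨r, hr, hb⟩ := bezout_int (a := ∏ j, g j) (b := derivative (∏ j, g j)) (by
    rw [← derivative_map]
    exact (separable_def _).mp (PerfectField.separable_iff_squarefree.mpr hsq))
  set κ : ℚ := ((∏ j, D j : ℤ) : ℚ) ^ f.natDegree / f.leadingCoeff with hκ
  have hκ0 : κ ≠ 0 := div_ne_zero (pow_ne_zero _ hN) hlc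
  refine ⟨T, inferInstance, hne, g, (∏ j, D j : ℤ), (κ.den : ℚ)⁻¹, κ.num * κ.den, r, hmon,
    fun j => hg j ▸ (MulEquiv.irreducible_iff _).mpr (hmem j).1, fun j => ?_, ?_,
    mul_ne_zero (Rat.num_ne_zero.mpr hκ0) (by simp), hr, hb, fun E _ _ x => ?_⟩
  · have k1 := (hmem j).1.natDegree_pos
    rw [hnat j]
    change 2 ≤ (scaleRoots _ _).natDegree
    rw [natDegree_scaleRoots]
    by_contra k2
    obtain ⟨t, ht⟩ := exists_root_of_degree_eq_one
      ((degree_eq_iff_natDegree_eq_of_pos one_pos).mpr (by omega : (j : ℚ[X]).natDegree = 1))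
    exact hrt t (ht.dvd (hmem j).2.2)
  · rw [← natDegree_map_eq_of_injective (RingHom.injective_int (algebraMap ℤ ℚ)), h2]
    change Even (scaleRoots _ _).natDegree
    rwa [natDegree_scaleRoots, h3]
  · have k1 := scaleRoots_eval₂_mul (p := ∏ j : T, (j : ℚ[X])) (algebraMap ℚ E) x (∏ j, D j : ℤ)
    have k2 : ((κ.num * κ.den : ℤ) : ℚ) * (κ.den : ℚ)⁻¹ ^ 2 * f.leadingCoeff =
        ((∏ j, D j : ℤ) : ℚ) ^ f.natDegree := by
      rw [← div_mul_cancel₀ (_ ^ f.natDegree) hlc, ← hκ]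
      congr 1
      push_cast
      conv_rhs => rw [← Rat.num_div_den κ]
      field_simp
    rw [← aeval_map_algebraMap ℚ, h2, aeval_def]
    refine k1.trans ?_
    rw [h3, ← map_pow, ← k2, ← aeval_def]
    conv_rhs => rw [← h1]
    simp only [map_mul, aeval_C, map_pow, eq_ratCast, Rat.cast_intCast, mul_assoc]

lemma exists_order (g : ℤ[X]) (hm : g.Monic) (hirr : Irreducible (g.map (algebraMap ℤ ℚ))) :
    ∃ (A : Type) (_ : CommRing A) (_ : Nontrivial A) (_ : NoZeroDivisors A) (θ : A),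
      Nonempty (Basis (Fin g.natDegree) ℤ A) ∧ aeval θ g = 0 ∧ (∀ z, ∃ q : ℤ[X], aeval θ q = z) ∧
      ∀ (R : Type) [CommRing R] (t : R), aeval t g = 0 → ∃ φ : A →+* R, φ θ = t := by
  have := AdjoinRoot.isDomain_of_prime
    (hm.irreducible_iff_irreducible_map_fraction_map.mpr hirr).prime
  refine ⟨AdjoinRoot g, inferInstance, inferInstance, inferInstance, AdjoinRoot.root g,
    ⟨(AdjoinRoot.powerBasis' hm).basis⟩, AdjoinRoot.aeval_eq g ▸ AdjoinRoot.mk_self,
    fun z => ?_, fun R _ t ht => ⟨AdjoinRoot.lift (algebraMap ℤ R) t ht, AdjoinRoot.lift_root _⟩⟩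
  obtain ⟨q, rfl⟩ := AdjoinRoot.mk_surjective z
  exact ⟨q, AdjoinRoot.aeval_eq q⟩

lemma exists_dual (A : Type) [CommRing A] [Module.Free ℤ A] [Module.Finite ℤ A] [Nontrivial A]
    [NoZeroDivisors A] : ∃ r : ℤ, r ≠ 0 ∧ ∀ M, r ∣ M → Dual A M := by
  let b := Module.Free.chooseBasis ℤ A
  have h1 : ∀ (c : _ → ℤ) j, Algebra.trace ℤ A (b.equivFun.symm c * b j) =
      Matrix.vecMul c (Algebra.traceMatrix ℤ b) j := fun c j => by
    simp only [Basis.equivFun_symm_apply, Finset.sum_mul, smul_mul_assoc, map_sum, map_smul,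
      Matrix.vecMul, dotProduct, Algebra.traceMatrix_apply, Algebra.traceForm_apply, smul_eq_mul]
  refine ⟨(Algebra.traceMatrix ℤ b).det, fun h => ?_, ?_⟩
  · obtain ⟨c, hc, h2⟩ := Matrix.exists_vecMul_eq_zero_iff.mpr h
    obtain ⟨r, h3, w, h4⟩ := (Algebra.IsIntegral.isIntegral (R := ℤ)
      (b.equivFun.symm c)).isAlgebraic.exists_nonzero_dvd (mem_nonZeroDivisors_of_ne_zero
        (mt (LinearEquiv.map_eq_zero_iff _).mp hc))
    have h5 : Algebra.trace ℤ A ∘ₗ LinearMap.mulLeft ℤ (b.equivFun.symm c) = 0 :=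
      b.ext fun j => (h1 c j).trans (congrFun h2 j)
    have h6 := LinearMap.congr_fun h5 w
    rw [LinearMap.comp_apply, LinearMap.mulLeft_apply, ← h4, Algebra.trace_algebraMap] at h6
    simp [h3, Module.finrank_pos.ne'] at h6
  · rintro _ ⟨k, rfl⟩ φ
    set z := b.equivFun.symm (k • Matrix.vecMul (fun j => φ (b j))
      (Algebra.traceMatrix ℤ b).adjugate) with hz
    have h2 : Algebra.trace ℤ A ∘ₗ LinearMap.mulLeft ℤ z =
        ((Algebra.traceMatrix ℤ b).det * k) • φ := b.ext fun j => by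
      rw [LinearMap.comp_apply, LinearMap.mulLeft_apply, hz, h1, Matrix.smul_vecMul,
        Matrix.vecMul_vecMul, Matrix.adjugate_mul, Matrix.vecMul_smul, Matrix.vecMul_one]
      simp only [Pi.smul_apply, smul_eq_mul, LinearMap.smul_apply]
      ring
    exact ⟨z, fun w => LinearMap.congr_fun h2 w⟩

lemma card_rts_le {g : ℤ[X]} (hm : g.Monic) {q : ℕ} (hq : q.Prime) :
    (rts g q).card ≤ g.natDegree := by
  have : Fact q.Prime := ⟨hq⟩
  refine le_trans ?_ ((Multiset.toFinset_card_le _).trans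
    ((card_roots' (g.map (algebraMap ℤ (ZMod q)))).trans natDegree_map_le))
  refine Finset.card_le_card_of_injOn (fun t : ℕ => (t : ZMod q)) (fun t ht => ?_)
    fun t ht t' ht' h => ?_
  · rw [mem_coe, Multiset.mem_toFinset, mem_roots (hm.map _).ne_zero, IsRoot.def, eval_map,
      ← aeval_def]
    exact mem_rts ht
  · rw [← ZMod.val_cast_of_lt (mem_range.mp (mem_filter.mp ht).1),
      ← ZMod.val_cast_of_lt (mem_range.mp (mem_filter.mp ht').1)]
    exact congrArg _ h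

variable {J : Type} [Fintype J] {g : J → ℤ[X]}

lemma sum_Vd (hm : ∀ j, (g j).Monic) (i : J) : ∃ κ : J → ℝ, (∀ j, |κ j| = 1) ∧ ∀ y : J → ℝ,
    ∑ S with Vd g i S, ∏ j ∈ S, y j = (∏ j, (1 + y j) + ∏ j, (1 + κ j * y j)) / 2 := by
  refine ⟨fun j => (-1) ^ (g j).natDegree * if j = i then -1 else 1, fun j => by
    beta_reduce
    split_ifs <;> simp, fun y => ?_⟩
  rw [Finset.prod_one_add, Finset.prod_one_add, ← Finset.sum_add_distrib, Finset.sum_div,
    powerset_univ, Finset.sum_filter]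
  refine Finset.sum_congr rfl fun S _ => ?_
  rw [Finset.prod_mul_distrib, Finset.prod_mul_distrib, Finset.prod_pow_eq_pow_sum,
    Finset.prod_ite_eq', Vd, natDegree_prod_of_monic _ _ fun j _ => hm j]
  rcases Nat.even_or_odd (∑ j ∈ S, (g j).natDegree) with h | h
  · by_cases h1 : i ∈ S <;> simp [h1, h.neg_one_pow, Nat.not_odd_iff_even.mpr h]
  · by_cases h1 : i ∈ S <;> simp [h1, h.neg_one_pow, h]

lemma Vd_nonneg (hm : ∀ j, (g j).Monic) (i : J) (y : J → ℝ) (hy : ∀ j, |y j| ≤ 1) :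
    0 ≤ ∑ S with Vd g i S, ∏ j ∈ S, y j := by
  obtain ⟨κ, h1, h2⟩ := sum_Vd hm i
  rw [h2]
  refine div_nonneg (add_nonneg (Finset.prod_nonneg fun j _ => ?_)
    (Finset.prod_nonneg fun j _ => ?_)) zero_le_two
  · linarith [neg_abs_le (y j), hy j]
  · have := neg_abs_le (κ j * y j)
    rw [abs_mul, h1, one_mul] at this
    linarith [hy j]

lemma card_Vd (hm : ∀ j, (g j).Monic) (i : J) :
    2 ^ (Fintype.card J - 1) ≤ (univ.filter (Vd g i)).card := by
  obtain ⟨κ, h1, h2⟩ := sum_Vd hm i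
  have h3 := h2 fun _ => 1
  have h4 : 0 ≤ ∏ j, (1 + κ j * 1) := Finset.prod_nonneg fun j _ => by
    linarith [neg_abs_le (κ j), h1 j]
  obtain ⟨k, hk⟩ := Nat.exists_eq_succ_of_ne_zero (Fintype.card_pos_iff.mpr ⟨i⟩).ne'
  simp only [prod_const_one, sum_const, nsmul_eq_mul, mul_one, prod_const, card_univ, hk,
    one_add_one_eq_two, pow_succ] at h3 h4
  rw [hk, Nat.succ_sub_one, ← Nat.cast_le (α := ℝ), h3]
  push_cast
  linarith

end Pool.Agent.P.MP_ab3ecb_nt
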