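import Pool.Agent.P.MP_ab3ecb_nt.Small

/-!
A bilinear bound for characters evaluated at products of small generators.
-/

namespace Pool.Agent.P.MP_ab3ecb_nt

open Module Finset Function
open scoped Classical

set_option maxHeartbeats 400000
set_option linter.unusedSectionVars false

variable {A : Type} [CommRing A] {n : ℕ} (b : Basis (Fin n) ℤ A)

/-- The box of side `2 T + 1`. -/
noncomputable def box (n T : ℕ) : Finset (Fin n → ℤ) :=
  Fintype.piFinset fun _ => Icc (-T : ℤ) T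

lemma card_box (n T : ℕ) : (box n T).card = (2 * T + 1) ^ n := by
  rw [box, Fintype.card_piFinset, Finset.prod_const, Int.card_Icc, card_univ, Fintype.card_fin]
  congr 1
  omega

lemma le_card_class (T Q : ℕ) [NeZero Q] (r : ZMod Q) :
    (2 * T + 1) / Q ≤ ((Icc (-T : ℤ) T).filter fun x : ℤ => (x : ZMod Q) = r).card := by
  rw [← card_range ((2 * T + 1) / Q)]
  refine Finset.card_le_card_of_injOn (fun j : ℕ => -(T : ℤ) + ((r + (T : ZMod Q)).val : ℕ) + j * Q) (fun j hj => ?_)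
    fun j _ j' _ h => ?_
  · have h1 := ZMod.val_lt (r + (T : ZMod Q))
    have h2 := (Nat.le_div_iff_mul_le (NeZero.pos Q)).mp (mem_range.mp (mem_coe.mp hj))
    rw [Nat.succ_mul] at h2
    refine mem_coe.mpr (mem_filter.mpr ⟨mem_Icc.mpr ?_, by simp⟩)
    beta_reduce
    rw [← Nat.cast_mul]
    omega
  · simpa [NeZero.ne Q] using h

lemma box_sum (φ : A → ℝ) (hb : ∀ z, |φ z| ≤ 1) {Q : ℕ} (hQ : Q ≠ 0)
    (hper : ∀ x y, φ (x + Q * y) = φ x) {γ γ' : A} (hγ : (Q : A) ∣ γ * γ' - 1)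
    (hneg : ∀ x, φ (γ * x) = -φ x) (T : ℕ) :
    |∑ c ∈ box n T, φ (b.equivFun.symm c)| ≤ n * Q * (2 * T + 1) ^ (n - 1) := by
  have : NeZero Q := ⟨hQ⟩
  let red : A → Fin n → ZMod Q := fun z k => b.equivFun z k
  let lift : (Fin n → ZMod Q) → A := fun r => b.equivFun.symm fun k => (r k).val
  have h1 : ∀ r, red (lift r) = r := fun r => funext fun k => by
    simp only [red, lift, LinearEquiv.apply_symm_apply, Int.cast_natCast, ZMod.natCast_zmod_val]
  have h2 : ∀ x y, red x = red y ↔ (Q : A) ∣ x - y := fun x y => by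
    simp only [dvd_iff_repr b, funext_iff, red, map_sub, Finsupp.sub_apply, Basis.equivFun_apply]
    exact forall_congr' fun k => eq_comm.trans (ZMod.intCast_eq_intCast_iff_dvd_sub _ _ _)
  have h3 : ∀ x, φ (lift (red x)) = φ x := fun x => by
    obtain ⟨y, hy⟩ := (h2 _ _).mp (h1 (red x))
    rw [sub_eq_iff_eq_add'.mp hy, hper]
  have h4 : ∑ r, φ (lift r) = 0 := by
    have k1 : Injective fun r => red (γ * lift r) := fun r r' h => by
      obtain ⟨y, hy⟩ := (h2 _ _).mp h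
      obtain ⟨w, hw⟩ := hγ
      rw [← h1 r, ← h1 r', h2]
      exact ⟨γ' * y - w * (lift r - lift r'), by
        linear_combination γ' * hy - (lift r - lift r') * hw⟩
    have k2 := (Finite.injective_iff_bijective.mp k1).sum_comp fun r => φ (lift r)
    simp only [h3, hneg, Finset.sum_neg_distrib] at k2
    linarith
  set m := (2 * T + 1) / Q with hm
  set cnt : (Fin n → ZMod Q) → ℕ := fun r =>
    ((box n T).filter fun c => red (b.equivFun.symm c) = r).card with hcnt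
  have h5 : ∀ r, m ^ n ≤ cnt r := fun r => by
    have : ((box n T).filter fun c => red (b.equivFun.symm c) = r) = Fintype.piFinset fun k =>
        (Icc (-T : ℤ) T).filter fun x : ℤ => (x : ZMod Q) = r k := by
      ext c
      simp only [box, red, LinearEquiv.apply_symm_apply, mem_filter, Fintype.mem_piFinset,
        funext_iff, forall_and]
    simp only [hcnt, this, Fintype.card_piFinset]
    simpa using Finset.pow_card_le_prod univ _ m fun k _ => le_card_class T Q (r k)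
  have h6 : ∑ c ∈ box n T, φ (b.equivFun.symm c) = ∑ r, ((cnt r : ℝ) - m ^ n) * φ (lift r) := by
    simp only [sub_mul, Finset.sum_sub_distrib, ← Finset.mul_sum, h4, mul_zero, sub_zero]
    rw [← Finset.sum_fiberwise (g := fun c => red (b.equivFun.symm c))]
    refine Finset.sum_congr rfl fun r _ => ?_
    rw [← nsmul_eq_mul, ← Finset.sum_const]
    exact Finset.sum_congr rfl fun c hc => by rw [← (mem_filter.mp hc).2, h3]
  have h7 : ∑ r, (cnt r : ℝ) = (2 * T + 1) ^ n := by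
    have := Finset.card_eq_sum_card_fiberwise (s := box n T) (t := univ)
      (f := fun c => red (b.equivFun.symm c)) fun _ _ => mem_coe.mpr (mem_univ _)
    rw [card_box] at this
    exact_mod_cast this.symm
  have h8 : ((m * Q : ℕ) : ℝ) ≤ 2 * T + 1 := by exact_mod_cast Nat.div_mul_le_self _ _
  have h9 : 2 * (T : ℝ) + 1 ≤ (m * Q : ℕ) + Q := by
    exact_mod_cast (Nat.lt_div_mul_add (NeZero.pos Q)).le
  calc _ ≤ ∑ r, ((cnt r : ℝ) - m ^ n) := by
        rw [h6]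
        refine (Finset.abs_sum_le_sum_abs _ _).trans (Finset.sum_le_sum fun r _ => ?_)
        have : (0 : ℝ) ≤ cnt r - m ^ n := sub_nonneg.mpr (by exact_mod_cast h5 r)
        rw [abs_mul, abs_of_nonneg this]
        exact mul_le_of_le_one_right this (hb _)
    _ = (2 * T + 1) ^ n - ((m * Q : ℕ) : ℝ) ^ n := by
        rw [Finset.sum_sub_distrib, h7]
        simp [mul_pow, mul_comm]
    _ ≤ _ := by
        refine (le_abs_self _).trans ((abs_pow_sub_pow_le _ _ _).trans ?_)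
        rw [abs_of_nonneg (sub_nonneg.mpr h8), abs_of_nonneg (by positivity),
          abs_of_nonneg (by positivity), max_eq_left h8, mul_comm (n : ℝ)]
        gcongr
        linarith

variable {ι : Type} [Fintype ι] [DecidableEq ι] (pr : ι → ℕ) (hp : ∀ a, (pr a).Prime)
  (hinj : Injective pr)

include hp hinj in
lemma orth_sum (χ : ι → A → ℝ) {t t' : Finset ι} (ht : ∀ a ∈ t, Ch (pr a) (χ a))
    (ht' : ∀ a ∈ t', Ch (pr a) (χ a)) {a0 : ι} (h0 : a0 ∈ t) (h0' : a0 ∉ t') (T : ℕ) :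
    |∑ c ∈ box n T, (∏ a ∈ t, χ a (b.equivFun.symm c)) * ∏ a ∈ t', χ a (b.equivFun.symm c)|
      ≤ n * ((∏ a ∈ t, pr a) * ∏ a ∈ t', pr a : ℕ) * (2 * T + 1) ^ (n - 1) := by
  obtain ⟨γ, γ', ⟨w, h1⟩, h2⟩ := (ht a0 h0).np
  rw [← Finset.mul_prod_erase _ pr h0, mul_assoc (pr a0)]
  set Q := (∏ a ∈ t.erase a0, pr a) * ∏ a ∈ t', pr a with hQ
  have h3 : ∀ a, a ∈ t.erase a0 ∨ a ∈ t' → pr a ∣ Q := fun a ha => ha.elim
    (fun h => (Finset.dvd_prod_of_mem _ h).mul_right _) fun h =>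
      (Finset.dvd_prod_of_mem _ h).mul_left _
  obtain ⟨u, v, huv⟩ : IsCoprime (pr a0 : A) Q := by
    refine Nat.Coprime.cast ((hp a0).coprime_iff_not_dvd.mpr ?_)
    rw [hQ, (hp a0).dvd_mul, dvd_prod_iff pr hp hinj, dvd_prod_iff pr hp hinj]
    simp [h0']
  have h4 : ∀ a, Ch (pr a) (χ a) → pr a ∣ Q → χ a (u * pr a0 + v * Q * γ) = 1 := by
    rintro a ha ⟨k, hk⟩
    rw [← ha.one, ← ha.per 1 (k * v * (γ - 1))]
    congr 1
    rw [hk, Nat.cast_mul] at huv ⊢
    linear_combination huv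
  refine box_sum b (fun z => (∏ a ∈ t, χ a z) * ∏ a ∈ t', χ a z) (fun z => ?_)
    (mul_ne_zero (hp a0).ne_zero (mul_ne_zero (Finset.prod_ne_zero_iff.mpr fun a _ =>
      (hp a).ne_zero) (Finset.prod_ne_zero_iff.mpr fun a _ => (hp a).ne_zero))) (fun x y => ?_)
    (γ := u * pr a0 + v * Q * γ) (γ' := u * pr a0 + v * Q * γ') ?_ (fun x => ?_) T
  · rw [abs_mul, Finset.abs_prod, Finset.abs_prod]
    exact mul_le_one₀ (Finset.prod_le_one (fun _ _ => abs_nonneg _) fun a ha => (ht a ha).bd z)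
      (Finset.prod_nonneg fun _ _ => abs_nonneg _)
      (Finset.prod_le_one (fun _ _ => abs_nonneg _) fun a ha => (ht' a ha).bd z)
  · have : ∀ a, Ch (pr a) (χ a) → pr a ∣ pr a0 * Q → χ a (x + (pr a0 * Q : ℕ) * y) = χ a x := by
      rintro a ha ⟨k, hk⟩
      rw [hk, Nat.cast_mul, mul_assoc, ha.per]
    refine congrArg₂ _ (Finset.prod_congr rfl fun a ha => this a (ht a ha) ?_)
      (Finset.prod_congr rfl fun a ha => this a (ht' a ha) ((h3 a (Or.inr ha)).mul_left _))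
    by_cases h : a = a0
    · exact h ▸ dvd_mul_right _ _
    · exact (h3 a (Or.inl (mem_erase.mpr ⟨h, ha⟩))).mul_left _
  · refine ⟨u * v * (γ + γ' - 2) + v ^ 2 * Q * w, ?_⟩
    rw [Nat.cast_mul (pr a0) Q]
    linear_combination (v * Q) ^ 2 * h1 + (u * pr a0 + v * Q + 1) * huv
  · have k1 : χ a0 (u * pr a0 + v * Q * γ) = -1 := by
      rw [← h2, ← (ht a0 h0).per γ (u * (1 - γ))]
      congr 1
      linear_combination γ * huv
    rw [Finset.prod_congr rfl fun a ha => (ht a ha).mul _ x,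
      Finset.prod_congr rfl fun a ha => (ht' a ha).mul _ x, Finset.prod_mul_distrib,
      Finset.prod_mul_distrib, ← Finset.mul_prod_erase _ _ h0, k1,
      Finset.prod_eq_one fun a ha => h4 a (ht a (mem_of_mem_erase ha)) (h3 a (Or.inl ha)),
      Finset.prod_eq_one fun a ha => h4 a (ht' a ha) (h3 a (Or.inr ha))]
    ring

include hp hinj in
lemma card_sets_le (S : Finset (Finset ι)) {lo hi : ℕ}
    (h : ∀ s ∈ S, lo < ∏ a ∈ s, pr a ∧ ∏ a ∈ s, pr a ≤ hi) : S.card ≤ hi - lo := by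
  rw [← Nat.card_Ioc]
  exact Finset.card_le_card_of_injOn (fun s => ∏ a ∈ s, pr a)
    (fun s hs => mem_coe.mpr (mem_Ioc.mpr (h s hs))) (prod_inj pr hp hinj).injOn

include hp hinj in
lemma cs_box (χ : ι → A → ℝ) (S : Finset (Finset ι)) (B T : ℕ)
    (hS : ∀ t ∈ S, ∏ a ∈ t, pr a ≤ B ∧ ∀ a ∈ t, Ch (pr a) (χ a)) (hT : n * B ^ 3 ≤ T)
    (hn : n ≠ 0) (γ : (Fin n → ℤ) → ℝ) :
    (∑ t ∈ S, ∑ c ∈ box n T, γ c * ∏ a ∈ t, χ a (b.equivFun.symm c)) ^ 2
      ≤ (∑ c ∈ box n T, γ c ^ 2) * (2 * B * (2 * T + 1) ^ n) := by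
  have hcard : (S.card : ℝ) ≤ B := by
    exact_mod_cast card_sets_le pr hp hinj S (lo := 0) fun t ht =>
      ⟨Finset.prod_pos fun a _ => (hp a).pos, (hS t ht).1⟩
  rw [Finset.sum_comm]
  simp only [← Finset.mul_sum]
  refine (Finset.sum_mul_sq_le_sq_mul_sq _ _ _).trans
    (mul_le_mul_of_nonneg_left ?_ (Finset.sum_nonneg fun _ _ => sq_nonneg _))
  simp_rw [sq, Finset.sum_mul_sum]
  rw [Finset.sum_comm]
  have hb : ∀ t ∈ S, ∀ t' ∈ S, ∑ c ∈ box n T, (∏ a ∈ t, χ a (b.equivFun.symm c)) *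
      ∏ a ∈ t', χ a (b.equivFun.symm c) ≤ (if t = t' then (2 * T + 1 : ℝ) ^ n else 0) +
        n * (B * B) * (2 * T + 1) ^ (n - 1) := by
    intro t ht t' ht'
    split_ifs with h
    · refine le_add_of_le_of_nonneg ?_ (by positivity)
      have : ((box n T).card : ℝ) = (2 * T + 1) ^ n := by exact_mod_cast card_box n T
      rw [← this, Finset.card_eq_sum_ones, Nat.cast_sum]
      refine Finset.sum_le_sum fun c _ => (le_abs_self _).trans ?_
      rw [h, abs_mul, Finset.abs_prod, Nat.cast_one]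
      have := Finset.prod_le_one (fun _ _ => abs_nonneg _)
        fun a ha => ((hS t' ht').2 a ha).bd (b.equivFun.symm c)
      exact mul_le_one₀ this (Finset.prod_nonneg fun _ _ => abs_nonneg _) this
    · have k1 : (((∏ a ∈ t, pr a) * ∏ a ∈ t', pr a : ℕ) : ℝ) ≤ B * B := by
        exact_mod_cast Nat.mul_le_mul (hS t ht).1 (hS t' ht').1
      rw [zero_add]
      refine (le_abs_self _).trans (le_trans ?_ (mul_le_mul_of_nonneg_right
        (mul_le_mul_of_nonneg_left k1 (Nat.cast_nonneg n)) (by positivity)))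
      by_cases k2 : t ⊆ t'
      · obtain ⟨a, k3, k4⟩ := Finset.not_subset.mp fun k3 => h (Subset.antisymm k2 k3)
        simp only [mul_comm (∏ a ∈ t, _)]
        exact orth_sum b pr hp hinj χ (hS t' ht').2 (hS t ht).2 k3 k4 T
      · obtain ⟨a, k3, k4⟩ := Finset.not_subset.mp k2
        exact orth_sum b pr hp hinj χ (hS t ht).2 (hS t' ht').2 k3 k4 T
  have k1 : (n : ℝ) * B ^ 3 ≤ 2 * T + 1 := by exact_mod_cast hT.trans (by omega)
  calc _ ≤ ∑ t ∈ S, ((2 * T + 1 : ℝ) ^ n + S.card * (n * (B * B) * (2 * T + 1) ^ (n - 1))) := by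
        refine Finset.sum_le_sum fun t ht => ?_
        rw [Finset.sum_comm]
        refine (Finset.sum_le_sum (hb t ht)).trans (le_of_eq ?_)
        rw [Finset.sum_add_distrib, Finset.sum_ite_eq, if_pos ht, Finset.sum_const, nsmul_eq_mul]
    _ ≤ B * ((2 * T + 1 : ℝ) ^ n + B * (n * (B * B) * (2 * T + 1) ^ (n - 1))) := by
        rw [Finset.sum_const, nsmul_eq_mul]
        gcongr
    _ = B * ((2 * T + 1 : ℝ) ^ n + n * B ^ 3 * (2 * T + 1) ^ (n - 1)) := by ring
    _ ≤ B * ((2 * T + 1 : ℝ) ^ n + (2 * T + 1) * (2 * T + 1) ^ (n - 1)) := by gcongr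
    _ = _ := by rw [mul_pow_sub_one hn]; ring

lemma card_small_subsets (U : Finset ι) (R : ℕ) :
    (U.powerset.filter fun s => s.card ≤ R).card ≤ (U.card + 1) ^ R := by
  rw [add_pow, Finset.card_eq_sum_card_fiberwise (t := range (R + 1)) (f := Finset.card)
    fun s hs => mem_coe.mpr (mem_range.mpr (Nat.lt_succ_of_le (mem_filter.mp hs).2))]
  refine Finset.sum_le_sum fun j hj => ?_
  rw [one_pow, mul_one, Nat.cast_id]
  refine le_trans ?_ (Nat.le_mul_of_pos_right _ (Nat.choose_pos (Nat.lt_succ_iff.mp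
    (mem_range.mp hj))))
  refine le_trans (card_le_card fun s hs => ?_) ((card_powersetCard j U).le.trans
    (Nat.choose_le_pow _ _))
  exact mem_powersetCard.mpr ⟨mem_powerset.mp (mem_filter.mp (mem_filter.mp hs).1).1,
    (mem_filter.mp hs).2⟩

/-- The bilinear bound on rectangles. -/
def Rect (pr : ι → ℕ) (κ : ι → ι → ℝ) (gs gt : ι → Prop) (R Z K Y : ℕ) : Prop :=
  ∀ (α β : Finset ι → ℝ) (A B : ℕ), (∀ s, |α s| ≤ 1) → (∀ t, |β t| ≤ 1) → Y ≤ A → Y ≤ B →
    B ≤ 2 ^ K → (∀ s, α s ≠ 0 → ∏ a ∈ s, pr a ≤ A ∧ s.card ≤ R ∧ ∀ a ∈ s, gs a) →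
    (∀ t, β t ≠ 0 → ∏ a ∈ t, pr a ≤ B ∧ ∀ a ∈ t, gt a) →
    |∑ s, ∑ t, α s * β t * ∏ a ∈ s, ∏ a' ∈ t, κ a a'| ≤ A * B / Z

lemma Ch.prod {q : ℕ} {χ : A → ℝ} (h : Ch q χ) {κ : Type} (s : Finset κ) (f : κ → A) :
    χ (∏ a ∈ s, f a) = ∏ a ∈ s, χ (f a) :=
  map_prod (⟨⟨χ, h.one⟩, h.mul⟩ : A →* ℝ) f s

lemma exists_weight : ∃ (W : A → ℕ) (C : ℕ), 1 ≤ C ∧ (∀ z, sz b z ^ n ≤ W z) ∧
    (∀ z, W z ≤ C * sz b z ^ n) ∧
    ∀ (κ : Type) (s : Finset κ) (f : κ → A), W (∏ a ∈ s, f a) ≤ C * ∏ a ∈ s, W (f a) := by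
  obtain ⟨C, h1, h2⟩ := sz_mul b
  refine ⟨fun z => (C * sz b z) ^ n, C ^ n * (sz b 1 + 1) ^ n, Nat.succ_le_of_lt (by positivity),
    fun z => Nat.pow_le_pow_left (Nat.le_mul_of_pos_left _ h1) _, fun z => ?_, fun κ s f => ?_⟩
  · simp only [mul_pow]
    exact Nat.mul_le_mul_right _ (Nat.le_mul_of_pos_right _ (by positivity))
  · induction s using Finset.induction_on with
    | empty =>
      simp only [prod_empty, mul_one, mul_pow]
      gcongr
      omega
    | insert a s ha ih =>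
      rw [Finset.prod_insert ha, Finset.prod_insert ha, mul_left_comm]
      refine le_trans ?_ (Nat.mul_le_mul_left _ ih)
      rw [← mul_pow]
      refine Nat.pow_le_pow_left ((Nat.mul_le_mul_left _ (h2 _ _)).trans (le_of_eq ?_)) _
      ring

theorem lattice_bil (hn : n ≠ 0) : ∃ C : ℕ, ∀ (ι : Type) [Fintype ι] [DecidableEq ι] (pr : ι → ℕ),
    (∀ a, (pr a).Prime) → Injective pr → ∀ (π : ι → A) (χ : ι → A → ℝ) (gs gt : ι → Prop),
    (∀ a, gs a → (∀ k, (b.repr (π a) k).natAbs ^ n ≤ pr a) ∧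
      ∀ a', (pr a' : ℤ) ∣ Algebra.norm ℤ (π a) ↔ a' = a) → (∀ a, gt a → Ch (pr a) (χ a)) →
    ∀ R Z K Y : ℕ, 1 ≤ Z → (Z ^ 2 * C ^ (R + 1) * (4 * n * K * R + 1) ^ R) ^ (8 * n) ≤ Y →
      Rect pr (fun a a' => χ a' (π a)) gs gt R Z K Y := by
  obtain ⟨W, C2, hC2, hW1, hW2, hW3⟩ := exists_weight b
  refine ⟨2 * 3 ^ n * C2 ^ 2, fun ι _ _ pr hp hinj π χ gs gt hπ hχ R Z K Y hZ hY α β A' B hα hβ
    hA hB hK hs ht => ?_⟩
  set C := 2 * 3 ^ n * C2 ^ 2 with hC
  set G := Z ^ 2 * C ^ (R + 1) * (4 * n * K * R + 1) ^ R with hG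
  have h3n : n < 3 ^ n := Nat.lt_pow_self (by norm_num)
  have hC1 : 2 * 3 ^ n ≤ C := Nat.le_mul_of_pos_right _ (by positivity)
  have hCY : C ≤ Y := by
    refine le_trans ?_ ((Nat.le_self_pow (by omega) G).trans hY)
    calc C = 1 * C ^ 1 * 1 := by ring
      _ ≤ _ := Nat.mul_le_mul (Nat.mul_le_mul (Nat.one_le_pow _ _ hZ)
        (Nat.pow_le_pow_right (by omega) (by omega))) (Nat.one_le_pow _ _ (by omega))
  have hex : B ^ (2 * n) ≤ A' ^ (2 * n * K) := by
    rw [mul_comm _ K, pow_mul A']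
    exact Nat.pow_le_pow_left (hK.trans (Nat.pow_le_pow_left (by omega) _)) _
  obtain ⟨j, hj1, hj2, hj3⟩ : ∃ j, B ^ (2 * n) ≤ A' ^ (j + 1) ∧ j + 1 ≤ 2 * n * K ∧
      Y ^ (j + 1) ≤ B ^ (4 * n) := by
    have k0 : ∃ k, B ^ (2 * n) ≤ A' ^ k := ⟨_, hex⟩
    have k1 := Nat.find_spec k0
    have k2 := Nat.find_min' k0 hex
    obtain ⟨j, hj⟩ : ∃ j, Nat.find k0 = j + 1 := Nat.exists_eq_succ_of_ne_zero fun h => by
      rw [h, pow_zero] at k1
      exact absurd k1 (not_le.mpr (Nat.one_lt_pow (by omega) (by omega)))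
    refine ⟨j, hj ▸ k1, hj ▸ k2, ?_⟩
    rcases Nat.eq_zero_or_pos j with rfl | h
    · rw [zero_add, pow_one]
      exact hB.trans (Nat.le_self_pow (by omega) _)
    · have k3 := not_le.mp (Nat.find_min k0 (m := j) (by omega))
      calc Y ^ (j + 1) ≤ A' ^ (j * 2) := (Nat.pow_le_pow_left hA _).trans
            (Nat.pow_le_pow_right (by omega) (by omega))
        _ ≤ (B ^ (2 * n)) ^ 2 := by rw [pow_mul]; exact Nat.pow_le_pow_left k3.le _
        _ = _ := by rw [← pow_mul]; congr 1; omega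
  obtain ⟨k, hk⟩ : ∃ k, k + 1 = 2 * (j + 1) := ⟨2 * j + 1, by omega⟩
  have hGB : G ^ (k + 1) ≤ B := by
    rw [← Nat.pow_le_pow_iff_left (n := 4 * n) (by omega), ← pow_mul]
    refine le_trans (le_of_eq ?_) ((Nat.pow_le_pow_left hY (j + 1)).trans hj3)
    rw [← pow_mul, hk]
    congr 1
    ring
  set S := univ.filter fun s => α s ≠ 0 with hS
  set Tt := univ.filter fun t => β t ≠ 0 with hTt
  have hS1 : ∀ s ∈ S, α s ≠ 0 := fun s h => (mem_filter.mp h).2
  have hT1 : ∀ t ∈ Tt, ∏ a ∈ t, pr a ≤ B ∧ ∀ a ∈ t, Ch (pr a) (χ a) := fun t h =>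
    ⟨(ht t (mem_filter.mp h).2).1, fun a ha => hχ a ((ht t (mem_filter.mp h).2).2 a ha)⟩
  have hpos : ∀ s : Finset ι, 0 < ∏ a ∈ s, pr a := fun s => Finset.prod_pos fun a _ => (hp a).pos
  have hSc : S.card ≤ A' := card_sets_le pr hp hinj S (lo := 0) fun s h => ⟨hpos s, (hs s (hS1 s h)).1⟩
  have hTc : Tt.card ≤ B := card_sets_le pr hp hinj Tt (lo := 0) fun s h => ⟨hpos s, (hT1 s h).1⟩
  set L : Finset ι → ℝ := fun t => ∑ s ∈ S, α s * ∏ a' ∈ t, χ a' (∏ a ∈ s, π a) with hL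
  have e1 : |∑ s, ∑ t, α s * β t * ∏ a ∈ s, ∏ a' ∈ t, χ a' (π a)| ≤ ∑ t ∈ Tt, |L t| := by
    rw [Finset.sum_comm, ← Finset.sum_subset (subset_univ Tt) fun t _ h => by
      have : β t = 0 := by simpa [hTt] using h
      simp [this]]
    refine (Finset.abs_sum_le_sum_abs _ _).trans (Finset.sum_le_sum fun t h => ?_)
    refine le_trans (le_of_eq ?_) (mul_le_of_le_one_left (abs_nonneg _) (hβ t))
    rw [← abs_mul, hL, Finset.mul_sum, ← Finset.sum_subset (subset_univ S) fun s _ h => by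
      have : α s = 0 := by simpa [hS] using h
      simp [this]]
    congr 1
    refine Finset.sum_congr rfl fun s _ => ?_
    rw [Finset.prod_comm, Finset.prod_congr rfl fun a ha => ((hT1 t h).2 a ha).prod s π]
    ring
  set P : Finset (Fin (k + 1) → Finset ι) := Fintype.piFinset fun _ => S with hP
  set pt : (Fin (k + 1) → Finset ι) → A := fun τ => ∏ i, ∏ a ∈ τ i, π a with hpt
  set N0 := (C2 ^ (R + 2) * A') ^ (k + 1) with hN0
  set T := Nat.nthRoot n N0 with hT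
  have hmaps : ∀ τ ∈ P, b.equivFun (pt τ) ∈ box n T := fun τ hτ => by
    have k1 : sz b (pt τ) ≤ T := by
      rw [hT, Nat.le_nthRoot_iff hn]
      refine (hW1 _).trans ((hW3 _ _ _).trans ?_)
      calc _ ≤ C2 * ∏ _i : Fin (k + 1), (C2 ^ (R + 1) * A') := by
            refine Nat.mul_le_mul_left _ (Finset.prod_le_prod' fun i _ => ?_)
            obtain ⟨m1, m2, m3⟩ := hs _ (hS1 _ (Fintype.mem_piFinset.mp hτ i))
            refine (hW3 _ _ _).trans ?_
            rw [pow_succ', mul_assoc]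
            refine Nat.mul_le_mul_left _ ((Finset.prod_le_prod' (g := fun a => C2 * pr a)
              fun a ha => (hW2 _).trans (Nat.mul_le_mul_left _ ?_)).trans ?_)
            · rw [← Nat.le_nthRoot_iff hn]
              exact Finset.sup_le fun i _ => (Nat.le_nthRoot_iff hn).mpr ((hπ a (m3 a ha)).1 i)
            · rw [Finset.prod_mul_distrib, Finset.prod_const]
              exact Nat.mul_le_mul (Nat.pow_le_pow_right hC2 m2) m1
        _ ≤ C2 ^ (k + 1) * (C2 ^ (R + 1) * A') ^ (k + 1) := by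
            rw [Finset.prod_const, card_univ, Fintype.card_fin]
            exact Nat.mul_le_mul_right _ (Nat.le_self_pow (by omega) _)
        _ = _ := by rw [hN0]; ring
    refine Fintype.mem_piFinset.mpr fun i => mem_Icc.mpr ?_
    have := (le_sz b (pt τ) i).trans k1
    rw [Basis.equivFun_apply]
    omega
  have hAN : A' ^ (k + 1) ≤ N0 :=
    Nat.pow_le_pow_left (Nat.le_mul_of_pos_left _ (by positivity)) _
  have hT2 : n * B ^ 3 ≤ T := by
    rw [hT, Nat.le_nthRoot_iff hn]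
    refine le_trans ?_ hAN
    calc (n * B ^ 3) ^ n ≤ (B * B ^ 3) ^ n := by gcongr; omega
      _ = (B ^ (2 * n)) ^ 2 := by ring
      _ ≤ (A' ^ (j + 1)) ^ 2 := Nat.pow_le_pow_left hj1 _
      _ = _ := by rw [hk]; ring
  have hT3 : (2 * T + 1) ^ n ≤ 3 ^ n * N0 := by
    have : 1 ≤ T := le_trans (Nat.mul_pos (by omega) (Nat.pow_pos (by omega))) hT2
    calc _ ≤ (3 * T) ^ n := Nat.pow_le_pow_left (by omega) _
      _ ≤ _ := by
        rw [mul_pow]
        exact Nat.mul_le_mul_left _ ((Nat.le_nthRoot_iff hn).mp le_rfl)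
  set γ : (Fin n → ℤ) → ℝ := fun c => ∑ τ ∈ P with b.equivFun (pt τ) = c, ∏ i, α (τ i) with hγ
  have e2 : ∀ t ∈ Tt, L t ^ (k + 1) =
      ∑ c ∈ box n T, γ c * ∏ a ∈ t, χ a (b.equivFun.symm c) := fun t h => by
    have : L t ^ (k + 1) = ∑ τ ∈ P, ∏ i, (α (τ i) * ∏ a' ∈ t, χ a' (∏ a ∈ τ i, π a)) := by
      rw [hP, ← Finset.prod_univ_sum (fun _ : Fin (k + 1) => S)
        fun _ s => α s * ∏ a' ∈ t, χ a' (∏ a ∈ s, π a), Finset.prod_const, card_univ,
        Fintype.card_fin]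
    rw [this, ← Finset.sum_fiberwise_of_maps_to hmaps]
    refine Finset.sum_congr rfl fun c _ => ?_
    rw [hγ, Finset.sum_mul]
    refine Finset.sum_congr rfl fun τ hτ => ?_
    rw [← (mem_filter.mp hτ).2, LinearEquiv.symm_apply_apply, Finset.prod_mul_distrib,
      Finset.prod_comm, Finset.prod_congr rfl fun a ha => ((hT1 t h).2 a ha).prod univ _]
  set ρ := (4 * n * K * R + 1) ^ R with hρ
  have hrep : ∀ c, (P.filter fun τ => b.equivFun (pt τ) = c).card ≤ ρ ^ (k + 1) := fun c => by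
    rcases (P.filter fun τ => b.equivFun (pt τ) = c).eq_empty_or_nonempty with h | ⟨τ0, h0⟩
    · rw [h]
      exact Nat.zero_le _
    obtain ⟨k1, k2⟩ := mem_filter.mp h0
    have k3 := fun i => hs _ (hS1 _ (Fintype.mem_piFinset.mp k1 i))
    have k4 : (univ.biUnion τ0).card ≤ 4 * n * K * R := by
      refine Finset.card_biUnion_le.trans ((Finset.sum_le_card_nsmul _ _ R
        fun i _ => (k3 i).2.1).trans ?_)
      rw [card_univ, Fintype.card_fin, smul_eq_mul]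
      exact Nat.mul_le_mul_right _ (by rw [hk]; linarith)
    calc _ ≤ (Fintype.piFinset fun _ : Fin (k + 1) =>
          (univ.biUnion τ0).powerset.filter fun s => s.card ≤ R).card := by
          refine card_le_card fun τ hτ => Fintype.mem_piFinset.mpr fun i => ?_
          obtain ⟨k5, k6⟩ := mem_filter.mp hτ
          have k7 := hs _ (hS1 _ (Fintype.mem_piFinset.mp k5 i))
          refine mem_filter.mpr ⟨mem_powerset.mpr fun a ha => ?_, k7.2.1⟩
          have k8 : (pr a : ℤ) ∣ Algebra.norm ℤ (pt τ0) := by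
            rw [← b.equivFun.injective (k6.trans k2.symm)]
            exact (((hπ a (k7.2.2 a ha)).2 a).mpr rfl).trans (map_dvd _
              ((Finset.dvd_prod_of_mem _ ha).trans
                (Finset.dvd_prod_of_mem (fun i => ∏ a ∈ τ i, π a) (mem_univ i))))
          have k9 := Nat.prime_iff_prime_int.mp (hp a)
          simp only [hpt, map_prod, k9.dvd_finsetProd_iff] at k8
          obtain ⟨i', -, a', m1, m2⟩ := k8
          rw [((hπ a' ((k3 i').2.2 a' m1)).2 a).mp m2]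
          exact mem_biUnion.mpr ⟨i', mem_univ _, m1⟩
      _ ≤ _ := by
          rw [Fintype.card_piFinset, Finset.prod_const, card_univ, Fintype.card_fin]
          exact Nat.pow_le_pow_left ((card_small_subsets _ R).trans
            (Nat.pow_le_pow_left (by omega) _)) _
  have hγb : ∀ c, |γ c| ≤ ((P.filter fun τ => b.equivFun (pt τ) = c).card : ℝ) := fun c => by
    refine (Finset.abs_sum_le_sum_abs _ _).trans ?_
    rw [Finset.card_eq_sum_ones, Nat.cast_sum]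
    refine Finset.sum_le_sum fun τ _ => ?_
    rw [Finset.abs_prod, Nat.cast_one]
    exact Finset.prod_le_one (fun _ _ => abs_nonneg _) fun i _ => hα _
  have e3 : ∑ c ∈ box n T, γ c ^ 2 ≤ (ρ : ℝ) ^ (k + 1) * (A' : ℝ) ^ (k + 1) := by
    calc _ ≤ ∑ c ∈ box n T, (ρ : ℝ) ^ (k + 1) *
          ((P.filter fun τ => b.equivFun (pt τ) = c).card : ℝ) := by
          refine Finset.sum_le_sum fun c _ => ?_
          rw [← sq_abs, sq]
          exact mul_le_mul ((hγb c).trans (by exact_mod_cast hrep c)) (hγb c) (abs_nonneg _)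
            (by positivity)
      _ = (ρ : ℝ) ^ (k + 1) * (P.card : ℝ) := by
          rw [← Finset.mul_sum, Finset.card_eq_sum_card_fiberwise hmaps, Nat.cast_sum]
      _ ≤ _ := by
          rw [hP, Fintype.card_piFinset, Finset.prod_const, card_univ, Fintype.card_fin]
          gcongr
          exact_mod_cast Nat.pow_le_pow_left hSc _
  have e4 := cs_box b pr hp hinj χ Tt B T hT1 hT2 hn γ
  rw [← Finset.sum_congr rfl e2] at e4
  have e5 : (∑ t ∈ Tt, |L t|) ^ (k + 1) ≤ (B : ℝ) ^ k * ∑ t ∈ Tt, L t ^ (k + 1) := by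
    refine (pow_sum_le_card_mul_sum_pow (fun _ _ => abs_nonneg _) k).trans ?_
    have : ∀ t, |L t| ^ (k + 1) = L t ^ (k + 1) := fun t => Even.pow_abs ⟨j + 1, by omega⟩ _
    refine mul_le_mul (pow_le_pow_left₀ (Nat.cast_nonneg _) (by exact_mod_cast hTc) k)
      (by simp only [this, le_refl]) (Finset.sum_nonneg fun _ _ => by positivity) (by positivity)
  have e6 : Z ^ (2 * (k + 1)) * ρ ^ (k + 1) * (2 * (2 * T + 1) ^ n) ≤ B * A' ^ (k + 1) := by
    refine le_trans ?_ (Nat.mul_le_mul_right _ hGB)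
    have k1 : 2 * 3 ^ n * (C2 ^ (R + 2)) ^ (k + 1) ≤ (C ^ (R + 1)) ^ (k + 1) := by
      rw [hC, mul_pow _ (C2 ^ 2), mul_pow _ ((C2 ^ 2) ^ _), ← pow_mul, ← pow_mul (2 * _)]
      refine Nat.mul_le_mul (Nat.le_self_pow (by positivity) _) ?_
      rw [← pow_mul, ← pow_mul]
      exact Nat.pow_le_pow_right hC2 (by nlinarith)
    calc _ ≤ Z ^ (2 * (k + 1)) * ρ ^ (k + 1) * (2 * (3 ^ n * N0)) := by gcongr
      _ = Z ^ (2 * (k + 1)) * ρ ^ (k + 1) * (2 * 3 ^ n * (C2 ^ (R + 2)) ^ (k + 1)) *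
          A' ^ (k + 1) := by rw [hN0]; ring
      _ ≤ Z ^ (2 * (k + 1)) * ρ ^ (k + 1) * (C ^ (R + 1)) ^ (k + 1) * A' ^ (k + 1) := by gcongr
      _ = _ := by rw [hG]; ring
  have e7 : (Z : ℝ) ^ (2 * (k + 1)) * ρ ^ (k + 1) * (2 * (2 * T + 1) ^ n) ≤ B * A' ^ (k + 1) := by
    exact_mod_cast e6
  have hZ0 : (0 : ℝ) < Z := by exact_mod_cast hZ
  refine e1.trans ?_
  rw [le_div_iff₀ hZ0]
  refine le_of_pow_le_pow_left₀ (n := 2 * (k + 1)) (by omega) (by positivity) ?_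
  calc _ = ((∑ t ∈ Tt, |L t|) ^ (k + 1)) ^ 2 * Z ^ (2 * (k + 1)) := by ring
    _ ≤ ((B : ℝ) ^ k * ∑ t ∈ Tt, L t ^ (k + 1)) ^ 2 * Z ^ (2 * (k + 1)) := by gcongr
    _ = (B : ℝ) ^ (2 * k) * (∑ t ∈ Tt, L t ^ (k + 1)) ^ 2 * Z ^ (2 * (k + 1)) := by ring
    _ ≤ (B : ℝ) ^ (2 * k) * ((ρ : ℝ) ^ (k + 1) * (A' : ℝ) ^ (k + 1) *
        (2 * B * (2 * T + 1) ^ n)) * Z ^ (2 * (k + 1)) := by
        gcongr
        exact e4.trans (mul_le_mul_of_nonneg_right e3 (by positivity))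
    _ = (B : ℝ) ^ (2 * k + 1) * A' ^ (k + 1) *
        ((Z : ℝ) ^ (2 * (k + 1)) * ρ ^ (k + 1) * (2 * (2 * T + 1) ^ n)) := by ring
    _ ≤ (B : ℝ) ^ (2 * k + 1) * A' ^ (k + 1) * (B * A' ^ (k + 1)) := by gcongr
    _ = _ := by ring

end Pool.Agent.P.MP_ab3ecb_nt
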