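import Pool.Agent.P.MP_ab3ecb_nt.Model
import Pool.Agent.P.MP_ab3ecb_nt.ELS

/-!
Almost all quadratic twists without a rational branch point have empty Brauer-Manin set.
-/

namespace Pool.Agent.P.MP_ab3ecb_nt

open Polynomial Finset Filter Topology Asymptotics Module
open scoped Classical

set_option maxHeartbeats 400000
set_option linter.unusedSectionVars false

variable {J : Type} [Fintype J]

/-- The root with a given label. -/
noncomputable def rt (g : J → ℤ[X]) {N : ℕ} (q : ℕ) (l : J × Fin N) : ℕ :=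
  (rts (g l.1) q).toList.getD l.2 0

/-- The labels of roots modulo `q`. -/
noncomputable def RR (g : J → ℤ[X]) (N q : ℕ) : Finset (J × Fin N) :=
  univ.filter fun l => (l.2 : ℕ) < (rts (g l.1) q).card

variable {g : J → ℤ[X]} {N q : ℕ}

lemma rt_mem {l : J × Fin N} (h : l ∈ RR g N q) : rt g q l ∈ rts (g l.1) q := by
  rw [rt, List.getD_eq_getElem _ _ (by simpa using (mem_filter.mp h).2), ← Finset.mem_toList]
  exact List.getElem_mem _

lemma exists_label {j : J} {t : ℕ} (h : t ∈ rts (g j) q) (hN : (rts (g j) q).card ≤ N) :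
    ∃ m : Fin N, (j, m) ∈ RR g N q ∧ rt g q (j, m) = t := by
  obtain ⟨m, h1, h2⟩ := List.getElem_of_mem (Finset.mem_toList.mpr h)
  have h3 : m < (rts (g j) q).card := by simpa using h1
  exact ⟨⟨m, h3.trans_le hN⟩, mem_filter.mpr ⟨mem_univ _, h3⟩,
    (List.getD_eq_getElem _ _ h1).trans h2⟩

lemma card_RR (i : J) : ((RR g N q).filter fun l => l.1 = i).card ≤ (rts (g i) q).card := by
  refine le_trans (Finset.card_le_card_of_injOn (fun l => (l.2 : ℕ)) (fun l hl => ?_)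
    fun l hl l' hl' h => ?_) (card_range _).le
  · obtain ⟨h1, rfl⟩ := mem_filter.mp (mem_coe.mp hl)
    exact mem_coe.mpr (mem_range.mpr (mem_filter.mp h1).2)
  · exact Prod.ext ((mem_filter.mp (mem_coe.mp hl)).2.trans
      (mem_filter.mp (mem_coe.mp hl')).2.symm) (Fin.ext h)

lemma exists_sg (V : Finset (Finset J)) (c : Finset J → ℝ) : ∃ x : J → ℝ, (∀ j, |x j| ≤ 1) ∧
    ∀ y : J → ℝ, (∀ j, y j * y j = 1) → (∀ S ∈ V, ∏ j ∈ S, y j = c S) →
      ∀ S ∈ V, ∏ j ∈ S, (x j * y j) = 1 := by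
  by_cases h : ∃ y : J → ℝ, (∀ j, y j * y j = 1) ∧ ∀ S ∈ V, ∏ j ∈ S, y j = c S
  · obtain ⟨x, h1, h2⟩ := h
    refine ⟨x, fun j => abs_le_one_iff_mul_self_le_one.mpr (h1 j).le, fun y _ h3 S hS => ?_⟩
    rw [Finset.prod_mul_distrib, h3 S hS, ← h2 S hS, ← Finset.prod_mul_distrib]
    exact Finset.prod_eq_one fun j _ => h1 j
  · exact ⟨0, by simp, fun y h1 h2 => absurd ⟨y, h1, h2⟩ h⟩

variable {A : J → Type} [∀ j, CommRing (A j)] [∀ j, Module.Free ℤ (A j)]
  [∀ j, Module.Finite ℤ (A j)] [∀ j, Nontrivial (A j)] {θ : ∀ j, A j} {M : ℕ} {e : ℤ}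

lemma Gd.Xc_sq (h : Gd g θ M e) (hq : q.Prime) {i j : J} {t : ℕ} (ht : t ∈ rts (g j) q)
    {z : A i} (hz : ¬ (q : ℤ) ∣ Algebra.norm ℤ z) :
    Xc (θ i) q (j = i) t z * Xc (θ i) q (j = i) t z = 1 := by
  have : Fact q.Prime := ⟨hq⟩
  rw [Xc, chi_eq, ← sq]
  refine quadraticChar_sq_one (mul_ne_zero (mt (ZMod.intCast_zmod_eq_zero_iff_dvd _ q).mp hz) ?_)
  split_ifs with h1
  · obtain ⟨lb, hlb⟩ := (h.st i).lift _ _ (h1 ▸ mem_rts ht)
    rw [(h.st i).lam_eq hlb]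
    exact ne_zero_of_norm lb hz
  · exact one_ne_zero

theorem Gd.count [Nonempty J] (h : Gd g θ M e)
    (hirr : ∀ j, Irreducible ((g j).map (algebraMap ℤ ℚ))) (hdeg : ∀ j, 2 ≤ (g j).natDegree)
    (b : ∀ j, Basis (Fin (g j).natDegree) ℤ (A j)) (hsm : ∀ j (p : ℕ), p.Prime →
      ∀ lb : A j →+* ZMod p, ∃ π, Small (b j) M p π ∧ lb π = 0) :
    ∃ (c : ℝ) (L T : Type) (_ : Fintype L) (_ : Fintype T) (σ : T → St J L ℕ), 0 < c ∧
      (∀ ε, (fun X : ℕ => (((Qs M X).powerset.filter fun s => ∏ p ∈ s, p ≤ X ∧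
        (σ ε).Surv s).card : ℝ)) =O[atTop] fun X : ℕ => (X : ℝ) / Real.log X ^ c) ∧
      ∀ (d : ℤ) (E : Type) [Field E] [CharZero E] (x y : E), Squarefree d →
        ((e * d : ℤ) : E) * y ^ 2 = aeval x (∏ j, g j) → ∀ P : Adelic E, InBM P →
          ∃ ε, (σ ε).Surv (gp M d) := by
  obtain ⟨om, μ, c, C, m1, m2, c0, c1, hom, H⟩ := nf_weights g hirr hdeg
  obtain ⟨cc, hcc⟩ := h.local_cond
  choose T hT τ hτ using fun i => finRel_bad (b i) h.M0
  have hπ : ∀ (i : J) (p t : ℕ), ∃ π : A i, (p : ℤ) ∣ Algebra.norm ℤ π ∧ (p.Prime →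
      t ∈ rts (g i) p → Small (b i) M p π ∧ Gen (θ i) M p t π) := fun i p t => by
    by_cases h1 : p.Prime ∧ t ∈ rts (g i) p
    · obtain ⟨lb, hlb⟩ := (h.st i).lift _ _ (mem_rts h1.2)
      obtain ⟨π, h2, h3⟩ := hsm i p h1.1 lb
      obtain ⟨m, h4, h5⟩ := h2.2
      exact ⟨π, ⟨m, h5⟩, fun _ _ => ⟨h2, h2.2, ((h.st i).lam_eq hlb π).trans h3⟩⟩
    · exact ⟨0, by simp [Algebra.norm_zero], fun h2 h3 => absurd ⟨h2, h3⟩ h1⟩
  choose π hπ0 hπ using hπ
  set N := ∑ j, (g j).natDegree with hN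
  choose sg hsg1 hsg2 using fun (ε : ∀ i, T i → Finset J → Bool) (a : ℕ) (l : J × Fin N) =>
    exists_sg (univ.filter (Vd g l.1)) fun S => cc l.1 S a (rt g a l) (π l.1 a (rt g a l)) *
      if ε l.1 (τ l.1 (π l.1 a (rt g a l))) S then -1 else 1
  choose C0 hC0 using fun i => lattice_bil (b i) (by have := hdeg i; omega)
  have hQ : ∀ {X} (a : Qs M X), (a : ℕ).Prime ∧ ¬ (a : ℕ) ∣ M := fun a => (mem_filter.mp a.2).2
  refine ⟨c / 2, J × Fin N, ∀ i, T i → Finset J → Bool, inferInstance, Fintype.ofFinite _,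
    fun ε => ⟨Prod.fst, fun i => univ.filter (Vd g i), sg ε, RR g N, id, fun a l q l' =>
      Xc (θ l.1) q (l'.1 = l.1) (rt g q l') (π l.1 a (rt g a l)), om, 0, 0, 0⟩, half_pos c0,
    fun ε => moment2 _ M (C := C) m1 m2 c0 c1 (fun p => (hom p).1) (fun X Y h' k1 k2 =>
      ⟨Vd_nonneg h.mon, card_Vd h.mon, fun a => hsg1 ε a, fun a l q l' => abs_jac_le _ _,
        fun a l l' => ?_, fun a => le_trans (by norm_num) (hom a).1, fun a => (hom a).2, k1, k2,
        fun a => (hQ a).1, Subtype.val_injective⟩) ?_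
      (∑ i, (C0 i + 4 * (g i).natDegree) + 1) (∑ i, 8 * (g i).natDegree)
      fun X l l' R Z K Y hZ hY => hC0 l.1 _ _ (fun a => (hQ a).1) Subtype.val_injective
        (fun a => π l.1 a (rt g a l)) (fun q z => Xc (θ l.1) q (l'.1 = l.1) (rt g q l') z) _ _
        (fun a ha => ?_) (fun q hq => ?_) R Z K Y hZ (le_trans ?_ hY),
    fun d E _ _ x y hd hxy P hP => ?_⟩
  · have : Fact (a : ℕ).Prime := ⟨(hQ a).1⟩
    change ((Xc _ _ _ _ _ : ℤ) : ℝ) = 0
    rw [Xc, chi_eq, (ZMod.intCast_zmod_eq_zero_iff_dvd _ _).mpr (hπ0 _ _ _), zero_mul]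
    simp
  · filter_upwards [H] with s hs P hP
    refine ⟨fun i => le_trans (Finset.sum_le_sum fun p _ => ?_) ((hs P hP).1 i), (hs P hP).2⟩
    have := (hom p).1
    change μ * om p * _ * _ ≤ _
    gcongr
    exact card_RR i
  · obtain ⟨k1, k2⟩ := hπ l.1 a _ (hQ a).1 (rt_mem ha)
    refine ⟨k1.1, fun a' => ⟨fun k3 => ?_, fun k3 => k3 ▸ hπ0 _ _ _⟩⟩
    by_contra k4
    exact k2.not_dvd (hQ a).1 (hQ a').1 (hQ a').2 (fun k5 => k4 (Subtype.ext k5)) k3
  · exact ch_Xc (b l.1) (h.st l.1) (hdeg l.1) (h.du l.1) (hQ q).1 (h.ne_two (hQ q).2)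
      (mt Int.natCast_dvd_natCast.mp (hQ q).2) fun k1 => k1 ▸ mem_rts (rt_mem hq)
  · have k1 := Finset.single_le_sum (f := fun i => C0 i + 4 * (g i).natDegree)
      (fun _ _ => Nat.zero_le _) (mem_univ l.1)
    refine le_trans (Nat.pow_le_pow_left ?_ _) (Nat.pow_le_pow_right (by positivity)
      (Finset.single_le_sum (f := fun i => 8 * (g i).natDegree) (fun _ _ => Nat.zero_le _)
        (mem_univ l.1)))
    gcongr <;> omega
  obtain ⟨cls, ρ, h1, h2⟩ := hcc d E x y hd hxy P hP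
  have hd0 := hd.ne_zero
  have hlab : ∀ q, ∃ l : J × Fin N, q ∈ gp M d → l.1 = cls q ∧ l ∈ RR g N q ∧ rt g q l = ρ q := by
    intro q
    by_cases hq : q ∈ gp M d
    · obtain ⟨m, k1, k2⟩ := exists_label (h1 q hq) ((card_rts_le (h.mon _)
        ((mem_gp hd0).mp hq).1).trans (Finset.single_le_sum (f := fun j => (g j).natDegree)
          (fun _ _ => Nat.zero_le _) (mem_univ _)))
      exact ⟨_, fun _ => ⟨rfl, k1, k2⟩⟩
    · obtain ⟨j⟩ : Nonempty J := inferInstance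
      exact ⟨(j, ⟨0, (lt_of_lt_of_le two_pos (hdeg j)).trans_le (Finset.single_le_sum
        (f := fun j => (g j).natDegree) (fun _ _ => Nat.zero_le _) (mem_univ j))⟩),
        fun k => absurd k hq⟩
  choose lab hlab using hlab
  set val : ∀ i, Finset J → ℕ → ℤ := fun i S p => cc i S p (ρ p) (π i p (ρ p)) *
    ∏ q ∈ (gp M d).erase p, Xs θ i S q (cls q) (ρ q) (π i p (ρ p)) with hval
  refine ⟨fun i t S => decide (∃ q ∈ gp M d, cls q = i ∧ τ i (π i q (ρ q)) = t ∧ val i S q = -1),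
    lab, fun p hp => ⟨(hlab p hp).2.1, ?_⟩⟩
  obtain ⟨k1, -, k2⟩ := hlab p hp
  generalize lab p = l at k1 k2 ⊢
  obtain ⟨i, m⟩ := l
  obtain rfl : i = cls p := k1
  have hg : ∀ q ∈ gp M d, cls q = cls p → Small (b (cls p)) M q (π (cls p) q (ρ q)) ∧
      Gen (θ (cls p)) M q (ρ q) (π (cls p) q (ρ q)) := fun q hq k =>
    hπ _ q _ ((mem_gp hd0).mp hq).1 (k ▸ h1 q hq)
  have hsq : ∀ q ∈ (gp M d).erase p, Xc (θ (cls p)) q (cls q = cls p) (ρ q) (π (cls p) p (ρ p)) *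
      Xc (θ (cls p)) q (cls q = cls p) (ρ q) (π (cls p) p (ρ p)) = 1 := fun q hq => by
    obtain ⟨k3, k4⟩ := mem_erase.mp hq
    obtain ⟨k5, -, k6⟩ := (mem_gp hd0).mp k4
    exact h.Xc_sq k5 (h1 q k4) ((hg p hp rfl).2.not_dvd ((mem_gp hd0).mp hp).1 k5 k6 k3)
  have e1 : ∀ j, ∏ q ∈ @Finset.erase _ (fun a b => Classical.propDecidable (a = b)) (gp M d) p with
      (lab q).1 = j, (Xc (θ (cls p)) q ((lab q).1 = cls p) (rt g q (lab q))
        (π (cls p) p (rt g p (cls p, m))) : ℝ) = ((∏ q ∈ (gp M d).erase p, if cls q = j then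
          Xc (θ (cls p)) q (cls q = cls p) (ρ q) (π (cls p) p (ρ p)) else 1 : ℤ) : ℝ) := by
    intro j
    rw [Finset.prod_filter, Int.cast_prod]
    refine Finset.prod_congr (by ext; simp) fun q hq => ?_
    obtain ⟨k3, -, k4⟩ := hlab q (mem_of_mem_erase hq)
    rw [k3, k4, k2]
    split_ifs <;> simp
  refine hsg2 _ p (cls p, m) _ (fun j => ?_) fun S hS => ?_
  · rw [e1, ← Int.cast_mul, ← Finset.prod_mul_distrib, Finset.prod_eq_one, Int.cast_one]
    intro q hq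
    split_ifs
    · exact hsq q hq
    · rfl
  · obtain ⟨k3, k4⟩ := h2 (cls p) S (mem_filter.mp hS).2
    have k5 := k3 p hp rfl _ (hg p hp rfl).2
    have k6 : ∏ q ∈ (gp M d).erase p, Xs θ (cls p) S q (cls q) (ρ q) (π (cls p) p (ρ p)) = 1 ∨
        ∏ q ∈ (gp M d).erase p, Xs θ (cls p) S q (cls q) (ρ q) (π (cls p) p (ρ p)) = -1 := by
      rw [← mul_self_eq_one_iff, ← Finset.prod_mul_distrib]
      refine Finset.prod_eq_one fun q hq => ?_
      unfold Xs
      split_ifs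
      · exact hsq q hq
      · rfl
    have k7 : (∃ q ∈ gp M d, cls q = cls p ∧ τ (cls p) (π (cls p) q (ρ q)) =
        τ (cls p) (π (cls p) p (ρ p)) ∧ val (cls p) S q = -1) ↔ val (cls p) S p = -1 := by
      refine ⟨?_, fun k => ⟨p, hp, rfl, rfl, k⟩⟩
      rintro ⟨q, hq, m3, m4, m5⟩
      by_cases m6 : q = p
      · exact m6 ▸ m5
      have m7 := k4 q hq p hp m6 m3 rfl _ _ (hg q hq m3).2 (hg p hp rfl).2
        (hτ _ _ _ ⟨q, ((mem_gp hd0).mp hq).1, ((mem_gp hd0).mp hq).2.2, (hg q hq m3).1⟩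
          ⟨p, ((mem_gp hd0).mp hp).1, ((mem_gp hd0).mp hp).2.2, (hg p hp rfl).1⟩ m4)
      exact (Int.eq_of_mul_eq_one m7).symm.trans m5
    refine (Finset.prod_congr rfl fun j _ => e1 j).trans ?_
    simp only [k2, decide_eq_true_eq]
    simp only [k7]
    simp only [hval]
    rw [← Int.cast_prod, Finset.prod_comm]
    simp only [Finset.prod_ite_eq]
    change ((∏ q ∈ (gp M d).erase p, Xs θ (cls p) S q (cls q) (ρ q) (π (cls p) p (ρ p)) : ℤ) : ℝ)
      = _
    rcases k5 with k5 | k5 <;> rcases k6 with k6 | k6 <;> simp [k5, k6]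

theorem main2 (f : ℚ[X]) (hf : Squarefree f) (hdeg : 0 < f.natDegree) (hev : Even f.natDegree)
    (hrt : ∀ t : ℚ, f.eval t ≠ 0) :
    ∃ c : ℝ, 0 < c ∧ (fun X : ℕ => (Set.ncard {d : ℤ | Squarefree d ∧ |d| ≤ X ∧
      ∃ (F : Type) (_ : Field F) (_ : CharZero F) (x y : F), IsTwist f d x y ∧
        ∃ P : Adelic F, InBM P} : ℝ)) =O[atTop] fun X : ℕ => (X : ℝ) / Real.log X ^ c := by
  obtain ⟨J, _, _, g, a, c0, e, r, hmon, hirr, hdeg2, hev2, he, hr, ⟨u, v, huv⟩, hmap⟩ :=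
    exists_model2 f hf hdeg hev hrt
  choose A _ _ _ θ hb h1 h2 h3 using fun j => exists_order (g j) (hmon j) (hirr j)
  have b := fun j => (hb j).some
  have := fun j => Module.Free.of_basis (b j)
  have := fun j => Module.Finite.of_basis (b j)
  choose rr hrr hdu using fun j => exists_dual (A j)
  choose C hC hsm using fun j => exists_small (b j)
  obtain ⟨M, hM, k1, k2, ⟨k, k3⟩, k4, k5⟩ : ∃ M : ℕ, M ≠ 0 ∧ 2 ∣ M ∧ e ∣ M ∧ r ∣ M ∧
      (∀ j, rr j ∣ M) ∧ ∀ j, C j ∣ M := by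
    refine ⟨2 * e.natAbs * r.natAbs * ∏ j, (rr j).natAbs * C j, ?_, ?_, ?_, ?_, fun j => ?_,
      fun j => ?_⟩
    · simp [he, hr, hrr, hC, Finset.prod_eq_zero_iff]
    · exact ((dvd_mul_right _ _).mul_right _).mul_right _
    · exact Int.dvd_natCast.mpr (((dvd_mul_left _ _).mul_right _).mul_right _)
    · exact Int.dvd_natCast.mpr ((dvd_mul_left _ _).mul_right _)
    · exact Int.dvd_natCast.mpr (((dvd_mul_right _ _).trans (Finset.dvd_prod_of_mem
        (fun j => (rr j).natAbs * C j) (mem_univ j))).mul_left _)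
    · exact ((dvd_mul_left _ _).trans (Finset.dvd_prod_of_mem
        (fun j => (rr j).natAbs * C j) (mem_univ j))).mul_left _
  have hgd : Gd g θ M e := ⟨hM, k1, hmon, hev2, ⟨u * Polynomial.C k, v * Polynomial.C k, by
    rw [k3, map_mul, ← huv]; ring⟩, fun j => hdu j _ (k4 j), k2, fun j => ⟨h1 j, h2 j, h3 j⟩⟩
  obtain ⟨c, L, T, _, _, σ, hc, hmom, hsurv⟩ := hgd.count hirr hdeg2 b fun j => hsm j M (k5 j)
  refine ⟨c, hc, IsBigO.trans ?_ ((IsBigO.sum (s := univ) fun ε _ => hmom ε).const_mul_left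
    (2 * 2 ^ M.primeFactors.card))⟩
  refine IsBigO.of_bound 1 (Eventually.of_forall fun X => ?_)
  rw [one_mul, Real.norm_natCast, Finset.sum_apply, Real.norm_of_nonneg
    (mul_nonneg (by positivity) (Finset.sum_nonneg fun _ _ => Nat.cast_nonneg _))]
  have key : Set.ncard {d : ℤ | Squarefree d ∧ |d| ≤ X ∧
      ∃ (F : Type) (_ : Field F) (_ : CharZero F) (x y : F), IsTwist f d x y ∧
        ∃ P : Adelic F, InBM P} ≤
      ((univ : Finset Bool) ×ˢ M.primeFactors.powerset ×ˢ univ.biUnion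
        fun ε : T => (Qs M X).powerset.filter fun s =>
          ∏ p ∈ s, p ≤ X ∧ (σ ε).Surv s).card := by
    rw [← Set.ncard_coe_finset]
    refine Set.ncard_le_ncard_of_injOn (fun d : ℤ =>
      (decide (0 ≤ d), d.natAbs.primeFactors.filter (· ∣ M), gp M d)) ?_ ?_ (Finset.finite_toSet _)
    · rintro d ⟨hd, hX, F, _, _, x, y, htw, P, hP⟩
      have hd0 := hd.ne_zero
      obtain ⟨ε, hε⟩ := hsurv d F (a * x) (c0 * y) hd (by
        rw [hmap, ← htw.2.1]
        push_cast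
        ring) P hP
      have hprod : ∏ p ∈ gp M d, p ≤ X := by
        have k1 : ∏ p ∈ gp M d, p ∣ d.natAbs :=
          (Finset.prod_dvd_prod_of_subset _ _ _ (filter_subset _ _)).trans
            (Nat.prod_primeFactors_dvd _)
        have k2 := Nat.le_of_dvd (Int.natAbs_pos.mpr hd0) k1
        have k3 : (d.natAbs : ℤ) ≤ X := by rwa [Int.natCast_natAbs]
        omega
      refine mem_coe.mpr (mem_product.mpr ⟨mem_univ _, mem_product.mpr ⟨?_, mem_biUnion.mpr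
        ⟨ε, mem_univ _, mem_filter.mpr ⟨mem_powerset.mpr fun p hp => ?_, hprod, hε⟩⟩⟩⟩)
      · refine mem_powerset.mpr fun p hp => ?_
        obtain ⟨k1, k2⟩ := mem_filter.mp hp
        exact Nat.mem_primeFactors.mpr ⟨Nat.prime_of_mem_primeFactors k1, k2, hM⟩
      · obtain ⟨k1, -, k3⟩ := (mem_gp hd0).mp hp
        exact mem_filter.mpr ⟨mem_range.mpr (Nat.lt_succ_of_le (le_trans (Finset.single_le_prod'
          (f := fun p => p) (fun p hp => ((mem_gp hd0).mp hp).1.pos) hp) hprod)), k1, k3⟩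
    · rintro d ⟨hd, -⟩ d' ⟨hd', -⟩ h
      simp only [Prod.mk.injEq, decide_eq_decide] at h
      obtain ⟨k1, k2, k3⟩ := h
      have k4 : d.natAbs = d'.natAbs := by
        rw [← Nat.prod_primeFactors_of_squarefree (Int.squarefree_natAbs.mpr hd),
          ← Nat.prod_primeFactors_of_squarefree (Int.squarefree_natAbs.mpr hd'),
          ← Finset.prod_filter_mul_prod_filter_not d.natAbs.primeFactors (· ∣ M),
          ← Finset.prod_filter_mul_prod_filter_not d'.natAbs.primeFactors (· ∣ M), k2]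
        exact congrArg _ (congrArg (fun s => ∏ p ∈ s, p) k3)
      omega
  rw [card_product, card_product, card_powerset, card_univ, Fintype.card_bool] at key
  have k2 := key.trans (Nat.mul_le_mul_left _ (Nat.mul_le_mul_left _ Finset.card_biUnion_le))
  rw [mul_assoc]
  exact_mod_cast k2

end Pool.Agent.P.MP_ab3ecb_nt
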