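import Pool.Agent.P.MP_ab3ecb_nt.Char2
import Pool.Agent.P.MP_ab3ecb_nt.Tower
import Pool.Agent.P.MP_ab3ecb_nt.Comb
import Pool.Agent.P.MP_ab3ecb_nt.Dense
import Pool.Agent.P.MP_ab3ecb_nt.ELS3
import Pool.Agent.P.MP_ab3ecb_nt.Dens3

/-!
Almost all locally soluble quadratic twists without a rational branch point have empty
Brauer-Manin set.
-/

namespace Pool.Agent.P.MP_ab3ecb_nt

open TensorProduct Polynomial Finset Filter Topology Asymptotics Module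
open scoped Classical IntermediateField

set_option maxHeartbeats 400000
set_option linter.unusedSectionVars false

lemma const_sign {S : ℕ → Prop} {v : ℕ → ℤ} (h1 : ∀ p, S p → v p * v p = 1)
    (h2 : ∀ p p', S p → S p' → p ≠ p' → v p * v p' = 1) {p : ℕ} (hp : S p) :
    v p = if ∃ q, S q ∧ v q = -1 then -1 else 1 := by
  split_ifs with h
  · obtain ⟨q, h3, h4⟩ := h
    by_cases h5 : q = p
    · exact h5 ▸ h4
    · exact (Int.eq_of_mul_eq_one (h2 q p h3 hp h5)).symm.trans h4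
  · exact (mul_self_eq_one_iff.mp (h1 p hp)).resolve_right fun h3 => h ⟨p, hp, h3⟩

variable {F : ℤ[X]} {M : ℕ} {Ω : Type} [Fintype Ω] {A : Finset Ω → Type} [∀ Φ, CommRing (A Φ)]
  [∀ Φ, IsDomain (A Φ)] [∀ Φ, CharZero (A Φ)] [∀ Φ, Module.Finite ℤ (A Φ)]
  [∀ Φ, Module.Free ℤ (A Φ)] {θ : ∀ Φ, Ω → A Φ} {fr : ℕ → Finset Ω} {rt : ∀ p : ℕ, Ω → ZMod p}
  {G : Set (Equiv.Perm Ω)}

lemma Tw.rp (h : Tw F M A θ fr rt G) {p : ℕ} (hp : p.Prime) (hM : ¬ p ∣ M)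
    (h1 : (fr p).Nonempty) : Rp F M p := by
  have : Fact p.Prime := ⟨hp⟩
  obtain ⟨c, hc⟩ := h1
  obtain ⟨φ, h2⟩ := h.red p hM _ rfl
  exact ⟨hp, hM, rt p c, by
    rw [← h2 c hc, ← map_aeval_int, ← map_aeval_int, h.root _ c hc, map_zero, map_zero]⟩

lemma Tw.fr_univ (h : Tw F M A θ fr rt G)
    (sep : ∃ u v : ℤ[X], u * F + v * derivative F = C (M : ℤ)) {p : ℕ} (hp : p.Prime)
    (hM : ¬ p ∣ M) (lb : A univ →+* ZMod p) : fr p = univ := by
  have h1 : ∀ c, aeval (lb (θ univ c)) F = 0 := fun c => by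
    rw [← map_aeval_int, h.root _ c (mem_univ c), map_zero]
  choose g h2 h3 using fun c => h.all p hp hM _ (h1 c)
  have h4 : Function.Injective g := fun a b hab => by
    by_contra h5
    obtain ⟨k, hk⟩ := h.dvd univ a (mem_univ a) b (mem_univ b) h5
    obtain ⟨u, v, h6⟩ := sep
    have h7 := congrArg (aeval (lb (θ univ a))) h6
    have h8 := congrArg (fun P => eval₂ lb (lb (θ univ a)) (derivative P)) hk
    have h9 : lb (θ univ b) = lb (θ univ a) := by rw [← h3, ← hab, h3]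
    simp only [derivative_map, eval₂_map, derivative_mul, eval₂_add, eval₂_mul, eval₂_sub, eval₂_X,
      eval₂_C, h9, sub_self, mul_zero, zero_mul, add_zero] at h8
    rw [map_add, map_mul, map_mul, h1, aeval_def _ (derivative F),
      RingHom.ext_int (algebraMap _ _) (lb.comp (Int.castRingHom _)), h8] at h7
    exact hM ((ZMod.natCast_eq_zero_iff M p).mp (by simpa using h7.symm))
  refine Finset.eq_univ_of_forall fun c => ?_
  obtain ⟨a, rfl⟩ := Finite.surjective_of_injective h4 c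
  exact h2 a

/-- The quadratic factor with roots `θ a`, `θ b`. -/
noncomputable def Hq (θ : ∀ Φ, Ω → A Φ) (Φ : Finset Ω) (a b : Ω) : (A Φ)[X] :=
  (X - C (θ Φ a)) * (X - C (θ Φ b))

lemma Hq_eval {B : Type} [CommRing B] {Φ : Finset Ω} (ρ : A Φ →+* B) (x : B) (a b : Ω) :
    (Hq θ Φ a b).eval₂ ρ x = (x - ρ (θ Φ a)) * (x - ρ (θ Φ b)) := by
  simp [Hq, eval₂_mul, eval₂_sub]

lemma Tw.dat (h : Tw F M A θ fr rt G) (hm : F.Monic) (hev : Even F.natDegree) (hM : M ≠ 0)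
    (sep : ∃ u v : ℤ[X], u * F + v * derivative F = C (M : ℤ)) (du : ∀ Φ, Dual (A Φ) M)
    (Φ : Finset Ω) (a b : Ω) :
    ∃ P : (A Φ)[X], a ∈ Φ → b ∈ Φ.erase a → Dat2 F M P (Hq θ Φ a b) := by
  by_cases h1 : a ∈ Φ ∧ b ∈ Φ.erase a
  · obtain ⟨P, hP⟩ := h.dvd Φ a h1.1 b (mem_of_mem_erase h1.2) (ne_of_mem_erase h1.2).symm
    have h2 : (Hq θ Φ a b).Monic := (monic_X_sub_C _).mul (monic_X_sub_C _)
    have h3 : P.Monic := h2.of_mul_monic_left (hP ▸ hm.map _)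
    refine ⟨P, fun _ _ => ⟨spl_of_sep h3 hm ((mul_comm _ _).trans hP.symm) hev sep, ?_, du Φ,
      by exact_mod_cast hM⟩⟩
    have h4 := congrArg natDegree hP
    rw [hm.natDegree_map, ((monic_X_sub_C _).mul (monic_X_sub_C _)).natDegree_mul h3,
      (monic_X_sub_C _).natDegree_mul (monic_X_sub_C _), natDegree_X_sub_C,
      natDegree_X_sub_C] at h4
    rw [h4] at hev
    grind
  · exact ⟨0, fun h2 h3 => absurd ⟨h2, h3⟩ h1⟩

theorem Tw.count (h : Tw F M A θ fr rt G) (hm : F.Monic) (hev : Even F.natDegree)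
    (h6 : 6 ≤ F.natDegree) (hM : M ≠ 0) (h2 : 2 ∣ M)
    (sep : ∃ u v : ℤ[X], u * F + v * derivative F = C (M : ℤ)) {e : ℤ} (he : e ∣ M)
    (du : ∀ Φ, Dual (A Φ) M) {n : Finset Ω → ℕ} (b : ∀ Φ, Basis (Fin (n Φ)) ℤ (A Φ))
    (hsm : ∀ Φ (p : ℕ), p.Prime → ∀ lb : A Φ →+* ZMod p, ∃ π, Small (b Φ) M p π ∧ lb π = 0)
    {E0 : Type} [Field E0] [CharZero E0] {D0 : ℤ} (hD0 : D0 ≠ 0) {x0 y0 : E0}
    (hxy0 : D0 * y0 ^ 2 = aeval x0 F) {P0 : Adelic E0} (hP0 : InBM P0) :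
    ∃ (L T : Type) (_ : Fintype T) (σ : T → S3 L Ω ℕ),
      (∀ ε, ∃ c : ℝ, 0 < c ∧ (fun X : ℕ => (((Qs M X).powerset.filter fun s => ∏ p ∈ s, p ≤ X ∧
        (σ ε).Surv s).card : ℝ)) =O[atTop] fun X : ℕ => X / Real.log X *
          Real.exp (∑ p ∈ (range (X + 1)).filter (Rp F M), 1 / (p : ℝ)) / Real.log X ^ c) ∧
      ∀ (d : ℤ) (E : Type) [Field E] [CharZero E] (x y : E), Squarefree d →
        ((e * d : ℤ) : E) * y ^ 2 = aeval x F → ∀ P : Adelic E, InBM P →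
          ∃ ε, (σ ε).Surv (gp M d) := by
  choose Gq hGq using h.dat hm hev hM sep du
  choose T hT τ hτ using fun Φ => finRel_bad (b Φ) hM
  have hπ : ∀ (Φ : Finset Ω) (p : ℕ), ∃ (π : A Φ) (c : Ω → Ω → ℤ), (p : ℤ) ∣ Algebra.norm ℤ π ∧
      (∀ a j, |(c a j : ℝ)| ≤ 1) ∧ (p.Prime → ¬ p ∣ M → fr p = Φ → Small (b Φ) M p π ∧
        ∃ lb : A Φ →+* ZMod p, Lf M p lb π ∧ (∀ a ∈ Φ, lb (θ Φ a) = rt p a) ∧
          ∀ a j, c a j = chi p ((Gq Φ a j).eval₂ lb (rt p a))) := fun Φ p => by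
    by_cases h1 : p.Prime ∧ ¬ p ∣ M ∧ fr p = Φ
    · have : Fact p.Prime := ⟨h1.1⟩
      obtain ⟨φ, h3⟩ := h.red p h1.2.1 Φ h1.2.2
      obtain ⟨π, h4, h5⟩ := hsm Φ p h1.1 (PadicInt.toZMod.comp φ)
      obtain ⟨m, h7, h8⟩ := h4.2
      exact ⟨π, _, ⟨m, h8⟩, fun a j => abs_jac_le _ _, fun _ _ _ =>
        ⟨h4, _, ⟨h4.2, h5, ⟨φ, rfl⟩⟩, h3, fun _ _ => rfl⟩⟩
    · exact ⟨0, 0, by simp [Algebra.norm_zero], by simp, fun h2 h3 h4 => absurd ⟨h2, h3, h4⟩ h1⟩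
  choose π c hπ0 hc hπ using hπ
  have := fun Φ => Fintype.ofFinite (T Φ)
  set κ : ℕ → Finset Ω × ∀ Φ, T Φ := fun p => (fr p, fun Φ => τ Φ (π Φ p)) with hκ
  set R : ℕ → Finset ((Finset Ω × ∀ Φ, T Φ) × Ω) := fun p =>
    univ.filter fun l => l.1 = κ p ∧ l.2 ∈ l.1.1 with hR
  have hR1 : ∀ {p l}, l ∈ R p → fr p = l.1.1 ∧ l.2 ∈ l.1.1 := fun hl =>
    ⟨(congrArg Prod.fst (mem_filter.mp hl).2.1).symm, (mem_filter.mp hl).2.2⟩
  have hbad : ∀ {p p' l}, p.Prime → ¬ p ∣ M → p'.Prime → ¬ p' ∣ M → l ∈ R p → l ∈ R p' →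
      Bad M (π l.1.1 p * π l.1.1 p') := fun {p p' l} k1 k2 k3 k4 k5 k6 =>
    hτ _ _ _ ⟨p, k1, k2, (hπ _ p k1 k2 (hR1 k5).1).1⟩ ⟨p', k3, k4, (hπ _ p' k3 k4 (hR1 k6).1).1⟩
      (congrFun (congrArg Prod.snd ((mem_filter.mp k5).2.1.symm.trans (mem_filter.mp k6).2.1)) _)
  set ψ : ℕ → (Finset Ω × ∀ Φ, T Φ) × Ω → Ω → ∀ q : ℕ, ZMod q → ℤ := fun p l j q t =>
    Xe q ((Hq θ l.1.1 l.2 j).eval₂ (inc _ _) (algebraMap _ _ t)) (π l.1.1 p) with hψ
  have hn : ∀ Φ, n Φ ≠ 0 := fun Φ h0 => not_subsingleton (A Φ)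
    ((b Φ).reindex (finCongr h0)).repr.injective.subsingleton
  choose C0 hC0 using fun Φ => lattice_bil (b Φ) (hn Φ)
  refine ⟨(Finset Ω × ∀ Φ, T Φ) × Ω, (Finset Ω × ∀ Φ, T Φ) × Ω → Ω → Bool, inferInstance,
    fun ε => ⟨fun l => l.1.1.erase l.2, R, fun p l j => (ψ p l j p (rt p l.2) * c l.1.1 p l.2 j) *
      (if ε l j then -1 else 1), fun p l j q l' => ψ p l j q (rt q l'.2)⟩,
    fun ε => moment3 _ M _
      (fun Λ => 3 ≤ (orb G ((Λ.filter fun l => l.2 ∈ l.1.1).image Prod.snd)).card)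
      (fun u v => u.1.2 ∈ u.1.1.1 ∧ v.1.2 ∈ v.1.1.1 ∧ Lk G u v)
      (fun a l j => St.abs_mul_le (St.abs_mul_le (abs_jac_le _ _) (hc _ _ _ _))
        (by split_ifs <;> simp)) (fun a l j q l' => abs_jac_le _ _) (fun Λ hΛ => ?_)
      (fun U k1 k2 => ?_) (∑ Φ, (4 * C0 Φ + 4 * n Φ) + 1) (∑ Φ, 8 * n Φ) ?_,
    fun d E _ _ x y hd hxy P hP => ?_⟩
  · obtain ⟨B, B', _, _, _, _, _, _, _, _, k1⟩ := h.quad _ (Nat.lt_succ_iff.mp (not_le.mp hΛ))
    refine sav_of_dns (fun p hp => ⟨hp.1, hp.2.1⟩) (fun p hp => ⟨hp.1, hp.2.1⟩)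
      (dns_of_pair B B' hM _ fun p k2 k3 => (k1 p k2 k3).2) one_pos fun p k2 k3 => ?_
    by_cases k4 : Disjoint (R p) Λ
    · simp only [k4, if_true]
      split_ifs with k5 k6 k6
      · norm_num
      · norm_num
      · exact absurd (h.rp k2 k3 ((k1 p k2 k3).1 k6.2.2.1)) k5
      · norm_num
    · obtain ⟨l, k5, k6⟩ := Finset.not_disjoint_iff.mp k4
      have k7 : l.2 ∈ fr p := (hR1 k5).1 ▸ (hR1 k5).2
      simp only [k4, if_false]
      rw [if_pos (h.rp k2 k3 ⟨_, k7⟩), if_neg fun k8 => Finset.disjoint_left.mp k8.2.2.2 k7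
        (mem_image_of_mem _ (mem_filter.mpr ⟨k6, (hR1 k5).2⟩))]
      norm_num
  · refine sav_of_dns (fun p hp => ⟨hp.1, hp.2.1⟩) (fun p hp => ⟨hp.1, hp.2.1⟩)
      (dns_of_pair (A univ) (A univ) hM (fun _ => True) fun p _ _ k => absurd trivial k)
      (η := 1 / 4) (by norm_num) fun p k3 k4 => ?_
    obtain ⟨k5, k6⟩ := comb h.one (U.filter fun w => w.1.2 ∈ w.1.1.1) (fun u hu v hv k =>
      k2 u (mem_filter.mp hu).1 v (mem_filter.mp hv).1
        ⟨(mem_filter.mp hu).2, (mem_filter.mp hv).2, k⟩) (k1.trans (card_le_card fun c hc => by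
          simp only [orb, mem_filter, mem_image, mem_univ, true_and] at hc ⊢
          obtain ⟨g, m1, l, ⟨⟨w, m2, rfl⟩, m3⟩, m4⟩ := hc
          exact ⟨g, m1, w, ⟨m2, m3⟩, m4⟩)) (κ p) (fr p)
    obtain ⟨S, hS, k5, k6⟩ : ∃ S : Finset (((Finset Ω × ∀ Φ, T Φ) × Ω) × Finset Ω × Bool),
        (∀ w, w ∈ S ↔ (w ∈ U ∧ w.1.2 ∈ w.1.1.1) ∧ w.1.1 = κ p ∧ w.1.2 ∈ fr p ∧
          w.2.1 ⊆ (fr p).erase w.1.2) ∧ S.card ≤ 2 ^ (fr p).card ∧ (fr p = univ →
            6 ≤ Fintype.card Ω → 4 * S.card ≤ 3 * 2 ^ (fr p).card) :=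
      ⟨_, fun w => by simp only [mem_filter], k5, k6⟩
    refine le_trans (le_of_eq ((Finset.sum_congr (s₂ := S) (Finset.ext fun w => ?_)
      fun w hw => ?_).trans (Finset.sum_const ((1 / 2 : ℝ) ^ (fr p).card)))) ?_
    · simp only [hR, hS, mem_filter, mem_univ, true_and]
      constructor
      · rintro ⟨m1, ⟨m2, m3⟩, m4⟩
        exact ⟨⟨m1, m3⟩, m2, by rwa [m2] at m3, by rwa [m2] at m4⟩
      · rintro ⟨⟨m1, m3⟩, m2, -, m4⟩
        exact ⟨m1, ⟨m2, m3⟩, by rwa [m2]⟩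
    · obtain ⟨-, m2, m3, -⟩ := (hS w).mp hw
      simp only [m2]
      rw [Finset.card_erase_add_one m3]
    rw [nsmul_eq_mul, one_div_pow, mul_one_div, div_le_iff₀ (by positivity)]
    by_cases k8 : p.Prime ∧ ¬ p ∣ M ∧ Nonempty (A univ →+* ZMod p) ∧ True
    · have k9 := h.fr_univ sep k3 k4 k8.2.2.1.some
      have k10 : (4 * S.card : ℝ) ≤ 3 * 2 ^ (fr p).card := by
        exact_mod_cast k6 k9 (h.card ▸ h6)
      rw [if_pos k8, if_pos (h.rp k3 k4 (k9 ▸ card_pos.mp (by rw [card_univ, h.card]; omega)))]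
      linarith
    · rw [if_neg k8, mul_zero, sub_zero]
      split_ifs with k9
      · rw [one_mul]
        exact_mod_cast k5
      · rw [zero_mul, Finset.eq_empty_of_forall_notMem fun w k =>
          k9 (h.rp k3 k4 ⟨_, ((hS w).mp k).2.2.1⟩)]
        simp
  · rintro ⟨⟨⟨Φ, t⟩, a⟩, T1, i⟩ ⟨⟨⟨Φ', t'⟩, a'⟩, T2, i'⟩ ⟨k1, k2, k3, g, k4, k5⟩ k6 k7
    simp only at k1 k2 k5 k6 k7
    set h' : ∀ q : ℕ, Ω → ZMod q ⊗[ℤ] A Φ := fun q j => (inc _ _ (θ Φ a) - algebraMap _ _ (rt q a')) *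
      (inc _ _ (θ Φ a) - algebraMap _ _ (rt q j)) with hh
    set v : ℕ → ℕ → ℤ := fun q p => (∏ j ∈ T2, ψ q ((Φ', t'), a') j p (rt p a)) *
      ∏ j ∈ T2, Xe q (h' q j) (π Φ p) with hv
    set ρ : ℕ → ℤ := fun q => if ∃ p, (p.Prime ∧ ¬ p ∣ M ∧ ((Φ, t), a) ∈ R p ∧ p ≠ q) ∧
      v q p = -1 then -1 else 1 with hρ
    set χ : ∀ q : ℕ, A Φ → ℝ := fun q z => ((chi q (Algebra.norm ℤ z : ℤ) ^ 2 *
      ((∏ j ∈ T1, Xe q ((Hq θ Φ a j).eval₂ (inc _ _) (algebraMap _ _ (rt q a'))) z) *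
        ∏ j ∈ T2, Xe q (h' q j) z) : ℤ) : ℝ) with hχ
    have hρ1 : ∀ q, (ρ q : ℝ) = 1 ∨ (ρ q : ℝ) = -1 := fun q => by
      simp only [hρ]
      split_ifs <;> simp
    refine ⟨k3, fun p q => if p = q then 0 else ρ q * χ q (π Φ p), fun p => if_pos rfl,
      fun p q => ?_, fun p q p1 p3 q1 q3 hne hp hq => ?_, fun X R' Z K Y hZ hY => ?_⟩
    · beta_reduce
      split_ifs
      · simp
      · refine St.abs_mul_le (by rcases hρ1 q with k | k <;> simp [k]) ?_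
        simp only [hχ, Int.cast_mul, Int.cast_prod, sq]
        exact St.abs_mul_le (St.abs_mul_le (abs_jac_le _ _) (abs_jac_le _ _)) (St.abs_mul_le
          (St.abs_prod_le _ fun j _ => abs_jac_le _ _) (St.abs_prod_le _ fun j _ => abs_jac_le _ _))
    · obtain ⟨-, l, m1, m2, -⟩ := hπ Φ' q q1 q3 (hR1 hq).1
      have key : ∀ p, p.Prime ∧ ¬ p ∣ M ∧ ((Φ, t), a) ∈ R p ∧ p ≠ q → ∃ lb : A Φ →+* ZMod p,
          Lf M p lb (π Φ p) ∧ v q p = ∏ j ∈ T2, rv (Hq θ Φ' a' j) (θ Φ a) l (π Φ' q) lb (π Φ p) := by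
        rintro p ⟨p1, p3, hp, -⟩
        obtain ⟨-, lb, m3, m4, -⟩ := hπ Φ p p1 p3 (hR1 hp).1
        refine ⟨lb, m3, Finset.prod_mul_distrib.symm.trans (Finset.prod_congr rfl fun j hj => ?_)⟩
        simp only [rv, hψ, hh, Hq_eval (RingHom.comp _ _), RingHom.comp_apply, m4 a k1, m2 a' k2,
          m2 j (mem_of_mem_erase (k7 hj))]
      have m3 : v q p = ρ q := const_sign (v := v q) (fun p hp => by
        obtain ⟨lb, m3, m4⟩ := key p hp
        rw [m4, ← Finset.prod_mul_distrib]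
        refine Finset.prod_eq_one fun j _ => ?_
        rw [rv, mul_mul_mul_comm, Xe_sq hp.1 _ (m1.not_dvd q1 hp.1 hp.2.1 hp.2.2.2),
          Xe_sq q1 _ (m3.not_dvd hp.1 q1 q3 hp.2.2.2.symm), one_mul]) (fun p p' hp hp' hne => by
        obtain ⟨lb, m3, m4⟩ := key p hp
        obtain ⟨lb', m5, m6⟩ := key p' hp'
        rw [m4, m6, ← Finset.prod_mul_distrib]
        exact Finset.prod_eq_one fun j hj => recip hm hev hM h2 hD0 hxy0 hP0 (du Φ) (du Φ')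
          (hGq Φ' a' j k2 (k7 hj)).s (h.root Φ a k1) q1 hp.1 hp'.1 q3 hp.2.1 hp'.2.1 hp.2.2.2
          hp'.2.2.2 hne m1 m3 m5 (hbad hp.1 hp.2.1 hp'.1 hp'.2.1 hp.2.2.1 hp'.2.2.1))
        ⟨p1, p3, hp, hne⟩
      obtain ⟨lb, m4, -⟩ := key p ⟨p1, p3, hp, hne⟩
      have m5 := m4.not_dvd p1 q1 q3 hne.symm
      have m6 : (∏ j ∈ T2, Xe q (h' q j) (π Φ p)) * ∏ j ∈ T2, Xe q (h' q j) (π Φ p) = 1 := by
        rw [← Finset.prod_mul_distrib]
        exact Finset.prod_eq_one fun j _ => Xe_sq q1 _ m5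
      have : Fact q.Prime := ⟨q1⟩
      beta_reduce
      rw [if_neg hne, ← m3]
      simp only [hχ, hv, hψ, chi_eq,
        quadraticChar_sq_one (mt (ZMod.intCast_zmod_eq_zero_iff_dvd _ q).mp m5), one_mul]
      rw [← Int.cast_prod, ← Int.cast_prod, ← Int.cast_mul, ← Int.cast_mul, mul_mul_mul_comm, m6,
        mul_one, mul_comm]
    · have hQ : ∀ a : Qs M X, (a : ℕ).Prime ∧ ¬ (a : ℕ) ∣ M := fun a => (mem_filter.mp a.2).2
      have m1 := (hC0 Φ _ _ (fun a => (hQ a).1) Subtype.val_injective (fun p => π Φ p)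
        (fun q => χ q) (fun p => ((Φ, t), a) ∈ R p) (fun q => ((Φ', t'), a') ∈ R q)
        (fun p hp => ?_) (fun q hq => ?_) R' (2 * Z) K Y (by omega) (le_trans ?_ hY)).sign
        fun q => hρ1 q
      · refine (congrArg (fun κ => Rect _ κ _ _ R' Z K Y)
          (_root_.funext fun p => _root_.funext fun q => ?_)).mpr m1
        beta_reduce
        split_ifs with m2
        · have : Fact (q : ℕ).Prime := ⟨(hQ q).1⟩
          simp only [hχ, m2, chi_eq, (ZMod.intCast_zmod_eq_zero_iff_dvd _ _).mpr (hπ0 Φ q)]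
          simp
        · rfl
      · obtain ⟨m1, lb, m2, -⟩ := hπ Φ p (hQ p).1 (hQ p).2 (hR1 hp).1
        refine ⟨m1.1, fun q => ⟨fun m3 => ?_, fun m3 => m3 ▸ hπ0 _ _⟩⟩
        by_contra m4
        exact m2.not_dvd (hQ p).1 (hQ q).1 (hQ q).2 (fun m5 => m4 (Subtype.ext m5)) m3
      · obtain ⟨k, _, μ, ι, m1⟩ := h.conj g k4 q (hQ q).1 (hQ q).2 Φ
        have m2 : fr q = Φ' := (hR1 hq).1
        let μ' : ZMod q ⊗[ℤ] A Φ →+* k := (Algebra.TensorProduct.lift ι.toIntAlgHom μ.toIntAlgHom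
          fun _ _ => Commute.all _ _).toRingHom
        have m3 : ∀ z, μ' (inc _ _ z) = μ z := fun z => by simp [μ', inc]
        have m4 : ∀ z, μ' (algebraMap _ _ z) = ι z := fun z => by
          simp [μ', Algebra.TensorProduct.algebraMap_apply]
        refine ch_Xe (b Φ) (du Φ) (hQ q).1 (fun m5 => (hQ q).2 (m5 ▸ h2))
          (mt Int.natCast_dvd_natCast.mp (hQ q).2) T1 T2 _ _ μ' ?_
        rwa [Finset.filter_congr (q := fun j => a' ≠ g a ∧ a' ≠ g j) fun j hj => by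
            rw [Hq_eval, map_mul, map_sub, map_sub, m3, m3, m4, mul_ne_zero_iff, sub_ne_zero,
              sub_ne_zero, Ne, Ne, m1 a k1 a' (m2 ▸ k2),
              m1 j (mem_of_mem_erase (k6 hj)) a' (m2 ▸ k2)],
          Finset.filter_congr (s := T2) (q := fun j => a' ≠ g a ∧ j ≠ g a) fun j hj => by
            simp only [hh]
            rw [map_mul, map_sub, map_sub, m3, m4, m4, mul_ne_zero_iff, sub_ne_zero,
              sub_ne_zero, ne_comm, Ne, ne_comm, Ne, m1 a k1 a' (m2 ▸ k2),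
              m1 a k1 j (m2 ▸ mem_of_mem_erase (k7 hj))]]
      · have m1 := Finset.single_le_sum (f := fun Φ => 4 * C0 Φ + 4 * n Φ)
          (fun _ _ => Nat.zero_le _) (mem_univ Φ)
        refine le_trans (Nat.pow_le_pow_left ?_ _) (Nat.pow_le_pow_right (by positivity)
          (Finset.single_le_sum (f := fun Φ => 8 * n Φ) (fun _ _ => Nat.zero_le _) (mem_univ Φ)))
        calc _ = Z ^ 2 * (4 ^ 1 * C0 Φ ^ (R' + 1)) * (4 * n Φ * K * R' + 1) ^ R' := by ring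
          _ ≤ Z ^ 2 * (4 ^ (R' + 1) * C0 Φ ^ (R' + 1)) * (4 * n Φ * K * R' + 1) ^ R' := by
            gcongr <;> omega
          _ ≤ _ := by
            rw [← mul_pow]
            gcongr <;> omega
  · obtain ⟨t, k1, k2⟩ := test_cond hm hev hM h2 sep he hd hxy hP
    have hd0 := hd.ne_zero
    have hlab : ∀ q, ∃ a : Ω, q ∈ gp M d → a ∈ fr q ∧ rt q a = t q := fun q => by
      by_cases hq : q ∈ gp M d
      · obtain ⟨a, k3⟩ := h.all q ((mem_gp hd0).mp hq).1 ((mem_gp hd0).mp hq).2.2 _ (k1 q hq)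
        exact ⟨a, fun _ => k3⟩
      · exact ⟨(Fintype.card_pos_iff.mp (by rw [h.card]; omega)).some, fun k => absurd k hq⟩
    choose lab hlab using hlab
    set v : (Finset Ω × ∀ Φ, T Φ) × Ω → Ω → ℕ → ℤ := fun l j p =>
      ψ p l j p (t p) * c l.1.1 p l.2 j * ∏ q ∈ (gp M d).erase p, ψ p l j q (t q) with hv
    have hRl : ∀ p ∈ gp M d, (κ p, lab p) ∈ R p := fun p hp =>
      mem_filter.mpr ⟨mem_univ _, rfl, (hlab p hp).1⟩
    refine ⟨fun l j => decide (∃ q, (q ∈ gp M d ∧ (κ q, lab q) = l) ∧ v l j q = -1),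
      fun p => (κ p, lab p), fun p hp => ⟨hRl p hp, fun j hj => ?_⟩⟩
    have key : ∀ l q, q ∈ gp M d ∧ (κ q, lab q) = l → ∃ lb : A l.1.1 →+* ZMod q,
        Lf M q lb (π l.1.1 q) ∧ (Hq θ l.1.1 l.2 j).eval₂ lb (t q) = 0 ∧
          v l j q = tv (Gq l.1.1 l.2 j) (Hq θ l.1.1 l.2 j) (gp M d) t q lb (π l.1.1 q) := by
      rintro _ q ⟨hq, rfl⟩
      obtain ⟨-, lb, m1, m2, m3⟩ := hπ _ q ((mem_gp hd0).mp hq).1 ((mem_gp hd0).mp hq).2.2 rfl
      refine ⟨lb, m1, ?_, ?_⟩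
      · rw [Hq_eval, m2 _ (hlab q hq).1, (hlab q hq).2, sub_self, zero_mul]
      · simp only [hv, hψ, tv, m3, (hlab q hq).2, hκ]
        rfl
    have k3 := k2 _ _ _ (hGq (fr p) (lab p) j (hlab p hp).1 hj)
    have k4 := const_sign (S := fun q => q ∈ gp M d ∧ (κ q, lab q) = (κ p, lab p))
      (v := v (κ p, lab p) j) (fun q hq => by
        obtain ⟨lb, m1, m2, m3⟩ := key _ q hq
        exact m3 ▸ (k3 q hq.1 lb _ m1 m2).1) (fun q q' hq hq' hne => by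
        obtain ⟨lb, m1, m2, m3⟩ := key _ q hq
        obtain ⟨lb', m4, m5, m6⟩ := key _ q' hq'
        obtain ⟨q1, -, q3⟩ := (mem_gp hd0).mp hq.1
        obtain ⟨q1', -, q3'⟩ := (mem_gp hd0).mp hq'.1
        exact m3 ▸ m6 ▸ (k3 q hq.1 lb _ m1 m2).2 q' hq'.1 lb' _ m4 m5 hne
          (hbad (l := (κ p, lab p)) q1 q3 q1' q3' (hq.2 ▸ hRl q hq.1) (hq'.2 ▸ hRl q' hq'.1)))
      ⟨hp, rfl⟩
    have k5 : ∏ q ∈ @Finset.erase _ (fun a b => Classical.propDecidable (a = b)) (gp M d) p,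
        (ψ p (κ p, lab p) j q (rt q (lab q)) : ℝ) =
        (∏ q ∈ (gp M d).erase p, ψ p (κ p, lab p) j q (t q) : ℤ) := by
      rw [Int.cast_prod]
      exact Finset.prod_congr (by ext; simp) fun q hq => by
        rw [(hlab q (mem_of_mem_erase hq)).2]
    simp only [decide_eq_true_eq]
    rw [k5, (hlab p hp).2, mul_right_comm, ← Int.cast_mul, ← Int.cast_mul]
    change ((v (κ p, lab p) j p : ℤ) : ℝ) * _ = 1
    rw [k4]
    split_ifs <;> simp

lemma exists_unif {T : Type} [Fintype T] {φ : T → ℕ → ℝ} {g : ℕ → ℝ}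
    (h : ∀ ε, ∃ c : ℝ, 0 < c ∧ φ ε =O[atTop] fun X : ℕ => g X / Real.log X ^ c) :
    ∃ c : ℝ, 0 < c ∧ ∀ ε, φ ε =O[atTop] fun X : ℕ => g X / Real.log X ^ c := by
  choose c h1 h2 using h
  obtain ⟨c0, h3, h4⟩ : ∃ c0 : ℝ, 0 < c0 ∧ ∀ ε, c0 ≤ c ε := by
    obtain ⟨c0, h3, h4⟩ := ((eventually_all.mpr fun ε => Ioc_mem_nhdsGT (h1 ε)).and
      self_mem_nhdsWithin).exists
    exact ⟨c0, h4, fun ε => (h3 ε).2⟩
  refine ⟨c0, h3, fun ε => (h2 ε).trans (IsBigO.of_bound' ?_)⟩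
  filter_upwards [(Real.tendsto_log_atTop.comp tendsto_natCast_atTop_atTop).eventually_ge_atTop 1]
    with X hX
  have h5 : 1 ≤ Real.log X := hX
  rw [norm_div, norm_div, Real.norm_of_nonneg (Real.rpow_nonneg (by linarith) _),
    Real.norm_of_nonneg (Real.rpow_nonneg (by linarith) _)]
  exact div_le_div_of_nonneg_left (norm_nonneg _) (by positivity)
    (Real.rpow_le_rpow_of_exponent_le h5 (h4 ε))

theorem els_main (f : ℚ[X]) (hf : Squarefree f) (hdeg : 0 < f.natDegree) :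
    (fun X : ℕ => (X : ℝ) / Real.log X) =O[atTop] fun X : ℕ =>
      (Set.ncard {d : ℤ | Squarefree d ∧ |d| ≤ X ∧ ∃ (E : Type) (_ : Field E) (_ : CharZero E)
        (x y : E), IsTwist f d x y ∧ Nonempty (Adelic E)} : ℝ) := by
  obtain ⟨F, a, c0, e, r, hm, hF, ha, hc0, he, hr, sep, hmap⟩ := exists_model3 f hf
  obtain ⟨M, hM, h1⟩ := els_lower hf hdeg hm hF ha hc0 he hr sep hmap
  obtain ⟨c, hc, h2⟩ := h1 M hM dvd_rfl (chb_rp F hm (hF ▸ hdeg) hM)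
  refine IsBigO.of_bound c⁻¹ ?_
  filter_upwards [h2] with X hX
  have h3 : 0 ≤ (X : ℝ) / Real.log X := by positivity
  rw [Real.norm_of_nonneg h3, Real.norm_natCast, le_inv_mul_iff₀ hc]
  exact le_trans (mul_le_mul_of_nonneg_left (le_mul_of_one_le_right h3
    (Real.one_le_exp (by positivity))) hc.le) hX

theorem main3 (f : ℚ[X]) (hf : Squarefree f) (h6 : 6 ≤ f.natDegree) (hev : Even f.natDegree)
    (hq : ∀ α : ℂ, aeval α f = 0 → (minpoly ℚ α).natDegree ≤ 2 →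
      ∃ β : ℂ, aeval β f = 0 ∧ α ∉ ℚ⟮β⟯) :
    ∃ c : ℝ, 0 < c ∧ (fun X : ℕ => (Set.ncard {d : ℤ | Squarefree d ∧ |d| ≤ X ∧
      ∃ (E : Type) (_ : Field E) (_ : CharZero E) (x y : E), IsTwist f d x y ∧
        ∃ P : Adelic E, InBM P} : ℝ)) =O[atTop] fun X : ℕ =>
      (Set.ncard {d : ℤ | Squarefree d ∧ |d| ≤ X ∧ ∃ (E : Type) (_ : Field E) (_ : CharZero E)
        (x y : E), IsTwist f d x y ∧ Nonempty (Adelic E)} : ℝ) / Real.log X ^ c := by
  by_cases h0 : ∃ d : ℤ, Squarefree d ∧ ∃ (E : Type) (_ : Field E) (_ : CharZero E) (x y : E),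
      IsTwist f d x y ∧ ∃ P : Adelic E, InBM P
  swap
  · refine ⟨1, one_pos, (isBigO_zero _ _).congr_left fun X => ?_⟩
    refine (Nat.cast_eq_zero.mpr ((congrArg Set.ncard
      (Set.eq_empty_of_forall_notMem ?_)).trans (Set.ncard_empty ℤ))).symm
    exact fun d hd => h0 ⟨d, hd.1, hd.2.2⟩
  obtain ⟨d0, hd0, E0, _, _, x0, y0, htw0, P0, hP0⟩ := h0
  obtain ⟨F, a, c0, e, r, hm, hF, ha, hc0, he, hr, ⟨u, v, huv⟩, hmap⟩ := exists_model3 f hf
  have heq : ∀ (d : ℤ) (E : Type) [Field E] [CharZero E] (x y : E), IsTwist f d x y →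
      ((e * d : ℤ) : E) * (c0 * y) ^ 2 = aeval ((a : E) * x) F := fun d E _ _ x y h => by
    rw [hmap, ← h.2.1]
    push_cast
    ring
  obtain ⟨M0, hM0, hels⟩ := els_lower hf (by omega) hm hF ha hc0 he hr ⟨u, v, huv⟩ hmap
  obtain ⟨Ω, _, A, _, _, _, _, θ, fr, rt, G, htw⟩ := exists_tower F hm (by omega) hr ⟨u, v, huv⟩
    fun α h1 h2 => by
      have ha' : (a : ℂ) ≠ 0 := Rat.cast_ne_zero.mpr ha
      have h3 : aeval (α / a) f = 0 := by
        have := hmap ℂ (α / a)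
        rw [mul_div_cancel₀ _ ha', h1, eq_comm, mul_eq_zero] at this
        exact this.resolve_left (by simp [he, hc0])
      have h4 : IsIntegral ℚ α := ⟨F.map (algebraMap ℤ ℚ), hm.map _, by
        rwa [← aeval_def, aeval_map_algebraMap]⟩
      have h5 : ∀ (z : ℂ) (q : ℚ) (K : IntermediateField ℚ ℂ), z ∈ K → q * z ∈ K :=
        fun z q K hz => mul_mem (SubfieldClass.ratCast_mem K q) hz
      have h7 : ℚ⟮α / a⟯ ≤ ℚ⟮α⟯ := IntermediateField.adjoin_simple_le_iff.mpr (by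
        simpa [div_eq_inv_mul] using h5 α a⁻¹ _ (IntermediateField.mem_adjoin_simple_self ℚ α))
      have := IntermediateField.adjoin.finiteDimensional h4
      obtain ⟨β, h8, h9⟩ := hq _ h3 (by
        rw [← IntermediateField.adjoin.finrank
          (show IsAlgebraic ℚ (α / a) from ⟨f, hf.ne_zero, h3⟩).isIntegral]
        exact (IntermediateField.finrank_le_of_le_right h7).trans
          ((IntermediateField.adjoin.finrank h4).trans_le h2))
      refine ⟨a * β, by rw [hmap, h8, mul_zero], fun h10 => h9 ?_⟩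
      simpa [div_eq_inv_mul] using h5 α a⁻¹ _ (IntermediateField.adjoin_simple_le_iff.mpr
        (h5 β a _ (IntermediateField.mem_adjoin_simple_self ℚ β)) h10)
  have hfree : ∀ Φ, Module.Free ℤ (A Φ) := fun Φ => inferInstance
  have b := fun Φ => Module.finBasis ℤ (A Φ)
  choose rr hrr hdu using fun Φ => exists_dual (A Φ)
  choose C hC hsm using fun Φ => exists_small (b Φ)
  obtain ⟨M, hM, k0, k1, k2, ⟨k, k3⟩, k4, k5⟩ : ∃ M : ℕ, M ≠ 0 ∧ M0 ∣ M ∧ 2 ∣ M ∧ e ∣ M ∧ r ∣ M ∧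
      (∀ j, rr j ∣ M) ∧ ∀ j, C j ∣ M := by
    refine ⟨M0 * 2 * e.natAbs * r.natAbs * ∏ j, (rr j).natAbs * C j, ?_, ?_, ?_, ?_, ?_,
      fun j => ?_, fun j => ?_⟩
    · simp [he, hr, hrr, hC, hM0, Finset.prod_eq_zero_iff]
    · exact (((dvd_mul_right _ _).mul_right _).mul_right _).mul_right _
    · exact (((dvd_mul_left _ _).mul_right _).mul_right _).mul_right _
    · exact Int.dvd_natCast.mpr (((dvd_mul_left _ _).mul_right _).mul_right _)
    · exact Int.dvd_natCast.mpr ((dvd_mul_left _ _).mul_right _)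
    · exact Int.dvd_natCast.mpr (((dvd_mul_right _ _).trans (Finset.dvd_prod_of_mem
        (fun j => (rr j).natAbs * C j) (mem_univ j))).mul_left _)
    · exact ((dvd_mul_left _ _).trans (Finset.dvd_prod_of_mem
        (fun j => (rr j).natAbs * C j) (mem_univ j))).mul_left _
  obtain ⟨L, T, _, σ, hmom, hsurv⟩ := (htw M ⟨k, k3⟩).count hm (hF ▸ hev) (hF ▸ h6) hM k1
    ⟨u * Polynomial.C k, v * Polynomial.C k, by rw [k3, map_mul, ← huv]; ring⟩ k2
    (fun j => hdu j _ (k4 j)) b (fun j => hsm j M (k5 j)) (mul_ne_zero he hd0.ne_zero)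
    (heq d0 E0 x0 y0 htw0) hP0
  obtain ⟨c, hc, hmom⟩ := exists_unif hmom
  obtain ⟨c', hc', hels⟩ := hels M hM k0 (chb_rp F hm (by omega) hM)
  refine ⟨c, hc, IsBigO.trans ?_ (((IsBigO.sum (s := univ) fun ε _ => hmom ε).const_mul_left
    (2 * 2 ^ M.primeFactors.card)).trans (IsBigO.of_bound c'⁻¹ ?_))⟩
  swap
  · filter_upwards [hels] with X hX
    rw [Real.norm_of_nonneg (by positivity), Real.norm_of_nonneg (by positivity), ← mul_div_assoc]
    exact div_le_div_of_nonneg_right ((le_inv_mul_iff₀ hc').mpr hX) (by positivity)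
  refine IsBigO.of_bound 1 (Eventually.of_forall fun X => ?_)
  rw [one_mul, Real.norm_natCast, Finset.sum_apply, Real.norm_of_nonneg
    (mul_nonneg (by positivity) (Finset.sum_nonneg fun _ _ => Nat.cast_nonneg _))]
  have key : Set.ncard {d : ℤ | Squarefree d ∧ |d| ≤ X ∧
      ∃ (F : Type) (_ : Field F) (_ : CharZero F) (x y : F), IsTwist f d x y ∧
        ∃ P : Adelic F, InBM P} ≤
      ((univ : Finset Bool) ×ˢ M.primeFactors.powerset ×ˢ univ.biUnion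
        fun ε : T => (Qs M X).powerset.filter fun s =>
          ∏ p ∈ s, p ≤ X ∧ (σ ε).Surv s).card := by
    rw [← Set.ncard_coe_finset]
    refine Set.ncard_le_ncard_of_injOn (fun d : ℤ =>
      (decide (0 ≤ d), d.natAbs.primeFactors.filter (· ∣ M), gp M d)) ?_ ?_ (Finset.finite_toSet _)
    · rintro d ⟨hd, hX, F, _, _, x, y, htw, P, hP⟩
      have hd0 := hd.ne_zero
      obtain ⟨ε, hε⟩ := hsurv d F _ _ hd (heq d F x y htw) P hP
      have hprod : ∏ p ∈ gp M d, p ≤ X := by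
        have k1 : ∏ p ∈ gp M d, p ∣ d.natAbs :=
          (Finset.prod_dvd_prod_of_subset _ _ _ (filter_subset _ _)).trans
            (Nat.prod_primeFactors_dvd _)
        have k2 := Nat.le_of_dvd (Int.natAbs_pos.mpr hd0) k1
        have k3 : (d.natAbs : ℤ) ≤ X := by rwa [Int.natCast_natAbs]
        omega
      refine mem_coe.mpr (mem_product.mpr ⟨mem_univ _, mem_product.mpr ⟨?_, mem_biUnion.mpr
        ⟨ε, mem_univ _, mem_filter.mpr ⟨mem_powerset.mpr fun p hp => ?_, hprod, hε⟩⟩⟩⟩)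
      · refine mem_powerset.mpr fun p hp => ?_
        obtain ⟨k1, k2⟩ := mem_filter.mp hp
        exact Nat.mem_primeFactors.mpr ⟨Nat.prime_of_mem_primeFactors k1, k2, hM⟩
      · obtain ⟨k1, -, k3⟩ := (mem_gp hd0).mp hp
        exact mem_filter.mpr ⟨mem_range.mpr (Nat.lt_succ_of_le (le_trans (Finset.single_le_prod'
          (f := fun p => p) (fun p hp => ((mem_gp hd0).mp hp).1.pos) hp) hprod)), k1, k3⟩
    · rintro d ⟨hd, -⟩ d' ⟨hd', -⟩ h
      simp only [Prod.mk.injEq, decide_eq_decide] at h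
      obtain ⟨k1, k2, k3⟩ := h
      have k4 : d.natAbs = d'.natAbs := by
        rw [← Nat.prod_primeFactors_of_squarefree (Int.squarefree_natAbs.mpr hd),
          ← Nat.prod_primeFactors_of_squarefree (Int.squarefree_natAbs.mpr hd'),
          ← Finset.prod_filter_mul_prod_filter_not d.natAbs.primeFactors (· ∣ M),
          ← Finset.prod_filter_mul_prod_filter_not d'.natAbs.primeFactors (· ∣ M), k2]
        exact congrArg _ (congrArg (fun s => ∏ p ∈ s, p) k3)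
      omega
  rw [card_product, card_product, card_powerset, card_univ, Fintype.card_bool] at key
  have k2 := key.trans (Nat.mul_le_mul_left _ (Nat.mul_le_mul_left _ Finset.card_biUnion_le))
  rw [mul_assoc]
  exact_mod_cast k2

end Pool.Agent.P.MP_ab3ecb_nt
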