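import Pool.Agent.P.MP_ab3ecb_nt.Defs3

/-!
A first moment bound for labelled sets of primes subject to independent tests.
-/

namespace Pool.Agent.P.MP_ab3ecb_nt

open Finset Function
open scoped Classical
open St (supp abs_prod_le abs_mul_le prod_supp indep_pair prod_update2)

set_option linter.unusedSectionVars false
set_option maxHeartbeats 400000

/-- The data of the moment computation on a finite set of primes. -/
structure T3 (L J ι : Type) extends S3 L J ι where
  pr : ι → ℕ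
  Y : ℕ
  X : ℕ
  N : ℕ

namespace T3

variable {L J ι : Type} [Fintype L] [Fintype J] [Fintype ι] (σ : T3 L J ι)

/-- The standing hypotheses. -/
structure OK : Prop where
  sg : ∀ a l j, |σ.sg a l j| ≤ 1
  ψ1 : ∀ a l j b l', |σ.ψ a l j b l'| ≤ 1
  hp : ∀ a, (σ.pr a).Prime
  inj : Injective σ.pr

def big (a : ι) : Prop := σ.Y < σ.pr a

noncomputable def h (r : ℕ) : ℝ := if r ≤ σ.N then 1 else 0

noncomputable def wt (a : ι) (w : L × Finset J × Bool) : ℝ :=
  if w.1 ∈ σ.R a then
    if σ.big a then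
      if w.2.1 ⊆ σ.gens w.1 then (1 / 2) ^ ((σ.gens w.1).card + 1) else 0
    else if w.2.1 = ∅ then 1 / 2 else 0
  else 0

noncomputable def sym (a : ι) (l : L) (j : J) (c : ι → Option L) : ℝ :=
  ∏ b, (c b).elim 1 fun l' => if b = a then 1 else σ.ψ a l j b l'

noncomputable def gg (a : ι) (o : Option (L × Finset J × Bool)) (c : ι → Option L) : ℝ :=
  o.elim 1 fun w => σ.wt a w * ∏ j ∈ w.2.1, (σ.sg a w.1 j * σ.sym a w.1 j c)

noncomputable def GG (a : ι) (c : ι → Option L) : ℝ :=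
  (c a).elim 1 fun l => if l ∈ σ.R a then
    if σ.big a then (1 / 2) ^ (σ.gens l).card * ∏ j ∈ σ.gens l, (1 + σ.sg a l j * σ.sym a l j c)
    else 1
  else 0

noncomputable def cut (s : Finset ι) : ℝ := if ∏ a ∈ s, σ.pr a ≤ σ.X then σ.h s.card else 0

/-- The labels of the big primes. -/
noncomputable def actset {W : Type} [Fintype W] [DecidableEq W] (c : ι → Option W) : Finset W :=
  univ.filter fun w => ∃ a ∈ tup c w, σ.big a

noncomputable def TT (U : Finset (L × Finset J × Bool)) : ℝ :=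
  ∑ c : ι → Option (L × Finset J × Bool), (if σ.actset c = U then 1 else 0) *
    (σ.cut (supp c) * ∏ a, σ.gg a (c a) (Option.map Prod.fst ∘ c))

noncomputable def gm (U : Finset (L × Finset J × Bool)) (a : ι) : ℝ :=
  if σ.big a then
    ∑ w ∈ U with w.1 ∈ σ.R a ∧ w.2.1 ⊆ σ.gens w.1, (1 / 2 : ℝ) ^ ((σ.gens w.1).card + 1)
  else Fintype.card L

noncomputable def gl (Λ : Finset L) (a : ι) : ℝ :=
  if σ.big a then if Disjoint (σ.R a) Λ then 0 else 1 else 1

variable {σ}

lemma h_nonneg (r : ℕ) : 0 ≤ σ.h r := by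
  unfold h
  split_ifs <;> norm_num

lemma h_le (r : ℕ) : σ.h r ≤ 1 := by
  unfold h
  split_ifs <;> norm_num

lemma wt_nonneg (a : ι) (w : L × Finset J × Bool) : 0 ≤ σ.wt a w := by
  unfold wt
  split_ifs <;> positivity

lemma wt_le (a : ι) (w : L × Finset J × Bool) : σ.wt a w ≤ 1 := by
  unfold wt
  split_ifs
  · exact pow_le_one₀ (by norm_num) (by norm_num)
  all_goals norm_num

lemma abs_sym_le (H : σ.OK) (a : ι) (l : L) (j : J) (c : ι → Option L) : |σ.sym a l j c| ≤ 1 := by
  refine abs_prod_le _ fun b _ => ?_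
  cases c b with
  | none => simp
  | some l' =>
    simp only [Option.elim_some]
    split_ifs
    · simp
    · exact H.ψ1 _ _ _ _ _

lemma cut_nonneg (s : Finset ι) : 0 ≤ σ.cut s := by
  unfold cut
  split_ifs
  · exact h_nonneg _
  · rfl

lemma sum_gg (a : ι) (c : ι → Option L) :
    ∑ o with Option.map Prod.fst o = c a, σ.gg a o c = σ.GG a c := by
  rw [Finset.sum_filter, Fintype.sum_option, Fintype.sum_prod_type, GG]
  cases h : c a with
  | none => simp [gg]
  | some l =>
    simp only [Option.map_none, reduceCtorEq, if_false, zero_add, Option.map_some,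
      Option.some.injEq, Option.elim_some]
    rw [Finset.sum_eq_single l (fun l' _ hl => by simp [hl]) (by simp), Fintype.sum_prod_type]
    simp only [if_true, gg, Option.elim_some, wt, Fintype.sum_bool, ← two_mul]
    split_ifs with h1 h2
    · simp only [ite_mul, zero_mul, mul_ite, mul_zero, ← mem_powerset]
      rw [Finset.sum_ite_mem, univ_inter, Finset.prod_one_add, Finset.mul_sum]
      refine Finset.sum_congr rfl fun T _ => ?_
      rw [pow_succ]
      ring
    · simp only [ite_mul, zero_mul, mul_ite, mul_zero]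
      rw [Finset.sum_ite_eq']
      simp
    · simp

lemma GG_nonneg (H : σ.OK) (a : ι) (c : ι → Option L) : 0 ≤ σ.GG a c := by
  unfold GG
  cases c a with
  | none => simp
  | some l =>
    simp only [Option.elim_some]
    split_ifs
    · refine mul_nonneg (by positivity) (Finset.prod_nonneg fun j _ => ?_)
      linarith [(abs_le.mp (abs_mul_le (H.sg a l j) (abs_sym_le H a l j c))).1]
    · norm_num
    · rfl

lemma actset_map (c : ι → Option (L × Finset J × Bool)) :
    (σ.actset c).image Prod.fst = σ.actset (Option.map Prod.fst ∘ c) := by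
  ext l
  simp only [actset, mem_image, mem_filter, mem_univ, true_and, mem_tup, comp_apply,
    Option.map_eq_some_iff]
  constructor
  · rintro ⟨w, ⟨a, h1, h2⟩, rfl⟩
    exact ⟨a, ⟨w, h1, rfl⟩, h2⟩
  · rintro ⟨a, ⟨w, h1, rfl⟩, h2⟩
    exact ⟨w, ⟨a, h1, h2⟩, rfl⟩

lemma sum_TT (ok : Finset L → Prop) : ∑ U with ok (U.image Prod.fst), σ.TT U =
    ∑ c : ι → Option L, (if ok (σ.actset c) then σ.cut (supp c) else 0) * ∏ a, σ.GG a c := by
  unfold TT
  rw [Finset.sum_comm]
  simp only [← Finset.sum_mul, Finset.sum_ite_eq, mem_filter, mem_univ, true_and, actset_map]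
  refine Eq.trans (Finset.sum_congr rfl fun c _ => ?_) ((fiber_sum (ι := ι)
    (Option.map (Prod.fst : L × Finset J × Bool → L))
    (fun c => if ok (σ.actset c) then σ.cut (supp c) else 0) σ.gg).trans ?_)
  · split_ifs
    · simp [supp]
    · simp
  · exact Finset.sum_congr rfl fun c _ => congrArg _
      (Finset.prod_congr rfl fun a _ => sum_gg a c)

lemma gl_nonneg (Λ : Finset L) (a : ι) : 0 ≤ σ.gl Λ a := by
  unfold gl
  split_ifs <;> norm_num

lemma surv_le (H : σ.OK) (ok : Finset L → Prop) :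
    ((univ.filter fun s : Finset ι => ∏ a ∈ s, σ.pr a ≤ σ.X ∧ σ.Surv s).card : ℝ) ≤
      (∑ s : Finset ι with ∏ a ∈ s, σ.pr a ≤ σ.X, ∏ _a ∈ s, (2 : ℝ)) / 2 ^ σ.N +
      ∑ Λ with ¬ ok Λ, ∑ s : Finset ι with ∏ a ∈ s, σ.pr a ≤ σ.X, ∏ a ∈ s, σ.gl Λ a +
      ∑ U with ok (U.image Prod.fst), σ.TT U := by
  have ht0 : ∀ c : ι → Option L,
      0 ≤ (if ok (σ.actset c) then σ.cut (supp c) else 0) * ∏ a, σ.GG a c := fun c =>
    mul_nonneg (by split_ifs; exacts [cut_nonneg _, le_rfl])
      (Finset.prod_nonneg fun a _ => GG_nonneg H a c)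
  rw [sum_TT, ← Finset.sum_fiberwise (s := univ) (g := fun c : ι → Option L => supp c),
    Finset.sum_comm, Finset.card_eq_sum_ones, Nat.cast_sum, Finset.sum_div,
    ← Finset.sum_add_distrib, Finset.sum_filter, Finset.sum_filter, ← Finset.sum_add_distrib]
  refine Finset.sum_le_sum fun s _ => ?_
  have k1 : 0 ≤ ∑ Λ with ¬ ok Λ, ∏ a ∈ s, σ.gl Λ a :=
    Finset.sum_nonneg fun Λ _ => Finset.prod_nonneg fun a _ => gl_nonneg Λ a
  have k2 := Finset.sum_nonneg fun c (_ : c ∈ univ.filter fun c : ι → Option L => supp c = s) =>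
    ht0 c
  have k3 : (0 : ℝ) ≤ (∏ _a ∈ s, (2 : ℝ)) / 2 ^ σ.N := by positivity
  by_cases hs : ∏ a ∈ s, σ.pr a ≤ σ.X ∧ σ.Surv s
  swap
  · rw [if_neg hs]
    split_ifs <;> linarith
  rw [if_pos hs, if_pos hs.1, Nat.cast_one]
  by_cases k4 : s.card ≤ σ.N
  swap
  · have : (1 : ℝ) ≤ (∏ _a ∈ s, (2 : ℝ)) / 2 ^ σ.N := by
      rw [Finset.prod_const, one_le_div (by positivity)]
      exact pow_le_pow_right₀ one_le_two (by omega)
    linarith
  obtain ⟨hX, lab, hlab⟩ := hs
  set c : ι → Option L := fun a => if a ∈ s then some (lab a) else none with hc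
  have hcs : supp c = s := by
    ext a
    by_cases h : a ∈ s <;> simp [supp, hc, h]
  by_cases k5 : ok (σ.actset c)
  swap
  · have : 1 ≤ ∑ Λ with ¬ ok Λ, ∏ a ∈ s, σ.gl Λ a := by
      refine le_trans (le_of_eq (Finset.prod_eq_one fun a ha => ?_).symm)
        (Finset.single_le_sum (fun Λ _ => Finset.prod_nonneg fun a _ => gl_nonneg Λ a)
          (mem_filter.mpr ⟨mem_univ _, k5⟩))
      unfold gl
      split_ifs with k6 k7
      · exact absurd (mem_filter.mpr ⟨mem_univ _, a, mem_tup.mpr (by simp [hc, ha]), k6⟩)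
          (Finset.disjoint_left.mp k7 (hlab a ha).1)
      all_goals rfl
    linarith
  refine le_add_of_nonneg_of_le (by linarith) (le_trans (le_of_eq ?_)
    (Finset.single_le_sum (fun c _ => ht0 c) (a := c) (by simp [hcs])))
  rw [if_pos k5, hcs, cut, if_pos hX, h, if_pos k4, one_mul]
  refine (Finset.prod_eq_one fun a _ => ?_).symm
  by_cases h : a ∈ s
  swap
  · simp [GG, hc, h]
  have e : c a = some (lab a) := by simp [hc, h]
  rw [GG, e, Option.elim_some, if_pos (hlab a h).1]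
  split_ifs with h1
  · have h2 : ∀ j, σ.sym a (lab a) j c = ∏ b ∈ s.erase a, σ.ψ a (lab a) j b (lab b) := fun j => by
      rw [sym, ← Finset.prod_subset (subset_univ (s.erase a)) fun b _ hb => by
        by_cases h3 : b ∈ s
        · obtain rfl : b = a := by simpa [h3] using hb
          simp [hc, h3]
        · simp [hc, h3]]
      refine Finset.prod_congr rfl fun b hb => ?_
      simp [hc, mem_of_mem_erase hb, ne_of_mem_erase hb]
    simp only [h2]
    rw [Finset.prod_congr rfl fun j hj => congrArg (1 + ·) ((hlab a h).2 j hj),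
      Finset.prod_const, ← mul_pow]
    norm_num
  · rfl

lemma abs_gg_le (H : σ.OK) (a : ι) (o : Option (L × Finset J × Bool)) (c : ι → Option L) :
    |σ.gg a o c| ≤ o.elim 1 (σ.wt a) := by
  cases o with
  | none => simp [gg]
  | some w =>
    simp only [gg, Option.elim_some]
    rw [abs_mul, abs_of_nonneg (wt_nonneg a w)]
    exact mul_le_of_le_one_right (wt_nonneg a w)
      (abs_prod_le _ fun j _ => abs_mul_le (H.sg _ _ _) (abs_sym_le H _ _ _ _))

lemma sum_wt_le (U : Finset (L × Finset J × Bool)) (a : ι) :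
    ∑ w, (if ¬ σ.big a ∨ w ∈ U then σ.wt a w else 0) ≤ σ.gm U a := by
  unfold gm
  by_cases hb : σ.big a
  · simp only [hb, not_true, false_or, if_true]
    rw [Finset.sum_filter, Finset.sum_ite_mem, univ_inter]
    refine Finset.sum_le_sum fun w _ => le_of_eq ?_
    rw [wt, if_pos hb, ite_and]
  · simp only [hb, not_false_eq_true, true_or, if_true, if_false]
    rw [Fintype.sum_prod_type]
    calc _ ≤ ∑ _l : L, (1 : ℝ) := by
          refine Finset.sum_le_sum fun l _ => ?_
          rw [Fintype.sum_prod_type, Finset.sum_eq_single ∅]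
          · simp only [wt, hb, if_false, if_true, sum_const, card_univ, Fintype.card_bool]
            split_ifs <;> norm_num
          · intro T _ hT
            simp [wt, hb, hT]
          · simp
      _ = _ := by simp

lemma main_bound (H : σ.OK) (U : Finset (L × Finset J × Bool)) :
    σ.TT U ≤ ∑ s, σ.cut s * ∏ a ∈ s, σ.gm U a := by
  set w2 : ι → Option (L × Finset J × Bool) → ℝ := fun a o =>
    o.elim 1 fun w => if ¬ σ.big a ∨ w ∈ U then σ.wt a w else 0 with hw2
  have hw20 : ∀ a o, 0 ≤ w2 a o := by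
    intro a o
    cases o with
    | none => simp [hw2]
    | some w =>
      simp only [hw2, Option.elim_some]
      split_ifs
      · exact wt_nonneg _ _
      · rfl
  have h1 : σ.TT U ≤ ∑ c : ι → Option (L × Finset J × Bool),
      σ.cut (univ.filter fun a => (Option.isSome ∘ c) a) * ∏ a, w2 a (c a) := by
    refine Finset.sum_le_sum fun c _ => ?_
    split_ifs with h3
    · rw [one_mul]
      refine mul_le_mul_of_nonneg_left ((le_abs_self _).trans ?_) (cut_nonneg _)
      rw [Finset.abs_prod]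
      refine Finset.prod_le_prod (fun _ _ => abs_nonneg _) fun a _ => ?_
      refine (abs_gg_le H a _ _).trans (le_of_eq ?_)
      cases h4 : c a with
      | none => simp [hw2]
      | some w =>
        simp only [hw2, Option.elim_some]
        rw [if_pos]
        by_cases hb : σ.big a
        · exact Or.inr (h3 ▸ mem_filter.mpr ⟨mem_univ _, a, mem_tup.mpr h4, hb⟩)
        · exact Or.inl hb
    · rw [zero_mul]
      exact mul_nonneg (cut_nonneg _) (Finset.prod_nonneg fun a _ => hw20 a _)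
  refine h1.trans ((le_of_eq (fiber_sum (ι := ι)
    (Option.isSome : Option (L × Finset J × Bool) → Bool)
    (fun c => σ.cut (univ.filter fun a => c a)) fun a o _ => w2 a o)).trans ?_)
  calc _ ≤ ∑ c : ι → Bool, σ.cut (univ.filter fun a => c a) * ∏ a with c a, σ.gm U a := by
        refine Finset.sum_le_sum fun c _ => mul_le_mul_of_nonneg_left ?_ (cut_nonneg _)
        rw [Finset.prod_filter]
        refine Finset.prod_le_prod (fun a _ => Finset.sum_nonneg fun o _ => hw20 a o) fun a _ => ?_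
        rw [Finset.sum_filter, Fintype.sum_option]
        cases c a with
        | false => simp [hw2]
        | true => simpa [hw2] using sum_wt_le U a
    _ = _ := by
        refine Finset.sum_nbij' (fun c => univ.filter fun a => c a) (fun s a => decide (a ∈ s))
          (by simp) (by simp) ?_ ?_ fun _ _ => rfl
        · intro c _
          funext a
          simp
        · intro s _
          ext a
          simp

lemma TT_zero {U : Finset (L × Finset J × Bool)} {u : L × Finset J × Bool} (hu : u ∈ U)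
    (h : ¬ u.2.1 ⊆ σ.gens u.1) : σ.TT U = 0 := by
  refine Finset.sum_eq_zero fun c _ => ?_
  split_ifs with h1
  · obtain ⟨a, h2, h3⟩ := (mem_filter.mp (h1 ▸ hu : u ∈ σ.actset c)).2
    rw [Finset.prod_eq_zero (mem_univ a), mul_zero, mul_zero]
    simp [mem_tup.mp h2, gg, wt, h3, h]
  · rw [zero_mul]

variable (σ)

noncomputable def KK0 (z : (L × Finset J × Bool) × (L × Finset J × Bool)) (s t : Finset ι) : ℝ :=
  ∏ a ∈ s, ∏ b ∈ t, if b = a then 1 else ∏ j ∈ z.1.2.1, σ.ψ a z.1.1 j b z.2.1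

noncomputable def Phi (U : Finset (L × Finset J × Bool)) (n : L × Finset J × Bool → Finset ι) :
    ℝ :=
  (∏ w, if ((∃ a ∈ n w, σ.big a) ↔ w ∈ U) then 1 else 0) *
  ∏ w, ∏ a ∈ n w, (σ.wt a w * ∏ j ∈ w.2.1, σ.sg a w.1 j)

noncomputable def cutT (n : L × Finset J × Bool → Finset ι) : ℝ :=
  if ∏ w, ∏ a ∈ n w, σ.pr a ≤ σ.X then σ.h (∑ w, (n w).card) else 0

noncomputable def Psi (U : Finset (L × Finset J × Bool)) (u v : L × Finset J × Bool)
    (n : L × Finset J × Bool → Finset ι) : ℝ :=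
  (∏ z with z.1 ≠ z.2 ∧ z ≠ (u, v) ∧ z ≠ (v, u),
    if Disjoint (n z.1) (n z.2) then (1 : ℝ) else 0) * σ.Phi U n *
    ∏ z ∈ (univ.erase (u, v)).erase (v, u), σ.KK0 z (n z.1) (n z.2)

variable {σ}

lemma bridge (U : Finset (L × Finset J × Bool)) (c : ι → Option (L × Finset J × Bool)) :
    (if σ.actset c = U then 1 else 0) *
      (σ.cut (supp c) * ∏ a, σ.gg a (c a) (Option.map Prod.fst ∘ c))
      = σ.cutT (tup c) * (σ.Phi U (tup c) * ∏ z, σ.KK0 z (tup c z.1) (tup c z.2)) := by
  have e1 : σ.cut (supp c) = σ.cutT (tup c) := by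
    have := prod_supp c fun _ => Multiplicative.ofAdd 1
    simp only [prod_const, ← ofAdd_nsmul, ← ofAdd_sum, smul_eq_mul, mul_one,
      EmbeddingLike.apply_eq_iff_eq] at this
    rw [cut, cutT, prod_supp, this]
  have e2 : (if σ.actset c = U then (1 : ℝ) else 0)
      = ∏ w, if ((∃ a ∈ tup c w, σ.big a) ↔ w ∈ U) then 1 else 0 := by
    rw [Finset.prod_boole]
    simp only [actset, Finset.ext_iff, mem_filter, mem_univ, true_and, true_imp_iff]
  have e3 : ∏ a, σ.gg a (c a) (Option.map Prod.fst ∘ c) = ∏ w, ∏ a ∈ tup c w,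
      (σ.wt a w * ∏ j ∈ w.2.1, (σ.sg a w.1 j * σ.sym a w.1 j (Option.map Prod.fst ∘ c))) :=
    (prod_tup c _).symm
  rw [e1, e2, e3, Phi, mul_left_comm, mul_assoc]
  congr 2
  rw [Fintype.prod_prod_type (α₁ := L × Finset J × Bool) (α₂ := L × Finset J × Bool),
    ← Finset.prod_mul_distrib]
  refine Finset.prod_congr rfl fun w _ => ?_
  have e4 : ∀ a, ∏ j ∈ w.2.1, σ.sym a w.1 j (Option.map Prod.fst ∘ c) =
      ∏ w' : L × Finset J × Bool, ∏ b ∈ tup c w',
        if b = a then 1 else ∏ j ∈ w.2.1, σ.ψ a w.1 j b w'.1 := by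
    intro a
    rw [prod_tup c fun b w' => if b = a then 1 else ∏ j ∈ w.2.1, σ.ψ a w.1 j b w'.1]
    simp only [sym]
    rw [Finset.prod_comm]
    refine Finset.prod_congr rfl fun b _ => ?_
    cases h : c b with
    | none => simp [h]
    | some w' =>
      simp only [comp_apply, h, Option.map_some, Option.elim_some]
      split_ifs
      · simp
      · rfl
  simp only [Finset.prod_mul_distrib, e4, mul_assoc]
  congr 2
  rw [Finset.prod_comm]
  rfl

lemma sep_Psi (H : σ.OK) (U : Finset (L × Finset J × Bool)) {u v : L × Finset J × Bool}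
    (huv : u ≠ v) : Sep u v (σ.Psi U u v) := by
  have single : ∀ (w : L × Finset J × Bool) (ψ : Finset ι → ℝ),
      Indep u (fun n => ψ (n w)) ∨ Indep v (fun n => ψ (n w)) := fun w ψ =>
    indep_pair (w, w) (by simp only [ne_eq, Prod.mk.injEq]; rintro ⟨rfl, rfl⟩; exact huv rfl)
      (by simp only [ne_eq, Prod.mk.injEq]; rintro ⟨rfl, rfl⟩; exact huv rfl) huv fun s _ => ψ s
  refine Sep.mul (Sep.mul (Sep.prod _ _ fun z hz => ?_) (Sep.mul (Sep.prod _ _ fun w _ => ?_)
    (Sep.prod _ _ fun w _ => ?_))) (Sep.prod _ _ fun z hz => ?_)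
  · obtain ⟨-, k1, k2⟩ := (mem_filter.mp hz).2
    exact Sep.of_indep (indep_pair z k1 k2 huv fun s t => if Disjoint s t then 1 else 0)
      fun n => by split_ifs <;> simp
  · exact Sep.of_indep (single w fun s => if ((∃ a ∈ s, σ.big a) ↔ w ∈ U) then 1 else 0)
      fun n => by split_ifs <;> simp
  · exact Sep.of_indep (single w fun s => ∏ a ∈ s, (σ.wt a w * ∏ j ∈ w.2.1, σ.sg a w.1 j))
      fun n => abs_prod_le _ fun a _ => abs_mul_le
        ((abs_of_nonneg (wt_nonneg a w)).trans_le (wt_le a w))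
        (abs_prod_le _ fun j _ => H.sg _ _ _)
  · refine Sep.of_indep (indep_pair z (ne_of_mem_erase (mem_of_mem_erase hz)) (ne_of_mem_erase hz)
      huv (σ.KK0 z)) fun n => abs_prod_le _ fun a _ => abs_prod_le _ fun b _ => ?_
    split_ifs
    · simp
    · exact abs_prod_le _ fun j _ => H.ψ1 _ _ _ _ _

lemma Phi_ne_zero {U : Finset (L × Finset J × Bool)} {n : L × Finset J × Bool → Finset ι}
    (h : σ.Phi U n ≠ 0) (w : L × Finset J × Bool) : ∀ a ∈ n w, w.1 ∈ σ.R a :=
  fun a ha => (ite_ne_right_iff.mp (left_ne_zero_of_mul (Finset.prod_ne_zero_iff.mp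
    (Finset.prod_ne_zero_iff.mp (right_ne_zero_of_mul h) w (mem_univ _)) a ha))).1

lemma TT_eq (U : Finset (L × Finset J × Bool)) {u v : L × Finset J × Bool} (huv : u ≠ v)
    {κ : ι → ι → ℝ} (h0 : ∀ a, κ a a = 0) (hκ : ∀ a b, a ≠ b → u.1 ∈ σ.R a → v.1 ∈ σ.R b →
      (∏ j ∈ u.2.1, σ.ψ a u.1 j b v.1) * ∏ j ∈ v.2.1, σ.ψ b v.1 j a u.1 = κ a b) :
    σ.TT U = ∑ n, σ.Psi U u v n * (σ.cutT n * ∏ a ∈ n u, ∏ b ∈ n v, κ a b) := by
  unfold TT
  simp_rw [bridge]
  rw [sum_tup (fun n => σ.cutT n * (σ.Phi U n * ∏ z, σ.KK0 z (n z.1) (n z.2))),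
    Finset.sum_filter]
  refine Finset.sum_congr rfl fun n _ => ?_
  have hvu : (v, u) ∈ univ.erase (u, v) :=
    mem_erase.mpr ⟨fun h => huv (Prod.mk.inj h).2, mem_univ _⟩
  rw [← Finset.mul_prod_erase _ _ (mem_univ (u, v)), ← Finset.mul_prod_erase _ _ hvu, Psi,
    Finset.prod_boole]
  by_cases hd : Disj n
  · rw [if_pos hd, if_pos fun z hz => hd _ _ (mem_filter.mp hz).2.1]
    by_cases hP : σ.Phi U n = 0
    · simp [hP]
    have : σ.KK0 (u, v) (n u) (n v) * σ.KK0 (v, u) (n v) (n u) =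
        ∏ a ∈ n u, ∏ b ∈ n v, κ a b := by
      rw [KK0, KK0, Finset.prod_comm (s := n v), ← Finset.prod_mul_distrib]
      refine Finset.prod_congr rfl fun a ha => ?_
      rw [← Finset.prod_mul_distrib]
      refine Finset.prod_congr rfl fun b hb => ?_
      have hab : a ≠ b := fun h => Finset.disjoint_left.mp (hd u v huv) ha (h ▸ hb)
      rw [if_neg hab, if_neg hab.symm]
      exact hκ a b hab (Phi_ne_zero hP u a ha) (Phi_ne_zero hP v b hb)
    rw [← this]
    ring
  · rw [if_neg hd]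
    by_cases hd2 : Disjoint (n u) (n v)
    · rw [if_neg]
      · ring
      · intro hcon
        apply hd
        intro w w' hw
        by_cases k1 : (w, w') = (u, v)
        · obtain ⟨rfl, rfl⟩ := Prod.mk.inj k1
          exact hd2
        by_cases k2 : (w, w') = (v, u)
        · obtain ⟨rfl, rfl⟩ := Prod.mk.inj k2
          exact hd2.symm
        exact hcon (w, w') (mem_filter.mpr ⟨mem_univ _, hw, k1, k2⟩)
    · obtain ⟨a, h1, h2⟩ := Finset.not_disjoint_iff.mp hd2
      rw [Finset.prod_eq_zero h1 (Finset.prod_eq_zero h2 (h0 _)), mul_zero, mul_zero]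

lemma Psi_ne_zero (H : σ.OK) {U : Finset (L × Finset J × Bool)} {u v : L × Finset J × Bool}
    {n : L × Finset J × Bool → Finset ι} (h : σ.Psi U u v n ≠ 0) {w : L × Finset J × Bool}
    (hw : w ∈ U) : σ.Y ≤ ∏ a ∈ n w, σ.pr a ∧ ∀ a ∈ n w, w.1 ∈ σ.R a := by
  have h3 : σ.Phi U n ≠ 0 := right_ne_zero_of_mul (left_ne_zero_of_mul h)
  refine ⟨?_, Phi_ne_zero h3 w⟩
  obtain ⟨a, h4, h5⟩ := (ite_ne_right_iff.mp (Finset.prod_ne_zero_iff.mp
    (left_ne_zero_of_mul h3) w (mem_univ _))).1.mpr hw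
  exact (le_of_lt h5).trans (Finset.single_le_prod' (f := σ.pr) (fun a _ => (H.hp a).pos) h4)

lemma error_bound (H : σ.OK) {m K : ℕ} (hm : 1 ≤ m) (hmY : m ≤ σ.Y) (hX : σ.X < 2 ^ K)
    (U : Finset (L × Finset J × Bool)) {u v : L × Finset J × Bool} (hu : u ∈ U) (hv : v ∈ U)
    (huv : u ≠ v) {κ : ι → ι → ℝ} (h0 : ∀ a, κ a a = 0) (h1 : ∀ a b, |κ a b| ≤ 1)
    (hκ : ∀ a b, a ≠ b → u.1 ∈ σ.R a → v.1 ∈ σ.R b →
      (∏ j ∈ u.2.1, σ.ψ a u.1 j b v.1) * ∏ j ∈ v.2.1, σ.ψ b v.1 j a u.1 = κ a b)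
    (hR : Rect σ.pr κ (fun a => u.1 ∈ σ.R a) (fun a => v.1 ∈ σ.R a) σ.N (m ^ 2) K σ.Y) :
    σ.TT U ≤ K * (2 * (σ.N + 3) * σ.X / m) *
      (∏ a, (1 + 1 / (σ.pr a : ℝ))) ^ Fintype.card (L × Finset J × Bool) := by
  obtain ⟨α, β, hα, hβ, hαb, hβb, hαβ⟩ := sep_Psi H U huv
  rw [TT_eq U huv h0 hκ]
  refine (sum_split2 huv _ (fun n => K * (2 * (σ.N + 3) * σ.X / m) *
    ∏ w, (1 / ((∏ a ∈ n w, σ.pr a : ℕ) : ℝ))) (fun n => by positivity)
    fun n hnu hnv => ?_).trans (le_of_eq (by rw [← Finset.mul_sum, sum_prod_inv]))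
  have e2 : ∀ s t, σ.Psi U u v (update (update n u s) v t)
      = α (update n u s) * β (update n v t) := fun s t => by
    rw [hαβ, hα, update_comm huv, hβ]
  have hP : 0 < ∏ w, ∏ a ∈ n w, σ.pr a :=
    Finset.prod_pos fun w _ => Finset.prod_pos fun a _ => (H.hp a).pos
  have e3 : ∀ s t, σ.cutT (update (update n u s) v t) = if (∏ a ∈ s, σ.pr a) * ∏ a ∈ t, σ.pr a ≤
      σ.X / ∏ w, ∏ a ∈ n w, σ.pr a then σ.h (s.card + t.card + ∑ w, (n w).card) else 0 := by
    intro s t
    have := prod_update2 huv (fun s => Multiplicative.ofAdd s.card) rfl hnu hnv s t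
    simp only [← ofAdd_sum, ← ofAdd_add, EmbeddingLike.apply_eq_iff_eq] at this
    simp only [cutT, this, Nat.le_div_iff_mul_le hP,
      prod_update2 huv (fun s => ∏ a ∈ s, σ.pr a) rfl hnu hnv s t]
  simp only [e2, e3, update_of_ne huv, update_self]
  refine (hyper H.hp H.inj h1 hR hm hmY (h := fun r => σ.h (r + ∑ w, (n w).card))
    (fun r => (abs_of_nonneg (h_nonneg _)).trans_le (h_le _))
    (fun r hr => if_neg (by omega)) _ _
    (fun s => hαb _) (fun t => hβb _) _ ((Nat.div_le_self _ _).trans_lt hX)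
    fun s t h => ?_).trans ?_
  · rw [← e2] at h
    have k1 := Psi_ne_zero H h hu
    have k2 := Psi_ne_zero H h hv
    rw [update_of_ne huv, update_self] at k1
    rw [update_self] at k2
    exact ⟨k1, k2⟩
  · rw [Finset.prod_div_distrib, Finset.prod_const_one, ← Nat.cast_prod]
    calc _ ≤ K * (2 * (σ.N + 3) * ((σ.X : ℝ) / (∏ w, ∏ a ∈ n w, σ.pr a : ℕ)) / m) := by
          gcongr
          exact Nat.cast_div_le
      _ = _ := by ring

end T3

end Pool.Agent.P.MP_ab3ecb_nt
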