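import Pool.Agent.P.MP_ab3ecb_nt.Defs

/-!
Quaternion algebras: the Azumaya property, base change, splitting, and local invariants.
-/

namespace Pool.Agent.P.MP_ab3ecb_nt

open Polynomial TensorProduct Quaternion QuaternionAlgebra

set_option maxHeartbeats 400000

lemma quat_decomp {R : Type*} [CommRing R] {a b : R} (x : ℍ[R,a,0,b]) :
    x = x.re • (1 : ℍ[R,a,0,b]) + x.imI • ⟨0, 1, 0, 0⟩ + x.imJ • ⟨0, 0, 1, 0⟩
      + x.imK • ⟨0, 0, 0, 1⟩ := by
  ext <;> simp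

theorem quat_azumaya {R : Type} [CommRing R] [Nontrivial R] {a b : R} (h2 : IsUnit (2 : R))
    (ha : IsUnit a) (hb : IsUnit b) : IsAzumaya R ℍ[R,a,0,b] := by
  obtain ⟨c, hc⟩ := h2.exists_right_inv
  obtain ⟨a', ha'⟩ := ha.exists_right_inv
  obtain ⟨b', hb'⟩ := hb.exists_right_inv
  have hsurj : Function.Surjective (AlgHom.mulLeftRight R ℍ[R,a,0,b]) := by
    set φ := AlgHom.mulLeftRight R ℍ[R,a,0,b] with hφ
    let T : ℍ[R,a,0,b] → ℍ[R,a,0,b] → ℍ[R,a,0,b] ⊗[R] ℍ[R,a,0,b]ᵐᵒᵖ :=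
      fun x y => x ⊗ₜ MulOpposite.op y
    have hT : ∀ x y z, φ (T x y) z = x * z * y := fun x y z => by
      simp [T, hφ, AlgHom.mulLeftRight_apply]
    let ω := (c * c) • (T 1 1 + a' • T ⟨0, 1, 0, 0⟩ ⟨0, 1, 0, 0⟩ + b' • T ⟨0, 0, 1, 0⟩ ⟨0, 0, 1, 0⟩
      - (a' * b') • T ⟨0, 0, 0, 1⟩ ⟨0, 0, 0, 1⟩)
    have hω : ∀ z, φ ω z = z.re • (1 : ℍ[R,a,0,b]) := by
      intro z
      simp only [ω, map_smul, map_add, map_sub, LinearMap.smul_apply, LinearMap.add_apply,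
        LinearMap.sub_apply, hT]
      ext
      · simp
        linear_combination (z.re * (2 * c + 1)) * hc + (c * c * z.re * (1 + b * b')) * ha'
          + (2 * c * c * z.re) * hb'
      · simp
        linear_combination (-(c * c * z.imI * (1 + a * a'))) * hb'
      · simp
        linear_combination (-(c * c * z.imJ * (1 + b * b'))) * ha'
      · simp
        linear_combination (-(c * c * z.imK * (1 - b * b'))) * ha'
    intro f
    refine ⟨T (f 1) 1 * ω + T (f ⟨0, 1, 0, 0⟩) 1 * ω * T ⟨0, a', 0, 0⟩ 1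
      + T (f ⟨0, 0, 1, 0⟩) 1 * ω * T ⟨0, 0, b', 0⟩ 1
      + T (f ⟨0, 0, 0, 1⟩) 1 * ω * T ⟨0, 0, 0, - (a' * b')⟩ 1, ?_⟩
    ext1 z
    simp only [map_add, map_mul, LinearMap.add_apply, Module.End.mul_apply, hT, hω, mul_one,
      mul_smul_comm]
    conv_rhs => rw [quat_decomp z, map_add, map_add, map_add, map_smul, map_smul, map_smul,
      map_smul]
    congr 3
    · congr 1
      simp
      linear_combination z.imI * ha'
    · simp
      linear_combination z.imJ * hb'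
    · simp
      linear_combination (z.imK * b * b') * ha' + z.imK * hb'
  have hfr : Module.finrank R (ℍ[R,a,0,b] ⊗[R] ℍ[R,a,0,b]ᵐᵒᵖ)
      = Module.finrank R (Module.End R ℍ[R,a,0,b]) := by
    rw [Module.finrank_tensorProduct, Module.finrank_linearMap,
      ← (MulOpposite.opLinearEquiv R).finrank_eq]
  have e := LinearEquiv.ofFinrankEq _ _ hfr
  have : FaithfulSMul R ℍ[R,a,0,b] :=
    (faithfulSMul_iff_algebraMap_injective _ _).mpr QuaternionAlgebra.algebraMap_injective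
  exact { bij := ⟨OrzechProperty.injective_of_surjective_of_injective e.toLinearMap
    (AlgHom.mulLeftRight R ℍ[R,a,0,b]).toLinearMap e.injective hsurj, hsurj⟩ }

theorem quat_baseChange {R S : Type} [CommRing R] [CommRing S] [Algebra R S] (a b : R) :
    Nonempty (S ⊗[R] ℍ[R,a,0,b] ≃ₐ[S] ℍ[S,algebraMap R S a,0,algebraMap R S b]) := by
  let B1 : QuaternionAlgebra.Basis (R := R) ℍ[S,algebraMap R S a,0,algebraMap R S b] a 0 b :=
    { i := ⟨0, 1, 0, 0⟩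
      j := ⟨0, 0, 1, 0⟩
      k := ⟨0, 0, 0, 1⟩
      i_mul_i := by ext <;> simp [Algebra.algebraMap_eq_smul_one]
      j_mul_j := by ext <;> simp [Algebra.algebraMap_eq_smul_one]
      i_mul_j := by ext <;> simp
      j_mul_i := by ext <;> simp }
  let B2 : QuaternionAlgebra.Basis (R := S) (S ⊗[R] ℍ[R,a,0,b])
      (algebraMap R S a) 0 (algebraMap R S b) :=
    { i := 1 ⊗ₜ (Basis.self R).i
      j := 1 ⊗ₜ (Basis.self R).j
      k := 1 ⊗ₜ (Basis.self R).k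
      i_mul_i := by
        rw [Algebra.TensorProduct.tmul_mul_tmul, Basis.i_mul_i, algebraMap_smul, zero_smul,
          zero_smul, add_zero, add_zero, mul_one, tmul_smul]
        rfl
      j_mul_j := by
        rw [Algebra.TensorProduct.tmul_mul_tmul, Basis.j_mul_j, algebraMap_smul, mul_one,
          tmul_smul]
        rfl
      i_mul_j := by rw [Algebra.TensorProduct.tmul_mul_tmul, Basis.i_mul_j, mul_one]
      j_mul_i := by
        rw [Algebra.TensorProduct.tmul_mul_tmul, Basis.j_mul_i, mul_one, zero_smul, zero_smul,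
          zero_sub, zero_sub, tmul_neg] }
  refine ⟨AlgEquiv.ofAlgHom
    (Algebra.TensorProduct.lift (Algebra.ofId S _) B1.liftHom fun x y => Algebra.commutes x _)
    B2.liftHom ?_ ?_⟩
  · apply QuaternionAlgebra.hom_ext <;> simp [B1, B2, Basis.lift]
  · apply Algebra.TensorProduct.ext
    · ext
    · apply QuaternionAlgebra.hom_ext <;> simp [B1, B2, Basis.lift]

theorem quat_scale {K : Type} [Field K] (a b s : K) (hs : s ≠ 0) :
    Nonempty (ℍ[K,a,0,b] ≃ₐ[K] ℍ[K,a,0,b * s ^ 2]) := by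
  let B1 : QuaternionAlgebra.Basis ℍ[K,a,0,b * s ^ 2] a 0 b :=
    { i := ⟨0, 1, 0, 0⟩
      j := ⟨0, 0, s⁻¹, 0⟩
      k := ⟨0, 0, 0, s⁻¹⟩
      i_mul_i := by ext <;> simp
      j_mul_j := by ext <;> simp; field_simp
      i_mul_j := by ext <;> simp
      j_mul_i := by ext <;> simp }
  let B2 : QuaternionAlgebra.Basis ℍ[K,a,0,b] a 0 (b * s ^ 2) :=
    { i := ⟨0, 1, 0, 0⟩
      j := ⟨0, 0, s, 0⟩
      k := ⟨0, 0, 0, s⟩
      i_mul_i := by ext <;> simp
      j_mul_j := by ext <;> simp; ring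
      i_mul_j := by ext <;> simp
      j_mul_i := by ext <;> simp }
  refine ⟨AlgEquiv.ofAlgHom B1.liftHom B2.liftHom ?_ ?_⟩
  · apply QuaternionAlgebra.hom_ext <;> ext <;> simp [B1, B2, Basis.lift, hs]
  · apply QuaternionAlgebra.hom_ext <;> ext <;> simp [B1, B2, Basis.lift, hs]

theorem quat_split {K : Type} [Field K] [CharZero K] (s b : K) (hs : s ≠ 0) (hb : b ≠ 0) :
    Nonempty (ℍ[K,s ^ 2,0,b] ≃ₐ[K] Matrix (Fin 2) (Fin 2) K) := by
  let B1 : QuaternionAlgebra.Basis (Matrix (Fin 2) (Fin 2) K) (s ^ 2) 0 b :=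
    { i := !![s, 0; 0, -s]
      j := !![0, b; 1, 0]
      k := !![0, s * b; -s, 0]
      i_mul_i := by ext i j; fin_cases i <;> fin_cases j <;> simp [sq]
      j_mul_j := by ext i j; fin_cases i <;> fin_cases j <;> simp
      i_mul_j := by ext i j; fin_cases i <;> fin_cases j <;> simp
      j_mul_i := by ext i j; fin_cases i <;> fin_cases j <;> simp [mul_comm] }
  have hinj : Function.Injective B1.liftHom := by
    rw [injective_iff_map_eq_zero]
    intro x hx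
    have h00 := congrFun (congrFun hx 0) 0
    have h01 := congrFun (congrFun hx 0) 1
    have h10 := congrFun (congrFun hx 1) 0
    have h11 := congrFun (congrFun hx 1) 1
    simp [B1, Basis.lift, Matrix.algebraMap_matrix_apply] at h00 h01 h10 h11
    have k1 : x.re = 0 := by linear_combination (h00 + h11) / 2
    have k2 : x.imI = 0 := by
      apply mul_right_cancel₀ hs
      linear_combination h00 - k1
    have k3 : x.imJ = 0 := by
      apply mul_right_cancel₀ hb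
      linear_combination (h01 + b * h10) / 2
    have k4 : x.imK = 0 := by
      apply mul_right_cancel₀ hs
      linear_combination k3 - h10
    ext <;> simp [k1, k2, k3, k4]
  refine ⟨AlgEquiv.ofBijective B1.liftHom ⟨hinj, ?_⟩⟩
  refine (LinearMap.injective_iff_surjective_of_finrank_eq_finrank
    (f := B1.liftHom.toLinearMap) ?_).mp hinj
  rw [QuaternionAlgebra.finrank_eq_four, Module.finrank_matrix]
  simp

section
variable {K A A' B : Type} [Field K] [Ring A] [Ring A'] [Ring B] [Algebra K A] [Algebra K A']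
  [Algebra K B]

lemma BrEq.of_equiv (e : A ≃ₐ[K] B) : BrEq K A B := ⟨0, 0, ⟨e.mapMatrix⟩⟩

lemma BrEq.trans_left (e : A' ≃ₐ[K] A) (h : BrEq K A B) : BrEq K A' B := by
  obtain ⟨m, n, ⟨f⟩⟩ := h
  exact ⟨m, n, ⟨e.mapMatrix.trans f⟩⟩

lemma BrEq.of_split (e : A ≃ₐ[K] Matrix (Fin 2) (Fin 2) K) : BrEq K A K := by
  have e1 : A ≃ₐ[K] Matrix (Fin 1) (Fin 1) A := AlgEquiv.ofBijective (Matrix.scalarAlgHom (Fin 1) K)
    ⟨fun _ _ h => Matrix.scalar_inj.1 h, fun x =>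
      ⟨x 0 0, by ext i j; fin_cases i; fin_cases j; simp⟩⟩
  exact ⟨0, 1, ⟨e1.symm.trans e⟩⟩

lemma BrEq.quat_left [CharZero K] {a b : K} (ha : IsSquare a) (ha0 : a ≠ 0) (hb : b ≠ 0) :
    BrEq K ℍ[K,a,0,b] K := by
  obtain ⟨s, rfl⟩ := ha
  obtain ⟨e⟩ := quat_split s b (by simpa using ha0) hb
  rw [← sq]
  exact BrEq.of_split e

lemma BrEq.quat_right [CharZero K] {a b : K} (hb : IsSquare b) (ha : a ≠ 0) (hb0 : b ≠ 0) :
    BrEq K ℍ[K,a,0,b] K :=
  BrEq.trans_left (swapEquiv a b) (BrEq.quat_left hb hb0 ha)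

end

lemma InvR.of_equiv {A B : Type} [Ring A] [Ring B] [Algebra ℝ A] [Algebra ℝ B] (e : A ≃ₐ[ℝ] B)
    {q : AddCircle (1 : ℚ)} (h : InvR B q) : InvR A q :=
  h.imp (fun h => ⟨h.1.trans_left e, h.2⟩) fun h => ⟨h.1.trans_left e, h.2⟩

section
variable {p : ℕ} [Fact p.Prime]

lemma InvP.of_equiv {A B : Type} [Ring A] [Ring B] [Algebra ℚ_[p] A] [Algebra ℚ_[p] B]
    (e : A ≃ₐ[ℚ_[p]] B) {q : AddCircle (1 : ℚ)} (h : InvP p B q) : InvP p A q := by
  obtain ⟨D, _, _, θ, u, g, h, c, h1, h2⟩ := h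
  exact ⟨D, _, _, θ, u, g, h, c, h1.trans_left e, h2⟩

lemma InvP.of_split {B : Type} [Ring B] [Algebra ℚ_[p] B] (h : BrEq ℚ_[p] B ℚ_[p]) :
    InvP p B 0 := by
  refine ⟨ℚ_[p], _, _, 0, 1, X, 0, 1, h, by simp, ?_, monic_X, ?_, by simp, ?_, one_ne_zero,
    by simp, by simp⟩
  · exact eq_top_iff.mpr fun x _ => Subalgebra.algebraMap_mem _ x
  · rw [map_X]
    exact irreducible_X
  · simp [(Fact.out : p.Prime).ne_zero]

lemma InvP.cyclic (hp2 : p ≠ 2) (ε : ℤ_[p]) (hε : ¬ IsSquare (PadicInt.toZMod ε)) {a s c : ℚ_[p]}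
    (ha : a = ε * s ^ 2) (hs : s ≠ 0) (hc : c ≠ 0) :
    InvP p ℍ[ℚ_[p],a,0,c] ((c.valuation / 2 : ℚ) : AddCircle (1 : ℚ)) := by
  obtain ⟨m, hm⟩ := (Fact.out : p.Prime).odd_of_ne_two hp2
  have hε0 : PadicInt.toZMod ε ≠ 0 := fun h => hε (h ▸ IsSquare.zero)
  have h1 : PadicInt.toZMod (ε ^ m + 1) = 0 := by
    have k1 := ZMod.pow_div_two_eq_neg_one_or_one p hε0
    rw [← ZMod.euler_criterion p hε0, show p / 2 = m by omega] at k1
    rw [map_add, map_pow, map_one, k1.resolve_left hε, neg_add_cancel]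
  rw [← RingHom.mem_ker, PadicInt.ker_toZMod, PadicInt.maximalIdeal_eq_span_p,
    Ideal.mem_span_singleton] at h1
  obtain ⟨w, hw⟩ := h1
  have hw' : (ε : ℚ_[p]) ^ m + 1 = p * w := by exact_mod_cast congrArg ((↑) : ℤ_[p] → ℚ_[p]) hw
  have hdeg : (X ^ 2 - C ε : ℤ_[p][X]).natDegree = 2 := natDegree_X_pow_sub_C
  set θ : ℍ[ℚ_[p],a,0,c] := ⟨0, s⁻¹, 0, 0⟩ with hθ
  have hθ2 : θ ^ 2 = algebraMap ℚ_[p] _ (ε : ℚ_[p]) := by
    rw [sq, hθ]
    ext <;> simp
    rw [ha]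
    field_simp
  refine ⟨ℍ[ℚ_[p],a,0,c], _, _, θ, ⟨0, 0, 1, 0⟩, X ^ 2 - C ε, - C w * X, c,
    BrEq.of_equiv AlgEquiv.refl, ?_, ?_, monic_X_pow_sub_C _ two_ne_zero, ?_, ?_, ?_, hc, ?_, ?_⟩
  · rw [hdeg, QuaternionAlgebra.finrank_eq_four]
    rfl
  · refine eq_top_iff.mpr fun x _ => ?_
    have m1 : θ ∈ Algebra.adjoin ℚ_[p] {θ, ⟨0, 0, 1, 0⟩} := Algebra.subset_adjoin (by simp)
    have m2 : (⟨0, 0, 1, 0⟩ : ℍ[ℚ_[p],a,0,c]) ∈ Algebra.adjoin ℚ_[p] {θ, ⟨0, 0, 1, 0⟩} :=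
      Algebra.subset_adjoin (by simp)
    have : x = x.re • (1 : ℍ[ℚ_[p],a,0,c]) + (x.imI * s) • θ + x.imJ • ⟨0, 0, 1, 0⟩
        + (x.imK * s) • (θ * ⟨0, 0, 1, 0⟩) := by
      ext <;> simp [hθ, hs]
    rw [this]
    exact add_mem (add_mem (add_mem (Subalgebra.smul_mem _ (one_mem _) _)
      (Subalgebra.smul_mem _ m1 _)) (Subalgebra.smul_mem _ m2 _))
      (Subalgebra.smul_mem _ (mul_mem m1 m2) _)
  · rw [Polynomial.map_sub, Polynomial.map_pow, map_X, map_C]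
    exact X_pow_sub_C_irreducible_of_prime Nat.prime_two fun b hb => hε ⟨b, by rw [← hb, sq]⟩
  · simp [hθ2]
  · have k1 : θ ^ p = ((ε : ℚ_[p]) ^ m) • θ := by
      rw [show θ ^ p = θ ^ (2 * m + 1) by rw [← hm], pow_succ, pow_mul, hθ2, ← map_pow,
        ← Algebra.smul_def]
    have k2 : θ ^ p + p * aeval θ ((- C w * X).map (algebraMap ℤ_[p] ℚ_[p])) = - θ := by
      rw [k1, Polynomial.map_mul, Polynomial.map_neg, map_C, map_X, map_mul, map_neg, aeval_C,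
        aeval_X, ← map_natCast (algebraMap ℚ_[p] ℍ[ℚ_[p],a,0,c]), ← map_neg, ← mul_assoc,
        ← map_mul, ← Algebra.smul_def, ← add_smul, ← neg_one_smul ℚ_[p] θ]
      congr 1
      change _ + _ * (- (w : ℚ_[p])) = _
      linear_combination hw'
    rw [k2, hθ]
    ext <;> simp
  · rw [hdeg, sq]
    ext <;> simp
  · rw [hdeg]
    rfl

lemma InvP.cyclic' (hp2 : p ≠ 2) (ε : ℤ_[p]) (hε : ¬ IsSquare (PadicInt.toZMod ε)) {a s c : ℚ_[p]}
    (ha : a = ε * s ^ 2) (hs : s ≠ 0) (hc : c ≠ 0) :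
    InvP p ℍ[ℚ_[p],c,0,a] ((c.valuation / 2 : ℚ) : AddCircle (1 : ℚ)) :=
  (InvP.cyclic hp2 ε hε ha hs hc).of_equiv (swapEquiv _ _)

end

end Pool.Agent.P.MP_ab3ecb_nt
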