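import Pool.Agent.P.MP_ab3ecb_nt.Has

/-!
Transfer forms of a finite commutative algebra and their Clifford classes.
-/

namespace Pool.Agent.P.MP_ab3ecb_nt

open TensorProduct Module

set_option maxHeartbeats 400000
set_option linter.unusedSectionVars false

section diag
variable {R : Type} [CommRing R]

/-- Every linear functional is represented by `β`. -/
def Perf {M : Type} [AddCommGroup M] [Module R M] (β : LinearMap.BilinForm R M) : Prop :=
  ∀ f : Module.Dual R M, ∃ z, β z = f

/-- An orthogonal family with unit values. -/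
def Orth {M : Type} [AddCommGroup M] [Module R M] (β : LinearMap.BilinForm R M) {n : ℕ}
    (v : Fin n → M) : Prop :=
  (∀ i j, i ≠ j → β (v i) (v j) = 0) ∧ ∀ i, IsUnit (β (v i) (v i))

lemma Orth.cons {M : Type} [AddCommGroup M] [Module R M] {β : LinearMap.BilinForm R M} {n : ℕ}
    {v : Fin n → M} (hv : ∀ i j, i ≠ j → β (v i) (v j) = 0) (hs : ∀ z w, β z w = β w z) {x : M}
    (h : ∀ i, β x (v i) = 0) :
    ∀ i j : Fin (n + 1), i ≠ j → β (Fin.cons (α := fun _ => M) x v i)
      (Fin.cons (α := fun _ => M) x v j) = 0 := by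
  intro i j hij
  induction i using Fin.cases <;> induction j using Fin.cases
  · exact absurd rfl hij
  · simpa using h _
  · rw [hs]; simpa using h _
  · simpa using hv _ _ fun h => hij (congrArg Fin.succ h)

variable [IsLocalRing R]

lemma diag_step {n : ℕ} (ih : ∀ (M : Type) [AddCommGroup M] [Module R M] [Module.Free R M]
      [Module.Finite R M] (β : LinearMap.BilinForm R M), (∀ z w, β z w = β w z) → Perf β →
      finrank R M = n → ∃ v : Fin n → M, Orth β v)
    (M : Type) [AddCommGroup M] [Module R M] [Module.Free R M] [Module.Finite R M]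
    (β : LinearMap.BilinForm R M) (hs : ∀ z w, β z w = β w z) (hp : Perf β)
    (hn : finrank R M = n + 1) {x : M} (hx : IsUnit (β x x)) :
    ∃ v : Fin n → M, Orth β v ∧ ∀ i, β x (v i) = 0 := by
  obtain ⟨c, hc⟩ := hx.exists_left_inv
  let N := LinearMap.ker (β x)
  let π : M →ₗ[R] N := LinearMap.codRestrict N (LinearMap.id - (c • β x).smulRight x) fun m => by
    simp only [N, LinearMap.mem_ker, LinearMap.sub_apply, LinearMap.id_apply,
      LinearMap.smulRight_apply, LinearMap.smul_apply, map_sub, map_smul, smul_eq_mul]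
    linear_combination (-β x m) * hc
  have hπ : ∀ m : M, (π m : M) = m - (c * β x m) • x := fun m => rfl
  have hπ1 : π ∘ₗ N.subtype = LinearMap.id := by
    ext m
    have : β x m = 0 := m.2
    simp [hπ, this]
  have : Module.Projective R N := .of_split _ _ hπ1
  have : Module.Finite R N := .of_surjective π fun m => ⟨m, LinearMap.congr_fun hπ1 m⟩
  have : Module.Free R N := Module.free_of_flat_of_isLocalRing
  have hr : finrank R N = n := by
    have e : M ≃ₗ[R] R × N := LinearEquiv.ofLinearMap ((c • β x).prod π)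
      ((LinearMap.toSpanSingleton R M x).coprod N.subtype) (by
        refine LinearMap.ext fun z => Prod.ext ?_ (Subtype.ext ?_)
        · have : β x z.2 = 0 := z.2.2
          simp [this]
          linear_combination z.1 * hc
        · have : β x z.2 = 0 := z.2.2
          simp [hπ, this, hc]) (by
        ext m
        simp [hπ])
    have := e.finrank_eq
    rw [Module.finrank_prod, Module.finrank_self] at this
    omega
  obtain ⟨v, hv⟩ := ih N (β.comp N.subtype N.subtype) (fun z w => hs _ _) (fun f => by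
    obtain ⟨z, hz⟩ := hp (f ∘ₗ π)
    have h1 : π x = 0 := Subtype.ext (by simp [hπ, hc])
    refine ⟨⟨z, by simp [N, hs x z, hz, h1]⟩, LinearMap.ext fun w => ?_⟩
    change β z w = f w
    rw [hz]
    exact congrArg f (LinearMap.congr_fun hπ1 w)) hr
  exact ⟨fun i => v i, hv, fun i => (v i).2⟩

lemma diag (h2 : IsUnit (2 : R)) (n : ℕ) : ∀ (M : Type) [AddCommGroup M] [Module R M]
    [Module.Free R M] [Module.Finite R M] (β : LinearMap.BilinForm R M),
    (∀ z w, β z w = β w z) → Perf β → finrank R M = n → ∃ v : Fin n → M, Orth β v := by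
  induction n with
  | zero => exact fun M _ _ _ _ β _ _ _ => ⟨Fin.elim0, fun i => i.elim0, fun i => i.elim0⟩
  | succ n ih =>
    intro M _ _ _ _ β hs hp hn
    obtain ⟨x, hx⟩ : ∃ x, IsUnit (β x x) := by
      let b := Module.finBasisOfFinrankEq R M hn
      obtain ⟨z, hz⟩ := hp (b.coord 0)
      have h1 : β z (b 0) = 1 := by simp [hz]
      have h3 : β (z + b 0) (z + b 0) + -β z z + -β (b 0) (b 0) = 2 := by
        simp only [map_add, LinearMap.add_apply, hs (b 0) z, h1]
        ring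
      rcases IsLocalRing.isUnit_or_isUnit_of_isUnit_add (h3 ▸ h2) with h | h
      · rcases IsLocalRing.isUnit_or_isUnit_of_isUnit_add h with h | h
        · exact ⟨_, h⟩
        · exact ⟨_, (IsUnit.neg_iff _).mp h⟩
      · exact ⟨_, (IsUnit.neg_iff _).mp h⟩
    obtain ⟨v, hv, h⟩ := diag_step ih M β hs hp hn hx
    exact ⟨Fin.cons x v, Orth.cons hv.1 hs h, fun i => by
      induction i using Fin.cases
      · exact hx
      · exact hv.2 _⟩

end diag

section forms
variable {R B : Type} [CommRing R] [CommRing B] [Algebra R B]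

/-- The bilinear form `s (γ z w)`. -/
noncomputable def bf (s : B →ₗ[R] R) (γ : B) : LinearMap.BilinForm R B :=
  (LinearMap.mul R B).compr₂ (s ∘ₗ LinearMap.mulLeft R γ)

lemma bf_apply (s : B →ₗ[R] R) (γ z w : B) : bf s γ z w = s (γ * (z * w)) := rfl

lemma bf_symm (s : B →ₗ[R] R) (γ z w : B) : bf s γ z w = bf s γ w z := by
  rw [bf_apply, bf_apply, mul_comm z]

lemma Perf.unit {s : B →ₗ[R] R} (h : Perf (bf s 1)) {γ : B} (hγ : IsUnit γ) : Perf (bf s γ) := by
  intro f
  obtain ⟨z, rfl⟩ := h f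
  obtain ⟨c, hc⟩ := hγ.exists_right_inv
  refine ⟨c * z, LinearMap.ext fun w => ?_⟩
  rw [bf_apply, bf_apply, ← hc]
  ring_nf

lemma isUnit_one_add [IsLocalRing R] [Module.Finite R B] {η : R} (hη : ¬ IsUnit η) (z : B) :
    IsUnit (1 + algebraMap R B η * z) := by
  by_contra h
  obtain ⟨m, hm, h1⟩ := exists_max_ideal_of_mem_nonunits h
  have h2 := IsLocalRing.eq_maximalIdeal
    (Ideal.isMaximal_comap_of_isIntegral_of_isMaximal (R := R) m)
  have h3 : algebraMap R B η ∈ m := by
    rw [← Ideal.mem_comap, h2]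
    exact hη
  exact hm.ne_top ((Ideal.eq_top_iff_one _).mpr
    ((Ideal.add_mem_iff_left _ (m.mul_mem_right z h3)).mp h1))

end forms

section field
variable {K B : Type} [Field K] [CommRing B] [Algebra K B]

/-- The transfer of `γ ⟨1, -α⟩`. -/
noncomputable def phi (s : B →ₗ[K] K) (γ α : B) : QuadraticForm K (B × B) :=
  (LinearMap.BilinMap.toQuadraticMap (bf s γ)).prod
    (-LinearMap.BilinMap.toQuadraticMap (bf s (γ * α)))

lemma phi_apply (s : B →ₗ[K] K) (γ α : B) (z : B × B) :
    phi s γ α z = s (γ * (z.1 * z.1)) - s (γ * α * (z.2 * z.2)) := by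
  simp [phi, bf_apply, sub_eq_add_neg]

/-- The Clifford class of the transfer. -/
noncomputable def cf (s : B →ₗ[K] K) (γ α : B) : Br K := cc (phi s γ α)

lemma exists_sq {γ γ' : B} (h : IsUnit γ) (h' : IsUnit γ') (hs : IsSquare (γ * γ')) :
    ∃ u : Bˣ, γ = γ' * (u * u) := by
  obtain ⟨t, ht⟩ := hs
  have h1 : IsUnit t := isUnit_of_mul_isUnit_left (ht ▸ h.mul h')
  obtain ⟨γ', rfl⟩ := h'
  obtain ⟨t, rfl⟩ := h1
  refine ⟨t * γ'⁻¹, ?_⟩
  rw [Units.val_mul, mul_mul_mul_comm, ← ht]
  have := γ'.mul_inv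
  linear_combination (-γ * (1 + (γ' : B) * (γ'⁻¹ : Bˣ))) * this

lemma cf_congr (s : B →ₗ[K] K) {γ α γ' α' : B} (h1 : IsUnit γ) (h2 : IsUnit α) (h3 : IsUnit γ')
    (h4 : IsUnit α') (h5 : IsSquare (γ * γ')) (h6 : IsSquare (α * α')) :
    cf s γ α = cf s γ' α' := by
  obtain ⟨u, hu⟩ := exists_sq h1 h3 h5
  obtain ⟨w, hw⟩ := exists_sq h2 h4 h6
  refine cc_congr (equiv_of ((u.mulLeftLinearEquiv K B).prodCongr
    ((u * w).mulLeftLinearEquiv K B)) fun z => ?_)
  rw [phi_apply, phi_apply, hu, hw]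
  simp only [LinearEquiv.prodCongr_apply, Units.mulLeftLinearEquiv_apply, Units.val_mul]
  ring_nf

variable [CharZero K] [Module.Finite K B]

lemma has_phi (s : B →ₗ[K] K) (γ α : B) {n : ℕ} (hn : finrank K B = n) {v w : Fin n → B}
    (hv : Orth (bf s γ) v) (hw : Orth (bf s (γ * α)) w) :
    Has (phi s γ α) (∏ k, bf s γ (v k) (v k) * bf s (γ * α) (w k) (w k))
      (pc n (fun k => bf s γ (v k) (v k)) fun k => -bf s (γ * α) (w k) (w k)) ∧
    IsSquare ((∏ k, bf s γ (v k) (v k) * bf s (γ * α) (w k) (w k)) * Algebra.norm K α) := by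
  classical
  have key : ∀ (β : LinearMap.BilinForm K B) (v : Fin n → B), Orth β v →
      ∃ b : Basis (Fin n) K B, LinearMap.BilinForm.toMatrix b β =
        Matrix.diagonal (fun k => β (v k) (v k)) ∧
        ∀ c, β (b.equivFun.symm c) (b.equivFun.symm c) = ∑ k, β (v k) (v k) * (c k * c k) := by
    intro β v hv
    have h1 : LinearIndependent K v := by
      rw [Fintype.linearIndependent_iff]
      intro c hc i
      have := congrArg (fun z => β z (v i)) hc
      simp only [map_sum, map_smul, LinearMap.sum_apply, LinearMap.smul_apply, map_zero,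
        LinearMap.zero_apply, smul_eq_mul] at this
      rw [Finset.sum_eq_single i (fun j _ hj => by rw [hv.1 j i hj, mul_zero]) (by simp)] at this
      exact (mul_eq_zero.mp this).resolve_right (hv.2 i).ne_zero
    refine ⟨basisOfLinearIndependentOfCardEqFinrank' v h1 (by simp [hn]), ?_, fun c => ?_⟩
    · ext i j
      rw [LinearMap.BilinForm.toMatrix_apply, coe_basisOfLinearIndependentOfCardEqFinrank',
        Matrix.diagonal_apply]
      split_ifs with h
      · rw [h]
      · exact hv.1 _ _ h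
    · simp only [Basis.equivFun_symm_apply, coe_basisOfLinearIndependentOfCardEqFinrank', map_sum,
        map_smul, LinearMap.sum_apply, LinearMap.smul_apply, smul_eq_mul]
      refine Finset.sum_congr rfl fun i _ => ?_
      rw [Finset.sum_eq_single i (fun j _ hj => by rw [hv.1 j i hj, mul_zero]) (by simp)]
      ring
  obtain ⟨b, b1, b2⟩ := key _ v hv
  obtain ⟨c, c1, c2⟩ := key _ w hw
  constructor
  · have := has_PF n (fun k => bf s γ (v k) (v k)) (fun k => -bf s (γ * α) (w k) (w k))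
      (fun k => (hv.2 k).ne_zero) fun k => neg_ne_zero.mpr (hw.2 k).ne_zero
    simp only [mul_neg, neg_neg] at this
    refine this.congr (QuadraticMap.Equivalent.symm
      (equiv_of (b.equivFun.symm.prodCongr c.equivFun.symm) fun z => ?_))
    rw [phi_apply, ← bf_apply, ← bf_apply, LinearEquiv.prodCongr_apply, b2, c2]
    simp [PF, sub_eq_add_neg]
  · have h1 : bf s (γ * α) = (bf s γ).comp LinearMap.id (LinearMap.mulLeft K α ∘ₗ .id) := by
      ext z w
      simp only [LinearMap.BilinForm.comp_apply, bf_apply, LinearMap.id_apply,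
        LinearMap.comp_apply, LinearMap.mulLeft_apply]
      ring_nf
    rw [h1, LinearMap.BilinForm.toMatrix_comp b c, LinearMap.toMatrix_comp c b b, b1, ← h1] at c1
    have h2 := congrArg Matrix.det c1
    simp only [Matrix.det_mul, Matrix.det_transpose, Matrix.det_diagonal,
      LinearMap.det_toMatrix] at h2
    have h3 : Algebra.norm K α = LinearMap.det (LinearMap.mulLeft K α) := rfl
    rw [Finset.prod_mul_distrib, ← h2, h3]
    exact ⟨(∏ k, bf s γ (v k) (v k)) * LinearMap.det (LinearMap.mulLeft K α) *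
      (LinearMap.toMatrix c b LinearMap.id).det, by ring⟩

variable {s : B →ₗ[K] K}

lemma cf_smul (hs : Perf (bf s 1)) {γ α : B} (hγ : IsUnit γ) (hα : IsUnit α) {t : K}
    (ht : t ≠ 0) : cf s (algebraMap K B t * γ) α = cf s γ α * sy t (Algebra.norm K α) := by
  have h2 : IsUnit (2 : K) := IsUnit.mk0 _ two_ne_zero
  obtain ⟨v, hv⟩ := diag h2 _ B _ (bf_symm s γ) (hs.unit hγ) rfl
  obtain ⟨w, hw⟩ := diag h2 _ B _ (bf_symm s _) (hs.unit (hγ.mul hα)) rfl
  obtain ⟨h3, h4⟩ := has_phi s γ α rfl hv hw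
  have h5 : phi s (algebraMap K B t * γ) α = t • phi s γ α := QuadraticMap.ext fun z => by
    simp only [phi_apply, ← Algebra.smul_def, smul_mul_assoc, map_smul, smul_apply, smul_sub]
  rw [cf, cf, h5, h3.cc_smul ht, h3.cc_eq, sy_congr ht h3.1 (hα.map _).ne_zero h4]

lemma cf_of_isSquare (hs : Perf (bf s 1)) {γ α : B} (hγ : IsUnit γ) (hα : IsUnit α)
    (h : IsSquare α) : cf s γ α = 1 := by
  rw [cf_congr s hγ hα hγ isUnit_one ⟨γ, rfl⟩ (by rwa [mul_one])]
  obtain ⟨v, hv⟩ := diag (IsUnit.mk0 (2 : K) two_ne_zero) _ B _ (bf_symm s γ) (hs.unit hγ) rfl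
  rw [cf, (has_phi s γ 1 rfl hv (by rwa [mul_one])).1.cc_eq, mul_one]
  exact pc_neg _ _ fun k => (hv.2 k).ne_zero

end field

section descent
variable {R B : Type} [CommRing R] [CommRing B] [Algebra R B] [IsLocalRing R]
  [Module.Free R B] [Module.Finite R B] {s : B →ₗ[R] R}

/-- `Φ` is a base change of the pair `(B, s)`. -/
structure BC (s : B →ₗ[R] R) {K C : Type} [Field K] [CommRing C] [Algebra K C] [Algebra R K]
    (t : C →ₗ[K] K) (Φ : B →+* C) : Prop where
  fin : Module.Finite K C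
  rk : finrank K C = finrank R B
  tr : ∀ z, t (Φ z) = algebraMap R K (s z)

variable {K C : Type} [Field K] [CommRing C] [Algebra K C] [Algebra R K] {t : C →ₗ[K] K}
  {Φ : B →+* C}

lemma BC.bf (h : BC s t Φ) (γ z w : B) : bf t (Φ γ) (Φ z) (Φ w) = algebraMap R K (bf s γ z w) := by
  rw [bf_apply, bf_apply, ← map_mul, ← map_mul, h.tr]

lemma exists_pc (h2 : IsUnit (2 : R)) (hs : Perf (bf s 1)) {γ α : B} (hγ : IsUnit γ)
    (hα : IsUnit α) : ∃ (n : ℕ) (a b : Fin n → R), (∀ k, IsUnit (a k)) ∧ (∀ k, IsUnit (b k)) ∧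
      ∀ (K C : Type) [Field K] [CharZero K] [CommRing C] [Algebra K C] [Algebra R K]
        (t : C →ₗ[K] K) (Φ : B →+* C), BC s t Φ → cf t (Φ γ) (Φ α) =
          pc n (fun k => algebraMap R K (a k)) fun k => algebraMap R K (b k) := by
  obtain ⟨v, hv⟩ := diag h2 _ B _ (bf_symm s γ) (hs.unit hγ) rfl
  obtain ⟨w, hw⟩ := diag h2 _ B _ (bf_symm s _) (hs.unit (hγ.mul hα)) rfl
  refine ⟨_, _, _, hv.2, fun k => (hw.2 k).neg, fun K C _ _ _ _ _ t Φ h => ?_⟩
  have := h.fin
  have key : ∀ (δ : B) (v : Fin (finrank R B) → B), Orth (bf s δ) v →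
      Orth (bf t (Φ δ)) fun k => Φ (v k) := fun δ v hv =>
    ⟨fun i j hij => by rw [h.bf, hv.1 i j hij, map_zero], fun i => by
      rw [h.bf]; exact (hv.2 i).map _⟩
  rw [cf, (has_phi t _ _ h.rk (key γ v hv) (map_mul Φ γ α ▸ key _ w hw)).1.cc_eq]
  simp only [← map_mul, h.bf, map_neg]

lemma pc_eq_one' (hK : ∀ x y : R, IsUnit x → IsUnit y →
      sy (algebraMap R K x) (algebraMap R K y) = 1) (n : ℕ) (a b : Fin n → R)
    (ha : ∀ k, IsUnit (a k)) (hb : ∀ k, IsUnit (b k)) :
    pc n (fun k => algebraMap R K (a k)) (fun k => algebraMap R K (b k)) = 1 := by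
  induction n with
  | zero => rfl
  | succ n ih =>
    have h3 := hK _ _ ((ha 0).mul (hb 0)).neg
      (IsUnit.prod_univ_iff.mpr fun k : Fin n => ((ha k.succ).mul (hb k.succ)).neg)
    have h4 := ih (Fin.tail a) (Fin.tail b) (fun k => ha _) fun k => hb _
    simp only [map_neg, map_mul, map_prod] at h3
    rw [pc, hK _ _ (ha 0) (hb 0), one_mul]
    exact (congrArg₂ (· * ·) h4 h3).trans (one_mul 1)

variable [CharZero K]

lemma cf_unit (h2 : IsUnit (2 : R)) (hs : Perf (bf s 1)) (h : BC s t Φ)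
    (hK : ∀ x y : R, IsUnit x → IsUnit y → sy (algebraMap R K x) (algebraMap R K y) = 1)
    {γ α : B} (hγ : IsUnit γ) (hα : IsUnit α) : cf t (Φ γ) (Φ α) = 1 := by
  obtain ⟨n, a, b, ha, hb, h1⟩ := exists_pc h2 hs hγ hα
  rw [h1 K C t Φ h, pc_eq_one' hK n a b ha hb]

lemma cf_split (h2 : IsUnit (2 : R)) (hs : Perf (bf s 1)) (h : BC s t Φ)
    (hK : ∀ x y : R, IsUnit x → IsUnit y → sy (algebraMap R K x) (algebraMap R K y) = 1)
    (l : B →ₐ[R] R) {ε : B} (hε : ∀ z, z * ε = l z • ε) (hl : l ε = 1) {γ α : B}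
    (hγ : IsUnit (ε + (1 - ε) * γ)) (hα : IsUnit (ε + (1 - ε) * α))
    (hγ0 : algebraMap R K (l γ) ≠ 0) (hα0 : algebraMap R K (l α) ≠ 0)
    (hN : Algebra.norm K (Φ α) ≠ 0) :
    cf t (Φ γ) (Φ α) = sy (algebraMap R K (l γ)) (algebraMap R K (l α)) *
      (sy (algebraMap R K (s ε)) (algebraMap R K (l α)) *
        sy (algebraMap R K (l α)) (algebraMap R K (l α) * Algebra.norm K (Φ α))) := by
  have := h.fin
  have hsε : IsUnit (s ε) := by
    obtain ⟨z, hz⟩ := hs l.toLinearMap
    have := LinearMap.congr_fun hz ε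
    rw [bf_apply, one_mul, hε, map_smul, AlgHom.toLinearMap_apply, hl] at this
    exact IsUnit.of_mul_eq_one_right _ this
  have hεz : ∀ δ z, bf s δ ε z = l δ * l z * s ε := fun δ z => by
    rw [bf_apply, mul_comm ε, ← mul_assoc, hε, map_smul, map_mul, smul_eq_mul]
  obtain ⟨n, hn⟩ : ∃ n, finrank R B = n + 1 := by
    refine Nat.exists_eq_succ_of_ne_zero fun h0 => ?_
    have := (Module.finrank_eq_zero_iff_of_free R B).mp h0
    rw [Subsingleton.elim ε 0, map_zero] at hl
    exact zero_ne_one hl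
  have key : ∀ δ : B, IsUnit (ε + (1 - ε) * δ) → algebraMap R K (l δ) ≠ 0 →
      ∃ v : Fin n → B, (∀ k, IsUnit (bf s δ (v k) (v k))) ∧
        Orth (bf t (Φ δ)) fun k => Φ (Fin.cons (α := fun _ => B) ε v k) := by
    intro δ hδ hδ0
    have h1 : l (ε + (1 - ε) * δ) = 1 := by simp [hl]
    obtain ⟨v, hv, h3⟩ := diag_step (diag h2 n) B _ (bf_symm s _) (hs.unit hδ) hn (x := ε)
      (by rw [hεz, h1, hl]; simpa using hsε)
    have h4 : ∀ k, l (v k) = 0 := fun k => by
      have := h3 k
      rwa [hεz, h1, one_mul, hsε.mul_left_eq_zero] at this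
    have h5 : ∀ i j, bf s δ (v i) (v j) = bf s (ε + (1 - ε) * δ) (v i) (v j) := fun i j => by
      have := hε (v i)
      rw [h4, zero_smul] at this
      rw [bf_apply, bf_apply]
      congr 1
      linear_combination (δ - 1) * v j * this
    refine ⟨v, fun k => h5 k k ▸ hv.2 k, fun i j hij => ?_, fun i => ?_⟩
    · rw [h.bf, Orth.cons (fun i j hij => h5 i j ▸ hv.1 i j hij) (bf_symm s δ)
        (fun k => by rw [hεz, h4, mul_zero, zero_mul]) i j hij, map_zero]
    · rw [h.bf]
      induction i using Fin.cases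
      · rw [Fin.cons_zero, hεz, hl, mul_one, map_mul]
        exact (IsUnit.mk0 _ hδ0).mul (hsε.map _)
      · exact (h5 _ _ ▸ hv.2 _ : IsUnit (bf s δ (v _) (v _))).map _
  obtain ⟨v, v1, v2⟩ := key γ hγ hγ0
  obtain ⟨w, w1, w2⟩ := key (γ * α) (by
    have h1 := hε ε
    rw [hl, one_smul] at h1
    have : ε + (1 - ε) * (γ * α) = (ε + (1 - ε) * γ) * (ε + (1 - ε) * α) := by
      linear_combination (-1 + γ + α - γ * α) * h1
    exact this ▸ hγ.mul hα) (by rw [map_mul, map_mul]; exact mul_ne_zero hγ0 hα0)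
  obtain ⟨h3, h4⟩ := has_phi t _ _ (h.rk.trans hn) v2 (map_mul Φ γ α ▸ w2)
  have h5 := pc_eq_one' hK n _ _ v1 fun k => (w1 k).neg
  have h6 := h3.1
  rw [cf, h3.cc_eq, pc]
  rw [Fin.prod_univ_succ] at h4 h6
  simp only [← map_mul Φ, h.bf, Fin.cons_zero, Fin.cons_succ, hεz, hl, mul_one, map_mul l,
    map_mul (algebraMap R K), map_neg, Fin.tail_def, mul_neg, neg_neg] at h4 h5 h6 ⊢
  rw [h5, mul_one]
  have hc := (hsε.map (algebraMap R K)).ne_zero
  generalize algebraMap R K (l γ) = x at *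
  generalize algebraMap R K (l α) = y at *
  generalize algebraMap R K (s ε) = c at *
  generalize Algebra.norm K (Φ α) = N at *
  generalize ∏ k, algebraMap R K (bf s γ (v k) (v k)) *
    algebraMap R K (bf s (γ * α) (w k) (w k)) = P at *
  have hP := right_ne_zero_of_mul h6
  rw [show -(x * y * c) = -(y * (x * c)) by ring, sy_comm, sy_neg_mul hα0 (mul_ne_zero hγ0 hc),
    sy_mul hα0 hγ0 hc, sy_comm y, sy_comm y c, mul_assoc, sy_comm _ P,
    show x * c * (x * y * c) = y * (x * c) ^ 2 by ring, sy_sq _ _ (mul_ne_zero hγ0 hc),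
    sy_comm P, sy_congr hα0 hP (mul_ne_zero hα0 hN)]
  obtain ⟨r, hr⟩ := h4
  exact ⟨r / (x * c), by field_simp; linear_combination hr⟩

end descent

end Pool.Agent.P.MP_ab3ecb_nt
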