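import Pool.Agent.P.MP_ab3ecb_nt.Eval

/-!
Local data: primitive coordinates, liftings of roots, and square classes at the bad places.
-/

namespace Pool.Agent.P.MP_ab3ecb_nt

open TensorProduct Module Polynomial Topology Filter
open scoped NumberTheorySymbols Classical

set_option maxHeartbeats 400000
set_option linter.unusedSectionVars false

lemma finite_types {K B ι : Type} [NontriviallyNormedField K] [ProperSpace K] [CharZero K]
    [CommRing B] [Algebra K B] [Fintype ι] (b : Basis ι K B) {δ : ℝ} (hδ : 0 < δ) :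
    ∃ T : Finset B, ∀ x : B, ‖b.equivFun x‖ ≤ 1 → δ ≤ ‖Algebra.norm K x‖ →
      ∃ t ∈ T, IsUnit t ∧ IsSquare (x * t) := by
  classical
  have := Module.Finite.of_basis b
  have := Module.Free.of_basis b
  set e := b.equivFun with he
  let m : (ι → K) →ₗ[K] (ι → K) →ₗ[K] (ι → K) :=
    ((LinearMap.mul K B).compl₁₂ e.symm.toLinearMap e.symm.toLinearMap).compr₂ e.toLinearMap
  let m' : (ι → K) →L[K] (ι → K) →L[K] (ι → K) :=
    LinearMap.toContinuousLinearMap (LinearMap.toContinuousLinearMap.toLinearMap ∘ₗ m)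
  have hm : ∀ v w, m' v w = e (e.symm v * e.symm w) := fun v w => rfl
  have h1 : {v | IsSquare (e.symm v)} ∈ 𝓝 (e 1) := by
    have h2 := m'.hasStrictFDerivAt_of_bilinear (hasStrictFDerivAt_id (e 1))
      (hasStrictFDerivAt_id (e 1))
    have h3 : HasStrictFDerivAt (fun v => m' v v) ((ContinuousLinearEquiv.smulLeft
        (Units.mk0 (2 : K) two_ne_zero) : (ι → K) ≃L[K] (ι → K)) : (ι → K) →L[K] (ι → K)) (e 1) := by
      refine h2.congr_fderiv (ContinuousLinearMap.ext fun v => ?_)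
      simp [hm, two_smul]
    have h4 := h3.map_nhds_eq_of_equiv
    simp only [hm, LinearEquiv.symm_apply_apply, mul_one] at h4
    rw [← h4, mem_map]
    exact Eventually.of_forall fun v => by simp
  have hN : Continuous fun v => Algebra.norm K (e.symm v) := by
    simp only [Algebra.norm_eq_matrix_det b]
    exact Continuous.matrix_det (LinearMap.continuous_of_finiteDimensional
      ((Algebra.leftMulMatrix b).toLinearMap ∘ₗ e.symm.toLinearMap))
  have hc : IsCompact (Metric.closedBall (0 : ι → K) 1 ∩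
      {v | δ ≤ ‖Algebra.norm K (e.symm v)‖}) :=
    (isCompact_closedBall _ _).inter_right (isClosed_le continuous_const hN.norm)
  obtain ⟨T, h2, h3⟩ := hc.elim_nhds_subcover (fun a => {v | IsSquare (e.symm v * e.symm a)})
    fun a ha => by
      have h4 : IsUnit (e.symm a) := isUnit_of_norm
        (IsUnit.mk0 (Algebra.norm K _) (norm_pos_iff.mp (hδ.trans_le ha.2)))
      obtain ⟨c, hc⟩ := h4.exists_right_inv
      have h5 : Continuous fun v => m' (e c) v := (m' (e c)).continuous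
      have h6 : m' (e c) a = e 1 := by rw [hm, e.symm_apply_apply, mul_comm, hc]
      refine mem_of_superset (h5.continuousAt.preimage_mem_nhds (h6 ▸ h1)) fun v hv => ?_
      obtain ⟨s, hs⟩ := hv
      change e.symm (m' (e c) v) = _ at hs
      rw [hm, e.symm_apply_apply, e.symm_apply_apply] at hs
      change IsSquare _
      exact ⟨s * e.symm a, by linear_combination (e.symm a) ^ 2 * hs - e.symm v * e.symm a * hc⟩
  refine ⟨T.image e.symm, fun x k1 k2 => ?_⟩
  obtain ⟨a, ha, k3⟩ := Set.mem_iUnion₂.mp (h3 (a := e x) ⟨by simpa using k1, by simpa using k2⟩)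
  exact ⟨_, Finset.mem_image_of_mem _ ha, isUnit_of_norm (IsUnit.mk0 (Algebra.norm K _)
    (norm_pos_iff.mp (hδ.trans_le (h2 a ha).2))), by simpa using k3⟩

/-- The relation `rel` holds between good elements of the same type, with finitely many types. -/
def FinRel {α : Type} (good : α → Prop) (rel : α → α → Prop) : Prop :=
  ∃ (T : Type) (_ : Finite T) (τ : α → T), ∀ x y, good x → good y → τ x = τ y → rel x y

lemma FinRel.forall {α κ : Type} [Finite κ] {good : α → Prop} {rel : κ → α → α → Prop}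
    (h : ∀ k, FinRel good (rel k)) : FinRel good fun x y => ∀ k, rel k x y := by
  choose T hT τ h using h
  exact ⟨∀ k, T k, inferInstance, fun x k => τ k x, fun x y hx hy e k =>
    h k x y hx hy (congrFun e k)⟩

lemma FinRel.and {α : Type} {good : α → Prop} {r s : α → α → Prop} (h : FinRel good r)
    (h' : FinRel good s) : FinRel good fun x y => r x y ∧ s x y := by
  obtain ⟨T, _, τ, h⟩ := h
  obtain ⟨T', _, τ', h'⟩ := h'
  exact ⟨T × T', inferInstance, fun x => (τ x, τ' x), fun x y hx hy e =>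
    ⟨h x y hx hy (congrArg Prod.fst e), h' x y hx hy (congrArg Prod.snd e)⟩⟩

lemma finRel_sq {K B ι α : Type} [NontriviallyNormedField K] [ProperSpace K] [CharZero K]
    [CommRing B] [Algebra K B] [Fintype ι] (b : Basis ι K B) {δ : ℝ} (hδ : 0 < δ)
    {good : α → Prop} (φ : α → B) (h : ∀ x, good x → ∃ s : K, s ≠ 0 ∧
      ‖b.equivFun (s ^ 2 • φ x)‖ ≤ 1 ∧ δ ≤ ‖Algebra.norm K (s ^ 2 • φ x)‖) :
    FinRel good fun x y => IsSquare (φ x * φ y) := by
  obtain ⟨T, hT⟩ := finite_types b hδ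
  have : ∀ x, ∃ t : Option T, good x → ∃ u : T, t = some u ∧ IsUnit (u : B) ∧
      IsSquare (φ x * u) := fun x => by
    by_cases hx : good x
    · obtain ⟨s, h1, h2, h3⟩ := h x hx
      obtain ⟨t, h4, h5, w, hw⟩ := hT _ h2 h3
      refine ⟨some ⟨t, h4⟩, fun _ => ⟨_, rfl, h5, s⁻¹ • w, ?_⟩⟩
      rw [smul_mul_smul_comm, ← hw, smul_mul_assoc, smul_smul]
      field_simp
      rw [one_smul]
    · exact ⟨none, fun h => absurd h hx⟩
  choose τ hτ using this
  refine ⟨_, inferInstance, τ, fun x y hx hy e => ?_⟩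
  obtain ⟨u, h1, h2, w, hw⟩ := hτ x hx
  obtain ⟨u', h3, -, w', hw'⟩ := hτ y hy
  obtain rfl : u = u' := Option.some.inj (h1.symm.trans (e.trans h3))
  obtain ⟨c, hc⟩ := h2.exists_right_inv
  exact ⟨w * w' * c, by
    linear_combination c ^ 2 * (φ y * u * hw + w * w * hw') - φ x * φ y * (u * c + 1) * hc⟩

variable {A : Type} [CommRing A] [Module.Free ℤ A] [Module.Finite ℤ A] [Nontrivial A]

/-- `α` is a square at the real place and at the primes dividing `M`. -/
def Bad (M : ℕ) (α : A) : Prop :=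
  IsSquare (inc A ℝ α) ∧ ∀ p : M.primeFactors, IsSquare
    (inc A (@Padic p ⟨Nat.prime_of_mem_primeFactors p.2⟩) α)

/-- `π` is a small element whose norm is `p` up to a divisor of `M`. -/
def Small {n : ℕ} (b : Basis (Fin n) ℤ A) (M p : ℕ) (π : A) : Prop :=
  (∀ k, (b.repr π k).natAbs ^ n ≤ p) ∧ ∃ m : ℤ, m ∣ M ∧ Algebra.norm ℤ π = p * m

lemma equivFun_inc {n : ℕ} (b : Basis (Fin n) ℤ A) (K : Type) [CommRing K] (z : A) (k : Fin n) :
    (b.baseChange K).equivFun (inc A K z) k = b.repr z k := by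
  simp [inc]

lemma finRel_bad {n : ℕ} (b : Basis (Fin n) ℤ A) {M : ℕ} (hM : M ≠ 0) :
    FinRel (fun π => ∃ p, p.Prime ∧ ¬ p ∣ M ∧ Small b M p π) fun x y => Bad M (x * y) := by
  have hn : n ≠ 0 := by
    rintro rfl
    exact not_subsingleton A b.repr.injective.subsingleton
  simp only [Bad, map_mul]
  refine (finRel_sq (b.baseChange ℝ) one_pos _ ?_).and (FinRel.forall fun l => ?_)
  · rintro π ⟨p, h1, -, h2, m, h3, h4⟩
    have h5 : (0 : ℝ) < p := by exact_mod_cast h1.pos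
    set s : ℝ := (p : ℝ) ^ (-(n : ℝ)⁻¹) with hs
    have h6 : 0 < s := by positivity
    have h7 : s ^ n * p = 1 := by
      rw [hs, Real.rpow_neg h5.le, inv_pow, Real.rpow_inv_natCast_pow h5.le hn,
        inv_mul_cancel₀ h5.ne']
    refine ⟨√s, (Real.sqrt_pos.mpr h6).ne', ?_, ?_⟩ <;> rw [Real.sq_sqrt h6.le]
    · rw [pi_norm_le_iff_of_nonneg zero_le_one]
      intro k
      rw [map_smul, Pi.smul_apply, equivFun_inc, norm_smul, ← pow_le_one_iff_of_nonneg
        (by positivity) hn, mul_pow, Real.norm_of_nonneg h6.le, ← h7, Real.norm_eq_abs,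
        ← Int.cast_abs, ← Int.natCast_natAbs, Int.cast_natCast]
      gcongr
      exact_mod_cast h2 k
    · rw [Algebra.smul_def, map_mul, Algebra.norm_algebraMap_of_basis (b.baseChange ℝ), norm_inc,
        h4, Fintype.card_fin, Int.cast_mul, Int.cast_natCast, ← mul_assoc, h7, one_mul,
        Real.norm_eq_abs, ← Int.cast_abs]
      exact_mod_cast Int.one_le_abs (by rintro rfl; exact hM (by simpa using h3))
  · have : Fact (l : ℕ).Prime := ⟨Nat.prime_of_mem_primeFactors l.2⟩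
    refine finRel_sq (b.baseChange ℚ_[l]) (δ := ‖((M : ℤ) : ℚ_[l])‖) (by simpa using hM) _ ?_
    rintro π ⟨p, h1, h0, -, m, ⟨k, h3⟩, h4⟩
    refine ⟨1, one_ne_zero, ?_, ?_⟩ <;> rw [one_pow, one_smul]
    · rw [pi_norm_le_iff_of_nonneg zero_le_one]
      intro k
      rw [equivFun_inc]
      exact Padic.norm_int_le_one _
    · have h5 : ‖((p : ℤ) : ℚ_[l])‖ = 1 := by
        refine le_antisymm (Padic.norm_int_le_one _) (not_lt.mp fun h => h0 ?_)
        rw [Padic.norm_intCast_lt_one_iff, Int.natCast_dvd_natCast,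
          Nat.prime_dvd_prime_iff_eq this.out h1] at h
        exact h ▸ Nat.dvd_of_mem_primeFactors l.2
      rw [norm_inc, h4, h3, Int.cast_mul, Int.cast_mul, norm_mul, norm_mul, h5, one_mul]
      exact mul_le_of_le_one_right (norm_nonneg _) (Padic.norm_int_le_one _)

lemma cv_bad {K : Type} [Field K] [CharZero K] {r : ℤ} (hd : Dual A r) (hr : r ≠ 0) {α : A}
    (hα : Algebra.norm ℤ α ≠ 0) (h : IsSquare (inc A K α)) {w : K} {u : K ⊗[ℤ] A} (hw : IsUnit w)
    (hu : IsUnit u) (n : ℕ) : cv n α w u = 1 := by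
  have h1 := hd.perf (R := K) (IsUnit.mk0 _ (Int.cast_ne_zero.mpr hr))
  have h2 : ((Algebra.norm ℤ α : ℤ) : K) ≠ 0 := Int.cast_ne_zero.mpr hα
  have h3 : IsUnit (inc A K α) := isUnit_inc (IsUnit.mk0 _ h2)
  rw [cv, cf_of_isSquare h1 isUnit_one h3 h, cf_of_isSquare h1 hu h3 h, mul_one, one_pow, mul_one]
  exact sy_of_isSquare hw.ne_zero h2 (norm_inc (R := K) α ▸ h.map (Algebra.norm K))

/-- `A` is obtained by adjoining the root `θ` of `g`. -/
structure Stem (g : ℤ[X]) (θ : A) : Prop where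
  root : aeval θ g = 0
  gen : ∀ z, ∃ q : ℤ[X], aeval θ q = z
  lift : ∀ (R : Type) [CommRing R] (t : R), aeval t g = 0 → ∃ φ : A →+* R, φ θ = t

variable {g : ℤ[X]} {θ : A} {p : ℕ} [Fact p.Prime]

lemma Stem.ext (h : Stem g θ) {R : Type} [CommRing R] {φ ψ : A →+* R} (e : φ θ = ψ θ) :
    φ = ψ := RingHom.ext fun z => by
  obtain ⟨q, rfl⟩ := h.gen z
  rw [map_aeval_int, map_aeval_int, e]

lemma Stem.exists_loc (h : Stem g θ) {r : ℤ} (hd : Dual A r) (hr : IsUnit (r : ℤ_[p]))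
    (lb : A →+* ZMod p) (hs : aeval (lb θ) (derivative g) ≠ 0) : ∃ ν, Loc θ lb ν := by
  obtain ⟨a, ha⟩ := ZMod.ringHom_surjective (PadicInt.toZMod (p := p)) (lb θ)
  have h1 : ‖aeval a (derivative g)‖ = 1 := by
    rw [← PadicInt.isUnit_iff, isUnit_iff_toZMod, map_aeval_int, ha]
    exact hs
  obtain ⟨ρ, h2, h3, -⟩ := hensels_lemma (F := g) (a := a) (by
    rw [h1, one_pow, ← PadicInt.not_isUnit_iff, isUnit_iff_toZMod, map_aeval_int, ha,
      ← map_aeval_int, h.root, map_zero, not_not])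
  rw [h1, ← PadicInt.not_isUnit_iff, isUnit_iff_toZMod, not_not, map_sub, ha, sub_eq_zero] at h3
  obtain ⟨φ, hφ⟩ := h.lift _ ρ h2
  let l : ℤ_[p] ⊗[ℤ] A →ₐ[ℤ_[p]] ℤ_[p] :=
    Algebra.TensorProduct.lift (AlgHom.id _ _) φ.toIntAlgHom fun _ _ => Commute.all _ _
  have hl : ∀ z, l (inc A _ z) = φ z := fun z => by simp [l, inc]
  obtain ⟨ε, e1, e2⟩ := exists_idem (hd.perf hr) l
  refine ⟨_, l, ε, e1, e2, fun z => ?_, fun z => rfl, fun z => ?_⟩
  · rw [hl]
    exact RingHom.congr_fun (h.ext (φ := PadicInt.toZMod.comp φ) (by simp [hφ, h3])) z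
  · induction z with
    | zero => simp
    | add x y h4 h5 =>
      rw [map_add, map_add, add_sub_add_comm]
      exact dvd_add h4 h5
    | tmul c z =>
      obtain ⟨q, rfl⟩ := h.gen z
      have : c ⊗ₜ[ℤ] aeval θ q = algebraMap _ _ c * inc A _ (aeval θ q) := by simp [inc]
      rw [this, map_mul, map_mul, AlgHom.commutes, Algebra.algebraMap_self_apply, ← mul_sub,
        hl, hl, map_aeval_int, map_aeval_int, map_aeval_int, aeval_def, aeval_def,
        ← eval_map, ← eval_map]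
      exact (sub_dvd_eval_sub _ _ _).mul_left _

lemma exists_prim {F : ℤ[X]} (hev : Even F.natDegree) {D : ℤ} {x z η : ℚ_[p]}
    (h0 : x ≠ 0 ∨ z ≠ 0) (hη : η ^ 2 = D * hv (Int.castRingHom _) F x z) :
    ∃ (t : ℚ_[p]) (a c e : ℤ_[p]), t ≠ 0 ∧ t * x = algebraMap _ _ a ∧ t * z = algebraMap _ _ c ∧
      e ^ 2 = D * hv (Int.castRingHom _) F a c ∧ (c = 1 ∨ (a = 1 ∧ ¬ IsUnit c)) := by
  obtain ⟨t, a, c, h1, h2, h3, h4⟩ : ∃ (t : ℚ_[p]) (a c : ℤ_[p]), t ≠ 0 ∧ t * x = algebraMap _ _ a ∧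
      t * z = algebraMap _ _ c ∧ (c = 1 ∨ (a = 1 ∧ ¬ IsUnit c)) := by
    rcases le_or_gt ‖x‖ ‖z‖ with h | h
    · have hz : z ≠ 0 := by
        rintro rfl
        simp only [norm_zero, norm_le_zero_iff] at h
        simp [h] at h0
      refine ⟨z⁻¹, ⟨z⁻¹ * x, ?_⟩, 1, inv_ne_zero hz, rfl, inv_mul_cancel₀ hz, Or.inl rfl⟩
      rwa [norm_mul, norm_inv, inv_mul_le_one₀ (norm_pos_iff.mpr hz)]
    · have hx : 0 < ‖x‖ := (norm_nonneg z).trans_lt h
      have h1 : ‖x⁻¹ * z‖ < 1 := by rwa [norm_mul, norm_inv, inv_mul_lt_one₀ hx]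
      exact ⟨x⁻¹, 1, ⟨x⁻¹ * z, h1.le⟩, inv_ne_zero (norm_pos_iff.mp hx),
        inv_mul_cancel₀ (norm_pos_iff.mp hx), rfl, Or.inr ⟨rfl, PadicInt.not_isUnit_iff.mpr h1⟩⟩
  obtain ⟨m, hm⟩ := hev
  have h5 : (t ^ m * η) ^ 2 = algebraMap ℤ_[p] _ (D * hv (Int.castRingHom _) F a c) := by
    rw [map_mul, map_intCast, map_hv, RingHom.ext_int (RingHom.comp _ _), ← h2, ← h3, hv_smul,
      mul_pow, hη, hm]
    ring
  have h6 : ‖t ^ m * η‖ ≤ 1 := by
    rw [← pow_le_one_iff_of_nonneg (norm_nonneg _) two_ne_zero, ← norm_pow, h5]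
    exact Subtype.property (_ : ℤ_[p])
  exact ⟨t, a, c, ⟨_, h6⟩, h1, h2, h3, Subtype.ext h5, h4⟩

end Pool.Agent.P.MP_ab3ecb_nt
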