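import Pool.Agent.P.MP_ab3ecb_nt.Geom

/-!
The Brauer classes used as tests, and the description of their values.
-/

namespace Pool.Agent.P.MP_ab3ecb_nt

open TensorProduct Module Polynomial

set_option maxHeartbeats 400000
set_option linter.unusedSectionVars false

variable {A : Type} [CommRing A] [Module.Free ℤ A] [Module.Finite ℤ A] [Nontrivial A]

/-- The data of a test class. -/
structure Dat (F : ℤ[X]) (r : ℤ) (G H : ℤ[X]) (θ : A) (H' : A[X]) : Prop where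
  s1 : Spl F r G H
  s2 : Spl F r (X - C θ) H'
  du : Dual A r
  r0 : r ≠ 0

/-- Unit representatives of the functions `G` and `x - θ` at the point `(x : z)`. -/
def Rep (D : ℤ) (G H : ℤ[X]) (θ : A) (H' : A[X]) {K : Type} [CommRing K] (x z w : K)
    (u : K ⊗[ℤ] A) : Prop :=
  IsUnit w ∧ IsUnit u ∧
    Rel w (hv (Int.castRingHom K) G x z) (D * hv (Int.castRingHom K) H x z) ∧
    Rel u (hv (inc A K) (X - C θ) (algebraMap K _ x) (algebraMap K _ z))
      (D * hv (inc A K) H' (algebraMap K _ x) (algebraMap K _ z))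

/-- The value of the test class. -/
noncomputable def cv (n : ℕ) (α : A) {K : Type} [Field K] (w : K) (u : K ⊗[ℤ] A) : Br K :=
  sy w (Algebra.norm ℤ α : ℤ) * (cf (Algebra.trace K _) 1 (inc A K α) *
    cf (Algebra.trace K _) u (inc A K α)) ^ n

variable {F G H : ℤ[X]} {r D : ℤ} {θ α : A} {H' : A[X]}

lemma Dat.eqn (h : Dat F r G H θ H') {R : Type} [CommRing R] {x z η : R}
    (hη : η ^ 2 = D * hv (Int.castRingHom R) F x z) :
    hv (Int.castRingHom R) G x z * (D * hv (Int.castRingHom R) H x z) = algebraMap R R η ^ 2 ∧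
    hv (inc A R) (X - C θ) (algebraMap R _ x) (algebraMap R _ z) *
      (D * hv (inc A R) H' (algebraMap R _ x) (algebraMap R _ z)) = algebraMap R _ η ^ 2 := by
  constructor
  · rw [mul_left_comm, h.s1.hv_mul, ← hη]
    rfl
  · rw [mul_left_comm, h.s2.hv_mul, ← map_pow, hη, map_mul, map_intCast, map_hv,
      RingHom.ext_int (RingHom.comp _ _)]

lemma Dat.cop (h : Dat F r G H θ H') {R : Type} [CommRing R] [IsLocalRing R] {x z : R}
    (hr : IsUnit (r : R)) (hD : IsUnit (D : R)) (hxz : IsUnit x ∨ IsUnit z) :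
    IsCoprime (hv (Int.castRingHom R) G x z) (D * hv (Int.castRingHom R) H x z) ∧
    IsCoprime (hv (inc A R) (X - C θ) (algebraMap R _ x) (algebraMap R _ z))
      (D * hv (inc A R) H' (algebraMap R _ x) (algebraMap R _ z)) := by
  have h1 := hD.map (algebraMap R (R ⊗[ℤ] A))
  rw [map_intCast] at h1
  rw [isCoprime_mul_unit_left_right hD, isCoprime_mul_unit_left_right h1]
  exact ⟨h.s1.coprime (B := R) _ hr hxz, h.s2.coprime _ hr hxz⟩

lemma Dat.exists_rep (h : Dat F r G H θ H') {R : Type} [CommRing R] [IsLocalRing R] {x z η : R}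
    (hr : IsUnit (r : R)) (hD : IsUnit (D : R)) (hxz : IsUnit x ∨ IsUnit z)
    (hη : η ^ 2 = D * hv (Int.castRingHom R) F x z) : ∃ w u, Rep D G H θ H' x z w u := by
  obtain ⟨w, h1, h2⟩ := exists_rel (h.eqn hη).1 (h.cop hr hD hxz).1
  obtain ⟨u, h3, h4⟩ := exists_rel (h.eqn hη).2 (h.cop hr hD hxz).2
  exact ⟨w, u, h1, h3, h2, h4⟩

lemma Rep.map {R K : Type} [CommRing R] [CommRing K] (φ : R →+* K) {x z w : R} {u : R ⊗[ℤ] A}
    (h : Rep D G H θ H' x z w u) : Rep D G H θ H' (φ x) (φ z) (φ w) (tm A φ u) := by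
  refine ⟨h.1.map φ, h.2.1.map _, ?_, ?_⟩
  · have := h.2.2.1.map φ
    rwa [map_mul, map_hv, map_hv, map_intCast, RingHom.ext_int (RingHom.comp _ _)] at this
  · have := h.2.2.2.map (tm A φ)
    rwa [map_mul, map_hv, map_hv, map_intCast, tm_comp, tm_alg, tm_alg] at this

lemma Dat.cv_eq (h : Dat F r G H θ H') {K : Type} [Field K] [CharZero K] {x z η t w w' : K}
    {u u' : K ⊗[ℤ] A} (hD : D ≠ 0) (hα : Algebra.norm ℤ α ≠ 0) (hxz : x ≠ 0 ∨ z ≠ 0)
    (hη : η ^ 2 = D * hv (Int.castRingHom K) F x z) (ht : t ≠ 0)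
    (h1 : Rep D G H θ H' x z w u) (h2 : Rep D G H θ H' (t * x) (t * z) w' u') :
    cv G.natDegree α w u = cv G.natDegree α w' u' := by
  have hr : IsUnit (r : K) := IsUnit.mk0 _ (Int.cast_ne_zero.mpr h.r0)
  have he : ((Algebra.norm ℤ α : ℤ) : K) ≠ 0 := Int.cast_ne_zero.mpr hα
  have hα' : IsUnit (inc A K α) := isUnit_inc (IsUnit.mk0 _ he)
  obtain ⟨m, hm⟩ := h.s1.ev
  have hη' : (t ^ m * η) ^ 2 = D * hv (Int.castRingHom K) F (t * x) (t * z) := by
    rw [hv_smul, mul_pow, hη, hm]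
    ring
  obtain ⟨c1, c2⟩ := h.cop (x := t * x) (z := t * z) hr (IsUnit.mk0 _ (Int.cast_ne_zero.mpr hD))
    (hxz.imp (fun h => IsUnit.mk0 _ (mul_ne_zero ht h)) fun h => IsUnit.mk0 _ (mul_ne_zero ht h))
  have k1 := rel_unique (h.eqn hη').1 c1 (h.s1.scale _ t h1.2.2.1) h2.2.2.1
  have k2 := h.s2.scale _ (algebraMap K _ t) h1.2.2.2
  rw [← map_mul, ← map_mul, natDegree_X_sub_C, pow_one] at k2
  have k3 := rel_unique (h.eqn hη').2 c2 k2 h2.2.2.2
  have k4 : ∀ n : ℕ, sy (t ^ n * w) ((Algebra.norm ℤ α : ℤ) : K) =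
      sy w (Algebra.norm ℤ α : ℤ) * sy t (Algebra.norm ℤ α : ℤ) ^ n := fun n => by
    induction n with
    | zero => simp
    | succ n ih =>
      rw [pow_succ', mul_assoc, sy_mul' ht (mul_ne_zero (pow_ne_zero _ ht) h1.1.ne_zero) he, ih,
        pow_succ', mul_left_comm]
  rw [cv, cv, sy_comm w', ← sy_congr he (mul_ne_zero (pow_ne_zero _ ht) h1.1.ne_zero)
    h2.1.ne_zero k1, sy_comm _ (_ * w), k4, ← cf_congr _ (((IsUnit.mk0 _ ht).map _).mul h1.2.1) hα'
    h2.2.1 hα' k3 ⟨_, rfl⟩, cf_smul (h.du.perf hr) h1.2.1 hα' ht, norm_inc, mul_assoc, ← mul_pow,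
    mul_left_comm (sy t _), mul_left_comm (sy t _), sy_self ht he, mul_one]

lemma Mod.pow {O : Type} [CommRing O] [Nontrivial O]
    {x : (K : Type) → [Field K] → [Algebra O K] → Br K} (hx : Mod O x) (n : ℕ) :
    Mod O fun K _ _ => x K ^ n := by
  induction n with
  | zero => simpa only [pow_zero] using Mod.one
  | succ n ih => simpa only [pow_succ] using ih.mul hx

lemma Dat.exists_mod (h : Dat F r G H θ H') {R : Type} [CommRing R] [IsLocalRing R]
    (hR : ∀ n : ℤ, n ≠ 0 → IsUnit (n : R)) (hα : Algebra.norm ℤ α ≠ 0) (n : ℕ) {w : R}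
    {u : R ⊗[ℤ] A} (hw : IsUnit w) (hu : IsUnit u) :
    ∃ (M : Type) (_ : Ring M) (_ : Algebra R M), IsAzumaya R M ∧
      ∀ (K : Type) [Field K] [CharZero K] [Algebra R K],
        cl K (K ⊗[R] M) = cv n α (algebraMap R K w) (tm A (algebraMap R K) u) := by
  have h2 : IsUnit (2 : R) := by exact_mod_cast hR 2 two_ne_zero
  have hp := h.du.perf (hR r h.r0)
  have hα' : IsUnit (inc A R α) := isUnit_inc (hR _ hα)
  obtain ⟨n1, a1, b1, k1, k2, k3⟩ := exists_pc h2 hp isUnit_one hα'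
  obtain ⟨n2, a2, b2, k4, k5, k6⟩ := exists_pc h2 hp hu hα'
  obtain ⟨M, _, _, -, -, h3, h4⟩ := (Mod.sy h2 hw (hR _ hα)).mul
    (((Mod.pc h2 n1 a1 b1 k1 k2).mul (Mod.pc h2 n2 a2 b2 k4 k5)).pow n)
  refine ⟨M, _, _, h3, fun K _ _ _ => ?_⟩
  rw [h4, cv, ← tm_inc (algebraMap R K), k6 K _ _ _ bc_tm, ← map_one (tm A (algebraMap R K)),
    k3 K _ _ _ bc_tm]
  simp only [map_intCast]

variable {E : Type} [Field E]

/-- Primitive homogeneous coordinates in a valuation ring. -/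
def Coord (F : ℤ[X]) (D : ℤ) (x0 : E) (O : ValuationSubring E) (x z η : O) : Prop :=
  (IsUnit x ∨ IsUnit z) ∧ (z : E) ≠ 0 ∧ (x : E) = z * x0 ∧
    η ^ 2 = D * hv (Int.castRingHom O) F x z

lemma exists_coord (hev : Even F.natDegree) {x0 y : E} (hxy : D * y ^ 2 = aeval x0 F)
    (O : ValuationSubring E) : ∃ x z η : O, Coord F D x0 O x z η := by
  obtain ⟨x, z, h1, h2, h3⟩ : ∃ x z : O, (IsUnit x ∨ IsUnit z) ∧ (z : E) ≠ 0 ∧
      (x : E) = z * x0 := by
    by_cases hx : x0 ∈ O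
    · exact ⟨⟨x0, hx⟩, 1, Or.inr isUnit_one, one_ne_zero, (one_mul _).symm⟩
    · have h0 : x0 ≠ 0 := fun h => hx (h ▸ O.zero_mem)
      exact ⟨1, ⟨x0⁻¹, (inv_nonunit O hx).1⟩, Or.inl isUnit_one, inv_ne_zero h0,
        (inv_mul_cancel₀ h0).symm⟩
  obtain ⟨m, hm⟩ := hev
  have h4 : (D * y * z ^ m) ^ 2 = ((D * hv (Int.castRingHom O) F x z : O) : E) := by
    have := map_hv (Int.castRingHom O) O.subtype F x z
    rw [RingHom.ext_int (RingHom.comp _ _) (algebraMap ℤ E)] at this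
    change _ = D * O.subtype _
    rw [this, ValuationSubring.coe_subtype, h3, ← mul_one (z : E), mul_assoc (z : E), hv_smul,
      one_mul, hv_one, ← aeval_def, ← hxy, hm]
    ring
  exact ⟨x, z, ⟨_, mem_of_sq_mem O (h4 ▸ Subtype.property _)⟩, h1, h2, h3, Subtype.ext h4⟩

theorem Dat.exists_class [CharZero E] (h : Dat F r G H θ H') (hD : D ≠ 0)
    (hα : Algebra.norm ℤ α ≠ 0) {x0 y : E} (hxy : D * y ^ 2 = aeval x0 F) :
    ∃ (B : Type) (_ : Ring B) (_ : Algebra E B), Unram E B ∧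
      ∀ (K : Type) [Field K] [CharZero K] (P : Pt E K) (x z η : P.O), Coord F D x0 P.O x z η →
        ∀ t w u, t ≠ 0 → Rep D G H θ H' (t * P.φ x) (t * P.φ z) w u →
        ∀ (Inv : (B : Type) → [Ring B] → [Algebra K B] → AddCircle (1 : ℚ) → Prop)
          (q : AddCircle (1 : ℚ)), (∀ (B' : Type) [Ring B'] [Algebra K B'],
            cl K B' = cv G.natDegree α w u → Inv B' q) → ValInv B P Inv q := by
  have h0 : (D * y) ^ 2 = D * hv (Int.castRingHom E) F x0 1 := by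
    rw [hv_one, ← algebraMap_int_eq, ← aeval_def, ← hxy]
    ring
  obtain ⟨w0, u0, h1⟩ := h.exists_rep (IsUnit.mk0 _ (Int.cast_ne_zero.mpr h.r0))
    (IsUnit.mk0 _ (Int.cast_ne_zero.mpr hD)) (Or.inr isUnit_one) h0
  obtain ⟨B, hB⟩ := Quotient.exists_rep (cv G.natDegree α w0 u0)
  have key : ∀ O : ValuationSubring E, (∀ n : ℤ, n ≠ 0 → IsUnit (n : O)) →
      ∀ x z η : O, Coord F D x0 O x z η → ∃ (M : Type) (_ : Ring M) (_ : Algebra O M),
        IsModel B.A O M ∧ ∃ w u, Rep D G H θ H' x z w u ∧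
          ∀ (K : Type) [Field K] [CharZero K] [Algebra O K],
            cl K (K ⊗[O] M) = cv G.natDegree α (algebraMap O K w) (tm A (algebraMap O K) u) := by
    intro O hO x z η hc
    obtain ⟨w, u, h2⟩ := h.exists_rep (hO r h.r0) (hO D hD) hc.1 hc.2.2.2
    obtain ⟨M, _, _, h3, h4⟩ := h.exists_mod hO hα G.natDegree h2.1 h2.2.1
    refine ⟨M, _, _, ⟨h3, cl_eq.mp ?_⟩, w, u, h2, h4⟩
    rw [h4 E]
    refine Eq.trans ?_ hB.symm
    refine (h.cv_eq hD hα (Or.inr one_ne_zero) h0 hc.2.1 h1 ?_).symm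
    rw [← hc.2.2.1, mul_one]
    exact h2.map (algebraMap O E)
  refine ⟨B.A, B.r, B.a, fun O hO => ?_, fun K _ _ P x z η hc t w u ht h2 Inv q h3 => ?_⟩
  · obtain ⟨x, z, η, hc⟩ := exists_coord h.s1.ev hxy O
    obtain ⟨M, _, _, h2, -⟩ := key O (isUnit_intCast_of_rat O hO) x z η hc
    exact ⟨M, _, _, h2⟩
  · obtain ⟨M, _, _, h4, w', u', h5, h6⟩ := key P.O P.isUnit_intCast x z η hc
    refine ⟨M, _, _, h4, ?_⟩
    let := P.φ.toAlgebra
    refine h3 _ ((h6 K).trans (h.cv_eq (η := P.φ η) hD hα ?_ ?_ ht (h5.map P.φ) h2))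
    · exact hc.1.imp (fun h => (h.map _).ne_zero) fun h => (h.map _).ne_zero
    · rw [← map_pow, hc.2.2.2, map_mul, map_intCast, map_hv, RingHom.ext_int (RingHom.comp _ _)]

end Pool.Agent.P.MP_ab3ecb_nt
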