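import Pool.Agent.P.MP_ab3ecb_nt.Idem

/-!
Test classes attached to a factor of even degree over an order, and the product formula.
-/

namespace Pool.Agent.P.MP_ab3ecb_nt

open TensorProduct Module Polynomial
open scoped Classical

set_option maxHeartbeats 400000
set_option linter.unusedSectionVars false

variable {A : Type} [CommRing A] [Module.Free ℤ A] [Module.Finite ℤ A] [Nontrivial A]

/-- The data of a test class. -/
structure Dat2 (F : ℤ[X]) (r : ℤ) (G H : A[X]) : Prop where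
  s : Spl F r G H
  ev : Even G.natDegree
  du : Dual A r
  r0 : r ≠ 0

/-- A unit representative of the function `G` at the point `(x : z)`. -/
def Rep2 (D : ℤ) (G H : A[X]) {K : Type} [CommRing K] (x z : K) (u : K ⊗[ℤ] A) : Prop :=
  IsUnit u ∧ Rel u (hv (inc A K) G (algebraMap K _ x) (algebraMap K _ z))
    (D * hv (inc A K) H (algebraMap K _ x) (algebraMap K _ z))

/-- The value of the test class. -/
noncomputable def cw (ν α : A) {K : Type} [Field K] (u : K ⊗[ℤ] A) : Br K :=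
  cp (inc A K ν * u) (inc A K α)

variable {F : ℤ[X]} {r D : ℤ} {G H : A[X]} {ν α : A}

lemma Dat2.eqn (h : Dat2 F r G H) {R : Type} [CommRing R] {x z η : R}
    (hη : η ^ 2 = D * hv (Int.castRingHom R) F x z) :
    hv (inc A R) G (algebraMap R _ x) (algebraMap R _ z) *
      (D * hv (inc A R) H (algebraMap R _ x) (algebraMap R _ z)) = algebraMap R _ η ^ 2 := by
  rw [mul_left_comm, h.s.hv_mul, ← map_pow, hη, map_mul, map_intCast, map_hv,
    RingHom.ext_int (RingHom.comp _ _)]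

lemma Dat2.cop (h : Dat2 F r G H) {R : Type} [CommRing R] [IsLocalRing R] {x z : R}
    (hr : IsUnit (r : R)) (hD : IsUnit (D : R)) (hxz : IsUnit x ∨ IsUnit z) :
    IsCoprime (hv (inc A R) G (algebraMap R _ x) (algebraMap R _ z))
      (D * hv (inc A R) H (algebraMap R _ x) (algebraMap R _ z)) := by
  have h1 := hD.map (algebraMap R (R ⊗[ℤ] A))
  rw [map_intCast] at h1
  rw [isCoprime_mul_unit_left_right h1]
  exact h.s.coprime _ hr hxz

lemma Dat2.exists_rep (h : Dat2 F r G H) {R : Type} [CommRing R] [IsLocalRing R] {x z η : R}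
    (hr : IsUnit (r : R)) (hD : IsUnit (D : R)) (hxz : IsUnit x ∨ IsUnit z)
    (hη : η ^ 2 = D * hv (Int.castRingHom R) F x z) : ∃ u, Rep2 D G H x z u :=
  exists_rel (h.eqn hη) (h.cop hr hD hxz)

lemma rep2_of_rel {R K : Type} [CommRing R] [CommRing K] (φ : R →+* K) {x z : R} {u : R ⊗[ℤ] A}
    (h1 : IsUnit (tm A φ u)) (h : Rel u (hv (inc A R) G (algebraMap R _ x) (algebraMap R _ z))
      (D * hv (inc A R) H (algebraMap R _ x) (algebraMap R _ z))) :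
    Rep2 D G H (φ x) (φ z) (tm A φ u) := by
  have := h.map (tm A φ)
  rw [map_mul, map_hv, map_hv, map_intCast, tm_comp, tm_alg, tm_alg] at this
  exact ⟨h1, this⟩

lemma Rep2.map {R K : Type} [CommRing R] [CommRing K] (φ : R →+* K) {x z : R} {u : R ⊗[ℤ] A}
    (h : Rep2 D G H x z u) : Rep2 D G H (φ x) (φ z) (tm A φ u) := rep2_of_rel φ (h.1.map _) h.2

lemma Dat2.cw_eq (h : Dat2 F r G H) {K : Type} [Field K] [CharZero K] {x z η t : K}
    {u u' : K ⊗[ℤ] A} (hD : D ≠ 0) (hν : Algebra.norm ℤ ν ≠ 0) (hα : Algebra.norm ℤ α ≠ 0)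
    (hxz : x ≠ 0 ∨ z ≠ 0) (hη : η ^ 2 = D * hv (Int.castRingHom K) F x z) (ht : t ≠ 0)
    (h1 : Rep2 D G H x z u) (h2 : Rep2 D G H (t * x) (t * z) u') : cw ν α u = cw ν α u' := by
  have hr : IsUnit (r : K) := IsUnit.mk0 _ (Int.cast_ne_zero.mpr h.r0)
  have hα' : IsUnit (inc A K α) := isUnit_inc (IsUnit.mk0 _ (Int.cast_ne_zero.mpr hα))
  have hν' : IsUnit (inc A K ν) := isUnit_inc (IsUnit.mk0 _ (Int.cast_ne_zero.mpr hν))
  obtain ⟨m, hm⟩ := h.s.ev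
  have hη' : (t ^ m * η) ^ 2 = D * hv (Int.castRingHom K) F (t * x) (t * z) := by
    rw [hv_smul, mul_pow, hη, hm]
    ring
  have c2 := h.cop (x := t * x) (z := t * z) hr (IsUnit.mk0 _ (Int.cast_ne_zero.mpr hD))
    (hxz.imp (fun h => IsUnit.mk0 _ (mul_ne_zero ht h)) fun h => IsUnit.mk0 _ (mul_ne_zero ht h))
  have k2 := h.s.scale _ (algebraMap K _ t) h1.2
  rw [← map_mul, ← map_mul] at k2
  obtain ⟨s, hs⟩ := rel_unique (h.eqn hη') c2 k2 h2.2
  obtain ⟨k, hk⟩ := h.ev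
  obtain ⟨c, hc⟩ := (((IsUnit.mk0 _ ht).map (algebraMap K (K ⊗[ℤ] A))).pow k).exists_right_inv
  rw [hk, pow_add] at hs
  rw [cw, cw, cp, cp, cf_congr _ (hν'.mul h1.1) hα' (hν'.mul h2.1) hα'
    ⟨inc A K ν * s * c, by
      linear_combination (inc A K ν * c) ^ 2 * hs -
        (inc A K ν ^ 2 * u * u' * (algebraMap K _ t ^ k * c + 1)) * hc⟩ ⟨_, rfl⟩]

lemma Dat2.exists_mod (h : Dat2 F r G H) {R : Type} [CommRing R] [IsLocalRing R]
    (hR : ∀ n : ℤ, n ≠ 0 → IsUnit (n : R)) (hν : Algebra.norm ℤ ν ≠ 0)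
    (hα : Algebra.norm ℤ α ≠ 0) {u : R ⊗[ℤ] A} (hu : IsUnit u) :
    ∃ (M : Type) (_ : Ring M) (_ : Algebra R M), IsAzumaya R M ∧
      ∀ (K : Type) [Field K] [CharZero K] [Algebra R K],
        cl K (K ⊗[R] M) = cw ν α (tm A (algebraMap R K) u) := by
  have h2 : IsUnit (2 : R) := by exact_mod_cast hR 2 two_ne_zero
  have hp := h.du.perf (hR r h.r0)
  have hα' : IsUnit (inc A R α) := isUnit_inc (hR _ hα)
  obtain ⟨n1, a1, b1, k1, k2, k3⟩ := exists_pc h2 hp isUnit_one hα'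
  obtain ⟨n2, a2, b2, k4, k5, k6⟩ := exists_pc h2 hp ((isUnit_inc (hR _ hν)).mul hu) hα'
  obtain ⟨M, _, _, -, -, h3, h4⟩ := (Mod.pc h2 n1 a1 b1 k1 k2).mul (Mod.pc h2 n2 a2 b2 k4 k5)
  refine ⟨M, _, _, h3, fun K _ _ _ => ?_⟩
  rw [h4, cw, cp, ← tm_inc (algebraMap R K) ν, ← tm_inc (algebraMap R K) α, ← map_mul,
    k6 K _ _ _ bc_tm, ← map_one (tm A (algebraMap R K)), k3 K _ _ _ bc_tm]

variable {E : Type} [Field E] [CharZero E]

theorem Dat2.exists_class (h : Dat2 F r G H) (hD : D ≠ 0) (hν : Algebra.norm ℤ ν ≠ 0)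
    (hα : Algebra.norm ℤ α ≠ 0) {x0 y : E} (hxy : D * y ^ 2 = aeval x0 F) :
    ∃ (B : Type) (_ : Ring B) (_ : Algebra E B), Unram E B ∧
      ∀ (K : Type) [Field K] [CharZero K] (P : Pt E K) (x z η : P.O), Coord F D x0 P.O x z η →
        ∀ t u, t ≠ 0 → Rep2 D G H (t * P.φ x) (t * P.φ z) u →
        ∀ (Inv : (B : Type) → [Ring B] → [Algebra K B] → AddCircle (1 : ℚ) → Prop)
          (q : AddCircle (1 : ℚ)), (∀ (B' : Type) [Ring B'] [Algebra K B'],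
            cl K B' = cw ν α u → Inv B' q) → ValInv B P Inv q := by
  have h0 : (D * y) ^ 2 = D * hv (Int.castRingHom E) F x0 1 := by
    rw [hv_one, ← algebraMap_int_eq, ← aeval_def, ← hxy]
    ring
  obtain ⟨u0, h1⟩ := h.exists_rep (IsUnit.mk0 _ (Int.cast_ne_zero.mpr h.r0))
    (IsUnit.mk0 _ (Int.cast_ne_zero.mpr hD)) (Or.inr isUnit_one) h0
  obtain ⟨B, hB⟩ := Quotient.exists_rep (cw ν α u0)
  have key : ∀ O : ValuationSubring E, (∀ n : ℤ, n ≠ 0 → IsUnit (n : O)) →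
      ∀ x z η : O, Coord F D x0 O x z η → ∃ (M : Type) (_ : Ring M) (_ : Algebra O M),
        IsModel B.A O M ∧ ∃ u, Rep2 D G H x z u ∧
          ∀ (K : Type) [Field K] [CharZero K] [Algebra O K],
            cl K (K ⊗[O] M) = cw ν α (tm A (algebraMap O K) u) := by
    intro O hO x z η hc
    obtain ⟨u, h2⟩ := h.exists_rep (hO r h.r0) (hO D hD) hc.1 hc.2.2.2
    obtain ⟨M, _, _, h3, h4⟩ := h.exists_mod hO hν hα h2.1
    refine ⟨M, _, _, ⟨h3, cl_eq.mp ?_⟩, u, h2, h4⟩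
    rw [h4 E]
    refine Eq.trans ?_ hB.symm
    refine (h.cw_eq hD hν hα (Or.inr one_ne_zero) h0 hc.2.1 h1 ?_).symm
    rw [← hc.2.2.1, mul_one]
    exact h2.map (algebraMap O E)
  refine ⟨B.A, B.r, B.a, fun O hO => ?_, fun K _ _ P x z η hc t u ht h2 Inv q h3 => ?_⟩
  · obtain ⟨x, z, η, hc⟩ := exists_coord h.s.ev hxy O
    obtain ⟨M, _, _, h2, -⟩ := key O (isUnit_intCast_of_rat O hO) x z η hc
    exact ⟨M, _, _, h2⟩
  · obtain ⟨M, _, _, h4, u', h5, h6⟩ := key P.O P.isUnit_intCast x z η hc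
    refine ⟨M, _, _, h4, ?_⟩
    let := P.φ.toAlgebra
    exact h3 _ ((h6 K).trans (h.cw_eq hD hν hα hc.map.1 hc.map.2 ht (h5.map P.φ) h2))

/-- The test class has sign `s` at the point `Q`. -/
def LocV (F : ℤ[X]) (D : ℤ) (x0 : E) (G H : A[X]) (ν α : A) {q : ℕ} [Fact q.Prime]
    (Q : Pt E ℚ_[q]) (s : ℤ) : Prop :=
  ∃ (x z η : Q.O) (t : ℚ_[q]) (u : ℚ_[q] ⊗[ℤ] A) (ε : ZMod q), Coord F D x0 Q.O x z η ∧ t ≠ 0 ∧
    Rep2 D G H (t * Q.φ x) (t * Q.φ z) u ∧ Sg q (cw ν α u) ε ∧ quadraticChar _ ε = s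

theorem Dat2.prod_eq_one (h : Dat2 F r G H) {M : ℕ} (hM : M ≠ 0) (h2 : 2 ∣ M) (hD : D ≠ 0)
    (hν : Algebra.norm ℤ ν ≠ 0) (hα : Algebra.norm ℤ α ≠ 0) (hb : Bad M α) {x y : E}
    (hxy : D * y ^ 2 = aeval x F) {P : Adelic E} (hP : InBM P) (S : Finset ℕ) (sgn : ℕ → ℤ)
    (hS : ∀ q ∈ S, q.Prime ∧ ¬ q ∣ M) (hv : ∀ (q : ℕ) [hq : Fact q.Prime], ¬ q ∣ M →
      LocV F D x G H ν α (P.fin ⟨q, hq.out⟩) (if q ∈ S then sgn q else 1)) :
    ∏ q ∈ S, sgn q = 1 := by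
  obtain ⟨B, _, _, hB, hval⟩ := h.exists_class hD hν hα hxy
  have hs : ∀ q (hq : q.Prime), ¬ q ∣ M → (q ∈ S → sgn q = 1 ∨ sgn q = -1) ∧
      ValInv B (P.fin ⟨q, hq⟩) (@InvP q ⟨hq⟩)
        (if q ∈ S ∧ sgn q = -1 then ((1 / 2 : ℚ) : AddCircle (1 : ℚ)) else 0) := by
    intro q q1 q3
    have : Fact q.Prime := ⟨q1⟩
    obtain ⟨x', z, η, t, u, ε, m1, m2, m3, m4, m5⟩ := hv q q3
    have k1 := hval _ _ x' z η m1 t u m2 m3 _ _ (m4.inv fun h1 : q = 2 => q3 (h1 ▸ h2))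
    have k2 := quadraticChar_dichotomy m4.ne_zero
    rw [m5] at k1 k2
    by_cases hq : q ∈ S
    · simp only [hq, if_true, true_and] at k1 k2 ⊢
      exact ⟨fun _ => k2, k1⟩
    · simp only [hq, if_false, false_and] at k1 ⊢
      exact ⟨False.elim, by simpa using k1⟩
  have hgen : ∀ (K : Type) [Field K] [CharZero K] (Q : Pt E K), IsSquare (inc _ K α) →
      ∀ (Inv : (B : Type) → [Ring B] → [Algebra K B] → AddCircle (1 : ℚ) → Prop),
        (∀ (B' : Type) [Ring B'] [Algebra K B'], BrEq K B' K → Inv B' 0) → ValInv B Q Inv 0 := by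
    intro K _ _ Q k1 Inv k2
    obtain ⟨x', z, η, m1⟩ := exists_coord h.s.ev hxy Q.O
    have hr : IsUnit (r : K) := IsUnit.mk0 _ (Int.cast_ne_zero.mpr h.r0)
    obtain ⟨u, k3⟩ := h.exists_rep hr (IsUnit.mk0 _ (Int.cast_ne_zero.mpr hD))
      (m1.map.1.imp (IsUnit.mk0 _) (IsUnit.mk0 _)) m1.map.2
    refine hval K Q x' z η m1 1 u one_ne_zero (by rwa [one_mul, one_mul]) _ _ fun B' _ _ k4 => ?_
    have k5 : IsUnit (inc A K α) := isUnit_inc (IsUnit.mk0 _ (Int.cast_ne_zero.mpr hα))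
    rw [cw, cp, cf_of_isSquare (h.du.perf hr) isUnit_one k5 k1, cf_of_isSquare (h.du.perf hr)
      ((isUnit_inc (IsUnit.mk0 _ (Int.cast_ne_zero.mpr hν))).mul k3.1) k5 k1, mul_one] at k4
    exact k2 B' (cl_eq.mp k4)
  let inv : Nat.Primes →₀ AddCircle (1 : ℚ) := Finsupp.onFinset (S.subtype Nat.Prime)
    (fun p => if (p : ℕ) ∈ S ∧ sgn p = -1 then ((1 / 2 : ℚ) : AddCircle (1 : ℚ)) else 0)
    (fun p hp => by
      by_contra hcon
      exact hp (if_neg fun h => hcon (Finset.mem_subtype.mpr h.1)))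
  have key := hP _ hB 0 inv (hgen ℝ P.inf hb.1 _ fun _ _ _ h => Or.inl ⟨h, rfl⟩) ?_
  · rw [zero_add, Finsupp.sum_onFinset _ _ _ _ (fun _ _ => rfl)] at key
    refine prod_eq_one_of_sum _ sgn (fun q hq => (hs q (hS q hq).1 (hS q hq).2).1 hq) ?_
    rw [← Finset.sum_subtype_of_mem _ fun p hp => (hS p hp).1]
    refine Eq.trans (Finset.sum_congr rfl fun p hp => ?_) key
    have : (p : ℕ) ∈ S := Finset.mem_subtype.mp hp
    simp only [this, true_and]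
  · rintro ⟨q, q1⟩
    have : Fact q.Prime := ⟨q1⟩
    change ValInv B _ _ (if q ∈ S ∧ sgn q = -1 then _ else _)
    by_cases q3 : q ∣ M
    · rw [if_neg fun h => (hS q h.1).2 q3]
      exact hgen _ _ (hb.2 ⟨q, Nat.mem_primeFactors.mpr ⟨q1, q3, hM⟩⟩) _
        fun _ _ _ h => InvP.of_split h
    · exact (hs q q1 q3).2

end Pool.Agent.P.MP_ab3ecb_nt
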